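import Pool.Agent.Lib.MP_d4b40b_lc.W.Norm

set_option autoImplicit false
set_option linter.unusedSectionVars false

namespace Pool.Agent.Lib.MP_d4b40b_lc.W

open Filter Set Cardinal

variable [S : Sys]

section blk

variable {u : Set I} {γ β c m : I}

lemma blk_insert : blk (insert β u) γ c ↔ blk u γ c ∧ (γ < β → c ≤ β) :=
  ⟨fun h => ⟨fun δ k => h δ (Or.inr k), h β (Or.inl rfl)⟩,
    fun h δ k => k.elim (fun e => e ▸ h.2) (h.1 δ)⟩

lemma z0_insert : Z0 (insert β u) c m ↔ Z0 u c m ∧ (β < c → β < m) :=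
  ⟨fun h => ⟨fun δ k => h δ (Or.inr k), h β (Or.inl rfl)⟩,
    fun h δ k => k.elim (fun e => e ▸ h.2) (h.1 δ)⟩

lemma blk.of_z0 (h : blk u γ m) (z : Z0 u β m) : blk u γ β :=
  fun δ k1 k2 => not_lt.1 fun k3 => absurd (z δ k1 k3) (not_lt.2 (h δ k1 k2))

lemma blk.self (u : Set I) (β : I) : blk u β β := fun _ _ h => h.le

end blk

lemma R0.of_supp {m : I} {C : Cone} {T : Set K} {x y : S0} (h : R0 C T x y) (hy : y.OK m)
    (l : y.a ⊆ T) (T' : Set K) : R0 C T' x y :=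
  ⟨fun _ k => h.a ⟨k.1, l k.1⟩, fun π k _ => h.bl π k (l (hy.bl π k).1),
    fun π k _ => h.n π k (l (hy.bl π k).1)⟩

lemma R1.of_supp {m : I} {on : Prop} {C : Cone} {T : Set K} {x y : S1 m} (h : R1 on C T x y)
    (l : y.b ⊆ T) (T' : Set K) : R1 on C T' x y :=
  ⟨fun _ k => h.b ⟨k.1, l k.1⟩, fun o ξ k _ => h.g o ξ k (l k), fun o ξ k _ => h.f o ξ k (l k)⟩

namespace Raw

variable {p q : Raw} {β γ δ c m : I} {μ ν : Obj β} {ξ η ζ : K}

lemma act_s0_pos (h : m ≤ β) (z : Z0 p.u β m) : (p.act β μ).s0 m = (p.s0 m).tr m μ.g :=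
  if_pos ⟨h, z⟩

lemma act_s0_neg (h : m ≤ β → ¬ Z0 p.u β m) : (p.act β μ).s0 m = p.s0 m :=
  if_neg fun k => h k.1 k.2

lemma act_s0_gt (h : β < m) : (p.act β μ).s0 m = p.s0 m := act_s0_neg fun k => absurd h k.not_gt

lemma act_s0_on (h : m ∈ p.u) (n : m ≠ β) : (p.act β μ).s0 m = p.s0 m :=
  act_s0_neg fun k => not_z0 h le_rfl (k.lt_of_ne n)

lemma act_s1_self : (p.act β μ).s1 β = (p.s1 β).act μ := by
  simp only [act, Function.update_self]

lemma act_s1_pos (h : m < β) (z : blk p.u m β) : (p.act β μ).s1 m = (p.s1 m).tr μ.g := by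
  simp only [act, Function.update_of_ne h.ne, rf, h, z, and_self, if_true]

lemma act_s1_neg (n : m ≠ β) (h : m < β → ¬ blk p.u m β) : (p.act β μ).s1 m = p.s1 m := by
  simp only [act, Function.update_of_ne n, rf]
  exact if_neg fun k => h k.1 k.2

lemma act_s1_gt (h : β < m) : (p.act β μ).s1 m = p.s1 m :=
  act_s1_neg h.ne' fun k => absurd h k.not_gt

lemma act_s2_self : (p.act β μ).s2 β = (p.s2 β).act μ := by
  simp only [act, Function.update_self]

lemma act_s2_pos (h : m < β) (z : blk p.u m β) : (p.act β μ).s2 m = (p.s2 m).tr μ.g := by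
  simp only [act, Function.update_of_ne h.ne, rf, h, z, and_self, if_true]

lemma act_s2_neg (n : m ≠ β) (h : m < β → ¬ blk p.u m β) : (p.act β μ).s2 m = p.s2 m := by
  simp only [act, Function.update_of_ne n, rf]
  exact if_neg fun k => h k.1 k.2

lemma act_s2_gt (h : β < m) : (p.act β μ).s2 m = p.s2 m :=
  act_s2_neg h.ne' fun k => absurd h k.not_gt

/-- away from `β` only the measure one set can change -/
lemma act_s2_ne (n : m ≠ β) : (p.act β μ).s2 m = (p.s2 m).setA ((p.act β μ).A m) := by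
  by_cases h : m < β ∧ blk p.u m β
  · rw [A, act_s2_pos h.1 h.2]; rfl
  · rw [A, act_s2_neg n fun k l => h ⟨k, l⟩]; rfl

lemma act_u : (p.act β μ).u = insert β p.u := Set.ext fun m => by
  show ((p.act β μ).s2 m).on ↔ m = β ∨ (p.s2 m).on
  rcases eq_or_ne m β with rfl | n
  · rw [act_s2_self]; exact iff_of_true trivial (Or.inl rfl)
  · rw [act_s2_ne n]; exact ⟨Or.inr, fun k => k.resolve_left n⟩

lemma mem_act_u (n : m ≠ β) : m ∈ (p.act β μ).u ↔ m ∈ p.u := by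
  rw [act_u]; exact ⟨fun k => k.resolve_left n, Or.inr⟩

lemma self_mem_act_u : β ∈ (p.act β μ).u := act_u ▸ mem_insert _ _

lemma act_cr_self : (p.act β μ).cr β = μ.c := by rw [cr, act_s2_self]; rfl

lemma act_e_self : (p.act β μ).e β = root (p.H β) μ.c := by rw [e, act_s2_self]; rfl

lemma act_b_self : (p.act β μ).b β = p.b β := by rw [b, act_s1_self]; rfl

lemma act_a_self : (p.act β μ).a β = μ.g.im (p.a β) := by
  rw [a, act_s0_pos le_rfl (Z0.self _ _)]; rfl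

lemma act_cr_ne (n : m ≠ β) : (p.act β μ).cr m = p.cr m := by rw [cr, act_s2_ne n]; rfl

lemma act_e_ne (n : m ≠ β) : (p.act β μ).e m = p.e m := by rw [e, act_s2_ne n]; rfl

lemma act_H (m : I) : (p.act β μ).H m = p.H m := by
  rcases eq_or_ne m β with rfl | n
  · rw [H, act_s2_self]; rfl
  · rw [H, act_s2_ne n]; rfl

lemma act_a_pos (h : m ≤ β) (z : Z0 p.u β m) : (p.act β μ).a m = μ.g.im (p.a m) := by
  rw [a, act_s0_pos h z]; rfl

lemma act_b_pos (h : m < β) (z : blk p.u m β) : (p.act β μ).b m = μ.g.im (p.b m) := by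
  rw [b, act_s1_pos h z]; rfl

lemma act_A_pos (h : m < β) (z : blk p.u m β) :
    (p.act β μ).A m = {ν | ν.comp μ.g ∈ p.A m} := by
  rw [A, act_s2_pos h z]; rfl

lemma act_a_neg (h : m ≤ β → ¬ Z0 p.u β m) : (p.act β μ).a m = p.a m := by rw [a, act_s0_neg h]

lemma act_b_neg (h : m < β → ¬ blk p.u m β) : (p.act β μ).b m = p.b m := by
  rcases eq_or_ne m β with rfl | n
  · exact act_b_self
  · rw [b, act_s1_neg n h]

lemma act_A_neg (h : m < β → ¬ blk p.u m β) : (p.act β μ).A m = p.A m := by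
  rcases eq_or_ne m β with rfl | n
  · rw [A, act_s2_self]; rfl
  · rw [A, act_s2_neg n h]

lemma act_a_ge (h : β < m) : (p.act β μ).a m = p.a m := act_a_neg fun k => absurd h k.not_gt

lemma act_b_ge (h : β ≤ m) : (p.act β μ).b m = p.b m := act_b_neg fun k => absurd h k.not_ge

lemma act_A_ge (h : β ≤ m) : (p.act β μ).A m = p.A m := act_A_neg fun k => absurd h k.not_ge

/-- below the block nothing changes -/
lemma info_act_neg (h : m ≤ β) (z : ¬ Z0 p.u β m) : (p.act β μ).info m = p.info m :=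
  info_congr (fun _ l => mem_act_u (l.trans_le h).ne)
    fun _ l => act_s1_neg (l.trans_le h).ne fun _ k => z (k.z0 l)

lemma info_act_on (h : m < β) (z : m ∈ p.u) : (p.act β μ).info m = p.info m :=
  info_act_neg h.le (not_z0 z le_rfl h)

lemma rc_act_neg (h : γ < β) (z : ¬ blk p.u γ β) : (p.act β μ).rc γ = p.rc γ :=
  funext fun ξ => Option.ext fun η => by
    show η ∈ (p.act β μ).rc γ ξ ↔ η ∈ p.rc γ ξ
    rw [mem_rc, mem_rc, mem_act_u h.ne, info_act_neg h.le (mt Z0.blk z), b, b,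
      act_s1_neg h.ne fun _ => z]

lemma rc_act_pos (h : γ < β) (z : blk p.u γ β) :
    η ∈ (p.act β μ).rc γ ζ ↔ ∃ ξ, ζ ∈ μ.g.f ξ ∧ η ∈ p.rc γ ξ := by
  simp only [mem_rc]
  rw [mem_act_u h.ne, b, act_s1_pos h z]
  constructor
  · rintro ⟨k1, ⟨ξ, k2, k3⟩, k4⟩
    rw [S1.tr_g k3, info_act_on h k1] at k4
    exact ⟨ξ, k3, k1, k2, k4⟩
  · rintro ⟨ξ, k3, k1, k2, k4⟩
    rw [S1.tr_g k3, info_act_on h k1]
    exact ⟨k1, ⟨ξ, k2, k3⟩, k4⟩

lemma rc_act_self :
    η ∈ (p.act β μ).rc β ξ ↔ ξ ∈ p.b β ∧ η ∈ (p.s1 β).f ξ μ ((p.act β μ).info β) := by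
  rw [mem_rc, act_b_self, act_s1_self]
  exact ⟨fun k => k.2, fun k => ⟨self_mem_act_u, k⟩⟩

lemma rc_act_own (h : (p.s1 β).OK) (k : ξ ∈ p.b β) (l : η ∈ μ.g.f ξ) :
    η ∈ (p.act β μ).rc β ξ := rc_act_self.2 ⟨k, h.ow ξ k μ _ η l⟩

end Raw

lemma Path.head_iff {u : Set I} {R : Rec} {γ c : I} {ξ η : K} : Path u R γ η c ξ ↔
    ∃ β < c, β ∈ u ∧ blk u β c ∧ ∃ ξ' ∈ R β ξ, (β = γ ∧ ξ' = η) ∨ Path u R γ η β ξ' := by
  refine ⟨Path.head, ?_⟩
  rintro ⟨β, k1, k2, k3, ξ', k4, ⟨rfl, rfl⟩ | k5⟩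
  exacts [.base k1 k2 k3 k4, .step k1 k2 k3 k4 k5]

lemma path_iff {p : Raw} {γ c : I} {ξ η : K} :
    Path p.u p.rc γ η c ξ ↔ η ∈ (p.info c).t c γ ξ :=
  ⟨fun k => mem_inf.2 ⟨Or.inl rfl, k⟩, fun k => (mem_inf.1 k).2⟩

/-- the information at a lower activated level -/
lemma info_low {p : Raw} {γ c m : I} {ξ η : K} (l : c < m) :
    η ∈ (p.info m).t c γ ξ ↔ c ∈ p.u ∧ η ∈ (p.info c).t c γ ξ := by
  rw [← path_iff]
  exact mem_inf.trans (and_congr_left fun _ =>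
    ⟨fun k => (k.resolve_left l.ne).2, fun k => Or.inr ⟨l, k⟩⟩)

lemma info_high {p : Raw} {γ c m : I} {ξ : K} (l : m < c) : (p.info m).t c γ ξ = none :=
  Option.eq_none_iff_forall_not_mem.2 fun _ k =>
    (mem_inf.1 k).1.elim l.ne' fun n => l.not_gt n.1

/-- the first step of a path -/
lemma info_head {p : Raw} {γ m : I} {ξ η : K} : η ∈ (p.info m).t m γ ξ ↔
    ∃ δ < m, δ ∈ p.u ∧ blk p.u δ m ∧ ∃ ξ' ∈ p.rc δ ξ,
      (δ = γ ∧ ξ' = η) ∨ η ∈ (p.info δ).t δ γ ξ' := by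
  rw [← path_iff, Path.head_iff]
  simp only [path_iff]

lemma LoOK.info_supp {p : Raw} {γ c m : I} {ξ η : K} (h : LoOK c p) (l : m ≤ c)
    (k : η ∈ (p.info m).t m γ ξ) : ξ ∈ p.a m := by
  obtain ⟨δ, k1, -, k3, _, k4, -⟩ := info_head.1 k
  exact h.nest δ m k1 l k3 (Raw.mem_rc.1 k4).2.1

section act

variable {p q : Raw} {β γ δ c m : I} {μ ν : Obj β} {T : Set K} {t : Prop}

/-- inside the block the information is transported -/
theorem info_act_pos (h : m ≤ β) (z : Z0 p.u β m) :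
    (p.act β μ).info m = pull m μ.g.inv (p.info m) := by
  refine Info.ext (funext fun c => funext fun γ => funext fun ξ => ?_)
  rcases lt_trichotomy c m with l | rfl | l
  · refine Option.ext fun η => ?_
    show η ∈ ((p.act β μ).info m).t c γ ξ ↔ η ∈ (pull m μ.g.inv (p.info m)).t c γ ξ
    rw [pull_lt l, info_low l, info_low l, Raw.mem_act_u (l.trans_le h).ne]
    exact and_congr_right fun k => by rw [Raw.info_act_on (l.trans_le h) k]
  · refine Option.ext fun η => ?_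
    show η ∈ ((p.act β μ).info c).t c γ ξ ↔ η ∈ (pull c μ.g.inv (p.info c)).t c γ ξ
    rw [mem_pull, info_head]
    constructor
    · rintro ⟨δ, k1, k2, k3, ξ', k4, k5⟩
      have l := k1.trans_le h
      rw [Raw.mem_act_u l.ne] at k2
      rw [Raw.act_u, blk_insert] at k3
      rw [Raw.info_act_on l k2] at k5
      obtain ⟨a, k6, k7⟩ := (Raw.rc_act_pos l (k3.1.of_z0 z)).1 k4
      exact ⟨a, PM.mem_inv.2 k6, info_head.2 ⟨δ, k1, k2, k3.1, ξ', k7, k5⟩⟩
    · rintro ⟨a, k6, k7⟩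
      obtain ⟨δ, k1, k2, k3, ξ', k4, k5⟩ := info_head.1 k7
      have l := k1.trans_le h
      refine ⟨δ, k1, (Raw.mem_act_u l.ne).2 k2, Raw.act_u ▸ blk_insert.2 ⟨k3, fun _ => h⟩, ξ',
        (Raw.rc_act_pos l (k3.of_z0 z)).2 ⟨a, PM.mem_inv.1 k6, k4⟩, ?_⟩
      rwa [Raw.info_act_on l k2]
  · rw [info_high l]
    simp only [pull, if_neg l.ne', if_neg l.le.not_gt]

theorem pull_info_act (hp : LoOK β p) (hd : p.a β ⊆ μ.g.dom) (h : m ≤ β) (z : Z0 p.u β m) :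
    pull m μ.g ((p.act β μ).info m) = p.info m := by
  rw [info_act_pos h z, pull_pull]
  refine Info.ext (funext fun c => funext fun γ => funext fun ξ => ?_)
  rcases lt_trichotomy c m with l | rfl | l
  · rw [pull_lt l]
  · refine Option.ext fun η => mem_pull.trans ⟨?_, fun k => ?_⟩
    · rintro ⟨a, k1, k2⟩
      obtain ⟨b, k3, k4⟩ := PM.mem_comp.1 k1
      rwa [μ.g.inj k3 (PM.mem_inv.1 k4)]
    · obtain ⟨b, k1⟩ := hd (hp.a_sub h z (hp.info_supp h k))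
      exact ⟨ξ, PM.mem_comp.2 ⟨b, k1, PM.mem_inv.2 k1⟩, k⟩
  · rw [info_high l]
    simp only [pull, if_neg l.ne', if_neg l.le.not_gt]

lemma cone_act_pos (hp : LoOK β p) (hd : p.a β ⊆ μ.g.dom) (h : m ≤ β) (z : Z0 p.u β m) {ξ η : K}
    (l : η ∈ μ.g.f ξ) {σ : Info} (k : cone (p.act β μ) m η σ) : cone p m ξ (pull m μ.g σ) :=
  cone_pull (by rw [pull_info_act hp hd h z]; exact Sub.refl _ _ _) l k

lemma cone_act_self (hp : LoOK β p) (hd : p.a β ⊆ μ.g.dom) {σ : Info}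
    (k : ∀ ζ, cone (p.act β μ) β ζ σ) (ξ : K) : cone p β ξ (pull β μ.g σ) := by
  have := (Sub.of_Iic k).pull (g := μ.g) (T := Iic ξ) (fun _ _ => rfl) (subset_univ _)
  rwa [pull_info_act hp hd le_rfl (Z0.self _ _)] at this

lemma info_up_aux (hp : LoOK c p) (hβ : β ∉ p.u) (hd : p.a β ⊆ μ.g.dom) (h1 : β < m) (h2 : m ≤ c)
    (H : ∀ γ, β < γ → γ < m → ∀ ξ, ∀ η ∈ p.rc γ ξ, η ∈ (p.act β μ).rc γ ξ) :
    Sub m univ (p.info m) ((p.act β μ).info m) := by
  have ne : ∀ δ ∈ p.u, δ ≠ β := fun δ k e => hβ (e ▸ k)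
  have up : ∀ δ ∈ p.u, δ ∈ (p.act β μ).u := fun δ k => (Raw.mem_act_u (ne δ k)).2 k
  refine inf_sub (fun c _ => up c) fun c' l γ ξ η k1 k2 => k2.imp (m := m)
    (fun c _ => β < c ∨ c ∈ p.u) (fun c' l1 δ l2 l3 l4 ζ ζ' l5 l6 => ⟨?_, Or.inr l3⟩) l
    (k1.imp (fun e => h1.trans_eq e.1.symm) (·.2))
  rcases (ne δ l3).lt_or_gt with n | n
  · rcases le_or_gt c' β with n' | n'
    · have n2 := l5.resolve_left n'.not_gt
      refine .base l2 (up δ l3) (Raw.act_u ▸ blk_insert.2 ⟨l4, fun _ => n'⟩) ?_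
      rwa [Raw.rc_act_neg n (not_blk n2 l2 (n'.lt_of_ne (ne _ n2)))]
    · have n1 := l4.mono le_rfl n'.le
      have l7 := h1.trans_le h2
      have n2 := hp.nest δ β n l7.le n1 (Raw.mem_rc.1 l6).2.1
      obtain ⟨a, n3⟩ := hd n2
      exact .step n' Raw.self_mem_act_u
        (Raw.act_u ▸ blk_insert.2 ⟨l4.mono n.le le_rfl, fun k => absurd k (lt_irrefl _)⟩)
        (Raw.rc_act_own (hp.s1 β l7) ((hp.s2 β l7).ab hβ n2) n3)
        (.base n (up δ l3) (Raw.act_u ▸ blk_insert.2 ⟨n1, fun _ => le_rfl⟩)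
          ((Raw.rc_act_pos n n1).2 ⟨ζ, n3, l6⟩))
  · exact .base l2 (up δ l3) (Raw.act_u ▸ blk_insert.2 ⟨l4, fun k => absurd k n.not_gt⟩)
      (H δ n (l2.trans_le l1) ζ ζ' l6)

/-- records above `β` are kept -/
theorem rc_act_up (hp : LoOK c p) (hβ : β ∉ p.u) (hd : p.a β ⊆ μ.g.dom) (h1 : β < γ) (h2 : γ < c)
    (ξ : K) : ∀ η ∈ p.rc γ ξ, η ∈ (p.act β μ).rc γ ξ := by
  induction γ using WellFoundedLT.induction generalizing ξ with
  | ind γ ih =>
    intro η k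
    obtain ⟨k1, k2, k3⟩ := Raw.mem_rc.1 k
    refine Raw.mem_rc.2 ⟨(Raw.mem_act_u h1.ne').2 k1, (Raw.act_b_ge h1.le).ge k2, ?_⟩
    rw [Raw.act_s1_gt h1]
    exact (hp.s1 γ h2).gdep ξ k2 _ _ ((info_up_aux hp hβ hd h1 h2.le
      fun δ l1 l2 => ih δ l2 l1 (l2.trans h2)).of_univ _) η k3

/-- the information above `β` grows -/
theorem info_act_up (hp : LoOK c p) (hβ : β ∉ p.u) (hd : p.a β ⊆ μ.g.dom) (h1 : β < m)
    (h2 : m ≤ c) : Sub m univ (p.info m) ((p.act β μ).info m) :=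
  info_up_aux hp hβ hd h1 h2 fun _ l1 l2 => rc_act_up hp hβ hd l1 (l2.trans_le h2)

/-- outside of the block the information grows -/
theorem info_act_out0 (hp : LoOK c p) (hβ : β ∉ p.u) (hd : p.a β ⊆ μ.g.dom)
    (h1 : m ≤ β → ¬ Z0 p.u β m) (h2 : m ≤ c) : Sub m univ (p.info m) ((p.act β μ).info m) := by
  rcases le_or_gt m β with l | l
  · rw [Raw.info_act_neg l (h1 l)]; exact Sub.refl _ _ _
  · exact info_act_up hp hβ hd l h2

lemma cone_act_out (hp : LoOK c p) (hβ : β ∉ p.u) (hd : p.a β ⊆ μ.g.dom)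
    (h1 : m ≤ β → ¬ Z0 p.u β m) (h2 : m ≤ c) {ξ : K} {σ : Info}
    (k : cone (p.act β μ) m ξ σ) : cone p m ξ σ :=
  ((info_act_out0 hp hβ hd h1 h2).of_univ _).trans k

lemma act_s1_ok (h : (p.s1 m).OK) : ((p.act β μ).s1 m).OK := by
  rcases eq_or_ne m β with rfl | n
  · rw [Raw.act_s1_self]; exact h.act μ
  · by_cases k : m < β ∧ blk p.u m β
    · rw [Raw.act_s1_pos k.1 k.2]; exact h.tr _
    · rwa [Raw.act_s1_neg n fun a b => k ⟨a, b⟩]

theorem LoOK.act (h : LoOK c p) (μ : Obj β) : LoOK c (p.act β μ) := by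
  refine ⟨Raw.act_u ▸ h.fin.insert β, fun m l => ?_, fun m l => act_s1_ok (h.s1 m l),
    fun m l => ?_, fun γ m l1 l2 l3 => ?_⟩
  · by_cases k : m ≤ β ∧ Z0 p.u β m
    · rw [Raw.act_s0_pos k.1 k.2]; exact (h.s0 m l).tr _
    · rw [Raw.act_s0_neg fun a b => k ⟨a, b⟩]; exact h.s0 m l
  · have i := h.s2 m l
    rcases eq_or_ne m β with rfl | n
    · rw [Raw.act_s2_self, Raw.act_a_self]
      exact ⟨fun o => absurd trivial o, fun o => absurd trivial o,
        fun _ η ⟨ξ, _, k⟩ => μ.val ξ η k, fun _ => root_val (l.trans_le le_top) _ _⟩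
    · by_cases k : m < β ∧ blk p.u m β
      · rw [Raw.act_s2_pos k.1 k.2, Raw.act_b_pos k.1 k.2]
        refine i.setA (fun o => (i.inv o).tr _) (fun o => ?_) fun o => ?_
        · rw [Raw.act_a_pos k.1.le (k.2.z0' o)]; exact μ.g.im_mono (i.ab o)
        · rw [Raw.a, Raw.act_s0_on o n]; exact i.dm o
      · rw [Raw.act_s2_neg n fun a b => k ⟨a, b⟩, Raw.act_b_neg fun a b => k ⟨a, b⟩,
          Raw.act_a_neg fun a b => k ⟨a.lt_of_ne n, b.blk⟩]
        exact i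
  · rw [Raw.act_u, blk_insert] at l3
    have i := h.nest γ m l1 l2 l3.1
    rcases le_or_gt m β with n | n
    · by_cases k : blk p.u γ β
      · rw [Raw.act_b_pos (l1.trans_le n) k, Raw.act_a_pos n (k.z0 l1)]
        exact μ.g.im_mono i
      · rwa [Raw.act_b_neg fun _ => k, Raw.act_a_neg fun _ z => k (l3.1.of_z0 z)]
    · rwa [Raw.act_b_ge (not_lt.1 fun k => n.not_ge (l3.2 k)), Raw.act_a_ge n]

/-- activation preserves extensions -/
theorem Lo.act (h : Lo c T t q p) (hT : IsLowerSet T) (hq : LoOK c q) (hp : LoOK c p)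
    (l : β ≤ c) (hβ : β ∉ p.u) (hβ' : β ∉ q.u) (hd : q.a β ⊆ μ.g.dom)
    (hs : W.blk p.u β c → p.a β ⊆ T ∧ t) :
    Lo c T t (q.act β μ) (p.act β μ) := by
  have hq' := hq.mono l
  have z0 : ∀ {m}, Z0 q.u β m ↔ Z0 p.u β m := h.z0 l
  have bk : ∀ {m}, W.blk q.u m β ↔ W.blk p.u m β := h.blk l
  have f1 : ∀ {m}, (m < β → ¬ W.blk p.u m β) → F1 (p.act β μ).u c T m ⊆ F1 p.u c T m :=
    fun k ξ n z => n (Raw.act_u ▸ blk_insert.2 ⟨z, fun a => absurd (z.mono le_rfl l) (k a)⟩)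
  refine Lo.of_cone hT (fun γ k => act_s1_ok (hp.s1 γ k)) ⟨fun m k => ?_, fun m k => ?_,
    fun m k => ?_⟩
  · by_cases n : m ≤ β ∧ Z0 p.u β m
    · rw [Raw.act_s0_pos n.1 (z0.2 n.2), Raw.act_s0_pos n.1 n.2]
      exact ((h.s0 m k).of_supp (hp.s0 m k) (fun ξ a z => (hs (z.blk.mono n.1 le_rfl)).1
        ((hp.mono l).a_sub n.1 n.2 a)) Set.univ).tr fun ξ η a _ =>
          ⟨trivial, fun σ => cone_act_pos hq' hd n.1 (z0.2 n.2) a⟩
    · have n' : m ≤ β → ¬ Z0 q.u β m := fun a b => n ⟨a, z0.1 b⟩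
      rw [Raw.act_s0_neg n', Raw.act_s0_neg fun a b => n ⟨a, b⟩]
      refine (h.s0 m k).mono (fun ξ a z => a (Raw.act_u ▸ z0_insert.2 ⟨z, fun _ =>
        not_le.1 fun b => n ⟨b, z.mono l le_rfl⟩⟩)) fun ξ _ σ => cone_act_out hq hβ' hd n' k
  · rcases eq_or_ne m β with rfl | ne
    · rw [Raw.act_s1_self, Raw.act_s1_self]
      have f := f1 (m := m) fun a => absurd a (lt_irrefl _)
      exact ⟨fun ξ a => (h.s1 m k).b ⟨a.1, f a.2⟩, fun _ ξ a b σ n =>
        (h.s1 m k).f hβ ξ a (f b) μ σ (cone_act_self hq' hd n ξ),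
        fun o => absurd Raw.self_mem_act_u o⟩
    by_cases n : m < β ∧ W.blk p.u m β
    · rw [Raw.act_s1_pos n.1 (bk.2 n.2), Raw.act_s1_pos n.1 n.2]
      refine R1.mono (C := W.cone (q.act β μ) m) (T := Set.univ) (((h.s1 m k).of_supp (fun ξ a z =>
        (hs (z.mono n.1.le le_rfl)).1 (hp.nest m β n.1 l n.2 a)) Set.univ).tr
        (fun _ _ _ _ => trivial) (fun o ξ η a _ σ => cone_act_pos hq' hd n.1.le
          (z0.2 (n.2.z0' o)) a) fun o σ a ζ => ?_) (Raw.mem_act_u ne) (subset_univ _)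
        (fun _ _ _ _ => id) fun _ _ => id
      exact cone_act_out hq hβ' hd (fun _ => not_z0 ((h.u k).2 o) le_rfl n.1) k.le (a ζ)
    · have n1 : m < β → ¬ W.blk p.u m β := fun a b => n ⟨a, b⟩
      have n' : m ≤ β → ¬ Z0 q.u β m := fun a b => n ⟨a.lt_of_ne ne, (z0.1 b).blk⟩
      rw [Raw.act_s1_neg ne fun a b => n1 a (bk.1 b), Raw.act_s1_neg ne n1]
      exact (h.s1 m k).mono (Raw.mem_act_u ne) (f1 n1)
        (fun _ ξ _ σ => cone_act_out hq hβ' hd n' k.le)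
        fun _ σ a ζ => cone_act_out hq hβ' hd n' k.le (a ζ)
  · rcases eq_or_ne m β with rfl | ne
    · rw [Raw.act_s2_self, Raw.act_s2_self]
      exact ⟨Iff.rfl, fun _ => rfl, fun _ => root_mono ((h.s2 m k).H hβ) _,
        fun o => absurd trivial o, fun o => absurd trivial o⟩
    by_cases n : m < β ∧ W.blk p.u m β
    · rw [Raw.act_s2_pos n.1 (bk.2 n.2), Raw.act_s2_pos n.1 n.2]
      exact ((h.s2 m k).mono fun _ => False.elim).setA fun o _ ν a =>
        (h.s2 m k).A o (fun z => (hs (z.mono n.1.le le_rfl)).2) a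
    · have n1 : m < β → ¬ W.blk p.u m β := fun a b => n ⟨a, b⟩
      rw [Raw.act_s2_neg ne fun a b => n1 a (bk.1 b), Raw.act_s2_neg ne n1]
      exact (h.s2 m k).mono fun _ a z =>
        a (Raw.act_u ▸ blk_insert.2 ⟨z, fun b => absurd (z.mono le_rfl l) (n1 b)⟩)

/-- objects which agree on the support give the same activation -/
theorem LoC.act_agr (C : I → Cone) (T : Set K) (t : Prop) (hp : LoOK c p) (l : β < c)
    (hβ : β ∉ p.u) (e : Agr (p.b β) μ ν) : LoC C c T t (p.act β μ) (p.act β ν) := by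
  have ea : ∀ ξ ∈ p.a β, μ.g.f ξ = ν.g.f ξ := fun ξ k => e.2 ξ ((hp.s2 β l).ab hβ k)
  refine ⟨fun m k => ?_, fun m k => ?_, fun m k => ?_⟩
  · by_cases n : m ≤ β ∧ Z0 p.u β m
    · rw [Raw.act_s0_pos n.1 n.2, Raw.act_s0_pos n.1 n.2]
      exact (S0.tr_congr (hp.s0 m k) fun ξ a => ea ξ ((hp.mono l.le).a_sub n.1 n.2 a)).le _ _
    · rw [Raw.act_s0_neg fun a b => n ⟨a, b⟩, Raw.act_s0_neg fun a b => n ⟨a, b⟩]
      exact R0.refl _ _ _
  · rcases eq_or_ne m β with rfl | ne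
    · rw [Raw.act_s1_self, Raw.act_s1_self]
      exact ⟨inter_subset_left, fun _ ξ a _ σ _ => congrFun
        ((hp.s1 m k).inv ξ a μ ν (agr_mono e inter_subset_left)) σ, fun _ _ _ _ _ _ _ => rfl⟩
    by_cases n : m < β ∧ W.blk p.u m β
    · rw [Raw.act_s1_pos n.1 n.2, Raw.act_s1_pos n.1 n.2]
      exact (S1.tr_congr _ (hp.s1 m k) fun ξ a => ea ξ (hp.nest m β n.1 l.le n.2 a)).le _ _
    · rw [Raw.act_s1_neg ne fun a b => n ⟨a, b⟩, Raw.act_s1_neg ne fun a b => n ⟨a, b⟩]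
      exact R1.refl _ _ _ _
  · rcases eq_or_ne m β with rfl | ne
    · rw [Raw.act_s2_self, Raw.act_s2_self]
      exact ⟨Iff.rfl, fun _ => e.1, fun _ => (congrArg (root (p.H m)) e.1).ge, fun _ => le_rfl,
        fun _ _ => Subset.rfl⟩
    by_cases n : m < β ∧ W.blk p.u m β
    · rw [Raw.act_s2_pos n.1 n.2, Raw.act_s2_pos n.1 n.2]
      exact (At.refl _ _).setA fun o _ => (((hp.s2 m k).inv o).tr_congr
        fun ξ a => ea ξ (hp.nest m β n.1 l.le n.2 a)).le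
    · rw [Raw.act_s2_neg ne fun a b => n ⟨a, b⟩, Raw.act_s2_neg ne fun a b => n ⟨a, b⟩]
      exact At.refl _ _

theorem Lo.act_agr (hT : IsLowerSet T) (t : Prop) (hp : LoOK c p) (l : β < c)
    (hβ : β ∉ p.u) (e : Agr (p.b β) μ ν) : Lo c T t (p.act β μ) (p.act β ν) :=
  Lo.of_eq hT (fun γ k => act_s1_ok (hp.s1 γ k)) (LoC.act_agr _ T t hp l hβ e)

/-- activation above an activated level does not change the part below that level -/
lemma lo_act_below (hc : c ∈ p.u) (l : c < β) (μ : Obj β) (T : Set K) (t : Prop) :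
    Lo c T t (p.act β μ) p ∧ Lo c T t p (p.act β μ) := by
  have h0 : ∀ m ≤ c, (p.act β μ).s0 m = p.s0 m := fun m k => Raw.act_s0_neg fun _ => not_z0 hc k l
  have h1 : ∀ m < c, (p.act β μ).s1 m = p.s1 m :=
    fun m k => Raw.act_s1_neg (k.trans l).ne fun _ => not_blk hc k l
  have h2 : ∀ m < c, (p.act β μ).s2 m = p.s2 m :=
    fun m k => Raw.act_s2_neg (k.trans l).ne fun _ => not_blk hc k l
  exact ⟨Lo.of_congr h0 h1 fun m k => h2 m k ▸ At.refl _ _, Lo.of_congr (fun m k => (h0 m k).symm)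
    (fun m k => (h1 m k).symm) fun m k => h2 m k ▸ At.refl _ _⟩

lemma at_act_on (hc : c ∈ p.u) (n : c ≠ β) (μ : Obj β) (t : Prop) :
    At t ((p.act β μ).s2 c) (p.s2 c) ∧ At t (p.s2 c) ((p.act β μ).s2 c) := by
  rw [Raw.act_s2_ne n]
  exact ⟨⟨Iff.rfl, fun _ => rfl, fun _ => Subset.rfl, fun _ => le_rfl, fun o => absurd hc o⟩,
    ⟨Iff.rfl, fun _ => rfl, fun _ => Subset.rfl, fun _ => le_rfl, fun o => absurd hc o⟩⟩

/-- commutation inside a block -/
theorem act_comm_blk {β' : I} (l : β < β') (hβ : β ∉ p.u) (z : blk p.u β β') (μ' : Obj β')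
    (ν : Obj β) : (p.act β' μ').act β ν = (p.act β (ν.comp μ'.g)).act β' μ' := by
  have z' := z.z0' hβ
  have a1 : ∀ {m}, Z0 (p.act β' μ').u β m ↔ Z0 p.u β m := by
    intro m; rw [Raw.act_u, z0_insert]; exact and_iff_left fun k => absurd k l.not_gt
  have a2 : ∀ {m}, blk (p.act β' μ').u m β ↔ blk p.u m β := by
    intro m; rw [Raw.act_u, blk_insert]; exact and_iff_left fun _ => l.le
  have a3 : ∀ {m}, Z0 (p.act β (ν.comp μ'.g)).u β' m ↔ β < m := by
    intro m; rw [Raw.act_u, z0_insert]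
    exact ⟨fun k => k.2 l, fun k => ⟨z'.mono le_rfl k.le, fun _ => k⟩⟩
  have a4 : ∀ {m}, blk (p.act β (ν.comp μ'.g)).u m β' ↔ β ≤ m := by
    intro m; rw [Raw.act_u, blk_insert]
    exact ⟨fun k => not_lt.1 fun n => l.not_ge (k.2 n),
      fun k => ⟨z.mono k le_rfl, fun n => absurd n k.not_gt⟩⟩
  refine Raw.ext (funext fun m => ?_) (funext fun m => ?_) (funext fun m => ?_)
  · rcases le_or_gt m β with k | k
    · rw [Raw.act_s0_neg (β := β') fun _ n => k.not_gt (a3.1 n)]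
      by_cases n : Z0 p.u β m
      · rw [Raw.act_s0_pos k (a1.2 n), Raw.act_s0_pos k n,
          Raw.act_s0_pos (k.trans l.le) fun δ k1 k2 => n δ k1 (z' δ k1 k2), S0.tr_tr]
        rfl
      · rw [Raw.act_s0_neg fun _ => mt a1.1 n, Raw.act_s0_neg fun _ => n,
          Raw.act_s0_neg fun _ i => n (i.mono l.le le_rfl)]
    · rw [Raw.act_s0_gt k]
      rcases le_or_gt m β' with k' | k'
      · rw [Raw.act_s0_pos k' (a3.2 k), Raw.act_s0_pos k' (z'.mono le_rfl k.le), Raw.act_s0_gt k]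
      · rw [Raw.act_s0_gt k', Raw.act_s0_gt k', Raw.act_s0_gt k]
  · rcases lt_trichotomy m β with k | rfl | k
    · rw [Raw.act_s1_neg (β := β') (k.trans l).ne fun _ n => k.not_ge (a4.1 n)]
      by_cases n : blk p.u m β
      · rw [Raw.act_s1_pos k (a2.2 n), Raw.act_s1_pos k n,
          Raw.act_s1_pos (k.trans l) (n.trans z hβ), S1.tr_tr]
        rfl
      · rw [Raw.act_s1_neg k.ne fun _ => mt a2.1 n, Raw.act_s1_neg k.ne fun _ => n,
          Raw.act_s1_neg (k.trans l).ne fun _ i => n (i.mono le_rfl l.le)]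
    · rw [Raw.act_s1_self, Raw.act_s1_pos l z, Raw.act_s1_pos l (a4.2 le_rfl), Raw.act_s1_self,
        S1.act_tr]
    · rw [Raw.act_s1_gt k]
      rcases lt_trichotomy m β' with k' | rfl | k'
      · rw [Raw.act_s1_pos k' (a4.2 k.le), Raw.act_s1_pos k' (z.mono k.le le_rfl), Raw.act_s1_gt k]
      · rw [Raw.act_s1_self, Raw.act_s1_self, Raw.act_s1_gt k]
      · rw [Raw.act_s1_gt k', Raw.act_s1_gt k', Raw.act_s1_gt k]
  · rcases lt_trichotomy m β with k | rfl | k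
    · rw [Raw.act_s2_neg (β := β') (k.trans l).ne fun _ n => k.not_ge (a4.1 n)]
      by_cases n : blk p.u m β
      · rw [Raw.act_s2_pos k (a2.2 n), Raw.act_s2_pos k n,
          Raw.act_s2_pos (k.trans l) (n.trans z hβ)]
        simp only [S2.tr, S2.setA, mem_ofPred_eq, Obj.comp_comp]
        rfl
      · rw [Raw.act_s2_neg k.ne fun _ => mt a2.1 n, Raw.act_s2_neg k.ne fun _ => n,
          Raw.act_s2_neg (k.trans l).ne fun _ i => n (i.mono le_rfl l.le)]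
    · rw [Raw.act_s2_self, Raw.act_s2_pos l z, Raw.act_s2_pos l (a4.2 le_rfl), Raw.act_s2_self]
      rfl
    · rw [Raw.act_s2_gt k]
      rcases lt_trichotomy m β' with k' | rfl | k'
      · rw [Raw.act_s2_pos k' (a4.2 k.le), Raw.act_s2_pos k' (z.mono k.le le_rfl), Raw.act_s2_gt k]
      · rw [Raw.act_s2_self, Raw.act_s2_self, Raw.act_s2_gt k]
      · rw [Raw.act_s2_gt k', Raw.act_s2_gt k', Raw.act_s2_gt k]

/-- commutation in different blocks -/
theorem act_comm_far {β' : I} (l : β < β') (z : ¬ blk p.u β β') (μ' : Obj β') (ν : Obj β) :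
    (p.act β' μ').act β ν = (p.act β ν).act β' μ' := by
  have a1 : ∀ {m}, Z0 (p.act β' μ').u β m ↔ Z0 p.u β m := by
    intro m; rw [Raw.act_u, z0_insert]; exact and_iff_left fun k => absurd k l.not_gt
  have a2 : ∀ {m}, blk (p.act β' μ').u m β ↔ blk p.u m β := by
    intro m; rw [Raw.act_u, blk_insert]; exact and_iff_left fun _ => l.le
  have a3 : ∀ {m}, Z0 (p.act β ν).u β' m ↔ Z0 p.u β' m := by
    intro m; rw [Raw.act_u, z0_insert]
    exact and_iff_left_of_imp fun k _ => not_le.1 fun n => z (k.blk.mono n le_rfl)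
  have a4 : ∀ {m}, blk (p.act β ν).u m β' ↔ blk p.u m β' := by
    intro m; rw [Raw.act_u, blk_insert]
    exact and_iff_left_of_imp fun k n => absurd (k.mono n.le le_rfl) z
  have n0 : ∀ {m}, m ≤ β → ¬ Z0 p.u β' m := fun k n => z (n.blk.mono k le_rfl)
  have n1 : ∀ {m}, m ≤ β → ¬ blk p.u m β' := fun k n => z (n.mono k le_rfl)
  refine Raw.ext (funext fun m => ?_) (funext fun m => ?_) (funext fun m => ?_)
  · rcases le_or_gt m β with k | k
    · rw [Raw.act_s0_neg (β := β') fun _ => mt a3.1 (n0 k)]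
      by_cases n : Z0 p.u β m
      · rw [Raw.act_s0_pos k (a1.2 n), Raw.act_s0_pos k n, Raw.act_s0_neg fun _ => n0 k]
      · rw [Raw.act_s0_neg fun _ => mt a1.1 n, Raw.act_s0_neg fun _ => n,
          Raw.act_s0_neg fun _ => n0 k]
    · rw [Raw.act_s0_gt k]
      by_cases n : m ≤ β' ∧ Z0 p.u β' m
      · rw [Raw.act_s0_pos n.1 (a3.2 n.2), Raw.act_s0_pos n.1 n.2, Raw.act_s0_gt k]
      · rw [Raw.act_s0_neg fun a b => n ⟨a, b⟩, Raw.act_s0_neg fun a b => n ⟨a, a3.1 b⟩,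
          Raw.act_s0_gt k]
  · rcases lt_trichotomy m β with k | rfl | k
    · rw [Raw.act_s1_neg (β := β') (k.trans l).ne fun _ => mt a4.1 (n1 k.le)]
      by_cases n : blk p.u m β
      · rw [Raw.act_s1_pos k (a2.2 n), Raw.act_s1_pos k n,
          Raw.act_s1_neg (k.trans l).ne fun _ => n1 k.le]
      · rw [Raw.act_s1_neg k.ne fun _ => mt a2.1 n, Raw.act_s1_neg k.ne fun _ => n,
          Raw.act_s1_neg (k.trans l).ne fun _ => n1 k.le]
    · rw [Raw.act_s1_self, Raw.act_s1_neg l.ne fun _ => z, Raw.act_s1_neg l.ne fun _ => mt a4.1 z,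
        Raw.act_s1_self]
    · rw [Raw.act_s1_gt k]
      rcases eq_or_ne m β' with rfl | ne
      · rw [Raw.act_s1_self, Raw.act_s1_self, Raw.act_s1_gt k]
      by_cases n : m < β' ∧ blk p.u m β'
      · rw [Raw.act_s1_pos n.1 (a4.2 n.2), Raw.act_s1_pos n.1 n.2, Raw.act_s1_gt k]
      · rw [Raw.act_s1_neg ne fun a b => n ⟨a, b⟩, Raw.act_s1_neg ne fun a b => n ⟨a, a4.1 b⟩,
          Raw.act_s1_gt k]
  · rcases lt_trichotomy m β with k | rfl | k
    · rw [Raw.act_s2_neg (β := β') (k.trans l).ne fun _ => mt a4.1 (n1 k.le)]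
      by_cases n : blk p.u m β
      · rw [Raw.act_s2_pos k (a2.2 n), Raw.act_s2_pos k n,
          Raw.act_s2_neg (k.trans l).ne fun _ => n1 k.le]
      · rw [Raw.act_s2_neg k.ne fun _ => mt a2.1 n, Raw.act_s2_neg k.ne fun _ => n,
          Raw.act_s2_neg (k.trans l).ne fun _ => n1 k.le]
    · rw [Raw.act_s2_self, Raw.act_s2_neg l.ne fun _ => z, Raw.act_s2_neg l.ne fun _ => mt a4.1 z,
        Raw.act_s2_self]
    · rw [Raw.act_s2_gt k]
      rcases eq_or_ne m β' with rfl | ne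
      · rw [Raw.act_s2_self, Raw.act_s2_self, Raw.act_s2_gt k]
      by_cases n : m < β' ∧ blk p.u m β'
      · rw [Raw.act_s2_pos n.1 (a4.2 n.2), Raw.act_s2_pos n.1 n.2, Raw.act_s2_gt k]
      · rw [Raw.act_s2_neg ne fun a b => n ⟨a, b⟩, Raw.act_s2_neg ne fun a b => n ⟨a, a4.1 b⟩,
          Raw.act_s2_gt k]

variable [X : Ext S]

theorem OK.act (h : OK p) (hβ : β ∉ p.u) (r : Refl p p.A β μ) : OK (p.act β μ) := by
  have ne : ⊤ ≠ β := fun e => hβ (e ▸ h.top)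
  refine ⟨h.lo.act μ, (Raw.mem_act_u ne).2 h.top, (Raw.act_cr_ne ne).trans h.root,
    fun γ c k1 k2 => ?_⟩
  have k3 := k2.blk
  rw [Raw.act_u] at k1 k3
  rw [blk_insert] at k3
  rcases eq_or_ne c β with rfl | n
  · rw [Raw.act_cr_self, Raw.act_A_pos k2.lt k3.1]
    exact r.2 γ k2.lt (fun i => k1 (Or.inr i)) k3.1
  · have k4 := (Raw.mem_act_u n).1 k2.mem
    rw [Raw.act_cr_ne n, Raw.act_A_neg fun a => not_blk k4 k2.lt ((k3.2 a).lt_of_ne n)]
    exact h.big γ c (fun i => k1 (Or.inr i)) ⟨k4, k2.lt, k3.1⟩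

theorem Nrm.act (h : Nrm p) (μ : Obj β) : Nrm (p.act β μ) := by
  intro m k ν hν
  rw [Raw.act_u] at k
  have ne : m ≠ β := fun e => k (Or.inl e)
  have k' : m ∉ p.u := fun e => k (Or.inr e)
  by_cases n : m < β ∧ blk p.u m β
  · rw [Raw.act_A_pos n.1 n.2] at hν
    have r := h m k' _ hν
    refine ⟨?_, fun γ l1 l2 l3 => ?_⟩
    · rw [Raw.act_a_pos n.1.le (n.2.z0' k')]
      rintro η ⟨ξ, i1, i2⟩
      obtain ⟨θ, i3⟩ := r.1 i1
      obtain ⟨a, i4, i5⟩ := PM.mem_comp.1 i3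
      exact ⟨θ, Option.mem_unique i4 i2 ▸ i5⟩
    · rw [Raw.act_u, blk_insert] at l3
      rw [Raw.act_A_pos (l1.trans n.1) (l3.1.trans n.2 k')]
      have := r.2 γ l1 (mt (Raw.mem_act_u (l1.trans n.1).ne).2 l2) l3.1
      simp only [mem_ofPred_eq, Obj.comp_comp]
      exact this
  · rw [Raw.act_A_neg fun a b => n ⟨a, b⟩] at hν
    have r := h m k' _ hν
    refine ⟨?_, fun γ l1 l2 l3 => ?_⟩
    · rw [Raw.act_a_neg fun a b => n ⟨a.lt_of_ne ne, b.blk⟩]; exact r.1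
    · rw [Raw.act_u] at l2 l3
      rw [blk_insert] at l3
      rw [Raw.act_A_neg fun a b => n ⟨(l3.2 a).lt_of_ne ne, b.mono l1.le le_rfl⟩]
      exact r.2 γ l1 (fun i => l2 (Or.inr i)) l3.1

end act

section cond

variable [X : Ext S] {r q p : Cond} {α : K} {β β' γ m : I} {μ ν : Obj β}

theorem act_val (h : Adm p β μ) : (act p β μ).1 = p.1.act β μ :=
  Cond.mk_val _ ⟨p.ok.act h.1 (p.nrm β h.1 μ h.2), p.nrm.act μ⟩

lemma act_u (h : Adm p β μ) : (act p β μ).u = insert β p.u := by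
  rw [Cond.u, act_val h, Raw.act_u]

lemma act_on (h : Adm p β μ) : β ∈ (act p β μ).u := act_u h ▸ mem_insert _ _

lemma act_cr (h : Adm p β μ) : (act p β μ).cr β = μ.c := by
  rw [Cond.cr, act_val h, Raw.act_cr_self]

lemma act_e (h : Adm p β μ) : (act p β μ).e β = root (p.H β) μ.c := by
  rw [Cond.e, act_val h, Raw.act_e_self]

lemma act_s1_self (h : Adm p β μ) : (act p β μ).1.s1 β = (p.1.s1 β).act μ := by
  rw [act_val h, Raw.act_s1_self]

lemma act_b (h : Adm p β μ) : (act p β μ).b β = p.b β := by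
  rw [Cond.b, act_val h, Raw.act_b_self]

lemma act_s0_out (h : Adm p β μ) (l : ¬ (m ≤ β ∧ Z0 p.u β m)) :
    (act p β μ).1.s0 m = p.1.s0 m := by
  rw [act_val h, Raw.act_s0_neg fun a b => l ⟨a, b⟩]

lemma act_s0_in (h : Adm p β μ) (l : m ≤ β) (z : Z0 p.u β m) :
    (act p β μ).1.s0 m = (p.1.s0 m).tr m μ.g := by
  rw [act_val h, Raw.act_s0_pos l z]

lemma ne_of_out {u : Set I} (l : ¬ (m ≤ β ∧ blk u m β)) : m ≠ β :=
  fun e => l ⟨e.le, e ▸ blk.self u m⟩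

lemma act_s1_out (h : Adm p β μ) (l : ¬ (m ≤ β ∧ blk p.u m β)) :
    (act p β μ).1.s1 m = p.1.s1 m := by
  rw [act_val h, Raw.act_s1_neg (ne_of_out l) fun a b => l ⟨a.le, b⟩]

lemma act_s1_in (h : Adm p β μ) (l : m < β) (z : blk p.u m β) :
    (act p β μ).1.s1 m = (p.1.s1 m).tr μ.g := by
  rw [act_val h, Raw.act_s1_pos l z]

lemma act_s2_out (h : Adm p β μ) (l : ¬ (m ≤ β ∧ blk p.u m β)) :
    (act p β μ).1.s2 m = p.1.s2 m := by
  rw [act_val h, Raw.act_s2_neg (ne_of_out l) fun a b => l ⟨a.le, b⟩]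

lemma act_s2_in (h : Adm p β μ) (l : m < β) (z : blk p.u m β) :
    (act p β μ).1.s2 m = (p.1.s2 m).tr μ.g := by
  rw [act_val h, Raw.act_s2_pos l z]

lemma act_H (h : Adm p β μ) (m : I) : (act p β μ).H m = p.H m := by
  rw [Cond.H, act_val h, Raw.act_H]

lemma act_A_ge (h : Adm p β μ) (l : β ≤ m) : (act p β μ).A m = p.A m := by
  rw [Cond.A, act_val h, Raw.act_A_ge l]

lemma act_A_in (h : Adm p β μ) (l : m < β) (z : blk p.u m β) :
    (act p β μ).A m = {ν | ν.comp μ.g ∈ p.A m} := by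
  rw [Cond.A, act_val h, Raw.act_A_pos l z]

lemma act_A_out (h : Adm p β μ) (z : ¬ blk p.u m β) : (act p β μ).A m = p.A m := by
  rw [Cond.A, act_val h, Raw.act_A_neg fun _ => z]

lemma act_cr_ne (h : Adm p β μ) (n : m ≠ β) : (act p β μ).cr m = p.cr m := by
  rw [Cond.cr, act_val h, Raw.act_cr_ne n]

lemma act_e_ne (h : Adm p β μ) (n : m ≠ β) : (act p β μ).e m = p.e m := by
  rw [Cond.e, act_val h, Raw.act_e_ne n]

lemma act_info (h : Adm p β μ) (m : I) : (act p β μ).info m = (p.1.act β μ).info m := by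
  rw [Cond.info, act_val h]

/-- I1 -/
lemma info_act_out (h : Adm p β μ) (l : ¬ (m ≤ β ∧ Z0 p.u β m)) :
    Sub m univ (p.info m) ((act p β μ).info m) := by
  rw [act_info h]
  exact info_act_out0 p.lo h.1 h.dom (fun a b => l ⟨a, b⟩) le_top

lemma pull_info (h : Adm p β μ) (l : m ≤ β) (z : Z0 p.u β m) :
    pull m μ.g ((act p β μ).info m) = p.info m := by
  rw [act_info h, pull_info_act (p.lo.mono le_top) h.dom l z]

/-- I2 -/
lemma info_act_in (h : Adm p β μ) (l : m ≤ β) (z : Z0 p.u β m) :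
    Sub m univ (p.info m) (pull m μ.g ((act p β μ).info m)) := by
  rw [pull_info h l z]
  exact Sub.refl _ _ _

/-- the new record is seen from the levels of the block above -/
lemma info_act_new (h : Adm p β μ) (l : β < m) (z : blk p.u β m) {ξ η : K} (k : ξ ∈ p.b β)
    (k' : η ∈ μ.g.f ξ) : η ∈ ((act p β μ).info m).t m β ξ := by
  rw [act_info h]
  exact path_iff.1 (.base l Raw.self_mem_act_u
    (Raw.act_u ▸ blk_insert.2 ⟨z, fun k => absurd k (lt_irrefl _)⟩)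
    (Raw.rc_act_own (p.lo.s1 β h.lt) k k'))

lemma act_mono (e : DLe q p) (h : Adm q β μ) : DLe (act q β μ) (act p β μ) := by
  rw [DLe, act_val h, act_val (h.dle e)]
  exact Lo.act e isLowerSet_univ q.lo p.lo le_top (h.dle e).1 h.1 h.dom
    fun _ => ⟨subset_univ _, trivial⟩

lemma act_lb' (e : Lb β' q p) (l : β ≤ β') (h : Adm q β μ) (h' : Adm p β μ) :
    Lb β' (act q β μ) (act p β μ) := by
  rw [Lb, act_val h, act_val h']
  exact Lo.act e isLowerSet_univ (q.lo.mono le_top) (p.lo.mono le_top) l h'.1 h.1 h.dom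
    fun _ => ⟨subset_univ _, trivial⟩

lemma Adm.lw (h : Adm q β μ) (e : Lw β q p) : Adm p β μ :=
  ⟨mt e.on.2 h.1, e.2.A (mt e.on.2 h.1) trivial h.2⟩

lemma act_lb (e : Lb β' q p) (l : β < β') (h : Adm q β μ) :
    Adm p β μ ∧ Lb β' (act q β μ) (act p β μ) :=
  ⟨h.lw (e.lw l), act_lb' e l.le h (h.lw (e.lw l))⟩

lemma act_lw (e : Lw β q p) (h : Adm q β μ) : Adm p β μ ∧ Lw β (act q β μ) (act p β μ) := by
  refine ⟨h.lw e, act_lb' e.1 le_rfl h (h.lw e), ?_⟩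
  rw [act_val h, act_val (h.lw e), Raw.act_s2_self, Raw.act_s2_self]
  exact ⟨Iff.rfl, fun _ => rfl, fun _ => root_mono (e.2.H (h.lw e).1) _,
    fun o => absurd trivial o, fun o => absurd trivial o⟩

lemma act_ex (e : Ex α q p) (l : ¬ blk p.u β ⊤) (h : Adm q β μ) :
    Adm p β μ ∧ Ex α (act q β μ) (act p β μ) := by
  have n : β ∉ p.u := e.u ▸ h.1
  have h' : Adm p β μ := ⟨n, (e.s2 β h.lt).A n (fun z => absurd z l) h.2⟩
  refine ⟨h', ?_⟩
  rw [Ex, act_val h, act_val h']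
  exact Lo.act e (isLowerSet_Iio α) q.lo p.lo le_top n h.1 h.dom fun z => absurd z l

lemma act_agr (h : Adm p β μ) (e : Agr (p.b β) μ ν) : DLe (act p β ν) (act p β μ) := by
  rw [DLe, act_val h, act_val (h.agr e)]
  exact Lo.act_agr isLowerSet_univ _ p.lo h.lt h.1 e.symm

lemma dle_of_eq (h : q.1 = p.1) : DLe q p := Subtype.ext h ▸ DLe.refl _

lemma Adm.not_mem {ν : Obj γ} (h : Adm p β μ) (h' : Adm (act p β μ) γ ν) : γ ∉ p.u :=
  fun k => h'.1 (act_u h ▸ Or.inr k)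

lemma adm_up {ν : Obj γ} (h : Adm p β μ) (h' : Adm p γ ν) (l : γ < β) : Adm (act p γ ν) β μ :=
  ⟨fun k => (act_u h' ▸ k : β ∈ insert γ p.u).elim l.ne' h.1, (act_A_ge h' l.le).ge h.2⟩

/-- ν' = ν.comp μ.g if blk p.u γ β, else ν -/
lemma comm_lo (h : Adm p β μ) (l : γ < β) {ν : Obj γ} (h' : Adm (act p β μ) γ ν) :
    ∃ ν', Adm p γ ν' ∧ Adm (act p γ ν') β μ ∧
      DLe (act (act p β μ) γ ν) (act (act p γ ν') β μ) := by
  have n := h.not_mem h'
  by_cases z : blk p.u γ β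
  · have k : Adm p γ (ν.comp μ.g) := ⟨n, (act_A_in h l z).le h'.2⟩
    refine ⟨_, k, adm_up h k l, dle_of_eq ?_⟩
    rw [act_val h', act_val h, act_val (adm_up h k l), act_val k, act_comm_blk l n z]
  · have k : Adm p γ ν := ⟨n, (act_A_out h z).le h'.2⟩
    refine ⟨_, k, adm_up h k l, dle_of_eq ?_⟩
    rw [act_val h', act_val h, act_val (adm_up h k l), act_val k, act_comm_far l z]

/-- μ' = μ.comp ν.g.inv if blk p.u β γ, else μ -/
lemma comm_hi (h : Adm p β μ) (l : β < γ) {ν : Obj γ} (h' : Adm (act p β μ) γ ν) :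
    Adm p γ ν ∧ ∃ μ', Adm (act p γ ν) β μ' ∧
      DLe (act (act p β μ) γ ν) (act (act p γ ν) β μ') := by
  have k : Adm p γ ν := ⟨h.not_mem h', (act_A_ge h l.le).le h'.2⟩
  have n : β ∉ (act p γ ν).u := fun i => (act_u k ▸ i : β ∈ insert γ p.u).elim l.ne h.1
  refine ⟨k, ?_⟩
  by_cases z : blk p.u β γ
  · have e : Agr (p.b β) μ ((μ.comp ν.g.inv).comp ν.g) := by
      refine ⟨rfl, fun ξ i => ?_⟩
      obtain ⟨η, j⟩ := k.dom (p.lo.nest β γ l le_top z i)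
      exact ((PM.comp_eq j).trans (PM.comp_eq (PM.mem_inv.2 j))).symm
    have k' : Adm (act p γ ν) β (μ.comp ν.g.inv) := ⟨n, (act_A_in k l z).ge (h.agr e).2⟩
    refine ⟨_, k', (act_mono (act_agr (h.agr e) e.symm) h').trans (dle_of_eq ?_)⟩
    rw [act_val (adm_up k (h.agr e) l), act_val (h.agr e), act_val k', act_val k,
      act_comm_blk l h.1 z]
  · have k' : Adm (act p γ ν) β μ := ⟨n, (act_A_out k z).ge h.2⟩
    refine ⟨_, k', dle_of_eq ?_⟩
    rw [act_val h', act_val h, act_val k', act_val k, act_comm_far l z]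

end cond

end Pool.Agent.Lib.MP_d4b40b_lc.W
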