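import Pool.Agent.Lib.MP_d4b40b_lc.W.Setup

set_option autoImplicit false
set_option linter.unusedSectionVars false

namespace Pool.Agent.Lib.MP_d4b40b_lc.W

open Filter Set Cardinal

variable [S : Sys]

/-- guiding constraints -/
def HH (m : I) : Type :=
  {h : D m → Xi m → Set (Tr K) // ∀ d ξ, Val #(dm d) (Lt K (kp m)) (h d ξ)}

instance (m : I) : Inhabited (HH m) := ⟨⟨fun _ _ => ∅, fun _ _ => Val.empty⟩⟩

instance (m : I) : Preorder (HH m) where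
  le h h' := ∀ d, ∀ᶠ ξ in (VV m : Filter (Xi m)), h'.1 d ξ ⊆ h.1 d ξ
  le_refl _ _ := Eventually.of_forall fun _ => Subset.rfl
  le_trans _ _ _ h h' d := ((h d).and (h' d)).mono fun _ k => k.2.trans k.1

variable {m : I}

lemma HH.le_def {h h' : HH m} :
    h ≤ h' ↔ ∀ d, ∀ᶠ ξ in (VV m : Filter (Xi m)), h'.1 d ξ ⊆ h.1 d ξ := Iff.rfl

lemma HH.le_default (h : HH m) : h ≤ default := fun _ => Eventually.of_forall fun _ => empty_subset _

lemma dm_lt (hm : m < ⊤) (d : D m) : #(dm d) < kp m := S.dm_lt m d hm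

lemma mk_ec (hm : m < ⊤) (d : D m) :
    #{e : Set (Tr K) // Val #(dm d) (Lt K (kp m)) e} ≤ kp m :=
  mk_val_le (lower_Lt _) (kp_inf m) (mk_Lt_le _) (dm_lt hm d)
    (inacc_pow_le (inacc_kp m) (dm_lt hm d))

lemma mk_cc (hm : m < ⊤) (d : D m) : #{c : Set (Tr K) // Val (pre m) (dm d) c} ≤ #(dm d) :=
  mk_val_le (S.dm_low m d) (dm_inf d hm) le_rfl (pre_lt_dm d hm)
    ((power_le_power_left (aleph0_pos.trans_le (dm_inf d hm)).ne' (pre_lt_kap d hm).le).trans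
      (S.dm_pow m d hm).2)

lemma mk_HH (hm : m < ⊤) : #(HH m) ≤ 2 ^ kp m := by
  have h : #(HH m) ≤ #(D m → Xi m →
      Set (Lt K (kp m) ×ˢ Lt K (kp m) ×ˢ Lt K (kp m) : Set (Tr K))) := by
    refine mk_le_of_injective (f := fun h l ξ => Subtype.val ⁻¹' h.1 l ξ) fun h h' e => ?_
    have key : ∀ (h : HH m) l ξ,
        h.1 l ξ ⊆ (Lt K (kp m) ×ˢ Lt K (kp m) ×ˢ Lt K (kp m) : Set (Tr K)) := fun h l ξ =>
      ((h.2 l ξ).1.subset (lower_Lt _)).trans (prod_mono Subset.rfl (prod_mono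
        (Lt_mono (Order.succ_le_of_lt (dm_lt hm l))) Subset.rfl))
    refine Subtype.ext (funext fun l => funext fun ξ => ?_)
    exact (preimage_eq_preimage' (Subtype.range_coe.symm ▸ key h l ξ)
      (Subtype.range_coe.symm ▸ key h' l ξ)).1
      (congrFun (congrFun e l) ξ)
  refine h.trans ?_
  simp only [← power_def, mk_set, ← power_mul]
  refine power_le_power_left two_ne_zero (mul_le' (kp_inf m)
    (mul_le' (kp_inf m) ?_ (mk_Lt_le _)) (S.mk_D m))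
  exact mk_sprod_le' (kp_inf m) (mk_Lt_le _) (mk_sprod_le' (kp_inf m) (mk_Lt_le _) (mk_Lt_le _))

/-- the root of a guiding constraint -/
def root (h : HH m) (d : D m) : Set (Tr K) :=
  {x | ∀ᶠ ξ in (VV m : Filter (Xi m)), x ∈ h.1 d ξ}

lemma root_mono {h h' : HH m} (e : h ≤ h') (d : D m) : root h' d ⊆ root h d :=
  fun _ hx => (Eventually.and hx (e d)).mono fun _ k => k.2 k.1

lemma root_val (hm : m < ⊤) (h : HH m) (d : D m) : Val #(dm d) (Lt K (kp m)) (root h d) := by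
  refine ⟨⟨fun β i v v' h1 h2 => ?_, fun x hx => ?_⟩, ?_⟩
  · obtain ⟨ξ, k1, k2⟩ := (Eventually.and (f := (VV m : Filter (Xi m))) h1 h2).exists
    exact (h.2 d ξ).1.fn _ _ _ _ k1 k2
  · obtain ⟨ξ, k1⟩ := Eventually.exists (f := (VV m : Filter (Xi m))) hx
    exact (h.2 d ξ).1.bd x k1
  · by_contra hc
    obtain ⟨T, h1, h2⟩ := le_mk_iff_exists_subset.1 (Order.succ_le_of_lt (not_le.1 hc))
    obtain ⟨ξ, hξ⟩ := (ae_ball (VV m) _ (h2.trans_lt (inacc_succ_lt (inacc_kp m) (dm_lt hm d)))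
      (Q := fun ξ x => x ∈ h.1 d ξ) fun x hx => h1 hx).exists
    exact absurd ((h2.ge.trans (mk_le_mk_of_subset hξ)).trans (h.2 d ξ).2)
      (not_le.2 (Order.lt_succ _))

lemma root_ae (hm : m < ⊤) (h : HH m) (d : D m) :
    ∀ᶠ ξ in (VV m : Filter (Xi m)), root h d ⊆ h.1 d ξ :=
  ae_ball (VV m) _ ((root_val hm h d).2.trans_lt (dm_lt hm d)) (Q := fun ξ x => x ∈ h.1 d ξ)
    fun _ hx => hx

lemma root_compat (hm : m < ⊤) (h : HH m) (d : D m) {e : Set (Tr K)}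
    (he : Val #(dm d) (Lt K (kp m)) e) (hr : root h d ⊆ e) :
    ∀ᶠ ξ in (VV m : Filter (Xi m)), Val #(dm d) (Lt K (kp m)) (e ∪ h.1 d ξ) := by
  have h1 := ae_ball (VV m) _ (he.2.trans_lt (dm_lt hm d))
    (Q := fun ξ x => ∀ v, (x.1, x.2.1, v) ∈ h.1 d ξ → x.2.2 = v) fun x hx => by
      by_contra hc
      have h2 : ∀ᶠ ξ in (VV m : Filter (Xi m)),
          ∃ v ∈ Iic x.1, (x.1, x.2.1, v) ∈ h.1 d ξ ∧ x.2.2 ≠ v := by
        filter_upwards [Ultrafilter.eventually_not.2 hc] with ξ hξ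
        push Not at hξ
        obtain ⟨v, k1, k2⟩ := hξ
        exact ⟨v, ((h.2 d ξ).1.bd _ k1).2.2, k1, k2⟩
      obtain ⟨v, -, h3⟩ := ae_ex (VV m) _ (mk_Iic_lt (kp_inf m) (he.1.bd x hx).1) h2
      obtain ⟨ξ, -, k⟩ := h3.exists
      exact k (he.1.fn _ _ _ _ hx (hr (h3.mono fun _ k => k.1)))
  exact h1.mono fun ξ hξ => he.union (dm_inf d hm) (h.2 d ξ) fun β i v v' k1 k2 => hξ _ k1 v' k2

lemma hh_ext (hm : m < ⊤) (h : HH m) (e : D m → Set (Tr K))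
    (he : ∀ d, Val #(dm d) (Lt K (kp m)) (e d) ∧ root h d ⊆ e d) :
    ∃ h' ≤ h, ∀ d, e d ⊆ root h' d := by
  classical
  refine ⟨⟨fun l ξ => if Val #(dm l) (Lt K (kp m)) (e l ∪ h.1 l ξ) then e l ∪ h.1 l ξ else ∅,
    fun l ξ => ?_⟩, fun l => ?_, fun l x hx => ?_⟩
  · dsimp only
    split_ifs with k
    exacts [k, Val.empty]
  · filter_upwards [root_compat hm h l (he l).1 (he l).2] with ξ hξ
    simp only [if_pos hξ]
    exact subset_union_right
  · show ∀ᶠ ξ in (VV m : Filter (Xi m)), _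
    filter_upwards [root_compat hm h l (he l).1 (he l).2] with ξ hξ
    simp only [if_pos hξ]
    exact Or.inl hx

lemma hh_lim (hm : m < ⊤) {J : Type} (hJ : #J ≤ pre m) (f : J → HH m)
    (ht : ∀ i j, f i ≤ f j ∨ f j ≤ f i) : ∃ h, (∀ i, h ≤ f i) ∧ ∀ h', (∀ i, h' ≤ f i) → h' ≤ h := by
  classical
  have hJ' := hJ.trans_lt (pre_lt m)
  refine ⟨⟨fun l ξ => if Val #(dm l) (Lt K (kp m)) (⋃ i, (f i).1 l ξ) then ⋃ i, (f i).1 l ξ else ∅,
    fun l ξ => ?_⟩, fun i l => ?_, fun h' hh l => ?_⟩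
  · dsimp only
    split_ifs with k
    exacts [k, Val.empty]
  · have h1 := ae_all (VV m) _ hJ' (Q := fun ξ i => ∀ j,
        (f i).1 l ξ ⊆ (f j).1 l ξ ∨ (f j).1 l ξ ⊆ (f i).1 l ξ) fun i =>
      ae_all (VV m) _ hJ' fun j => (ht i j).elim (fun k => (k l).mono fun _ => Or.inr)
        fun k => (k l).mono fun _ => Or.inl
    filter_upwards [h1] with ξ hξ
    simp only [if_pos (Val.iUnion (dm_inf l hm) (hJ.trans (pre_lt_dm l hm).le)
      (fun i => (f i).2 l ξ) hξ)]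
    exact subset_iUnion (fun i => (f i).1 l ξ) i
  · filter_upwards [ae_all (VV m) _ hJ' fun i => hh i l] with ξ hξ
    split_ifs
    exacts [iUnion_subset hξ, empty_subset _]

end Pool.Agent.Lib.MP_d4b40b_lc.W
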