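import Pool.Agent.Lib.MP_d4b40b_lc.W.ObjL
import Pool.Agent.Lib.MP_d4b40b_lc.W.HH

set_option autoImplicit false
set_option linter.unusedSectionVars false

namespace Pool.Agent.Lib.MP_d4b40b_lc.W

open Filter Set Cardinal

variable [S : Sys]

/-- the part of the information that is visible from the coordinates `a` of level `m` -/
def code (m : I) (a : Set K) (τ : Info) : Set (I × I × K × K) :=
  {x | x.2.1 < x.1 ∧ x.1 ≤ m ∧ (x.1 = m → x.2.2.1 ∈ a) ∧ (x.1 < m → x.2.2.1 ∈ Lt K (kp x.1)) ∧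
    x.2.2.2 ∈ Lt K (kp x.2.1) ∧ x.2.2.2 ∈ τ.t x.1 x.2.1 x.2.2.1}

lemma sub_of_code {m : I} {a : Set K} {τ σ : Info} (h : code m a τ ⊆ code m a σ) : Sub m a τ σ :=
  fun c γ ξ η k1 k2 k3 k4 k5 k6 => (h (a := (c, γ, ξ, η)) ⟨k1, k2, k3, k4, k5, k6⟩).2.2.2.2.2

lemma mk_code {m : I} {a : Set K} {ρ : Cardinal.{0}} (h : pre m ≤ ρ) (ha : #a ≤ ρ) :
    #(range (code m a)) ≤ 2 ^ ρ := by
  have hρ := (pre_inf m).trans h
  have h1 : #(univ : Set I) ≤ ρ := mk_univ.trans_le ((I_le_pre m).trans h)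
  have h2 : #(Lt K (pre m)) ≤ ρ := (mk_Lt_le _).trans h
  refine (mk_le_mk_of_subset
    (t := 𝒫 ((univ : Set I) ×ˢ (univ : Set I) ×ˢ (a ∪ Lt K (pre m)) ×ˢ Lt K (pre m))) ?_).trans ?_
  · rintro _ ⟨τ, rfl⟩ x ⟨k1, k2, k3, k4, k5, -⟩
    exact ⟨trivial, trivial, k2.eq_or_lt.imp k3 fun l => Lt_mono (kp_le_pre l) (k4 l),
      Lt_mono (kp_le_pre (k1.trans_le k2)) k5⟩
  · rw [mk_powerset]
    exact power_le_power_left two_ne_zero (mk_sprod_le' hρ h1 (mk_sprod_le' hρ h1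
      (mk_sprod_le' hρ (mk_union_le' hρ ha h2) h2)))

/-- names with prescribed support and values -/
def Nms (m : I) (a V : Set K) : Set Nm := {N | Dep m a N ∧ ∀ σ, ∀ v ∈ N σ, v ∈ V}

section

variable {B ρ : Cardinal.{0}} (hB : ℵ₀ ≤ B) (hp : B ^ (2 ^ ρ : Cardinal.{0}) ≤ B)

include hB hp

lemma pow_le_of {a c : Cardinal.{0}} (ha : a ≤ B) (hc : c ≤ 2 ^ ρ) : a ^ c ≤ B :=
  (power_le_power_right ha).trans
    ((power_le_power_left (aleph0_pos.trans_le hB).ne' hc).trans hp)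

lemma two_pow_le : (2 : Cardinal.{0}) ^ ρ ≤ B :=
  pow_le_of hB hp ((natCast_lt_aleph0 (n := 2)).le.trans hB) (cantor ρ).le

lemma mk_fun_le {X Y : Type} (hX : #X ≤ 2 ^ ρ) (hY : #Y ≤ B) : #(X → Y) ≤ B := by
  rw [← power_def]
  exact pow_le_of hB hp hY hX

lemma mk_small_le {X : Type} {s : Set X} (hs : #s ≤ B) {c : Cardinal.{0}} (hc : c ≤ ρ) :
    #{t : Set X | t ⊆ s ∧ #t ≤ c} ≤ B :=
  (mk_bounded_subset_le s c).trans (pow_le_of hB hp (max_le hs hB) (hc.trans (cantor ρ).le))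

lemma mk_Nms {m : I} {a V : Set K} (h : pre m ≤ ρ) (ha : #a ≤ ρ) (hV : #V ≤ B) :
    #(Nms m a V) ≤ B := by
  choose r hr using fun c : range (code m a) => c.2
  have h1 : #{o : Option K | ∀ v ∈ o, v ∈ V} ≤ B := by
    refine (mk_le_mk_of_subset (t := insert none (some '' V)) fun o k => ?_).trans
      (mk_insert_le.trans ((add_le_add (mk_image_le.trans hV) (one_lt_aleph0.le.trans hB)).trans
        (add_eq_self hB).le))
    cases o with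
    | none => exact Or.inl rfl
    | some v => exact Or.inr ⟨v, k v rfl, rfl⟩
  refine (mk_le_of_injective (β := range (code m a) → {o : Option K | ∀ v ∈ o, v ∈ V})
    (f := fun N c => ⟨N.1 (r c), N.2.2 _⟩) fun N N' e => ?_).trans
    (mk_fun_le hB hp (mk_code h ha) h1)
  refine Subtype.ext (funext fun σ => ?_)
  have k := hr ⟨_, mem_range_self σ⟩
  rw [← N.2.1.eq (sub_of_code k.le) (sub_of_code k.ge),
    ← N'.2.1.eq (sub_of_code k.le) (sub_of_code k.ge)]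
  exact congrArg Subtype.val (congrFun e _)

theorem cnt0 {m : I} {T : Set K} (hT : #T ≤ B) (h : pre m ≤ ρ) :
    ∃ L : Set S0, #L ≤ B ∧ ∀ x : S0, x.OK m → x.a ⊆ T → ∃ y ∈ L, E0 x y := by
  classical
  have h0 := (cantor ρ).le.trans (two_pow_le hB hp)
  refine ⟨⋃ a ∈ {a : Set K | a ⊆ T ∧ #a ≤ ρ},
    ⋃ Bl ∈ {t : Set (K × K) | t ⊆ T ×ˢ Lt K (Order.succ ρ) ∧ #t ≤ ρ},
      range fun F : Bl → Nms m a T =>
        (⟨a, Bl, fun π => if k : π ∈ Bl then (F ⟨π, k⟩).1 else fun _ => none⟩ : S0),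
    mk_biUnion_le' hB (mk_small_le hB hp hT le_rfl) fun a ha =>
      mk_biUnion_le' hB (mk_small_le hB hp (mk_sprod_le' hB hT ((mk_Lt_le _).trans
        ((Order.succ_le_of_lt (cantor ρ)).trans (two_pow_le hB hp)))) le_rfl) fun Bl hBl =>
        mk_range_le.trans (mk_fun_le hB hp (hBl.2.trans (cantor ρ).le) (mk_Nms hB hp h ha.2 hT)),
    fun x hx hxT => ⟨_, mem_biUnion (x := x.a) ⟨hxT, hx.ca.trans h⟩ (mem_biUnion (x := x.Bl)
      ⟨fun π k => ⟨hxT (hx.bl π k).1, mem_Lt_succ.2 ((hx.bl π k).2.trans h)⟩, hx.cB.trans h⟩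
      ⟨fun π => ⟨x.N π, (hx.dep π π.2).mono inter_subset_left,
        fun σ v k => hxT (hx.val π π.2 σ v k).1⟩, rfl⟩), rfl, rfl, fun π k => ?_⟩⟩
  simp only [dif_pos k]

theorem cnt1 {m : I} (hm : m < ⊤) {T : Set K} (hT : #T ≤ B) (h : kp m ≤ ρ) :
    ∃ L : Set (S1 m × Set (Obj m)), #L ≤ B ∧ ∀ (x : S1 m) (A : Set (Obj m)), x.OK → x.b ⊆ T →
      Invt x.b A → ∃ y ∈ L, (x.b = y.1.b ∧ ∀ ξ ∈ x.b, x.g ξ = y.1.g ξ ∧ x.f ξ = y.1.f ξ) ∧
        A = y.2 := by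
  classical
  have h0 := (cantor ρ).le.trans (two_pow_le hB hp)
  have h1 : #(Nms m (Lt K (kp m)) (Lt K (kp m))) ≤ B :=
    mk_Nms hB hp ((pre_lt m).le.trans h) ((mk_Lt_le _).trans h) ((mk_Lt_le _).trans (h.trans h0))
  have h2 := h.trans (cantor ρ).le
  refine ⟨⋃ b ∈ {b : Set K | b ⊆ T ∧ #b ≤ kp m},
    range fun F : (b → Nms m (Lt K (kp m)) (Lt K (kp m))) ×
        (b → {μ : Obj m | μ.g.dom ⊆ b} → Nms m (Lt K (kp m)) (Lt K (kp m))) ×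
        Set {μ : Obj m | μ.g.dom ⊆ b} =>
      ((⟨b, fun ξ μ => if k : ξ ∈ b then (F.2.1 ⟨ξ, k⟩ ⟨μ.res b, μ.dom_res_sub b⟩).1
          else fun _ => none,
        fun ξ => if k : ξ ∈ b then (F.1 ⟨ξ, k⟩).1 else fun _ => none⟩ : S1 m),
        {μ | (⟨μ.res b, μ.dom_res_sub b⟩ : {μ : Obj m | μ.g.dom ⊆ b}) ∈ F.2.2}),
    mk_biUnion_le' hB (mk_small_le hB hp hT h) fun b hb => mk_range_le.trans
      (mk_prod_le' hB (mk_fun_le hB hp (hb.2.trans h2) h1) (mk_prod_le' hB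
        (mk_fun_le hB hp (hb.2.trans h2) (mk_fun_le hB hp ((mk_obj hm hb.2).trans h2) h1)) ?_)),
    fun x A hx hxT hA => ⟨_, mem_biUnion (x := x.b) ⟨hxT, hx.cb⟩
      ⟨(fun ξ => ⟨x.g ξ, hx.gdep ξ ξ.2, hx.gval ξ ξ.2⟩,
        fun ξ μ => ⟨x.f ξ μ, hx.fdep ξ ξ.2 _, hx.fval ξ ξ.2 _⟩, {μ | μ.1 ∈ A}), rfl⟩,
      ⟨rfl, fun ξ k => ⟨?_, funext fun μ => ?_⟩⟩,
      Set.ext fun μ => ⟨hA _ _ (μ.agr_res _), hA _ _ (μ.agr_res _).symm⟩⟩⟩
  · rw [mk_set]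
    exact (power_le_power_left two_ne_zero ((mk_obj hm hb.2).trans h)).trans (two_pow_le hB hp)
  · simp only [dif_pos k]
  · simp only [dif_pos k]
    exact hx.inv ξ k _ _ ((μ.agr_res _).mono inter_subset_left)

end

end Pool.Agent.Lib.MP_d4b40b_lc.W
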