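import Pool.Agent.Lib.MP_d4b40b_lc.W.Ord
import Pool.Agent.Lib.MP_d4b40b_lc.W.CntS

set_option autoImplicit false
set_option linter.unusedSectionVars false

namespace Pool.Agent.Lib.MP_d4b40b_lc.W

open Filter Set Cardinal

variable [S : Sys]

lemma LoOK.a_low {β m c : I} {p : Raw} (h : LoOK β p) (h1 : c ∈ p.u) (h2 : m ≤ c) (h3 : c < β) :
    p.a m ⊆ Lt K (pre β) := by
  obtain ⟨c', k1, k2⟩ := (wellFounded_lt (α := I)).has_min {c | c ∈ p.u ∧ m ≤ c} ⟨c, h1, h2⟩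
  have k3 : c' < β := (not_lt.1 (k2 c ⟨h1, h2⟩)).trans_lt h3
  refine ((h.mono k3.le).a_sub k1.2 fun δ l1 l2 => not_le.1 fun l3 => k2 δ ⟨l1, l3⟩ l2).trans ?_
  exact ((h.s2 c' k3).dm k1.1).trans ((dm_sub _).trans (Lt_mono (kp_le_pre k3)))

lemma LoOK.a_cov {β m : I} {p : Raw} (h : LoOK β p) (h1 : m ≤ β) :
    p.a m ⊆ p.a β ∪ Lt K (pre β) := by
  by_cases k : Z0 p.u β m
  · exact (h.a_sub h1 k).trans subset_union_left
  · simp only [Z0, not_forall, not_lt] at k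
    obtain ⟨c, k1, k2, k3⟩ := k
    exact (h.a_low k1 k3 k2).trans subset_union_right

lemma LoOK.b_cov {β m : I} {p : Raw} (h : LoOK β p) (h1 : m < β) :
    p.b m ⊆ p.a β ∪ Lt K (pre β) := by
  by_cases k : blk p.u m β
  · exact (h.nest m β h1 le_rfl k).trans subset_union_left
  · simp only [blk, not_forall, not_le] at k
    obtain ⟨c, k1, k2, k3⟩ := k
    obtain ⟨c', l1, l2, l3⟩ := exists_host k1 k2
    have l4 := (l3 c k1 k2).trans_lt k3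
    exact (h.nest m c' l2 l4.le l3).trans (h.a_cov l4.le)

/-- the parts below `β` coincide -/
structure LoE (β : I) (q p : Raw) : Prop where
  s0 : ∀ m ≤ β, E0 (q.s0 m) (p.s0 m)
  s1 : ∀ m < β, q.b m = p.b m ∧
    ∀ ξ ∈ q.b m, (q.s1 m).g ξ = (p.s1 m).g ξ ∧ (q.s1 m).f ξ = (p.s1 m).f ξ
  on : ∀ m < β, m ∈ q.u ↔ m ∈ p.u
  cr : ∀ m < β, q.cr m = p.cr m
  A : ∀ m < β, m ∉ q.u → q.A m = p.A m
  H : ∀ m < β, q.H m = p.H m
  e : ∀ m < β, m ∈ q.u → q.e m = p.e m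

lemma LoE.symm {β : I} {q p : Raw} (h : LoE β q p) : LoE β p q :=
  ⟨fun m k => (h.s0 m k).symm, fun m k => ⟨(h.s1 m k).1.symm, fun ξ l =>
    ((h.s1 m k).2 ξ ((h.s1 m k).1 ▸ l)).imp Eq.symm Eq.symm⟩, fun m k => (h.on m k).symm,
    fun m k => (h.cr m k).symm, fun m k l => (h.A m k (mt (h.on m k).1 l)).symm,
    fun m k => (h.H m k).symm,
    fun m k l => (h.e m k ((h.on m k).2 l)).symm⟩

lemma LoE.loC {β : I} {q p : Raw} (h : LoE β q p) (C : I → Cone) (T : Set K) (t : Prop) :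
    LoC C β T t q p :=
  ⟨fun m k => (h.s0 m k).le _ _, fun m k => E1.le ⟨(h.s1 m k).1, fun _ ξ l => ((h.s1 m k).2 ξ l).1,
      fun _ ξ l => ((h.s1 m k).2 ξ l).2⟩ _ _,
    fun m k => ⟨h.on m k, fun _ => h.cr m k, fun o => (h.e m k ((h.on m k).2 o)).ge,
      fun _ => (h.H m k).le, fun o _ => (h.A m k (mt (h.on m k).1 o)).le⟩⟩

lemma LoE.lo {β : I} {q p : Raw} (h : LoE β q p) (hp : LoOK β p) : Lo β univ True q p :=
  Lo.of_eq isLowerSet_univ hp.s1 (h.loC _ _ _)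

section

variable {B ρ : Cardinal.{0}} (hB : ℵ₀ ≤ B) (hp : B ^ (2 ^ ρ : Cardinal.{0}) ≤ B)

include hB hp

lemma mk_pi_le {J : Type} {F : J → Type} (hJ : #J ≤ 2 ^ ρ) (hF : ∀ j, #(F j) ≤ B) :
    #(∀ j, F j) ≤ B := by
  rw [mk_pi]
  refine (Cardinal.prod_le_prod _ (fun _ => B) hF).trans ?_
  simp only [prod_const, lift_id]
  exact pow_le_of hB hp le_rfl hJ

/-- codes of lower parts -/
theorem cnt_code {β : I} (h : pre β ≤ ρ) {T : Set K} (hT : #T ≤ B) :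
    ∃ (C : Type) (f : {p : Raw // LoOK β p ∧ p.a β ⊆ T} → C), #C ≤ B ∧
      ∀ q p, f q = f p → LoE β q.1 p.1 := by
  classical
  have h0 := (cantor ρ).le.trans (two_pow_le hB hp)
  have hT' : #(T ∪ Lt K (pre β) : Set K) ≤ B :=
    mk_union_le' hB hT ((mk_Lt_le _).trans (h.trans h0))
  have hI : ∀ s : Set I, #s ≤ 2 ^ ρ := fun s =>
    (mk_set_le s).trans (((I_le_pre β).trans h).trans (cantor ρ).le)
  have hk : ∀ m : Iio β, kp m.1 ≤ ρ := fun m => (kp_le_pre m.2).trans h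
  have hm : ∀ m : Iio β, m.1 < ⊤ := fun m => lt_of_lt_of_le m.2 le_top
  have h2 : ∀ m : Iio β, 2 ^ kp m.1 ≤ B := fun m =>
    (power_le_power_left two_ne_zero (hk m)).trans (two_pow_le hB hp)
  choose L0 l1 l2 using fun m : Iic β => cnt0 hB hp hT' ((pre_mono m.2).trans h)
  choose L1 l3 l4 using fun m : Iio β => cnt1 hB hp (hm m) hT' (hk m)
  have a0 := fun (p : {p : Raw // LoOK β p ∧ p.a β ⊆ T}) (m : Iic β) =>
    l2 m (p.1.s0 m) (p.2.1.s0 m m.2) ((p.2.1.a_cov m.2).trans (union_subset_union_left _ p.2.2))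
  have a1 := fun (p : {p : Raw // LoOK β p ∧ p.a β ⊆ T}) (m : Iio β) =>
    l4 m (p.1.s1 m) {μ | m.1 ∉ p.1.u → μ ∈ p.1.A m} (p.2.1.s1 m m.2)
      ((p.2.1.b_cov m.2).trans (union_subset_union_left _ p.2.2))
      fun μ ν e k o => (p.2.1.s2 m m.2).inv o μ ν e (k o)
  choose x0 x1 x2 using a0
  choose y0 y1 y2 using a1
  let R : Iio β → Set (Tr K) := fun m => Lt K (kp m.1) ×ˢ Lt K (kp m.1) ×ˢ Lt K (kp m.1)
  refine ⟨(∀ m : Iic β, L0 m) × ∀ m : Iio β, L1 m × Prop × D m × HH m × Set (R m),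
    fun p => (fun m => ⟨x0 p m, x1 p m⟩, fun m => (⟨y0 p m, y1 p m⟩, m.1 ∈ p.1.u, p.1.cr m,
      p.1.H m, Subtype.val ⁻¹' p.1.e m)),
    mk_prod_le' hB (mk_pi_le hB hp (hI _) l1) (mk_pi_le hB hp (hI _) fun m =>
      mk_prod_le' hB (l3 m) (mk_prod_le' hB (mk_le_aleph0.trans hB)
        (mk_prod_le' hB ((S.mk_D m).trans ((hk m).trans h0))
          (mk_prod_le' hB ((mk_HH (hm m)).trans (h2 m)) ?_)))), fun q p e => ?_⟩
  · rw [mk_set]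
    exact (power_le_power_left two_ne_zero (mk_sprod_le' (kp_inf _) (mk_Lt_le _)
      (mk_sprod_le' (kp_inf _) (mk_Lt_le _) (mk_Lt_le _)))).trans (h2 m)
  have e0 : ∀ m, x0 q m = x0 p m := fun m =>
    congrArg Subtype.val (congrFun (congrArg Prod.fst e) m)
  have e1 := fun m => congrFun (congrArg Prod.snd e) m
  simp only [Prod.mk.injEq, Subtype.mk.injEq, eq_iff_iff] at e1
  have key : ∀ (p : {p : Raw // LoOK β p ∧ p.a β ⊆ T}) (m : Iio β), m.1 ∈ p.1.u →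
      p.1.e m ⊆ range (Subtype.val : R m → Tr K) := fun p m o => by
    rw [Subtype.range_coe]
    exact (((p.2.1.s2 m m.2).he o).1.subset (lower_Lt _)).trans (prod_mono Subset.rfl (prod_mono
      (Lt_mono (Order.succ_le_of_lt (dm_lt (hm m) _))) Subset.rfl))
  refine ⟨fun m k => (x2 q ⟨m, k⟩).trans (e0 ⟨m, k⟩ ▸ (x2 p ⟨m, k⟩).symm), fun m k => ?_,
    fun m k => (e1 ⟨m, k⟩).2.1, fun m k => (e1 ⟨m, k⟩).2.2.1, fun m k o => ?_,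
    fun m k => (e1 ⟨m, k⟩).2.2.2.1, fun m k o => ?_⟩
  · have a := (y2 q ⟨m, k⟩).1
    have a' := (y2 p ⟨m, k⟩).1
    rw [(e1 ⟨m, k⟩).1] at a
    have b := a.1.trans a'.1.symm
    exact ⟨b, fun ξ l => ⟨(a.2 ξ l).1.trans (a'.2 ξ (b ▸ l)).1.symm,
      (a.2 ξ l).2.trans (a'.2 ξ (b ▸ l)).2.symm⟩⟩
  · have a := (y2 q ⟨m, k⟩).2
    rw [(e1 ⟨m, k⟩).1] at a
    have b := Set.ext_iff.1 (a.trans (y2 p ⟨m, k⟩).2.symm)
    exact Set.ext fun μ => ⟨fun n => (b μ).1 (fun _ => n) (mt (e1 ⟨m, k⟩).2.1.2 o),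
      fun n => (b μ).2 (fun _ => n) o⟩
  · exact (preimage_eq_preimage' (key q ⟨m, k⟩ o) (key p ⟨m, k⟩ ((e1 ⟨m, k⟩).2.1.1 o))).1
      (e1 ⟨m, k⟩).2.2.2.2

/-- representatives of lower parts inside a family -/
theorem cnt_fam {β : I} (h : pre β ≤ ρ) {T : Set K} (hT : #T ≤ B) {Y : Type} (x : Y → Raw)
    (W : Set Y) (hW : ∀ y ∈ W, LoOK β (x y) ∧ (x y).a β ⊆ T) :
    ∃ L ⊆ W, #L ≤ B ∧ ∀ y ∈ W, ∃ d ∈ L, LoE β (x d) (x y) := by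
  obtain ⟨C, f, h1, h2⟩ := cnt_code hB hp h hT
  obtain ⟨r, r1, r2⟩ := exists_rep fun y : W => f ⟨x y, hW y y.2⟩
  refine ⟨Subtype.val '' range r, ?_, mk_image_le.trans (r1.trans ((mk_set_le _).trans h1)),
    fun y k => ⟨_, ⟨_, mem_range_self ⟨y, k⟩, rfl⟩, h2 _ _ (r2 ⟨y, k⟩)⟩⟩
  rintro _ ⟨y, -, rfl⟩
  exact y.2

theorem cnt_raw {β : I} (h : pre β ≤ ρ) {T : Set K} (hT : #T ≤ B) :
    ∃ L : Set Raw, #L ≤ B ∧ (∀ d ∈ L, LoOK β d ∧ d.a β ⊆ T) ∧ ∀ p, LoOK β p → p.a β ⊆ T →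
      ∃ d ∈ L, Lo β univ True d p ∧ Lo β univ True p d := by
  obtain ⟨L, h1, h2, h3⟩ := cnt_fam hB hp h hT id {p | LoOK β p ∧ p.a β ⊆ T} fun _ k => k
  refine ⟨L, h2, h1, fun p k l => ?_⟩
  obtain ⟨d, k1, k2⟩ := h3 p ⟨k, l⟩
  exact ⟨d, k1, k2.lo k, k2.symm.lo (h1 k1).1⟩

theorem cnt_cond [Ext S] {β : I} (h : pre β ≤ ρ) {T : Set K} (hT : #T ≤ B) (W : Set Cond)
    (hW : ∀ p ∈ W, p.a β ⊆ T) :
    ∃ L ⊆ W, #L ≤ B ∧ ∀ p ∈ W, ∃ d ∈ L, Lb β d p ∧ Lb β p d := by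
  obtain ⟨L, h1, h2, h3⟩ := cnt_fam hB hp h hT (fun p : Cond => p.1) W
    fun p k => ⟨p.lo.mono le_top, hW p k⟩
  refine ⟨L, h1, h2, fun p k => ?_⟩
  obtain ⟨d, k1, k2⟩ := h3 p k
  exact ⟨d, k1, k2.lo (p.lo.mono le_top), k2.symm.lo (d.lo.mono le_top)⟩

end

end Pool.Agent.Lib.MP_d4b40b_lc.W
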