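import Pool.Agent.Lib.MP_d4b40b_lc.W.ObjL
import Pool.Agent.Lib.MP_d4b40b_lc.W.HH

set_option autoImplicit false
set_option linter.unusedSectionVars false
set_option linter.style.haveILetI false

namespace Pool.Agent.Lib.MP_d4b40b_lc.W

open Filter Set Cardinal

variable [S : Sys]

/-- representatives of the visible information -/
lemma info_rep (m : I) {T : Set K} {c : Cardinal.{0}} (h1 : pre m ≤ c) (h2 : #T ≤ c) :
    ∃ R : Set Info, #R ≤ 2 ^ c ∧ ∀ σ, ∃ τ ∈ R, Sub m T σ τ ∧ Sub m T τ σ := by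
  have hc := (pre_inf m).trans h1
  let X : Set (I × I × K × K) := Set.univ ×ˢ Set.univ ×ˢ (T ∪ Lt K (pre m)) ×ˢ Lt K (pre m)
  have hI : #(Set.univ : Set I) ≤ c := (mk_set_le _).trans ((I_le_pre m).trans h1)
  have x1 : #X ≤ c := mk_sprod_le' hc hI (mk_sprod_le' hc hI (mk_sprod_le' hc
    (mk_union_le' hc h2 ((mk_Lt_le _).trans h1)) ((mk_Lt_le _).trans h1)))
  obtain ⟨r, r1, r2⟩ := exists_rep fun σ : Info =>
    {p : X | p.1.2.2.2 ∈ σ.t p.1.1 p.1.2.1 p.1.2.2.1}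
  have key : ∀ σ τ : Info, {p : X | p.1.2.2.2 ∈ σ.t p.1.1 p.1.2.1 p.1.2.2.1} =
      {p : X | p.1.2.2.2 ∈ τ.t p.1.1 p.1.2.1 p.1.2.2.1} → Sub m T σ τ := by
    intro σ τ e a γ ξ η k1 k2 k3 k4 k5 k6
    exact (Set.ext_iff.1 e ⟨(a, γ, ξ, η), trivial, trivial,
      k2.eq_or_lt.elim (fun l => Or.inl (k3 l)) fun l => Or.inr (Lt_mono (kp_le_pre l) (k4 l)),
      Lt_mono (kp_le_pre (k1.trans_le k2)) k5⟩).1 k6
  refine ⟨range r, r1.trans ((mk_set_le _).trans ?_),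
    fun σ => ⟨_, mem_range_self σ, key _ _ (r2 σ).symm, key _ _ (r2 σ)⟩⟩
  rw [mk_set]
  exact power_le_power_left two_ne_zero x1

section ultra

variable {T : Type} (V : Ultrafilter T) {c : Cardinal.{0}} [CardinalInterFilter (V : Filter T) c]
  (hc : IsInaccessible c)

include hc

/-- families of names are almost everywhere constant -/
lemma ae_names {J : Type} {R : Set J} (hR : #R < c) {m : I} {B L : Set K} (hm : pre m < c)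
    (hB : #B < c) (hL : #L < c) (N : T → J → Nm) :
    ∃ Z ∈ V, ∀ a ∈ Z, ∀ a' ∈ Z, ∀ j ∈ R, Dep m B (N a j) → Dep m B (N a' j) →
      (∀ σ, ∀ v ∈ N a j σ, v ∈ L) → (∀ σ, ∀ v ∈ N a' j σ, v ∈ L) → N a j = N a' j := by
  obtain ⟨Q, q1, q2⟩ := info_rep m (le_max_left (pre m) #B) (le_max_right _ _)
  obtain ⟨Z, z1, z2⟩ := ae_pw V c (mk_sprod_lt' hc.1.le hR (mk_sprod_lt' hc.1.le
    (q1.trans_lt (hc.isStrongPrelimit (max_lt hm hB))) hL))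
    fun a x => x.2.2 ∈ N a x.1 x.2.1
  have key : ∀ a ∈ Z, ∀ a' ∈ Z, ∀ j ∈ R, Dep m B (N a j) → Dep m B (N a' j) →
      (∀ σ, ∀ v ∈ N a j σ, v ∈ L) → ∀ σ, ∀ v ∈ N a j σ, v ∈ N a' j σ := by
    intro a k a' k' j l d d' w σ v n
    obtain ⟨τ, t1, t2, t3⟩ := q2 σ
    exact d' _ _ t3 v (z2 a k a' k' (j, τ, v) ⟨l, t1, w σ v n⟩ (d _ _ t2 v n))
  exact ⟨Z, z1, fun a k a' k' j l d d' w w' => funext fun σ =>
    opt_eq (key a k a' k' j l d d' w σ) (key a' k' a k j l d' d w' σ)⟩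

lemma ae_S0 {m : I} (hm : pre m < c) {B : Set K} (hB : #B < c) (x : T → S0) :
    ∃ Z ∈ V, ∀ a ∈ Z, ∀ a' ∈ Z, (x a).OK m → (x a').OK m → (x a).a ⊆ B → (x a').a ⊆ B →
      E0 (x a) (x a') := by
  have hR : #(B ×ˢ Lt K (Order.succ (pre m)) : Set (K × K)) < c :=
    mk_sprod_lt' hc.1.le hB ((mk_Lt_le _).trans_lt (inacc_succ_lt hc hm))
  obtain ⟨Z1, z1, z2⟩ := ae_pw V c hB fun a ξ => ξ ∈ (x a).a
  obtain ⟨Z2, z3, z4⟩ := ae_pw V c hR fun a π => π ∈ (x a).Bl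
  obtain ⟨Z3, z5, z6⟩ := ae_names V hc hR hm hB hB fun a π => (x a).N π
  have k0 : ∀ a, (x a).OK m → (x a).a ⊆ B → (x a).Bl ⊆ B ×ˢ Lt K (Order.succ (pre m)) :=
    fun a k l π n => ⟨l (k.bl π n).1, mem_Lt_succ.2 (k.bl π n).2⟩
  refine ⟨Z1 ∩ (Z2 ∩ Z3), inter_mem z1 (inter_mem z3 z5), fun a k a' k' o o' l l' => ?_⟩
  have e : (x a).Bl = (x a').Bl := Subset.antisymm
    (fun π n => z4 a k.2.1 a' k'.2.1 π (k0 a o l n) n) fun π n => z4 a' k'.2.1 a k.2.1 π (k0 a' o' l' n) n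
  exact ⟨Subset.antisymm (fun ξ n => z2 a k.1 a' k'.1 ξ (l n) n)
    fun ξ n => z2 a' k'.1 a k.1 ξ (l' n) n, e, fun π n => z6 a k.2.2 a' k'.2.2 π (k0 a o l n)
      ((o.dep π n).mono fun _ i => l i.1) ((o'.dep π (e ▸ n)).mono fun _ i => l' i.1)
      (fun σ v i => l (o.val π n σ v i).1) fun σ v i => l' (o'.val π (e ▸ n) σ v i).1⟩

lemma ae_S1 {m : I} (hm : m < ⊤) (hk : kp m < c) {B : Set K} (hB : #B ≤ kp m) (x : T → S1 m) :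
    ∃ Z ∈ V, ∀ a ∈ Z, ∀ a' ∈ Z, (x a).OK → (x a').OK → (x a).b ⊆ B → (x a').b ⊆ B →
      (x a).b = (x a').b ∧ ∀ ξ ∈ (x a).b, (x a).f ξ = (x a').f ξ ∧ (x a).g ξ = (x a').g ξ := by
  have hB' := hB.trans_lt hk
  have hL : #(Lt K (kp m)) < c := (mk_Lt_le _).trans_lt hk
  have hp := (pre_lt m).trans hk
  obtain ⟨Z1, z1, z2⟩ := ae_pw V c hB' fun a ξ => ξ ∈ (x a).b
  obtain ⟨Z2, z3, z4⟩ := ae_names V hc
    (mk_sprod_lt' hc.1.le hB' ((mk_obj hm hB).trans_lt hk)) hp hL hL fun a p => (x a).f p.1 p.2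
  obtain ⟨Z3, z5, z6⟩ := ae_names V hc hB' hp hL hL fun a ξ => (x a).g ξ
  refine ⟨Z1 ∩ (Z2 ∩ Z3), inter_mem z1 (inter_mem z3 z5), fun a k a' k' o o' l l' => ?_⟩
  have e : (x a).b = (x a').b := Subset.antisymm (fun ξ n => z2 a k.1 a' k'.1 ξ (l n) n)
    fun ξ n => z2 a' k'.1 a k.1 ξ (l' n) n
  refine ⟨e, fun ξ n => ⟨funext fun μ => ?_, z6 a k.2.2 a' k'.2.2 ξ (l n) (o.gdep ξ n)
    (o'.gdep ξ (e ▸ n)) (o.gval ξ n) (o'.gval ξ (e ▸ n))⟩⟩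
  rw [o.inv ξ n μ _ ((μ.agr_res B).mono fun _ i => l i.1),
    o'.inv ξ (e ▸ n) μ _ ((μ.agr_res B).mono fun _ i => l' i.1)]
  exact z4 a k.2.1 a' k'.2.1 (ξ, μ.res B) ⟨l n, μ.dom_res_sub B⟩ (o.fdep ξ n _)
    (o'.fdep ξ (e ▸ n) _) (o.fval ξ n _) (o'.fval ξ (e ▸ n) _)

lemma ae_A {m : I} (hm : m < ⊤) (hk : kp m < c) {B : Set K} (hB : #B ≤ kp m)
    (A : T → Set (Obj m)) :
    ∃ Z ∈ V, ∀ a ∈ Z, ∀ a' ∈ Z, Invt B (A a) → Invt B (A a') → A a = A a' := by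
  obtain ⟨Z, z1, z2⟩ := ae_pw V c ((mk_obj hm hB).trans_lt hk) fun a μ => μ ∈ A a
  have key : ∀ a ∈ Z, ∀ a' ∈ Z, Invt B (A a) → Invt B (A a') → A a ⊆ A a' :=
    fun a k a' k' i i' μ n => i' _ _ (μ.agr_res B).symm
      (z2 a k a' k' _ (μ.dom_res_sub B) (i _ _ (μ.agr_res B) n))
  exact ⟨Z, z1, fun a k a' k' i i' => (key a k a' k' i i').antisymm (key a' k' a k i' i)⟩

end ultra

variable [Ext S]

lemma ae_sub_dom {c γ : I} (d : D c) (h : γ < c) {B : Set K} (h1 : B ⊆ dm d) (h2 : #B < kp γ) :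
    ∀ᶠ μ in (Ext.E d γ : Filter (Obj γ)), B ⊆ μ.g.dom :=
  haveI := Ext.cpl d γ h
  ae_ball _ _ h2 fun ξ k => Ext.fine d γ h ξ (h1 k)

/-- pulling a family of small sets back -/
lemma pull_set {c γ : I} (d : D c) (h : γ < c) {b : Set K} (h1 : b ⊆ dm d) (h2 : #b ≤ kp γ)
    {ρ : Cardinal.{0}} (hρ : ρ < kp γ) (X : Obj γ → Set K) (h3 : ∀ μ ν, Agr b μ ν → X μ = X ν)
    (h4 : ∀ᶠ μ in (Ext.E d γ : Filter (Obj γ)), X μ ⊆ dm μ.c ∧ #(X μ) ≤ ρ) :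
    ∃ B ⊆ dm d, #B ≤ ρ ∧ ∀ᶠ μ in (Ext.E d γ : Filter (Obj γ)), B ⊆ μ.g.dom ∧ μ.g.im B = X μ := by
  haveI := Ext.cpl d γ h
  have k1 : ∀ Y : Set K, ∃ e : ρ.out → Option K, #Y ≤ ρ →
      (∀ i a, e i = some a → a ∈ Y) ∧ ∀ a ∈ Y, ∃ i, e i = some a := fun Y => by
    by_cases k : #Y ≤ ρ
    · exact (exists_enum k).imp fun _ k _ => k
    · exact ⟨fun _ => none, fun l => absurd l k⟩
  choose e he using k1
  have k2 : ∀ i, ∃ o : Option K, (∀ ξ ∈ o, ξ ∈ dm d) ∧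
      ∀ᶠ μ in (Ext.E d γ : Filter (Obj γ)), e (X μ) i = o.bind μ.g.f ∧ ∀ ξ ∈ o, ξ ∈ μ.g.dom := by
    intro i
    by_cases k : ∀ᶠ μ in (Ext.E d γ : Filter (Obj γ)), e (X μ) i = none
    · exact ⟨none, fun _ l => (nomatch l), k.mono fun μ l => ⟨l, fun _ l => nomatch l⟩⟩
    · have k3 := Ultrafilter.eventually_not.2 k
      obtain ⟨μ0, k0⟩ := k3.exists
      obtain ⟨z, -⟩ := Option.ne_none_iff_exists'.1 k0
      have k4 : ∀ᶠ μ in (Ext.E d γ : Filter (Obj γ)), e (X μ) i = some ((e (X μ) i).getD z) :=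
        k3.mono fun μ l => by
          obtain ⟨a, l'⟩ := Option.ne_none_iff_exists'.1 l
          rw [l']; rfl
      obtain ⟨ξ, k5, k6⟩ := Ext.nor d γ h b h1 h2 (fun μ => (e (X μ) i).getD z)
        (fun μ ν l => by rw [h3 μ ν l])
        ((h4.and k4).mono fun μ l => l.1.1 ((he _ l.1.2).1 i _ l.2))
      refine ⟨some ξ, fun _ l => by cases l; exact k5, (k4.and k6).mono fun μ l =>
        ⟨l.1.trans (Eq.symm l.2), fun _ l' => by cases l'; exact ⟨_, l.2⟩⟩⟩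
  choose o o1 o2 using k2
  refine ⟨{ξ | ∃ i, ξ ∈ o i}, fun ξ ⟨i, k⟩ => o1 i ξ k, ?_, ?_⟩
  · refine le_trans (mk_le_of_injective (f := fun ξ => ξ.2.choose) fun x y l => ?_) (mk_out ρ).le
    have a := x.2.choose_spec
    rw [show x.2.choose = y.2.choose from l] at a
    exact Subtype.ext (Option.mem_unique a y.2.choose_spec)
  · filter_upwards [h4, ae_all _ _ ((mk_out ρ).trans_lt hρ) o2] with μ k l
    refine ⟨fun ξ ⟨i, n⟩ => (l i).2 ξ n, Subset.antisymm (fun η ⟨ξ, ⟨i, n⟩, n'⟩ => ?_) fun η n => ?_⟩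
    · exact (he _ k.2).1 i η ((l i).1.trans (Option.mem_bind_iff.2 ⟨ξ, n, n'⟩))
    · obtain ⟨i, n'⟩ := (he _ k.2).2 η n
      obtain ⟨ξ, n1, n2⟩ := Option.mem_bind_iff.1 ((l i).1.symm.trans n')
      exact ⟨ξ, ⟨i, n1⟩, n2⟩

end Pool.Agent.Lib.MP_d4b40b_lc.W
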