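import Pool.Agent.Lib.MP_d4b40b_lc.W.Ord
import Pool.Agent.Lib.MP_d4b40b_lc.W.PullA

set_option autoImplicit false
set_option linter.unusedSectionVars false
set_option linter.style.haveILetI false

namespace Pool.Agent.Lib.MP_d4b40b_lc.W

open Filter Set Cardinal

variable [S : Sys] [X : Ext S] {p q : Raw} {β γ c m : I} {T : Set K} {t : Prop}

lemma mk_Iio_lt_kp (m n : I) : #(Iio m) < kp n :=
  ((mk_set_le _).trans (I_le_pre n)).trans_lt (pre_lt n)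

lemma Host.below {u : Set I} (h : Host u β c) (h1 : β ∉ u) (h2 : γ < β) (h3 : W.blk u γ β) :
    Host u γ c := ⟨h.mem, h2.trans h.lt, h3.trans h.blk h1⟩

lemma nA_sub (p : Raw) (m : I) : p.nA m ⊆ p.A m := fun _ k => (Raw.mem_nA.1 k).1

lemma nA_on (h : m ∈ p.u) : p.nA m = p.A m :=
  (nA_sub p m).antisymm fun _ k => Raw.mem_nA.2 ⟨k, fun l => absurd h l⟩

lemma Refl.agr {A : ∀ m, Set (Obj m)} {μ ν : Obj m} (h : Refl p A m μ) (e : Agr (p.a m) μ ν)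
    (hA : ∀ γ < m, γ ∉ p.u → blk p.u γ m → Invt (p.a m) (A γ)) : Refl p A m ν :=
  ⟨fun ξ k => show ∃ η, η ∈ ν.g.f ξ from e.2 ξ k ▸ h.1 k, fun γ k1 k2 k3 => by
    rw [← e.1, ← (hA γ k1 k2 k3).tr_congr e.2]
    exact h.2 γ k1 k2 k3⟩

lemma nA_inv (h : LoOK β p) (hm : m < β) (l : m ∉ p.u) : Invt (p.b m) (p.nA m) := by
  induction m using WellFoundedLT.induction with
  | ind m ih =>
    intro μ ν e k
    obtain ⟨k1, k2⟩ := Raw.mem_nA.1 k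
    exact Raw.mem_nA.2 ⟨(h.s2 m hm).inv l μ ν e k1, fun l => (k2 l).agr (e.mono ((h.s2 m hm).ab l))
      fun γ l1 l2 l3 => (ih γ l1 (l1.trans hm) l2).mono (h.nest γ m l1 hm.le l3)⟩

lemma OK.b_dm (h : OK p) (hc : Host p.u γ c) : p.b γ ⊆ dm (p.cr c) := by
  refine (h.lo.nest γ c hc.lt le_top hc.blk).trans ?_
  rcases (le_top (a := c)).eq_or_lt with rfl | l
  · rw [h.root, show dm S.root = Set.univ from S.dm_root]
    exact subset_univ _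
  · exact (h.lo.s2 c l).dm hc.mem

/-- almost all objects reflect a family of large invariant sets -/
lemma ae_refl {d : D c} {A : ∀ m, Set (Obj m)} (hm : m < c) (h1 : p.a m ⊆ dm d)
    (h2 : #(p.a m) ≤ pre m) (h3 : ∀ γ < m, γ ∉ p.u → blk p.u γ m →
      ∃ b ⊆ dm d, #b ≤ kp γ ∧ Invt b (A γ) ∧ A γ ∈ X.E d γ) :
    ∀ᶠ μ in (X.E d m : Filter (Obj m)), Refl p A m μ := by
  haveI := X.cpl d m hm
  refine (ae_sub_dom d hm h1 (h2.trans_lt (pre_lt m))).and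
    (ae_ball _ _ (mk_Iio_lt_kp m m) (Q := fun (μ : Obj m) γ => γ ∉ p.u → blk p.u γ m →
      {ν : Obj γ | ν.comp μ.g ∈ A γ} ∈ X.E μ.c γ) fun γ l => ?_)
  by_cases k : γ ∉ p.u ∧ blk p.u γ m
  · obtain ⟨b, b1, b2, b3, b4⟩ := h3 γ l k.1 k.2
    exact (X.coh d m γ l hm b b1 b2 _ b3 b4).mono fun _ n _ _ => n
  · exact Eventually.of_forall fun _ l1 l2 => absurd ⟨l1, l2⟩ k

lemma nA_big (h : OK p) (h1 : γ ∉ p.u) (hc : Host p.u γ c) : p.nA γ ∈ X.E (p.cr c) γ := by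
  induction γ using WellFoundedLT.induction with
  | ind γ ih =>
    have l := hc.lt.trans_le le_top
    filter_upwards [h.big γ c h1 hc, ae_refl (A := p.nA) hc.lt
      (((h.lo.s2 γ l).ab h1).trans (h.b_dm hc)) (h.lo.s0 γ le_top).ca fun δ l1 l2 l3 =>
        ⟨_, h.b_dm (hc.below h1 l1 l3), (h.lo.s1 δ (l1.trans l)).cb, nA_inv h.lo (l1.trans l) l2,
          ih δ l1 l2 (hc.below h1 l1 l3)⟩] with μ k1 k2
    exact Raw.mem_nA.2 ⟨k1, fun _ => k2⟩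

lemma LoOK.norm (h : LoOK β p) : LoOK β p.norm :=
  ⟨h.fin, h.s0, h.s1, fun m l => (h.s2 m l).setA (nA_inv h l) (h.s2 m l).ab (h.s2 m l).dm, h.nest⟩

lemma nrm_norm (p : Raw) : Nrm p.norm := fun _ l _ k => (Raw.mem_nA.1 k).2 l

lemma OK.norm (h : OK p) : OK p.norm ∧ Nrm p.norm :=
  ⟨⟨h.lo.norm, h.top, h.root, fun _ _ l k => nA_big h l k⟩, nrm_norm p⟩

lemma at_norm (p : Raw) (t : Prop) (m : I) : At t (p.norm.s2 m) (p.s2 m) :=
  ⟨Iff.rfl, fun _ => rfl, fun _ => Subset.rfl, fun _ => le_rfl, fun _ _ => nA_sub p m⟩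

lemma lo_norm (p : Raw) (β : I) (T : Set K) (t : Prop) : Lo β T t p.norm p :=
  Lo.of_congr (fun _ _ => rfl) (fun _ _ => rfl) fun m _ => at_norm p _ m

/-- maximality of the normalised sets; `Z` is closed downwards along blocks -/
lemma sub_nA (Z : Set I) (hZ : ∀ m ∈ Z, m ∉ p.u → ∀ γ < m, γ ∉ p.u → blk p.u γ m → γ ∈ Z)
    {B : ∀ m, Set (Obj m)} (h1 : ∀ m ∈ Z, m ∉ p.u → B m ⊆ p.A m)
    (h2 : ∀ m ∈ Z, m ∉ p.u → ∀ μ ∈ B m, Refl p B m μ) : ∀ m ∈ Z, m ∉ p.u → B m ⊆ p.nA m := by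
  intro m
  induction m using WellFoundedLT.induction with
  | ind m ih =>
    exact fun z l μ k => Raw.mem_nA.2 ⟨h1 m z l k, fun _ => ⟨(h2 m z l μ k).1, fun γ l1 l2 l3 =>
      mem_of_superset ((h2 m z l μ k).2 γ l1 l2 l3) fun _ n => ih γ l1 (hZ m z l γ l1 l2 l3) l2 n⟩⟩

lemma Nrm.nA (h : Nrm p) (m : I) : p.nA m = p.A m := by
  by_cases l : m ∈ p.u
  · exact nA_on l
  · exact (nA_sub p m).antisymm
      (sub_nA Set.univ (fun _ _ _ _ _ _ _ => trivial) (fun _ _ _ => Subset.rfl)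
        (fun m _ => h m) m trivial l)

lemma Nrm.norm (h : Nrm p) : p.norm = p :=
  Raw.ext rfl rfl (funext fun m => S2.ext rfl rfl (h.nA m) rfl rfl)

lemma Refl.of_sub {A : ∀ m, Set (Obj m)} {μ : Obj m} (h : Refl q A m μ)
    (hu : ∀ γ < m, γ ∈ q.u ↔ γ ∈ p.u) (ha : p.a m ⊆ q.a m) : Refl p A m μ :=
  ⟨ha.trans h.1, fun γ l1 l2 l3 => h.2 γ l1 (mt (hu γ l1).1 l2)
    ((blk_congr fun δ _ l => hu δ l).2 l3)⟩

/-- the normalised sets only depend on the lower levels -/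
lemma nA_congr (hu : ∀ γ ≤ β, γ ∈ q.u ↔ γ ∈ p.u) (ha : ∀ γ ≤ β, γ ∉ p.u → p.a γ ⊆ q.a γ)
    (hA : ∀ γ ≤ β, γ ∉ p.u → q.A γ ⊆ p.A γ) : ∀ γ ≤ β, γ ∉ p.u → q.nA γ ⊆ p.nA γ :=
  sub_nA (Iic β) (fun _ k _ _ l _ _ => l.le.trans k) (fun m k l => (nA_sub q m).trans (hA m k l))
    fun m k l _ n => ((Raw.mem_nA.1 n).2 (mt (hu m k).1 l)).of_sub
      (fun γ l' => hu γ (l'.le.trans k)) (ha m k l)

lemma LoC.a_sub {C : I → Cone} (h : LoC C β T t q p) (l : m ≤ β) (k : Z0 p.u β m → p.a m ⊆ T) :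
    p.a m ⊆ q.a m := fun _ n => (h.s0 m l).a ⟨n, fun z => k z n⟩

/-- a normal extension of `p` extends the normalisation of `p` -/
lemma LoC.norm {C : I → Cone} (h : LoC C β T t q p) (hq : Nrm q) (ht : t → ∀ m < β, p.a m ⊆ T) :
    LoC C β T t q p.norm := by
  have key := sub_nA (p := p) {m | m < β ∧ (W.blk p.u m β → t)}
    (fun m k _ γ l _ _ => ⟨l.trans k.1, fun z => k.2 (z.mono l.le le_rfl)⟩) (B := q.A)
    (fun m k l => (h.s2 m k.1).A l k.2) fun m k l μ n =>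
      (hq m (mt (h.u k.1).1 l) μ n).of_sub (fun γ l' => h.u (l'.trans k.1))
        (h.a_sub k.1.le fun z => ht (k.2 z.blk) m k.1)
  exact ⟨h.s0, h.s1, fun m l => ⟨(h.s2 m l).on, (h.s2 m l).cr, (h.s2 m l).e, (h.s2 m l).H,
    fun o k => key m ⟨l, k⟩ o⟩⟩

lemma rc_norm (p : Raw) : p.norm.rc = p.rc := rfl

lemma info_norm (p : Raw) (m : I) : p.norm.info m = p.info m := rfl

lemma Lo.norm (h : Lo β T t q p) (hq : Nrm q) (ht : t → ∀ m < β, p.a m ⊆ T) :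
    Lo β T t q p.norm := ⟨h.toLoC.norm hq ht, h.rc⟩

lemma Lo.norm_univ (h : Lo β Set.univ t q p) (hq : Nrm q) : Lo β Set.univ t q p.norm :=
  h.norm hq fun _ _ _ => subset_univ _

lemma Lo.norm_false (h : Lo β T False q p) (hq : Nrm q) : Lo β T False q p.norm :=
  h.norm hq False.elim

/-- the condition given by valid data -/
noncomputable def OK.cond (h : OK p) : Cond := ⟨p.norm, h.norm⟩

lemma OK.cond_val (h : OK p) : h.cond.1 = p.norm := rfl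

end Pool.Agent.Lib.MP_d4b40b_lc.W
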