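import Pool.Agent.Lib.MP_d4b40b_lc.W.Lim
import Pool.Agent.Lib.MP_d4b40b_lc.W.Norm
import Pool.Agent.Lib.MP_d4b40b_lc.W.Cnt

set_option autoImplicit false
set_option linter.unusedSectionVars false

namespace Pool.Agent.Lib.MP_d4b40b_lc.W

open Filter Set Cardinal

variable [S : Sys]

section raw

variable {C : I → Cone} {β γ : I} {T T' : Set K} {t : Prop} {q p x w : Raw}

lemma supp_F0 (hp : LoOK β p) (hs : p.a β ∩ T' ⊆ T) {m : I} (l : m ≤ β) {ξ : K} (h1 : ξ ∈ p.a m)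
    (h2 : ξ ∈ F0 p.u β T' m) : ξ ∈ F0 p.u β T m := fun z => hs ⟨hp.a_sub l z h1, h2 z⟩

lemma supp_F1 (hp : LoOK β p) (hs : p.a β ∩ T' ⊆ T) {m : I} (l : m < β) {ξ : K} (h1 : ξ ∈ p.b m)
    (h2 : ξ ∈ F1 p.u β T' m) : ξ ∈ F1 p.u β T m :=
  fun z => hs ⟨hp.nest m β l le_rfl z h1, h2 z⟩

/-- coordinates outside the support do not matter -/
lemma loC_supp (hp : LoOK β p) (hs : p.a β ∩ T' ⊆ T) (h : LoC C β T t q p) :
    LoC C β T' t q p :=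
  ⟨fun m l => ⟨fun _ k => (h.s0 m l).a ⟨k.1, supp_F0 hp hs l k.1 k.2⟩,
      fun π k n => (h.s0 m l).bl π k (supp_F0 hp hs l ((hp.s0 m l).bl π k).1 n),
      fun π k n => (h.s0 m l).n π k (supp_F0 hp hs l ((hp.s0 m l).bl π k).1 n)⟩,
    fun m l => ⟨fun _ k => (h.s1 m l).b ⟨k.1, supp_F1 hp hs l k.1 k.2⟩,
      fun o ξ k n => (h.s1 m l).g o ξ k (supp_F1 hp hs l k n),
      fun o ξ k n => (h.s1 m l).f o ξ k (supp_F1 hp hs l k n)⟩, h.s2⟩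

lemma lo_supp (hp : LoOK β p) (hs : p.a β ∩ T' ⊆ T) (h : Lo β T t q p) : Lo β T' t q p :=
  ⟨loC_supp hp hs h.toLoC, fun γ l ξ k η n =>
    h.rc γ l ξ (supp_F1 hp hs l (Raw.mem_rc.1 n).2.1 k) η n⟩

lemma lo_of_two (hT : IsLowerSet T) (hx : ∀ γ < β, (x.s1 γ).OK) (hw : ∀ γ < β, (w.s1 γ).OK)
    (h1 : LoC (cone2 x w) β T t q x) (h2 : LoC (cone2 x w) β T t q w) :
    Lo β T t q x ∧ Lo β T t q w := by
  have := Lo.of_fam (q := q) (t := t) (f := fun b : Bool => cond b x w) hT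
    (fun b => by cases b; exacts [hw, hx]) fun b => by
      cases b
      exacts [h2.cone fun _ _ _ _ _ k => ⟨k true, k false⟩,
        h1.cone fun _ _ _ _ _ k => ⟨k true, k false⟩]
  exact ⟨this true, this false⟩

/-- compatibility below `β`; the third slots of `w` are stronger -/
structure Cmp (β : I) (x w : Raw) : Prop where
  n : ∀ m ≤ β, ∀ π ∈ (x.s0 m).Bl, π ∈ (w.s0 m).Bl → ∀ σ, cone2 x w m π.1 σ →
    (x.s0 m).N π σ = (w.s0 m).N π σ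
  g : ∀ m < β, m ∈ x.u → ∀ ξ ∈ x.b m, ξ ∈ w.b m → ∀ σ, (∀ ζ, cone2 x w m ζ σ) →
    (x.s1 m).g ξ σ = (w.s1 m).g ξ σ
  f : ∀ m < β, m ∉ x.u → ∀ ξ ∈ x.b m, ξ ∈ w.b m → ∀ μ σ, cone2 x w m ξ (pull m μ.g σ) →
    (x.s1 m).f ξ μ σ = (w.s1 m).f ξ μ σ
  s2 : ∀ m < β, At False (w.s2 m) (x.s2 m)

lemma cmp_of_loC (hx : LoOK β x) (hw : LoOK β w) (hs : x.a β ∩ w.a β ⊆ T)
    (h : LoC (cone2 x w) β T t w x) : Cmp β x w := by
  have h' := loC_supp hx hs h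
  exact ⟨fun m l π k1 k2 σ n => ((h'.s0 m l).n π k1 (fun z => hw.a_sub l ((h.z0 le_rfl).2 z)
      ((hw.s0 m l).bl π k2).1) σ n).symm,
    fun m l o ξ k1 k2 σ n => ((h'.s1 m l).g o ξ k1 (fun z => hw.nest m β l le_rfl
      ((h.blk le_rfl).2 z) k2) σ n).symm,
    fun m l o ξ k1 k2 μ σ n => ((h'.s1 m l).f o ξ k1 (fun z => hw.nest m β l le_rfl
      ((h.blk le_rfl).2 z) k2) μ σ n).symm,
    fun m l => (h.s2 m l).mono fun _ => False.elim⟩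

lemma cmp_of_lo (hx : LoOK β x) (hw : LoOK β w) (hs : x.a β ∩ w.a β ⊆ T)
    (h : Lo β T t w x) : Cmp β x w :=
  cmp_of_loC hx hw hs (h.toLoC.cone fun _ _ _ _ _ k => k.2)

lemma Cmp.glue (h : Cmp γ x w) (h0 : ∀ m, γ < m → x.s0 m = w.s0 m)
    (h1 : ∀ m, γ ≤ m → x.s1 m = w.s1 m) (h2 : ∀ m < β, γ ≤ m → At False (w.s2 m) (x.s2 m)) :
    Cmp β x w :=
  ⟨fun m _ π k1 k2 σ n => (le_or_gt m γ).elim (fun l => h.n m l π k1 k2 σ n) fun l => h0 m l ▸ rfl,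
    fun m _ o ξ k1 k2 σ n => (lt_or_ge m γ).elim (fun l => h.g m l o ξ k1 k2 σ n)
      fun l => h1 m l ▸ rfl,
    fun m _ o ξ k1 k2 μ σ n => (lt_or_ge m γ).elim (fun l => h.f m l o ξ k1 k2 μ σ n)
      fun l => h1 m l ▸ rfl,
    fun m k => (lt_or_ge m γ).elim (h.s2 m) (h2 m k)⟩

lemma z0_top_blk {u : Set I} {m : I} (h : blk u γ m) (z : Z0 u β m) : blk u γ β :=
  fun c k1 k2 => not_lt.1 fun k3 => absurd (z c k1 k3) (not_lt.2 (h c k1 k2))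

lemma loOK_trunc (hT : IsLowerSet T) (hp : LoOK ⊤ p) : LoOK ⊤ (p.trunc T) :=
  ⟨hp.fin, fun m l => (hp.s0 m l).res (F0_low hT), fun m l => (hp.s1 m l).res (F1_low hT),
    fun m l => (hp.s2 m l).setA (fun o μ ν e k n => (hp.s2 m l).inv o μ ν
      (e.mono fun _ j => ⟨j, fun z => absurd z n⟩) (k n))
      (fun o _ k => ⟨(hp.s2 m l).ab o k.1, fun z => k.2 (z.z0' o)⟩)
      fun o _ k => (hp.s2 m l).dm o k.1,
    fun γ m k1 k2 k3 _ k => ⟨hp.nest γ m k1 k2 k3 k.1, fun z => k.2 (z0_top_blk k3 z)⟩⟩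

lemma loC_trunc_left (C : I → Cone) (T : Set K) (p : Raw) : LoC C ⊤ T False (p.trunc T) p :=
  ⟨fun _ _ => (R0.refl _ _ _).of_res, fun _ _ => (R1.refl _ _ _ _).of_res,
    fun _ _ => ⟨Iff.rfl, fun _ => rfl, fun _ => Subset.rfl, fun _ => le_rfl,
      fun _ n _ k => k n⟩⟩

lemma loC_trunc (h : LoC C ⊤ T False q p) : LoC C ⊤ univ True q (p.trunc T) :=
  ⟨fun m l => R0.res ((h.s0 m l).mono inter_subset_left fun _ _ _ => id),
    fun m l => R1.res ((h.s1 m l).mono Iff.rfl inter_subset_left (fun _ _ _ _ => id)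
      fun _ _ => id),
    fun m l => ⟨(h.s2 m l).on, (h.s2 m l).cr, (h.s2 m l).e, (h.s2 m l).H,
      fun o _ _ k n => (h.s2 m l).A o n k⟩⟩

end raw

variable [X : Ext S] {r q p p' x w : Cond} {α : K} {T : Set K}

/-- amalgamation of compatible conditions -/
theorem exists_amal (h : Cmp ⊤ x.1 w.1) : ∃ y : Cond, DLe y x ∧ DLe y w ∧
    (∀ β T t r, IsLowerSet T → Lo β T t r x.1 → Lo β T t r w.1 → Lo β T t r y.1) ∧
    y.1 = x.1.pu w.1 := by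
  have hu : w.1.u = x.1.u := Set.ext fun m => by
    rcases (le_top (a := m)).eq_or_lt with rfl | l
    exacts [iff_of_true w.top x.top, (h.s2 m l).on]
  have hc : ∀ m ∈ x.1.u, w.cr m = x.cr m := fun m k => by
    rcases (le_top (a := m)).eq_or_lt with rfl | l
    exacts [w.ok.root.trans x.ok.root.symm, (h.s2 m l).cr k]
  have lo : LoOK ⊤ (x.1.pu w.1) :=
    ⟨w.lo.fin, fun m k => (x.lo.s0 m k).pu (w.lo.s0 m k), fun m k => (x.lo.s1 m k).pu (w.lo.s1 m k),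
      fun m k => (w.lo.s2 m k).setA
        (fun o => ((x.inv (show m ∉ x.1.u from hu ▸ o)).mono subset_union_left).inter
          ((w.inv o).mono subset_union_right))
        (fun o => union_subset_union (x.ab (show m ∉ x.1.u from hu ▸ o)) (w.ab o))
        fun o => union_subset ((x.a_dm (show m ∈ x.1.u from hu ▸ o)).trans
          (congrArg dm (hc m (hu ▸ o))).ge) (w.a_dm o),
      fun γ m k1 k2 k3 => union_subset_union (x.lo.nest γ m k1 k2 (hu ▸ k3))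
        (w.lo.nest γ m k1 k2 k3)⟩
  have ok : OK (x.1.pu w.1) := ⟨lo, w.top, w.ok.root, fun γ c k1 k2 => inter_mem
    ((show (x.1.pu w.1).cr c = x.1.cr c from hc c (hu ▸ k2.mem)) ▸
      x.ok.big γ c (hu ▸ k1) (hu ▸ k2)) (w.ok.big γ c k1 k2)⟩
  have nrm : Nrm (x.1.pu w.1) := fun m k μ n =>
    have r1 := x.nrm m (hu ▸ k) μ n.1
    have r2 := w.nrm m k μ n.2
    ⟨union_subset r1.1 r2.1, fun γ k1 k2 k3 =>
      inter_mem (r1.2 γ k1 (hu ▸ k2) (hu ▸ k3)) (r2.2 γ k1 k2 k3)⟩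
  have key := lo_of_two (q := x.1.pu w.1) (t := True) isLowerSet_univ x.lo.s1 w.lo.s1
    ⟨fun m _ => R0.pu_left _ _ _ _, fun m _ => R1.pu_left _ _ _ _ _, fun m k =>
      ⟨(h.s2 m k).on, (h.s2 m k).cr, (h.s2 m k).e, (h.s2 m k).H, fun _ _ => inter_subset_left⟩⟩
    ⟨fun m k => R0.pu_right fun π k1 k2 _ => h.n m k π k1 k2,
      fun m k => R1.pu_right (fun o ξ k1 k2 _ => h.g m k (hu ▸ o) ξ k1 k2)
        fun o ξ k1 k2 _ => h.f m k (hu ▸ o) ξ k1 k2,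
      fun m k => ⟨Iff.rfl, fun _ => rfl, fun _ => Subset.rfl, fun _ => le_rfl,
        fun _ _ => inter_subset_right⟩⟩
  refine ⟨⟨_, ok, nrm⟩, key.1, key.2, fun β T t r hT h1 h2 => Lo.of_cone hT
    (fun γ k => lo.s1 γ (k.trans_le le_top)) ⟨fun m k => R0.le_pu (hu ▸ h1.s0 m k :)
      ((h2.s0 m k).diff _), fun m k => R1.le_pu (hu ▸ h1.s1 m k :) ((h2.s1 m k).diff _),
      fun m k => ⟨(h2.s2 m k).on, (h2.s2 m k).cr, (h2.s2 m k).e, (h2.s2 m k).H, fun o n =>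
        subset_inter ((h1.s2 m k).A (show m ∉ x.1.u from hu ▸ o) (hu ▸ n)) ((h2.s2 m k).A o n)⟩⟩,
    rfl⟩

lemma ok_trunc (hT : IsLowerSet T) (p : Cond) : OK (p.1.trunc T) := by
  refine ⟨loOK_trunc hT p.lo, p.top, p.ok.root, fun γ c k1 k2 => ?_⟩
  exact mem_of_superset (p.ok.big γ c k1 k2) fun _ k _ => k

/-- the part of a condition below the coordinate `α` -/
noncomputable def tc (α : K) (p : Cond) : Cond := (ok_trunc (isLowerSet_Iio α) p).cond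

lemma tc_ex (α : K) (p : Cond) : Ex α (tc α p) p :=
  (lo_norm _ _ _ _).trans (isLowerSet_Iio α)
    (Lo.of_eq (isLowerSet_Iio α) p.lo.s1 (loC_trunc_left _ _ _))

lemma Ex.dle_tc (h : Ex α q p) : DLe q (tc α p) :=
  (Lo.of_cone isLowerSet_univ (loOK_trunc (isLowerSet_Iio α) p.lo).s1
    (loC_trunc h.toLoC)).norm_univ q.nrm

lemma tc_a (α : K) (p : Cond) : (tc α p).a ⊤ ⊆ Iio α := fun _ k => k.2 (Z0.self _ _)

lemma Ex.univ (h : Ex α q p) (hs : p.a ⊤ ⊆ Iio α) : Lo ⊤ univ False q.1 p.1 :=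
  lo_supp p.lo (fun _ k => hs k.1) h

theorem exists_inter (h : Ex α q p) (hs : p.a ⊤ ∩ q.a ⊤ ⊆ Iio α) :
    ∃ r, DLe r q ∧ DLe r p ∧ ∀ α' y, Ex α' y q → Ex α' y p → Ex α' y r :=
  let ⟨y, k1, k2, k3, _⟩ := exists_amal (cmp_of_lo p.lo q.lo hs h)
  ⟨y, k2, k1, fun α' z l l' => k3 _ _ _ z.1 (isLowerSet_Iio α') l' l⟩

theorem copy0 (h : Ex α r p) : ∃ r', DLe r' p ∧ Agree α r' r := by
  obtain ⟨y, k1, k2, k3⟩ := exists_inter ((tc_ex α r).trans h) fun _ k => tc_a α r k.2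
  exact ⟨y, k2, (k1.ex α).trans (tc_ex α r), k3 α r ((Ex.refl α r).dle_tc.ex α) h⟩

/-- shrinking the measure one sets -/
theorem exists_shrink (p : Cond) (B : ∀ m, Set (Obj m)) (h1 : ∀ m, m ∉ p.u → Invt (p.b m) (B m))
    (h2 : ∀ m c, m ∉ p.u → Host p.u m c → B m ∈ X.E (p.cr c) m) :
    ∃ q, DLe q p ∧ (∀ m, q.A m ⊆ B m) ∧ q.1.s0 = p.1.s0 ∧ q.1.s1 = p.1.s1 ∧
      ∀ m, At False (p.1.s2 m) (q.1.s2 m) := by
  have ok : OK (p.1.setA fun m => p.A m ∩ B m) :=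
    ⟨⟨p.lo.fin, p.lo.s0, p.lo.s1, fun m l => (p.lo.s2 m l).setA
      (fun o => (p.inv o).inter (h1 m o)) (p.lo.s2 m l).ab (p.lo.s2 m l).dm, p.lo.nest⟩,
      p.top, p.ok.root, fun γ c k1 k2 => inter_mem (p.ok.big γ c k1 k2) (h2 γ c k1 k2)⟩
  exact ⟨ok.cond, (lo_norm _ _ _ _).trans isLowerSet_univ (Lo.of_congr (fun _ _ => rfl)
      (fun _ _ => rfl) fun _ _ => ⟨Iff.rfl, fun _ => rfl, fun _ => Subset.rfl, fun _ => le_rfl,
        fun _ _ => inter_subset_left⟩),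
    fun m => (nA_sub _ m).trans inter_subset_right, rfl, rfl,
    fun _ => ⟨Iff.rfl, fun _ => rfl, fun _ => Subset.rfl, fun _ => le_rfl, fun _ => False.elim⟩⟩

theorem exists_pr (hα : Cl α) (h : Ex α p p') : ∃ p1, DLe p1 p ∧ Pr α p1 p' := by
  obtain ⟨q, k1, k2, -⟩ := exists_shrink p (fun m => {μ | blk p'.u m ⊤ → μ ∈ proj α (p'.b m) (p'.A m)})
    (fun m o μ ν e k z => proj_agr (k z) (e.mono (h.b (Cond.lt_top o)))) fun m c o hc => by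
      by_cases z : blk p'.u m ⊤
      · obtain rfl : c = ⊤ := top_le_iff.1 (z c (h.u ▸ hc.mem) hc.lt)
        rw [show p.cr ⊤ = S.root from p.ok.root]
        refine mem_of_superset (hα m hc.lt _ _ (p'.cb hc.lt) ?_) fun _ k _ => k
        exact p'.ok.root ▸ p'.ok.big m ⊤ (show m ∉ p'.u from h.u ▸ o) ⟨p'.top, hc.lt, z⟩
      · exact univ_mem' fun _ k => absurd k z
  exact ⟨q, k1, fun m _ z _ k => k2 m k z⟩

lemma Pr.dle (h : Pr α p p') (e : DLe q p) (hu : p.u = p'.u) : Pr α q p' :=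
  fun m o z => (e.A (hu ▸ o)).trans (h m o z)

lemma ae_a_top (p : Cond) : ∀ᶠ α in (UU : Filter K), p.a ⊤ ⊆ Iio α :=
  ae_above ((p.ca ⊤).trans_lt ks_lt)

theorem ae_supp (p : Cond) : ∀ᶠ α in (UU : Filter K), ∀ q, Ex α q p → ∀ β, Ex β q p :=
  (ae_a_top p).mono fun _ k _ h _ => (h.univ k).weak (subset_univ _) id

/-- the type of a condition below `α` -/
def tp (α : K) (p : Cond) : Raw := (p.1.trunc (Iio α)).setA fun m =>
  {μ | (¬ blk p.u m ⊤ → μ ∈ p.A m) ∧ (blk p.u m ⊤ → μ ∈ proj α (p.b m) (p.A m))}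

lemma loOK_tp (α : K) (p : Cond) : LoOK ⊤ (tp α p) :=
  have h := loOK_trunc (isLowerSet_Iio α) p.lo
  ⟨h.fin, h.s0, h.s1, fun m l => (h.s2 m l).setA (fun o μ ν e k => ⟨(h.s2 m l).inv o μ ν e k.1,
    fun z => proj_agr (k.2 z) (e.mono fun _ j => ⟨j.1, fun _ => j.2⟩)⟩) (h.s2 m l).ab
    (h.s2 m l).dm, h.nest⟩

theorem stab0 (q : K → Cond) : ∃ Z ∈ UU, ∀ α0 ∈ Z, ∀ α ∈ Z, ∀ x, Ex α0 x (q α0) →
    Ex α x (q α) ∧ (Pr α0 x (q α0) → Pr α x (q α)) := by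
  classical
  obtain ⟨δ, h1⟩ := ae_press (Q := fun α δ => (q α).a ⊤ ∩ Iio α ⊆ Iio δ)
    (ae_cf.mono fun α k => k _ inter_subset_right
      ((mk_le_mk_of_subset inter_subset_left).trans ((q α).ca ⊤)))
  have b1 : (2 : Cardinal.{0}) ^ ks < #K := 
    inacc_pow_lt inacc_K ((nat_lt_aleph0 2).trans inacc_K.1) ks_lt
  have b2 : max #(Iio δ) ℵ₀ < #K := max_lt (S.ord δ) inacc_K.1
  have b3 : (max #(Iio δ) ℵ₀) ^ (2 ^ ks : Cardinal.{0}) < #K := inacc_pow_lt inacc_K b2 b1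
  have b4 : (1 : Cardinal.{0}) ≤ 2 ^ ks := one_le_two.trans
    (by simpa using power_le_power_left two_ne_zero (one_lt_aleph0.le.trans ks_inf))
  have b5 : max #(Iio δ) ℵ₀ ≤ (max #(Iio δ) ℵ₀) ^ (2 ^ ks : Cardinal.{0}) := self_le_power _ b4
  obtain ⟨C, f, c1, c2⟩ := cnt_code (B := (max #(Iio δ) ℵ₀) ^ (2 ^ ks : Cardinal.{0})) (ρ := ks)
    ((le_max_right _ _).trans b5)
    (by rw [← power_mul, mul_eq_self (ks_inf.trans (cantor _).le)]) (β := ⊤) le_rfl (T := Iio δ)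
    ((le_max_left _ _).trans b5)
  obtain ⟨c, h2⟩ := ae_cst' UU _ (mk_option.trans_lt (add_lt_of_lt K_inf (c1.trans_lt b3)
    (one_lt_aleph0.trans inacc_K.1))) fun α =>
      if k : (tp α (q α)).a ⊤ ⊆ Iio δ then some (f ⟨_, loOK_tp α (q α), k⟩) else none
  refine ⟨_, h1.and h2, fun α0 k0 α k x e => ?_⟩
  have key : ∀ α, (q α).a ⊤ ∩ Iio α ⊆ Iio δ → (tp α (q α)).a ⊤ ⊆ Iio δ :=
    fun α k ξ l => k ⟨l.1, l.2 (Z0.self _ _)⟩
  have e1 := k0.2.trans k.2.symm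
  rw [dif_pos (key α0 k0.1), dif_pos (key α k.1)] at e1
  have e2 : LoE ⊤ (tp α0 (q α0)) (tp α (q α)) := c2 _ _ (Option.some.inj e1)
  have hu : (q α0).u = (q α).u := Set.ext fun m => by
    rcases (le_top (a := m)).eq_or_lt with rfl | l
    exacts [iff_of_true (q α0).top (q α).top, e2.on m l]
  have e3 : LoC (cone x.1) ⊤ univ False x.1 (tp α0 (q α0)) :=
    have a := loC_trunc e.toLoC
    ⟨a.s0, a.s1, fun m l => ⟨(a.s2 m l).on, (a.s2 m l).cr, (a.s2 m l).e, (a.s2 m l).H,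
      fun o n _ j => ⟨(a.s2 m l).A o (fun _ => trivial) j, fun z => (n z).elim⟩⟩⟩
  have e4 : LoC (cone x.1) ⊤ (Iio α) False (tp α (q α)) (q α).1 :=
    have a := loC_trunc_left (cone x.1) (Iio α) (q α).1
    ⟨a.s0, a.s1, fun m l => ⟨(a.s2 m l).on, (a.s2 m l).cr, (a.s2 m l).e, (a.s2 m l).H,
      fun _ n _ j => j.1 n⟩⟩
  refine ⟨Lo.of_cone (isLowerSet_Iio α) (q α).lo.s1 (((e3.trans (e2.loC _ _ _)).mono le_rfl
    (fun _ _ z => ⟨z, subset_univ _, id⟩) fun _ => subset_univ _).trans e4), fun h m o z μ j => ?_⟩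
  have o' : m ∉ (q α0).u := hu ▸ o
  have z' : blk (q α0).u m ⊤ := hu ▸ z
  exact (((e2.A m (Cond.lt_top o) o').le ⟨fun n => absurd z' n, fun _ => h m o' z' j⟩).2 z :)

end Pool.Agent.Lib.MP_d4b40b_lc.W
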