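import Pool.Agent.Lib.MP_d4b40b_lc.W.HH

set_option autoImplicit false
set_option linter.unusedSectionVars false

namespace Pool.Agent.Lib.MP_d4b40b_lc.W

open Filter Set Cardinal

variable [S : Sys]

/-- many values of a guiding constraint can be put into one collapse condition -/
theorem many_core {m : I} (hm : m < ⊤) (h : HH m) (d : D m) {Y : Set (Xi m)} (hY : Y ∈ VV m)
    {e : Set (Tr K)} (he : Val #(dm d) (Lt K (kp m)) e) (hr : root h d ⊆ e) :
    ∃ e', Val #(dm d) (Lt K (kp m)) e' ∧ e ⊆ e' ∧ ∃ Z : Set (Xi m), pre m ≤ #Z ∧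
      ∀ ξ ∈ Z, ξ ∈ Y ∧ h.1 d ξ ⊆ e' := by
  obtain ⟨x, x1, x2⟩ := seq_meet (S := {x : Set (Tr K) × Set (K × Xi m) //
      Val #(dm d) (Lt K (kp m)) x.1 ∧ #x.2 ≤ pre m ∧ (∀ y ∈ x.2, y.2 ∈ Y ∧ h.1 d y.2 ⊆ x.1) ∧
      ∀ y ∈ x.2, ∀ y' ∈ x.2, y.2 = y'.2 → y.1 = y'.1})
    (fun a b => b.1.1 ⊆ a.1.1 ∧ b.1.2 ⊆ a.1.2) (fun _ => ⟨Subset.rfl, Subset.rfl⟩)
    (fun _ _ _ k k' => ⟨k'.1.trans k.1, k'.2.trans k.2⟩) (ρ := pre m)
    (fun J f _ hJ ht => ⟨⟨(⋃ i, (f i).1.1, ⋃ i, (f i).1.2),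
      Val.iUnion (dm_inf d hm) (hJ.trans (pre_lt_dm d hm).le) (fun i => (f i).2.1)
        fun i j => (ht i j).symm.imp (·.1) (·.1),
      mk_iUnion_le' (pre_inf m) hJ fun i => (f i).2.2.1, fun y hy => by
        obtain ⟨i, hi⟩ := mem_iUnion.1 hy
        exact ⟨((f i).2.2.2.1 y hi).1,
          ((f i).2.2.2.1 y hi).2.trans (subset_iUnion (fun i => (f i).1.1) i)⟩,
      fun y hy y' hy' => by
        obtain ⟨i, hi⟩ := mem_iUnion.1 hy
        obtain ⟨j, hj⟩ := mem_iUnion.1 hy'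
        exact (ht i j).elim (fun k => (f i).2.2.2.2 y hi y' (k.2 hj))
          fun k => (f j).2.2.2.2 y (k.2 hi) y' hj⟩,
      fun i => ⟨subset_iUnion (fun i => (f i).1.1) i, subset_iUnion (fun i => (f i).1.2) i⟩⟩)
    (T := Lt K (pre m)) (mk_Lt_le _) (fun ζ a => ∃ ξ, (ζ.1, ξ) ∈ a.1.2)
    (fun _ _ _ g k => g.imp fun _ l => k.2 l)
    ⟨(e, ∅), he, by simp, fun _ k => k.elim, fun _ k => k.elim⟩
    (fun ζ a ha => by
      obtain ⟨ξ, k1, k2, k3⟩ := ((root_compat hm h d a.2.1 (hr.trans ha.1)).and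
        (Eventually.and hY (ae_notMem (VV m) _ (S.Vne m) (R := Prod.snd '' a.1.2)
          ((mk_image_le.trans a.2.2.1).trans_lt (pre_lt m))))).exists
      refine ⟨⟨(a.1.1 ∪ h.1 d ξ, a.1.2 ∪ {(ζ.1, ξ)}), k1, mk_union_le' (pre_inf m) a.2.2.1
        (by simpa using one_lt_aleph0.le.trans (pre_inf m)), ?_, ?_⟩,
        ⟨subset_union_left, subset_union_left⟩, ξ, Or.inr rfl⟩
      · rintro y (hy | rfl)
        · exact ⟨(a.2.2.2.1 y hy).1, (a.2.2.2.1 y hy).2.trans subset_union_left⟩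
        · exact ⟨k2, subset_union_right⟩
      · rintro y (hy | rfl) y' (hy' | rfl) e
        · exact a.2.2.2.2 y hy y' hy' e
        · exact absurd ⟨y, hy, e⟩ k3
        · exact absurd ⟨y', hy', e.symm⟩ k3
        · rfl)
  choose g hg using x2
  refine ⟨x.1.1, x.2.1, x1.1, range g, ?_, ?_⟩
  · rw [mk_range_eq g fun a b l => Subtype.ext (x.2.2.2.2 _ (hg a) _ (hg b) l)]
    exact le_mk_Lt (pre_lt_K m).le
  · rintro _ ⟨ζ, rfl⟩
    exact x.2.2.2.1 _ (hg ζ)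

/-- a uniform ultrafilter on the levels -/
lemma exists_unif : ∃ W : Ultrafilter I, ∀ n < (⊤ : I), Ioo n ⊤ ∈ W := by
  obtain ⟨n0, h0, -⟩ := exists_above countable_empty fun _ k => k.elim
  have : Nonempty (Iio (⊤ : I)) := ⟨⟨n0, h0⟩⟩
  have h : (⨅ n : Iio (⊤ : I), 𝓟 (Ioo n.1 ⊤)).NeBot := by
    refine iInf_neBot_of_directed (fun a b => ⟨max a b, ?_, ?_⟩) fun n => ?_
    · exact principal_mono.2 (Ioo_subset_Ioo_left (le_max_left a b : a ≤ max a b))
    · exact principal_mono.2 (Ioo_subset_Ioo_left (le_max_right a b : b ≤ max a b))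
    · obtain ⟨k, k1, k2⟩ := exists_gt n.2
      exact principal_neBot_iff.2 ⟨k, k2, k1⟩
  exact ⟨Ultrafilter.of _, fun n hn => Ultrafilter.of_le _
    (mem_iInf_of_mem (f := fun n : Iio (⊤ : I) => 𝓟 (Ioo n.1 ⊤)) ⟨n, hn⟩ (mem_principal_self _))⟩

/-- a fixed uniform ultrafilter on the levels -/
noncomputable def WW : Ultrafilter I := exists_unif.choose

lemma WW_tail {n : I} (h : n < ⊤) : Ioo n ⊤ ∈ WW := exists_unif.choose_spec n h

lemma WW_avoid {T : Set I} (h : T.Countable) : {n | n < ⊤ ∧ n ∉ T} ∈ WW := by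
  obtain ⟨n, k1, k2⟩ := exists_above (T := T \ {⊤}) (h.mono sdiff_subset)
    fun m k => lt_top_iff_ne_top.2 k.2
  exact mem_of_superset (WW_tail k1) fun m k => ⟨k.2, fun l => absurd (k2 m ⟨l, k.2.ne⟩) k.1.not_gt⟩

/-- codes of the members of the base -/
abbrev Dat : Type := Set I × ∀ n : Iio (⊤ : I), (D n.1 → Set (Xi n.1)) × HH n.1

lemma mk_Dat : #Dat < #K := by
  have h1 : #I ≤ ks := I_le_pre ⊤
  have h2 : (2 : Cardinal.{0}) ^ ks < #K := inacc_K.isStrongPrelimit ks_lt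
  refine mk_prod_lt' K_inf ?_ ?_
  · rw [mk_set]
    exact (power_le_power_left two_ne_zero h1).trans_lt h2
  · rw [mk_pi]
    refine (Cardinal.prod_le_prod _ (fun _ => (2 : Cardinal.{0}) ^ ks) fun n => ?_).trans_lt ?_
    · have h3 := (kp_lt_ks n.2).le
      refine mk_prod_le' (ks_inf.trans (cantor _).le) ?_
        ((mk_HH n.2).trans (power_le_power_left two_ne_zero h3))
      rw [← power_def, mk_set, ← power_mul]
      exact power_le_power_left two_ne_zero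
        (mul_le' ks_inf ((mk_Lt_le _).trans h3) ((S.mk_D n).trans h3))
    · simp only [prod_const, lift_id]
      exact inacc_pow_lt inacc_K h2 (((mk_set_le _).trans h1).trans_lt ks_lt)

end Pool.Agent.Lib.MP_d4b40b_lc.W
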