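import Pool.Agent.Lib.MP_d4b40b_lc.W.ApplA
import Pool.Agent.Lib.MP_d4b40b_lc.W.BaseA

set_option autoImplicit false
set_option linter.unusedSectionVars false

namespace Pool.Agent.Lib.MP_d4b40b_lc.W

open Filter Set Cardinal

variable [S : Sys] {P : Type} [Preorder P]

variable (P) in
/-- the upper collapses and the guiding constraints of the conditions -/
structure Up2 where
  on : I → P → Prop
  cr : P → ∀ n, D n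
  ee : P → I → Set (Tr K)
  hh : P → ∀ n, HH n
  mono : ∀ n a b, on n a → b ≤ a → on n b ∧ cr b n = cr a n ∧ ee a n ⊆ ee b n
  hmono : ∀ n < ⊤, ∀ a b, b ≤ a → ¬ on n b → hh b n ≤ hh a n
  ctb : ∀ p, {n | on n p}.Countable
  val : ∀ n < ⊤, ∀ p, on n p → Val #(dm (cr p n)) (Lt K (kp n)) (ee p n)
  act : ∀ n < ⊤, ∀ p, ¬ on n p → ∃ q ≤ p, on n q ∧ root (hh p n) (cr q n) ⊆ ee q n
  grow : ∀ n < ⊤, ∀ p e, on n p → Val #(dm (cr p n)) (Lt K (kp n)) e → ee p n ⊆ e →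
    ∃ q ≤ p, e ⊆ ee q n

namespace Up2

variable (U : Up2 P)

/-- membership in the generic subset of the `n`-th cardinal given by `Y` and `h` -/
def InB (n : I) (Y : D n → Set (Xi n)) (h : HH n) (ξ : Xi n) (r : P) : Prop :=
  U.on n r ∧ ξ ∈ Y (U.cr r n) ∧ h.1 (U.cr r n) ξ ⊆ U.ee r n

/-- homogeneity at one level -/
def Homog (DL : P → P → Prop) : Prop :=
  ∀ n < ⊤, ∀ X : Xi n → P → Prop, (∀ ξ, RO (X ξ)) → ∀ p, ¬ U.on n p → ∃ q, DL q p ∧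
    ∃ Y : D n → Set (Xi n), (∀ l, Y l ∈ VV n) ∧ ∀ r ≤ q, ∀ ξ ξ', U.InB n Y (U.hh q n) ξ r →
      U.InB n Y (U.hh q n) ξ' r → X ξ r → ∃ r' ≤ r, X ξ' r'

/-- the condition puts the ordinal into the coded set -/
def Mem (d : Dat) (ξ : K) (r : P) : Prop :=
  ∃ n : Iio (⊤ : I), n.1 ∈ d.1 ∧ ∃ k : ξ ∈ Lt K (kp n.1), U.InB n (d.2 n).1 (d.2 n).2 ⟨ξ, k⟩ r

/-- the condition puts the coded set into the base -/
def InD (d : Dat) (r : P) : Prop :=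
  d.1 ∈ WW ∧ (∀ n l, (d.2 n).1 l ∈ VV n.1) ∧
    ∀ n : Iio (⊤ : I), n.1 ∈ d.1 → ¬ U.on n r → U.hh r n ≤ (d.2 n).2

/-- the generic upper collapse -/
def F (n : I) (β i v : K) (r : P) : Prop := n < ⊤ ∧ U.on n r ∧ (β, i, v) ∈ U.ee r n

variable {U}

lemma InB.mono {n : I} {Y : D n → Set (Xi n)} {h : HH n} {ξ : Xi n} {r r' : P}
    (H : U.InB n Y h ξ r) (e : r' ≤ r) : U.InB n Y h ξ r' := by
  obtain ⟨k1, k2, k3⟩ := U.mono n _ _ H.1 e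
  exact ⟨k1, k2 ▸ H.2.1, k2 ▸ H.2.2.trans k3⟩

lemma inB_shrink {n : I} {Y : D n → Set (Xi n)} (hY : ∀ l, Y l ∈ VV n) {h h' : HH n}
    (e : h' ≤ h) : ∃ Y' : D n → Set (Xi n), (∀ l, Y' l ∈ VV n) ∧
      ∀ ξ r, U.InB n Y' h' ξ r → U.InB n Y h ξ r :=
  ⟨fun l => Y l ∩ {ξ | h.1 l ξ ⊆ h'.1 l ξ}, fun l => inter_mem (hY l) (e l),
    fun _ _ k => ⟨k.1, k.2.1.1, Subset.trans k.2.1.2 k.2.2⟩⟩

variable (U)

lemma on_dense {n : I} (hn : n < ⊤) (p : P) : ∃ q ≤ p, U.on n q := by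
  by_cases k : U.on n p
  · exact ⟨p, le_rfl, k⟩
  · exact (U.act n hn p k).imp fun _ l => ⟨l.1, l.2.1⟩

lemma F_mono (n : I) (β i v : K) (a b : P) (h : U.F n β i v a) (e : b ≤ a) : U.F n β i v b :=
  let k := U.mono n a b h.2.1 e
  ⟨h.1, k.1, k.2.2 h.2.2⟩

lemma F_fn (n : I) (β i v v' : K) (a : P) (h : U.F n β i v a) (h' : U.F n β i v' a) : v = v' :=
  (U.val n h.1 a h.2.1).1.fn _ _ _ _ h.2.2 h'.2.2

lemma F_dense (n : I) (hn : n < ⊤) (p : P) (h : U.on n p) (β : K) (hβ : β ∈ Lt K (kp n)) (v : K)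
    (hv : v ≤ β) : ∃ q ≤ p, ∃ i ∈ Lt K (Order.succ #(dm (U.cr p n))), U.F n β i v q := by
  obtain ⟨i, h1, h2⟩ := (U.val n hn p h).add ((dm_lt hn _).trans_le (kp_le_K n)) (dm_inf _ hn) hβ hv
  obtain ⟨q, h3, h4⟩ := U.grow n hn p _ h h2 subset_union_left
  exact ⟨q, h3, i, mem_Lt_succ.2 h1, hn, (U.mono n _ _ h h3).1, h4 (Or.inr rfl)⟩

lemma Mem_mono (d : Dat) (ξ : K) (a b : P) (h : U.Mem d ξ a) (e : b ≤ a) : U.Mem d ξ b :=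
  let ⟨n, k1, k2, k3⟩ := h
  ⟨n, k1, k2, k3.mono e⟩

lemma Mem_lt (d : Dat) (ξ : K) (a : P) (h : U.Mem d ξ a) : ξ ∈ Lt K ks :=
  let ⟨n, _, k2, _⟩ := h
  Lt_mono (kp_lt_ks n.2).le k2

lemma InD_mono (d : Dat) (a b : P) (h : U.InD d a) (e : b ≤ a) : U.InD d b :=
  ⟨h.1, h.2.1, fun n k l => (U.hmono n n.2 a b e l).trans
    (h.2.2 n k fun o => l (U.mono n a b o e).1)⟩

lemma u_dir (d d' : Dat) (s : P) (h : U.InD d s) (h' : U.InD d' s) :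
    ∃ d'', U.InD d'' s ∧ ∀ ξ r, U.Mem d'' ξ r → U.Mem d ξ r ∧ U.Mem d' ξ r := by
  refine ⟨((d.1 ∩ d'.1) ∩ {n | n < ⊤ ∧ n ∉ {n | U.on n s}}, fun n =>
    (fun l => {ξ | ¬ U.on n s → n.1 ∈ d.1 → n.1 ∈ d'.1 →
      (ξ ∈ (d.2 n).1 l ∧ (d.2 n).2.1 l ξ ⊆ (U.hh s n).1 l ξ) ∧
      ξ ∈ (d'.2 n).1 l ∧ (d'.2 n).2.1 l ξ ⊆ (U.hh s n).1 l ξ}, U.hh s n)),
    ⟨inter_mem (inter_mem h.1 h'.1) (WW_avoid (U.ctb s)), fun n l => ?_, fun _ _ _ => le_rfl⟩,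
    fun ξ r ⟨n, ⟨⟨k1, k2⟩, _, k3⟩, k4, k5, k6, k7⟩ => ?_⟩
  · by_cases k : ¬ U.on n s ∧ n.1 ∈ d.1 ∧ n.1 ∈ d'.1
    · exact mem_of_superset (inter_mem (inter_mem (h.2.1 n l) (h.2.2 n k.2.1 k.1 l))
        (inter_mem (h'.2.1 n l) (h'.2.2 n k.2.2 k.1 l))) fun ξ n _ _ _ => n
    · exact univ_mem' fun ξ k1 k2 k3 => absurd ⟨k1, k2, k3⟩ k
  · obtain ⟨⟨n1, n2⟩, n3, n4⟩ := k6 k3 k1 k2
    exact ⟨⟨n, k1, k4, k5, n1, n2.trans k7⟩, ⟨n, k2, k4, k5, n3, n4.trans k7⟩⟩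

lemma u_big (d : Dat) (r : P) (h : U.InD d r) (n : I) (hn : n < ⊤) :
    ∃ s ≤ r, ∃ Z : Set K, kp n ≤ #Z ∧ ∀ ξ ∈ Z, U.Mem d ξ s := by
  obtain ⟨m, ⟨k1, k2, k3⟩, k4, -⟩ := Ultrafilter.nonempty_of_mem
    (inter_mem (inter_mem h.1 (WW_avoid (U.ctb r))) (WW_tail hn))
  obtain ⟨q, q1, q2, q3⟩ := U.act m k2 r k3
  obtain ⟨e, e1, e2, Z, z1, z2⟩ := many_core k2 (d.2 ⟨m, k2⟩).2 (U.cr q m) (h.2.1 ⟨m, k2⟩ _)
    (U.val m k2 q q2) ((root_mono (h.2.2 ⟨m, k2⟩ k1 k3) _).trans q3)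
  obtain ⟨s, s1, s2⟩ := U.grow m k2 q e q2 e1 e2
  obtain ⟨s3, s4, -⟩ := U.mono m _ _ q2 s1
  refine ⟨s, s1.trans q1, Subtype.val '' Z, ?_, ?_⟩
  · rw [mk_image_eq Subtype.val_injective]
    exact (kp_le_pre k4).trans z1
  · rintro _ ⟨ξ, k, rfl⟩
    exact ⟨⟨m, k2⟩, k1, ξ.2, s3, s4 ▸ (z2 ξ k).1, s4 ▸ (z2 ξ k).2.trans s2⟩

theorem u_dec {DL : P → P → Prop} (H : PKit DL) (hr : ∀ a, DL a a) (G : U.Homog DL)
    (X : K → P → Prop) (hX : ∀ ξ, RO (X ξ)) (p : P) :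
    ∃ r ≤ p, ∃ d, U.InD d r ∧ ((∀ ξ, ∀ r' ≤ r, U.Mem d ξ r' → X ξ r') ∨
      ∀ ξ, ∀ r' ≤ r, U.Mem d ξ r' → Out (X ξ) r') := by
  have hI : #(Iio (⊤ : I)) ≤ ℵ₁ := (mk_set_le _).trans I_le
  obtain ⟨q, h1, h2⟩ := H.meet _ hI (fun n q => ∃ Y : D n.1 → Set (Xi n.1), (∀ l, Y l ∈ VV n.1) ∧
      (¬ U.on n q → ∀ r ≤ q, ∀ ξ ξ', U.InB n Y (U.hh q n) ξ r → U.InB n Y (U.hh q n) ξ' r →
        X ξ.1 r → ∃ r' ≤ r, X ξ'.1 r')) p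
    (fun n a b ⟨Y, k1, k2⟩ e => by
      by_cases l : U.on n b
      · exact ⟨Y, k1, fun l' => absurd l l'⟩
      · obtain ⟨Y', k3, k4⟩ := inB_shrink (U := U) k1 (U.hmono n n.2 a b (H.le _ _ e) l)
        exact ⟨Y', k3, fun _ r l' ξ ξ' b1 b2 => k2 (fun o => l (U.mono n a b o (H.le _ _ e)).1) r
          (l'.trans (H.le _ _ e)) ξ ξ' (k4 _ _ b1) (k4 _ _ b2)⟩)
    (fun n q _ => by
      by_cases l : U.on n q
      · exact ⟨q, hr q, fun _ => univ, fun _ => univ_mem, fun l' => absurd l l'⟩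
      · obtain ⟨r, k1, Y, k2, k3⟩ := G n n.2 (fun ξ => X ξ.1) (fun ξ => hX ξ.1) q l
        exact ⟨r, k1, Y, k2, fun _ => k3⟩)
  choose Y y1 y2 using h2
  let Dp : Iio (⊤ : I) → P → Prop := fun n r =>
    ∀ ξ, ∀ r' ≤ r, U.InB n (Y n) (U.hh q n) ξ r' → X ξ.1 r'
  let Dn : Iio (⊤ : I) → P → Prop := fun n r =>
    ∀ ξ, ∀ r' ≤ r, U.InB n (Y n) (U.hh q n) ξ r' → Out (X ξ.1) r'
  have ro : ∀ (n : Iio (⊤ : I)) (Z : K → P → Prop), (∀ ξ, RO (Z ξ)) →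
      RO fun r => ∀ ξ, ∀ r' ≤ r, U.InB n (Y n) (U.hh q n) ξ r' → Z ξ.1 r' := fun n Z hZ =>
    ⟨fun a b k e ξ r' l => k ξ r' (l.trans e), fun a k ξ r' l1 l2 => (hZ _).2 _ fun r'' l3 => by
      obtain ⟨s, l5, l6⟩ := k r'' (l3.trans l1)
      exact ⟨s, l5, l6 ξ s le_rfl (l2.mono (l5.trans l3))⟩⟩
  obtain ⟨r, h3, h4⟩ := H.meet _ hI (fun n r => ¬ U.on n q → Dp n r ∨ Dn n r) q
    (fun n a b g e l => (g l).imp (fun k ξ r' l' => k ξ r' (l'.trans (H.le _ _ e)))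
      fun k ξ r' l' => k ξ r' (l'.trans (H.le _ _ e)))
    (fun n q' hq' => by
      by_cases l : U.on n q
      · exact ⟨q', hr _, fun l' => absurd l l'⟩
      obtain ⟨r, k1, k2⟩ := H.two (Dp n) (Dn n) (ro n X hX) (ro n _ fun ξ => (hX ξ).out) q'
        (fun a ha => by
          by_cases k : Dn n a
          · exact ⟨a, le_rfl, Or.inr k⟩
          · simp only [Dn, Out, not_forall, not_not] at k
            obtain ⟨ξ, r', l1, l2, r'', l3, l4⟩ := k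
            refine ⟨r'', l3.trans l1, Or.inl fun ξ' s l5 l6 => (hX _).2 _ fun s' l7 => ?_⟩
            exact y2 n l s' ((l7.trans (l5.trans (l3.trans l1))).trans (ha.trans (H.le _ _ hq')))
              ξ ξ' (l2.mono (l7.trans (l5.trans l3))) (l6.mono l7)
              ((hX _).1 _ _ l4 (l7.trans l5)))
      exact ⟨r, k1, fun _ => k2⟩)
  have key : ∀ W ∈ WW, U.InD (W ∩ {n | n < ⊤ ∧ n ∉ {n | U.on n q}}, fun n => (Y n, U.hh q n)) r :=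
    fun W hW => ⟨inter_mem hW (WW_avoid (U.ctb q)), y1,
      fun n _ l => U.hmono n n.2 q r (H.le _ _ h3) l⟩
  refine ⟨r, (H.le _ _ h3).trans (H.le _ _ h1), ?_⟩
  rcases WW.mem_or_compl_mem {n | ∀ k : n < ⊤, Dp ⟨n, k⟩ r} with k | k
  · exact ⟨_, key _ k, Or.inl fun ξ r' l ⟨n, n1, n2, n3⟩ => n1.1 n.2 ⟨ξ, n2⟩ r' l n3⟩
  · exact ⟨_, key _ k, Or.inr fun ξ r' l ⟨n, n1, n2, n3⟩ =>
      (h4 n n1.2.2).resolve_left (fun o => n1.1 fun _ => o) ⟨ξ, n2⟩ r' l n3⟩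

end Up2

end Pool.Agent.Lib.MP_d4b40b_lc.W
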