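import Pool.Agent.Lib.MP_d4b40b_lc.W.Prik
import Pool.Agent.Lib.MP_d4b40b_lc.W.BaseB

set_option autoImplicit false
set_option linter.unusedSectionVars false

namespace Pool.Agent.Lib.MP_d4b40b_lc.W

open Filter Set Cardinal

variable [S : Sys] [X : Ext S]

/-- meeting many dense sets simultaneously for all lower parts -/
theorem low_meet {m : I} (hm : m < ⊤) {p : Cond} (hp : m ∈ p.u) {T : Type} (hT : #T ≤ kp m)
    (G : T → Cond → Prop) (h1 : ∀ t a b, G t a → DLe b a → G t b)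
    (h2 : ∀ t q, ∃ r, DLe r q ∧ G t r) :
    ∃ q, Fix m q p ∧ ∀ t, ∀ r ≤ q, ∃ d, LL m d r ∧ G t (mix m d q) := by
  obtain ⟨L, l1, l2⟩ := low_reps hm
  obtain ⟨q, q1, q2⟩ := fix_meet hm (T := T × L) (mk_prod_le' (kp_inf m) hT l1)
    (fun τ q => LL m τ.2.1 q → ∃ d, LL m d τ.2.1 ∧ G τ.1 (mix m d q)) p
    (fun τ a b g e k => (g (k.lw_right (e.1.lw hm))).imp fun d n =>
      ⟨n.1, h1 _ _ _ n.2 ((n.1.trans k).dle_right e.1)⟩)
    (fun τ q hq => by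
      by_cases k : LL m τ.2.1 q
      · obtain ⟨r, k1, k2⟩ := h2 τ.1 (mix m τ.2.1 q)
        obtain ⟨q', k3, k4⟩ := pull_on k.2.1 (k1.trans_upLe k.upLe)
        exact ⟨q', k3, fun _ => ⟨r, LL.of_le_mix k1.le k.1, h1 _ _ _ k2 k4⟩⟩
      · exact ⟨q, Fix.refl _ _, fun l => absurd l k⟩)
  refine ⟨q, q1, fun t r hr => ?_⟩
  have k := LL.of_le hr (q1.1.u ▸ hp)
  obtain ⟨d0, k1, -, k2⟩ := l2 r k.1
  obtain ⟨d, k3, k4⟩ := q2 (t, ⟨d0, k1⟩) (k.lw_left k2)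
  exact ⟨d, k3.lw_right k2, k4⟩

theorem pkit : PKit (P := Cond) DLe where
  le _ _ := DLe.le
  meet _ hT G p := dle_meet hT G p
  two A B hA hB p hd := by
    obtain ⟨q, h1, j, h2⟩ := prikry (J := Bool) (D := fun j q => bif j then A q else B q)
      (fun j => by cases j; exacts [hB.1, hA.1]) (fun j => by cases j; exacts [hB.2, hA.2])
      (fun β _ c d _ f _ => by
        rcases (X.E d β).em fun μ => f μ = true with k | k
        · exact ⟨true, k.mono fun μ e q => e ▸ id⟩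
        · exact ⟨false, k.mono fun μ e q => Bool.eq_false_iff.2 e ▸ id⟩) p
      (fun q l => (hd q l).imp fun r k => ⟨k.1, k.2.elim (fun n => ⟨true, n⟩) fun n => ⟨false, n⟩⟩)
    cases j
    exacts [⟨q, h1, Or.inr h2⟩, ⟨q, h1, Or.inl h2⟩]
  dir J D h1 h2 := prikry (fun j => (h1 j).1) (fun j => (h1 j).2) fun β l _ _ _ f hf =>
    (h2 _ (hf.trans (kp_lt_ks l).le)).imp fun _ k =>
      Eventually.of_forall fun μ => k _ (mem_range_self μ)
  low m hm := by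
    obtain ⟨L, l1, l2⟩ := low_reps hm
    refine ⟨L, fun l r => LL m r l.1, l1, fun l a b k e => k.le_left e, fun T hT G h1 h2 p => ?_⟩
    obtain ⟨p1, k1, k2⟩ := exists_on p m
    obtain ⟨q, q1, q2⟩ := low_meet hm k2 hT G h1 h2
    refine ⟨q, q1.1.le.trans k1, fun t r hr => ?_⟩
    obtain ⟨d, k3, k4⟩ := q2 t r hr
    obtain ⟨d0, k5, k6, k7⟩ := l2 d k3.1
    exact ⟨⟨d0, k5⟩, _, k4, fun s l n => le_mix l (q1.1.u ▸ k2) (LL.lw_right n k7), _, k3.2.2,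
      LL.of_lw ((lw_mix k3.1 r).1.trans k6) (k7.on.2 k3.1)⟩

end Pool.Agent.Lib.MP_d4b40b_lc.W
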