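import Pool.Agent.Lib.MP_d4b40b_lc.W.Iface

set_option autoImplicit false
set_option linter.unusedSectionVars false

namespace Pool.Agent.Lib.MP_d4b40b_lc.W

open Filter Set Cardinal

variable [S : Sys] {P : Type} [Preorder P]

lemma Out.mono {X : P → Prop} {a b : P} (h : Out X a) (l : b ≤ a) : Out X b :=
  fun r k => h r (k.trans l)

lemma RO.out {X : P → Prop} (h : RO X) : RO (Out X) :=
  ⟨fun _ _ => Out.mono, fun _ k r l i =>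
    let ⟨r', k1, k2⟩ := k r l
    k2 r' le_rfl (h.1 _ _ i k1)⟩

/-- the abstract properties of the direct extension order -/
structure PKit (DL : P → P → Prop) : Prop where
  le : ∀ a b, DL a b → a ≤ b
  meet : ∀ (T : Type), #T ≤ ℵ₁ → ∀ (G : T → P → Prop) (p : P),
    (∀ t a b, G t a → DL b a → G t b) → (∀ t q, DL q p → ∃ r, DL r q ∧ G t r) →
    ∃ q, DL q p ∧ ∀ t, G t q
  two : ∀ X Y : P → Prop, RO X → RO Y → ∀ p, (∀ q ≤ p, ∃ r ≤ q, X r ∨ Y r) →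
    ∃ q, DL q p ∧ (X q ∨ Y q)
  dir : ∀ (J : Type) (X : J → P → Prop), (∀ j, RO (X j)) →
    (∀ T : Set J, #T ≤ ks → ∃ j, ∀ i ∈ T, ∀ q, X i q → X j q) →
    ∀ p, (∀ q ≤ p, ∃ r ≤ q, ∃ j, X j r) → ∃ q, DL q p ∧ ∃ j, X j q
  low : ∀ m < (⊤ : I), ∃ (L : Type) (Sg : L → P → Prop), #L ≤ kp m ∧
    (∀ l a b, Sg l a → b ≤ a → Sg l b) ∧ ∀ (T : Type), #T ≤ kp m → ∀ G : T → P → Prop,
      (∀ t a b, G t a → DL b a → G t b) → (∀ t q, ∃ r, DL r q ∧ G t r) → ∀ p, ∃ q ≤ p,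
        ∀ t, ∀ r ≤ q, ∃ l z, G t z ∧ (∀ s ≤ q, Sg l s → s ≤ z) ∧ ∃ r' ≤ r, Sg l r'

namespace PKit

variable {DL : P → P → Prop} (H : PKit DL)

include H

lemma decide {X : P → Prop} (h : RO X) (p : P) : ∃ q, DL q p ∧ (X q ∨ Out X q) :=
  H.two X _ h h.out p fun q _ => by
    by_cases k : ∃ r ≤ q, X r
    · exact k.imp fun r k => ⟨k.1, Or.inl k.2⟩
    · exact ⟨q, le_rfl, Or.inr fun r k1 k2 => k ⟨r, k1, k2⟩⟩

lemma dec_open {X : P → Prop} (h : RO X) {a b : P} (k : X a ∨ Out X a) (e : DL b a) :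
    X b ∨ Out X b := k.imp (fun k => h.1 a b k (H.le _ _ e)) fun k => k.mono (H.le _ _ e)

theorem ddec (T : Type) (hT : #T ≤ ℵ₁) (X : T → P → Prop) (h : ∀ t, RO (X t)) (p : P) :
    ∃ q, DL q p ∧ ∀ t, X t q ∨ Out (X t) q :=
  H.meet T hT _ p (fun t _ _ => H.dec_open (h t)) fun t q _ => H.decide (h t) q

theorem dec (T : Type) (hT : #T ≤ ℵ₁) (X : T → P → Prop) (h : ∀ t, RO (X t)) (p : P) :
    ∃ q ≤ p, ∀ t, X t q ∨ Out (X t) q :=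
  (H.ddec T hT X h p).imp fun _ k => ⟨H.le _ _ k.1, k.2⟩

theorem cover (m : I) (hm : m < ⊤) (T : Type) (hT : #T ≤ kp m) :
    ∃ (Φ : Type) (Sig : Φ → T → P → Prop),
    #Φ ≤ 2 ^ kp m ∧ (∀ φ t a b, Sig φ t a → b ≤ a → Sig φ t b) ∧
    ∀ X : T → P → Prop, (∀ t, RO (X t)) → ∀ p, ∃ q ≤ p, ∃ φ, ∀ t, ∀ r ≤ q,
      (Sig φ t r → X t r) ∧ (X t r → ∃ r' ≤ r, Sig φ t r') := by
  obtain ⟨L, Sg, h1, h2, h3⟩ := H.low m hm
  refine ⟨Set (L × T), fun φ t r => ∃ l, (l, t) ∈ φ ∧ Sg l r, ?_,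
    fun φ t a b k e => k.imp fun l k => ⟨k.1, h2 l a b k.2 e⟩, fun X hX p => ?_⟩
  · rw [mk_set]
    exact power_le_power_left two_ne_zero (mk_prod_le' (kp_inf m) h1 hT)
  · obtain ⟨q, k1, k2⟩ := h3 T hT (fun t q => X t q ∨ Out (X t) q)
      (fun t _ _ => H.dec_open (hX t)) (fun t q => H.decide (hX t) q) p
    refine ⟨q, k1, {x | ∀ s ≤ q, Sg x.1 s → X x.2 s}, fun t r hr =>
      ⟨fun ⟨l, n1, n2⟩ => n1 r hr n2, fun k => ?_⟩⟩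
    obtain ⟨l, z, n1, n2, r', n3, n4⟩ := k2 t r hr
    have n5 := n1.resolve_right fun o => o r' (n2 r' (n3.trans hr) n4) ((hX t).1 _ _ k n3)
    exact ⟨r', n3, l, fun s l1 l2 => (hX t).1 _ _ n5 (n2 s l1 l2), n4⟩

theorem bound_succ (X : K → K → P → Prop) (hm : ∀ ξ γ a b, X ξ γ a → b ≤ a → X ξ γ b)
    (hf : ∀ ξ γ γ' q, X ξ γ q → X ξ γ' q → γ = γ')
    (hb : ∀ ξ γ q, X ξ γ q → γ ∈ Lt K (Order.succ ks)) (p : P) :
    ∃ q ≤ p, ∃ j ∈ Lt K (Order.succ ks), ∀ ξ ∈ Lt K ks, ∀ γ, ∀ r ≤ q, X ξ γ r → γ < j := by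
  let J := Lt K (Order.succ ks)
  let D : Set K → J → P → Prop := fun T j q => ∀ ξ ∈ T, ∀ γ, ∀ r ≤ q, X ξ γ r → γ < j.1
  have sup : ∀ T : Set J, #T ≤ ks → ∃ j : J, ∀ i ∈ T, i.1 < j.1 := by
    intro T hT
    obtain ⟨δ, k1, k2⟩ := exists_Lt_bound (K := K) succ_ks_lt.le (isRegular_succ ks_inf)
      (S := Subtype.val '' T) (Order.lt_succ_iff.2 (mk_image_le.trans hT))
      (by rintro _ ⟨x, -, rfl⟩; exact x.2)
    exact ⟨⟨δ, k1⟩, fun i k => k2 _ ⟨_, k, rfl⟩⟩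
  obtain ⟨j0, -⟩ := sup ∅ (by simp)
  have key : ∀ T p, (∀ q ≤ p, ∃ r ≤ q, ∃ j, D T j r) → ∃ q, DL q p ∧ ∃ j, D T j q := fun T p =>
    H.dir J (D T) (fun j => ⟨fun a b k e ξ l γ r l' => k ξ l γ r (l'.trans e),
      fun q k ξ l γ r l' s => by
        obtain ⟨r', k1, k2⟩ := k r l'
        exact k2 ξ l γ r' le_rfl (hm _ _ _ _ s k1)⟩)
      (fun T hT => (sup T hT).imp fun j k i n q d ξ l γ r l' s =>
        (d ξ l γ r l' s).trans (k i n)) p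
  have op : ∀ T a b, (∃ j, D T j a) → DL b a → ∃ j, D T j b := fun T a b g e =>
    g.imp fun j k ξ l γ r l' => k ξ l γ r (l'.trans (H.le _ _ e))
  have k1 : ∀ ξ p, ∃ q, DL q p ∧ ∃ j, D {ξ} j q := fun ξ p => key _ p fun q _ => by
    by_cases k : ∃ r ≤ q, ∃ γ, X ξ γ r
    · obtain ⟨r, l1, γ, l2⟩ := k
      obtain ⟨j, l3⟩ := sup {⟨γ, hb _ _ _ l2⟩} (by simpa using one_lt_aleph0.le.trans ks_inf)
      refine ⟨r, l1, j, ?_⟩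
      rintro _ rfl γ' r' l4 l5
      exact hf _ _ _ _ (hm _ _ _ _ l2 l4) l5 ▸ l3 _ rfl
    · refine ⟨q, le_rfl, j0, ?_⟩
      rintro _ rfl γ' r' l4 l5
      exact absurd ⟨r', l4, γ', l5⟩ k
  obtain ⟨q, h1, h2⟩ := H.meet (Iio (⊤ : I)) ((mk_set_le _).trans I_le)
    (fun m q => ∃ j, D (Lt K (kp m.1)) j q) p (fun m => op _)
    (fun m q _ => key _ q fun q _ => by
      obtain ⟨L, Sg, n1, n2, n3⟩ := H.low m.1 m.2
      obtain ⟨q2, l3, l4⟩ := n3 (Lt K (kp m.1)) (mk_Lt_le _) (fun ξ q => ∃ j, D {ξ.1} j q)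
        (fun ξ => op _) (fun ξ q => k1 ξ q) q
      have : ∀ x : Lt K (kp m.1) × L, ∃ j : J,
          (∃ j, ∀ s ≤ q2, Sg x.2 s → D {x.1.1} j s) → ∀ s ≤ q2, Sg x.2 s → D {x.1.1} j s := by
        intro x
        by_cases k : ∃ j, ∀ s ≤ q2, Sg x.2 s → D {x.1.1} j s
        · exact k.imp fun _ k _ => k
        · exact ⟨j0, fun l => absurd l k⟩
      choose f hf using this
      obtain ⟨j, hj⟩ := sup (range f) (mk_range_le.trans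
        ((mk_prod_le' (kp_inf _) (mk_Lt_le _) n1).trans (kp_lt_ks m.2).le))
      refine ⟨q2, l3, j, fun ξ l γ r l' s => ?_⟩
      obtain ⟨d, z, ⟨i, n4⟩, n5, r', n6, n7⟩ := l4 ⟨ξ, l⟩ r l'
      exact (hf (⟨ξ, l⟩, d) ⟨i, fun s a1 a2 ζ a3 γ r a4 => n4 ζ a3 γ r (a4.trans (n5 s a1 a2))⟩
        r' (n6.trans l') n7 ξ rfl γ r' le_rfl (hm _ _ _ _ s n6)).trans (hj _ (mem_range_self _)))
  choose f hf using h2
  obtain ⟨j, hj⟩ := sup (range f) (mk_range_le.trans ((mk_set_le _).trans (I_le_pre ⊤)))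
  refine ⟨q, H.le _ _ h1, j, j.2, fun ξ l γ r l' s => ?_⟩
  obtain ⟨n, hn, k⟩ := lt_ks l
  exact (hf ⟨n, hn⟩ ξ k γ r l' s).trans (hj _ (mem_range_self _))

end PKit

end Pool.Agent.Lib.MP_d4b40b_lc.W
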