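import Pool.Agent.Lib.MP_d4b40b_lc.W.TreeA

set_option autoImplicit false
set_option linter.unusedSectionVars false

namespace Pool.Agent.Lib.MP_d4b40b_lc.W

open Filter Set Cardinal

variable [S : Sys] {P : Type} [Preorder P]

/-- the field `big` of the interface, from the existence of fresh coordinates -/
theorem Kit.big (H : Kit P) (G : K → K → K → P → Prop)
    (g1 : ∀ β i v a b, G β i v a → b ≤ a → G β i v b)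
    (g2 : ∀ β i v v' a, G β i v a → G β i v' a → v = v')
    (g3 : ∀ α β i v p q, G β i v p → H.Ex α q p → β < α → ∃ q' ≤ q, G β i v q') (ι : I → K)
    (fresh : ∀ p, ∀ᶠ γ in (UU : Filter K), ∃ q ≤ p, ∀ r ≤ q, ∃ y ≤ r, ∃ y' ≤ r, H.Ag γ y y' ∧
      ∃ k ξ ξ', ξ ≠ ξ' ∧ ξ ∈ Lt K ks ∧ G γ (ι k) ξ y ∧ G γ (ι k) ξ' y')
    (V : K → K → P → Prop) (p : P) (hm : ∀ γ i a b, V γ i a → b ≤ a → V γ i b)
    (hd : ∀ γ, ∀ q ≤ p, ∃ r ≤ q, ∃ i ∈ Lt K (Order.succ ks), V γ i r)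
    (hi : ∀ γ γ' i, ∀ r ≤ p, V γ i r → V γ' i r → ∀ k, ∀ ξ ∈ Lt K ks, G γ (ι k) ξ r →
      ∃ r' ≤ r, G γ' (ι k) ξ r') : False := by
  obtain ⟨x, hx⟩ := ae_pick (B := P × K) (Q := fun γ x => x.1 ≤ p ∧ x.2 ∈ Lt K (Order.succ ks) ∧
      V γ x.2 x.1 ∧ ∀ r' ≤ x.1, ∃ y ≤ r', ∃ y' ≤ r', H.Ag γ y y' ∧
        ∃ k ξ ξ', ξ ≠ ξ' ∧ ξ ∈ Lt K ks ∧ G γ (ι k) ξ y ∧ G γ (ι k) ξ' y')
    ((fresh p).mono fun γ ⟨q, k1, k2⟩ => by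
      obtain ⟨r, k3, i, k4, k5⟩ := hd γ q k1
      exact ⟨(r, i), k3.trans k1, k4, k5, fun r' l => k2 r' (l.trans k3)⟩)
  obtain ⟨j, -, hj⟩ := ae_cst UU _ ((mk_Lt_le _).trans_lt succ_ks_lt) (hx.mono fun _ k => k.2.1)
  obtain ⟨γ', ⟨u0, k3, k4⟩, k2, -, -, k1, -⟩ :=
    ((H.compat' fun γ => (x γ).1).and (hj.and hx)).exists
  obtain ⟨γ, ⟨s, k5, k6⟩, k7, ⟨r1, -, r3, r4⟩, k8, k9⟩ :=
    ((k4 u0 le_rfl).and (hj.and (hx.and (H.ae_cl.and (S.tail γ'))))).exists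
  obtain ⟨y, l1, y', l2, l3, k, ξ, ξ', l4, l5, l6, l7⟩ := r4 s k6
  have v1 : V γ j s := hm _ _ _ _ (k7 ▸ r3) k6
  have v2 : V γ' j s := hm _ _ _ _ (k2 ▸ k1) (k5.trans k3)
  have sp : s ≤ p := k6.trans r1
  obtain ⟨u, n1, u', n2, n3, n4⟩ := Kit.ext_agree k8 l3.1 (G := G γ' (ι k) ξ)
    (g1 _ _ _) fun a ha => hi γ γ' j a ((ha.trans l1).trans sp)
      (hm _ _ _ _ v1 (ha.trans l1)) (hm _ _ _ _ v2 (ha.trans l1)) k ξ l5 (g1 _ _ _ _ _ l6 ha)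
  obtain ⟨u1, n7, n8⟩ := g3 _ _ _ _ _ _ n4 n3.2 k9
  have n9 := n7.trans n2
  obtain ⟨u'', n5, n6⟩ := hi γ' γ j u1 ((n9.trans l2).trans sp) (hm _ _ _ _ v2 (n9.trans l2))
    (hm _ _ _ _ v1 (n9.trans l2)) k ξ l5 n8
  exact l4 (g2 _ _ _ _ _ n6 (g1 _ _ _ _ _ l7 (n5.trans n9)))

end Pool.Agent.Lib.MP_d4b40b_lc.W
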