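import Pool.Agent.Lib.MP_d4b40b_lc.W.Pull
import Pool.Agent.Lib.MP_d4b40b_lc.W.Amal
import Pool.Agent.Lib.MP_d4b40b_lc.W.BigA

set_option autoImplicit false
set_option linter.unusedSectionVars false

namespace Pool.Agent.Lib.MP_d4b40b_lc.W

open Filter Set Cardinal

variable [S : Sys] [X : Ext S] {r q p p' : Cond} {α z : K} {γ m : I} {μ ν : Obj γ}

lemma lo_glue {T : Set K} {t : Prop} (hT : IsLowerSet T) (h : Lw γ q p)
    (h0 : ∀ m, γ < m → R0 (cone q.1 m) (F0 p.u ⊤ T m) (q.1.s0 m) (p.1.s0 m))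
    (h1 : ∀ m < ⊤, γ ≤ m → R1 (m ∈ p.u) (cone q.1 m) (F1 p.u ⊤ T m) (q.1.s1 m) (p.1.s1 m))
    (h2 : ∀ m < ⊤, γ < m → At (blk p.u m ⊤ → t) (q.1.s2 m) (p.1.s2 m)) : Lo ⊤ T t q.1 p.1 := by
  refine Lo.of_cone hT p.lo.s1 ⟨fun m _ => (le_or_gt m γ).elim (fun l => (h.1.s0 m l).mono
    (fun _ _ _ => trivial) fun _ _ _ => id) (h0 m), fun m k => (lt_or_ge m γ).elim
      (fun l => (h.1.s1 m l).mono Iff.rfl (fun _ _ _ => trivial) (fun _ _ _ _ => id) fun _ _ => id)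
      (h1 m k), fun m k => ?_⟩
  rcases lt_trichotomy m γ with l | rfl | l
  · exact (h.1.s2 m l).mono fun _ _ _ => trivial
  · exact h.2.mono fun _ _ => trivial
  · exact h2 m k l

lemma tc_u (α : K) (p : Cond) : (tc α p).u = p.u := rfl

lemma act_tc_lo (a : Adm p γ ν) (h : ∀ ξ ∈ p.b γ, α ≤ ξ → ∀ η ∈ ν.g.f ξ, z < η) :
    Lo γ (Iic z) False (act (tc α p) γ ν).1 (act p γ ν).1 := by
  have a' := a.dle (Ex.refl α p).dle_tc
  have u : (act p γ ν).1.u = insert γ p.u := act_u a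
  have k0 : ∀ ξ η, η ∈ ν.g.f ξ → η ≤ z → ξ ∈ p.b γ → ξ < α := fun ξ η k1 k2 k3 =>
    not_le.1 fun k4 => absurd (h ξ k3 k4 η k1) (not_lt.2 k2)
  refine Lo.of_eq (isLowerSet_Iic z) (fun m l => (act p γ ν).lo.s1 m (l.trans_le le_top))
    ⟨fun m l => ?_, fun m l => ?_, fun m l => ?_⟩
  · by_cases z0 : Z0 p.u γ m
    · rw [act_s0_in a l z0, act_s0_in a' l z0]
      have k1 : p.a m ⊆ p.b γ := ((p.lo.mono le_top).a_sub l z0).trans (p.ab a.1)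
      refine R0.tr (C := fun _ _ => True) (T := {ξ | ξ ∈ p.b γ → ξ < α})
        ⟨fun _ k => ⟨k.1, fun _ => k.2 (k1 k.1)⟩,
          fun π k n => ⟨k, fun _ => n (k1 ((p.lo.s0 m le_top).bl π k).1)⟩, fun _ _ _ _ _ => rfl⟩
        fun ξ η k n => ⟨k0 ξ η k (n ?_), fun _ => id⟩
      rw [u]
      rintro c (rfl | c1) c2
      exacts [absurd c2 (lt_irrefl _), z0 c c1 c2]
    · rw [act_s0_out a fun k => z0 k.2, act_s0_out a' fun k => z0 k.2]
      exact R0.mono (R0.refl _ _ _).of_res (fun _ _ k => absurd (k.mono le_top le_rfl) z0)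
        fun _ _ _ => id
  · by_cases z0 : blk p.u m γ
    · rw [act_s1_in a l z0, act_s1_in a' l z0]
      have k1 : p.b m ⊆ p.b γ := (p.lo.nest m γ l le_top z0).trans (p.ab a.1)
      refine R1.tr (C := fun _ _ => True) (T := {ξ | ξ ∈ p.b γ → ξ < α})
        ⟨fun _ k => ⟨k.1, fun _ => k.2 (k1 k.1)⟩, fun _ _ _ _ _ _ => rfl, fun _ _ _ _ _ _ _ => rfl⟩
        (fun ξ η k n => k0 ξ η k (n ?_)) (fun _ _ _ _ _ _ => id) fun _ _ => id
      rw [u]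
      rintro c (rfl | c1) c2
      exacts [le_rfl, z0 c c1 c2]
    · rw [act_s1_out a fun k => z0 k.2, act_s1_out a' fun k => z0 k.2]
      exact R1.mono (R1.refl _ _ _ _).of_res Iff.rfl
        (fun _ _ k => absurd (k.mono le_rfl le_top) z0) (fun _ _ _ _ => id) fun _ _ => id
  · by_cases z0 : blk p.u m γ
    · rw [act_s2_in a l z0, act_s2_in a' l z0]
      refine ⟨Iff.rfl, fun _ => rfl, fun _ => Subset.rfl, fun _ => le_rfl, fun _ n => (n ?_).elim⟩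
      rw [u]
      rintro c (rfl | c1) c2
      exacts [le_rfl, z0 c c1 c2]
    · rw [act_s2_out a fun k => z0 k.2, act_s2_out a' fun k => z0 k.2]
      exact ((tc_ex α p).s2 m (l.trans_le le_top)).mono fun _ _ k => z0 (k.mono le_rfl le_top)

lemma act_tc_at (a : Adm p γ ν) : At True ((act (tc α p) γ ν).1.s2 γ) ((act p γ ν).1.s2 γ) :=
  have a' := a.dle (Ex.refl α p).dle_tc
  ⟨iff_of_true (act_on a') (act_on a), fun _ => (act_cr a').trans (act_cr a).symm,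
    fun _ => ((act_e a).trans (act_e a').symm).le, fun o => absurd (act_on a) o,
    fun o => absurd (act_on a) o⟩

lemma act_tc_ex (a : Adm p γ ν) (h1 : DLe q (act (tc α p) γ ν)) (h2 : Lw γ q (act p γ ν)) :
    Ex α q (act p γ ν) := by
  have a' := a.dle (Ex.refl α p).dle_tc
  have u : (act p γ ν).u = insert γ p.u := act_u a
  have u' : (act (tc α p) γ ν).1.u = (act p γ ν).u := (act_u a').trans u.symm
  have k1 : ∀ m, γ ≤ m → blk p.u m ⊤ → blk (act p γ ν).u m ⊤ := fun m l z => by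
    rw [u]
    rintro c (rfl | c1) c2
    exacts [absurd c2 (not_lt.2 l), z c c1 c2]
  refine lo_glue (isLowerSet_Iio α) h2 (fun m l => ?_) (fun m k l => ?_) fun m k l => ?_
  · refine ((h1.s0 m le_top).mono (fun _ _ _ => trivial) fun _ _ _ => id).trans
      (C' := fun _ _ => True) ?_ fun _ _ _ _ => trivial
    rw [act_s0_out a fun k => l.not_ge k.1, act_s0_out a' fun k => l.not_ge k.1]
    refine R0.mono (R0.refl _ _ _).of_res (fun _ n z => n ?_) fun _ _ _ => id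
    rw [u]
    rintro c (rfl | c1) c2
    exacts [l, z c c1 c2]
  · refine ((h1.s1 m k).mono (u' ▸ Iff.rfl) (fun _ _ _ => trivial) (fun _ _ _ _ => id)
      fun _ _ => id).trans (C' := fun _ _ => True) ?_ (fun _ _ _ _ _ => trivial)
      fun _ _ _ _ => trivial
    rcases l.eq_or_lt with rfl | l'
    · rw [act_s1_self a, act_s1_self a']
      exact ⟨fun _ n => ⟨n.1, fun z => n.2 (k1 _ l z)⟩, fun _ _ _ _ _ _ => rfl,
        fun _ _ _ _ _ _ _ => rfl⟩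
    · rw [act_s1_out a fun k => l'.not_ge k.1, act_s1_out a' fun k => l'.not_ge k.1]
      exact R1.mono (R1.refl _ _ _ _).of_res Iff.rfl (fun _ n z => n (k1 m l z))
        (fun _ _ _ _ => id) fun _ _ => id
  · refine ((h1.s2 m k).mono fun _ _ _ => trivial).trans ?_
    rw [act_s2_out a fun k => l.not_ge k.1, act_s2_out a' fun k => l.not_ge k.1]
    exact ((tc_ex α p).s2 m k).mono fun _ n z => n (k1 m l.le z)

theorem copy_act (h : Ex α p p') (a : Adm p γ μ) (bl : blk p'.u γ ⊤)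
    (hp : μ ∈ proj α (p'.b γ) (p'.A γ)) (hr : r ≤ act p γ μ) (low : ∀ c ∈ r.u, c < γ → c ∈ p.u) :
    ∃ ν, Adm p' γ ν ∧ (∀ ξ ∈ p'.b γ, α ≤ ξ → ∀ η ∈ ν.g.f ξ, ∀ θ ∈ r.a γ, θ < η) ∧
      ∃ y p1, DLe y r ∧ y ≤ p1 ∧ DLe p1 (act p γ μ) ∧ Ex α p1 (act p' γ ν) := by
  have l := a.lt
  have o : γ ∈ r.u := u_mono hr (act_on a)
  have w : Lw γ r (act p γ μ) := lw_of_le hr l (act_on a) fun c k1 k2 =>
    act_u a ▸ Or.inr (low c k1 k2)
  obtain ⟨z, z1, z2⟩ := S.dm_cof γ μ.c l (r.a γ) ((r.a_dm o).trans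
    (congrArg dm ((cr_le hr (act_on a)).trans (act_cr a))).le) (r.ca γ)
  obtain ⟨ν, n1, n2, n3⟩ := hp z z1
  have a' : Adm p' γ ν := ⟨h.u ▸ a.1, n1⟩
  have d : DLe (act p γ μ) (act (tc α p') γ ν) := (act_mono h.dle_tc a).trans
    (act_agr (a'.dle (Ex.refl α p').dle_tc) (n2.symm.mono fun _ k => ⟨k.1, k.2 bl⟩))
  have w' := w.trans (d.lw l)
  have o' := act_on a'
  have v := mix_val o' r
  have c : Cmp ⊤ (mix γ (act p' γ ν) r).1 r.1 := by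
    refine (cmp_of_lo ((mix γ _ r).lo.mono le_top) (r.lo.mono le_top) (fun ξ k => z2 ξ k.2)
      ((Lo.weak w'.1 (subset_univ _) False.elim).trans (isLowerSet_Iic z)
        ((act_tc_lo a' n3).trans (isLowerSet_Iic z)
          (Lo.weak (lw_mix o' r).2.1 (subset_univ _) False.elim)))).glue
      (fun m k => v ▸ if_neg k.not_ge) (fun m k => v ▸ if_neg k.not_gt) fun m _ k => ?_
    rcases k.eq_or_lt with rfl | k'
    · exact (w'.2.trans ((act_tc_at a').trans (lw_mix o' r).2.2)).mono fun _ _ => trivial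
    · rw [v, show (Raw.mix γ (act p' γ ν).1 r.1).s2 m = r.1.s2 m from if_neg k'.not_ge]
      exact At.refl _ _
  obtain ⟨y, y1, y2, -⟩ := exists_amal c
  have oy : γ ∈ y.u := y2.u ▸ o
  have d' := dle_mix_of_lw ((y2.lw l).trans w) (act_on a)
  exact ⟨ν, a', fun ξ k1 k2 η k3 θ k4 => (z2 θ k4).trans_lt (n3 ξ k1 k2 η k3), y, _, y2,
    (mix_self oy).ge.trans ((LL.of_le le_rfl oy).mix_le (y2.le.trans hr) (act_on a)), d',
    act_tc_ex a' (d'.trans d) ((lw_mix oy _).1.trans ((y1.lw l).trans (lw_mix o' r).1))⟩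

lemma pr_act (h : Pr α p p') (a : Adm p γ μ) (a' : Adm p' γ ν) :
    Pr α (act p γ μ) (act p' γ ν) := by
  intro m o z
  have l : ¬ m ≤ γ := fun k => absurd (z γ (act_on a') (k.lt_of_ne fun e => o (e ▸ act_on a')))
    (not_le.2 a.lt)
  have := h m (fun k => o (act_u a' ▸ Or.inr k)) fun c k => z c (act_u a' ▸ Or.inr k)
  simpa only [Cond.A, Cond.b, Raw.A, Raw.b, act_s2_out a fun k => l k.1,
    act_s2_out a' fun k => l k.1, act_s1_out a' fun k => l k.1] using this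

lemma copy_aux (n : ℕ) : ∀ r p p', (r.u \ p.u).ncard = n → Ex α p p' → Pr α p p' → r ≤ p →
    ∃ r1, DLe r1 r ∧ ∃ r' ≤ p', Ex α r1 r' := by
  induction n using Nat.strong_induction_on with
  | _ n ih =>
  intro r p p' hn h hp hr
  by_cases e : r.u ⊆ p.u
  · exact ⟨r, DLe.refl r, p', le_rfl, ((dle_of_le hr e).ex α).trans h⟩
  obtain ⟨γ, ⟨k1, k2⟩, k3⟩ := (wellFounded_lt (α := I)).has_min (r.u \ p.u)
    (not_subset.1 e)
  obtain ⟨μ, a, k4⟩ := le_split hr k1 k2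
  have lt : (r.u \ (act p γ μ).u).ncard < n := by
    rw [← hn, act_u a]
    exact ncard_lt_ncard ⟨sdiff_subset_sdiff_right (subset_insert _ _),
      fun k => (k ⟨k1, k2⟩).2 (mem_insert _ _)⟩ (r.lo.fin.subset sdiff_subset)
  by_cases bl : blk p'.u γ ⊤
  · obtain ⟨ν, a', -, y, p1, y1, y2, y3, y4⟩ := copy_act h a bl (hp γ (h.u ▸ k2) bl a.2) k4
      fun c c1 c2 => by_contra fun c3 => k3 c ⟨c1, c3⟩ c2
    obtain ⟨r1, r2, r', r3, r4⟩ := ih _ lt y p1 _ (by rw [y1.u, y3.u]) y4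
      ((pr_act hp a a').dle y3 (y3.u.symm.trans y4.u)) y2
    exact ⟨r1, r2.trans y1, r', r3.trans (act_le a'), r4⟩
  · obtain ⟨a', k5⟩ := act_ex h bl a
    obtain ⟨r1, r2, r', r3, r4⟩ := ih _ lt r _ _ rfl k5 (pr_act hp a a') k4
    exact ⟨r1, r2, r', r3.trans (act_le a'), r4⟩

theorem copy_le (h : Ex α p p') (hp : Pr α p p') (hr : r ≤ p) :
    ∃ r1, DLe r1 r ∧ ∃ r' ≤ p', Ex α r1 r' ∧ Ex α r' r1 := by
  obtain ⟨r1, k1, r', k2, k3⟩ := copy_aux _ r p p' rfl h hp hr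
  obtain ⟨x, k4, k5⟩ := copy0 k3
  exact ⟨r1, k1, x, k4.le.trans k2, k5.symm⟩

theorem ae_inter (e : Cond) : ∀ᶠ α in (UU : Filter K), ∀ q r, r ≤ e → Ex α q r →
    ∃ q' ≤ q, q' ≤ e := by
  filter_upwards [ae_a_top e] with α k q r h1 h2
  obtain ⟨s, k1, k2, k3⟩ := exists_nf h1
  obtain ⟨q', k4, k5, -⟩ := exists_inter (h2.trans (k1.ex α)) fun ξ l =>
    k (show ξ ∈ (e.1.s0 ⊤).a from k3 ▸ l.1)
  exact ⟨q', k4.le, k5.le.trans k2⟩

/-- the copying properties of the forcing -/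
def kit : Kit Cond where
  Ex := Ex
  DL := DLe
  Pr := Pr
  Cl := Cl
  ex_refl := Ex.refl
  ex_trans := fun _ _ _ _ => Ex.trans
  dl_le := fun _ _ => DLe.le
  dl_ex := fun α _ _ h => h.ex α
  ae_cl := ae_cl
  copy0 := fun _ _ _ => copy0
  exists_pr := fun _ _ _ => exists_pr
  copy_le := fun _ _ _ _ => copy_le
  ae_supp := ae_supp
  ae_inter := ae_inter
  stab0 := stab0

theorem fresh {ι : I → K} (h1 : Function.Injective ι) (h2 : ∀ k, #(Iio (ι k)) ≤ ks) (p : Cond) :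
    ∀ᶠ γ in (UU : Filter K), ∃ q ≤ p, ∀ r ≤ q, ∃ y ≤ r, ∃ y' ≤ r, Agree γ y y' ∧
      ∃ k ξ ξ', ξ ≠ ξ' ∧ ξ ∈ Lt K ks ∧ Cc ⊤ γ (ι k) ξ y ∧ Cc ⊤ γ (ι k) ξ' y' := by
  filter_upwards [ae_cl, ae_above (T := Lt K ks) ((mk_Lt_le _).trans_lt ks_lt), ae_a_top p]
    with γ hγ hb hp
  let P : K × K → Info → K → Prop := fun π σ v =>
    ∃ k < ⊤, π.2 = ι k ∧ v ∈ Lt K (kp k) ∧ v ∈ σ.t ⊤ k γ
  have hP : ∀ π σ v, v ∈ opt (P π σ) ↔ P π σ v := fun π σ v => mem_opt (by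
    rintro v v' ⟨k, -, k1, -, k2⟩ ⟨k', -, k3, -, k4⟩
    obtain rfl := h1 (k1.symm.trans k3)
    exact Option.mem_unique k2 k4)
  have one : ∀ m, (1 : Cardinal.{0}) ≤ pre m := fun m => one_lt_aleph0.le.trans (pre_inf m)
  refine (exists_grow p
    (fun m => ⟨{ξ | Z0 p.u ⊤ m ∧ ξ = γ ∨ m = ⊤ ∧ ξ ∈ Lt K ks},
      {π | m = ⊤ ∧ π.1 = γ ∧ π.2 ∈ range ι}, fun π σ => opt (P π σ)⟩)
    (fun m => {ξ | Z0 p.u ⊤ m ∧ ξ = γ}) (fun m => ⟨?_, (mk_le_mk_of_subset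
      (t := {γ} ×ˢ range ι) fun π k => k.2).trans (mk_sprod_le' (pre_inf m) (by simpa using one m)
        (mk_range_le.trans (I_le_pre m))), ?_, ?_, ?_⟩)
    (fun m _ => (mk_le_mk_of_subset (t := {γ}) fun _ k => k.2).trans
      (by simpa using (one m).trans (pre_lt m).le))
    (fun m l _ _ k => k.elim Or.inr fun k' => absurd k'.1 l.ne) (fun m o ξ k => ?_)
    fun δ m l _ _ k => Or.inr (Or.inl ⟨k.1.mono le_rfl l.le, k.2⟩)).imp
      fun q ⟨q1, q2, _⟩ => ⟨q1.le, fun r hr => ?_⟩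
  rotate_right
  · obtain ⟨n, n1, -⟩ := exists_above countable_empty fun _ k => k.elim
    obtain ⟨k, -, l, z⟩ := exists_tz r n1
    have o : k ∉ r.u := fun o => lt_irrefl _ (z k o l)
    have g1 : γ ∈ r.a k := (tz_le hr z).1 (show γ ∈ (q.1.s0 k).a from q2 k ▸
      Or.inr (Or.inl ⟨fun c c1 => z c (u_mono (hr.trans q1.le) c1), rfl⟩))
    have key : ∀ r1, DLe r1 r → ∀ μ, Adm r1 k μ → ∀ ξ ∈ μ.g.f γ,
        Cc ⊤ γ (ι k) ξ (act r1 k μ) := by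
      intro r1 e μ a ξ j
      have j1 := s0_le (m := ⊤) ((act_le a).trans (e.le.trans hr))
        fun c _ c1 c2 => absurd (top_le_iff.1 c2 ▸ q.top) c1
      have j2 : (γ, ι k) ∈ (q.1.s0 ⊤).Bl := q2 ⊤ ▸ Or.inr ⟨rfl, rfl, k, rfl⟩
      refine ⟨Cond.top _, j1.subB j2, ?_⟩
      rw [j1.n _ j2 trivial _ (Sub.refl _ _ _), q2 ⊤, S0.pu_neg fun n =>
        lt_irrefl γ (hp ((p.lo.s0 ⊤ le_rfl).bl _ n).1)]
      exact (hP _ _ _).2 ⟨k, l, rfl, μ.lt j, info_act_new a l (e.u ▸ z.blk) (e.b l (r.ab o g1)) j⟩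
    obtain ⟨r1, k1, k2⟩ := exists_pr hγ (Ex.refl γ r)
    obtain ⟨μ, a⟩ := exists_adm (show k ∉ r1.u from k1.u ▸ o)
    obtain ⟨ν, a', k3, y, p1, y1, y2, y3, y4⟩ := copy_act (k1.ex γ) a z.blk (k2 k o z.blk a.2)
      le_rfl fun c c1 c2 => (act_u a ▸ c1 : c ∈ insert k r1.u).resolve_left c2.ne
    obtain ⟨y', k4, k5⟩ := copy0 (((dle_of_le y2 (y1.u.trans y3.u.symm).le).ex γ).trans y4)
    obtain ⟨ξ, j⟩ := a.dom (k1.a k g1)
    obtain ⟨ξ', j'⟩ := a'.dom g1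
    refine ⟨y, y1.le.trans ((act_le a).trans k1.le), y', k4.le.trans (act_le a'), k5.symm, k, ξ,
      ξ', (k3 γ (r.ab o g1) le_rfl ξ' j' ξ ?_).ne, Lt_mono (kp_lt_ks l).le (μ.lt j),
      (key r1 k1 μ a ξ j).mono y1.le, (key r (DLe.refl r) ν a' ξ' j').mono k4.le⟩
    exact show ξ ∈ ((act r1 k μ).1.s0 k).a from act_s0_in a le_rfl (Z0.self _ _) ▸
      ⟨γ, k1.a k g1, j⟩
  · rcases eq_or_ne m ⊤ with rfl | l
    · exact (mk_le_mk_of_subset (t := {γ} ∪ Lt K ks) fun _ k => k.imp (·.2) (·.2)).trans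
        (mk_union_le' ks_inf (by simpa using one ⊤) (mk_Lt_le _))
    · exact (mk_le_mk_of_subset (t := {γ}) fun _ k => (k.resolve_right fun n => l n.1).2).trans
        (by simpa using one m)
  · rintro π ⟨rfl, k1, k, k2⟩
    exact ⟨Or.inl ⟨Z0.self _ _, k1⟩, k2 ▸ h2 k⟩
  · rintro π ⟨rfl, k1, -⟩ τ σ e v j
    obtain ⟨k, k2, k3, k4, k5⟩ := (hP _ _ _).1 j
    exact (hP _ _ _).2 ⟨k, k2, k3, k4, e ⊤ k γ v k2 le_rfl
      (fun _ => ⟨Or.inl ⟨Z0.self _ _, rfl⟩, k1.ge⟩) (fun n => absurd n (lt_irrefl _)) k4 k5⟩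
  · rintro π ⟨rfl, k1, -⟩ σ v j
    obtain ⟨k, k2, -, k4, -⟩ := (hP _ _ _).1 j
    have := Lt_mono (kp_lt_ks k2).le k4
    exact ⟨Or.inr ⟨rfl, this⟩, k1 ▸ (hb this).le⟩
  · rcases (le_top (a := m)).eq_or_lt with rfl | l
    · rw [show p.cr ⊤ = S.root from p.ok.root, show dm S.root = Set.univ from S.dm_root]
      trivial
    · exact k.elim (fun n => absurd (n.1 m o l) (lt_irrefl _)) fun n => absurd n.1 l.ne

/-- the field `big` of the interface -/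
theorem big (ι : I → K) (h1 : Function.Injective ι) (h2 : ∀ k, #(Iio (ι k)) ≤ ks)
    (V : K → K → Cond → Prop) (p : Cond) (hm : ∀ γ i a b, V γ i a → b ≤ a → V γ i b)
    (hd : ∀ γ, ∀ q ≤ p, ∃ r ≤ q, ∃ i ∈ Lt K (Order.succ ks), V γ i r)
    (hi : ∀ γ γ' i, ∀ r ≤ p, V γ i r → V γ' i r → ∀ k, ∀ ξ ∈ Lt K ks, Cc ⊤ γ (ι k) ξ r →
      ∃ r' ≤ r, Cc ⊤ γ' (ι k) ξ r') : False :=
  kit.big (Cc ⊤) (fun _ _ _ _ _ => Cc.mono) (fun _ _ _ _ _ => Cc.fn)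
    (fun _ _ _ _ _ q h e l => ⟨q, le_rfl, h.ex e l⟩) ι (fresh h1 h2) V p hm hd hi

/-- the field `compat` of the interface -/
theorem compat (q : K → Cond) : ∀ᶠ α0 in (UU : Filter K), ∃ x ≤ q α0, ∀ y ≤ x,
    ∀ᶠ α in (UU : Filter K), ∃ r ≤ y, r ≤ q α := kit.compat' q

end Pool.Agent.Lib.MP_d4b40b_lc.W
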