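import Pool.Agent.Lib.MP_d4b40b_lc.W.ExtB

set_option autoImplicit false
set_option linter.unusedSectionVars false
set_option linter.style.haveILetI false

namespace Pool.Agent.Lib.MP_d4b40b_lc.W

open Filter Set Cardinal

namespace ExtC

variable [S : Sys]

/-- the cores -/
def Cs (W : I → Ultrafilter (Set K)) (m : I) : Set (Set K) :=
  {d | (m < ⊤ ∧ ∃ x, Good W m x ∧ rep W m x = d) ∨ (m = ⊤ ∧ d = Set.univ)}

variable {W : I → Ultrafilter (Set K)}

lemma Cs.good {m : I} {d : Set K} (h : d ∈ Cs W m) (hm : m < ⊤) :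
    ∃ x, Good W m x ∧ Eqv W m x d := by
  rcases h with ⟨-, x, k, rfl⟩ | k
  exacts [⟨x, k, eqv_rep W m x⟩, absurd k.1 hm.ne]

lemma Cs.clo (hW : ∀ m < ⊤, SC (kp m) (W m)) {m : I} {d : Set K} (h : d ∈ Cs W m) :
    ∃ x, Clo W m x ∧ Eqv W m x d := by
  rcases h with ⟨-, x, k, rfl⟩ | ⟨-, rfl⟩
  exacts [⟨x, k.clo, eqv_rep W m x⟩, ⟨_, clo_univ hW m, rfl, rfl, fun _ _ => rfl⟩]

lemma lo_univ : lo (Set.univ : Set K) = Set.univ := by
  by_contra h
  obtain ⟨β, k⟩ := (ne_univ_iff_exists_notMem _).1 h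
  have := mk_le_mk_of_subset (s := lo (Set.univ : Set K)) (t := Iio β)
    fun γ l => not_le.1 fun l' => k (lo_low _ l' l)
  rw [mk_lo, mk_univ] at this
  exact absurd (S.ord β) (not_lt.2 this)

lemma ae_Cs (hW : ∀ m < ⊤, SC (kp m) (W m)) {m : I} (hm : m < ⊤) :
    ∀ᶠ y : Set K in (W m : Filter (Set K)), rep W m y ∈ Cs W m :=
  (ae_good hW hm).mono fun y k => Or.inl ⟨hm, y, k, rfl⟩

lemma mk_Cs (hW : ∀ m < ⊤, SC (kp m) (W m)) (m : I) : #(Cs W m) ≤ kp m := by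
  rcases le_top.eq_or_lt (a := m) with rfl | hm
  · exact (mk_le_mk_of_subset (t := {Set.univ}) fun d k =>
      k.elim (fun l => absurd l.1 (lt_irrefl _)) (·.2)).trans
      (by simpa using one_lt_aleph0.le.trans (kp_inf ⊤))
  · refine (mk_le_mk_of_subset fun d k => ?_).trans (mk_Ds hW hm)
    rcases k with ⟨-, x, k1, rfl⟩ | k1
    exacts [⟨x, k1.lt, rfl⟩, absurd k1.1 hm.ne]

/-- the system with the cores -/
@[reducible] noncomputable def sys (hW : ∀ m < ⊤, SC (kp m) (W m)) : Sys :=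
  { S with
    D := fun m => Cs W m
    dm := fun _ d => lo d.1
    kap := fun m d => #(ko m d.1)
    root := ⟨Set.univ, Or.inr ⟨rfl, rfl⟩⟩
    dm_root := lo_univ
    dm_low := fun _ _ => lo_low _
    dm_sub := fun m d => by
      rcases le_top.eq_or_lt (a := m) with rfl | hm
      · exact fun β _ => (S.ord β).trans_eq S.top.symm
      · obtain ⟨x, k1, k2⟩ := Cs.good d.2 hm
        exact k2.1 ▸ lo_sub k1.lt
    dm_lt := fun m d hm => by
      obtain ⟨x, k1, k2⟩ := Cs.good d.2 hm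
      rw [← k2.1, mk_lo]; exact k1.lt
    kap_le := fun m d hm => by
      obtain ⟨x, k1, k2⟩ := Cs.good d.2 hm
      rw [← k2.2.1]; exact k1.kap
    dm_pow := fun m d hm => by
      obtain ⟨x, k1, k2⟩ := Cs.good d.2 hm
      rw [← k2.1, ← k2.2.1, mk_lo]; exact ⟨k1.two, k1.pow⟩
    dm_cof := fun m d hm => by
      obtain ⟨x, k1, k2⟩ := Cs.good d.2 hm
      rw [← k2.1]; exact k1.cof
    mk_D := mk_Cs hW }

variable (hW : ∀ m < ⊤, SC (kp m) (W m))

/-- objects of the new system -/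
abbrev Ob (γ : I) : Type := @Obj (sys hW) γ

/-- the core of an object -/
abbrev Ob.c {γ : I} (μ : Ob hW γ) : Cs W γ := @Obj.c (sys hW) γ μ

/-- the map of an object -/
abbrev Ob.f {γ : I} (μ : Ob hW γ) : K → Option K := @PM.f (sys hW) (@Obj.g (sys hW) γ μ)

lemma ob_ext {γ : I} {μ ν : Ob hW γ} (h : (μ.c hW).1 = (ν.c hW).1) (h' : μ.f hW = ν.f hW) :
    μ = ν :=
  @Obj.ext (sys hW) _ _ _ (Subtype.ext h) (@PM.ext (sys hW) _ _ h')

lemma exists_ob (γ : I) (x : Set K) : ∃ o : Set K → Ob hW γ,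
    (∀ y, rep W γ y ∈ Cs W γ → ((o y).c hW).1 = rep W γ y ∧ (o y).f hW = cmp y x) ∧
      ∀ y y', rep W γ y ∉ Cs W γ → rep W γ y' ∉ Cs W γ → o y = o y' := by
  classical
  obtain ⟨d0⟩ : Nonempty (Cs W γ) := by
    rcases le_top.eq_or_lt (a := γ) with rfl | hm
    · exact ⟨⟨Set.univ, Or.inr ⟨rfl, rfl⟩⟩⟩
    · exact ⟨⟨_, (ae_Cs hW hm).exists.choose_spec⟩⟩
  refine ⟨fun y => if h : rep W γ y ∈ Cs W γ then
    @Obj.mk (sys hW) γ ⟨_, h⟩ (@PM.mk (sys hW) (cmp y x) fun ξ ξ' η η' k k' l => ?_)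
      fun ξ η k => ?_
    else @Obj.mk (sys hW) γ d0 (@PM.mk (sys hW) (fun _ => none) fun _ _ _ _ k => nomatch k)
      (fun _ _ k => nomatch k), fun y h => ?_, fun y y' h h' => ?_⟩
  · obtain ⟨a, a1, rfl, a2, rfl⟩ := mem_cmp.1 k
    obtain ⟨b, b1, rfl, b2, rfl⟩ := mem_cmp.1 k'
    exact fn_mono y a2 b2 (((fn_mono x).lt_iff_lt a1 b1).1 l)
  · obtain ⟨a, -, -, a2, rfl⟩ := mem_cmp.1 k
    exact (eqv_rep W γ y).1.subset (mem_image_of_mem _ a2)
  · simp only [dif_pos h, and_self]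
  · simp only [dif_neg h, dif_neg h']

theorem exists_ext : Nonempty (Ext (sys hW)) := by
  choose o o1 o2 using exists_ob hW
  have o3 : ∀ γ < ⊤, ∀ x, ∀ᶠ y : Set K in (W γ : Filter (Set K)),
      ((o γ x y).c hW).1 = rep W γ y ∧ (o γ x y).f hW = cmp y x := fun γ h x =>
    (ae_Cs hW h).mono (o1 γ x)
  have o4 : ∀ γ < ⊤, ∀ x x', rE W γ x = rE W γ x' → (W γ).map (o γ x) = (W γ).map (o γ x') := by
    intro γ h x x' e
    have key : ∀ x B, B ∈ (W γ).map (o γ x) ↔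
        (fun μ : Ob hW γ => ((μ.c hW).1, μ.f hW)) '' B ∈ rE W γ x := fun x B => by
      refine eventually_congr (p := fun y => o γ x y ∈ B)
        (q := fun y => (rep W γ y, cmp y x) ∈ (fun μ : Ob hW γ => ((μ.c hW).1, μ.f hW)) '' B)
        ((o3 γ h x).mono fun y k => ⟨fun l => ⟨_, l, Prod.ext k.1 k.2⟩, fun ⟨μ, l1, l2⟩ => ?_⟩)
      rwa [ob_ext hW (k.1.trans (congrArg Prod.fst l2).symm) (k.2.trans (congrArg Prod.snd l2).symm)]
    exact Ultrafilter.ext fun B => by rw [key, key, e]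
  have pre' : ∀ (x b : Set K), #(x ∩ fn x ⁻¹' b : Set K) ≤ #b := fun x b =>
    mk_le_of_injective (f := fun a => ⟨fn x a.1, a.2.2⟩) fun a a' e =>
      Subtype.ext ((fn_mono x).injOn a.2.1 a'.2.1 (congrArg Subtype.val e))
  refine ⟨@Ext.mk (sys hW) (fun {_} d γ => (W γ).map (o γ d.1)) (fun {c} d γ h => ?_)
    (fun {c} d γ h ξ hξ => ?_) (fun {c} d γ h b b1 b2 f f1 f2 => ?_) (fun {c} d γ h ρ hρ => ?_)
    fun {c} d γ δ h1 h2 b b1 b2 B B1 B2 => ?_⟩
  · haveI := (hW γ (h.trans_le le_top)).1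
    exact inferInstanceAs (CardinalInterFilter (Filter.map (o γ d.1) (W γ)) (@kp S γ))
  · have ht := h.trans_le le_top
    obtain ⟨a, a1, rfl⟩ := hξ
    show ∀ᶠ y : Set K in (W γ : Filter (Set K)), ∃ η, η ∈ (o γ d.1 y).f hW (fn d.1 a)
    filter_upwards [o3 γ ht d.1, (hW γ ht).2.2.1 a] with y k1 k2
    rw [k1.2, cmp_fn y a1]
    exact ⟨_, mem_pi.2 ⟨k2, rfl⟩⟩
  · have ht := h.trans_le le_top
    obtain ⟨x, x1, x2⟩ := Cs.clo hW d.2
    have e := o4 γ ht _ _ (x2.2.2 γ h)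
    have f3 : ∀ᶠ μ : Ob hW γ in ((W γ).map (o γ x) : Filter (Ob hW γ)), f μ ∈ lo (μ.c hW).1 := by
      rw [e]; exact f2
    obtain ⟨ξ, k1, k2⟩ := x1 γ h (x ∩ fn x ⁻¹' b) inter_subset_left ((pre' x b).trans b2)
      (fun y => f (o γ x y)) (fun y y' e1 e2 => by
        by_cases l : rep W γ y ∈ Cs W γ
        · have l1 := o1 γ x y l
          have l2 := o1 γ x y' (e1 ▸ l)
          refine f1 _ _ ⟨Subtype.ext (l1.1.trans (e1.trans l2.1.symm)), fun ζ hζ => ?_⟩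
          obtain ⟨a, a1, rfl⟩ : ζ ∈ lo x := x2.1.ge (b1 hζ)
          show (o γ x y).f hW _ = (o γ x y').f hW _
          rw [l1.2, l2.2, cmp_fn y a1, cmp_fn y' a1, e2 a ⟨a1, hζ⟩]
        · rw [o2 γ x y y' l (e1 ▸ l)])
      (by
        filter_upwards [f3, o3 γ ht x] with y l1 l2
        rw [(eqv_rep W γ y).1, ← l2.1]; exact l1)
    refine ⟨fn x ξ, x2.1.le (mem_image_of_mem _ k1), ?_⟩
    show ∀ᶠ μ : Ob hW γ in (((W γ).map (o γ d.1) : Ultrafilter _) : Filter (Ob hW γ)),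
      f μ ∈ μ.f hW (fn x ξ)
    rw [← e]
    show ∀ᶠ y : Set K in (W γ : Filter (Set K)), f (o γ x y) ∈ (o γ x y).f hW (fn x ξ)
    filter_upwards [k2, o3 γ ht x] with y l1 l2
    rwa [l2.2, cmp_fn y k1]
  · have ht := h.trans_le le_top
    show ∀ᶠ y : Set K in (W γ : Filter (Set K)), ρ < #(ko γ ((o γ d.1 y).c hW).1)
    filter_upwards [o3 γ ht d.1, ae_ko hW ht (inacc_succ_lt (@inacc_kp S γ) hρ)] with y k1 k2
    rw [k1.1, ← (eqv_rep W γ y).2.1]
    exact Order.succ_le_iff.1 k2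
  · have ht := h2.trans_le le_top
    have ht' := h1.trans ht
    have B3 : ∀ᶠ y : Set K in (W δ : Filter (Set K)), o δ d.1 y ∈ B := B2
    show ∀ᶠ z : Set K in (W γ : Filter (Set K)), {ν : Ob hW δ |
      @Obj.comp (sys hW) δ ν (@Obj.g (sys hW) γ (o γ d.1 z)) ∈ B} ∈
        (W δ).map (o δ ((o γ d.1 z).c hW).1)
    filter_upwards [o3 γ ht d.1, sc_sub (hW γ ht) (((pre' d.1 b).trans b2).trans_lt (S.mono h1))]
      with z k1 k2
    rw [k1.1, ← o4 δ ht' _ _ ((eqv_rep W γ z).2.2 δ h1)]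
    refine Ultrafilter.mem_map.2 ?_
    filter_upwards [B3, o3 δ ht' d.1, o3 δ ht' z] with y l1 l2 l3
    refine B1 _ _ ⟨Subtype.ext (l2.1.trans l3.1.symm), fun ζ hζ => ?_⟩ l1
    obtain ⟨a, a1, rfl⟩ : ζ ∈ lo d.1 := b1 hζ
    have a2 : a ∈ z := k2 ⟨a1, hζ⟩
    show (o δ d.1 y).f hW _ = ((o γ d.1 z).f hW _).bind ((o δ z y).f hW)
    rw [l2.2, l3.2, k1.2, cmp_fn y a1, cmp_fn z a1,
      show pi z a = some (fn z a) from mem_pi.2 ⟨a2, rfl⟩, Option.bind_some, cmp_fn y a2]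

end ExtC

open ExtC in
theorem exists_sys (K : Type) (U : Ultrafilter K) (hU : ∀ x, {x} ∉ U)
    (hc : CardinalInterFilter (U : Filter K) #K) (T : Set Cardinal.{0}) (hT : ¬ T.Countable)
    (h : ∀ c ∈ T, ℵ₀ < c ∧ c < #K ∧ ∃ W : Ultrafilter (Set K), SC c W) :
    ∃ S : Sys, Nonempty (Ext S) := by
  obtain ⟨I, _, _, _, κ, k1, k2, k3, k4, k5, k6⟩ :=
    exists_levels #K T hT fun c hc => ⟨(h c hc).1, (h c hc).2.1⟩
  have hK : ℵ₀ < #K := k2 ▸ aleph0_lt_aleph_one.trans (k3 ⊤)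
  obtain ⟨_, _, U', u1, u2, u3, u4⟩ := exists_normal K U hU hc hK
  have hw : ∀ m, ∃ W : Ultrafilter (Set K), m < ⊤ → SC (κ m) W := fun m => by
    by_cases l : m < ⊤
    · exact (h _ (k4 m l).1).2.2.imp fun _ k _ => k
    · exact ⟨pure ∅, fun l' => absurd l' l⟩
  choose W hW using hw
  have hv : ∀ m, ∃ V : Ultrafilter (Lt K (κ m)), CardinalInterFilter (V : Filter (Lt K (κ m))) (κ m) ∧
      ∀ t, ∀ᶠ x in (V : Filter (Lt K (κ m))), x ≠ t := fun m => by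
    rcases le_top.eq_or_lt (a := m) with rfl | l
    · rw [k2]
      exact ⟨U'.map fun β => ⟨β, u1 β⟩, by rw [Ultrafilter.coe_map]; infer_instance,
        fun t => (u3 t.1).mono fun β k e => k.ne' (congrArg Subtype.val e)⟩
    · exact sc_meas (hW m l) (h _ (k4 m l).1).2.1
  choose V v1 v2 using hv
  let S : Sys :=
    { I := I, K := K, ctb := fun m l => (k4 m l).2, unc := k5, card := k6, κ := κ, mono := k1,
      big := k3, top := k2, ord := u1, U := U', cpl := u2, tail := u3, normal := u4, V := V,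
      Vcpl := v1, Vne := v2, D := fun m => {_u : Unit // m = ⊤}, dm := fun _ _ => Set.univ,
      kap := fun _ _ => 0, root := ⟨(), rfl⟩, dm_root := rfl, dm_low := fun _ _ => isLowerSet_univ,
      dm_sub := fun m d β _ => (u1 β).trans_eq (d.2 ▸ k2.symm),
      dm_lt := fun m d l => absurd d.2 l.ne, kap_le := fun m d l => absurd d.2 l.ne,
      dm_pow := fun m d l => absurd d.2 l.ne, dm_cof := fun m d l => absurd d.2 l.ne,
      mk_D := fun m => (mk_subtype_le _).trans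
        (by simpa using (one_lt_aleph0.trans aleph0_lt_aleph_one).le.trans (k3 m).le) }
  exact ⟨_, @ExtC.exists_ext S W hW⟩

end Pool.Agent.Lib.MP_d4b40b_lc.W
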