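import Pool.Agent.Lib.MP_d4b40b_lc.W.ModC

set_option autoImplicit false
set_option linter.unusedSectionVars false

namespace Pool.Agent.Lib.MP_d4b40b_lc.W

open Pool.Agent.Lib.helper81 Pool.Agent.Lib.helper81.Name Pool.Agent.Lib.MP_fcebdf_lc Set Cardinal
open Filter

variable [S : Sys] {P : Type} [Preorder P]

/-- `q` forces the height of a node -/
abbrev FH (R x : HN P) (δ : K) (q : P) : Prop :=
  Fc (fun _ E v => Ht E (v 0) (v 1) (v 2)) (w3 R x (oo P δ)) q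

lemma FH.congr {R x y : HN P} {δ : K} {q : P} (h : FH R x δ q) (e : Feq x.1 y.1 q) :
    FH R y δ q := by
  refine Fc.congr (def_ht 0 1 2) (fun i => ?_) h
  rcases i with _ | _ | i
  · exact Feq.refl _ _
  · exact e
  · exact Feq.refl _ _

lemma FR_congr_left {f x x' y : HN P} {q : P} (h : FR f x y q) (e : Feq x.1 x'.1 q) :
    FR f x' y q := by
  refine Fc.congr (Def.rel 0 1 2) (fun i => ?_) h
  rcases i with _ | _ | i
  · exact Feq.refl _ _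
  · exact e
  · exact Feq.refl _ _

/-- canonical nodes -/
def Nd (T R : HN P) (p : P) (z : K × T.1.ι) (q : P) : Prop :=
  q ≤ p ∧ Fmem (T.sub z.2).1 T.1 q ∧ FH R (T.sub z.2) z.1 q ∧
    ∀ j, WellOrderingRel j z.2 → ∀ s ≤ q, ¬ Feq (T.sub z.2).1 (T.sub j).1 s

/-- the order of canonical nodes -/
def Dd (T R : HN P) (p : P) (z w : K × T.1.ι) (q : P) : Prop :=
  Nd T R p z q ∧ Nd T R p w q ∧ FR R (T.sub z.2) (T.sub w.2) q

variable {T R : HN P} {p : P}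

lemma Nd.mono {z : K × T.1.ι} {a b : P} (h : Nd T R p z a) (e : b ≤ a) : Nd T R p z b :=
  ⟨e.trans h.1, h.2.1.mono e, h.2.2.1.mono e, fun j l s hs => h.2.2.2 j l s (hs.trans e)⟩

lemma Nd.uniq {z w : K × T.1.ι} {q : P} (h : Nd T R p z q) (h' : Nd T R p w q)
    (e : Feq (T.sub z.2).1 (T.sub w.2).1 q) : z.2 = w.2 := by
  rcases trichotomous_of WellOrderingRel z.2 w.2 with l | l | l
  · exact absurd e.symm (h'.2.2.2 _ l q le_rfl)
  · exact l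
  · exact absurd e (h.2.2.2 _ l q le_rfl)

lemma exists_nd {y : HN P} {δ : K} {q : P} (hq : q ≤ p) (h1 : Fmem y.1 T.1 q)
    (h2 : FH R y δ q) : ∃ r ≤ q, ∃ i, Nd T R p (δ, i) r ∧ Feq y.1 (T.sub i).1 r := by
  obtain ⟨r, k1, i, k2⟩ := exists_lst (fun i r => Feq y.1 (T.sub i).1 r) (q := q)
    ((fmem_elim h1).imp fun _ k => ⟨k.1, k.2.imp fun _ k => k.2⟩)
  exact ⟨r, k1, i, ⟨k1.trans hq, (h1.mono k1).congr_left k2.1, (FH.congr (h2.mono k1) k2.1),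
    fun j l s hs e => k2.2 j l s hs ((k2.1.mono hs).trans e)⟩, k2.1⟩

section

variable (H : Iface P) (hp : Fc (fun _ E v => LTree E (v 0) (v 1) (v 2))
  (w3 (oS P (univ : Set K)) T R) p)

include hp

include H in
lemma nd_small (δ : K) : #{z : K × T.1.ι | z.1 = δ ∧ ∃ q, Nd T R p z q} < #K := by
  by_contra h
  obtain ⟨e⟩ := (Cardinal.le_def _ _).1 (not_lt.1 h)
  choose q hq using fun α => (e α).2.2
  obtain ⟨α0, x, k2, k3⟩ := (H.compat q).exists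
  let B : K → LowerSet P := fun α => ⟨{r | r ≤ q α}, fun _ _ l k => l.trans k⟩
  obtain ⟨g, l1, l2, l3⟩ := exists_gm' x (w3 (oS P (univ : Set K)) T R)
    {oo P δ, mkH (oo P) B, mkH (fun α => T.sub (e α).1.2) B} (to_countable _)
  have a1 : oo P δ ∈ g.S := l3 (by simp)
  have a2 : mkH (oo P) B ∈ g.S := l3 (by simp)
  have a3 : mkH (fun α => T.sub (e α).1.2) B ∈ g.S := l3 (by simp)
  obtain ⟨L, hL⟩ := g.isZF.sepDef (def_ht 1 0 2) (w2 (g.val R) (g.val (oo P δ))) (g.val T)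
  refine (hp.mono (k2.trans (hq α0).1) g l1 l2).2.2.2 _ L (oS_intro g (l2 0) a1 trivial) hL
    (le_trans' g.isZF (fc_le_unb (cc_bounded H) k_clos (fun y hy γ => ?_) g l1 (mem2 (l2 0) a2))
      (Le.mono (fc_le (oo P) (fun α => T.sub (e α).1.2) B
        (fun α r _ k => ⟨fmem_mkH (A := oo P) k, fmem_mkH (A := fun α => T.sub (e α).1.2) k⟩)
        (fun y r _ k => fmem_elim k) (fun α α' r _ _ _ k => feq_ord k ▸ Feq.refl _ _)
        (fun α α' r _ k k' l => ?_) g l1 (mem2 a2 a3)) fun y hy => ?_))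
  · obtain ⟨α, ⟨r, n1, n2⟩, n3⟩ := ((k3 y hy).and (S.tail γ)).exists
    exact ⟨r, n1, α, n3, fmem_mkH (A := oo P) n2⟩
  · obtain rfl : α = α' := e.injective (Subtype.ext (Prod.ext ((e α).2.1.trans (e α').2.1.symm)
      (((hq α).mono k).uniq ((hq α').mono k') l)))
    exact Feq.refl _ _
  · obtain ⟨α, n1, rfl, r, n2, n3⟩ := mkH_elim g a3 hy
    have n4 := (hq α).mono n3
    have n5 := n4.2.2.1
    rw [(e α).2.1] at n5
    exact (hL _).2 ⟨val_mem g n1 (l2 1) n2 n4.2.1, n5 g n2 (mem3 (l2 2) n1 a1)⟩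

lemma dd_cmp {z z' w : K × T.1.ι} {q : P} (h : Dd T R p z w q) (h' : Dd T R p z' w q)
    (g : GN P) (k1 : q ∈ g.Γ) (k2 : {oS P (univ : Set K), T, R, T.sub z.2,
      T.sub z'.2, T.sub w.2, oo P z.1, oo P z'.1, oo P w.1} ⊆ g.S) :
    Rel g.E (g.val R) (g.val (T.sub z.2)) (g.val (T.sub z'.2)) ↔ z.1 < z'.1 := by
  have a1 : R ∈ g.S := k2 (by simp)
  have a2 : T.sub z.2 ∈ g.S := k2 (by simp)
  have a3 : T.sub z'.2 ∈ g.S := k2 (by simp)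
  have a4 : T.sub w.2 ∈ g.S := k2 (by simp)
  have a5 : oo P z.1 ∈ g.S := k2 (by simp)
  have a6 : oo P z'.1 ∈ g.S := k2 (by simp)
  exact (Ht.cmp g.wf g.ext (hp.mono h.1.1 g k1 (mem3 (k2 (by simp)) (k2 (by simp)) a1)).1
    (h.2.1.2.2.1 g k1 (mem3 a1 a4 (k2 (by simp)))) (h.2.2 g k1 (mem3 a1 a2 a4))
    (h'.2.2 g k1 (mem3 a1 a3 a4)) (h.1.2.2.1 g k1 (mem3 a1 a2 a5))
    (h'.1.2.2.1 g k1 (mem3 a1 a3 a6))).trans (ord_lt_iff g a5 a6)

include H in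
lemma ts_model : TS Prod.fst (Nd T R p) (Dd T R p) where
  Nm _ _ _ := Nd.mono
  Dm _ _ _ _ h e := ⟨h.1.mono e, h.2.1.mono e, h.2.2.mono e⟩
  small := nd_small H hp
  pred w q δ h l := by
    obtain ⟨g, k1, k2, k3⟩ := exists_gm' q (w3 (oS P (univ : Set K)) T R)
      {T.sub w.2, oo P δ, oo P w.1} (to_countable _)
    have a1 : T.sub w.2 ∈ g.S := k3 (by simp)
    have a2 : oo P δ ∈ g.S := k3 (by simp)
    have a3 : oo P w.1 ∈ g.S := k3 (by simp)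
    have k4 := (hp.mono h.1 g k1 k2).1
    obtain ⟨y, k5, k6⟩ := Ht.pred g.wf k4 (h.2.2.1 g k1 (mem3 (k2 2) a1 a3)) (ord_lt g a2 a3 l)
    obtain ⟨y, hy, rfl⟩ := g.surj y
    obtain ⟨q1, n1, n2, n3⟩ := g.truthDef_le (Def.rel 0 1 2) (mem3 (k2 2) hy a1) k5 k1
    obtain ⟨q2, n4, n5, n6⟩ := g.truthDef_le (def_ht 0 1 2) (mem3 (k2 2) hy a2) k6 n1
    obtain ⟨q3, -, n7, n8⟩ := g.truthDef_le (Def.mem 0 1) (mem2 hy (k2 1)) (k4.1 _ _ k5).1 n4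
    have n9 := (n7.trans n5).trans n2
    obtain ⟨r, j1, i, j2, j3⟩ := exists_nd (n9.trans h.1) ((fc_mem 0 1 _ _).1 n8) (n6.mono n7)
    exact ⟨r, j1.trans n9, (δ, i), rfl, j2, h.mono (j1.trans n9),
      FR_congr_left (n3.mono (j1.trans (n7.trans n5))) j3⟩
  uniq z z' w q h h' e := by
    refine Prod.ext e (h.1.uniq h'.1 (feq_of_gm _ (to_countable
      {oS P (univ : Set K), T, R, T.sub z.2, T.sub z'.2, T.sub w.2, oo P z.1, oo P z'.1, oo P w.1})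
      fun g k1 k2 k3 k4 => ?_))
    have a1 : R ∈ g.S := k4 (by simp)
    have a4 : T.sub w.2 ∈ g.S := k4 (by simp)
    rcases (hp.mono h.1.1 g k1 (mem3 (k4 (by simp)) (k4 (by simp)) a1)).1.2.2.2.1 _ _ _
      (h.2.2 g k1 (mem3 a1 k2 a4)) (h'.2.2 g k1 (mem3 a1 k3 a4)) with l | l | l
    · exact absurd ((dd_cmp hp h h' g k1 k4).1 l) e.not_lt
    · exact l
    · refine absurd ((dd_cmp hp h' h g k1 (Subset.trans ?_ k4)).1 l) e.not_gt
      simp only [insert_subset_iff, singleton_subset_iff, mem_insert_iff, true_or, or_true, and_self,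
        mem_singleton_iff]
  lin z z' w q h h' l := ⟨h.1, h'.1, Fc.of_extra (Def.rel 0 1 2) _ (to_countable _)
    fun g k1 _ k4 => (dd_cmp hp h h' g k1 k4).2 l⟩
  tr z z' w q h h' := ⟨h.1, h'.2.1, Fc.of_extra (Def.rel 0 1 2)
    {oS P (univ : Set K), T, T.sub z'.2} (to_countable _) fun g k1 k2 k3 => by
      have a : T.sub z'.2 ∈ g.S := k3 (by simp)
      exact (hp.mono h.1.1 g k1 (mem3 (k3 (by simp)) (k3 (by simp)) (k2 0))).1.2.2.1 _ _ _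
        (h.2.2 g k1 (mem3 (k2 0) (k2 1) a)) (h'.2.2 g k1 (mem3 (k2 0) a (k2 2)))⟩
  DN _ _ _ h := ⟨h.1, h.2.1⟩

lemma nd_ex {q : P} (hq : q ≤ p) (δ : K) : ∃ r ≤ q, ∃ z, z.1 = δ ∧ Nd T R p z r := by
  obtain ⟨g, k1, k2, k3⟩ := exists_gm' q (w3 (oS P (univ : Set K)) T R) {oo P δ}
    (to_countable _)
  obtain ⟨y, k5, k6⟩ := (hp.mono hq g k1 k2).2.2.1 _ (oS_intro g (k2 0) (k3 rfl) trivial)
  obtain ⟨y, hy, rfl⟩ := g.surj y
  obtain ⟨q2, n4, n5, n6⟩ := g.truthDef_le (def_ht 0 1 2) (mem3 (k2 2) hy (k3 rfl)) k6 k1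
  obtain ⟨q3, -, n7, n8⟩ := g.truthDef_le (Def.mem 0 1) (mem2 hy (k2 1)) k5 n4
  obtain ⟨r, j1, i, j2, -⟩ := exists_nd ((n7.trans n5).trans hq) ((fc_mem 0 1 _ _).1 n8) (n6.mono n7)
  exact ⟨r, j1.trans (n7.trans n5), (δ, i), rfl, j2⟩

end

theorem treeProp (H : Iface P) (gm : GN P) (h : oS P (univ : Set K) ∈ gm.S) :
    TP gm.E (gm.val (oS P (univ : Set K))) := by
  intro T R hT
  obtain ⟨T, h1, rfl⟩ := gm.surj T
  obtain ⟨R, h2, rfl⟩ := gm.surj R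
  obtain ⟨p, h3, hp⟩ := gm.truthDef (def_ltree 0 1 2) (mem3 h h1 h2) hT
  have hd0 : Def (fun _ E v => Rel E (v 0) (v 1) (v 2) ∨ v 1 = v 2 ∨ Rel E (v 0) (v 2) (v 1)) :=
    (Def.rel _ _ _).or ((Def.eq _ _).or (Def.rel _ _ _))
  have hd1 : Def (fun _ E v => ∃ t, E t (v 1) ∧ Ht E (v 0) t (v 2)) :=
    Def.ex ((Def.mem _ _).and (def_ht 1 0 3))
  have hd : Def (fun _ E v => ∃ b, Sub E b (v 1) ∧
      (∀ x y, E x b → E y b → Rel E (v 2) x y ∨ x = y ∨ Rel E (v 2) y x) ∧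
      ∀ a, E a (v 0) → ∃ t, E t b ∧ Ht E (v 2) t a) :=
    Def.ex ((Def.sub _ _).and ((Def.all (Def.all ((Def.mem _ _).imp ((Def.mem _ _).imp
      ((Def.rel _ _ _).or ((Def.eq _ _).or (Def.rel _ _ _))))))).and
      (Def.all ((Def.mem _ _).imp (Def.ex ((Def.mem _ _).and (def_ht 5 0 1)))))))
  refine Fc.reg hd (w := w3 (oS P (univ : Set K)) T R) (fun q hq => ?_) gm h3 (mem3 h h1 h2)
  obtain ⟨r, k1, B, k2, k3, k4, k5⟩ := H.branch _ _ _ _ (ts_model H hp) q (nd_ex hp hq)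
  let b : HN P := mkH (fun z : K × T.1.ι => T.sub z.2)
    fun z => ⟨{e | B z e}, fun _ _ l k => k2 _ _ _ k l⟩
  refine ⟨r, k1, Fc.of_extra hd {b} (to_countable _) fun g l1 l2 l3 =>
    ⟨g.val b, fun x hx => ?_, fun x y hx hy => ?_, fun a ha => ?_⟩⟩
  · obtain ⟨z, n1, rfl, e, n2, n3⟩ := mkH_elim g (l3 rfl) hx
    exact val_mem g n1 (l2 1) n2 (k3 z e n3).2.1
  · obtain ⟨z, n1, rfl, e, n2, n3⟩ := mkH_elim g (l3 rfl) hx
    obtain ⟨z', n4, rfl, e', n5, n6⟩ := mkH_elim g (l3 rfl) hy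
    obtain ⟨s, n7, n8, n9⟩ := g.dir _ _ n2 n5
    refine Fc.reg hd0 (w := w3 R (T.sub z.2) (T.sub z'.2)) (fun t ht => ?_) g n7 (mem3 (l2 2) n1 n4)
    have j1 := k2 _ _ _ n3 (ht.trans n8)
    have j2 := k2 _ _ _ n6 (ht.trans n9)
    rcases le_total z.1 z'.1 with l | l
    · rcases k5 z z' t j1 j2 l with rfl | ⟨u, j3, j4⟩
      · exact ⟨t, le_rfl, fun _ _ _ => Or.inr (Or.inl rfl)⟩
      · exact ⟨u, j3, fun g a b => Or.inl (j4.2.2 g a b)⟩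
    · rcases k5 z' z t j2 j1 l with rfl | ⟨u, j3, j4⟩
      · exact ⟨t, le_rfl, fun _ _ _ => Or.inr (Or.inl rfl)⟩
      · exact ⟨u, j3, fun g a b => Or.inr (Or.inr (j4.2.2 g a (mem3 (b 0) (b 2) (b 1))))⟩
  · obtain ⟨δ, -, n1, rfl⟩ := oS_elim g (l2 0) ha
    refine Fc.reg hd1 (w := w3 R b (oo P δ)) (fun e he => ?_) g l1 (mem3 (l2 2) (l3 rfl) n1)
    obtain ⟨e', j1, z, rfl, j2⟩ := k4 δ e he
    exact ⟨e', j1, Fc.of_extra hd1 {T.sub z.2} (to_countable _) fun g a c d =>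
      ⟨_, val_mem g (d rfl) (c 1) a (fmem_mkH (A := fun z : K × T.1.ι => T.sub z.2) j2),
        (k3 z e' j2).2.2.1 g a (mem3 (c 0) (d rfl) (c 2))⟩⟩

end Pool.Agent.Lib.MP_d4b40b_lc.W
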