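import Pool.Agent.Lib.MP_d4b40b_lc.W.ModU
import Pool.Agent.Lib.MP_d4b40b_lc.W.ModT

set_option autoImplicit false

namespace Pool.Agent.Lib.MP_d4b40b_lc.W

open Pool.Agent.Lib.helper81 Pool.Agent.Lib.MP_fcebdf_lc Set Cardinal

/-- the generic extension by a forcing with the combinatorial properties of the interface -/
theorem model [S : Sys] {P : Type} [Preorder P] (p0 : P) (H : Iface P) :
    ∃ (M : Type) (E : M → M → Prop), IsZF E ∧ Choice E ∧ WellFounded E ∧
      ∃ k k1 k2 : M, AlephW1 E k ∧ Next E k k1 ∧ Next E k1 k2 ∧ StrongLimit E k ∧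
        (∀ y, Pow E y k → ¬ Le E y k1) ∧ UNum E k k1 ∧ TP E k2 := by
  obtain ⟨gm, -, hS⟩ := exists_gm (G := Triv P) p0
    {oc P ks, oc P (Order.succ ks), oS P (univ : Set K), BB H} (to_countable _)
  have a2 : oc P ks ∈ gm.S := hS (by simp)
  have a3 : oc P (Order.succ ks) ∈ gm.S := hS (by simp)
  have a4 : oS P (univ : Set K) ∈ gm.S := hS (by simp)
  exact ⟨gm.M, gm.E, gm.isZF, choice gm, gm.wf, _, _, _, alephW1 H gm a2, next_ks H gm a2 a3,
    next_succ H gm a3 a4, strongLimit H gm a2, fun _ => pow_big H gm a2 a3,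
    uNum H gm a2 a3 (hS (by simp)), treeProp H gm a4⟩

end Pool.Agent.Lib.MP_d4b40b_lc.W
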