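import Pool.Agent.Lib.MP_d4b40b_lc.W.Base
import Pool.Agent.Lib.MP_d4b40b_lc.W.Copy
import Pool.Agent.Lib.MP_d4b40b_lc.W.Mod
import Pool.Agent.Lib.MP_d4b40b_lc.W.ExtC

set_option autoImplicit false
set_option linter.unusedSectionVars false

namespace Pool.Agent.Lib.MP_d4b40b_lc.W

open Filter Set Cardinal

section

variable [S : Sys] [X : Ext S]

lemma exists_cond : Nonempty Cond := by
  have h : ∀ m : I, ∃ c : D m, ∀ e : m = ⊤, e ▸ c = S.root := fun m => by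
    by_cases k : m = ⊤
    · subst k; exact ⟨S.root, fun _ => rfl⟩
    · obtain ⟨μ, -⟩ := Ultrafilter.nonempty_of_mem (f := X.E S.root m) univ_mem
      exact ⟨μ.c, fun e => absurd e k⟩
  choose c hc using h
  exact ⟨OK.cond (p := ⟨fun _ => ⟨∅, ∅, fun _ _ => none⟩, fun _ => ⟨∅, fun _ _ _ => none,
    fun _ _ => none⟩, fun m => ⟨m = ⊤, c m, univ, default, ∅⟩⟩)
    ⟨⟨finite_singleton ⊤, fun _ _ => ⟨by simp, by simp, fun _ k => k.elim, fun _ k => k.elim,
      fun _ k => k.elim⟩, fun _ _ => ⟨by simp, fun _ k => k.elim, fun _ k => k.elim,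
      fun _ k => k.elim, fun _ k => k.elim, fun _ k => k.elim, fun _ k => k.elim⟩,
      fun _ _ => ⟨fun _ => Invt.univ _, fun _ => Subset.rfl, fun _ => empty_subset _,
        fun _ => Val.empty⟩, fun _ _ _ _ _ => Subset.rfl⟩, rfl, hc ⊤ rfl,
      fun _ _ _ _ => univ_mem⟩⟩

/-- the forcing has the properties of the interface -/
noncomputable def iface (hM : ∀ᶠ α in (UU : Filter K), kit.Many α) : Iface Cond where
  on n p := n ∈ p.u
  cr := Cond.cr
  on_mono _ _ _ h e := ⟨u_mono e h, cr_le e h⟩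
  on_dense n p := exists_on p n
  on_top p := ⟨p.top, (congrArg dm p.ok.root).trans S.dm_root⟩
  C := Cc
  C_mono _ _ _ _ _ _ := Cc.mono
  C_fn _ _ _ _ _ _ := Cc.fn
  C_dense _ _ h _ h1 _ := Cc.dense h h1
  F := Fc
  F_mono _ _ _ _ _ _ := Fc.mono
  F_fn _ _ _ _ _ _ := Fc.fn
  F_dense _ l _ h _ h1 _ := Fc.dense l h h1
  dec := pkit.dec
  cover := pkit.cover
  bound_succ := pkit.bound_succ
  compat := compat
  big := big
  Dat := Dat
  mk_Dat := mk_Dat
  Mem := up2.Mem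
  InD := up2.InD
  Mem_mono := up2.Mem_mono
  Mem_lt := up2.Mem_lt
  InD_mono := up2.InD_mono
  u_dec := u_dec
  u_dir := up2.u_dir
  u_big := up2.u_big
  branch := kit.branch hM

end

open Pool.Agent.Lib.helper81 Pool.Agent.Lib.MP_fcebdf_lc in
theorem main_of (hM : ∀ (S : Sys) (_ : Ext S), ∀ᶠ α in (UU : Filter K), kit.Many α)
    (K : Type) (U : Ultrafilter K) (hU : ∀ x, {x} ∉ U)
    (hc : CardinalInterFilter (U : Filter K) #K) (T : Set Cardinal.{0}) (hT : ¬ T.Countable)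
    (h : ∀ c ∈ T, ℵ₀ < c ∧ c < #K ∧ ∃ W : Ultrafilter (Set K), SC c W) :
    ∃ (M : Type) (E : M → M → Prop), IsZF E ∧ Choice E ∧ WellFounded E ∧
      ∃ k k1 k2 : M, AlephW1 E k ∧ Next E k k1 ∧ Next E k1 k2 ∧ StrongLimit E k ∧
        (∀ y, Pow E y k → ¬ Le E y k1) ∧ UNum E k k1 ∧ TP E k2 := by
  obtain ⟨S, ⟨X⟩⟩ := exists_sys K U hU hc T hT h
  obtain ⟨p0⟩ := exists_cond
  exact model p0 (iface (hM S X))

end Pool.Agent.Lib.MP_d4b40b_lc.W
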