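import Pool.Agent.Lib.MP_d4b40b_lc.W.Appl

set_option autoImplicit false
set_option linter.unusedSectionVars false

namespace Pool.Agent.Lib.MP_d4b40b_lc.W

open Filter Set Cardinal

variable [S : Sys] [X : Ext S]

/-- the upper collapses and guides of the conditions -/
def up2 : Up2 Cond where
  on n p := n ∈ p.u
  cr := Cond.cr
  ee := fun p n => {x | n < ⊤ ∧ x ∈ p.e n}
  hh := Cond.H
  mono _ _ _ h e := ⟨u_mono e h, cr_le e h, fun _ k => ⟨k.1, e_le e k.1 h k.2⟩⟩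
  hmono _ _ _ _ := H_le
  ctb p := p.lo.fin.countable
  val n l p h := by simpa only [l, true_and, ofPred_mem_eq] using p.he l h
  act n l p h := by
    obtain ⟨μ, k⟩ := exists_adm h
    exact ⟨_, act_le k, act_on k, fun x i => ⟨l, root_le (act_le k) h (act_on k) i⟩⟩
  grow n l p e h h1 h2 := by
    obtain ⟨q, -, -, q1, -, -, q2⟩ := exists_setE l h h1
    exact ⟨q, (q2 fun x k => h2 ⟨l, k⟩).le, fun x k => ⟨l, q1 ▸ k⟩⟩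

lemma up2_F (n : I) (β i v : K) (r : Cond) : up2.F n β i v r ↔ Fc n β i v r :=
  ⟨fun k => ⟨k.1, k.2.1, k.2.2.2⟩, fun k => ⟨k.1, k.2.1, k.1, k.2.2⟩⟩

lemma hold_congr {D : Cond → Prop} (hD : ∀ a b, D a → DLe b a → D b) {p d d' : Cond} {β : I}
    {μ ν : Obj β} {e : Set (Tr K)} (H : Hold D p β μ d e) (a : Adm p β μ) (h1 : Agr (p.b β) μ ν)
    (h2 : Lb β d' d) : Hold D p β ν d' e := fun z k1 k2 k3 k4 =>
  hD _ _ (H z k1 (k2.trans h1.1.symm) (k3.trans h2) k4) (mix_act_agr k1 a h1)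

theorem homog : up2.Homog DLe := by
  intro n hn A hA p hp
  obtain ⟨p1, f1, d1⟩ := diag hp (J := Xi n) (mk_Lt_le _) (fun ξ q => A ξ q ∨ Out (A ξ) q)
    fun ξ _ _ => pkit.dec_open (hA ξ)
  have h0 : n ∉ p1.u := f1.1.u ▸ hp
  obtain ⟨c, hc⟩ := p1.exists_host hn
  obtain ⟨Y, y1, y2⟩ := ae_dom (p1.cr c) hc.lt (p1.b_dm hc) (p1.cb hn)
  have hD : ∀ ξ a b, A ξ a → DLe b a → A ξ b := fun ξ a b k e => (hA ξ).1 a b k e.le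
  choose e e1 e2 e3 using fun l ξ => ediag (hD ξ) p1 hn l (y1 l).1 ((p1.H n).2 l ξ)
  have hZ : ∀ l : D n, ∃ Z ∈ VV n, ∀ ξ ∈ Z, ∀ ξ' ∈ Z, ∀ (μ : Obj n) (d : Cond), Adm p1 n μ →
      μ.c = l → μ.g.dom ∩ p1.b n ⊆ Y l → n ∈ d.u → d.cr n = l →
        Hold (A ξ) p1 n μ d (e l ξ) → Hold (A ξ') p1 n μ d (e l ξ') := by
    intro l
    obtain ⟨L, l1, l2⟩ := core_reps hn l
    obtain ⟨Z, z1, z2⟩ := ae_pw (VV n) _ ((mk_sprod_le' (dm_inf l hn)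
      (mk_obj_core hn l (y1 l).1) l1).trans_lt (dm_lt hn l))
      fun ξ x => Hold (A ξ) p1 n x.1 x.2 (e l ξ)
    refine ⟨Z, z1, fun ξ k1 ξ' k2 μ d a k3 k4 k5 k6 k7 => ?_⟩
    obtain ⟨d0, x1, -, -, x2, x3⟩ := l2 d k5 k6
    have g := μ.agr_res (p1.b n)
    exact hold_congr (hD ξ') (z2 ξ k1 ξ' k2 (μ.res (p1.b n), d0)
      ⟨⟨k3, (μ.dom_res _).le.trans k4⟩, x1⟩ (hold_congr (hD ξ) k7 a g x3)) (a.agr g) g.symm x2
  choose Z z1 z2 using hZ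
  obtain ⟨p2, s0, s1, -, -, s2, -⟩ := exists_setH' h0 (h := ⟨e, e1⟩)
    fun l => Eventually.of_forall (e2 l)
  have s3 : p2.b n = p1.b n := congrArg S1.b (congrFun s2 n)
  obtain ⟨q, s4, -, s5, -, -, s6⟩ := exists_shrink1 (p := p2) (s0.u ▸ h0)
    (B := {μ | μ.g.dom ∩ p1.b n ⊆ Y μ.c})
    (fun μ ν a k ξ i => a.1 ▸ k ⟨show ∃ η, η ∈ μ.g.f ξ from (a.2 ξ (s3 ▸ i.2)).symm ▸ i.1, i.2⟩)
    (fun c' k => by
      obtain rfl : c' = c := host_uniq (s0.u ▸ k.blk) hc.blk (s0.u ▸ k.mem) hc.mem k.lt hc.lt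
      rw [s0.cr hc.mem]
      exact y2)
  have s7 := s4.trans s0
  refine ⟨q, s7.trans f1.1, Z, z1, fun r hr ξ ξ' b1 b2 i => ?_⟩
  obtain ⟨μ, a, k1⟩ := le_split hr b1.1 (s7.u ▸ h0)
  have a1 := a.dle s7
  have k2 := k1.trans (act_mono s7 a).le
  have k3 := LL.of_le k2 (act_on a1)
  have k4 : r.cr n = μ.c := (cr_le k2 (act_on a1)).trans (act_cr a1)
  obtain ⟨z, k5, k6⟩ := pkit.decide (hA ξ) (mix n r (act p1 n μ))
  have k7 := LL.of_le_mix k5.le k3.1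
  have k8 := k7.mix_le k2 (act_on a1)
  have k9 := (d1 ξ μ z a1 (k5.trans_upLe k3.upLe) k6).resolve_right
    fun o => o _ k8 ((hA ξ).1 _ _ i k7.2.2)
  have n1 := (k5.lw hn).trans (lw_mix k3.1 _).1
  have n2 : z.cr n = μ.c := (n1.2.cr k3.1).trans k4
  have n3 : ∀ ζ, up2.InB n Z (up2.hh q n) ζ r → ζ ∈ Z μ.c ∧ e μ.c ζ ⊆ z.e n := fun ζ b => by
    obtain ⟨-, b1, b2⟩ := b
    have b3 : up2.hh q n = ⟨e, e1⟩ := (s6 n).trans s1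
    rw [show up2.cr r n = μ.c from k4] at b1 b2
    rw [b3] at b2
    exact ⟨b1, fun x j => n1.2.e k3.1 (b2 j).2⟩
  exact ⟨_, k7.2.2, (hA ξ').1 _ _ (z2 μ.c ξ (n3 ξ b1).1 ξ' (n3 ξ' b2).1 μ z a1 rfl (s5 a.2) k7.1 n2
    (e3 μ.c ξ μ z a1 rfl (s5 a.2) k7.1 n2 (n3 ξ b1).2 k9) z k7.1 n2 (Lb.refl _ _) (n3 ξ' b2).2) k8⟩

theorem u_dec (A : K → Cond → Prop) (hA : ∀ ξ, RO (A ξ)) (p : Cond) :
    ∃ r ≤ p, ∃ d, up2.InD d r ∧ ((∀ ξ, ∀ r' ≤ r, up2.Mem d ξ r' → A ξ r') ∨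
      ∀ ξ, ∀ r' ≤ r, up2.Mem d ξ r' → Out (A ξ) r') :=
  up2.u_dec pkit DLe.refl homog A hA p

end Pool.Agent.Lib.MP_d4b40b_lc.W
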