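import Pool.Agent.Lib.MP_d4b40b_lc.Defs

set_option autoImplicit false

namespace Pool.Agent.Lib.MP_d4b40b_lc.W

open Pool.Agent.Lib.helper81 Pool.Agent.Lib.MP_fcebdf_lc

variable {M : Type} (E : M → M → Prop)

/-- `x` is a cardinal: an ordinal which does not inject into a smaller ordinal. -/
def IsCard (x : M) : Prop := IsOrd E x ∧ ∀ y, E y x → ¬ Le E x y

/-- There are only countably many cardinals below `k`. -/
def FewCards (k : M) : Prop := ∀ C, (∀ x, E x C ↔ E x k ∧ IsCard E x) → Ctbl E C

/-- `k` is aleph omega one: the least ordinal with uncountably many cardinals below it. -/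
def AlephW1 (k : M) : Prop := IsOrd E k ∧ ¬ FewCards E k ∧ ∀ y, E y k → FewCards E y

end Pool.Agent.Lib.MP_d4b40b_lc.W
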