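import Pool.Agent.Lib.MP_d4b40b_lc.W.Pull
import Pool.Agent.Lib.MP_d4b40b_lc.W.Cnt
import Pool.Agent.Lib.MP_d4b40b_lc.W.PullA

set_option autoImplicit false
set_option linter.unusedSectionVars false

namespace Pool.Agent.Lib.MP_d4b40b_lc.W

open Filter Set Cardinal

variable [S : Sys] [X : Ext S]

variable {p : Cond} {β : I}

lemma core_pow (hβ : β < ⊤) (c : D β) : #(dm c) ^ (2 ^ pre β : Cardinal.{0}) ≤ #(dm c) :=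
  (power_le_power_left (aleph0_pos.trans_le (dm_inf c hβ)).ne' (S.kap_le β c hβ)).trans
    (S.dm_pow β c hβ).2

lemma core_reps' (hβ : β < ⊤) (c : D β) (W : Set Cond) (hW : ∀ d ∈ W, β ∈ d.u ∧ d.cr β = c) :
    ∃ L ⊆ W, #L ≤ #(dm c) ∧ ∀ d ∈ W, ∃ d0 ∈ L, Lb β d0 d ∧ Lb β d d0 :=
  cnt_cond (dm_inf c hβ) (core_pow hβ c) le_rfl le_rfl W
    fun d k => (hW d k).2 ▸ d.a_dm (hW d k).1

theorem core_reps (hβ : β < ⊤) (c : D β) : ∃ L : Set Cond, #L ≤ #(dm c) ∧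
    ∀ d : Cond, β ∈ d.u → d.cr β = c →
      ∃ d0 ∈ L, β ∈ d0.u ∧ d0.cr β = c ∧ Lb β d d0 ∧ Lb β d0 d := by
  obtain ⟨L, h1, h2, h3⟩ := core_reps' hβ c {d | β ∈ d.u ∧ d.cr β = c} fun _ k => k
  refine ⟨L, h2, fun d k l => ?_⟩
  obtain ⟨d0, k1, k2, k3⟩ := h3 d ⟨k, l⟩
  exact ⟨d0, k1, (h1 k1).1, (h1 k1).2, k3, k2⟩

theorem low_reps (hβ : β < ⊤) : ∃ L : Set Cond, #L ≤ kp β ∧
    ∀ d : Cond, β ∈ d.u → ∃ d0 ∈ L, Lw β d d0 ∧ Lw β d0 d := by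
  choose L h1 h2 h3 using fun (c : D β) (e : {e : Set (Tr K) // Val #(dm c) (Lt K (kp β)) e}) =>
    core_reps' hβ c {d | (β ∈ d.u ∧ d.cr β = c) ∧ d.e β = e.1} fun _ k => k.1
  refine ⟨⋃ c, ⋃ e, L c e, mk_iUnion_le' (kp_inf β) (S.mk_D β) fun c => mk_iUnion_le' (kp_inf β)
    (mk_ec hβ c) fun e => (h2 c e).trans (dm_lt hβ c).le, fun d k => ?_⟩
  obtain ⟨d0, k1, k2, k3⟩ := h3 _ ⟨d.e β, d.he hβ k⟩ d ⟨⟨k, rfl⟩, rfl⟩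
  obtain ⟨⟨k4, k5⟩, k6⟩ := h1 _ _ k1
  exact ⟨d0, mem_iUnion₂.2 ⟨_, _, k1⟩, Lw.of_lb k3 k k4 k5.symm k6.le,
    Lw.of_lb k2 k4 k k5 k6.ge⟩

lemma range_agr (hβ : β < ⊤) {b : Set K} (hb : #b ≤ kp β) {T : Type} (g : Obj β → T)
    (hg : ∀ μ ν, Agr b μ ν → g μ = g ν) : #(range g) ≤ kp β := by
  refine le_trans (mk_le_mk_of_subset (t := g '' {μ | μ.g.dom ⊆ b}) ?_)
    (mk_image_le.trans (mk_obj hβ hb))
  rintro _ ⟨μ, rfl⟩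
  exact ⟨μ.res b, μ.dom_res_sub b, (hg _ _ (μ.agr_res b)).symm⟩

lemma UpLe.on {y : Cond} {μ : Obj β} (h : UpLe β y (act p β μ)) (a : Adm p β μ) : β ∈ y.u :=
  u_mono h.1 (act_on a)

theorem diag (l : β ∉ p.u) {J : Type} (hJ : #J ≤ kp β) (D : J → Cond → Prop)
    (hD : ∀ i a b, D i a → DLe b a → D i b) :
    ∃ q, Fix β q p ∧ ∀ i μ y, Adm q β μ → UpLe β y (act q β μ) → D i y →
      D i (mix β y (act q β μ)) := by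
  have hβ := Cond.lt_top l
  obtain ⟨L, l1, l2⟩ := low_reps hβ
  obtain ⟨q, h1, h2⟩ := fix_clo hβ (T := J × L × Obj β) (fun τ => τ.2.2.g.dom)
    (fun τ => mk_dom_lt hβ _) (fun B hB => le_trans (mk_le_mk_of_subset
      (t := Set.univ ×ˢ Set.univ ×ˢ {μ : Obj β | μ.g.dom ⊆ B}) fun τ k => ⟨trivial, trivial, k⟩)
      (mk_sprod_le' (kp_inf β) (mk_univ.trans_le hJ)
        (mk_sprod_le' (kp_inf β) (mk_univ.trans_le l1) (mk_obj hβ hB))))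
    (fun τ q => ∀ y, Adm q β τ.2.2 → UpLe β y (act q β τ.2.2) → Lw β τ.2.1.1 y → D τ.1 y →
      D τ.1 (mix β τ.2.1.1 (act q β τ.2.2))) p
    (fun τ a b g e y k1 k2 k3 k4 =>
      have e' := act_mono e.1 k1
      hD _ _ _ (g y (k1.dle e.1) (k2.trans_dle e') k3 k4)
        (((LL.of_le k2.1 (act_on k1)).lw_left k3).dle_right e'))
    (fun τ q _ hd => by
      by_cases hx : ∃ y, Adm q β τ.2.2 ∧ UpLe β y (act q β τ.2.2) ∧ Lw β τ.2.1.1 y ∧ D τ.1 y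
      · obtain ⟨y, k1, k2, k3, k4⟩ := hx
        obtain ⟨q', k5, k6⟩ := pull_act k1 hd k2
        exact ⟨q', k5, fun _ _ _ _ _ => hD _ _ _ k4 ((mix_l (k2.on k1) k3 _).trans k6)⟩
      · exact ⟨q, Fix.refl _ _, fun y k1 k2 k3 k4 => absurd ⟨y, k1, k2, k3, k4⟩ hx⟩)
  refine ⟨q, h1, fun i μ y a e d => ?_⟩
  obtain ⟨d0, k1, k2, k3⟩ := l2 y (e.on a)
  have r := μ.agr_res (q.b β)
  exact hD _ _ _ (h2 (i, ⟨d0, k1⟩, μ.res (q.b β)) (μ.dom_res_sub _) y (a.agr r)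
    (e.trans_dle (act_agr (a.agr r) r.symm)) k3 d)
    ((mix_act_agr (e.on a) (a.agr r) r.symm).trans (mix_l (k2.on.1 (e.on a)) k2 _))

/-- the property holds once the upper collapse at `β` extends `e` -/
def Hold (D : Cond → Prop) (p : Cond) (β : I) (μ : Obj β) (d : Cond) (e : Set (Tr K)) : Prop :=
  ∀ d' : Cond, β ∈ d'.u → d'.cr β = μ.c → Lb β d' d → e ⊆ d'.e β → D (mix β d' (act p β μ))

section Hold

variable {D : Cond → Prop} {μ ν : Obj β} {d d' : Cond} {e e' : Set (Tr K)}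

lemma Hold.mono (H : Hold D p β μ d e) (he : e ⊆ e') : Hold D p β μ d e' :=
  fun d' k1 k2 k3 k4 => H d' k1 k2 k3 (he.trans k4)

lemma Hold.lb (H : Hold D p β μ d e) (h : Lb β d' d) : Hold D p β μ d' e :=
  fun d' k1 k2 k3 => H d' k1 k2 (k3.trans h)

lemma Hold.agr (hD : ∀ a b, D a → DLe b a → D b) (H : Hold D p β μ d e) (a : Adm p β μ)
    (h : Agr (p.b β) μ ν) : Hold D p β ν d e :=
  fun d' k1 k2 k3 k4 => hD _ _ (H d' k1 (k2.trans h.1.symm) k3 k4) (mix_act_agr k1 a h)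

lemma Hold.intro (hD : ∀ a b, D a → DLe b a → D b) (h1 : β ∈ d.u) (h2 : d.cr β = μ.c)
    (H : D (mix β d (act p β μ))) : Hold D p β μ d (d.e β) :=
  fun _ k1 k2 k3 k4 => hD _ _ H (mix_l h1 (Lw.of_lb k3 k1 h1 (k2.trans h2.symm) k4) _)

end Hold

/-- representatives of the tasks with a given core -/
lemma task_reps (p : Cond) (hβ : β < ⊤) (c : D β) {Y : Set K} (hY : #Y ≤ kap c) :
    ∃ R : Set (Obj β × Cond), #R ≤ #(dm c) ∧ ∀ (μ : Obj β) (d : Cond), μ.c = c →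
      μ.g.dom ∩ p.b β ⊆ Y → β ∈ d.u → d.cr β = c →
        ∃ x ∈ R, Agr (p.b β) μ x.1 ∧ Lb β d x.2 ∧ Lb β x.2 d := by
  obtain ⟨L, l1, l2⟩ := core_reps hβ c
  refine ⟨{μ | μ.c = c ∧ μ.g.dom ⊆ Y} ×ˢ L, mk_sprod_le' (dm_inf c hβ) (mk_obj_core hβ c hY) l1,
    fun μ d k1 k2 k3 k4 => ?_⟩
  obtain ⟨d0, n1, -, -, n2⟩ := l2 d k3 k4
  exact ⟨(μ.res (p.b β), d0), ⟨⟨k1, (μ.dom_res _).le.trans k2⟩, n1⟩, μ.agr_res _, n2⟩

theorem ediag {D : Cond → Prop} (hD : ∀ a b, D a → DLe b a → D b) (p : Cond) (hβ : β < ⊤)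
    (c : W.D β) {Y : Set K} (hY : #Y ≤ kap c) {e0 : Set (Tr K)}
    (he : Val #(dm c) (Lt K (kp β)) e0) :
    ∃ e, Val #(dm c) (Lt K (kp β)) e ∧ e0 ⊆ e ∧ ∀ (μ : Obj β) (d : Cond), Adm p β μ → μ.c = c →
      μ.g.dom ∩ p.b β ⊆ Y → β ∈ d.u → d.cr β = c → e ⊆ d.e β → D (mix β d (act p β μ)) →
        Hold D p β μ d e := by
  obtain ⟨R, r1, r2⟩ := task_reps p hβ c hY
  obtain ⟨e, e1, e2⟩ := seq_meet (S := {e : Set (Tr K) // Val #(dm c) (Lt K (kp β)) e})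
    (fun a b => b.1 ⊆ a.1) (fun _ => Subset.rfl) (fun _ _ _ k k' => k'.trans k) (ρ := #(dm c))
    (fun I f _ hI ht => ⟨⟨⋃ i, (f i).1, Val.iUnion (dm_inf c hβ) hI (fun i => (f i).2)
      fun i j => (ht i j).symm⟩, subset_iUnion (fun i => (f i).1)⟩) (T := R) r1
    (fun τ a => ∀ e', Val #(dm c) (Lt K (kp β)) e' → a.1 ⊆ e' → Hold D p β τ.1.1 τ.1.2 e' →
      Hold D p β τ.1.1 τ.1.2 a.1)
    (fun τ a b g k e' k1 k2 k3 => (g e' k1 (k.trans k2) k3).mono k) ⟨e0, he⟩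
    (fun τ a _ => by
      by_cases hx : ∃ e', Val #(dm c) (Lt K (kp β)) e' ∧ a.1 ⊆ e' ∧ Hold D p β τ.1.1 τ.1.2 e'
      · obtain ⟨e', k1, k2, k3⟩ := hx
        exact ⟨⟨e', k1⟩, k2, fun _ _ _ _ => k3⟩
      · exact ⟨a, Subset.rfl, fun e' k1 k2 k3 => absurd ⟨e', k1, k2, k3⟩ hx⟩)
  refine ⟨e.1, e.2, e1, fun μ d a k1 k2 k3 k4 k5 k6 => ?_⟩
  obtain ⟨x, x1, x2, x3, x4⟩ := r2 μ d k1 k2 k3 k4
  exact ((e2 ⟨x, x1⟩ (d.e β) (k4 ▸ d.he hβ k3) k5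
    (((Hold.intro hD k3 (k4.trans k1.symm) k6).agr hD a x2).lb x4)).agr hD (a.agr x2) x2.symm).lb x3

end Pool.Agent.Lib.MP_d4b40b_lc.W
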