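import Pool.Agent.Lib.MP_d4b40b_lc.W.Setup
import Pool.Agent.Lib.MP_d4b40b_lc.Defs

set_option autoImplicit false
set_option linter.unusedSectionVars false
set_option linter.style.haveILetI false

namespace Pool.Agent.Lib.MP_d4b40b_lc.W.ExtC

open Filter Set Cardinal

section collapse

variable {K : Type} [LinearOrder K] [WellFoundedLT K]

lemma exists_col (x : Set K) : ∃ f : K → K, StrictMonoOn f x ∧ IsLowerSet (f '' x) := by
  classical
  let e := (Subtype.relEmbedding ((· < ·) : K → K → Prop) (· ∈ x)).collapse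
  refine ⟨fun β => if hβ : β ∈ x then e ⟨β, hβ⟩ else β, fun a ha b hb l => ?_, ?_⟩
  · simp only [dif_pos ha, dif_pos hb]
    exact e.map_rel_iff.2 l
  · rintro a b l ⟨c, hc, rfl⟩
    simp only [dif_pos hc] at l
    rcases l.eq_or_lt with l | l
    · exact ⟨c, hc, by simp only [dif_pos hc, l]⟩
    · obtain ⟨d, rfl⟩ := e.mem_range_of_rel l
      exact ⟨d.1, d.2, by simp only [dif_pos d.2]⟩

/-- the collapse of a set -/
noncomputable def fn (x : Set K) : K → K := (exists_col x).choose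

/-- the order type of a set -/
def lo (x : Set K) : Set K := fn x '' x

lemma fn_mono (x : Set K) : StrictMonoOn (fn x) x := (exists_col x).choose_spec.1

lemma lo_low (x : Set K) : IsLowerSet (lo x) := (exists_col x).choose_spec.2

lemma mk_lo (x : Set K) : #(lo x) = #x := mk_image_eq_of_injOn _ _ (fn_mono x).injOn

lemma lo_sub {x : Set K} {c : Cardinal.{0}} (h : #x < c) : lo x ⊆ Lt K c := fun _ k =>
  lt_of_le_of_lt (mk_le_mk_of_subset fun _ l => lo_low x (le_of_lt l) k) (mk_lo x ▸ h)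

open Classical in
/-- the collapse as a function defined on the set only -/
noncomputable def pi (x : Set K) (ξ : K) : Option K := if ξ ∈ x then some (fn x ξ) else none

open Classical in
/-- the enumeration -/
noncomputable def en (x : Set K) (ζ : K) : Option K :=
  if h : ζ ∈ lo x then some h.choose else none

lemma mem_pi {x : Set K} {ξ η : K} : η ∈ pi x ξ ↔ ξ ∈ x ∧ fn x ξ = η := by
  by_cases h : ξ ∈ x <;> simp [pi, h]

lemma mem_en {x : Set K} {ξ ζ : K} : ξ ∈ en x ζ ↔ ξ ∈ x ∧ fn x ξ = ζ := by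
  by_cases h : ζ ∈ lo x
  · simp only [en, dif_pos h, Option.mem_def, Option.some.injEq]
    exact ⟨fun e => e ▸ h.choose_spec, fun k =>
      (fn_mono x).injOn h.choose_spec.1 k.1 (h.choose_spec.2.trans k.2.symm)⟩
  · simp only [en, dif_neg h, Option.mem_def, reduceCtorEq, false_iff]
    exact fun k => h ⟨ξ, k⟩

/-- the collapse of `y` in the coordinates of `x` -/
noncomputable def cmp (y x : Set K) (ζ : K) : Option K := (en x ζ).bind (pi y)

lemma mem_cmp {x y : Set K} {ζ η : K} :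
    η ∈ cmp y x ζ ↔ ∃ ξ ∈ x, fn x ξ = ζ ∧ ξ ∈ y ∧ fn y ξ = η := by
  simp only [cmp, Option.mem_bind_iff, mem_en, mem_pi, and_assoc]

lemma cmp_fn {x : Set K} (y : Set K) {ξ : K} (h : ξ ∈ x) : cmp y x (fn x ξ) = pi y ξ := by
  rw [cmp, show en x (fn x ξ) = some ξ from mem_en.2 ⟨h, rfl⟩]; rfl

lemma exists_top {L : Set K} (h : IsLowerSet L) (h' : #L < #K) : ∃ t, L = Iio t := by
  have : ∃ β, β ∉ L := by
    by_contra k
    push Not at k
    rw [eq_univ_of_forall k, mk_univ] at h'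
    exact lt_irrefl _ h'
  obtain ⟨t, h2, h3⟩ := (wellFounded_lt (α := K)).has_min {β | β ∉ L} this
  exact ⟨t, Subset.antisymm (fun β k => not_le.1 fun l => h2 (h l k))
    fun β k => by_contra fun l => h3 β l k⟩

lemma mk_graph (A L : Set K) :
    #{g : K → Option K | ∀ ξ η, η ∈ g ξ → ξ ∈ A ∧ η ∈ L} ≤ 2 ^ (#A * #L) := by
  have : #(Set (A × L)) = 2 ^ (#A * #L) := by simp
  rw [← this]
  refine mk_le_of_injective (f := fun g => {p | p.2.1 ∈ g.1 p.1.1}) fun g g' e => ?_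
  refine Subtype.ext (funext fun ξ => Option.ext fun η => ⟨fun k => ?_, fun k => ?_⟩)
  · exact (Set.ext_iff.1 e (⟨ξ, (g.2 ξ η k).1⟩, ⟨η, (g.2 ξ η k).2⟩)).1 k
  · exact (Set.ext_iff.1 e (⟨ξ, (g'.2 ξ η k).1⟩, ⟨η, (g'.2 ξ η k).2⟩)).2 k

lemma mk_ultra {T : Type} (Z : Set T) : #{U : Ultrafilter T | Z ∈ U} ≤ 2 ^ ((2 : Cardinal.{0}) ^ #Z) := by
  have : #(Set (Set Z)) = 2 ^ ((2 : Cardinal.{0}) ^ #Z) := by simp
  rw [← this]
  refine mk_le_of_injective (f := fun U => {A | Subtype.val '' A ∈ U.1}) fun U U' e => ?_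
  refine Subtype.ext (Ultrafilter.eq_of_le fun B hB => ?_)
  have h1 : Subtype.val '' (Subtype.val ⁻¹' B : Set Z) ∈ U'.1 := by
    rw [Subtype.image_preimage_coe]; exact inter_mem U'.2 hB
  exact mem_of_superset ((Set.ext_iff.1 e _).2 h1) (image_preimage_subset _ _)

end collapse

section sc

variable {K : Type} {c : Cardinal.{0}} {W : Ultrafilter (Set K)} (h : SC c W)

include h

lemma sc_sub {S : Set K} (hS : #S < c) : ∀ᶠ x : Set K in (W : Filter (Set K)), S ⊆ x :=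
  haveI := h.1
  ae_ball W _ hS fun β _ => h.2.2.1 β

lemma sc_all {J : Type} (hJ : #J < c) {Q : Set K → (J → K) → Prop}
    (hQ : ∀ g, ∀ᶠ x : Set K in (W : Filter (Set K)), Q x g) :
    ∀ᶠ x : Set K in (W : Filter (Set K)), ∀ g : J → K, (∀ i, g i ∈ x) → Q x g := by
  haveI := h.1
  by_contra k
  have h0 := Ultrafilter.eventually_not.2 k
  obtain ⟨x0, k0⟩ := h0.exists
  push Not at k0
  have h1 : ∀ x : Set K, ∃ g : J → K, (¬ ∀ g : J → K, (∀ i, g i ∈ x) → Q x g) →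
      (∀ i, g i ∈ x) ∧ ¬ Q x g := by
    intro x
    by_cases hx : ∀ g : J → K, (∀ i, g i ∈ x) → Q x g
    · exact ⟨k0.choose, fun h => absurd hx h⟩
    · have := hx
      push Not at this
      exact this.imp fun _ h _ => h
  choose g hg using h1
  choose g0 hg0 using fun i => h.2.2.2 (fun x => g x i) (h0.mono fun x hx => (hg x hx).1 i)
  obtain ⟨x, k1, k2, k3⟩ := (h0.and ((ae_all W _ hJ hg0).and (hQ g0))).exists
  exact (hg x k1).2 ((funext k2 : g x = g0) ▸ k3)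

lemma sc_diag (hc : ℵ₀ ≤ c) {Q : Set K → K → Prop}
    (hQ : ∀ ξ, ∀ᶠ x : Set K in (W : Filter (Set K)), Q x ξ) :
    ∀ᶠ x : Set K in (W : Filter (Set K)), ∀ ξ ∈ x, Q x ξ :=
  (sc_all h (J := Unit) (by simpa using one_lt_aleph0.trans_le hc) (Q := fun x g => Q x (g ()))
    fun g => hQ _).mono fun _ k ξ l => k (fun _ => ξ) fun _ => l

lemma sc_pow (hc : ℵ₀ ≤ c) {L : Set K} (hL : #K ^ #L ≤ #K) :
    ∀ᶠ x : Set K in (W : Filter (Set K)), #x ^ #(x ∩ L : Set K) ≤ #x := by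
  classical
  obtain ⟨cd⟩ : Nonempty ((L → K) ↪ K) := by
    rw [← Cardinal.le_def]; simpa using hL
  have h1 : ∀ᶠ x : Set K in (W : Filter (Set K)), ∀ g : (x ∩ L : Set K) → x,
      ∃ G : L → K, cd G ∈ x ∧ ∀ ξ : (x ∩ L : Set K), (g ξ).1 = G ⟨ξ.1, ξ.2.2⟩ := by
    by_contra k
    have h0 := Ultrafilter.eventually_not.2 k
    have h2 : ∀ x : Set K, ∃ g : (x ∩ L : Set K) → x, (¬ ∀ g : (x ∩ L : Set K) → x,
        ∃ G : L → K, cd G ∈ x ∧ ∀ ξ : (x ∩ L : Set K), (g ξ).1 = G ⟨ξ.1, ξ.2.2⟩) →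
        ¬ ∃ G : L → K, cd G ∈ x ∧ ∀ ξ : (x ∩ L : Set K), (g ξ).1 = G ⟨ξ.1, ξ.2.2⟩ := by
      intro x
      by_cases hx : ∀ g : (x ∩ L : Set K) → x,
        ∃ G : L → K, cd G ∈ x ∧ ∀ ξ : (x ∩ L : Set K), (g ξ).1 = G ⟨ξ.1, ξ.2.2⟩
      · exact ⟨fun ξ => ⟨ξ.1, ξ.2.1⟩, fun h => absurd hx h⟩
      · exact (not_forall.1 hx).imp fun _ h _ => h
    choose g hg using h2
    choose G hG using fun ξ : L => h.2.2.2
      (fun x => if k : ξ.1 ∈ x then (g x ⟨ξ.1, k, ξ.2⟩).1 else ξ.1)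
      (mem_of_superset (h.2.2.1 ξ.1) fun x k => by
        simp only [mem_ofPred_eq, dif_pos (show ξ.1 ∈ x from k)]; exact (g x _).2)
    have h3 := sc_diag h hc (Q := fun x ξ => ∀ (k : ξ ∈ x) (l : ξ ∈ L),
      (g x ⟨ξ, k, l⟩).1 = G ⟨ξ, l⟩) fun ξ => by
        by_cases l : ξ ∈ L
        · filter_upwards [hG ⟨ξ, l⟩] with x e k _
          simpa only [mem_ofPred_eq, dif_pos k] using e
        · exact Eventually.of_forall fun _ _ l' => absurd l' l
    obtain ⟨x, k1, k2, k3⟩ := (h0.and (h3.and (h.2.2.1 (cd G)))).exists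
    exact hg x k1 ⟨G, k3, fun ξ => k2 ξ.1 ξ.2.1 ξ.2.1 ξ.2.2⟩
  filter_upwards [h1] with x hx
  choose G k1 k2 using hx
  have : #((x ∩ L : Set K) → x) ≤ #x :=
    mk_le_of_injective (f := fun g => ⟨cd (G g), k1 g⟩) fun g g' e => funext fun ξ =>
      Subtype.ext (by rw [k2, k2, cd.injective (congrArg Subtype.val e)])
  simpa using this

variable [LinearOrder K] [WellFoundedLT K]

lemma sc_nor {f : Set K → K} (hf : ∀ᶠ y : Set K in (W : Filter (Set K)), f y ∈ lo y) :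
    ∃ ξ, ∀ᶠ y : Set K in (W : Filter (Set K)), f y ∈ pi y ξ := by
  obtain ⟨y0, -⟩ := hf.exists
  have h1 : ∀ y : Set K, ∃ ξ, f y ∈ lo y → ξ ∈ y ∧ fn y ξ = f y := fun y => by
    by_cases k : f y ∈ lo y
    · exact k.imp fun _ l _ => l
    · exact ⟨f y0, fun l => absurd l k⟩
  choose g hg using h1
  obtain ⟨ξ, k⟩ := h.2.2.2 g (hf.mono fun y l => (hg y l).1)
  refine ⟨ξ, ?_⟩
  filter_upwards [hf, k] with y k1 k2
  exact mem_pi.2 ((show g y = ξ from k2) ▸ hg y k1)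

lemma sc_meas (hc : c < #K) : ∃ V : Ultrafilter (Lt K c),
    CardinalInterFilter (V : Filter (Lt K c)) c ∧ ∀ t, ∀ᶠ x in (V : Filter (Lt K c)), x ≠ t := by
  haveI := h.1
  have hs : ∀ᶠ x : Set K in (W : Filter (Set K)), #x < c := h.2.1
  have h0 : ∀ x : Set K, #x < c → ∃ t : Lt K c, lo x = Iio t.1 := fun x k => by
    obtain ⟨t, l⟩ := exists_top (lo_low x) (mk_lo x ▸ k.trans hc)
    exact ⟨⟨t, show #(Iio t) < c by rw [← l, mk_lo]; exact k⟩, l⟩
  obtain ⟨x0, k0⟩ := hs.exists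
  have h1 : ∀ x : Set K, ∃ t : Lt K c, #x < c → lo x = Iio t.1 := fun x => by
    by_cases k : #x < c
    · exact (h0 x k).imp fun _ l _ => l
    · exact (h0 x0 k0).imp fun _ _ l => absurd l k
  choose tp htp using h1
  refine ⟨W.map tp, by rw [Ultrafilter.coe_map]; infer_instance, fun t => ?_⟩
  refine Ultrafilter.eventually_not.2 fun k => ?_
  have k1 : ∀ᶠ x : Set K in (W : Filter (Set K)), tp x = t := k
  have k2 : ∀ β, ∃ r ∈ Iio t.1, ∀ᶠ x : Set K in (W : Filter (Set K)), fn x β = r := fun β =>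
    ae_cst W _ t.2 (by
      filter_upwards [hs, k1, h.2.2.1 β] with x l1 l2 l3
      rw [← l2, ← htp x l1]
      exact mem_image_of_mem _ l3)
  choose φ k3 k4 using k2
  have k5 : #K ≤ #(Iio t.1) :=
    mk_le_of_injective (f := fun β => ⟨φ β, k3 β⟩) fun a b e => by
      obtain ⟨x, l1, l2, l3, l4⟩ :=
        ((k4 a).and ((k4 b).and (Eventually.and (h.2.2.1 a) (h.2.2.1 b)))).exists
      exact (fn_mono x).injOn l3 l4 (l1.trans ((congrArg Subtype.val e).trans l2.symm))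
  exact absurd (k5.trans_lt t.2) (not_lt.2 hc.le)

end sc

/-- the levels -/
theorem exists_levels (l : Cardinal.{0}) (T : Set Cardinal.{0}) (hT : ¬ T.Countable)
    (h : ∀ c ∈ T, ℵ₀ < c ∧ c < l) :
    ∃ (I : Type) (_ : LinearOrder I) (_ : WellFoundedLT I) (_ : OrderTop I) (κ : I → Cardinal.{0}),
      StrictMono κ ∧ κ ⊤ = l ∧ (∀ m, ℵ₁ < κ m) ∧ (∀ m < ⊤, κ m ∈ T ∧ (Iio m).Countable) ∧
      ¬ (Iio (⊤ : I)).Countable ∧ #I ≤ ℵ₁ := by
  let T1 := T \ {ℵ₁}
  have t1 : ¬ T1.Countable := fun k => hT ((k.insert ℵ₁).mono fun c hc => by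
    by_cases e : c = ℵ₁
    exacts [Or.inl e, Or.inr ⟨hc, e⟩])
  have t0 : ∀ c ∈ T1, ℵ₁ < c := fun c hc =>
    lt_of_le_of_ne (by rw [← succ_aleph0]; exact Order.succ_le_of_lt (h c hc.1).1) (Ne.symm hc.2)
  let T2 := {c ∈ T1 | (T1 ∩ Iio c).Countable}
  have t2 : ¬ T2.Countable := fun k => by
    have : (T1 \ T2).Nonempty := by
      by_contra e
      exact t1 (k.mono (sdiff_eq_empty.1 (not_nonempty_iff_eq_empty.1 e)))
    obtain ⟨c, k1, k2⟩ := (wellFounded_lt (α := Cardinal.{0})).has_min _ this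
    exact k1.2 ⟨k1.1, k.mono fun d hd => by_contra fun e => k2 d ⟨hd.1, e⟩ hd.2⟩
  obtain ⟨c0, hc0⟩ : T2.Nonempty := by
    by_contra e
    exact t2 (not_nonempty_iff_eq_empty.1 e ▸ countable_empty)
  let T3 := insert l T2
  have t3 : ∀ c ∈ T3, c ≤ l := by
    rintro c (rfl | hc)
    exacts [le_rfl, (h c hc.1.1).2.le]
  haveI : Small.{0} T3 := small_subset (t := T3) (s := Iic l) t3
  let κ : Shrink.{0} T3 → Cardinal.{0} := fun i => ((equivShrink T3).symm i).1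
  have hi : Function.Injective κ := Subtype.val_injective.comp (equivShrink T3).symm.injective
  letI : LinearOrder (Shrink.{0} T3) := LinearOrder.lift' κ hi
  have hm : StrictMono κ := fun _ _ k => k
  haveI : WellFoundedLT (Shrink.{0} T3) := hm.wellFoundedLT
  have e0 : κ (equivShrink T3 ⟨l, mem_insert _ _⟩) = l := by simp [κ]
  letI : OrderTop (Shrink.{0} T3) :=
    { top := equivShrink T3 ⟨l, mem_insert _ _⟩
      le_top := fun a => show κ a ≤ κ _ from e0.symm ▸ t3 _ ((equivShrink T3).symm a).2 }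
  have e1 : κ ⊤ = l := e0
  have m2 : ∀ m < ⊤, κ m ∈ T2 := fun m k =>
    ((equivShrink T3).symm m).2.resolve_left fun e => (hm k).ne (e.trans e1.symm)
  have ct : ∀ m < (⊤ : Shrink.{0} T3), (Iio m).Countable := fun m k =>
    Set.Countable.mono (s₂ := κ ⁻¹' (T1 ∩ Iio (κ m)))
      (fun n hn => ⟨(m2 n (lt_trans hn k)).1, hm hn⟩) ((m2 m k).2.preimage_of_injOn hi.injOn)
  refine ⟨_, inferInstance, inferInstance, inferInstance, κ, hm, e1, fun m => ?_,
    fun m k => ⟨(m2 m k).1.1, ct m k⟩, fun k => t2 ((k.image κ).mono fun c hc => ?_), ?_⟩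
  · rcases le_top.eq_or_lt (a := m) with rfl | k
    · exact e1 ▸ (t0 c0 hc0.1).trans (h c0 hc0.1.1).2
    · exact t0 _ (m2 m k).1
  · have e : κ (equivShrink T3 ⟨c, Or.inr hc⟩) = c := by simp [κ]
    exact ⟨_, show κ _ < κ ⊤ by rw [e, e1]; exact (h c hc.1.1).2, e⟩
  · rw [← mk_univ]
    refine (mk_le_mk_of_subset (t := insert ⊤ (Lt _ ℵ₁)) fun m _ => ?_).trans
      (mk_insert_le.trans ((add_le_add (mk_Lt_le _) (one_lt_aleph0.le.trans
        aleph0_lt_aleph_one.le)).trans (add_eq_self aleph0_lt_aleph_one.le).le))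
    rcases le_top.eq_or_lt (a := m) with rfl | k
    · exact mem_insert _ _
    · exact Or.inr ((le_aleph0_iff_set_countable.2 (ct m k)).trans_lt aleph0_lt_aleph_one)

/-- a normal measure -/
theorem exists_normal (K : Type) (U : Ultrafilter K) (hU : ∀ x, {x} ∉ U)
    (hc : CardinalInterFilter (U : Filter K) #K) (hK : ℵ₀ < #K) :
    ∃ (_ : LinearOrder K) (_ : WellFoundedLT K) (U : Ultrafilter K), (∀ β : K, #(Iio β) < #K) ∧
      CardinalInterFilter (U : Filter K) #K ∧ (∀ α, ∀ᶠ β in (U : Filter K), α < β) ∧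
      ∀ f : K → K, (∀ᶠ β in (U : Filter K), f β < β) → ∃ α, ∀ᶠ β in (U : Filter K), f β = α := by
  obtain ⟨_, _, hord⟩ := exists_ord_eq_type_lt K
  have hcc : CountableInterFilter (U : Filter K) :=
    CardinalInterFilter.toCountableInterFilter _ hK
  have hne : ∀ x, ∀ᶠ β in (U : Filter K), β ≠ x := fun x =>
    Ultrafilter.eventually_not.2 (hU x)
  have htail : ∀ α, ∀ᶠ β in (U : Filter K), α < β := fun α =>
    (ae_notMem U _ hne (mk_Iic_lt hK.le (mk_Iio_lt α hord))).mono fun _ k => not_le.1 k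
  have hwf : WellFounded (fun f g : K → K => ∀ᶠ β in (U : Filter K), f β < g β) := by
    rw [wellFounded_iff_isEmpty_descending_chain]
    refine ⟨fun ⟨f, hf⟩ => ?_⟩
    obtain ⟨β, hβ⟩ := (eventually_countable_forall.2 hf).exists
    exact (wellFounded_iff_isEmpty_descending_chain.1 (wellFounded_lt (α := K))).false
      ⟨fun n => f n β, hβ⟩
  obtain ⟨f, hf, hmin⟩ := hwf.has_min {f | ∀ α, ∀ᶠ β in (U : Filter K), α < f β} ⟨id, htail⟩
  refine ⟨_, inferInstance, U.map f, fun β => mk_Iio_lt β hord,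
    by rw [Ultrafilter.coe_map]; infer_instance, hf, fun g hg => ?_⟩
  have h1 : ¬ ∀ α, ∀ᶠ β in (U : Filter K), α < g (f β) := fun h => hmin (g ∘ f) h hg
  obtain ⟨α, hα⟩ := not_forall.1 h1
  obtain ⟨δ, -, k⟩ := ae_cst U _ (mk_Iic_lt hK.le (mk_Iio_lt α hord)) (f := g ∘ f)
    ((Ultrafilter.eventually_not.2 hα).mono fun _ k => not_lt.1 k)
  exact ⟨δ, k⟩

end Pool.Agent.Lib.MP_d4b40b_lc.W.ExtC
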