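import Pool.Agent.Lib.MP_d4b40b_lc.W.ExtA

set_option autoImplicit false
set_option linter.unusedSectionVars false
set_option linter.style.haveILetI false

namespace Pool.Agent.Lib.MP_d4b40b_lc.W.ExtC

open Filter Set Cardinal

variable [S : Sys] (W : I → Ultrafilter (Set K))

/-- the trace of the critical point -/
def ko (m : I) (x : Set K) : Set K := fn x '' (x ∩ Lt K (kp m))

lemma mk_ko (m : I) (x : Set K) : #(ko m x) = #(x ∩ Lt K (kp m) : Set K) :=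
  mk_image_eq_of_injOn _ _ ((fn_mono x).injOn.mono inter_subset_left)

/-- the same reflected system -/
def Rl (m : I) (r : ∀ δ, δ < m → Set K → Set K) (x x' : Set K) : Prop :=
  lo x = lo x' ∧ ko m x = ko m x' ∧ ∀ δ h,
    (W δ).map (fun y => (r δ h y, cmp y x)) = (W δ).map (fun y => (r δ h y, cmp y x'))

/-- representatives -/
noncomputable def rep : I → Set K → Set K :=
  (wellFounded_lt (α := I)).fix fun m r x => Classical.epsilon (Rl W m r x)

/-- the reflected measures -/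
noncomputable def rE (δ : I) (x : Set K) : Ultrafilter (Set K × (K → Option K)) :=
  (W δ).map fun y => (rep W δ y, cmp y x)

/-- the same reflected system -/
def Eqv (m : I) (x x' : Set K) : Prop :=
  lo x = lo x' ∧ ko m x = ko m x' ∧ ∀ δ < m, rE W δ x = rE W δ x'

lemma rep_eq (m : I) (x : Set K) : rep W m x = Classical.epsilon (Eqv W m x) :=
  congrFun ((wellFounded_lt (α := I)).fix_eq
    (fun m (r : ∀ δ, δ < m → Set K → Set K) x => Classical.epsilon (Rl W m r x)) m) x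

lemma eqv_rep (m : I) (x : Set K) : Eqv W m x (rep W m x) := by
  rw [rep_eq]
  exact Classical.epsilon_spec ⟨x, rfl, rfl, fun _ _ => rfl⟩

variable {W}

lemma Eqv.symm {m : I} {x y : Set K} (h : Eqv W m x y) : Eqv W m y x :=
  ⟨h.1.symm, h.2.1.symm, fun δ k => (h.2.2 δ k).symm⟩

lemma Eqv.trans {m : I} {x y z : Set K} (h : Eqv W m x y) (h' : Eqv W m y z) : Eqv W m x z :=
  ⟨h.1.trans h'.1, h.2.1.trans h'.2.1, fun δ k => (h.2.2 δ k).trans (h'.2.2 δ k)⟩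

lemma Eqv.rep {m : I} {x y : Set K} (h : Eqv W m x y) : rep W m x = rep W m y := by
  rw [rep_eq, rep_eq, show Eqv W m x = Eqv W m y from
    funext fun _ => propext ⟨h.symm.trans, h.trans⟩]

variable (W) in
/-- the small cores -/
def Ds (m : I) : Set (Set K) := rep W m '' {x | #x < kp m}

variable (W) in
/-- closure under normality witnesses -/
def Clo (m : I) (x : Set K) : Prop :=
  ∀ δ < m, ∀ b ⊆ x, #b ≤ kp δ → ∀ h : Set K → K,
    (∀ y y', rep W δ y = rep W δ y' → (∀ ξ ∈ b, pi y ξ = pi y' ξ) → h y = h y') →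
    (∀ᶠ y : Set K in (W δ : Filter (Set K)), h y ∈ lo y) →
    ∃ ξ ∈ x, ∀ᶠ y : Set K in (W δ : Filter (Set K)), h y ∈ pi y ξ

variable (W) in
/-- good sets -/
structure Good (m : I) (x : Set K) : Prop where
  lt : #x < kp m
  kap : 2 ^ pre m ≤ #(ko m x)
  two : 2 ≤ #x
  pow : #x ^ #(ko m x) ≤ #x
  cof : ∀ T ⊆ lo x, #T ≤ pre m → ∃ γ ∈ lo x, ∀ β ∈ T, β ≤ γ
  clo : Clo W m x

variable (hW : ∀ m < ⊤, SC (kp m) (W m))

include hW

lemma mk_Ds {m : I} (hm : m < ⊤) : #(Ds W m) ≤ kp m := by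
  induction m using WellFoundedLT.induction with
  | _ m ih =>
  have hi := inacc_kp m
  refine (mk_le_mk_of_subset (t := ⋃ t ∈ Lt K (kp m), {d ∈ Ds W m | lo d = Iio t}) ?_).trans
    (mk_biUnion_le' (kp_inf m) (mk_Lt_le _) fun t ht => ?_)
  · rintro _ ⟨x, hx, rfl⟩
    have e : #(lo (rep W m x)) < kp m := by rw [← (eqv_rep W m x).1, mk_lo]; exact hx
    obtain ⟨t, l⟩ := exists_top (lo_low _) (e.trans (kp_lt_K hm))
    exact mem_biUnion (show #(Iio t) < kp m from l ▸ e) ⟨⟨x, hx, rfl⟩, l⟩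
  let Z : Set (Set K × (K → Option K)) := (⋃ δ ∈ Iio m, Ds W δ) ×ˢ
    {g : K → Option K | ∀ ξ η, η ∈ g ξ → ξ ∈ Iio t ∧ η ∈ Lt K (pre m)}
  have z1 : #Z < kp m := mk_sprod_lt' (kp_inf m)
    ((mk_biUnion_le' (pre_inf m) ((mk_set_le _).trans (I_le_pre m)) fun δ hδ =>
      (ih δ hδ (lt_trans hδ hm)).trans (kp_le_pre hδ)).trans_lt (pre_lt m))
    ((mk_graph _ _).trans_lt (hi.isStrongPrelimit
      (mul_lt_of_lt hi.1.le ht ((mk_Lt_le _).trans_lt (pre_lt m)))))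
  have z2 : ∀ d : Set K, lo d = Iio t → ∀ δ < m, Z ∈ rE W δ d := fun d e δ hδ => by
    refine Ultrafilter.mem_map.2 (mem_of_superset (hW δ (hδ.trans hm)).2.1 fun y hy => ?_)
    refine ⟨mem_biUnion hδ ⟨y, hy, rfl⟩, fun ζ η k => ?_⟩
    obtain ⟨ξ, k1, rfl, k2, rfl⟩ := mem_cmp.1 k
    exact ⟨e ▸ mem_image_of_mem _ k1, Lt_mono (kp_le_pre hδ) (lo_sub hy (mem_image_of_mem _ k2))⟩
  have z3 : #{d ∈ Ds W m | lo d = Iio t} ≤
      #(𝒫 (Iio t) × (Iio m → {U : Ultrafilter (Set K × (K → Option K)) | Z ∈ U})) := by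
    refine mk_le_of_injective (f := fun d => (⟨ko m d.1,
      (image_mono inter_subset_left).trans (Eq.subset d.2.2)⟩,
      fun δ => ⟨rE W δ.1 d.1, z2 _ d.2.2 _ δ.2⟩)) ?_
    rintro ⟨_, ⟨x, hx, rfl⟩, k⟩ ⟨_, ⟨x', hx', rfl⟩, k'⟩ e
    refine Subtype.ext (((eqv_rep W m x).trans (Eqv.trans ⟨k.trans k'.symm,
      congrArg Subtype.val (congrArg Prod.fst e), fun δ hδ => ?_⟩ (eqv_rep W m x').symm)).rep)
    exact congrArg Subtype.val (congrFun (congrArg Prod.snd e) ⟨δ, hδ⟩)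
  refine z3.trans (mk_prod_lt' (kp_inf m) ?_ ?_).le
  · rw [mk_powerset]; exact hi.isStrongPrelimit ht
  · rw [← power_def]
    exact inacc_pow_lt hi ((mk_ultra Z).trans_lt (hi.isStrongPrelimit (hi.isStrongPrelimit z1)))
      (((mk_set_le _).trans (I_le_pre m)).trans_lt (pre_lt m))

lemma clo_univ (m : I) : Clo W m univ := fun δ hδ _ _ _ _ _ k =>
  (sc_nor (hW δ (hδ.trans_le le_top)) k).imp fun _ l => ⟨trivial, l⟩

lemma mk_wit {m δ : I} (hδ : δ < m) {b : Set K} (hb : #b ≤ kp δ) :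
    #{ξ | ∃ h : Set K → K,
      (∀ y y', rep W δ y = rep W δ y' → (∀ ξ ∈ b, pi y ξ = pi y' ξ) → h y = h y') ∧
      ∀ᶠ y : Set K in (W δ : Filter (Set K)), h y ∈ pi y ξ} < kp m := by
  classical
  have hi := inacc_kp m
  have ht : δ < ⊤ := hδ.trans_le le_top
  have hl : kp δ < kp m := S.mono hδ
  let Z : Set (Set K × (K → Option K) × K) := Ds W δ ×ˢ
    {g : K → Option K | ∀ ξ η, η ∈ g ξ → ξ ∈ b ∧ η ∈ Lt K (kp δ)} ×ˢ Lt K (kp δ)
  have z1 : #Z < kp m := mk_sprod_lt' (kp_inf m) ((mk_Ds hW ht).trans_lt hl)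
    (mk_sprod_lt' (kp_inf m) ((mk_graph _ _).trans_lt (hi.isStrongPrelimit
      (mul_lt_of_lt hi.1.le (hb.trans_lt hl) ((mk_Lt_le _).trans_lt hl))))
      ((mk_Lt_le _).trans_lt hl))
  refine lt_of_le_of_lt ?_ (hi.isStrongPrelimit z1)
  rw [← mk_set]
  let c : Set K → K → Option K := fun y ξ => if ξ ∈ b then pi y ξ else none
  refine mk_le_of_injective (f := fun ξ => {p | ∃ y, p.1 = (rep W δ y, c y, ξ.2.choose y)})
    fun ξ ξ' e => Subtype.ext ?_
  obtain ⟨y, k1, k2, k3⟩ := (Eventually.and (hW δ ht).2.1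
    (ξ.2.choose_spec.2.and ξ'.2.choose_spec.2)).exists
  obtain ⟨k4, k5⟩ := mem_pi.1 k2
  obtain ⟨k6, k7⟩ := mem_pi.1 k3
  have z2 : (rep W δ y, c y, ξ.2.choose y) ∈ Z := by
    refine ⟨⟨y, k1, rfl⟩, fun ζ η k => ?_, k5 ▸ lo_sub k1 (mem_image_of_mem _ k4)⟩
    by_cases l : ζ ∈ b
    · simp only [c, if_pos l] at k
      obtain ⟨l1, rfl⟩ := mem_pi.1 k
      exact ⟨l, lo_sub k1 (mem_image_of_mem _ l1)⟩
    · simp only [c, if_neg l] at k; cases k
  obtain ⟨y', k8⟩ := (Set.ext_iff.1 e ⟨_, z2⟩).1 ⟨y, rfl⟩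
  simp only [Prod.mk.injEq] at k8
  refine (fn_mono y).injOn k4 k6 (k5.trans (k8.2.2.trans (Eq.trans ?_ k7.symm)))
  refine (ξ'.2.choose_spec.1 y y' k8.1 fun ζ l => ?_).symm
  simpa only [c, if_pos l] using congrFun k8.2.1 ζ

lemma ae_ko {m : I} (hm : m < ⊤) {ρ : Cardinal.{0}} (h : ρ < kp m) :
    ∀ᶠ x : Set K in (W m : Filter (Set K)), ρ ≤ #(ko m x) := by
  obtain ⟨T, h1, h2⟩ := le_mk_iff_exists_subset.1 (h.le.trans (le_mk_Lt (kp_le_K m)))
  filter_upwards [sc_sub (hW m hm) (h2.trans_lt h)] with x k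
  rw [mk_ko, ← h2]
  exact mk_le_mk_of_subset (subset_inter k h1)

lemma ae_good {m : I} (hm : m < ⊤) : ∀ᶠ x : Set K in (W m : Filter (Set K)), Good W m x := by
  have h := hW m hm
  haveI := h.1
  have hi := inacc_kp m
  have hK : Nonempty K := mk_ne_zero_iff.1 inacc_K.ne_zero
  have h1 := sc_all h (J := (pre m).out) (Q := fun x g => ∃ β ∈ x, ∀ i, g i < β)
    (by simpa using pre_lt m) (fun g => by
      obtain ⟨β, hβ⟩ := (ae_above (T := range g) (mk_range_le.trans_lt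
        (by simpa using pre_lt_K m))).exists
      exact mem_of_superset (h.2.2.1 β) fun x hx => ⟨β, hx, fun i => hβ (mem_range_self i)⟩)
  have h2 := ae_ball (W m) _ (R := Iio m) (((mk_set_le _).trans (I_le_pre m)).trans_lt (pre_lt m))
    fun δ hδ => sc_all h (J := (kp δ).out) (by simpa using S.mono hδ)
      (Q := fun x g => {ξ | ∃ h : Set K → K, (∀ y y', rep W δ y = rep W δ y' →
        (∀ ξ ∈ range g, pi y ξ = pi y' ξ) → h y = h y') ∧
        ∀ᶠ y : Set K in (W δ : Filter (Set K)), h y ∈ pi y ξ} ⊆ x)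
      fun g => sc_sub h (mk_wit hW hδ (by simpa using mk_range_le (f := g)))
  have enum : ∀ (x b : Set K) (ρ : Cardinal.{0}) (f : K → K), hK.some ∈ x → b ⊆ f '' x → #b ≤ ρ →
      ∃ g : ρ.out → K, (∀ i, g i ∈ x) ∧ ∀ a ∈ b, ∃ i, f (g i) = a := by
    intro x b ρ f k1 k2 k3
    obtain ⟨e, he1, he2⟩ := exists_enum k3
    have : ∀ i, ∃ y ∈ x, ∀ a, e i = some a → f y = a := by
      intro i
      cases l : e i with
      | none => exact ⟨_, k1, fun a ha => by cases ha⟩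
      | some a =>
        obtain ⟨y, h1, h2⟩ := k2 (he1 i a l)
        exact ⟨y, h1, fun a' ha' => by cases ha'; exact h2⟩
    choose g hg1 hg2 using this
    exact ⟨g, hg1, fun a ha => (he2 a ha).imp fun i hi => hg2 i a hi⟩
  filter_upwards [h.2.1, ae_ko hW hm (hi.isStrongPrelimit (pre_lt m)),
    sc_pow h (kp_inf m) (inacc_pow_le inacc_K ((mk_Lt_le (K := K) (kp m)).trans_lt (kp_lt_K hm))),
    h1, h2, h.2.2.1 hK.some] with x k1 k2 k3 k4 k5 k6
  refine ⟨k1, k2, ?_, by rwa [mk_ko], fun T t1 t2 => ?_, fun δ hδ b b1 b2 f f1 f2 => ?_⟩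
  · exact (((natCast_lt_aleph0 (n := 2)).le.trans (pre_inf m)).trans (cantor _).le).trans
      (k2.trans ((mk_ko m x).le.trans (mk_le_mk_of_subset inter_subset_left)))
  · obtain ⟨g, g1, g2⟩ := enum x T _ (fn x) k6 t1 t2
    obtain ⟨β, l1, l2⟩ := k4 g g1
    refine ⟨fn x β, mem_image_of_mem _ l1, fun a ha => ?_⟩
    obtain ⟨i, rfl⟩ := g2 a ha
    exact (fn_mono x (g1 i) l1 (l2 i)).le
  · obtain ⟨g, g1, g2⟩ := enum x b _ id k6 (by rwa [image_id]) b2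
    obtain ⟨ξ, l⟩ := sc_nor (hW δ (hδ.trans hm)) f2
    exact ⟨ξ, k5 δ hδ g g1 ⟨f, fun y y' e e' => f1 y y' e fun ζ hζ => e' ζ (g2 ζ hζ), l⟩, l⟩

end Pool.Agent.Lib.MP_d4b40b_lc.W.ExtC
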