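import Pool.Agent.Lib.MP_d4b40b_lc.W.Ops

set_option autoImplicit false
set_option linter.unusedSectionVars false

namespace Pool.Agent.Lib.MP_d4b40b_lc.W

open Filter Set Cardinal

variable [S : Sys]

/-- `k` is the first stage at which the item occurs -/
def Fst (J : Set I) (B : I → K → Prop) (k : I) : Prop := k ∈ J ∧ ∀ j ∈ J, j < k → ∀ x, ¬ B j x

/-- the value given by the first stage -/
noncomputable def gn (J : Set I) (B : I → K → Prop) (N : I → K → Option K) (r : I → Option K) :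
    Option K := opt fun v => ∃ k x, Fst J B k ∧ B k x ∧ x ∈ r k ∧ v ∈ N k x

section gn

variable {J J' : Set I} {B B' : I → K → Prop} {N N' : I → K → Option K} {r r' : I → Option K}
  {k k' n : I} {x x' v : K}

lemma Fst.uniq (h : Fst J B k) (h' : Fst J B k') (b : B k x) (b' : B k' x') : k = k' := by
  rcases lt_trichotomy k k' with l | l | l
  exacts [absurd b (h'.2 k h.1 l x), l, absurd b' (h.2 k' h'.1 l x')]

lemma mem_gn : v ∈ gn J B N r ↔ ∃ k x, Fst J B k ∧ B k x ∧ x ∈ r k ∧ v ∈ N k x :=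
  mem_opt fun _ _ ⟨_, _, h1, h2, h3, h4⟩ ⟨_, _, k1, k2, k3, k4⟩ => by
    obtain rfl := h1.uniq k1 h2 k2
    obtain rfl := Option.mem_unique h3 k3
    exact Option.mem_unique h4 k4

lemma gn_eq (h : Fst J B k) (b : B k x) (l : x ∈ r k) : gn J B N r = N k x :=
  opt_eq (fun _ i => by
    obtain ⟨_, _, k1, k2, k3, k4⟩ := mem_gn.1 i
    obtain rfl := h.uniq k1 b k2
    obtain rfl := Option.mem_unique l k3
    exact k4) fun _ i => mem_gn.2 ⟨k, x, h, b, l, i⟩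

lemma gn_mono (h1 : ∀ k ∈ J, ∀ x, B k x → x ∈ r k → x ∈ r' k)
    (h2 : ∀ k ∈ J, ∀ x, B k x → ∀ v ∈ N k x, v ∈ N' k x) (h : v ∈ gn J B N r) :
    v ∈ gn J B N' r' :=
  let ⟨k, x, k1, k2, k3, k4⟩ := mem_gn.1 h
  mem_gn.2 ⟨k, x, k1, k2, h1 k k1.1 x k2 k3, h2 k k1.1 x k2 v k4⟩

lemma gn_congr (h1 : ∀ k ∈ J, r k = r' k) (h2 : ∀ k ∈ J, ∀ x, B k x → N k x = N' k x) :
    gn J B N r = gn J B N' r' :=
  opt_eq (fun _ => gn_mono (fun k l _ _ i => h1 k l ▸ i) fun k l x b _ i => h2 k l x b ▸ i)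
    fun _ => gn_mono (fun k l _ _ i => h1 k l ▸ i) fun k l x b _ i => h2 k l x b ▸ i

lemma gn_key {o : Option K} (hJ : ∀ k, k ∈ J' ↔ k ∈ J ∧ k < n) (hn : n ∈ J)
    (hB : ∀ k ∈ J', B k = B' k ∧ N k = N' k ∧ r k = r' k)
    (h1 : (∃ k ∈ J', ∃ y, B' k y) → o = gn J' B' N' r')
    (h2 : ∃ y ∈ r n, B n y ∧ N n y = o) : gn J B N r = o := by
  by_cases h : ∃ k ∈ J', ∃ y, B' k y
  · rw [h1 h]
    obtain ⟨k, ⟨k1, y, k2⟩, k3⟩ := (wellFounded_lt (α := I)).has_min {k | k ∈ J' ∧ ∃ y, B' k y} h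
    have f' : Fst J' B' k := ⟨k1, fun j l1 l2 z l3 => k3 j ⟨l1, z, l3⟩ l2⟩
    have f : Fst J B k := ⟨((hJ k).1 k1).1, fun j l1 l2 z l3 => by
      have l4 := (hJ j).2 ⟨l1, l2.trans ((hJ k).1 k1).2⟩
      exact f'.2 j l4 l2 z ((hB j l4).1 ▸ l3)⟩
    obtain ⟨e1, e2, e3⟩ := hB k k1
    refine opt_eq (fun v i => ?_) fun v i => ?_ <;> obtain ⟨j, z, l1, l2, l3, l4⟩ := mem_gn.1 i
    · obtain rfl := f.uniq l1 (e1 ▸ k2) l2
      exact mem_gn.2 ⟨k, z, f', e1 ▸ l2, e3 ▸ l3, e2 ▸ l4⟩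
    · obtain rfl := f'.uniq l1 k2 l2
      exact mem_gn.2 ⟨k, z, f, e1 ▸ l2, e3 ▸ l3, e2 ▸ l4⟩
  · obtain ⟨y, k1, k2, k3⟩ := h2
    exact (gn_eq ⟨hn, fun j l1 l2 z l3 => h ⟨j, (hJ j).2 ⟨l1, l2⟩, z,
      (hB j ((hJ j).2 ⟨l1, l2⟩)).1 ▸ l3⟩⟩ k2 k1).trans k3

end gn

/-- union over the stages -/
def Un {Y : Type} (J : Set I) (f : I → K → Set Y) : Set Y :=
  {y | ∃ k ∈ J, ∃ x ∈ Lt K (kp k), y ∈ f k x}

lemma mk_Un {Y : Type} {J : Set I} {f : I → K → Set Y} {ρ : Cardinal.{0}} (h0 : ℵ₁ ≤ ρ)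
    (h1 : ∀ k ∈ J, kp k ≤ ρ) (h2 : ∀ k x, #(f k x) ≤ ρ) : #(Un J f) ≤ ρ := by
  have h := aleph0_lt_aleph_one.le.trans h0
  refine le_trans (mk_le_mk_of_subset (t := ⋃ k ∈ J, ⋃ x ∈ Lt K (kp k), f k x)
    fun y ⟨k, k1, x, k2, k3⟩ => mem_biUnion k1 (mem_biUnion k2 k3)) ?_
  exact mk_biUnion_le' h (((mk_set_le _).trans I_le).trans h0) fun k l =>
    mk_biUnion_le' h ((mk_Lt_le _).trans (h1 k l)) fun x _ => h2 k x

lemma R0.pu_congr {C : Cone} {T : Set K} {x y z : S0} (h : R0 C T y (z.diff x)) :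
    R0 C T (x.pu y) (x.pu z) :=
  (R0.pu_left _ _ _ _).le_pu ⟨fun _ k => Or.inr (h.a k), fun π k l => Or.inr (h.bl π k l),
    fun π k l σ n => (congrFun (S0.pu_neg k.2) σ).trans (h.n π k l σ n)⟩

lemma R1.pu_congr {m : I} {on : Prop} {C : Cone} {T : Set K} {x y z : S1 m}
    (h : R1 on C T y (z.diff x)) : R1 on C T (x.pu y) (x.pu z) :=
  (R1.pu_left _ _ _ _ _).le_pu ⟨fun _ k => Or.inr (h.b k),
    fun o ξ k l σ n => (congrFun (if_neg k.2) σ).trans (h.g o ξ k l σ n),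
    fun o ξ k l μ σ n => (congrFun (congrFun (if_neg k.2) μ) σ).trans (h.f o ξ k l μ σ n)⟩

variable [X : Ext S]

/-- the stages, the additional coordinates and the readers -/
structure GD where
  J0 : I → Set I
  J1 : I → Set I
  E : Set K
  r0 : I → Info → I → Option K
  r1 : ∀ m, Obj m → Info → I → Option K

open Classical in
/-- below `α` nothing is read -/
noncomputable def rd (α e ξ : K) (r : I → Option K) (k : I) : Option K :=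
  if ξ < α then some e else r k

lemma rd_lt {α e ξ : K} (h : ξ < α) (r : I → Option K) (k : I) : rd α e ξ r k = some e := if_pos h

lemma rd_ge {α e ξ : K} (h : α ≤ ξ) (r : I → Option K) (k : I) : rd α e ξ r k = r k :=
  if_neg h.not_gt

namespace GD

variable (d : GD) (α e : K) (q : Cond) (M : I → K → Cond) (h : ∀ m, HH m)

/-- the additional coordinates at one level -/
def EE (m : I) : Set K := {ξ ∈ d.E | Z0 q.u ⊤ m}

/-- the glued blocks -/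
noncomputable def s0 (m : I) : S0 :=
  ⟨d.EE q m ∪ Un (d.J0 m) fun k x => (M k x).a m, Un (d.J0 m) fun k x => ((M k x).1.s0 m).Bl,
    fun π σ => gn (d.J0 m) (fun k x => x ∈ Lt K (kp k) ∧ π ∈ ((M k x).1.s0 m).Bl)
      (fun k x => ((M k x).1.s0 m).N π σ) (rd α e π.1 (d.r0 m σ))⟩

/-- the glued records -/
noncomputable def s1 (m : I) : S1 m :=
  ⟨d.EE q m ∪ Un (d.J1 m) fun k x => (M k x).b m,
    fun ξ ν σ => (ν.g.f ξ).or (gn (d.J1 m) (fun k x => x ∈ Lt K (kp k) ∧ ξ ∈ (M k x).b m)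
      (fun k x => ((M k x).1.s1 m).f ξ ν σ) (rd α e ξ (d.r1 m ν σ))), fun _ _ => none⟩

/-- the new part -/
noncomputable def w : Raw :=
  ⟨d.s0 α e q M, d.s1 α e q M, fun m => ⟨(q.1.s2 m).on, q.cr m,
    {μ | ∀ k ∈ d.J0 m, ∀ x ∈ Lt K (kp k), μ ∈ (M k x).A m}, h m, q.e m⟩⟩

structure OK : Prop where
  j0 : ∀ m, ∀ k ∈ d.J0 m, Z0 q.u ⊤ k ∧ k < m
  j1 : ∀ m, ∀ k ∈ d.J1 m, Z0 q.u ⊤ k ∧ k ≤ m
  j01 : ∀ m, d.J0 m ⊆ d.J1 m
  j10 : ∀ γ m, γ < m → d.J1 γ ⊆ d.J0 m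
  cE : #d.E ≤ ℵ₁
  r0 : ∀ m, ∀ k ∈ d.J0 m, ∀ ξ, α ≤ ξ → ∀ τ σ, Sub m (d.E ∩ Iic ξ) τ σ → ∀ x ∈ Lt K (kp k),
    x ∈ d.r0 m τ k → x ∈ d.r0 m σ k
  r1 : ∀ m, ∀ k ∈ d.J1 m, ∀ ν τ σ, Sub m (Lt K (kp m)) τ σ → ∀ x ∈ Lt K (kp k),
    x ∈ d.r1 m ν τ k → x ∈ d.r1 m ν σ k
  r2 : ∀ m ξ, α ≤ ξ → ∀ μ ν : Obj m, Agr (d.E ∩ Iic ξ) μ ν → d.r1 m μ = d.r1 m ν

variable {d α e q M h}

lemma OK.z0 (H : d.OK α q) {m k : I} (l : k ∈ d.J0 m) : Z0 q.u ⊤ m :=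
  (H.j0 m k l).1.mono le_rfl (H.j0 m k l).2.le

lemma OK.z1 (H : d.OK α q) {m k : I} (l : k ∈ d.J1 m) : Z0 q.u ⊤ m :=
  (H.j1 m k l).1.mono le_rfl (H.j1 m k l).2

lemma OK.cEE (H : d.OK α q) (m : I) : #(d.EE q m) ≤ pre m :=
  (mk_le_mk_of_subset (sep_subset _ _)).trans (H.cE.trans (one_le_pre m))

lemma OK.ok0 (H : d.OK α q) (m : I) : (d.s0 α e q M m).OK m := by
  have o := fun k x => (M k x).lo.s0 m le_top
  have c := fun k l => kp_le_pre (H.j0 m k l).2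
  refine ⟨mk_union_le' (pre_inf m) (H.cEE m) (mk_Un (one_le_pre m) c fun k x => (o k x).ca),
    mk_Un (one_le_pre m) c fun k x => (o k x).cB, ?_, fun π _ τ σ l v => gn_mono
      (fun k k1 x b i => ?_) fun k k1 x b => (o k x).dep π b.2 τ σ
        (l.mono fun ξ i => ⟨Or.inr ⟨k, k1, x, b.1, i.1⟩, i.2⟩), fun π _ σ v i => ?_⟩
  · rintro π ⟨k, k1, x, k2, k3⟩
    exact ⟨Or.inr ⟨k, k1, x, k2, ((o k x).bl π k3).1⟩, ((o k x).bl π k3).2⟩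
  · rcases lt_or_ge π.1 α with n | n
    · rwa [rd_lt n] at i ⊢
    · rw [rd_ge n] at i ⊢
      exact H.r0 m k k1 _ n τ σ (l.mono fun ξ j => ⟨Or.inl ⟨j.1, H.z0 k1⟩, j.2⟩) x b.1 i
  · obtain ⟨k, x, k1, k2, -, k3⟩ := mem_gn.1 i
    have := (o k x).val π k2.2 σ v k3
    exact ⟨Or.inr ⟨k, k1.1, x, k2.1, this.1⟩, this.2⟩

lemma OK.ok1 (H : d.OK α q) {m : I} (hm : m < ⊤) : (d.s1 α e q M m).OK := by
  have o := fun k x => (M k x).lo.s1 m hm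
  refine ⟨mk_union_le' (kp_inf m) ((H.cEE m).trans (pre_lt m).le) (mk_Un (S.big m).le
    (fun k l => kp_mono (H.j1 m k l).2) fun k x => (o k x).cb), fun ξ _ μ σ η l => ?_,
    fun ξ k μ ν a => funext fun σ => ?_, fun ξ _ μ τ σ l v => ?_, fun ξ _ μ σ v => ?_,
    fun _ _ _ _ _ _ => id, fun _ _ _ _ l => by cases l⟩
  · simp only [s1, show μ.g.f ξ = some η from l, Option.some_or]
  · simp only [s1, a.2 ξ ⟨k, le_rfl⟩]
    refine congrArg _ (gn_congr (fun j j1 => ?_) fun j j1 x b => congrFun ((o j x).inv ξ b.2 μ ν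
      (a.mono fun ζ i => ⟨Or.inr ⟨j, j1, x, b.1, i.1⟩, i.2⟩)) σ)
    rcases lt_or_ge ξ α with n | n
    · rw [rd_lt n, rd_lt n]
    · rw [rd_ge n, rd_ge n, H.r2 m ξ n μ ν (a.mono fun ζ i => ⟨Or.inl ⟨i.1, H.z1 j1⟩, i.2⟩)]
  · cases n : μ.g.f ξ <;> simp only [s1, n, Option.none_or, Option.some_or]
    · refine gn_mono (fun k k1 x b i => ?_) fun k _ x b => (o k x).fdep ξ b.2 μ τ σ l
      rcases lt_or_ge ξ α with n | n
      · rwa [rd_lt n] at i ⊢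
      · rw [rd_ge n] at i ⊢
        exact H.r1 m k k1 μ τ σ l x b.1 i
    · exact id
  · cases n : μ.g.f ξ <;> simp only [s1, n, Option.none_or, Option.some_or]
    · intro i
      obtain ⟨k, x, -, k2, -, k3⟩ := mem_gn.1 i
      exact (o k x).fval ξ k2.2 μ σ v k3
    · rintro ⟨⟩
      exact μ.lt n

theorem OK.ok (H : d.OK α q) (hM : ∀ k x, DLe (M k x) q) : W.OK (q.1.pu (d.w α e q M h)) := by
  have off : ∀ m < ⊤, Z0 q.u ⊤ m → m ∉ q.u := fun m l z o => lt_irrefl _ (z m o l)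
  refine W.OK.pu' (q.lo.pu' (fun _ _ => Iff.rfl) q.lo.fin (fun m _ => H.ok0 m) (fun m => H.ok1)
    (fun m l => ⟨fun o μ ν a i k k1 x k2 => (M k x).inv ((hM k x).u ▸ o) μ ν
      (a.mono fun ξ n => Or.inr (Or.inr ⟨k, H.j01 m k1, x, k2, n⟩)) (i k k1 x k2), fun o => ?_,
      fun o => ?_,
      (q.lo.s2 m l).he⟩) fun γ m l _ z => ?_) q.top q.ok.root fun γ c o l => ⟨q.ok.big γ c o l, ?_⟩
  · refine union_subset_union (q.ab o) (union_subset_union Subset.rfl ?_)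
    rintro ξ ⟨k, k1, x, k2, k3⟩
    exact ⟨k, H.j01 m k1, x, k2, (M k x).ab ((hM k x).u ▸ o) k3⟩
  · refine union_subset (q.a_dm o) (union_subset (fun ξ n => absurd o (off m l n.2)) ?_)
    rintro ξ ⟨k, k1, -⟩
    exact absurd o (off m l (H.z0 k1))
  · rintro ξ (n | ⟨k, k1, x, k2, k3⟩)
    · exact Or.inr (Or.inl ⟨n.1, n.2.mono le_rfl l.le⟩)
    · exact Or.inr (Or.inr ⟨k, H.j10 γ m l k1, x, k2, (M k x).lo.nest γ m l le_top
        (show blk (M k x).u γ m from (hM k x).u ▸ z) k3⟩)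
  · have := X.cpl (q.cr c) γ l.lt
    refine ae_ball (X.E (q.cr c) γ) (kp γ) (((mk_set_le _).trans (I_le_pre γ)).trans_lt (pre_lt γ))
      fun k k1 => ae_ball _ (kp γ) ((mk_Lt_le _).trans_lt (S.mono (H.j0 γ k k1).2)) fun x _ => ?_
    have := (M k x).ok.big γ c (show γ ∉ (M k x).u from (hM k x).u ▸ o)
      (show Host (M k x).u γ c from (hM k x).u ▸ l)
    rwa [show (M k x).1.cr c = q.cr c from (hM k x).cr l.mem] at this

lemma at_w {m : I} (l : m ∉ q.u → h m ≤ q.H m) : At False ((d.w α e q M h).s2 m) (q.1.s2 m) :=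
  ⟨Iff.rfl, fun _ => rfl, fun _ => Subset.rfl, l, fun _ => False.elim⟩

lemma exists_h (H : d.OK α q) (hM : ∀ k x, DLe (M k x) q)
    (hc : ∀ m < ⊤, ∀ k ∈ d.J0 m, ∀ j ∈ d.J0 m, ∀ x ∈ Lt K (kp k), ∀ y ∈ Lt K (kp j),
      (M k x).H m ≤ (M j y).H m ∨ (M j y).H m ≤ (M k x).H m) :
    ∃ h : ∀ m, HH m, ∀ m < ⊤, h m ≤ q.H m ∧ (d.J0 m = ∅ → q.H m ≤ h m) ∧
      ∀ k ∈ d.J0 m, ∀ x ∈ Lt K (kp k), h m ≤ (M k x).H m := by
  have : ∀ m, ∃ h : HH m, m < ⊤ → h ≤ q.H m ∧ (d.J0 m = ∅ → q.H m ≤ h) ∧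
      ∀ k ∈ d.J0 m, ∀ x ∈ Lt K (kp k), h ≤ (M k x).H m := fun m => by
    by_cases l : m < ⊤ ∧ (d.J0 m).Nonempty
    · obtain ⟨l, k, k1⟩ := l
      obtain ⟨h, h1, -⟩ := hh_lim l (J := Un (d.J0 m) fun k x => {(k, x)})
        (mk_Un (one_le_pre m) (fun k l => kp_le_pre (H.j0 m k l).2) fun _ _ => by
          simpa using one_lt_aleph0.le.trans (pre_inf m)) (fun i => (M i.1.1 i.1.2).H m)
        fun ⟨_, k, k1, x, k2, rfl⟩ ⟨_, j, j1, y, j2, rfl⟩ => hc m l k k1 j j1 x k2 y j2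
      have h2 := fun k k1 x k2 => h1 ⟨(k, x), k, k1, x, k2, rfl⟩
      obtain ⟨⟨x, k2⟩⟩ : Nonempty (Lt K (kp k)) := mk_ne_zero_iff.1
        ((inacc_kp k).pos.trans_le (le_mk_Lt (kp_le_K k))).ne'
      exact ⟨h, fun _ => ⟨(h2 k k1 x k2).trans ((hM k x).H fun o => lt_irrefl _ (H.z0 k1 m o l)),
        fun n => absurd k1 (n ▸ notMem_empty k), h2⟩⟩
    · exact ⟨q.H m, fun l' => ⟨le_rfl, fun _ => le_rfl, fun k k1 => absurd ⟨l', k, k1⟩ l⟩⟩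
  choose h hh using this
  exact ⟨h, hh⟩

end GD

end Pool.Agent.Lib.MP_d4b40b_lc.W
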