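import Pool.Agent.Lib.MP_d4b40b_lc.W.Pull
import Pool.Agent.Lib.MP_d4b40b_lc.W.GlueA

set_option autoImplicit false
set_option linter.unusedSectionVars false

namespace Pool.Agent.Lib.MP_d4b40b_lc.W

open Filter Set Cardinal

variable [S : Sys] [X : Ext S]

/-- the stages below `n`, read at the coordinate `x` of level `n` -/
def dB (q : Cond) (n : I) (x : K) : GD :=
  ⟨fun m => {k | Z0 q.u ⊤ k ∧ k < n ∧ n < m}, fun m => {k | Z0 q.u ⊤ k ∧ k < n ∧ n ≤ m}, ∅,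
    fun _ σ k => σ.t n k x, fun _ _ σ k => σ.t n k x⟩

open Classical in
/-- all stages, read at the coordinate `γ` -/
noncomputable def dP (q : Cond) (γ : K) : GD :=
  ⟨fun m => {k | Z0 q.u ⊤ k ∧ k < m}, fun m => {k | Z0 q.u ⊤ k ∧ k ≤ m}, {γ},
    fun m σ k => σ.t m k γ, fun m ν σ k => if k = m then ν.g.f γ else (pull m ν.g σ).t m k γ⟩

variable {α e γ x : K} {q : Cond} {n m : I} {M M' : I → K → Cond} {h : ∀ m, HH m}

lemma ok_dB (α : K) (q : Cond) (hx : x ∈ Lt K (kp n)) : (dB q n x).OK α q :=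
  ⟨fun _ _ k => ⟨k.1, k.2.1.trans k.2.2⟩, fun _ _ k => ⟨k.1, k.2.1.le.trans k.2.2⟩,
    fun _ _ k => ⟨k.1, k.2.1, k.2.2.le⟩, fun _ _ l _ k => ⟨k.1, k.2.1, k.2.2.trans_lt l⟩,
    by simp [dB], fun _ k l _ _ _ _ s y i => s n k x y l.2.1 l.2.2.le (fun e => absurd e l.2.2.ne)
      (fun _ => hx) i, fun _ k l _ _ _ s y i => s n k x y l.2.1 l.2.2 (fun e => e ▸ hx)
      (fun _ => hx) i, fun _ _ _ _ _ _ => rfl⟩

lemma ok_dP (q : Cond) (hγ : γ < α) : (dP q γ).OK α q := by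
  refine ⟨fun _ _ => id, fun _ _ => id, fun _ _ k => ⟨k.1, k.2.le⟩,
    fun _ _ l _ k => ⟨k.1, k.2.trans_lt l⟩, by simpa [dP] using one_lt_aleph0.le.trans (aleph0_le_aleph 1),
    fun m k l ξ n _ _ s y i => s m k γ y l.2 le_rfl (fun _ => ⟨rfl, hγ.le.trans n⟩)
      (fun e => absurd e (lt_irrefl _)) i, fun m k l ν τ σ s y i => ?_,
    fun m ξ n μ ν a => funext fun σ => funext fun k => ?_⟩
  · dsimp only [dP]
    split_ifs with o
    · exact id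
    · intro j
      obtain ⟨a, k1, k2⟩ := mem_pull.1 j
      exact mem_pull.2 ⟨a, k1, s m k a y (l.2.lt_of_ne o) le_rfl (fun _ => ν.lt k1)
        (fun e => absurd e (lt_irrefl _)) i k2⟩
  · simp only [dP, pull_self, a.2 γ ⟨rfl, hγ.le.trans n⟩]

/-- the properties of the family at stage `n` -/
structure Stg (α e : K) (q : Cond) (n : I) (M : I → K → Cond) (s : K → Cond) : Prop where
  ex : ∀ x ∈ Lt K (kp n), ∀ y ∈ Lt K (kp n), Ex α (s x) (s y)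
  lw : ∀ x ∈ Lt K (kp n), Lw n q (s x)
  H : ∀ x ∈ Lt K (kp n), ∀ m < ⊤, ∀ k ∈ (dB q n x).J0 m, ∀ y ∈ Lt K (kp k),
    (s x).H m ≤ (M k y).H m
  s0 : ∀ x ∈ Lt K (kp n), ∀ m, R0 (cone (s x).1 m) univ ((s x).1.s0 m)
    ((q.1.s0 m).pu ((dB q n x).s0 α e q M m))
  s1 : ∀ x ∈ Lt K (kp n), ∀ m < ⊤, R1 (m ∈ q.u) (cone (s x).1 m) univ ((s x).1.s1 m)
    ((q.1.s1 m).pu ((dB q n x).s1 α e q M m))

lemma exists_base (hM : ∀ k x, DLe (M k x) q)
    (hc : ∀ m < ⊤, n < m → ∀ k < n, Z0 q.u ⊤ k → ∀ j < n, Z0 q.u ⊤ j → ∀ x ∈ Lt K (kp k),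
      ∀ y ∈ Lt K (kp j), (M k x).H m ≤ (M j y).H m ∨ (M j y).H m ≤ (M k x).H m)
    (hn : n < ⊤) (he : e ∈ Lt K (kp n)) :
    ∃ s : K → Cond, (∀ x, DLe (s x) q) ∧ Stg α e q n M s := by
  classical
  obtain ⟨h, hh⟩ := GD.exists_h (ok_dB α q he) hM fun m l k k1 j j1 =>
    hc m l k1.2.2 k k1.2.1 k1.1 j j1.2.1 j1.1
  have ok := fun x (hx : x ∈ Lt K (kp n)) => (ok_dB α q hx).ok (e := e) (h := h) hM
  have em : ∀ m ≤ n, (dB q n e).J0 m = ∅ := fun m l =>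
    eq_empty_of_forall_notMem fun k k1 => l.not_gt k1.2.2
  have a2 : ∀ x, ∀ m ≤ n, At True (q.1.s2 m) (((dB q n x).w α e q M h).s2 m) := fun x m l =>
    ⟨Iff.rfl, fun _ => rfl, fun _ => Subset.rfl, fun _ => (hh m (l.trans_lt hn)).2.1 (em m l),
      fun _ _ _ _ k k1 => absurd k1.2.2 l.not_gt⟩
  refine ⟨fun x => if hx : x ∈ Lt K (kp n) then (ok x hx).cond else q, fun x => ?_,
    fun x hx y hy => ?_, fun x hx => ?_, fun x hx m l k k1 y hy => ?_, fun x hx m => ?_,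
    fun x hx m l => ?_⟩
  · dsimp only
    split_ifs
    · exact dle_cond _ (Lo.of_eq isLowerSet_univ q.lo.s1
        (LoC.pu_left fun m l => GD.at_w fun _ => (hh m l).1))
    · exact DLe.refl _
  · simp only [dif_pos hx, dif_pos hy]
    refine Lo.norm_false (Lo.trans (isLowerSet_Iio α) (lo_norm _ _ _ _)
      (Lo.of_eq (isLowerSet_Iio α) (ok y hy).lo.s1 ⟨fun m _ => R0.pu_congr ⟨fun _ k => k.1,
        fun _ k _ => k.1, fun π k l σ _ => gn_congr (fun j j1 => ?_) fun _ _ _ _ => rfl⟩,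
        fun m _ => R1.pu_congr ⟨fun _ k => k.1.1, fun _ _ _ _ _ _ => rfl,
          fun _ ξ k l ν σ _ => congrArg (ν.g.f ξ).or (gn_congr (fun j j1 => ?_) fun _ _ _ _ => rfl)⟩,
        fun m _ => At.refl _ _⟩)) (nrm_norm _)
    · have := l ((ok_dB α q hx).z0 j1)
      rw [rd_lt this, rd_lt this]
    · have := l ((ok_dB α q hx).z1 j1).blk
      rw [rd_lt this, rd_lt this]
  · simp only [dif_pos hx]
    refine lw_cond _ (Lo.of_cone isLowerSet_univ ((ok x hx).lo.mono le_top).s1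
      ((LoC.refl _ _ _ _ _).le_pu' (fun _ _ => Iff.rfl) (fun m l => ?_) (fun m l => ?_)
        fun m l => (a2 x m l.le).mono fun _ _ => trivial)) (at_le_pu (At.refl _ _) (a2 x n le_rfl))
    · exact ⟨fun _ k => k.1.elim (fun i => i.1.elim) fun ⟨_, i, _⟩ => absurd i.2.2 l.not_gt,
        fun _ ⟨⟨_, i, _⟩, _⟩ => absurd i.2.2 l.not_gt, fun _ ⟨⟨_, i, _⟩, _⟩ => absurd i.2.2 l.not_gt⟩
    · have : ∀ ξ, ξ ∉ ((dB q n x).s1 α e q M m).b := fun _ k =>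
        k.elim (fun i => i.1.elim) fun ⟨_, i, _⟩ => absurd i.2.2 l.not_ge
      exact ⟨fun _ k => absurd k.1.1 (this _), fun _ _ k => absurd k.1 (this _),
        fun _ _ k => absurd k.1 (this _)⟩
  · simp only [dif_pos hx]
    exact (hh m l).2.2 k k1 y hy
  · simp only [dif_pos hx]
    exact R0.refl _ _ _
  · simp only [dif_pos hx]
    exact R1.refl _ _ _ _

lemma Stg.fix {s s' : K → Cond} (H : Stg α e q n M s) (hq : ∀ x, DLe (s x) q)
    (f : ∀ x ∈ Lt K (kp n), Fix n (s' x) (s x))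
    (ex : ∀ x ∈ Lt K (kp n), ∀ y ∈ Lt K (kp n), Ex α (s' x) (s' y)) : Stg α e q n M s' := by
  have c : ∀ x ∈ Lt K (kp n), ∀ m ξ σ, cone (s' x).1 m ξ σ → cone (s x).1 m ξ σ :=
    fun x hx m ξ σ => Lo.cone (f x hx).1 isLowerSet_univ le_top fun _ => trivial
  refine ⟨ex, fun x hx => (H.lw x hx).trans (f x hx).2, fun x hx m l k k1 y hy =>
    ((f x hx).1.H fun o => lt_irrefl _ ((ok_dB α q hx).z0 k1 m ((hq x).u ▸ o) l)).trans
      (H.H x hx m l k k1 y hy), fun x hx m => ?_, fun x hx m l => ?_⟩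
  · exact (F0_univ _ _ _ ▸ (f x hx).1.s0 m le_top).trans (H.s0 x hx m) fun ξ _ => c x hx m ξ
  · exact ((F1_univ _ _ _ ▸ (f x hx).1.s1 m l).mono (Set.ext_iff.1 (hq x).u m).symm Subset.rfl
      (fun _ _ _ _ => id) fun _ _ => id).trans (H.s1 x hx m l) (fun _ ξ _ => c x hx m ξ)
      fun _ σ i ζ => c x hx m ζ σ (i ζ)

section key

variable (hM : ∀ k x, DLe (M k x) q) (e0 : ∀ k < n, M' k = M k) (H : Stg α e q n M' (M n))
  (hz : Z0 q.u ⊤ n) (hx : x ∈ Lt K (kp n)) (he : e ∈ Lt K (kp n))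

include hM e0 H hz hx he

lemma key0 (l : n < m) {C : Cone} (c1 : ∀ ξ σ, C ξ σ → cone (M n x).1 m ξ σ)
    (c2 : ∀ ξ σ, α ≤ ξ → C ξ σ → x ∈ σ.t m n γ) :
    R0 C univ ((q.1.s0 m).pu ((dP q γ).s0 α e q M m)) ((M n x).1.s0 m) := by
  refine ⟨fun ξ k => Or.inr (Or.inr ⟨n, ⟨hz, l⟩, x, hx, k.1⟩),
    fun π k _ => Or.inr ⟨n, ⟨hz, l⟩, x, hx, k⟩, fun π k _ σ c => ?_⟩
  by_cases o : π ∈ (q.1.s0 m).Bl
  · rw [S0.pu_pos o]
    exact (((hM n x).s0 m le_top).n π o (fun _ => trivial) σ (c1 _ _ c)).symm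
  rw [S0.pu_neg o]
  refine gn_key (J' := (dB q n x).J0 m) (n := n) (fun k => ⟨fun i => ⟨⟨i.1, i.2.1.trans l⟩, i.2.1⟩,
    fun i => ⟨i.1.1, i.2, l⟩⟩) ⟨hz, l⟩
    (B' := fun k x => x ∈ Lt K (kp k) ∧ π ∈ ((M' k x).1.s0 m).Bl)
    (fun k i => ⟨?_, ?_, ?_⟩) (fun ⟨k, k1, y, k2⟩ =>
      ((H.s0 x hx m).n π (Or.inr ⟨k, k1, y, k2⟩) trivial σ (c1 _ _ c)).trans
        (congrFun (S0.pu_neg o) σ)) ?_
  · rw [e0 k i.2.1]
  · rw [e0 k i.2.1]
  · rcases lt_or_ge π.1 α with j | j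
    · rw [rd_lt j, rd_lt j]
    · rw [rd_ge j, rd_ge j]
      exact σ.cons k n m γ x i.2.1 l (c2 _ _ j c)
  · rcases lt_or_ge π.1 α with j | j
    · have b := ((H.ex e he x hx).s0 m le_top).bl π k fun _ => j
      exact ⟨e, rd_lt j _ _, ⟨he, b⟩,
        (((H.ex x hx e he).s0 m le_top).n π b (fun _ => j) σ (c1 _ _ c)).symm⟩
    · exact ⟨x, (rd_ge j _ _).trans (c2 _ _ j c), ⟨hx, k⟩, rfl⟩

lemma key1 (l : n ≤ m) (hm : m < ⊤) {ξ : K} (k : ξ ∈ (M n x).b m) {ν : Obj m} {σ : Info}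
    (c1 : cone (M n x).1 m ξ (pull m ν.g σ))
    (c2 : α ≤ ξ → x ∈ (dP q γ).r1 m ν σ n ∧ ∀ k < n, (dP q γ).r1 m ν σ k = σ.t n k x) :
    ((q.1.s1 m).pu ((dP q γ).s1 α e q M m)).f ξ ν σ = ((M n x).1.s1 m).f ξ ν σ := by
  have off : m ∉ q.u := fun o => l.not_gt (hz m o hm)
  have off' : ∀ y, m ∉ (M n y).u := fun y => (hM n y).u ▸ off
  by_cases o : ξ ∈ q.b m
  · exact (congrFun (congrFun (if_pos o) ν) σ).trans
      (((hM n x).s1 m hm).f off ξ o (fun _ => trivial) ν σ c1).symm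
  refine (congrFun (congrFun (if_neg o) ν) σ).trans ?_
  cases v : ν.g.f ξ with
  | some η => simp only [GD.s1, v, Option.some_or, ((M n x).lo.s1 m hm).ow ξ k ν σ η v]
  | none =>
  simp only [GD.s1, v, Option.none_or]
  refine gn_key (J' := (dB q n x).J1 m) (n := n) (fun k => ⟨fun i => ⟨⟨i.1, i.2.1.le.trans l⟩,
    i.2.1⟩, fun i => ⟨i.1.1, i.2, l⟩⟩) ⟨hz, l⟩
    (B' := fun k x => x ∈ Lt K (kp k) ∧ ξ ∈ (M' k x).b m)
    (N' := fun k x => ((M' k x).1.s1 m).f ξ ν σ) (r' := rd α e ξ ((dB q n x).r1 m ν σ))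
    (fun k i => ⟨?_, ?_, ?_⟩) (fun ⟨k, k1, y, k2⟩ =>
      ((H.s1 x hx m hm).f off ξ (Or.inr (Or.inr ⟨k, k1, y, k2⟩)) trivial ν σ c1).trans
        ((congrFun (congrFun (if_neg o) ν) σ).trans ?_)) ?_
  · rw [e0 k i.2.1]
  · rw [e0 k i.2.1]
  · rcases lt_or_ge ξ α with j | j
    · rw [rd_lt j, rd_lt j]
    · rw [rd_ge j, rd_ge j]
      exact (c2 j).2 k i.2.1
  · simp only [GD.s1, v, Option.none_or]
  · rcases lt_or_ge ξ α with j | j
    · have b := (H.ex e he x hx).b hm ⟨k, j⟩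
      exact ⟨e, rd_lt j _ _, ⟨he, b⟩,
        (((H.ex x hx e he).s1 m hm).f (off' e) ξ b (fun _ => j) ν σ c1).symm⟩
    · exact ⟨x, (rd_ge j _ _).trans (c2 j).1, ⟨hx, k⟩, rfl⟩

lemma key_act (hγ : γ < α) (hn : n < ⊤)
    (hh : ∀ m < ⊤, h m ≤ q.H m ∧ ∀ k ∈ (dP q γ).J0 m, ∀ y ∈ Lt K (kp k), h m ≤ (M k y).H m)
    {P : Cond} (hP : P.1 = (q.1.pu ((dP q γ).w α e q M h)).norm) (hd : DLe P q) {μ : Obj n}
    (a : Adm P n μ) (v : x ∈ μ.g.f γ) : act P n μ ≤ M n x := by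
  obtain ⟨a', lw⟩ := act_lw ((hd.lw hn).trans (H.lw x hx)) a
  have e0' : ∀ m, P.1.s0 m = (q.1.s0 m).pu ((dP q γ).s0 α e q M m) := fun m => by rw [hP]; rfl
  have e1' : ∀ m, P.1.s1 m = (q.1.s1 m).pu ((dP q γ).s1 α e q M m) := fun m => by rw [hP]; rfl
  have gb : γ ∈ P.b n := (congrArg S1.b (e1' n)).ge (Or.inr (Or.inl ⟨rfl, hz⟩))
  have off : ∀ m, n < m → m < ⊤ → m ∉ q.u := fun m l k o => l.not_gt (hz m o k)
  have c1 : ∀ m, n < m → ∀ ξ σ, cone2 (act P n μ).1 (act (M n x) n μ).1 m ξ σ →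
      cone (M n x).1 m ξ σ := fun m l ξ σ c =>
    ((info_act_out a' fun i => l.not_ge i.1).of_univ _).trans c.2
  have c2 : ∀ m, n < m → ∀ ξ σ, α ≤ ξ → cone2 (act P n μ).1 (act (M n x) n μ).1 m ξ σ →
      x ∈ σ.t m n γ := fun m l ξ σ i c => c.1 m n γ x l le_rfl (fun _ => hγ.le.trans i)
    (fun e => absurd e (lt_irrefl _)) hx
    (info_act_new a l ((hd.u ▸ hz : Z0 P.u ⊤ n).blk.mono le_rfl le_top) gb v)
  refine (DLe.le (Lo.of_joint isLowerSet_univ (act (M n x) n μ).lo.s1 ?_)).trans (act_le a')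
  have := LoC.mix' (T := univ) (t := True) (r := (act P n μ).1) (s := (act (M n x) n μ).1)
    (C := cone2 (act P n μ).1 (act (M n x) n μ).1) (act_on a')
    (lw.1.toLoC.cone fun _ _ _ _ _ k => k.1) (fun _ => lw.2)
    (fun m l => by
      rw [act_s0_out a fun i => l.not_ge i.1, act_s0_out a' fun i => l.not_ge i.1, F0_univ, e0']
      exact key0 hM e0 H hz hx he l (c1 m l) (c2 m l))
    (fun m l k => by
      rw [act_s1_out a fun i => l.not_ge i.1, act_s1_out a' fun i => l.not_ge i.1, F1_univ, e1']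
      refine ⟨fun ξ i => Or.inr (Or.inr ⟨n, ⟨hz, l.le⟩, x, hx, i.1⟩), fun o => ?_,
        fun _ ξ i _ ν σ c => key1 hM e0 H hz hx he l.le k i (c1 m l _ _ c) fun j => ?_⟩
      · exact absurd ((hM n x).u ▸ ((act_u a').le o).resolve_left l.ne') (off m l k)
      · have := c2 m l _ _ j c
        refine ⟨(if_neg l.ne).trans this, fun k i => (if_neg (i.trans l).ne).trans ?_⟩
        rw [(pull m ν.g σ).cons k n m γ x i l this, pull_lt l])
    (fun _ => by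
      rw [act_s1_self a, act_s1_self a', F1_univ, e1']
      refine ⟨fun ξ i => Or.inr (Or.inr ⟨n, ⟨hz, le_rfl⟩, x, hx, i.1⟩), fun _ ξ i _ σ c =>
        key1 hM e0 H hz hx he le_rfl hn i (((info_act_in a' le_rfl (Z0.self _ _)).trans
          ((Sub.of_Iic fun ζ => (c ζ).2).pull (fun _ _ => rfl) (subset_univ _))).of_univ _)
        fun _ => ⟨(if_pos rfl).trans v, fun k i => (if_neg i.ne).trans ?_⟩,
        fun o => absurd trivial o⟩
      rw [pull_self, show μ.g.f γ = some x from v, Option.bind_some])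
    fun m l k => by
      rw [act_s2_out a fun i => l.not_ge i.1, act_s2_out a' fun i => l.not_ge i.1, hP]
      have o : ¬ ((M n x).1.s2 m).on := (show m ∉ (M n x).u from (hM n x).u ▸ off m l k)
      exact ⟨iff_of_false (off m l k) o, fun i => absurd i o, fun i => absurd i o,
        fun _ => (hh m k).2 n ⟨hz, l⟩ x hx, fun _ _ _ i => (nA_sub _ _ i).2 n ⟨hz, l⟩ x hx⟩
  rwa [Raw.mix_self, Raw.mix_self] at this

end key

theorem glue (α : K) (q0 : Cond) (G : ∀ n, (Xi n → Cond) → Prop)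
    (hG : ∀ n < ⊤, Z0 q0.u ⊤ n → ∀ f : Xi n → Cond, (∀ x, DLe (f x) q0) →
      (∀ x y, Ex α (f x) (f y)) →
      ∃ g : Xi n → Cond, (∀ x, Fix n (g x) (f x)) ∧ (∀ x y, Ex α (g x) (g y)) ∧ G n g) :
    ∃ M : ∀ n, Xi n → Cond, (∀ n < ⊤, Z0 q0.u ⊤ n → G n (M n)) ∧
      ∃ P : K → Cond, ∀ γ < α, DLe (P γ) q0 ∧ ∀ n < ⊤, Z0 q0.u ⊤ n → γ ∈ (P γ).a n ∧
        ∀ (μ : Obj n) (x : Xi n), Adm (P γ) n μ → x.1 ∈ μ.g.f γ → act (P γ) n μ ≤ M n x := by
  classical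
  obtain ⟨⟨e, he⟩⟩ : Nonempty (Lt K ℵ₁) := mk_ne_zero_iff.1
    ((aleph_pos 1).trans_le (le_mk_Lt ((one_le_pre ⊤).trans ks_lt.le))).ne'
  have he' : ∀ n, e ∈ Lt K (kp n) := fun n => Lt_mono (S.big n).le he
  have ch : ∀ {M : I → K → Cond} {n : I}, (∀ k < n, k < ⊤ → Z0 q0.u ⊤ k →
      Stg α e q0 k (fun j => if j < k then M j else fun _ => q0) (M k)) → (∀ k x, DLe (M k x) q0) →
      ∀ m < ⊤, ∀ k < n, k < m → Z0 q0.u ⊤ k → ∀ j < n, j < m → Z0 q0.u ⊤ j → ∀ x ∈ Lt K (kp k),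
      ∀ y ∈ Lt K (kp j), (M k x).H m ≤ (M j y).H m ∨ (M j y).H m ≤ (M k x).H m := by
    intro M n h hM m l k k1 k2 k3 j j1 j2 j3 x hx y hy
    rcases lt_trichotomy k j with i | rfl | i
    · simpa only [if_pos i] using Or.inr ((h j j1 (j2.trans l) j3).H y hy m l k ⟨k3, i, j2⟩ x hx)
    · exact Or.inl (((h k k1 (k2.trans l) k3).ex x hx y hy).H
        ((hM k y).u ▸ fun o => k2.not_gt (k3 m o l)))
    · simpa only [if_pos i] using Or.inl ((h k k1 (k2.trans l) k3).H x hx m l j ⟨j3, i, k2⟩ y hy)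
  obtain ⟨M, hM⟩ := wf_build (T := I) (fun _ : K => q0) (fun n g s => (∀ x, DLe (s x) q0) ∧
      (n < ⊤ → Z0 q0.u ⊤ n → G n (fun x => s x.1) ∧ Stg α e q0 n g s)) fun n g ih => by
    by_cases l : n < ⊤ ∧ Z0 q0.u ⊤ n
    · have h1 : ∀ k x, DLe ((if k < n then g k else fun _ => q0) x) q0 := fun k x => by
        split_ifs with i
        exacts [(ih k i).1 x, DLe.refl _]
      obtain ⟨s, s1, s2⟩ := exists_base (α := α) (M := fun k => if k < n then g k else fun _ => q0)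
        h1 (fun m i i' k k1 k2 j j1 => ch (fun k k1 k2 k3 => by
          have := ((ih k k1).2 k2 k3).2
          rwa [if_pos k1, show (fun j => if j < k then (if j < n then g j else fun _ => q0)
            else fun _ => q0) = fun j => if j < k then g j else fun _ => q0 from funext fun j => by
              by_cases i : j < k
              · rw [if_pos i, if_pos i, if_pos (i.trans k1)]
              · rw [if_neg i, if_neg i]]) h1 m i k k1 (k1.trans i') k2 j j1 (j1.trans i')) l.1 (he' n)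
      obtain ⟨f, f1, f2, f3⟩ := hG n l.1 l.2 (fun x => s x.1) (fun x => s1 x.1)
        fun x y => s2.ex _ x.2 _ y.2
      refine ⟨fun x => if i : x ∈ Lt K (kp n) then f ⟨x, i⟩ else q0, fun x => ?_, fun _ _ =>
        ⟨?_, s2.fix s1 (fun x i => ?_) fun x i y j => ?_⟩⟩
      · dsimp only
        split_ifs with i
        exacts [(f1 ⟨x, i⟩).1.trans (s1 x), DLe.refl _]
      · simpa only [Subtype.coe_prop, dif_pos] using f3
      · simpa only [dif_pos i] using f1 ⟨x, i⟩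
      · simpa only [dif_pos i, dif_pos j] using f2 ⟨x, i⟩ ⟨y, j⟩
    · exact ⟨fun _ => q0, fun _ => DLe.refl _, fun i j => absurd ⟨i, j⟩ l⟩
  have h1 := fun k => (hM k).1
  have : ∀ γ, ∃ P : Cond, γ < α → DLe P q0 ∧ ∀ n < ⊤, Z0 q0.u ⊤ n → γ ∈ P.a n ∧
      ∀ (μ : Obj n) (x : Xi n), Adm P n μ → x.1 ∈ μ.g.f γ → act P n μ ≤ M n x := fun γ => by
    by_cases l : γ < α
    · obtain ⟨h, hh⟩ := GD.exists_h (ok_dP q0 l) h1 fun m i k k1 j j1 =>
        ch (n := ⊤) (fun k _ k2 k3 => ((hM k).2 k2 k3).2) h1 m i k (k1.2.trans i) k1.2 k1.1 j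
          (j1.2.trans i) j1.2 j1.1
      have ok := (ok_dP q0 l).ok (e := e) (h := h) h1
      have d := dle_cond ok (Lo.of_eq isLowerSet_univ q0.lo.s1
        (LoC.pu_left fun m l => GD.at_w fun _ => (hh m l).1))
      exact ⟨ok.cond, fun _ => ⟨d, fun n i z => ⟨Or.inr (Or.inl ⟨rfl, z⟩), fun μ x a v =>
        key_act h1 (fun k j => if_pos j) ((hM n).2 i z).2 z x.2 (he' n) l i
          (fun m j => ⟨(hh m j).1, (hh m j).2.2⟩) rfl d a v⟩⟩⟩
    · exact ⟨q0, fun i => absurd i l⟩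
  choose P hP using this
  exact ⟨fun n x => M n x.1, fun n i z => ((hM n).2 i z).1, P, hP⟩

end Pool.Agent.Lib.MP_d4b40b_lc.W
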