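import Pool.Agent.Lib.MP_d4b40b_lc.W.Setup

set_option autoImplicit false
set_option linter.unusedSectionVars false

namespace Pool.Agent.Lib.MP_d4b40b_lc.W

open Filter Set Cardinal

variable [S : Sys] {P : Type} [Preorder P]

/-- `q` forces the negation -/
def Out (X : P → Prop) (q : P) : Prop := ∀ r ≤ q, ¬ X r

/-- regular open sets of conditions -/
def RO (X : P → Prop) : Prop :=
  (∀ a b, X a → b ≤ a → X b) ∧ ∀ q, (∀ r ≤ q, ∃ r' ≤ r, X r') → X q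

/-- a name for a tree: `N z p` says that `p` puts `z` into the tree, `D z w p` that `p` puts `z`
below `w` -/
structure TS {Z : Type} (lv : Z → K) (N : Z → P → Prop) (D : Z → Z → P → Prop) : Prop where
  Nm : ∀ z a b, N z a → b ≤ a → N z b
  Dm : ∀ z w a b, D z w a → b ≤ a → D z w b
  small : ∀ δ, #{z | lv z = δ ∧ ∃ p, N z p} < #K
  pred : ∀ w p δ, N w p → δ < lv w → ∃ q ≤ p, ∃ z, lv z = δ ∧ D z w q
  uniq : ∀ z z' w p, D z w p → D z' w p → lv z = lv z' → z = z'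
  lin : ∀ z z' w p, D z w p → D z' w p → lv z < lv z' → D z z' p
  tr : ∀ z z' w p, D z z' p → D z' w p → D z w p
  DN : ∀ z w p, D z w p → N z p ∧ N w p

variable (P) in
/-- the combinatorial properties of the forcing -/
structure Iface where
  /-- the level is activated -/
  on : I → P → Prop
  /-- the core at an activated level -/
  cr : P → ∀ n, D n
  on_mono : ∀ n a b, on n a → b ≤ a → on n b ∧ cr b n = cr a n
  on_dense : ∀ n p, ∃ q ≤ p, on n q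
  on_top : ∀ p, on ⊤ p ∧ dm (cr p ⊤) = Set.univ
  /-- the lower collapse -/
  C : I → K → K → K → P → Prop
  C_mono : ∀ n β i v a b, C n β i v a → b ≤ a → C n β i v b
  C_fn : ∀ n β i v v' a, C n β i v a → C n β i v' a → v = v'
  C_dense : ∀ n p, on n p → ∀ β ∈ dm (cr p n), ∀ v ≤ β,
    ∃ q ≤ p, ∃ i ∈ Lt K (Order.succ (pre n)), C n β i v q
  /-- the upper collapse -/
  F : I → K → K → K → P → Prop
  F_mono : ∀ n β i v a b, F n β i v a → b ≤ a → F n β i v b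
  F_fn : ∀ n β i v v' a, F n β i v a → F n β i v' a → v = v'
  F_dense : ∀ n < ⊤, ∀ p, on n p → ∀ β ∈ Lt K (kp n), ∀ v ≤ β,
    ∃ q ≤ p, ∃ i ∈ Lt K (Order.succ #(dm (cr p n))), F n β i v q
  dec : ∀ (T : Type), #T ≤ ℵ₁ → ∀ X : T → P → Prop, (∀ t, RO (X t)) → ∀ p,
    ∃ q ≤ p, ∀ t, X t q ∨ Out (X t) q
  cover : ∀ m < ⊤, ∀ (T : Type), #T ≤ kp m → ∃ (Φ : Type) (Sig : Φ → T → P → Prop),
    #Φ ≤ 2 ^ kp m ∧ (∀ φ t a b, Sig φ t a → b ≤ a → Sig φ t b) ∧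
    ∀ X : T → P → Prop, (∀ t, RO (X t)) → ∀ p, ∃ q ≤ p, ∃ φ, ∀ t, ∀ r ≤ q,
      (Sig φ t r → X t r) ∧ (X t r → ∃ r' ≤ r, Sig φ t r')
  bound_succ : ∀ X : K → K → P → Prop, (∀ ξ γ a b, X ξ γ a → b ≤ a → X ξ γ b) →
    (∀ ξ γ γ' q, X ξ γ q → X ξ γ' q → γ = γ') → (∀ ξ γ q, X ξ γ q → γ ∈ Lt K (Order.succ ks)) →
    ∀ p, ∃ q ≤ p, ∃ j ∈ Lt K (Order.succ ks), ∀ ξ ∈ Lt K ks, ∀ γ, ∀ r ≤ q, X ξ γ r → γ < j
  compat : ∀ q : K → P, ∀ᶠ α0 in (UU : Filter K), ∃ x ≤ q α0, ∀ y ≤ x,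
    ∀ᶠ α in (UU : Filter K), ∃ r ≤ y, r ≤ q α
  big : ∀ ι : I → K, Function.Injective ι → (∀ k, #(Iio (ι k)) ≤ ks) →
    ∀ (V : K → K → P → Prop) (p : P), (∀ γ i a b, V γ i a → b ≤ a → V γ i b) →
    (∀ γ, ∀ q ≤ p, ∃ r ≤ q, ∃ i ∈ Lt K (Order.succ ks), V γ i r) →
    (∀ γ γ' i, ∀ r ≤ p, V γ i r → V γ' i r → ∀ k, ∀ ξ ∈ Lt K ks, C ⊤ γ (ι k) ξ r →
      ∃ r' ≤ r, C ⊤ γ' (ι k) ξ r') → False
  /-- codes of the members of the base of the ultrafilter -/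
  Dat : Type
  mk_Dat : #Dat < #K
  /-- the condition puts the ordinal into the coded set -/
  Mem : Dat → K → P → Prop
  /-- the condition puts the coded set into the base -/
  InD : Dat → P → Prop
  Mem_mono : ∀ d ξ a b, Mem d ξ a → b ≤ a → Mem d ξ b
  Mem_lt : ∀ d ξ a, Mem d ξ a → ξ ∈ Lt K ks
  InD_mono : ∀ d a b, InD d a → b ≤ a → InD d b
  u_dec : ∀ X : K → P → Prop, (∀ ξ, RO (X ξ)) → ∀ s, ∃ r ≤ s, ∃ d, InD d r ∧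
    ((∀ ξ, ∀ r' ≤ r, Mem d ξ r' → X ξ r') ∨ ∀ ξ, ∀ r' ≤ r, Mem d ξ r' → Out (X ξ) r')
  u_dir : ∀ d d' s, InD d s → InD d' s →
    ∃ d'', InD d'' s ∧ ∀ ξ r, Mem d'' ξ r → Mem d ξ r ∧ Mem d' ξ r
  u_big : ∀ d r, InD d r → ∀ n < ⊤, ∃ s ≤ r, ∃ Z : Set K, kp n ≤ #Z ∧ ∀ ξ ∈ Z, Mem d ξ s
  branch : ∀ (Z : Type) (lv : Z → K) (N : Z → P → Prop) (D : Z → Z → P → Prop), TS lv N D →
    ∀ p, (∀ δ, ∃ q ≤ p, ∃ z, lv z = δ ∧ N z q) →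
    ∃ r ≤ p, ∃ B : Z → P → Prop, (∀ z a b, B z a → b ≤ a → B z b) ∧ (∀ z e, B z e → N z e) ∧
      (∀ δ, ∀ e ≤ r, ∃ e' ≤ e, ∃ z, lv z = δ ∧ B z e') ∧
      ∀ z z' e, B z e → B z' e → lv z ≤ lv z' → z = z' ∨ ∃ e' ≤ e, D z z' e'

end Pool.Agent.Lib.MP_d4b40b_lc.W
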