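import Pool.Agent.Lib.MP_d4b40b_lc.W.Setup

set_option autoImplicit false
set_option linter.unusedSectionVars false

namespace Pool.Agent.Lib.MP_d4b40b_lc.W

open Filter Set Cardinal

open Classical in
/-- the witness of a predicate, if there is one -/
noncomputable def opt {α : Type} (P : α → Prop) : Option α :=
  if h : ∃ x, P x then some h.choose else none

lemma opt_spec {α : Type} {P : α → Prop} {x : α} (h : x ∈ opt P) : P x := by
  unfold opt at h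
  split_ifs at h with k
  · cases h; exact k.choose_spec
  · cases h

lemma mem_opt {α : Type} {P : α → Prop} (h : ∀ x y, P x → P y → x = y) {x : α} :
    x ∈ opt P ↔ P x := by
  refine ⟨opt_spec, fun k => ?_⟩
  have k' : ∃ x, P x := ⟨x, k⟩
  unfold opt
  rw [dif_pos k', h _ _ k'.choose_spec k]
  rfl

lemma opt_eq {α : Type} {a b : Option α} (h1 : ∀ x ∈ a, x ∈ b) (h2 : ∀ x ∈ b, x ∈ a) : a = b :=
  Option.ext fun x => ⟨h1 x, h2 x⟩

variable [S : Sys]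

namespace PM

variable {g h k : PM} {ξ ξ' η η' : K}

lemma inj (g : PM) (h1 : η ∈ g.f ξ) (h2 : η ∈ g.f ξ') : ξ = ξ' := by
  rcases lt_trichotomy ξ ξ' with l | l | l
  · exact absurd (g.inc _ _ _ _ h1 h2 l) (lt_irrefl _)
  · exact l
  · exact absurd (g.inc _ _ _ _ h2 h1 l) (lt_irrefl _)

lemma mono (g : PM) (h1 : η ∈ g.f ξ) (h2 : η' ∈ g.f ξ') (l : ξ ≤ ξ') : η ≤ η' := by
  rcases l.eq_or_lt with rfl | l
  · exact (Option.mem_unique h1 h2).le
  · exact (g.inc _ _ _ _ h1 h2 l).le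

lemma lt_of (g : PM) (h1 : η ∈ g.f ξ) (h2 : η' ∈ g.f ξ') (l : η < η') : ξ < ξ' :=
  not_le.1 fun l' => absurd (g.mono h2 h1 l') (not_le.2 l)

lemma le_of (g : PM) (h1 : η ∈ g.f ξ) (h2 : η' ∈ g.f ξ') (l : η ≤ η') : ξ ≤ ξ' :=
  not_lt.1 fun l' => absurd (g.inc _ _ _ _ h2 h1 l') (not_lt.2 l)

/-- the inverse map -/
noncomputable def inv (g : PM) : PM :=
  ⟨fun η => opt fun ξ => η ∈ g.f ξ, fun η η' _ _ h1 h2 l =>
    g.lt_of (opt_spec (P := fun ξ => η ∈ g.f ξ) h1) (opt_spec (P := fun ξ => η' ∈ g.f ξ) h2) l⟩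

lemma mem_inv : ξ ∈ g.inv.f η ↔ η ∈ g.f ξ :=
  mem_opt (P := fun ξ => η ∈ g.f ξ) fun _ _ => g.inj

lemma inv_eq (h : η ∈ g.f ξ) : g.inv.f η = some ξ := mem_inv.2 h

lemma mem_comp : η ∈ (h.comp g).f ξ ↔ ∃ a, a ∈ g.f ξ ∧ η ∈ h.f a := Option.mem_bind_iff

lemma comp_eq (l : η ∈ g.f ξ) : (h.comp g).f ξ = h.f η := by
  have : g.f ξ = some η := l
  simp only [comp, this, Option.bind_some]

lemma comp_assoc (k h g : PM) : (k.comp h).comp g = k.comp (h.comp g) :=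
  PM.ext (funext fun ξ => (Option.bind_assoc (g.f ξ) h.f k.f).symm)

lemma inv_comp (h g : PM) : (h.comp g).inv = g.inv.comp h.inv :=
  PM.ext (funext fun η => Option.ext fun ξ => by
    show ξ ∈ (h.comp g).inv.f η ↔ ξ ∈ (g.inv.comp h.inv).f η
    simp only [mem_inv, mem_comp, and_comm])

lemma inv_inv (g : PM) : g.inv.inv = g :=
  PM.ext (funext fun _ => Option.ext fun _ => mem_inv.trans mem_inv)

/-- the image of a set -/
def im (g : PM) (a : Set K) : Set K := {η | ∃ ξ ∈ a, η ∈ g.f ξ}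

lemma im_mono (g : PM) {a b : Set K} (l : a ⊆ b) : g.im a ⊆ g.im b :=
  fun _ ⟨ξ, k1, k2⟩ => ⟨ξ, l k1, k2⟩

lemma mem_im {a : Set K} (l : η ∈ g.f ξ) : η ∈ g.im a ↔ ξ ∈ a :=
  ⟨fun ⟨_, k1, k2⟩ => g.inj k2 l ▸ k1, fun k => ⟨ξ, k, l⟩⟩

lemma im_comp (h g : PM) (a : Set K) : h.im (g.im a) = (h.comp g).im a :=
  Set.ext fun _ => ⟨fun ⟨b, ⟨ξ, k1, k2⟩, k3⟩ => ⟨ξ, k1, mem_comp.2 ⟨b, k2, k3⟩⟩,
    fun ⟨ξ, k1, k2⟩ => let ⟨b, k3, k4⟩ := mem_comp.1 k2; ⟨b, ⟨ξ, k1, k3⟩, k4⟩⟩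

lemma mk_im (g : PM) (a : Set K) : #(g.im a) ≤ #a := by
  refine mk_le_of_injective (f := fun η => (⟨η.2.choose, η.2.choose_spec.1⟩ : a)) fun x y e => ?_
  have h1 := x.2.choose_spec.2
  have h2 := y.2.choose_spec.2
  rw [show x.2.choose = y.2.choose from congrArg Subtype.val e] at h1
  exact Subtype.ext (Option.mem_unique h1 h2)

lemma im_congr {a : Set K} (l : ∀ ξ ∈ a, g.f ξ = h.f ξ) : g.im a = h.im a :=
  Set.ext fun _ => ⟨fun ⟨ξ, k1, k2⟩ => ⟨ξ, k1, l ξ k1 ▸ k2⟩, fun ⟨ξ, k1, k2⟩ => ⟨ξ, k1, l ξ k1 ▸ k2⟩⟩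

end PM

lemma Obj.comp_comp {m : I} (ν : Obj m) (h g : PM) : (ν.comp h).comp g = ν.comp (h.comp g) :=
  Obj.ext rfl (PM.comp_assoc _ _ _)

lemma Obj.lt {m : I} (ν : Obj m) {ξ η : K} (h : η ∈ ν.g.f ξ) : η ∈ Lt K (kp m) :=
  dm_sub _ (ν.val _ _ h)

lemma agr_comp {m : I} {b b' : Set K} {μ ν : Obj m} {g h : PM} (e : Agr b' μ ν)
    (l : ∀ ξ ∈ b, g.f ξ = h.f ξ) (l' : g.im b ⊆ b') : Agr b (μ.comp g) (ν.comp h) := by
  refine ⟨e.1, fun ξ k => ?_⟩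
  show (g.f ξ).bind μ.g.f = (h.f ξ).bind ν.g.f
  rw [← l ξ k]
  cases e' : g.f ξ with
  | none => rfl
  | some η => exact e.2 η (l' ⟨ξ, k, e'⟩)

/-- coherent systems of maps between the levels -/
@[ext] structure Info where
  t : I → I → K → Option K
  cons : ∀ γ β c ξ ξ', γ < β → β < c → ξ' ∈ t c β ξ → t c γ ξ = t β γ ξ'

/-- inclusion of the information that is visible from the coordinates `T` of level `m` -/
def Sub (m : I) (T : Set K) (τ σ : Info) : Prop :=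
  ∀ c γ ξ η, γ < c → c ≤ m → (c = m → ξ ∈ T) → (c < m → ξ ∈ Lt K (kp c)) → η ∈ Lt K (kp γ) →
    η ∈ τ.t c γ ξ → η ∈ σ.t c γ ξ

namespace Sub

variable {m : I} {T T' : Set K} {τ σ ρ : Info}

lemma refl (m : I) (T : Set K) (τ : Info) : Sub m T τ τ := fun _ _ _ _ _ _ _ _ _ h => h

lemma trans (h : Sub m T τ σ) (h' : Sub m T σ ρ) : Sub m T τ ρ :=
  fun c γ ξ η k1 k2 k3 k4 k5 k6 => h' c γ ξ η k1 k2 k3 k4 k5 (h c γ ξ η k1 k2 k3 k4 k5 k6)

lemma mono (h : Sub m T τ σ) (l : T' ⊆ T) : Sub m T' τ σ :=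
  fun c γ ξ η k1 k2 k3 => h c γ ξ η k1 k2 fun e => l (k3 e)

lemma of_univ (h : Sub m univ τ σ) (T : Set K) : Sub m T τ σ := h.mono (subset_univ _)

lemma of_Iic (h : ∀ ξ, Sub m (Iic ξ) τ σ) : Sub m univ τ σ :=
  fun c γ ξ η k1 k2 _ => h ξ c γ ξ η k1 k2 fun _ => le_rfl

lemma down {n : I} (h : Sub m T τ σ) (l : n < m) : Sub n (Lt K (kp n)) τ σ :=
  fun c γ ξ η k1 k2 k3 k4 => h c γ ξ η k1 (k2.trans l.le) (fun e => absurd e (k2.trans_lt l).ne)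
    fun _ => k2.eq_or_lt.elim (fun e => e ▸ k3 e) k4

end Sub

/-- names -/
abbrev Nm : Type := Info → Option K

/-- the name only looks at the coordinates `T` of level `m` and at the lower levels -/
def Dep (m : I) (T : Set K) (N : Nm) : Prop := ∀ τ σ, Sub m T τ σ → ∀ v ∈ N τ, v ∈ N σ

lemma Dep.mono {m : I} {T T' : Set K} {N : Nm} (h : Dep m T N) (l : T ⊆ T') : Dep m T' N :=
  fun τ σ k => h τ σ (k.mono l)

lemma Dep.eq {m : I} {T : Set K} {N : Nm} (h : Dep m T N) {τ σ : Info} (h1 : Sub m T τ σ)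
    (h2 : Sub m T σ τ) : N τ = N σ := opt_eq (h τ σ h1) (h σ τ h2)

open Classical in
/-- change of coordinates at level `m` -/
noncomputable def pull (m : I) (g : PM) (σ : Info) : Info where
  t c γ ξ := if c < m then σ.t c γ ξ else if c = m then (g.f ξ).bind (σ.t m γ) else none
  cons γ β c ξ ξ' h1 h2 h3 := by
    by_cases k1 : c < m
    · rw [if_pos k1] at h3
      rw [if_pos k1, if_pos (h2.trans k1)]
      exact σ.cons γ β c ξ ξ' h1 h2 h3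
    · rw [if_neg k1] at h3
      by_cases k2 : c = m
      · subst k2
        rw [if_pos rfl] at h3
        obtain ⟨a, k3, k4⟩ := Option.mem_bind_iff.1 h3
        rw [if_neg k1, if_pos rfl, if_pos h2, show g.f ξ = some a from k3]
        exact σ.cons γ β c a ξ' h1 h2 k4
      · rw [if_neg k2] at h3
        cases h3

section pull

variable {m : I} {g h : PM} {σ τ τ' : Info} {T T' : Set K}

lemma pull_lt {c : I} (l : c < m) (γ : I) (ξ : K) : (pull m g σ).t c γ ξ = σ.t c γ ξ := if_pos l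

lemma pull_self (γ : I) (ξ : K) : (pull m g σ).t m γ ξ = (g.f ξ).bind (σ.t m γ) := by
  simp only [pull, lt_irrefl, if_false, if_true]

lemma mem_pull {γ : I} {ξ η : K} :
    η ∈ (pull m g σ).t m γ ξ ↔ ∃ a, a ∈ g.f ξ ∧ η ∈ σ.t m γ a := by
  rw [pull_self]; exact Option.mem_bind_iff

lemma pull_pull (m : I) (g h : PM) (σ : Info) :
    pull m g (pull m h σ) = pull m (h.comp g) σ := by
  refine Info.ext (funext fun c => funext fun γ => funext fun ξ => ?_)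
  rcases lt_trichotomy c m with l | rfl | l
  · rw [pull_lt l, pull_lt l, pull_lt l]
  · rw [pull_self, pull_self, show (pull c h σ).t c γ = _ from funext (pull_self γ)]
    exact (Option.bind_assoc _ _ _).symm
  · simp only [pull, if_neg l.ne', if_neg l.le.not_gt]

lemma Sub.pull (k : Sub m T' τ σ) (l : ∀ ξ ∈ T, g.f ξ = h.f ξ) (l' : g.im T ⊆ T') :
    Sub m T (pull m g τ) (pull m h σ) := by
  intro c γ ξ η k1 k2 k3 k4 k5 k6
  rcases k2.eq_or_lt with rfl | k7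
  · obtain ⟨a, k8, k9⟩ := mem_pull.1 k6
    exact mem_pull.2 ⟨a, l ξ (k3 rfl) ▸ k8, k c γ a η k1 k2 (fun _ => l' ⟨ξ, k3 rfl, k8⟩)
      (fun e => absurd e (lt_irrefl _)) k5 k9⟩
  · rw [pull_lt k7] at k6 ⊢
    exact k c γ ξ η k1 k2 (fun e => absurd e k7.ne) k4 k5 k6

lemma sub_pull_congr (σ : Info) (l : ∀ ξ ∈ T, g.f ξ = h.f ξ) :
    Sub m T (pull m g σ) (pull m h σ) := (Sub.refl m univ σ).pull l (subset_univ _)

lemma im_Iic {ξ η : K} (l : η ∈ g.f ξ) : g.im (Iic ξ) ⊆ Iic η :=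
  fun _ ⟨_, k1, k2⟩ => g.mono k2 l k1

/-- transport of cones -/
lemma cone_pull {ξ η : K} (k : Sub m univ τ (pull m g τ')) (l : η ∈ g.f ξ)
    (k' : Sub m (Iic η) τ' σ) : Sub m (Iic ξ) τ (pull m g σ) :=
  (k.of_univ _).trans (k'.pull (fun _ _ => rfl) (im_Iic l))

lemma sub_pull_inv (σ : Info) (l : T ⊆ g.dom) :
    Sub m T σ (pull m g (pull m g.inv σ)) ∧ Sub m T (pull m g (pull m g.inv σ)) σ := by
  rw [pull_pull]
  constructor <;> intro c γ ξ η k1 k2 k3 k4 k5 k6 <;> rcases k2.eq_or_lt with rfl | k7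
  · obtain ⟨a, ha⟩ := l (k3 rfl)
    exact mem_pull.2 ⟨ξ, PM.mem_comp.2 ⟨a, ha, PM.mem_inv.2 ha⟩, k6⟩
  · rwa [pull_lt k7]
  · obtain ⟨a, k8, k9⟩ := mem_pull.1 k6
    obtain ⟨b, k10, k11⟩ := PM.mem_comp.1 k8
    rwa [g.inj k10 (PM.mem_inv.1 k11)]
  · rwa [pull_lt k7] at k6

end pull

/-- no activated level lies strictly between `γ` and `c` -/
def blk (u : Set I) (γ c : I) : Prop := ∀ β ∈ u, γ < β → c ≤ β

/-- all activated levels below `β` are below `m` -/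
def Z0 (u : Set I) (β m : I) : Prop := ∀ c ∈ u, c < β → c < m

section blk

variable {u u' : Set I} {γ β c m : I}

lemma blk.mono (h : blk u γ c) {γ' c' : I} (h1 : γ ≤ γ') (h2 : c' ≤ c) : blk u γ' c' :=
  fun β k1 k2 => h2.trans (h β k1 (h1.trans_lt k2))

lemma blk.sub (h : blk u γ c) (l : ∀ β ∈ u', γ < β → β < c → β ∈ u) : blk u' γ c :=
  fun β k1 k2 => not_lt.1 fun k3 => absurd (h β (l β k1 k2 k3) k2) (not_le.2 k3)

lemma blk_congr (l : ∀ β, γ < β → β < c → (β ∈ u ↔ β ∈ u')) : blk u γ c ↔ blk u' γ c :=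
  ⟨fun h => h.sub fun β k1 k2 k3 => (l β k2 k3).2 k1, fun h => h.sub fun β k1 k2 k3 => (l β k2 k3).1 k1⟩

lemma blk.trans (h : blk u γ β) (h' : blk u β c) (l : β ∉ u) : blk u γ c :=
  fun δ k1 k2 => h' δ k1 ((h δ k1 k2).lt_of_ne fun e => l (e ▸ k1))

lemma not_blk (h1 : β ∈ u) (h2 : γ < β) (h3 : β < c) : ¬ blk u γ c :=
  fun h => absurd (h β h1 h2) (not_le.2 h3)

lemma Z0.mono (h : Z0 u β m) {β' m' : I} (h1 : β' ≤ β) (h2 : m ≤ m') : Z0 u β' m' :=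
  fun c k1 k2 => (h c k1 (k2.trans_le h1)).trans_le h2

lemma Z0.self (u : Set I) (β : I) : Z0 u β β := fun _ _ h => h

lemma Z0.blk (h : Z0 u β m) : blk u m β :=
  fun c k1 k2 => not_lt.1 fun k3 => absurd (h c k1 k3) (not_lt.2 k2.le)

lemma blk.z0 (h : blk u γ β) (l : γ < m) : Z0 u β m :=
  fun c k1 k2 => not_le.1 fun k3 => absurd (h c k1 (l.trans_le k3)) (not_le.2 k2)

lemma blk.z0' (h : blk u m β) (l : m ∉ u) : Z0 u β m :=
  fun c k1 k2 => (not_lt.1 fun k3 => absurd (h c k1 k3) (not_le.2 k2)).lt_of_ne fun e => l (e ▸ k1)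

lemma not_z0 (h1 : c ∈ u) (h2 : m ≤ c) (h3 : c < β) : ¬ Z0 u β m :=
  fun h => absurd (h c h1 h3) (not_lt.2 h2)

lemma z0_congr (l : ∀ c, m ≤ c → c < β → (c ∈ u ↔ c ∈ u')) : Z0 u β m ↔ Z0 u' β m :=
  ⟨fun h c k1 k2 => not_le.1 fun k3 => not_z0 ((l c k3 k2).2 k1) k3 k2 h,
    fun h c k1 k2 => not_le.1 fun k3 => not_z0 ((l c k3 k2).1 k1) k3 k2 h⟩

lemma exists_host (h1 : c ∈ u) (h2 : γ < c) : ∃ c' ∈ u, γ < c' ∧ blk u γ c' := by
  obtain ⟨c', k1, k2⟩ := (wellFounded_lt (α := I)).has_min {β | β ∈ u ∧ γ < β} ⟨c, h1, h2⟩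
  exact ⟨c', k1.1, k1.2, fun β l1 l2 => not_lt.1 (k2 β ⟨l1, l2⟩)⟩

lemma blk.uniq (h : blk u β c) (h' : blk u γ c) (h1 : β ∈ u) (h2 : γ ∈ u) (h3 : β < c)
    (h4 : γ < c) : β = γ := by
  rcases lt_trichotomy β γ with l | l | l
  · exact absurd h (not_blk h2 l h4)
  · exact l
  · exact absurd h' (not_blk h1 l h3)

lemma host_uniq (h : blk u γ c) (h' : blk u γ β) (h1 : c ∈ u) (h2 : β ∈ u) (h3 : γ < c)
    (h4 : γ < β) : c = β := (h β h2 h4).antisymm (h' c h1 h3)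

end blk

/-- records -/
abbrev Rec : Type := I → K → Option K

/-- following the records along the activated levels -/
inductive Path (u : Set I) (R : Rec) (γ : I) (η : K) : I → K → Prop
  | base {c : I} {ξ : K} : γ < c → γ ∈ u → blk u γ c → η ∈ R γ ξ → Path u R γ η c ξ
  | step {c β : I} {ξ ξ' : K} : β < c → β ∈ u → blk u β c → ξ' ∈ R β ξ → Path u R γ η β ξ' →
      Path u R γ η c ξ

namespace Path

variable {u u' : Set I} {R R' : Rec} {γ β c : I} {ξ ξ' η η' : K}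

lemma lt (h : Path u R γ η c ξ) : γ < c := by
  induction h with
  | base h => exact h
  | step h _ _ _ _ ih => exact ih.trans h

lemma mem (h : Path u R γ η c ξ) : γ ∈ u := by
  induction h with
  | base _ h => exact h
  | step _ _ _ _ _ ih => exact ih

lemma uniq (h : Path u R γ η c ξ) (h' : Path u R γ η' c ξ) : η = η' := by
  induction h with
  | base h1 h2 h3 h4 =>
    cases h' with
    | base _ _ _ k => exact Option.mem_unique h4 k
    | step k1 k2 _ _ k5 => exact absurd h3 (not_blk k2 k5.lt k1)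
  | step h1 h2 h3 h4 h5 ih =>
    cases h' with
    | base _ _ k _ => exact absurd k (not_blk h2 h5.lt h1)
    | step k1 k2 k3 k4 k5 =>
      obtain rfl := h3.uniq k3 h2 k2 h1 k1
      obtain rfl := Option.mem_unique h4 k4
      exact ih k5

lemma cat (h : Path u R β ξ' c ξ) (h' : Path u R γ η β ξ') : Path u R γ η c ξ := by
  induction h with
  | base h1 h2 h3 h4 => exact .step h1 h2 h3 h4 h'
  | step h1 h2 h3 h4 _ ih => exact .step h1 h2 h3 h4 ih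

lemma split (h : Path u R β ξ' c ξ) (h' : Path u R γ η c ξ) (l : γ < β) :
    Path u R γ η β ξ' := by
  induction h with
  | base h1 h2 h3 h4 =>
    cases h' with
    | base _ _ k _ => exact absurd k (not_blk h2 l h1)
    | step k1 k2 k3 k4 k5 =>
      obtain rfl := h3.uniq k3 h2 k2 h1 k1
      obtain rfl := Option.mem_unique h4 k4
      exact k5
  | step h1 h2 h3 h4 h5 ih =>
    cases h' with
    | base _ _ k _ => exact absurd k (not_blk h2 (l.trans h5.lt) h1)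
    | step k1 k2 k3 k4 k5 =>
      obtain rfl := h3.uniq k3 h2 k2 h1 k1
      obtain rfl := Option.mem_unique h4 k4
      exact ih k5

/-- transfer of paths edge by edge -/
lemma imp {m : I} (Q : I → K → Prop)
    (he : ∀ c ≤ m, ∀ β < c, β ∈ u → blk u β c → ∀ ξ ξ', Q c ξ → ξ' ∈ R β ξ →
      Path u' R' β ξ' c ξ ∧ Q β ξ')
    (h : Path u R γ η c ξ) (h1 : c ≤ m) (h2 : Q c ξ) : Path u' R' γ η c ξ := by
  induction h with
  | base k1 k2 k3 k4 => exact (he _ h1 _ k1 k2 k3 _ _ h2 k4).1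
  | step k1 k2 k3 k4 _ ih =>
    have := he _ h1 _ k1 k2 k3 _ _ h2 k4
    exact this.1.cat (ih (k1.le.trans h1) this.2)

lemma head (h : Path u R γ η c ξ) : ∃ β < c, β ∈ u ∧ blk u β c ∧ ∃ ξ' ∈ R β ξ,
    (β = γ ∧ ξ' = η) ∨ Path u R γ η β ξ' := by
  cases h with
  | base k1 k2 k3 k4 => exact ⟨_, k1, k2, k3, _, k4, Or.inl ⟨rfl, rfl⟩⟩
  | step k1 k2 k3 k4 k5 => exact ⟨_, k1, k2, k3, _, k4, Or.inr k5⟩

end Path

/-- the information at level `m` given by the records -/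
noncomputable def inf (u : Set I) (R : Rec) (m : I) : Info where
  t c γ ξ := opt fun η => (c = m ∨ c < m ∧ c ∈ u) ∧ Path u R γ η c ξ
  cons γ β c ξ ξ' h1 h2 h3 := by
    obtain ⟨k1, k2⟩ := opt_spec h3
    have k3 : β = m ∨ β < m ∧ β ∈ u :=
      Or.inr ⟨k1.elim (fun e => e ▸ h2) fun l => h2.trans l.1, k2.mem⟩
    congr 1
    funext η
    exact propext ⟨fun k => ⟨k3, k2.split k.2 h1⟩, fun k => ⟨k1, k2.cat k.2⟩⟩

lemma mem_inf {u : Set I} {R : Rec} {m c γ : I} {ξ η : K} :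
    η ∈ (inf u R m).t c γ ξ ↔ (c = m ∨ c < m ∧ c ∈ u) ∧ Path u R γ η c ξ :=
  mem_opt fun _ _ h h' => h.2.uniq h'.2

lemma inf_sub {u u' : Set I} {R R' : Rec} {m : I} {T : Set K} (h1 : ∀ c < m, c ∈ u → c ∈ u')
    (h2 : ∀ c ≤ m, ∀ γ ξ η, (c = m ∧ ξ ∈ T ∨ c < m ∧ c ∈ u) → Path u R γ η c ξ →
      Path u' R' γ η c ξ) : Sub m T (inf u R m) (inf u' R' m) := by
  intro c γ ξ η _ k2 k3 _ _ k6
  obtain ⟨k7, k8⟩ := mem_inf.1 k6
  exact mem_inf.2 ⟨k7.imp id fun l => ⟨l.1, h1 c l.1 l.2⟩,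
    h2 c k2 γ ξ η (k7.imp (fun e => ⟨e, k3 e⟩) id) k8⟩

lemma inf_congr {u u' : Set I} {R R' : Rec} {m : I} (h1 : ∀ c < m, c ∈ u ↔ c ∈ u')
    (h2 : ∀ γ < m, R γ = R' γ) : inf u R m = inf u' R' m := by
  have key : ∀ {u u' : Set I} {R R' : Rec}, (∀ c < m, c ∈ u ↔ c ∈ u') → (∀ γ < m, R γ = R' γ) →
      ∀ c γ ξ η, η ∈ (inf u R m).t c γ ξ → η ∈ (inf u' R' m).t c γ ξ := by
    intro u u' R R' h1 h2 c γ ξ η k
    obtain ⟨k1, k2⟩ := mem_inf.1 k
    refine mem_inf.2 ⟨k1.imp id fun l => ⟨l.1, (h1 c l.1).1 l.2⟩, k2.imp (m := m) (fun _ _ => True)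
      (fun c l1 β l2 l3 l4 ξ ξ' _ l5 => ⟨.base l2 ((h1 β (l2.trans_le l1)).1 l3)
        (l4.sub fun δ n1 _ n3 => (h1 δ (n3.trans_le l1)).2 n1) (h2 β (l2.trans_le l1) ▸ l5),
        trivial⟩) (k1.elim le_of_eq fun l => l.1.le) trivial⟩
  exact Info.ext (funext fun c => funext fun γ => funext fun ξ => opt_eq (key h1 h2 c γ ξ)
    (key (fun c l => (h1 c l).symm) (fun γ l => (h2 γ l).symm) c γ ξ))

end Pool.Agent.Lib.MP_d4b40b_lc.W
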