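import Pool.Agent.Lib.MP_d4b40b_lc.W.Ord

set_option autoImplicit false
set_option linter.unusedSectionVars false

namespace Pool.Agent.Lib.MP_d4b40b_lc.W

open Filter Set Cardinal

variable [S : Sys]

/-- it is enough to compare names on the joint cone of a family -/
theorem Lo.of_fam {J : Type} {β : I} {T : Set K} {t : Prop} {q : Raw} {f : J → Raw}
    (hT : IsLowerSet T) (hp : ∀ j, ∀ γ < β, ((f j).s1 γ).OK)
    (h : ∀ j, LoC (fun m ξ σ => ∀ i, W.cone (f i) m ξ σ) β T t q (f j)) (j : J) :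
    Lo β T t q (f j) := by
  have key : ∀ γ < β, ∀ j, ∀ ξ ∈ F1 (f j).u β T γ, ∀ η ∈ (f j).rc γ ξ, η ∈ q.rc γ ξ := by
    intro γ
    induction γ using WellFoundedLT.induction with
    | ind γ ih =>
      intro l j ξ k η n
      obtain ⟨n1, n2, n3⟩ := Raw.mem_rc.1 n
      have i : ∀ i, Sub γ univ ((f i).info γ) (q.info γ) := fun i =>
        (info_of_rc l.le (fun _ l' => (h i).u (l'.trans l))
          fun δ l' => ih δ l' (l'.trans l) i).mono
          fun ζ _ => F0_of_on (((h i).u l).1 (((h j).u l).2 n1)) l ζ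
      refine Raw.mem_rc.2 ⟨((h j).u l).2 n1, ((h j).s1 γ l).b ⟨n2, k⟩, ?_⟩
      rw [((h j).s1 γ l).g n1 ξ n2 k _ fun ζ i' => (i i').of_univ _]
      exact (hp j γ l).gdep ξ n2 _ _ ((i j).of_univ _) η n3
  refine ⟨(h j).cone fun m k ξ l σ n i => ?_, fun γ l => key γ l j⟩
  exact ((info_of_rc k (fun _ l' => (h i).u (l'.trans_le k))
    fun γ l' => key γ (l'.trans_le k) i).mono fun _ n =>
      F0_low hT n ((h i).F0 T m ▸ (h j).F0 T m ▸ l)).trans n

lemma mk_un_le {J Y : Type} [hne : Nonempty J] {x : J → Set Y} {ρ : Cardinal.{0}} (h0 : ℵ₀ ≤ ρ)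
    (h1 : ∀ j, #(x j) ≤ ρ) (h2 : #J ≤ ρ ∨ ∀ i j, x i ⊆ x j) : #(⋃ j, x j) ≤ ρ := by
  obtain ⟨i⟩ := hne
  exact h2.elim (fun k => mk_iUnion_le' h0 k h1)
    fun k => (mk_le_mk_of_subset (iUnion_subset fun j => k j i)).trans (h1 i)

lemma mem_iInter_of {J Y : Type} [hne : Nonempty J] {x : J → Set Y} {ρ : Cardinal.{0}}
    (l : Filter Y) [CardinalInterFilter l ρ] (h1 : ∀ j, x j ∈ l)
    (h2 : #J < ρ ∨ ∀ i j, x i ⊆ x j) : (⋂ j, x j) ∈ l := by
  obtain ⟨i⟩ := hne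
  exact h2.elim (fun k => (cardinal_iInter_mem k).2 h1)
    fun k => mem_of_superset (h1 i) (subset_iInter (k i))

lemma s2_lim {m : I} (hm : m < ⊤) {J : Type} [hne : Nonempty J] (x : J → S2 m)
    (hx : ∀ j, (x j).on → Val #(dm (x j).cr) (Lt K (kp m)) (x j).e)
    (ht : ∀ i j, At False (x i) (x j) ∨ At False (x j) (x i))
    (h : #J ≤ pre m ∨ (∀ j, (x j).on ∧ #J ≤ #(dm (x j).cr)) ∨ ∀ i j, At False (x i) (x j)) :
    ∃ z : S2 m, (z.on → Val #(dm z.cr) (Lt K (kp m)) z.e) ∧ (∀ j, At False z (x j)) ∧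
      ∀ y, (∀ j, At False y (x j)) → At False y z := by
  obtain ⟨i0⟩ := id hne
  by_cases h0 : ∀ i j, At False (x i) (x j)
  · exact ⟨x i0, hx i0, h0 i0, fun y k => k i0⟩
  replace h := h.imp_right (·.resolve_right h0)
  have ho : ∀ j, (x j).on ↔ (x i0).on := fun j => (ht j i0).elim (·.on) (·.on.symm)
  by_cases o : (x i0).on
  · have hc : ∀ j, (x j).cr = (x i0).cr := fun j =>
      (ht j i0).elim (·.cr o) fun k => (k.cr ((ho j).2 o)).symm
    refine ⟨⟨True, (x i0).cr, univ, default, ⋃ j, (x j).e⟩, fun _ => Val.iUnion (dm_inf _ hm)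
      (h.elim (·.trans (pre_lt_dm _ hm).le) fun k => (k i0).2)
      (fun j => hc j ▸ hx j ((ho j).2 o)) fun i j =>
        (ht i j).symm.imp (·.e ((ho i).2 o)) (·.e ((ho j).2 o)),
      fun j => ⟨iff_of_true trivial ((ho j).2 o), fun _ => (hc j).symm,
        fun _ => subset_iUnion (fun j => (x j).e) j, fun k => absurd ((ho j).2 o) k,
        fun _ => False.elim⟩,
      fun y k => ⟨iff_of_true ((k i0).on.2 o) trivial, fun _ => (k i0).cr o,
        fun _ => iUnion_subset fun j => (k j).e ((ho j).2 o), fun n => absurd trivial n,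
        fun _ => False.elim⟩⟩
  · obtain ⟨H, h1, h2⟩ := hh_lim hm (h.resolve_right fun k => o (k i0).1) (fun j => (x j).H)
      fun i j => (ht i j).imp (·.H (mt (ho j).1 o)) (·.H (mt (ho i).1 o))
    exact ⟨⟨False, (x i0).cr, univ, H, ∅⟩, False.elim,
      fun j => ⟨iff_of_false id (mt (ho j).1 o), fun k => absurd ((ho j).1 k) o,
        fun k => absurd ((ho j).1 k) o, fun _ => h1 j, fun _ => False.elim⟩,
      fun y k => ⟨iff_of_false (mt (k i0).on.1 o) id, False.elim, False.elim,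
        fun _ => h2 _ fun j => (k j).H (mt (ho j).1 o), fun _ => False.elim⟩⟩

variable [X : Ext S]

/-- `q` is the limit of the family `f` -/
structure IsLim {J : Type} (f : J → Cond) (q : Cond) : Prop where
  dle : ∀ j, DLe q (f j)
  lub : ∀ β T t r, IsLowerSet T → (∀ j, Lo β T t r (f j).1) → Lo β T t r q.1
  lub2 : ∀ m < ⊤, ∀ t z, (∀ j, At t z ((f j).1.s2 m)) → At t z (q.1.s2 m)
  a : ∀ m, q.a m = ⋃ j, (f j).a m
  Bl : ∀ m, (q.1.s0 m).Bl = ⋃ j, ((f j).1.s0 m).Bl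
  b : ∀ m, q.b m = ⋃ j, (f j).b m
  A : ∀ m, q.A m = ⋂ j, (f j).A m

theorem lim_core {J : Type} [hne : Nonempty J] (f : J → Cond)
    (ht : ∀ i j, DLe (f i) (f j) ∨ DLe (f j) (f i))
    (h0 : ∀ m, #J ≤ pre m ∨ ∀ i j, (f i).a m ⊆ (f j).a m ∧ ((f i).1.s0 m).Bl ⊆ ((f j).1.s0 m).Bl)
    (h1 : ∀ m < ⊤, #J ≤ kp m ∨ ∀ i j, (f i).b m ⊆ (f j).b m)
    (h2 : ∀ m < ⊤, #J ≤ pre m ∨ (∀ j, m ∈ (f j).u ∧ #J ≤ #(dm ((f j).cr m))) ∨
      ∀ i j, At True ((f i).1.s2 m) ((f j).1.s2 m)) :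
    ∃ q, IsLim f q := by
  classical
  obtain ⟨i0⟩ := id hne
  have hu : ∀ j, (f j).u = (f i0).u := fun j => (ht j i0).elim (·.u) (·.u.symm)
  have hz : ∀ m, ∃ z : S2 m, (m = ⊤ → z.on ∧ z.cr = (f i0).cr m) ∧ (m < ⊤ →
      (z.on → Val #(dm z.cr) (Lt K (kp m)) z.e) ∧ (∀ j, At False z ((f j).1.s2 m)) ∧
      ∀ y, (∀ j, At False y ((f j).1.s2 m)) → At False y z) := by
    intro m
    rcases (le_top (a := m)).eq_or_lt with rfl | l
    · exact ⟨(f i0).1.s2 ⊤, fun _ => ⟨(f i0).top, rfl⟩, fun k => absurd k (lt_irrefl _)⟩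
    · refine (s2_lim l (fun j => (f j).1.s2 m) (fun j => (f j).he l) (fun i j => ?_)
        ((h2 m l).imp_right (Or.imp_right fun k i j => (k i j).mono fun _ => False.elim))).imp
        fun _ k => ⟨fun e => absurd e l.ne, fun _ => k⟩
      exact (ht i j).imp (fun k => (k.s2 m l).mono fun _ => False.elim)
        fun k => (k.s2 m l).mono fun _ => False.elim
  choose z z1 z2 using hz
  let q : Raw := Raw.un (fun j => (f j).1) z
  have qu : ∀ j, q.u = (f j).u := fun j => Set.ext fun m => by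
    rcases (le_top (a := m)).eq_or_lt with rfl | l
    exacts [iff_of_true (z1 ⊤ rfl).1 (f j).top, ((z2 m l).2.1 j).on]
  have qu' : ∀ j, q.u = (f j).1.u := qu
  have qc : ∀ j, ∀ m ∈ (f j).u, q.cr m = (f j).cr m := fun j m k => by
    rcases (le_top (a := m)).eq_or_lt with rfl | l
    · exact (z1 ⊤ rfl).2.trans ((f i0).ok.root.trans (f j).ok.root.symm)
    · exact ((z2 m l).2.1 j).cr k
  have hA : ∀ γ, γ ∉ q.u → #J < kp γ ∨ ∀ i j, (f i).A γ ⊆ (f j).A γ := fun γ k => by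
    have k' : ∀ j, γ ∉ (f j).u := fun j => qu j ▸ k
    exact (h2 γ (Cond.lt_top (k' i0))).imp (·.trans_lt (pre_lt γ)) fun n i j =>
      ((n.resolve_left fun n' => k' i0 (n' i0).1) i j).A (k' j) trivial
  have lo : LoOK ⊤ q := by
    refine ⟨qu i0 ▸ (f i0).lo.fin, fun m k => S0.ok_un (fun j => (f j).lo.s0 m k)
      (mk_un_le (pre_inf m) (fun j => (f j).ca m) ((h0 m).imp_right fun n i j => (n i j).1))
      (mk_un_le (pre_inf m) (fun j => ((f j).lo.s0 m k).cB)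
        ((h0 m).imp_right fun n i j => (n i j).2)),
      fun m k => S1.ok_un (fun j => (f j).lo.s1 m k)
        (mk_un_le (kp_inf m) (fun j => (f j).cb k) (h1 m k)),
      fun m k => ⟨fun o μ ν e n => mem_iInter.2 fun j => ((f j).lo.s2 m k).inv
        (show m ∉ (f j).u from qu j ▸ o) μ ν
        (e.mono (subset_iUnion (fun j => (f j).b m) j)) (mem_iInter.1 n j),
        fun o => iUnion_mono fun j => (f j).ab (qu j ▸ o),
        fun o => iUnion_subset fun j => ?_, (z2 m k).1⟩,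
      fun γ m k1 k2 k3 => iUnion_mono fun j => (f j).lo.nest γ m k1 k2 (qu' j ▸ k3)⟩
    have o' : m ∈ (f j).u := qu j ▸ o
    exact ((f j).a_dm o').trans (congrArg dm (qc j m o')).ge
  have ok : OK q := by
    refine ⟨lo, (z1 ⊤ rfl).1, (z1 ⊤ rfl).2.trans (f i0).ok.root, fun γ c k1 k2 => ?_⟩
    have := X.cpl (q.cr c) γ k2.lt
    exact mem_iInter_of (X.E (q.cr c) γ : Filter (Obj γ)) (fun j => by
      rw [qc j c (qu j ▸ k2.mem)]
      exact (f j).ok.big γ c (qu' j ▸ k1) (qu' j ▸ k2)) (hA γ k1)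
  have nrm : Nrm q := by
    intro m k μ n
    have r : ∀ j, Refl (f j).1 (f j).A m μ := fun j => (f j).nrm m (qu' j ▸ k) μ (mem_iInter.1 n j)
    refine ⟨iUnion_subset fun j => (r j).1, fun γ k1 k2 k3 => ?_⟩
    have := X.cpl μ.c γ k1
    exact mem_of_superset (mem_iInter_of (X.E μ.c γ : Filter (Obj γ))
      (x := fun j => {ν : Obj γ | ν.comp μ.g ∈ (f j).A γ})
      (fun j => (r j).2 γ k1 (qu' j ▸ k2) (qu' j ▸ k3))
      ((hA γ k2).imp_right fun n i j ν l => n i j l))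
      fun ν l => mem_iInter.2 fun j => mem_iInter.1 l j
  have lub2 : ∀ m < ⊤, ∀ t y, (∀ j, At t y ((f j).1.s2 m)) → At t y (q.s2 m) := fun m l t y k =>
    have a := (z2 m l).2.2 y fun j => (k j).mono fun _ => False.elim
    ⟨a.on, a.cr, a.e, a.H, fun o n => subset_iInter fun j =>
      (k j).A (show m ∉ (f j).u from qu j ▸ o) n⟩
  refine ⟨⟨q, ok, nrm⟩, Lo.of_fam isLowerSet_univ (fun j => (f j).lo.s1) fun j =>
    ⟨fun m k => R0.un_le j fun i π k1 k2 _ σ n => ?_, fun m k => R1.un_le j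
      (fun o i ξ k1 k2 _ σ n => ?_) fun o i ξ k1 k2 _ μ σ n => ?_, fun m k => ?_⟩,
    fun β T t r hT h => Lo.of_cone hT (fun γ k => lo.s1 γ (k.trans_le le_top))
      ⟨fun m k => R0.le_un fun j => qu j ▸ (h j).s0 m k,
        fun m k => R1.le_un fun j => qu j ▸ (h j).s1 m k,
        fun m k => lub2 m (k.trans_le le_top) _ _ fun j => qu j ▸ (h j).s2 m k⟩,
    lub2, fun _ => rfl, fun _ => rfl, fun _ => rfl, fun _ => rfl⟩
  · exact (ht i j).elim (fun e => (e.s0 m k).n π k2 (fun _ => trivial) σ (n i))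
      fun e => ((e.s0 m k).n π k1 (fun _ => trivial) σ (n j)).symm
  · exact (ht i j).elim (fun e => (e.s1 m k).g o ξ k2 (fun _ => trivial) σ fun ζ => n ζ i)
      fun e => ((e.s1 m k).g ((e.toLoC.u k).1 o) ξ k1 (fun _ => trivial) σ fun ζ => n ζ j).symm
  · exact (ht i j).elim (fun e => (e.s1 m k).f o ξ k2 (fun _ => trivial) μ σ (n i))
      fun e => ((e.s1 m k).f (mt (e.toLoC.u k).2 o) ξ k1 (fun _ => trivial) μ σ (n j)).symm
  · have a := (z2 m k).2.1 j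
    exact ⟨a.on, a.cr, a.e, a.H, fun _ _ => iInter_subset (fun j => (f j).A m) j⟩

section

variable {J : Type} {f : J → Cond} {q r : Cond} {β : I} {α : K}

lemma IsLim.le_dle (h : IsLim f q) (k : ∀ j, DLe r (f j)) : DLe r q :=
  h.lub _ _ _ _ isLowerSet_univ k

lemma IsLim.le_ex (h : IsLim f q) (k : ∀ j, Ex α r (f j)) : Ex α r q :=
  h.lub _ _ _ _ (isLowerSet_Iio α) k

lemma IsLim.le_lb (h : IsLim f q) (k : ∀ j, Lb β r (f j)) : Lb β r q :=
  h.lub _ _ _ _ isLowerSet_univ k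

lemma IsLim.le_lw (h : IsLim f q) (l : β < ⊤) (k : ∀ j, Lw β r (f j)) : Lw β r q :=
  ⟨h.le_lb fun j => (k j).1, h.lub2 β l _ _ fun j => (k j).2⟩

end

lemma Lb.a {β m : I} {q p : Cond} (h : Lb β q p) (l : m ≤ β) : p.a m ⊆ q.a m :=
  fun _ k => (h.s0 m l).a ⟨k, fun _ => trivial⟩

lemma Lb.Bl {β m : I} {q p : Cond} (h : Lb β q p) (l : m ≤ β) :
    (p.1.s0 m).Bl ⊆ (q.1.s0 m).Bl := fun π k => (h.s0 m l).bl π k fun _ => trivial

lemma Lb.b {β m : I} {q p : Cond} (h : Lb β q p) (l : m < β) : p.b m ⊆ q.b m :=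
  fun _ k => (h.s1 m l).b ⟨k, fun _ => trivial⟩

/-- limits of short chains -/
theorem dle_lim {J : Type} [Nonempty J] (hJ : #J ≤ ℵ₁) (f : J → Cond)
    (ht : ∀ i j, DLe (f i) (f j) ∨ DLe (f j) (f i)) : ∃ q, IsLim f q :=
  lim_core f ht (fun m => Or.inl (hJ.trans (one_le_pre m)))
    (fun m _ => Or.inl (hJ.trans (S.big m).le)) fun m _ => Or.inl (hJ.trans (one_le_pre m))

/-- limits of chains which are constant strictly below `β` -/
theorem lb_lim {β : I} {J : Type} [Nonempty J] (f : J → Cond)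
    (hJ : #J ≤ pre β ∨ β < ⊤ ∧ #J ≤ kp β ∧ ((∀ j, β ∈ (f j).u ∧ #J ≤ #(dm ((f j).cr β))) ∨
      ∀ i j, At True ((f i).1.s2 β) ((f j).1.s2 β)))
    (ht : ∀ i j, DLe (f i) (f j) ∨ DLe (f j) (f i)) (hb : ∀ i j, Lb β (f i) (f j)) :
    ∃ q, IsLim f q := by
  have h1 : #J ≤ kp β := hJ.elim (·.trans (pre_lt β).le) (·.2.1)
  refine lim_core f ht (fun m => (le_or_gt m β).symm.imp (fun l => h1.trans (kp_le_pre l))
    fun l i j => ⟨(hb j i).a l, (hb j i).Bl l⟩) (fun m _ => (le_or_gt β m).imp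
      (fun l => h1.trans (kp_mono l)) fun l i j => (hb j i).b l) fun m _ => ?_
  rcases lt_trichotomy m β with l | rfl | l
  · exact Or.inr (Or.inr fun i j => ((hb i j).lw l).2)
  · exact hJ.imp_right (·.2.2)
  · exact Or.inl (h1.trans (kp_le_pre l))

lemma fix_chain {β : I} (l : β < ⊤) {J : Type} {f : J → Cond}
    (ht : ∀ i j, Fix β (f i) (f j) ∨ Fix β (f j) (f i)) (i j : J) : Lw β (f i) (f j) :=
  (ht i j).elim (·.1.lw l) (·.2)

/-- limits of chains which are constant up to `β` -/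
theorem exists_lim {β : I} (l : β < ⊤) {J : Type} [Nonempty J] (hJ : #J ≤ kp β) (f : J → Cond)
    (ht : ∀ i j, Fix β (f i) (f j) ∨ Fix β (f j) (f i)) :
    ∃ q, IsLim f q ∧ ∀ j, Fix β q (f j) :=
  (lb_lim f (Or.inr ⟨l, hJ, Or.inr fun i j => (fix_chain l ht i j).2⟩)
    (fun i j => (ht i j).imp (·.1) (·.1)) fun i j => (fix_chain l ht i j).1).imp
    fun _ h => ⟨h, fun j => ⟨h.dle j, h.le_lw l (fix_chain l ht j)⟩⟩

/-- meeting many tasks without changing the levels up to `β` -/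
theorem fix_meet {β : I} (l : β < ⊤) {T : Type} (hT : #T ≤ kp β) (G : T → Cond → Prop)
    (p : Cond) (hop : ∀ τ a b, G τ a → Fix β b a → G τ b)
    (hd : ∀ τ q, Fix β q p → ∃ r, Fix β r q ∧ G τ r) : ∃ q, Fix β q p ∧ ∀ τ, G τ q :=
  seq_meet (Fix β) (Fix.refl β) (fun _ _ _ => Fix.trans)
    (fun _ f _ hJ ht => (exists_lim l hJ f ht).imp fun _ h => h.2) hT G hop p hd

theorem dle_meet {T : Type} (hT : #T ≤ ℵ₁) (G : T → Cond → Prop) (p : Cond)
    (hop : ∀ τ a b, G τ a → DLe b a → G τ b) (hd : ∀ τ q, DLe q p → ∃ r, DLe r q ∧ G τ r) :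
    ∃ q, DLe q p ∧ ∀ τ, G τ q :=
  seq_meet DLe DLe.refl (fun _ _ _ => DLe.trans)
    (fun _ f _ hJ ht => (dle_lim hJ f ht).imp fun _ h => h.dle) hT G hop p hd

/-- direct extension which does not change the part strictly below `β` -/
def FixB (β : I) (q p : Cond) : Prop := DLe q p ∧ Lb β p q

lemma FixB.refl (β : I) (p : Cond) : FixB β p p := ⟨DLe.refl _, Lb.refl _ _⟩

lemma FixB.trans {β : I} {r q p : Cond} (h : FixB β r q) (h' : FixB β q p) : FixB β r p :=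
  ⟨h.1.trans h'.1, h'.2.trans h.2⟩

lemma Fix.fixB {β : I} {q p : Cond} (h : Fix β q p) : FixB β q p := ⟨h.1, h.2.1⟩

theorem exists_limB {β : I} {J : Type} [Nonempty J] (f : J → Cond)
    (hJ : #J ≤ pre β ∨ β < ⊤ ∧ ∀ j, β ∈ (f j).u ∧ #J ≤ #(dm ((f j).cr β)))
    (ht : ∀ i j, FixB β (f i) (f j) ∨ FixB β (f j) (f i)) :
    ∃ q, IsLim f q ∧ ∀ j, FixB β q (f j) := by
  have hb : ∀ i j, Lb β (f i) (f j) := fun i j => (ht i j).elim (·.1.lb β) (·.2)
  obtain ⟨i⟩ := ‹Nonempty J›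
  exact (lb_lim f (hJ.imp_right fun k => ⟨k.1, (k.2 i).2.trans (dm_lt k.1 _).le, Or.inl k.2⟩)
    (fun i j => (ht i j).imp (·.1) (·.1)) hb).imp
    fun _ h => ⟨h, fun j => ⟨h.dle j, h.le_lb (hb j)⟩⟩

theorem fixB_meet {β : I} {T : Type} (hT : #T ≤ pre β) (G : T → Cond → Prop)
    (p : Cond) (hop : ∀ τ a b, G τ a → FixB β b a → G τ b)
    (hd : ∀ τ q, FixB β q p → ∃ r, FixB β r q ∧ G τ r) : ∃ q, FixB β q p ∧ ∀ τ, G τ q :=
  seq_meet (FixB β) (FixB.refl β) (fun _ _ _ => FixB.trans)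
    (fun _ f _ hJ ht => (exists_limB f (Or.inl hJ) ht).imp fun _ h => h.2) hT G hop p hd

theorem fixB_meet_on {β : I} (l : β < ⊤) (p : Cond) (o : β ∈ p.u) {T : Type}
    (hT : #T ≤ #(dm (p.cr β))) (G : T → Cond → Prop) (hop : ∀ τ a b, G τ a → FixB β b a → G τ b)
    (hd : ∀ τ q, FixB β q p → ∃ r, FixB β r q ∧ G τ r) : ∃ q, FixB β q p ∧ ∀ τ, G τ q := by
  obtain ⟨q, h1, h2⟩ := seq_meet (S := {q : Cond // DLe q p}) (fun a b => FixB β a.1 b.1)
    (fun _ => FixB.refl β _) (fun _ _ _ => FixB.trans) (ρ := #(dm (p.cr β)))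
    (fun _ f ⟨i⟩ hJ ht => by
      have := Nonempty.intro i
      obtain ⟨q, -, k⟩ := exists_limB (fun j => (f j).1)
        (Or.inr ⟨l, fun j => ⟨(f j).2.u ▸ o, ((f j).2.cr o).symm ▸ hJ⟩⟩) ht
      exact ⟨⟨q, (k i).1.trans (f i).2⟩, k⟩)
    hT (fun τ a => G τ a.1) (fun τ a b => hop τ a.1 b.1) ⟨p, DLe.refl p⟩ fun τ a k =>
      let ⟨r, k1, k2⟩ := hd τ a.1 k; ⟨⟨r, k1.1.trans a.2⟩, k1, k2⟩
  exact ⟨q.1, h1, h2⟩

/-- meeting the tasks which live on the coordinates of level `β` -/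
theorem fix_clo {β : I} (l : β < ⊤) {T : Type} (ts : T → Set K) (h2 : ∀ t, #(ts t) < kp β)
    (h3 : ∀ B : Set K, #B ≤ kp β → #{t | ts t ⊆ B} ≤ kp β) (G : T → Cond → Prop) (p : Cond)
    (hop : ∀ t a b, G t a → Fix β b a → G t b)
    (hd : ∀ t q, Fix β q p → ts t ⊆ q.b β → ∃ r, Fix β r q ∧ G t r) :
    ∃ q, Fix β q p ∧ ∀ t, ts t ⊆ q.b β → G t q :=
  clo_meet (Fix β) (Fix.refl β) (fun _ _ _ => Fix.trans) (inacc_kp β).isRegular (fun q => q.b β)
    (fun q => q.cb l) ts h2 h3 (fun _ _ k => k.1.b l)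
    (fun _ f _ hJ ht => (exists_lim l hJ f ht).imp fun _ h => ⟨h.2, (h.1.b β).le⟩) G hop p hd

end Pool.Agent.Lib.MP_d4b40b_lc.W
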