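import Pool.Agent.Lib.MP_d4b40b_lc.W.Split
import Pool.Agent.Lib.MP_d4b40b_lc.W.Glue
import Pool.Agent.Lib.MP_d4b40b_lc.W.Copy

set_option autoImplicit false
set_option linter.unusedSectionVars false

namespace Pool.Agent.Lib.MP_d4b40b_lc.W

open Filter Set Cardinal

variable [S : Sys] [X : Ext S]

variable {n : I} {α : K}

lemma val_le {p a : Cond} {μ : Obj n} (h : Adm p n μ) (z : blk p.u n ⊤) {ξ η : K} (k : ξ ∈ p.a n)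
    (k' : η ∈ μ.g.f ξ) (e : a ≤ act p n μ) : η ∈ (a.info ⊤).t ⊤ n ξ :=
  info_le_on e (Cond.top _) ⊤ n ξ η h.lt le_rfl (fun _ => trivial)
    (fun l => absurd l (lt_irrefl _)) (μ.lt k') (info_act_new h h.lt z (p.ab h.1 k) k')

theorem many_at (h1 : Cl α) (h2 : Cf α) : kit.Many α := by
  intro q0 Q hQ hQ' hd
  obtain ⟨M, m1, P, m2⟩ := glue α q0 (fun n g => ∃ δ < α, ∀ x y, x ≠ y → ∀ a ≤ g x, ∀ b ≤ g y,
    n ∈ a.u → Agree α a b → (∃ δ' < α, Q δ' a b) → Q δ a b) fun n l z f f1 f2 =>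
      let ⟨g, g1, g2, g3⟩ := sep_fam l (mk_Lt_le _) h2 f f2 (fun x => (f1 x).u ▸ z) Q hQ hQ'
      ⟨g, g2, g1, g3⟩
  obtain ⟨δ, d1, d2⟩ := h2.bound (J := {n // n < ⊤ ∧ Z0 q0.u ⊤ n})
    ((mk_set_le _).trans (I_le_pre ⊤)) fun n => m1 n.1 n.2.1 n.2.2
  refine ⟨δ, d1, P, fun γ l => ⟨(m2 γ l).1.le, fun γ' l' lt r k1 r' k2 e => ?_⟩⟩
  obtain ⟨n0, n1, -⟩ := exists_above countable_empty fun _ k => k.elim
  obtain ⟨n, -, ln, z⟩ := exists_tz r n1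
  have z' : Z0 r'.u ⊤ n := Ex.u e.1 ▸ z
  have z0 : Z0 q0.u ⊤ n := fun c k => z c (u_mono (k1.trans (m2 γ l).1.le) k)
  have zP : ∀ γ < α, Z0 (P γ).u ⊤ n := fun γ l => (m2 γ l).1.u ▸ z0
  have off : ∀ {p : Cond}, Z0 p.u ⊤ n → n ∉ p.u := fun z o => lt_irrefl _ (z n o ln)
  obtain ⟨r1, k3, r1', k4, e1, o⟩ := Kit.ext_agree (H := kit) h1 e.1 (G := fun y => n ∈ y.u)
    (fun _ _ g e => u_mono e g) fun x _ => exists_on x n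
  obtain ⟨a, k5, b, k6, e2, k7⟩ := hd r1 ((k3.trans k1).trans (m2 γ l).1.le) r1'
    ((k4.trans k2).trans (m2 γ' l').1.le) e1
  have oa : n ∈ a.u := u_mono k5 o
  have ob : n ∈ b.u := Ex.u e2.1 ▸ oa
  obtain ⟨μ, a1, j1⟩ := le_split ((k5.trans k3).trans k1) oa (off (zP γ l))
  obtain ⟨μ', a2, j2⟩ := le_split ((k6.trans k4).trans k2) ob (off (zP γ' l'))
  obtain ⟨ν, a3, j3⟩ := le_split (k6.trans k4) ob (off z')
  have g1 := ((m2 γ l).2 n ln z0).1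
  have g2 := ((m2 γ' l').2 n ln z0).1
  have g3 : γ ∈ r'.a n := Ex.a e.2 n ⟨(tz_le k1 z).1 g1, l⟩
  have g4 : γ' ∈ r'.a n := (tz_le k2 z').1 g2
  obtain ⟨ξ, x1⟩ := a1.dom g1
  obtain ⟨ξ', x2⟩ := a2.dom g2
  obtain ⟨η, x3⟩ := a3.dom g3
  obtain ⟨η', x4⟩ := a3.dom g4
  have v1 : ξ ∈ (b.info ⊤).t ⊤ n γ := Lo.info e2.2 le_rfl ⊤ n γ ξ ln le_rfl (fun _ _ => l)
    (fun l => absurd l (lt_irrefl _)) (μ.lt x1) (val_le a1 (zP γ l).blk g1 x1 j1)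
  obtain rfl := Option.mem_unique v1 (val_le a3 z'.blk g3 x3 j3)
  obtain rfl := Option.mem_unique (val_le a2 (zP γ' l').blk g2 x2 j2) (val_le a3 z'.blk g4 x4 j3)
  obtain ⟨δ', d3, d4⟩ := d2 ⟨n, ln, z0⟩
  exact ⟨a, k5.trans k3, b, k6.trans k4, e2, hQ' _ _ _ _ (d4 ⟨ξ, μ.lt x1⟩ ⟨ξ', μ'.lt x2⟩
    (fun e => (ν.g.inc _ _ _ _ x3 x4 lt).ne (congrArg Subtype.val e)) a
    (j1.trans (((m2 γ l).2 n ln z0).2 μ _ a1 x1)) b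
    (j2.trans (((m2 γ' l').2 n ln z0).2 μ' _ a2 x2)) oa e2 k7) d3 d1⟩

theorem many : ∀ᶠ α in (UU : Filter K), kit.Many α :=
  (ae_cl.and ae_cf).mono fun _ k => many_at k.1 k.2

end Pool.Agent.Lib.MP_d4b40b_lc.W
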