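import Pool.Agent.Lib.MP_d4b40b_lc.Card

set_option autoImplicit false

namespace Pool.Agent.Lib.MP_d4b40b_lc.W

open Filter Set Cardinal

/-- transfinite dependent choice -/
theorem wf_build {T S : Type} [LinearOrder T] [WellFoundedLT T] (z : S)
    (Φ : T → (T → S) → S → Prop)
    (h : ∀ n (g : T → S), (∀ k < n, Φ k (fun j => if j < k then g j else z) (g k)) →
      ∃ s, Φ n (fun j => if j < n then g j else z) s) :
    ∃ g : T → S, ∀ n, Φ n (fun j => if j < n then g j else z) (g n) := by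
  classical
  let g : T → S := (wellFounded_lt (α := T)).fix fun n f =>
    if k : ∃ s, Φ n (fun j => if l : j < n then f j l else z) s then k.choose else z
  have hg : ∀ n, g n =
      if k : ∃ s, Φ n (fun j => if _ : j < n then g j else z) s then k.choose else z :=
    fun n => (wellFounded_lt (α := T)).fix_eq _ n
  refine ⟨g, fun n => ?_⟩
  induction n using (wellFounded_lt (α := T)).induction with
  | _ n ih =>
  have k : ∃ s, Φ n (fun j => if _ : j < n then g j else z) s := h n g ih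
  rw [hg n, dif_pos k]
  exact k.choose_spec

/-- meeting dense sets which are indexed by small subsets of the support -/
theorem clo_meet {S : Type} (le : S → S → Prop) (hr : ∀ s, le s s)
    (ht : ∀ a b c, le a b → le b c → le a c) {Y T : Type} {ρ : Cardinal.{0}} (hρ : ρ.IsRegular)
    (supp : S → Set Y) (h1 : ∀ s, #(supp s) ≤ ρ) (ts : T → Set Y) (h2 : ∀ t, #(ts t) < ρ)
    (h3 : ∀ B : Set Y, #B ≤ ρ → #{t | ts t ⊆ B} ≤ ρ) (h4 : ∀ a b, le a b → supp b ⊆ supp a)
    (hcl : ∀ (J : Type) (f : J → S), Nonempty J → #J ≤ ρ →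
      (∀ i j, le (f i) (f j) ∨ le (f j) (f i)) → ∃ s, (∀ i, le s (f i)) ∧ supp s ⊆ ⋃ i, supp (f i))
    (G : T → S → Prop) (hop : ∀ t a b, G t a → le b a → G t b) (s0 : S)
    (hd : ∀ t s, le s s0 → ts t ⊆ supp s → ∃ s', le s' s ∧ G t s') :
    ∃ s, le s s0 ∧ ∀ t, ts t ⊆ supp s → G t s := by
  have step : ∀ s, le s s0 → ∃ s', le s' s ∧ ∀ t, ts t ⊆ supp s → G t s' := fun s hs => by
    obtain ⟨s', k1, k2⟩ := seq_meet le hr ht
      (fun J f a b c => (hcl J f a b c).imp fun _ k => k.1) (h3 _ (h1 s)) (fun t => G t.1)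
      (fun t => hop t.1) s fun t s' k => hd t.1 s' (ht _ _ _ k hs) (t.2.trans (h4 _ _ k))
    exact ⟨s', k1, fun t k => k2 ⟨t, k⟩⟩
  have hO : #ρ.ord.ToType = ρ := by simp
  obtain ⟨g, hg⟩ := wf_build (T := ρ.ord.ToType) s0
    (fun n g s => le s s0 ∧ ∀ k < n, le s (g k) ∧ ∀ t, ts t ⊆ supp (g k) → G t s) (by
      intro n g ih
      have : ∃ s, le s s0 ∧ ∀ k < n, le s (g k) := by
        rcases isEmpty_or_nonempty (Iio n) with e | e
        · exact ⟨s0, hr _, fun k l => e.elim ⟨k, l⟩⟩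
        · obtain ⟨s, k1, -⟩ := hcl (Iio n) (fun k => g k) e ((mk_set_le _).trans hO.le) fun i j => by
            rcases lt_trichotomy i.1 j.1 with l | l | l
            · exact Or.inr (by simpa only [if_pos l] using ((ih j j.2).2 i l).1)
            · exact Or.inl (l ▸ hr _)
            · exact Or.inl (by simpa only [if_pos l] using ((ih i i.2).2 j l).1)
          obtain ⟨i⟩ := e
          exact ⟨s, ht _ _ _ (k1 i) (ih i i.2).1, fun k l => k1 ⟨k, l⟩⟩
      obtain ⟨s, k1, k2⟩ := this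
      obtain ⟨s', k3, k4⟩ := step s k1
      refine ⟨s', ht _ _ _ k3 k1, fun k l => ?_⟩
      simp only [if_pos l]
      exact ⟨ht _ _ _ k3 (k2 k l), fun t e => k4 t (e.trans (h4 _ _ (k2 k l)))⟩)
  have g1 : ∀ n k, k < n → le (g n) (g k) ∧ ∀ t, ts t ⊆ supp (g k) → G t (g n) := fun n k l => by
    simpa only [if_pos l] using (hg n).2 k l
  have bd : ∀ A : Set ρ.ord.ToType, #A < ρ → ∃ n, ∀ k ∈ A, k < n := fun A hA => by
    obtain ⟨n, -, k⟩ := exists_Lt_bound (K := ρ.ord.ToType) hO.ge hρ hA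
      fun k _ => show #(Iio k) < ρ by simpa using mk_Iio_lt k
    exact ⟨n, k⟩
  obtain ⟨n0, -⟩ := bd ∅ (by simpa using hρ.pos)
  obtain ⟨s, k1, k2⟩ := hcl _ g ⟨n0⟩ hO.le fun i j => by
    rcases lt_trichotomy i j with l | l | l
    · exact Or.inr (g1 j i l).1
    · exact Or.inl (l ▸ hr _)
    · exact Or.inl (g1 i j l).1
  refine ⟨s, ht _ _ _ (k1 n0) (hg n0).1, fun t e => ?_⟩
  choose i hi using fun y : ts t => mem_iUnion.1 (k2 (e y.2))
  obtain ⟨n, hn⟩ := bd (range i) (mk_range_le.trans_lt (h2 t))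
  obtain ⟨n', hn'⟩ := bd {n} (by simpa using one_lt_aleph0.trans_le hρ.1)
  exact hop t _ _ ((g1 n' n (hn' n rfl)).2 t fun y hy =>
    h4 _ _ (g1 n _ (hn _ (mem_range_self ⟨y, hy⟩))).1 (hi ⟨y, hy⟩)) (k1 n')

end Pool.Agent.Lib.MP_d4b40b_lc.W
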