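import Pool.Agent.Lib.MP_d4b40b_lc.W.Ord

set_option autoImplicit false
set_option linter.unusedSectionVars false

namespace Pool.Agent.Lib.MP_d4b40b_lc.W

open Filter Set Cardinal

variable [S : Sys]

namespace Raw

variable {β γ m : I} {d d' q z : Raw}

lemma mix_s0_le (h : m ≤ β) : (mix β d q).s0 m = d.s0 m := if_pos h

lemma mix_s0_gt (h : β < m) : (mix β d q).s0 m = q.s0 m := if_neg h.not_ge

lemma mix_s1_lt (h : m < β) : (mix β d q).s1 m = d.s1 m := if_pos h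

lemma mix_s1_ge (h : β ≤ m) : (mix β d q).s1 m = q.s1 m := if_neg h.not_gt

lemma mix_s2_le (h : m ≤ β) : (mix β d q).s2 m = d.s2 m := if_pos h

lemma mix_s2_gt (h : β < m) : (mix β d q).s2 m = q.s2 m := if_neg h.not_ge

lemma mix_u_le (h : m ≤ β) : m ∈ (mix β d q).u ↔ m ∈ d.u := by
  show ((mix β d q).s2 m).on ↔ _
  rw [mix_s2_le h]; rfl

lemma mix_u_gt (h : β < m) : m ∈ (mix β d q).u ↔ m ∈ q.u := by
  show ((mix β d q).s2 m).on ↔ _
  rw [mix_s2_gt h]; rfl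

lemma mix_blk_le (h : m ≤ β) : blk (mix β d q).u γ m ↔ blk d.u γ m :=
  blk_congr fun _ _ k => mix_u_le (k.le.trans h)

lemma mix_blk_ge (h : β ≤ γ) : blk (mix β d q).u γ m ↔ blk q.u γ m :=
  blk_congr fun _ k _ => mix_u_gt (h.trans_lt k)

lemma mix_not_blk (h : β ∈ d.u) (h1 : γ < β) (h2 : β < m) : ¬ blk (mix β d q).u γ m :=
  not_blk ((mix_u_le le_rfl).2 h) h1 h2

lemma mix_rc (h : γ < β) : (mix β d q).rc γ = d.rc γ :=
  rc_congr (fun _ k => mix_u_le k.le) (fun _ k => mix_s1_lt k) γ h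

lemma mix_info (h : m ≤ β) : (mix β d q).info m = d.info m :=
  info_congr (fun _ k => mix_u_le (k.le.trans h)) fun _ k => mix_s1_lt (k.trans_le h)

lemma eq_mix (h0 : ∀ m ≤ β, z.s0 m = d.s0 m) (h1 : ∀ m < β, z.s1 m = d.s1 m)
    (h2 : ∀ m ≤ β, z.s2 m = d.s2 m) (k0 : ∀ m, β < m → z.s0 m = q.s0 m)
    (k1 : ∀ m, β ≤ m → z.s1 m = q.s1 m) (k2 : ∀ m, β < m → z.s2 m = q.s2 m) : z = mix β d q := by
  refine Raw.ext (funext fun m => ?_) (funext fun m => ?_) (funext fun m => ?_)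
  · rcases le_or_gt m β with l | l
    exacts [(h0 m l).trans (mix_s0_le l).symm, (k0 m l).trans (mix_s0_gt l).symm]
  · rcases lt_or_ge m β with l | l
    exacts [(h1 m l).trans (mix_s1_lt l).symm, (k1 m l).trans (mix_s1_ge l).symm]
  · rcases le_or_gt m β with l | l
    exacts [(h2 m l).trans (mix_s2_le l).symm, (k2 m l).trans (mix_s2_gt l).symm]

lemma mix_self (β : I) (p : Raw) : mix β p p = p :=
  (eq_mix (fun _ _ => rfl) (fun _ _ => rfl) (fun _ _ => rfl) (fun _ _ => rfl) (fun _ _ => rfl)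
    fun _ _ => rfl).symm

lemma mix_congr_left (h0 : ∀ m ≤ β, d.s0 m = d'.s0 m) (h1 : ∀ m < β, d.s1 m = d'.s1 m)
    (h2 : ∀ m ≤ β, d.s2 m = d'.s2 m) (q : Raw) : mix β d q = mix β d' q :=
  eq_mix (fun m l => (mix_s0_le l).trans (h0 m l)) (fun m l => (mix_s1_lt l).trans (h1 m l))
    (fun m l => (mix_s2_le l).trans (h2 m l)) (fun _ => mix_s0_gt) (fun _ => mix_s1_ge)
    fun _ => mix_s2_gt

lemma mix_congr_right (d : Raw) (k0 : ∀ m, β < m → q.s0 m = z.s0 m)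
    (k1 : ∀ m, β ≤ m → q.s1 m = z.s1 m) (k2 : ∀ m, β < m → q.s2 m = z.s2 m) :
    mix β d q = mix β d z :=
  eq_mix (fun _ => mix_s0_le) (fun _ => mix_s1_lt) (fun _ => mix_s2_le)
    (fun m l => (mix_s0_gt l).trans (k0 m l)) (fun m l => (mix_s1_ge l).trans (k1 m l))
    fun m l => (mix_s2_gt l).trans (k2 m l)

lemma mix_mix_left (h : β ≤ γ) (d q z : Raw) : mix β (mix γ d q) z = mix β d z :=
  mix_congr_left (fun _ l => mix_s0_le (l.trans h)) (fun _ l => mix_s1_lt (l.trans_le h))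
    (fun _ l => mix_s2_le (l.trans h)) z

lemma mix_mix_right (h : γ ≤ β) (d d' q : Raw) : mix β d (mix γ d' q) = mix β d q :=
  mix_congr_right d (fun _ l => mix_s0_gt (h.trans_lt l)) (fun _ l => mix_s1_ge (h.trans l))
    fun _ l => mix_s2_gt (h.trans_lt l)

lemma mix_assoc (h : β ≤ γ) (d q z : Raw) : mix γ (mix β d q) z = mix β d (mix γ q z) :=
  eq_mix (fun _ l => (mix_s0_le (l.trans h)).trans (mix_s0_le l))
    (fun _ l => (mix_s1_lt (l.trans_le h)).trans (mix_s1_lt l))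
    (fun _ l => (mix_s2_le (l.trans h)).trans (mix_s2_le l))
    (fun m l => (le_or_gt m γ).elim
      (fun k => (mix_s0_le k).trans ((mix_s0_gt l).trans (mix_s0_le k).symm))
      fun k => (mix_s0_gt k).trans (mix_s0_gt k).symm)
    (fun m l => (lt_or_ge m γ).elim
      (fun k => (mix_s1_lt k).trans ((mix_s1_ge l).trans (mix_s1_lt k).symm))
      fun k => (mix_s1_ge k).trans (mix_s1_ge k).symm)
    fun m l => (le_or_gt m γ).elim
      (fun k => (mix_s2_le k).trans ((mix_s2_gt l).trans (mix_s2_le k).symm))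
      fun k => (mix_s2_gt k).trans (mix_s2_gt k).symm

lemma mix_fin (h : d.u.Finite) (h' : q.u.Finite) : (mix β d q).u.Finite :=
  (h.union h').subset fun m k => (le_or_gt m β).imp (fun l => (mix_u_le l).1 k)
    fun l => (mix_u_gt l).1 k

/-! ### the slots of a one step extension -/

variable {p : Raw} {μ : Obj γ}

open Classical in
lemma mx_s0 (m : I) :
    (p.act γ μ).s0 m = if m ≤ γ ∧ Z0 p.u γ m then (p.s0 m).tr m μ.g else p.s0 m := rfl

open Classical in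
lemma mx_s1 (h : m ≠ γ) :
    (p.act γ μ).s1 m = if m < γ ∧ blk p.u m γ then (p.s1 m).tr μ.g else p.s1 m :=
  Function.update_of_ne h _ _

open Classical in
lemma mx_s2 (h : m ≠ γ) :
    (p.act γ μ).s2 m = if m < γ ∧ blk p.u m γ then (p.s2 m).tr μ.g else p.s2 m :=
  Function.update_of_ne h _ _

lemma mx_s1_self : (p.act γ μ).s1 γ = (p.s1 γ).act μ := Function.update_self _ _ _

lemma mx_s2_self : (p.act γ μ).s2 γ = (p.s2 γ).act μ := Function.update_self _ _ _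

lemma mx_at (h : m ≠ γ) : At False ((p.act γ μ).s2 m) (p.s2 m) ∧
    At False (p.s2 m) ((p.act γ μ).s2 m) := by
  rw [mx_s2 h]
  split_ifs
  · exact ⟨⟨Iff.rfl, fun _ => rfl, fun _ => Subset.rfl, fun _ => le_rfl, fun _ => False.elim⟩,
      ⟨Iff.rfl, fun _ => rfl, fun _ => Subset.rfl, fun _ => le_rfl, fun _ => False.elim⟩⟩
  · exact ⟨At.refl _ _, At.refl _ _⟩

lemma mx_u : m ∈ (p.act γ μ).u ↔ m = γ ∨ m ∈ p.u := by
  rcases eq_or_ne m γ with rfl | h
  · refine iff_of_true ?_ (Or.inl rfl)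
    show ((p.act m μ).s2 m).on
    rw [mx_s2_self]; trivial
  · exact (mx_at h).1.on.trans (or_iff_right h).symm

lemma mx_s0_low (h : β ∈ p.u) (l : β < γ) (k : m ≤ β) : (p.act γ μ).s0 m = p.s0 m :=
  if_neg fun n => not_z0 h k l n.2

lemma mx_s1_low (h : β ∈ p.u) (l : β < γ) (k : m < β) : (p.act γ μ).s1 m = p.s1 m :=
  (mx_s1 (k.trans l).ne).trans (if_neg fun n => not_blk h k l n.2)

lemma mx_s2_low (h : β ∈ p.u) (l : β < γ) (k : m < β) : (p.act γ μ).s2 m = p.s2 m :=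
  (mx_s2 (k.trans l).ne).trans (if_neg fun n => not_blk h k l n.2)

lemma mx_s0_hi (l : γ < m) : (p.act γ μ).s0 m = p.s0 m := if_neg fun n => l.not_ge n.1

lemma mx_s1_hi (l : γ < m) : (p.act γ μ).s1 m = p.s1 m :=
  (mx_s1 l.ne').trans (if_neg fun n => l.not_gt n.1)

lemma mx_s2_hi (l : γ < m) : (p.act γ μ).s2 m = p.s2 m :=
  (mx_s2 l.ne').trans (if_neg fun n => l.not_gt n.1)

lemma mix_act_right (l : γ < β) (z : Raw) : mix β z (p.act γ μ) = mix β z p :=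
  mix_congr_right z (fun _ k => mx_s0_hi (l.trans k)) (fun _ k => mx_s1_hi (l.trans_le k))
    fun _ k => mx_s2_hi (l.trans k)

lemma act_mix_low (l : γ < β) (z : Raw) : (mix β p z).act γ μ = mix β (p.act γ μ) z := by
  have z0 : ∀ m, Z0 (mix β p z).u γ m ↔ Z0 p.u γ m := fun m =>
    z0_congr fun _ _ k => mix_u_le (k.trans l).le
  refine eq_mix (fun m k => ?_) (fun m k => ?_) (fun m k => ?_)
    (fun m k => (mx_s0_hi (l.trans k)).trans (mix_s0_gt k))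
    (fun m k => (mx_s1_hi (l.trans_le k)).trans (mix_s1_ge k))
    fun m k => (mx_s2_hi (l.trans k)).trans (mix_s2_gt k)
  · rw [mx_s0, mx_s0, mix_s0_le k]
    exact @if_congr _ _ _ (_) (_) _ _ _ _ (and_congr_right' (z0 m)) rfl rfl
  · rcases eq_or_ne m γ with rfl | n
    · rw [mx_s1_self, mx_s1_self, mix_s1_lt k]
    · rw [mx_s1 n, mx_s1 n, mix_s1_lt k]
      exact @if_congr _ _ _ (_) (_) _ _ _ _ (and_congr_right' (mix_blk_le l.le)) rfl rfl
  · rcases eq_or_ne m γ with rfl | n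
    · rw [mx_s2_self, mx_s2_self, mix_s2_le k]
    · rw [mx_s2 n, mx_s2 n, mix_s2_le k]
      exact @if_congr _ _ _ (_) (_) _ _ _ _ (and_congr_right' (mix_blk_le l.le)) rfl rfl

lemma act_mix_s0 (h : β ∈ z.u) (l : β < γ) (m : I) :
    ((mix β z p).act γ μ).s0 m = (mix β z (p.act γ μ)).s0 m := by
  rcases le_or_gt m β with k | k
  · rw [mx_s0_low ((mix_u_le le_rfl).2 h) l k, mix_s0_le k, mix_s0_le k]
  · have z0 : Z0 (mix β z p).u γ m ↔ Z0 p.u γ m := z0_congr fun _ n _ => mix_u_gt (k.trans_le n)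
    rw [mix_s0_gt k, mx_s0, mx_s0, mix_s0_gt k]
    exact @if_congr _ _ _ (_) (_) _ _ _ _ (and_congr_right' z0) rfl rfl

lemma act_mix_s1 (h : β ∈ z.u) (l : β < γ) (m : I) :
    ((mix β z p).act γ μ).s1 m = (mix β z (p.act γ μ)).s1 m := by
  rcases lt_or_ge m β with k | k
  · rw [mx_s1_low ((mix_u_le le_rfl).2 h) l k, mix_s1_lt k, mix_s1_lt k]
  · rcases eq_or_ne m γ with rfl | n
    · rw [mix_s1_ge k, mx_s1_self, mx_s1_self, mix_s1_ge k]
    · rw [mix_s1_ge k, mx_s1 n, mx_s1 n, mix_s1_ge k]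
      exact @if_congr _ _ _ (_) (_) _ _ _ _ (and_congr_right' (mix_blk_ge k)) rfl rfl

lemma act_mix_s2 (h : β ∈ z.u) (l : β < γ) (hm : m ≠ β) :
    ((mix β z p).act γ μ).s2 m = (mix β z (p.act γ μ)).s2 m := by
  rcases hm.lt_or_gt with k | k
  · rw [mx_s2_low ((mix_u_le le_rfl).2 h) l k, mix_s2_le k.le, mix_s2_le k.le]
  · rcases eq_or_ne m γ with rfl | n
    · rw [mix_s2_gt k, mx_s2_self, mx_s2_self, mix_s2_gt k]
    · rw [mix_s2_gt k, mx_s2 n, mx_s2 n, mix_s2_gt k]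
      exact @if_congr _ _ _ (_) (_) _ _ _ _ (and_congr_right' (mix_blk_ge k.le)) rfl rfl

end Raw

open Raw

section valid

variable {β γ m : I} {d q : Raw}

lemma At.mx_on {t t' : Prop} {x y : S2 m} (h : At t x y) (o : y.on) : At t' x y :=
  h.mono fun n => absurd o n

lemma LoOK.mix (hd : LoOK β d) (h2 : β < γ → (d.s2 β).OK (d.a β) (d.b β)) (hq : LoOK γ q)
    (h : β ∈ d.u) : LoOK γ (Raw.mix β d q) := by
  refine ⟨mix_fin hd.fin hq.fin, fun m k => ?_, fun m k => ?_, fun m k => ?_,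
    fun δ m k1 k2 k3 => ?_⟩
  · rcases le_or_gt m β with l | l
    · rw [mix_s0_le l]; exact hd.s0 m l
    · rw [mix_s0_gt l]; exact hq.s0 m k
  · rcases lt_or_ge m β with l | l
    · rw [mix_s1_lt l]; exact hd.s1 m l
    · rw [mix_s1_ge l]; exact hq.s1 m k
  · rcases lt_trichotomy m β with l | rfl | l
    · rw [Raw.a, Raw.b, mix_s0_le l.le, mix_s1_lt l, mix_s2_le l.le]; exact hd.s2 m l
    · rw [Raw.a, mix_s0_le le_rfl, mix_s2_le le_rfl]
      exact ⟨fun o => absurd h o, fun o => absurd h o, (h2 k).dm, (h2 k).he⟩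
    · rw [Raw.a, Raw.b, mix_s0_gt l, mix_s1_ge l.le, mix_s2_gt l]; exact hq.s2 m k
  · rcases le_or_gt m β with l | l
    · rw [Raw.a, Raw.b, mix_s0_le l, mix_s1_lt (k1.trans_le l)]
      exact hd.nest δ m k1 l ((mix_blk_le l).1 k3)
    · have n : β ≤ δ := not_lt.1 fun n => mix_not_blk h n l k3
      rw [Raw.a, Raw.b, mix_s0_gt l, mix_s1_ge n]
      exact hq.nest δ m k1 k2 ((mix_blk_ge n).1 k3)

variable [X : Ext S]

lemma Host.mix_lt {c : I} (h : β ∈ d.u) (l : γ < β) (k : Host (Raw.mix β d q).u γ c) :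
    c ≤ β ∧ Host d.u γ c :=
  have n : c ≤ β := k.blk β ((mix_u_le le_rfl).2 h) l
  ⟨n, (mix_u_le n).1 k.mem, k.lt, (mix_blk_le n).1 k.blk⟩

lemma Host.mix_ge {c : I} (l : β ≤ γ) (k : Host (Raw.mix β d q).u γ c) : Host q.u γ c :=
  ⟨(mix_u_gt (l.trans_lt k.lt)).1 k.mem, k.lt, (mix_blk_ge l).1 k.blk⟩

lemma OK.mix (hd : OK d) (hq : OK q) (h : β ∈ d.u) : OK (Raw.mix β d q) := by
  refine ⟨(hd.lo.mono le_top).mix (hd.lo.s2 β) hq.lo h, ?_, ?_, fun γ c k1 k2 => ?_⟩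
  · rcases le_or_gt ⊤ β with l | l
    exacts [(mix_u_le l).2 hd.top, (mix_u_gt l).2 hq.top]
  · rcases le_or_gt ⊤ β with l | l
    · rw [Raw.cr, mix_s2_le l]; exact hd.root
    · rw [Raw.cr, mix_s2_gt l]; exact hq.root
  · rcases lt_trichotomy γ β with l | rfl | l
    · obtain ⟨n1, n2⟩ := k2.mix_lt h l
      rw [Raw.A, Raw.cr, mix_s2_le l.le, mix_s2_le n1]
      exact hd.big γ c (mt (mix_u_le l.le).2 k1) n2
    · exact absurd ((mix_u_le le_rfl).2 h) k1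
    · rw [Raw.A, Raw.cr, mix_s2_gt l, mix_s2_gt (l.trans k2.lt)]
      exact hq.big γ c (mt (mix_u_gt l).2 k1) (k2.mix_ge l.le)

lemma Nrm.mix (hd : Nrm d) (hq : Nrm q) (h : β ∈ d.u) : Nrm (Raw.mix β d q) := by
  intro m k1 μ k2
  rcases le_or_gt m β with l | l
  · rw [Raw.A, mix_s2_le l] at k2
    obtain ⟨n1, n2⟩ := hd m (mt (mix_u_le l).2 k1) μ k2
    refine ⟨by rwa [Raw.a, mix_s0_le l], fun γ l1 l2 l3 => ?_⟩
    rw [Raw.A, mix_s2_le (l1.le.trans l)]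
    exact n2 γ l1 (mt (mix_u_le (l1.le.trans l)).2 l2) ((mix_blk_le l).1 l3)
  · rw [Raw.A, mix_s2_gt l] at k2
    obtain ⟨n1, n2⟩ := hq m (mt (mix_u_gt l).2 k1) μ k2
    refine ⟨by rwa [Raw.a, mix_s0_gt l], fun γ l1 l2 l3 => ?_⟩
    have n : β < γ := (not_lt.1 fun n => mix_not_blk h n l l3).lt_of_ne
      fun e => l2 (e ▸ (mix_u_le le_rfl).2 h)
    rw [Raw.A, mix_s2_gt n]
    exact n2 γ l1 (mt (mix_u_gt n).2 l2) ((mix_blk_ge n.le).1 l3)

end valid

section comp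

variable {β : I} {d d' r s : Raw} {C : I → Cone} {T : Set K} {t : Prop}

/-- comparison of mixtures -/
lemma LoC.mix' (h : β ∈ d'.u) (h1 : LoC C β univ True d d')
    (h2 : β < ⊤ → At True (d.s2 β) (d'.s2 β))
    (k0 : ∀ m, β < m → R0 (C m) (W.F0 s.u ⊤ T m) (r.s0 m) (s.s0 m))
    (k1 : ∀ m, β < m → m < ⊤ → R1 (m ∈ s.u) (C m) (W.F1 s.u ⊤ T m) (r.s1 m) (s.s1 m))
    (k1' : β < ⊤ → R1 True (C β) (W.F1 s.u ⊤ T β) (r.s1 β) (s.s1 β))
    (k2 : ∀ m, β < m → m < ⊤ → At (W.blk s.u m ⊤ → t) (r.s2 m) (s.s2 m)) :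
    LoC C ⊤ T t (Raw.mix β d r) (Raw.mix β d' s) := by
  refine ⟨fun m _ => ?_, fun m k => ?_, fun m k => ?_⟩
  · rcases le_or_gt m β with l | l
    · rw [mix_s0_le l, mix_s0_le l]
      exact (h1.s0 m l).mono (fun _ _ _ => trivial) fun _ _ _ => id
    · rw [mix_s0_gt l, mix_s0_gt l]
      exact (k0 m l).mono
        (fun _ n z => n ((z0_congr fun _ n _ => mix_u_gt (l.trans_le n)).2 z)) fun _ _ _ => id
  · rcases lt_trichotomy m β with l | rfl | l
    · rw [mix_s1_lt l, mix_s1_lt l]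
      exact (h1.s1 m l).mono (mix_u_le l.le) (fun _ _ _ => trivial) (fun _ _ _ _ => id)
        fun _ _ => id
    · rw [mix_s1_ge le_rfl, mix_s1_ge le_rfl]
      exact (k1' k).mono (iff_of_true ((mix_u_le le_rfl).2 h) trivial)
        (fun _ n z => n ((mix_blk_ge le_rfl).2 z)) (fun _ _ _ _ => id) fun _ _ => id
    · rw [mix_s1_ge l.le, mix_s1_ge l.le]
      exact (k1 m l k).mono (mix_u_gt l) (fun _ n z => n ((mix_blk_ge l.le).2 z))
        (fun _ _ _ _ => id) fun _ _ => id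
  · rcases lt_trichotomy m β with l | rfl | l
    · rw [mix_s2_le l.le, mix_s2_le l.le]
      exact (h1.s2 m l).mono fun _ _ _ => trivial
    · rw [mix_s2_le le_rfl, mix_s2_le le_rfl]
      exact (h2 k).mono fun _ _ => trivial
    · rw [mix_s2_gt l, mix_s2_gt l]
      exact (k2 m l k).mono fun _ n z => n ((mix_blk_ge l.le).2 z)

lemma LoC.mix {C2 : I → Cone} (h : β ∈ d'.u) (h' : β ∈ s.u) (h1 : LoC C β univ True d d')
    (h2 : β < ⊤ → At True (d.s2 β) (d'.s2 β)) (h3 : LoC C2 ⊤ T t r s)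
    (l2 : ∀ m, β ≤ m → ∀ ξ σ, C m ξ σ → C2 m ξ σ) :
    LoC C ⊤ T t (Raw.mix β d r) (Raw.mix β d' s) :=
  LoC.mix' h h1 h2 (fun m l => (h3.s0 m le_top).mono Subset.rfl fun ξ _ => l2 m l.le ξ)
    (fun m l k => (h3.s1 m k).mono Iff.rfl Subset.rfl (fun _ ξ _ => l2 m l.le ξ)
      fun _ σ n ζ => l2 m l.le ζ σ (n ζ))
    (fun k => (h3.s1 β k).mono (iff_of_true trivial h') Subset.rfl (fun _ ξ _ => l2 β le_rfl ξ)
      fun _ σ n ζ => l2 β le_rfl ζ σ (n ζ))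
    fun m _ k => h3.s2 m k

lemma cone_mix {m : I} (h : m ≤ β) : cone (Raw.mix β d r) m = cone d m := by
  funext ξ σ
  rw [cone, cone, mix_info h]

lemma Lo.cone_mix (h : Lo β T t d d') (r : Raw) : LoC (W.cone (Raw.mix β d r)) β T t d d' :=
  h.toLoC.cone fun m l ξ _ σ n => by rwa [W.cone_mix l] at n

lemma Lo.mix_left {γ : I} (h : γ ≤ β) : Lo γ T t (Raw.mix β d r) d :=
  Lo.of_congr (fun _ k => mix_s0_le (k.trans h)) (fun _ k => mix_s1_lt (k.trans_le h))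
    fun _ k => by rw [mix_s2_le (k.le.trans h)]; exact At.refl _ _

lemma Lo.mix_right {γ : I} (h : γ ≤ β) : Lo γ T t d (Raw.mix β d r) :=
  Lo.of_congr (fun _ k => (mix_s0_le (k.trans h)).symm)
    (fun _ k => (mix_s1_lt (k.trans_le h)).symm)
    fun _ k => by rw [mix_s2_le (k.le.trans h)]; exact At.refl _ _

end comp

end Pool.Agent.Lib.MP_d4b40b_lc.W
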