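import Pool.Agent.Lib.MP_d4b40b_lc.W.Order
import Pool.Agent.Lib.MP_d4b40b_lc.W.MixA

set_option autoImplicit false
set_option linter.unusedSectionVars false

namespace Pool.Agent.Lib.MP_d4b40b_lc.W

open Filter Set Cardinal

variable [S : Sys] [X : Ext S]

variable {r q p s s' d d' y z : Cond} {α : K} {β γ m : I}

theorem mix_val (h : β ∈ d.u) (q : Cond) : (mix β d q).1 = Raw.mix β d.1 q.1 :=
  Cond.mk_val _ ⟨d.ok.mix q.ok h, d.nrm.mix q.nrm h⟩

lemma mix_u_le (h : β ∈ d.u) (l : m ≤ β) : m ∈ (mix β d q).u ↔ m ∈ d.u := by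
  rw [Cond.u, mix_val h]; exact Raw.mix_u_le l

lemma mix_u_gt (h : β ∈ d.u) (l : β < m) : m ∈ (mix β d q).u ↔ m ∈ q.u := by
  rw [Cond.u, mix_val h]; exact Raw.mix_u_gt l

lemma mix_u (h : β ∈ d.u) (q : Cond) :
    m ∈ (mix β d q).u ↔ (m ≤ β ∧ m ∈ d.u) ∨ (β < m ∧ m ∈ q.u) := by
  rcases le_or_gt m β with l | l
  · rw [mix_u_le h l]
    exact ⟨fun k => Or.inl ⟨l, k⟩, fun k => k.elim (·.2) fun k => absurd k.1 l.not_gt⟩
  · rw [mix_u_gt h l]
    exact ⟨fun k => Or.inr ⟨l, k⟩, fun k => k.elim (fun k => absurd k.1 l.not_ge) (·.2)⟩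

lemma mix_on (h : β ∈ d.u) (q : Cond) : β ∈ (mix β d q).u := (mix_u_le h le_rfl).2 h

lemma mix_s0_le (h : β ∈ d.u) (l : m ≤ β) : (mix β d q).1.s0 m = d.1.s0 m := by
  rw [mix_val h]; exact Raw.mix_s0_le l

lemma mix_s0_gt (h : β ∈ d.u) (l : β < m) : (mix β d q).1.s0 m = q.1.s0 m := by
  rw [mix_val h]; exact Raw.mix_s0_gt l

lemma mix_s1_lt (h : β ∈ d.u) (l : m < β) : (mix β d q).1.s1 m = d.1.s1 m := by
  rw [mix_val h]; exact Raw.mix_s1_lt l

lemma mix_s1_ge (h : β ∈ d.u) (l : β ≤ m) : (mix β d q).1.s1 m = q.1.s1 m := by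
  rw [mix_val h]; exact Raw.mix_s1_ge l

lemma mix_s2_le (h : β ∈ d.u) (l : m ≤ β) : (mix β d q).1.s2 m = d.1.s2 m := by
  rw [mix_val h]; exact Raw.mix_s2_le l

lemma mix_s2_gt (h : β ∈ d.u) (l : β < m) : (mix β d q).1.s2 m = q.1.s2 m := by
  rw [mix_val h]; exact Raw.mix_s2_gt l

lemma mix_info (h : β ∈ d.u) (l : m ≤ β) : (mix β d q).info m = d.info m := by
  rw [Cond.info, mix_val h]; exact Raw.mix_info l

lemma lw_mix (h : β ∈ d.u) (q : Cond) : Lw β (mix β d q) d ∧ Lw β d (mix β d q) :=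
  ⟨⟨by rw [Lb, mix_val h]; exact Lo.mix_left le_rfl,
    by rw [mix_s2_le h le_rfl]; exact At.refl _ _⟩,
   ⟨by rw [Lb, mix_val h]; exact Lo.mix_right le_rfl,
    by rw [mix_s2_le h le_rfl]; exact At.refl _ _⟩⟩

lemma mix_self (h : β ∈ d.u) : mix β d d = d :=
  Subtype.ext ((mix_val h d).trans (Raw.mix_self _ _))

lemma mix_mix_left' (h : β ∈ d.u) (h' : γ ∈ d.u) (l : β ≤ γ) (q z : Cond) :
    mix β (mix γ d q) z = mix β d z :=
  Subtype.ext (by rw [mix_val ((mix_u_le h' l).2 h), mix_val h', mix_val h, Raw.mix_mix_left l])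

lemma mix_mix_left (h : β ∈ d.u) (q z : Cond) : mix β (mix β d q) z = mix β d z :=
  mix_mix_left' h h le_rfl q z

lemma mix_mix_right' (h : β ∈ d.u) (h' : γ ∈ d'.u) (l : γ ≤ β) (q : Cond) :
    mix β d (mix γ d' q) = mix β d q :=
  Subtype.ext (by rw [mix_val h, mix_val h', mix_val h, Raw.mix_mix_right l])

lemma mix_mix_right (h : β ∈ d.u) (h' : β ∈ d'.u) (z : Cond) :
    mix β d (mix β d' z) = mix β d z := mix_mix_right' h h' le_rfl z

lemma mix_assoc (h : β ∈ d.u) (h' : γ ∈ q.u) (l : β < γ) (z : Cond) :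
    mix γ (mix β d q) z = mix β d (mix γ q z) :=
  Subtype.ext (by
    rw [mix_val ((mix_u_gt h l).2 h'), mix_val h, mix_val h, mix_val h', Raw.mix_assoc l.le])

/-- comparison of mixtures: lower parts directly, upper parts on the cone of the mixture -/
lemma lo_mix {T : Set K} {t : Prop} (hT : IsLowerSet T) (h : β ∈ d'.u) (h' : β ∈ s.u)
    (h1 : Lw β d d') (h2 : Lo ⊤ T t r.1 s.1)
    (h3 : ∀ m, β ≤ m → Sub m univ (r.info m) ((mix β d r).info m)) :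
    Lo ⊤ T t (mix β d r).1 (mix β d' s).1 := by
  have k := h1.on.2 h
  refine Lo.of_cone hT (mix β d' s).lo.s1 ?_
  simp only [Cond.info, mix_val k] at h3
  rw [mix_val k, mix_val h]
  exact LoC.mix h h' (Lo.cone_mix h1.1 _) (fun _ => h1.2) h2.toLoC
    fun m l ξ σ n => ((h3 m l).of_univ _).trans n

lemma mix_l' (h : β ∈ d'.u) (e : Lb β d d') (e' : β < ⊤ → At True (d.1.s2 β) (d'.1.s2 β))
    (z : Cond) : DLe (mix β d z) (mix β d' z) := by
  have k : β ∈ d.u := (le_top (a := β)).eq_or_lt.elim (fun l => l ▸ d.top) fun l => (e' l).on.2 h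
  refine Lo.of_cone isLowerSet_univ (mix β d' z).lo.s1 ?_
  rw [mix_val k, mix_val h]
  exact LoC.mix' h (Lo.cone_mix e _) e' (fun _ _ => R0.refl _ _ _) (fun _ _ _ => R1.refl _ _ _ _)
    (fun _ => R1.refl _ _ _ _) fun _ _ _ => At.refl _ _

lemma mix_l (h : β ∈ d'.u) (e : Lw β d d') (z : Cond) : DLe (mix β d z) (mix β d' z) :=
  mix_l' h e.1 (fun _ => e.2) z

lemma dle_mix_of_lw (e : Lw β d s) (l : β ∈ s.u) : DLe (mix β d s) s := by
  have := mix_l l e s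
  rwa [mix_self l] at this

lemma dle_mix_of_lw' (e : Lw β s d) (l : β ∈ d.u) : DLe s (mix β d s) := by
  have := mix_l l e s
  rwa [mix_self (e.on.2 l)] at this

section act

variable {μ : Obj γ}

lemma Adm.ne_on (h : Adm p γ μ) (k : β ∈ p.u) : γ ≠ β := fun e => h.1 (e ▸ k)

/-- activation above an activated level does not change the lower part -/
lemma lw_act_hi (h : Adm p γ μ) (k : β ∈ p.u) (l : β < γ) :
    Lw β (act p γ μ) p ∧ Lw β p (act p γ μ) := by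
  rw [Lw, Lw, Lb, Lb, act_val h]
  exact ⟨⟨Lo.of_congr (fun _ => Raw.mx_s0_low k l) (fun _ => Raw.mx_s1_low k l) fun _ n => by
      rw [Raw.mx_s2_low k l n]; exact At.refl _ _, (Raw.mx_at l.ne).1.mx_on k⟩,
    ⟨Lo.of_congr (fun _ n => (Raw.mx_s0_low k l n).symm) (fun _ n => (Raw.mx_s1_low k l n).symm)
      fun _ n => by rw [Raw.mx_s2_low k l n]; exact At.refl _ _,
      (Raw.mx_at l.ne).2.mx_on (Raw.mx_u.2 (Or.inr k))⟩⟩

lemma mix_act_right (h : Adm p γ μ) (k : β ∈ z.u) (l : γ < β) :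
    mix β z (act p γ μ) = mix β z p :=
  Subtype.ext (by rw [mix_val k, mix_val k, act_val h, Raw.mix_act_right l])

lemma Adm.mix_left (h : Adm p γ μ) (k : β ∈ p.u) (l : γ < β) (z : Cond) : Adm (mix β p z) γ μ :=
  ⟨mt (mix_u_le k l.le).1 h.1, by rw [Cond.A, Raw.A, mix_s2_le k l.le]; exact h.2⟩

lemma Adm.mix_right (h : Adm p γ μ) (k : β ∈ z.u) (l : β < γ) : Adm (mix β z p) γ μ :=
  ⟨mt (mix_u_gt k l).1 h.1, by rw [Cond.A, Raw.A, mix_s2_gt k l]; exact h.2⟩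

lemma act_mix_low (h : Adm p γ μ) (k : β ∈ p.u) (l : γ < β) (z : Cond) :
    act (mix β p z) γ μ = mix β (act p γ μ) z :=
  Subtype.ext (by
    rw [act_val (h.mix_left k l z), mix_val k, mix_val (u_mono (act_le h) k), act_val h,
      Raw.act_mix_low l])

lemma act_mix_hi (h : Adm p γ μ) (k : β ∈ z.u) (l : β < γ) :
    DLe (act (mix β z p) γ μ) (mix β z (act p γ μ)) ∧
      DLe (mix β z (act p γ μ)) (act (mix β z p) γ μ) := by
  have k1 := (Raw.mix_u_le (d := z.1) (q := p.1) le_rfl).2 k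
  rw [DLe, DLe, act_val (h.mix_right k l), mix_val k, mix_val k, act_val h]
  refine ⟨Lo.of_congr (fun m _ => Raw.act_mix_s0 k l m) (fun m _ => Raw.act_mix_s1 k l m)
    fun m _ => ?_, Lo.of_congr (fun m _ => (Raw.act_mix_s0 k l m).symm)
      (fun m _ => (Raw.act_mix_s1 k l m).symm) fun m _ => ?_⟩ <;>
    rcases eq_or_ne m β with rfl | n
  · have := (Raw.mx_at (p := Raw.mix m z.1 p.1) (μ := μ) l.ne).1
    rw [Raw.mix_s2_le le_rfl] at this ⊢
    exact this.mx_on k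
  · rw [Raw.act_mix_s2 k l n]; exact At.refl _ _
  · have := (Raw.mx_at (p := Raw.mix m z.1 p.1) (μ := μ) l.ne).2
    rw [Raw.mix_s2_le le_rfl] at this ⊢
    exact this.mx_on (Raw.mx_u.2 (Or.inr k1))
  · rw [Raw.act_mix_s2 k l n]; exact At.refl _ _

end act

lemma UpLe.info (h : UpLe β y s) (k : β ∈ s.u) (l : β ≤ m) : Sub m univ (s.info m) (y.info m) :=
  info_le h.1 fun c n n' l' => absurd
    ((l.trans l').eq_or_lt.elim (fun e => e ▸ k) (h.2 c n)) n'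

/-- M1 -/
theorem mix_le_left (h : r ≤ s) (l : β ∈ s.u) (z : Cond) : mix β r z ≤ mix β s z :=
  le_step (P := fun r s => β ∈ s.u → mix β r z ≤ mix β s z) h
    (fun _ _ e k => (mix_l' k (e.lb β) (fun l => (e.lw l).2) z).le)
    (fun _ _ _ a k => (a.ne_on k).lt_or_gt.elim
      (fun l => act_mix_low a k l z ▸ act_le (a.mix_left k l z))
      fun l => (mix_l k (lw_act_hi a k l).1 z).le)
    (fun _ _ _ _ l2 k1 k2 k => (k1 (u_mono l2 k)).trans (k2 k)) l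

lemma LL.of_le (h : r ≤ s) (l : β ∈ s.u) : LL β r s :=
  ⟨u_mono h l, l, (mix_le_left h l s).trans_eq (mix_self l)⟩

lemma LL.refl (l : β ∈ s.u) : LL β s s := LL.of_le le_rfl l

lemma LL.of_lw (e : Lw β d s) (l : β ∈ s.u) : LL β d s := ⟨e.on.2 l, l, (dle_mix_of_lw e l).le⟩

lemma LL.upLe (h : LL β d s) : UpLe β (mix β d s) s := ⟨h.2.2, fun _ n l => (mix_u_gt h.1 l).1 n⟩

/-- M1 for lower parts -/
lemma LL.mix_left (h : LL β d s) (z : Cond) : mix β d z ≤ mix β s z :=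
  (mix_mix_left h.1 s z).symm.trans_le (mix_le_left h.2.2 h.2.1 z)

lemma LL.trans (h : LL β d s) (h' : LL β s s') : LL β d s' :=
  ⟨h.1, h'.2.1, (h.mix_left s').trans h'.2.2⟩

lemma LL.lw_left (h : LL β d s) (e : Lw β d' d) : LL β d' s := (LL.of_lw e h.1).trans h

lemma LL.lw_right (h : LL β d s) (e : Lw β s s') : LL β d s' :=
  h.trans (LL.of_lw e (e.on.1 h.2.1))

lemma LL.le_right (h : LL β d s) (e : s ≤ s') (l : β ∈ s'.u) : LL β d s' :=
  h.trans (LL.of_le e l)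

lemma LL.le_left (h : LL β d s) (e : d' ≤ d) : LL β d' s := (LL.of_le e h.1).trans h

lemma LL.lo_right {T : Set K} {t : Prop} (h : LL β d s) (hT : IsLowerSet T)
    (e : Lo ⊤ T t s.1 s'.1) (k : β ∈ s'.u) : Lo ⊤ T t (mix β d s).1 (mix β d s').1 :=
  lo_mix hT h.1 k (Lw.refl _ _) e fun _ => h.upLe.info h.2.1

lemma LL.dle_right (h : LL β d s) (e : DLe s s') : DLe (mix β d s) (mix β d s') :=
  h.lo_right isLowerSet_univ e (e.u ▸ h.2.1)

lemma LL.ex_right (h : LL β d s) (e : Ex α s s') : Ex α (mix β d s) (mix β d s') :=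
  h.lo_right (isLowerSet_Iio α) e (e.u ▸ h.2.1)

/-- M2 -/
theorem LL.mix_le (h : LL β d s) (e : s ≤ s') (l : β ∈ s'.u) : mix β d s ≤ mix β d s' :=
  le_step (P := fun s s' => β ∈ s'.u → LL β d s → mix β d s ≤ mix β d s') e
    (fun _ _ e _ h => (h.dle_right e).le)
    (fun _ _ _ a k h => (a.ne_on k).lt_or_gt.elim (fun l => (mix_act_right a h.1 l).le)
      fun l => (act_mix_hi a h.1 l).2.le.trans (act_le (a.mix_right h.1 l)))
    (fun _ _ _ l1 l2 k1 k2 k h => (k1 (u_mono l2 k) h).trans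
      (k2 k (h.le_right l1 (u_mono l2 k)))) l h

theorem LL.mix_dle (h : LL β d s) (e : UpLe β s s') (l : β ∈ s'.u) :
    DLe (mix β d s) (mix β d s') :=
  dle_of_le (h.mix_le e.1 l) fun c n => (le_or_gt c β).elim
    (fun k => (mix_u_le h.1 k).2 ((mix_u_le h.1 k).1 n))
    fun k => (mix_u_gt h.1 k).2 (e.2 c ((mix_u_gt h.1 k).1 n) k)

theorem le_mix_self (h : r ≤ s) (l : β ∈ s.u) : r ≤ mix β r s :=
  (mix_self (u_mono h l)).symm.trans_le ((LL.refl (u_mono h l)).mix_le h l)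

lemma UpLe.dle_mix (h : UpLe β y s) (l : β ∈ s.u) : DLe y (mix β y s) := by
  have := (LL.refl (u_mono h.1 l)).mix_dle h l
  rwa [mix_self (u_mono h.1 l)] at this

/-- `r` is below a mixture if it is below the upper part and extends the lower part -/
theorem le_mix (h : r ≤ s) (l : β ∈ s.u) (h' : LL β r d) : r ≤ mix β d s :=
  (le_mix_self h l).trans (h'.mix_left s)

lemma LL.of_le_mix (h : r ≤ mix β d s) (l : β ∈ d.u) : LL β r d :=
  (LL.of_le h (mix_on l s)).lw_right (lw_mix l s).1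

lemma LL.lw (h : LL β d s) (l : β < ⊤) (hu : ∀ c ∈ d.u, c < β → c ∈ s.u) : Lw β d s :=
  (lw_mix h.1 s).2.trans
    (lw_of_le h.2.2 l h.2.1 fun c n e => hu c ((mix_u_le h.1 e.le).1 n) e)

variable {μ ν : Obj β}

/-- no hypothesis on `d`: the names are equal outright -/
lemma mix_act_agr (l : β ∈ d.u) (h : Adm p β μ) (e : Agr (p.b β) μ ν) :
    DLe (mix β d (act p β ν)) (mix β d (act p β μ)) := by
  refine Lo.of_eq isLowerSet_univ (mix β d (act p β μ)).lo.s1 ?_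
  rw [mix_val l, mix_val l, act_val h, act_val (h.agr e)]
  refine LoC.mix' l (LoC.refl _ _ _ _ _) (fun _ => At.refl _ _) (fun m k => ?_) (fun m k _ => ?_)
    (fun k => ?_) fun m k _ => ?_
  · rw [Raw.mx_s0_hi k, Raw.mx_s0_hi k]; exact R0.refl _ _ _
  · rw [Raw.mx_s1_hi k, Raw.mx_s1_hi k]; exact R1.refl _ _ _ _
  · rw [Raw.mx_s1_self, Raw.mx_s1_self]
    exact E1.le (x := (p.1.s1 β).act ν) (y := (p.1.s1 β).act μ) ⟨rfl,
      fun _ ξ n => ((p.lo.s1 β k).inv ξ n μ ν (e.mono inter_subset_left)).symm,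
      fun o => absurd trivial o⟩ _ _
  · rw [Raw.mx_s2_hi k, Raw.mx_s2_hi k]; exact At.refl _ _

/-- changing the third slot at one level -/
lemma exists_set2 (hβ : β < ⊤) (p : Cond) (x : S2 β) (h1 : x.on ↔ β ∈ p.u)
    (h2 : β ∈ p.u → x.cr = p.cr β ∧ Val #(dm (p.cr β)) (Lt K (kp β)) x.e)
    (h3 : x.A = p.A β) : ∃ q : Cond, q.1.s0 = p.1.s0 ∧ q.1.s1 = p.1.s1 ∧ q.1.s2 β = x ∧
      (∀ m ≠ β, q.1.s2 m = p.1.s2 m) ∧ Lb β q p ∧ Lb β p q ∧ (At True x (p.1.s2 β) → DLe q p) := by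
  classical
  have e1 : (p.1.set2 β x).s2 β = x := Function.update_self _ _ _
  have e2 : ∀ m ≠ β, (p.1.set2 β x).s2 m = p.1.s2 m := fun m k => Function.update_of_ne k _ _
  have e3 : (p.1.set2 β x).u = p.1.u := Set.ext fun m => by
    show ((p.1.set2 β x).s2 m).on ↔ _
    rcases eq_or_ne m β with rfl | k
    · rw [e1]; exact h1
    · rw [e2 m k]; rfl
  have e4 : (p.1.set2 β x).A = p.1.A := funext fun m => by
    rcases eq_or_ne m β with rfl | k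
    · rw [Raw.A, e1]; exact h3
    · rw [Raw.A, e2 m k]
  have e5 : ∀ m ∈ p.u, (p.1.set2 β x).cr m = p.1.cr m := fun m o => by
    rcases eq_or_ne m β with rfl | k
    · rw [Raw.cr, e1]; exact (h2 o).1
    · rw [Raw.cr, e2 m k]
  refine ⟨⟨p.1.set2 β x, ⟨⟨e3 ▸ p.lo.fin, p.lo.s0, p.lo.s1, fun m k => ?_, e3 ▸ p.lo.nest⟩,
    e3 ▸ p.top, (e5 ⊤ p.top).trans p.ok.root, fun γ c k1 k2 => ?_⟩, fun m k => ?_⟩, rfl, rfl, e1, e2,
    Lo.of_congr (fun _ _ => rfl) (fun _ _ => rfl) fun m k => ?_,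
    Lo.of_congr (fun _ _ => rfl) (fun _ _ => rfl) fun m k => ?_,
    fun h => Lo.of_congr (fun _ _ => rfl) (fun _ _ => rfl) fun m _ => ?_⟩
  · rcases eq_or_ne m β with rfl | n
    · rw [e1]
      exact ⟨fun o => h3 ▸ p.inv (mt h1.2 o), fun o => p.ab (mt h1.2 o),
        fun o => (h2 (h1.1 o)).1 ▸ p.a_dm (h1.1 o), fun o => (h2 (h1.1 o)).1 ▸ (h2 (h1.1 o)).2⟩
    · rw [e2 m n]; exact p.lo.s2 m k
  · rw [e3] at k1 k2
    rw [e4, e5 c k2.mem]
    exact p.ok.big γ c k1 k2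
  · rw [e3] at k
    rw [e4]
    exact fun μ n => ⟨(p.nrm m k μ n).1, e3 ▸ (p.nrm m k μ n).2⟩
  · rw [e2 m k.ne]; exact At.refl _ _
  · rw [e2 m k.ne]; exact At.refl _ _
  · rcases eq_or_ne m β with rfl | n
    · rw [e1]; exact h.mono fun _ _ => trivial
    · rw [e2 m n]; exact At.refl _ _

/-- changing the upper collapse -/
lemma exists_setE (hβ : β < ⊤) (l : β ∈ p.u) {e : Set (Tr K)}
    (he : Val #(dm (p.cr β)) (Lt K (kp β)) e) : ∃ q : Cond, β ∈ q.u ∧ q.cr β = p.cr β ∧ q.e β = e ∧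
      Lb β q p ∧ Lb β p q ∧ (p.e β ⊆ e → DLe q p) := by
  obtain ⟨q, -, -, h1, -, h2, h3, h4⟩ := exists_set2 hβ p ⟨True, p.cr β, p.A β, p.H β, e⟩
    (iff_of_true trivial l) (fun _ => ⟨rfl, he⟩) rfl
  exact ⟨q, show (q.1.s2 β).on from h1 ▸ trivial, (congrArg S2.cr h1 :), congrArg S2.e h1, h2,
    h3,
    fun k => h4 ⟨iff_of_true trivial l, fun _ => rfl, fun _ => k, fun o => absurd l o,
      fun o => absurd l o⟩⟩

/-- changing the guide -/
lemma exists_setH' (l : β ∉ p.u) {h : HH β} (hh : h ≤ p.H β) :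
    ∃ q : Cond, DLe q p ∧ q.H β = h ∧ q.A β = p.A β ∧ q.1.s0 = p.1.s0 ∧ q.1.s1 = p.1.s1 ∧
      (∀ m ≠ β, q.1.s2 m = p.1.s2 m) ∧ Lb β p q := by
  obtain ⟨q, h0, h0', h1, h2, -, h3, h4⟩ := exists_set2 (Cond.lt_top l) p
    ⟨False, p.cr β, p.A β, h, p.e β⟩ (iff_of_false id l) (fun o => absurd o l) rfl
  exact ⟨q, h4 ⟨iff_of_false id l, fun o => absurd o l, fun o => absurd o l, fun _ => hh,
    fun _ _ => Subset.rfl⟩, congrArg S2.H h1, (congrArg S2.A h1 :), h0, h0', h2, h3⟩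

lemma Lw.of_lb (h : Lb β q p) (h1 : β ∈ q.u) (h2 : β ∈ p.u) (h3 : q.cr β = p.cr β)
    (h4 : p.e β ⊆ q.e β) : Lw β q p :=
  ⟨h, iff_of_true h1 h2, fun _ => h3, fun _ => h4, fun o => absurd h2 o, fun o => absurd h2 o⟩

lemma Fc.dense (hβ : β < ⊤) (l : β ∈ p.u) {ξ v : K} (h1 : ξ ∈ Lt K (kp β)) (h2 : v ≤ ξ) :
    ∃ q ≤ p, ∃ i ∈ Lt K (Order.succ #(dm (p.cr β))), Fc β ξ i v q := by
  obtain ⟨i, k1, k2⟩ := (p.he hβ l).add ((dm_lt hβ _).trans_le (kp_le_K β)) (dm_inf _ hβ) h1 h2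
  obtain ⟨q, q1, -, q2, -, -, q3⟩ := exists_setE hβ l k2
  exact ⟨q, (q3 subset_union_left).le, i, mem_Lt_succ.2 k1, hβ, q1, q2 ▸ Or.inr rfl⟩

end Pool.Agent.Lib.MP_d4b40b_lc.W
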