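import Pool.Agent.Lib.MP_d4b40b_lc.Tools
import Pool.Agent.Lib.MP_d4b40b_lc.W.Iface
import Pool.Agent.Lib.MP_d4b40b_lc.W.Defs

set_option autoImplicit false
set_option linter.unusedSectionVars false

namespace Pool.Agent.Lib.MP_d4b40b_lc.W

open Pool.Agent.Lib.helper81 Pool.Agent.Lib.helper81.Name Pool.Agent.Lib.MP_fcebdf_lc Set Cardinal
open Filter

variable [S : Sys] {P : Type} [Preorder P]

variable (P) in
/-- the name of a ground model cardinal -/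
noncomputable abbrev oc (ρ : Cardinal.{0}) : HN P := oS P (Lt K ρ)

variable (P) in
/-- the name of an ordinal -/
noncomputable abbrev oo (β : K) : HN P := ordH P β

instance infinite_K : Infinite K := infinite_iff.2 K_inf

lemma exists_Lt_eq {ρ : Cardinal.{0}} (h : ρ < #K) : ∃ w : K, Iio w = Lt K ρ := by
  obtain ⟨β, h1⟩ := (ae_above (T := Lt K ρ) ((mk_Lt_le ρ).trans_lt h)).exists
  obtain ⟨w, h2, h3⟩ := (wellFounded_lt (α := K)).has_min {β | β ∉ Lt K ρ}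
    ⟨β, fun k => lt_irrefl β (h1 k)⟩
  exact ⟨w, Subset.antisymm (fun γ l => by_contra fun k => h3 γ k l)
    fun γ k => not_le.1 fun l => h2 (lower_Lt ρ l k)⟩

lemma exists_emb {A : Type} {ρ : Cardinal.{0}} (h : #A ≤ ρ) (h' : ρ ≤ #K) :
    ∃ e : A → K, Function.Injective e ∧ ∀ a, e a ∈ Lt K ρ := by
  obtain ⟨e⟩ := (Cardinal.le_def _ _).1 (h.trans (le_mk_Lt h'))
  exact ⟨fun a => e a, Subtype.val_injective.comp e.injective, fun a => (e a).2⟩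

lemma pow_lt_kp {m n : I} (h : m < n) : 2 ^ kp m < kp n :=
  (inacc_kp n).isStrongPrelimit (S.mono h)

lemma pow_lt_ks {m : I} (h : m < ⊤) : 2 ^ kp m < ks := by
  obtain ⟨n, k1, k2⟩ := exists_gt h
  exact (pow_lt_kp k2).trans (kp_lt_ks k1)

lemma ro_fmem (x y : HN P) : RO (fun r => Fmem x.1 y.1 r) :=
  ⟨fun _ _ => Fmem.mono, fun _ => Fmem.reg⟩

theorem pow_le (H : Iface P) (gm : GN P) {L : Set K} {m : I} (hm : m < ⊤) (hL : #L ≤ kp m)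
    (h1 : oS P L ∈ gm.S) (h2 : oc P (2 ^ kp m) ∈ gm.S) {Y : gm.M}
    (hY : Pow gm.E Y (gm.val (oS P L))) : Le gm.E Y (gm.val (oc P (2 ^ kp m))) := by
  obtain ⟨Y, h3, rfl⟩ := gm.surj Y
  obtain ⟨p, hp, h4⟩ := gm.truthDef (def_pow 0 1) (mem2 h3 h1) hY
  obtain ⟨Φ, Sig, s1, s2, s3⟩ := H.cover m hm L hL
  obtain ⟨e, e1, e2⟩ := exists_emb s1 ((pow_lt_ks hm).trans ks_lt).le
  let σ : Φ → HN P := fun φ =>
    mkH (fun ξ : L => oo P ξ.1) fun ξ => ⟨{r | Sig φ ξ r}, fun _ _ l k => s2 _ _ _ _ k l⟩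
  refine fc_cover σ e (fun _ _ => True) (fun _ _ _ _ _ => trivial) (fun φ _ _ => e2 φ)
    (fun φ φ' q _ _ k => e1 k ▸ Feq.refl _ _) (fun x q hq hx => ?_) gm hp (mem2 h3 h2)
  obtain ⟨r, k1, φ, k2⟩ := s3 (fun ξ r => Fmem (oo P ξ.1).1 x.1 r) (fun _ => ro_fmem _ _) q
  refine ⟨r, k1, φ, trivial, feq_of_gm {Y, oS P L} (to_countable _)
    fun g l1 l2 l3 l4 => g.ext _ _ fun z => ⟨fun k => ?_, fun k => ?_⟩⟩
  · have a1 : Y ∈ g.S := l4 (by simp)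
    have a2 : oS P L ∈ g.S := l4 (by simp)
    obtain ⟨ξ, n1, n2, rfl⟩ := oS_elim g a2 ((h4.mono (k1.trans hq) g l1 (mem2 a1 a2) _).1
      (val_mem g l2 a1 l1 (hx.mono k1)) z k)
    obtain ⟨s, n3, n4⟩ := (g.mem_iff n2 l2).1 k
    obtain ⟨t, n5, n6, n7⟩ := g.dir _ _ l1 n3
    refine val_mem g n2 l3 n5 (Fmem.reg fun u hu => ?_)
    exact ((k2 ⟨ξ, n1⟩ u (hu.trans n6)).2 (n4.mono (hu.trans n7))).imp fun _ k =>
      ⟨k.1, fmem_mkH (A := fun ξ : L => oo P ξ.1) (i := ⟨ξ, n1⟩) k.2⟩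
  · obtain ⟨ξ, n2, rfl, s, n3, n4⟩ := mkH_elim g l3 k
    obtain ⟨t, n5, n6, n7⟩ := g.dir _ _ l1 n3
    exact val_mem g n2 l2 n5 ((k2 ξ t n6).1 (s2 _ _ _ _ n4 n7))

theorem not_le_pow (H : Iface P) (gm : GN P) {L : Set K} {m : I} (hm : m < ⊤) (hL : #L ≤ kp m)
    (h1 : oS P L ∈ gm.S) (h2 : oc P (2 ^ kp m) ∈ gm.S) :
    ¬ Le gm.E (gm.val (oc P (2 ^ kp m))) (gm.val (oS P L)) := fun h => by
  obtain ⟨Y, hY⟩ := gm.isZF.pow (gm.val (oS P L))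
  exact cantor' gm.isZF hY (le_trans' gm.isZF (pow_le H gm hm hL h1 h2 hY) h)

theorem not_le_ks (H : Iface P) (gm : GN P) {L : Set K} (hL : #L < ks) (h1 : oS P L ∈ gm.S)
    (h2 : oc P ks ∈ gm.S) : ¬ Le gm.E (gm.val (oc P ks)) (gm.val (oS P L)) := by
  obtain ⟨m, hm, hm'⟩ := lt_ks hL
  obtain ⟨p, hp⟩ := gm.nonempty
  refine Fc.of_extra (def_le 0 1).not (w := w2 (oc P ks) (oS P L))
    {oc P (2 ^ kp m)} (to_countable _) (fun g _ k1 k2 k => ?_) gm hp (mem2 h2 h1)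
  exact not_le_pow H g hm hm'.le (k1 1) (k2 rfl) (le_trans' g.isZF
    (le_of_sub g.isZF (sub_oS g (Lt_mono (pow_lt_ks hm).le) (k2 rfl) (k1 0))) k)

theorem strongLimit (H : Iface P) (gm : GN P) (h : oc P ks ∈ gm.S) :
    StrongLimit gm.E (gm.val (oc P ks)) := by
  intro x y hx hy
  obtain ⟨β, h1, h2, rfl⟩ := oS_elim gm h hx
  obtain ⟨m, hm, hm'⟩ := lt_ks h1
  rw [ordH_eq] at h2 hy
  obtain ⟨y, h3, rfl⟩ := gm.surj y
  obtain ⟨p, hp⟩ := gm.nonempty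
  exact Fc.of_extra ((def_pow 1 2).imp (def_le 0 1).not) (w := w3 (oc P ks) y (oS P (Iio β)))
    {oc P (2 ^ kp m)} (to_countable _) (fun g _ k1 k2 k l =>
      not_le_ks H g ((mk_Lt_le _).trans_lt (pow_lt_ks hm)) (k2 rfl) (k1 0)
        (le_trans' g.isZF l (pow_le H g hm hm'.le (k1 2) (k2 rfl) k))) gm hp (mem3 h h3 h2) hy

lemma def_isCard (i : ℕ) : Def (fun _ E v => IsCard E (v i)) :=
  (def_isOrd i).and (Def.all ((Def.mem _ _).imp (def_le _ _).not))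

/-- above every small set there is a cardinal -/
lemma exists_card (H : Iface P) (gm : GN P) (h : oc P ks ∈ gm.S) {m : I} (hm : m < ⊤)
    (h1 : oc P (kp m) ∈ gm.S) (h2 : oc P (2 ^ kp m) ∈ gm.S) :
    ∃ γ ∈ Lt K ks, γ ∉ Lt K (kp m) ∧ oo P γ ∈ gm.S ∧ IsCard gm.E (gm.val (oo P γ)) := by
  have zf := gm.isZF
  have o := isOrd_oS gm (lower_Lt ks) h
  obtain ⟨w, hw⟩ := exists_Lt_eq ((pow_lt_ks hm).trans ks_lt)
  have k4 := not_le_pow H gm hm (mk_Lt_le _) h1 h2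
  have k3 := h2
  simp only [oc, ← hw, ← ordH_eq] at k3 k4
  obtain ⟨y, ⟨y1, y2⟩, y3⟩ := gm.wf.has_min
    {y | gm.E y (gm.val (oc P ks)) ∧ ¬ Le gm.E y (gm.val (oc P (kp m)))}
    ⟨_, oS_intro gm h k3 (lt_of_le_of_lt (hw ▸ mk_Lt_le _) (pow_lt_ks hm)), k4⟩
  have y4 : IsCard gm.E y := ⟨isOrd_mem gm.wf o y1, fun z k l =>
    y2 (le_trans' zf l (by_contra fun l' => y3 z ⟨o.1 y y1 z k, l'⟩ k))⟩
  obtain ⟨γ, l1, l2, rfl⟩ := oS_elim gm h y1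
  refine ⟨γ, l1, fun l => y2 ?_, l2, y4⟩
  exact le_of_sub zf ((isOrd_oS gm (lower_Lt (kp m)) h1).1 _ (oS_intro gm h1 l2 l))

theorem not_few (H : Iface P) (gm : GN P) (h : oc P ks ∈ gm.S) :
    ¬ FewCards gm.E (gm.val (oc P ks)) := by
  intro hf
  obtain ⟨C, hC⟩ := gm.isZF.sepDef (def_isCard 0) (fun _ => gm.omega) (gm.val (oc P ks))
  obtain ⟨w, f, hw, hf⟩ := hf C hC
  obtain rfl := gm.omega_eq hw
  obtain ⟨f, hfS, rfl⟩ := gm.surj f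
  obtain ⟨C, hCS, rfl⟩ := gm.surj C
  have hd : Def (fun _ E v => ∀ x, E x (v 1) ↔ E x (v 3) ∧ IsCard E x) :=
    Def.all ((Def.mem _ _).iff ((Def.mem _ _).and (def_isCard 0)))
  obtain ⟨p0, hp0, hp1⟩ := gm.truthDef hd (mem4 hfS hCS gm.omega_mem h) hC
  obtain ⟨p, -, hp2, hp⟩ := gm.truthDef_le (Def.inj 0 1 2) (mem3 hfS hCS gm.omega_mem) hf hp0
  let X : ℕ × I → P → Prop := fun t q => ∀ r ≤ q, ∃ s ≤ r, ∃ γ ∈ Lt K (kp t.2),
    FR f (oo P γ) (natH (Triv P) t.1) s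
  obtain ⟨q, q1, q2⟩ := H.dec (ℕ × I)
    (mk_prod_le' aleph0_lt_aleph_one.le (mk_le_aleph0.trans aleph0_lt_aleph_one.le) I_le) X
    (fun t => ⟨fun a b k l r hr => k r (hr.trans l), fun q k r hr => by
      obtain ⟨r', k1, k2⟩ := k r hr
      obtain ⟨s, k3, k4⟩ := k2 r' le_rfl
      exact ⟨s, k3.trans k1, k4⟩⟩) p
  have h1 : ∀ n, ∃ m < ⊤, (∃ m' < ⊤, X (n, m') q) → X (n, m) q := fun n => by
    by_cases k : ∃ m' < ⊤, X (n, m') q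
    · exact k.imp fun _ l => ⟨l.1, fun _ => l.2⟩
    · obtain ⟨m, l, -⟩ := exists_above countable_empty fun _ k => k.elim
      exact ⟨m, l, fun l => absurd l k⟩
  choose μ μ1 μ2 using h1
  obtain ⟨m, m1, m2⟩ := exists_above (countable_range μ) (by rintro _ ⟨n, rfl⟩; exact μ1 n)
  obtain ⟨g, g1, g2, g3⟩ := exists_gm' q (w4 f C (omegaH (Triv P)) (oc P ks))
    {oc P (kp m), oc P (2 ^ kp m)} (to_countable _)
  obtain ⟨γ, k1, k2, k3, k4⟩ := exists_card H g (g2 3) m1 (g3 (by simp)) (g3 (by simp))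
  have k5 := hp.mono q1 g g1 (mem3 (g2 0) (g2 1) (g2 2))
  obtain ⟨z, k6, -⟩ := k5.2.1 _ ((hp1.mono (q1.trans hp2) g g1 g2 _).2 ⟨oS_intro g (g2 3) k3 k1, k4⟩)
  obtain ⟨n, rfl⟩ := (g.mem_omega z).1 (Inj.rel_mem g.isZF k5 k6).2
  obtain ⟨r, -, k7, k8⟩ := g.truthDef_le (Def.rel 0 1 2) (mem3 (g2 0) k3 (g.nat_mem n)) k6 g1
  obtain ⟨m', k9, k10⟩ := lt_ks k1
  have k11 : X (n, m') q := (q2 (n, m')).resolve_right fun k =>
    k r k7 fun s hs => ⟨s, le_rfl, γ, k10, Fc.mono k8 hs⟩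
  obtain ⟨s, k12, γ', k13, k14⟩ := μ2 n ⟨m', k9, k11⟩ r k7
  obtain rfl : γ = γ' := fr_inj hp ((k12.trans k7).trans q1) (Fc.mono k8 k12) k14
  exact k2 (Lt_mono (kp_mono (m2 _ (mem_range_self n)).le) k13)

/-- `q` forces the ordinal to be a cardinal -/
abbrev FC (γ : K) (q : P) : Prop := Fc (fun _ E v => IsCard E (v 0)) (fun _ => oo P γ) q

lemma FC.init {γ : K} {q : P} (h : FC γ q) : Iio γ = Lt K #(Iio γ) := by
  refine Subset.antisymm (fun δ l => show #(Iio δ) < _ from not_le.1 fun k => ?_)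
    fun δ k => not_le.1 fun l => absurd (mk_le_mk_of_subset (Iio_subset_Iio l)) (not_le.2 k)
  obtain ⟨g, k1, k2, k3⟩ := exists_gm' q (fun _ => oo P γ) {oo P δ} (to_countable _)
  exact (h g k1 k2).2 _ (ord_lt g (k3 rfl) (k2 0) l) (le_ord g k (k2 0) (k3 rfl))

lemma FC.le_succ {γ : K} {q : P} (h : FC γ q) {ρ : Cardinal.{0}} (hρ : ρ < #K)
    (G : K → K → P → Prop) (h1 : ∀ i v a b, G i v a → b ≤ a → G i v b)
    (h2 : ∀ i v v' a, G i v a → G i v' a → v = v')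
    (h3 : ∀ v < γ, ∀ r ≤ q, ∃ s ≤ r, ∃ i ∈ Lt K (Order.succ ρ), G i v s) :
    #(Iio γ) ≤ Order.succ ρ := by
  obtain ⟨w, hw⟩ := exists_Lt_eq (inacc_succ_lt inacc_K hρ)
  refine le_trans (mk_le_mk_of_subset (Iio_subset_Iio (not_lt.1 fun l => ?_))) (hw ▸ mk_Lt_le _)
  obtain ⟨g, k1, k2, k3⟩ := exists_gm' q (fun _ => oo P γ) {oo P w} (to_countable _)
  refine (h g k1 k2).2 _ (ord_lt g (k3 rfl) (k2 0) l)
    (le_collapse' g k1 G h1 h2 (fun v hv r hr => ?_) (k3 rfl) (k2 0))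
  obtain ⟨s, n1, i, n2, n3⟩ := h3 v hv r hr
  exact ⟨s, n1, i, hw.ge n2, n3⟩

/-- the candidates for cardinals at a level -/
noncomputable def cand (m : I) (d : D m) : ℕ → Cardinal.{0}
  | 0 => pre m
  | 1 => Order.succ (pre m)
  | 2 => #(dm d)
  | 3 => Order.succ #(dm d)
  | 4 => ℵ₀
  | (k + 5) => k

lemma exists_cand (H : Iface P) {γ : K} {q : P} (h : FC γ q) {n : I} (hn : n < ⊤)
    (hγ : γ ∈ Lt K (kp n)) : ∃ r ≤ q, ∃ m ≤ n, H.on m r ∧ ∃ i, #(Iio γ) = cand m (H.cr r m) i := by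
  obtain ⟨m, m1, m2⟩ := (wellFounded_lt (α := I)).has_min {m | γ ∈ Lt K (kp m)} ⟨n, hγ⟩
  have m3 : m ≤ n := not_lt.1 (m2 n hγ)
  have m4 : m < ⊤ := m3.trans_lt hn
  obtain ⟨r, r1, r2⟩ := H.on_dense m q
  refine ⟨r, r1, m, m3, r2, ?_⟩
  have key : ∀ {a c : Cardinal.{0}}, a ≤ c → c ≤ Order.succ a → c = a ∨ c = Order.succ a :=
    fun l l' => l.eq_or_lt.imp Eq.symm fun k => le_antisymm l' (Order.succ_le_of_lt k)
  by_cases k : γ ∈ dm (H.cr r m)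
  · have k1 : #(Iio γ) ≤ Order.succ (pre m) :=
      FC.le_succ (Fc.mono h r1) (pre_lt_K m) (H.C m γ) (H.C_mono m γ) (H.C_fn m γ)
        fun v hv s hs => H.C_dense m s (H.on_mono m r s r2 hs).1 γ
          ((H.on_mono m r s r2 hs).2 ▸ k) v hv.le
    by_cases k2 : pre m ≤ #(Iio γ)
    · exact (key k2 k1).elim (fun e => ⟨0, e⟩) fun e => ⟨1, e⟩
    · have k3 : #(Iio γ) < ℵ₁ := not_le.1 fun l =>
        k2 (pre_le_of l fun δ l' => not_lt.1 fun l'' => m2 δ l'' l')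
      rw [← succ_aleph0, Order.lt_succ_iff] at k3
      rcases k3.eq_or_lt with e | e
      · exact ⟨4, e⟩
      · obtain ⟨j, e⟩ := lt_aleph0.1 e
        exact ⟨j + 5, e⟩
  · have k1 : #(Iio γ) ≤ Order.succ #(dm (H.cr r m)) :=
      FC.le_succ (Fc.mono h r1) ((S.dm_lt m _ m4).trans_le (kp_le_K m)) (H.F m γ) (H.F_mono m γ)
        (H.F_fn m γ) fun v hv s hs => (H.on_mono m r s r2 hs).2 ▸
          H.F_dense m m4 s (H.on_mono m r s r2 hs).1 γ m1 v hv.le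
    have k2 : #(dm (H.cr r m)) ≤ #(Iio γ) :=
      mk_le_mk_of_subset fun δ l => not_le.1 fun l' => k (S.dm_low m _ l' l)
    exact (key k2 k1).elim (fun e => ⟨2, e⟩) fun e => ⟨3, e⟩

theorem few (H : Iface P) (gm : GN P) (h : oc P ks ∈ gm.S) {y : gm.M}
    (hy : gm.E y (gm.val (oc P ks))) : FewCards gm.E y := by
  intro C hC
  obtain ⟨β, h1, h2, rfl⟩ := oS_elim gm h hy
  obtain ⟨n, hn, hn'⟩ := lt_ks h1
  obtain ⟨C, hCS, rfl⟩ := gm.surj C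
  have hd : Def (fun _ E v => ∀ x, E x (v 0) ↔ E x (v 1) ∧ IsCard E x) :=
    Def.all ((Def.mem _ _).iff ((Def.mem _ _).and (def_isCard 0)))
  obtain ⟨p, hp, hp1⟩ := gm.truthDef hd (mem2 hCS h2) hC
  have hc : Countable (Iic n) := by
    rw [← Iio_insert]
    exact ((S.ctb n hn).insert n).to_subtype
  obtain ⟨e, e1, e2⟩ := exists_emb (A := Iic n × ℕ) (ρ := ℵ₀) mk_le_aleph0 K_inf
  refine Fc.of_extra (Def.ctbl 0) (w := fun _ => C) {oc P ℵ₀} (to_countable _)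
    (fun g l1 l2 l3 => ?_) gm hp (fun _ => hCS)
  have l4 : oc P ℵ₀ ∈ g.S := l3 rfl
  refine (le_trans' g.isZF (fc_cover (Φ := (Iic n × ℕ) × K) (fun φ => oo P φ.2)
    (fun φ => e φ.1)
    (fun φ r => H.on φ.1.1.1 r ∧ Iio φ.2 = Lt K (cand φ.1.1.1 (H.cr r φ.1.1.1) φ.1.2))
    (fun φ a b k l => ⟨(H.on_mono _ a b k.1 l).1, (H.on_mono _ a b k.1 l).2 ▸ k.2⟩)
    (fun φ _ _ => e2 φ.1) (fun φ φ' s k k' l => ?_) (fun x s hs k => ?_) g l1 (mem2 (l2 0) l4))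
    (le_omega g (le_aleph0_iff_set_countable.1 (mk_Lt_le _)) l4)).elim
    fun f hf => ⟨_, f, g.omega_spec, hf⟩
  · obtain ⟨a, γ⟩ := φ
    obtain ⟨a', γ'⟩ := φ'
    obtain rfl : a = a' := e1 l
    obtain rfl : γ = γ' := Iio_injective (k.2.trans k'.2.symm)
    exact Feq.refl _ _
  · have j1 : Fmem x.1 (oo P β).1 s := fmem_of_gm {C} (to_countable _) fun g n1 n2 n3 n4 =>
      ((hp1.mono hs g n1 (mem2 (n4 rfl) n3) _).1 (val_mem g n2 (n4 rfl) n1 k)).1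
    rw [oo, ordH_eq] at j1
    obtain ⟨t, j2, γ, j3, j4⟩ := fmem_oS_elim j1
    have j5 : FC γ t := Fc.of_extra (def_isCard 0) {C, oo P β} (to_countable _)
      fun g n1 n2 n3 => ((hp1.mono (j2.trans hs) g n1 (mem2 (n3 (by simp)) (n3 (by simp))) _).1
        (val_mem g (b := C) (n2 0) (n3 (by simp)) n1 ((k.mono j2).congr_left j4))).2
    obtain ⟨r, j6, m, j7, j8, i, j9⟩ := exists_cand H j5 hn (lower_Lt _ (le_of_lt j3) hn')
    exact ⟨r, j6.trans j2, ((⟨m, j7⟩, i), γ), ⟨j8, j9 ▸ j5.init⟩, j4.mono j6⟩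

theorem alephW1 (H : Iface P) (gm : GN P) (h : oc P ks ∈ gm.S) :
    AlephW1 gm.E (gm.val (oc P ks)) :=
  ⟨isOrd_oS gm (lower_Lt _) h, not_few H gm h, fun _ => few H gm h⟩

lemma le_ks (gm : GN P) (h : oc P ks ∈ gm.S) (h' : oc P (Order.succ ks) ∈ gm.S)
    {x : gm.M} (hx : gm.E x (gm.val (oc P (Order.succ ks)))) :
    Le gm.E x (gm.val (oc P ks)) := by
  obtain ⟨β, k1, k2, rfl⟩ := oS_elim gm h' hx
  rw [ordH_eq] at k2 ⊢
  exact le_oS gm ((mem_Lt_succ.1 k1).trans (le_mk_Lt ks_lt.le)) k2 h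

theorem next_ks (H : Iface P) (gm : GN P) (h : oc P ks ∈ gm.S)
    (h' : oc P (Order.succ ks) ∈ gm.S) :
    Next gm.E (gm.val (oc P ks)) (gm.val (oc P (Order.succ ks))) := by
  refine ⟨isOrd_oS gm (lower_Lt _) h', ?_, fun x => le_ks gm h h'⟩
  rintro ⟨f, hf⟩
  obtain ⟨f, hfS, rfl⟩ := gm.surj f
  obtain ⟨p, -, hp⟩ := gm.truthDef (Def.inj 0 1 2) (mem3 hfS h' h) hf
  obtain ⟨q, h1, j, h2, h3⟩ := H.bound_succ
    (fun ξ γ q => q ≤ p ∧ γ ∈ Lt K (Order.succ ks) ∧ FR f (oo P γ) (oo P ξ) q)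
    (fun _ _ _ _ k e => ⟨e.trans k.1, k.2.1, k.2.2.mono e⟩)
    (fun _ _ _ _ k k' => fr_inj hp k.1 k.2.2 k'.2.2) (fun _ _ _ k => k.2.1) p
  obtain ⟨r, k1, y, k2, k3⟩ := fr_exists (hp.mono h1) h2
  obtain ⟨s, k4, ξ, k5, k6⟩ := fmem_oS_elim k2
  exact lt_irrefl j (h3 ξ k5 j s (k4.trans k1) ⟨(k4.trans k1).trans h1, h2,
    FR.congr (k3.mono k4) k6⟩)

lemma k_bound (δ : K) (b : K → K) : ∃ β, ∀ ξ < δ, b ξ < β :=
  (ae_above (T := b '' Iio δ) (mk_image_le.trans_lt (S.ord δ))).exists.imp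
    fun _ k _ l => k (mem_image_of_mem b l)

lemma k_clos (b : K → K) :
    ∃ h : K → K, Function.Injective h ∧ ∀ ξ ξ', h ξ < h ξ' → b (h ξ) < h ξ' := by
  have h1 : {β | ∀ α < β, b α < β} ∈ UU := by
    by_contra h
    obtain ⟨δ, k⟩ := ae_press (Q := fun β α => ¬ b α < β)
      ((Ultrafilter.eventually_not.2 h).mono fun β k => by simpa using k)
    obtain ⟨β, k1, k2⟩ := (k.and (S.tail (b δ))).exists
    exact k1 k2
  obtain ⟨e⟩ := (Cardinal.le_def _ _).1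
    (le_mk_of_ae UU #K (fun t => (S.tail t).mono fun _ h => h.ne') h1)
  exact ⟨fun ξ => e ξ, Subtype.val_injective.comp e.injective, fun ξ ξ' h => (e ξ').2 _ h⟩

lemma cc_bounded (H : Iface P) (X : K → P → Prop) (h1 : ∀ β p q, X β p → q ≤ p → X β q)
    (h2 : ∀ β β' p, X β p → X β' p → β = β') : ∃ δ, ∀ β p, X β p → β < δ := by
  by_contra h
  push Not at h
  choose b q k1 k2 using h
  obtain ⟨α0, x, k3, k4⟩ := (H.compat q).exists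
  obtain ⟨α, ⟨r, k5, k6⟩, k7⟩ := ((k4 x le_rfl).and (S.tail (b α0))).exists
  exact absurd (h2 _ _ r (h1 _ _ _ (k1 α0) (k5.trans k3)) (h1 _ _ _ (k1 α) k6))
    (k7.trans_le (k2 α)).ne

lemma le_succ_ks (H : Iface P) (gm : GN P) (h : oc P (Order.succ ks) ∈ gm.S) {β : K}
    (hβ : oo P β ∈ gm.S) : Le gm.E (gm.val (oo P β)) (gm.val (oc P (Order.succ ks))) := by
  obtain ⟨w, hw⟩ := exists_Lt_eq succ_ks_lt
  simp only [oc, ← hw, ← ordH_eq] at h ⊢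
  refine le_collapse gm (H.C ⊤ β) (H.C_mono ⊤ β) (H.C_fn ⊤ β) (fun v hv p => ?_) h hβ
  obtain ⟨q, k1, i, k2, k3⟩ := H.C_dense ⊤ p (H.on_top p).1 β ((H.on_top p).2 ▸ mem_univ β) v hv.le
  exact ⟨q, k1, i, hw.ge k2, k3⟩

theorem next_succ (H : Iface P) (gm : GN P) (h : oc P (Order.succ ks) ∈ gm.S)
    (h' : oS P (univ : Set K) ∈ gm.S) :
    Next gm.E (gm.val (oc P (Order.succ ks))) (gm.val (oS P (univ : Set K))) := by
  refine ⟨isOrd_oS gm isLowerSet_univ h', ?_, fun x hx => ?_⟩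
  · obtain ⟨w, hw⟩ := exists_Lt_eq succ_ks_lt
    simp only [oc, ← hw, ← ordH_eq] at h ⊢
    exact not_le_ord (cc_bounded H) k_bound gm h' h
  · obtain ⟨β, -, k2, rfl⟩ := oS_elim gm h' hx
    exact le_succ_ks H gm h k2

theorem pow_big (H : Iface P) (gm : GN P) (h : oc P ks ∈ gm.S)
    (h' : oc P (Order.succ ks) ∈ gm.S) {y : gm.M} (hy : Pow gm.E y (gm.val (oc P ks))) :
    ¬ Le gm.E y (gm.val (oc P (Order.succ ks))) := by
  rintro ⟨f, hf⟩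
  obtain ⟨f, hfS, rfl⟩ := gm.surj f
  obtain ⟨y, hyS, rfl⟩ := gm.surj y
  obtain ⟨p, -, hp⟩ := gm.truthDef ((def_pow 1 3).and (Def.inj 0 1 2)) (mem4 hfS hyS h' h) ⟨hy, hf⟩
  obtain ⟨ι, i1, i2⟩ := exists_emb (A := I) (ρ := ks) (I_le_pre ⊤) ks_lt.le
  obtain ⟨c, c1, c2⟩ := exists_emb (A := I × Lt K ks) (ρ := ks)
    (mk_prod_le' ks_inf (I_le_pre ⊤) (mk_Lt_le _)) ks_lt.le
  let T : K → HN P := fun γ => mkH (fun x : I × Lt K ks => oo P (c x))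
    fun x => ⟨{r | H.C ⊤ γ (ι x.1) x.2.1 r}, fun _ _ l k => H.C_mono _ _ _ _ _ _ k l⟩
  refine H.big ι i1 (fun k => (i2 k).le) (fun γ i r => FR f (T γ) (oo P i) r) p
    (fun _ _ _ _ => Fc.mono) (fun γ q hq => ?_) fun γ γ' i r hr v1 v2 k ξ l1 l2 => ?_
  · obtain ⟨g, k1, k2, k3⟩ := exists_gm' q (w4 f y (oc P (Order.succ ks)) (oc P ks)) {T γ}
      (to_countable _)
    obtain ⟨k4, k5⟩ := hp.mono hq g k1 k2
    obtain ⟨z, k6, -⟩ := k5.2.1 (g.val (T γ)) ((k4 _).2 fun x hx => by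
      obtain ⟨x, n1, rfl, -⟩ := mkH_elim g (k3 rfl) hx
      exact oS_intro g (k2 3) n1 (c2 x))
    obtain ⟨i, k7, k8, rfl⟩ := oS_elim g (k2 2) (Inj.rel_mem g.isZF k5 k6).2
    obtain ⟨r, -, k9, k10⟩ := g.truthDef_le (Def.rel 0 1 2) (mem3 (k2 0) (k3 rfl) k8) k6 k1
    exact ⟨r, k9, i, k7, k10⟩
  · have e : Feq (T γ).1 (T γ').1 r := feq_of_gm
      {f, y, oc P (Order.succ ks), oc P ks, oo P i} (to_countable _) fun g k1 k2 k3 k4 => by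
        have a1 : f ∈ g.S := k4 (by simp)
        have a2 : oo P i ∈ g.S := k4 (by simp)
        exact (hp.mono hr g k1 (mem4 a1 (k4 (by simp)) (k4 (by simp)) (k4 (by simp)))).2.2.2 _ _ _
          (v1 g k1 (mem3 a1 k2 a2)) (v2 g k1 (mem3 a1 k3 a2))
    obtain ⟨s, n1, x, n2, n3⟩ := fmem_elim ((fmem_mkH (A := fun x : I × Lt K ks => oo P (c x))
      (i := (k, ⟨ξ, l1⟩)) l2).congr_right e)
    obtain rfl : (k, ⟨ξ, l1⟩) = x := c1 (feq_ord n3)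
    exact ⟨s, n1, n2⟩

end Pool.Agent.Lib.MP_d4b40b_lc.W
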