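import Pool.Agent.Lib.MP_d4b40b_lc.W.ModC

set_option autoImplicit false
set_option linter.unusedSectionVars false

namespace Pool.Agent.Lib.MP_d4b40b_lc.W

open Pool.Agent.Lib.helper81 Pool.Agent.Lib.helper81.Name Pool.Agent.Lib.MP_fcebdf_lc Set Cardinal
open Filter

variable [S : Sys] {P : Type} [Preorder P] (H : Iface P)

/-- a member of the base -/
noncomputable def bn (d : H.Dat) : HN P :=
  mkH (oo P) fun ξ => ⟨{r | H.Mem d ξ r}, fun _ _ l k => H.Mem_mono _ _ _ _ k l⟩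

/-- the base -/
noncomputable def BB : HN P :=
  mkH (bn H) fun d => ⟨{r | H.InD d r}, fun _ _ l k => H.InD_mono _ _ _ k l⟩

lemma fmem_bn {d : H.Dat} {ξ : K} {r : P} (h : H.Mem d ξ r) : Fmem (oo P ξ).1 (bn H d).1 r :=
  fmem_mkH (A := oo P) (i := ξ) h

lemma fmem_BB {d : H.Dat} {r : P} (h : H.InD d r) : Fmem (bn H d).1 (BB H).1 r :=
  fmem_mkH (A := bn H) h

lemma bn_sub (gm : GN P) {d : H.Dat} (h : bn H d ∈ gm.S) {p : P} (hp : p ∈ gm.Γ)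
    {A : HN P} (hA : A ∈ gm.S) (k : ∀ ξ, ∀ r ≤ p, H.Mem d ξ r → Fmem (oo P ξ).1 A.1 r) :
    Sub gm.E (gm.val (bn H d)) (gm.val A) := fun z hz => by
  obtain ⟨x, k1, rfl, s, k2, k3⟩ := mkH_elim gm h hz
  obtain ⟨t, k4, k5, k6⟩ := gm.dir _ _ hp k2
  exact val_mem gm k1 hA k4 (k x t k5 (H.Mem_mono _ _ _ _ k3 k6))

lemma bn_big (gm : GN P) (h : oc P ks ∈ gm.S) {d : H.Dat} (h' : bn H d ∈ gm.S) {r : P}
    (hr : r ∈ gm.Γ) (hd : H.InD d r) : Le gm.E (gm.val (oc P ks)) (gm.val (bn H d)) := by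
  refine (le_or_le gm h).resolve_right ?_
  rintro ⟨x, k1, k2⟩
  obtain ⟨β, k3, k4, rfl⟩ := oS_elim gm h k1
  rw [ordH_eq] at k4 k2
  obtain ⟨q, -, k5, k6⟩ := gm.truthDef_le (def_le 0 1) (mem2 h' k4) k2 hr
  obtain ⟨m, m1, m2⟩ := lt_ks k3
  obtain ⟨n, n1, n2⟩ := exists_gt m1
  obtain ⟨s, s1, Z, s2, s3⟩ := H.u_big d q (H.InD_mono _ _ _ hd k5) n n1
  obtain ⟨g, l1, l2, l3⟩ := exists_gm' s (w2 (bn H d) (oS P (Iio β))) {oS P Z, oc P (2 ^ kp m)}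
    (to_countable _)
  have a1 : oS P Z ∈ g.S := l3 (by simp)
  have a2 : oc P (2 ^ kp m) ∈ g.S := l3 (by simp)
  refine not_le_pow H g m1 m2.le (l2 1) a2 (le_trans' g.isZF
    (le_oS g ((mk_Lt_le _).trans ((pow_lt_kp n2).le.trans s2)) a2 a1)
    (le_trans' g.isZF (le_of_sub g.isZF fun z hz => ?_) (k6.mono s1 g l1 l2)))
  obtain ⟨ξ, j1, j2, rfl⟩ := oS_elim g a1 hz
  exact val_mem g j2 (l2 0) l1 (fmem_bn H (s3 ξ j1))

theorem u_upper (gm : GN P) (h : oc P ks ∈ gm.S) (h' : oc P (Order.succ ks) ∈ gm.S)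
    (hB : BB H ∈ gm.S) : ∃ U B, UF gm.E U (gm.val (oc P ks)) ∧ Base gm.E B U ∧
      Le gm.E B (gm.val (oc P (Order.succ ks))) := by
  obtain ⟨p, hp⟩ := gm.nonempty
  have h3 : ∀ A, Sub gm.E A (gm.val (oc P ks)) → ∃ C, gm.E C (gm.val (BB H)) ∧
      (Sub gm.E C A ∨ ∀ x, gm.E x C → ¬ gm.E x A) := by
    intro A _
    obtain ⟨A, hA, rfl⟩ := gm.surj A
    have hd : Def (fun _ E v => ∃ C, E C (v 0) ∧ (Sub E C (v 1) ∨ ∀ x, E x C → ¬ E x (v 1))) :=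
      Def.ex ((Def.mem _ _).and ((Def.sub _ _).or (Def.all ((Def.mem _ _).imp (Def.mem _ _).not))))
    refine Fc.reg hd (w := w2 (BB H) A) (fun s _ => ?_) gm hp (mem2 hB hA)
    obtain ⟨r, k1, d, k2, k3⟩ := H.u_dec (fun ξ r => Fmem (oo P ξ).1 A.1 r)
      (fun _ => ro_fmem _ _) s
    refine ⟨r, k1, Fc.of_extra hd {bn H d} (to_countable _) fun g l1 l2 l3 =>
      ⟨_, val_mem g (l3 rfl) (l2 0) l1 (fmem_BB H k2),
        k3.imp (bn_sub H g (l3 rfl) l1 (l2 1)) fun k z hz l => ?_⟩⟩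
    obtain ⟨x, n1, rfl, t, n2, n3⟩ := mkH_elim g (l3 rfl) hz
    obtain ⟨u, n4, n5⟩ := (g.mem_iff n1 (l2 1)).1 l
    obtain ⟨v, -, n6, n7, n8⟩ := dir3 g l1 n2 n4
    exact k x v n6 (H.Mem_mono _ _ _ _ n3 n7) v le_rfl (n5.mono n8)
  refine (uf_of_base gm.isZF (B := gm.val (BB H)) ((h3 _ fun _ k => k).imp fun _ k => k.1)
    (fun C hC => ?_) (fun C C' hC hC' => ?_) h3).imp fun U h4 => ⟨_, h4.1, h4.2, ?_⟩
  rotate_right
  · obtain ⟨e, e1, e2⟩ := exists_emb (A := H.Dat) le_rfl H.mk_Dat.le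
    obtain ⟨w, hw⟩ := exists_Lt_eq H.mk_Dat
    refine Fc.of_extra (def_le 0 1) (w := w2 (BB H) (oc P (Order.succ ks))) {oo P w}
      (to_countable _) (fun g l1 l2 l3 => ?_) gm hp (mem2 hB h')
    have l4 : oo P w ∈ g.S := l3 rfl
    refine le_trans' g.isZF ?_ (le_succ_ks H g (l2 1) l4)
    rw [oo, ordH_eq, hw] at l4 ⊢
    refine fc_cover (bn H) e (fun _ _ => True) (fun _ _ _ _ _ => trivial) (fun φ _ _ => e2 φ)
      (fun φ φ' q _ _ k => e1 k ▸ Feq.refl _ _) (fun x q _ hx => ?_) g l1 (mem2 (l2 0) l4)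
    obtain ⟨r, k1, d, -, k2⟩ := fmem_elim hx
    exact ⟨r, k1, d, trivial, k2⟩
  · obtain ⟨d, k1, rfl, r, k2, k3⟩ := mkH_elim gm hB hC
    exact ⟨bn_sub H gm k1 hp h fun ξ r _ l => fmem_oS (H.Mem_lt _ _ _ l) r,
      bn_big H gm h k1 k2 k3⟩
  · obtain ⟨d, k1, rfl, r, k2, k3⟩ := mkH_elim gm hB hC
    obtain ⟨d', l1, rfl, r', l2, l3⟩ := mkH_elim gm hB hC'
    obtain ⟨s, n1, n2, n3⟩ := gm.dir _ _ k2 l2
    obtain ⟨d'', n4, n5⟩ := H.u_dir d d' s (H.InD_mono _ _ _ k3 n2) (H.InD_mono _ _ _ l3 n3)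
    have hd : Def (fun _ E v => ∃ C, E C (v 0) ∧ Sub E C (v 1) ∧ Sub E C (v 2)) :=
      Def.ex ((Def.mem _ _).and ((Def.sub _ _).and (Def.sub _ _)))
    exact Fc.of_extra hd (w := w3 (BB H) (bn H d) (bn H d')) {bn H d''} (to_countable _)
      (fun g j1 j2 j3 => ⟨_, val_mem g (j3 rfl) (j2 0) j1 (fmem_BB H n4),
        bn_sub H g (j3 rfl) j1 (j2 1) fun ξ r _ b => fmem_bn H (n5 ξ r b).1,
        bn_sub H g (j3 rfl) j1 (j2 2) fun ξ r _ b => fmem_bn H (n5 ξ r b).2⟩) gm n1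
      (mem3 hB k1 l1)

/-- two copies -/
def Two (A : Type) : Type := A × Bool

include H in
theorem u_lower0 (gm : GN P) (h : oc P ks ∈ gm.S) {U B : gm.M}
    (h1 : UF gm.E U (gm.val (oc P ks))) (h2 : Base gm.E B U) :
    ¬ Le gm.E B (gm.val (oc P ks)) := by
  rintro ⟨f, hf⟩
  obtain ⟨f, hfS, rfl⟩ := gm.surj f
  obtain ⟨U, hU, rfl⟩ := gm.surj U
  obtain ⟨B, hB, rfl⟩ := gm.surj B
  obtain ⟨p, -, hp⟩ := gm.truthDef ((def_uf 1 3).and ((def_base 2 1).and (Def.inj 0 2 3)))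
    (mem4 hfS hU hB h) ⟨h1, h2, hf⟩
  obtain ⟨_, _, hord⟩ := exists_ord_eq_type_lt (Two (Lt K ks))
  obtain ⟨Q, s1, s2, s3, s4, s5⟩ := exists_sel (P := P) (T := Two (Lt K ks))
    (fun t η q => ∃ C : HN P, FR f C (oo P t.1.1) q ∧ Fmem (oo P η).1 C.1 q)
    (fun _ _ _ _ ⟨C, k1, k2⟩ l => ⟨C, k1.mono l, k2.mono l⟩) (fun η η' _ => η = η')
    fun _ _ _ => Eq.symm
  let X : HN P := mkH (fun η : Lt K ks => oo P η.1) fun η =>
    ⟨{q | ∃ ξ, Q (ξ, true) η.1 q}, fun _ _ l k => k.imp fun _ k => s1 _ _ _ _ k l⟩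
  obtain ⟨g, k1, k2, k3⟩ := exists_gm' p (w4 f U B (oc P ks)) {X} (to_countable _)
  obtain ⟨k4, k5, k6⟩ := hp g k1 k2
  obtain ⟨C, k7, k8⟩ := uf_dec g.isZF (A := g.val X) k4 k5 fun x hx => by
    obtain ⟨η, n1, rfl, -⟩ := mkH_elim g (k3 rfl) hx
    exact oS_intro g (k2 3) n1 η.2
  obtain ⟨z, k9, -⟩ := k6.2.1 C k7
  obtain ⟨ξ, k10, k11, rfl⟩ := oS_elim g (k2 3) (Inj.rel_mem g.isZF k6 k9).2
  obtain ⟨C, hC, rfl⟩ := g.surj C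
  have key : ∀ b, ∀ q ≤ p, FR f C (oo P ξ) q →
      Fc (fun _ E v => Sub E (v 0) (v 1) ∧ Le E (v 1) (v 0)) (w2 C (oc P ks)) q →
      ∃ r ≤ q, ∃ η ∈ Lt K ks, Q (⟨ξ, k10⟩, b) η r ∧ Fmem (oo P η).1 C.1 r := by
    intro b q hq l1 l2
    have l0 : ∀ x : HN P, ∀ r ≤ q, Fmem x.1 C.1 r → Fmem x.1 (oc P ks).1 r :=
      fun x r hr k => fmem_of_gm {C} (to_countable _) fun g n1 n2 n3 n4 =>
        (l2.mono hr g n1 (mem2 (n4 rfl) n3)).1 _ (val_mem g n2 (n4 rfl) n1 k)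
    rcases s5 (⟨ξ, k10⟩, b) q with ⟨r, l3, η, l4⟩ | l3
    · obtain ⟨C', l5, l6⟩ := s2 _ _ _ l4
      have e : Feq C'.1 C.1 r := feq_of_gm {f, U, B, oc P ks, oo P ξ} (to_countable _)
        fun g n1 n2 n3 n4 => by
          have a1 : f ∈ g.S := n4 (by simp)
          have a2 : oo P ξ ∈ g.S := n4 (by simp)
          exact (hp.mono (l3.trans hq) g n1 (mem4 a1 (n4 (by simp)) (n4 (by simp))
            (n4 (by simp)))).2.2.2.2 _ _ _ (l5 g n1 (mem3 a1 n2 a2)) (l1.mono l3 g n1 (mem3 a1 n3 a2))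
      obtain ⟨s, -, η', l7, l8⟩ := fmem_oS_elim (l0 _ r l3 (l6.congr_right e))
      exact ⟨r, l3, η, feq_ord l8 ▸ l7, l4, l6.congr_right e⟩
    · have l4 : #(Iio (α := Two (Lt K ks)) (⟨ξ, k10⟩, b)) < ks := (mk_Iio_lt _ hord).trans_le
        (mk_prod_le' ks_inf (mk_Lt_le _) (mk_le_aleph0.trans ks_inf))
      obtain ⟨e, e1, e2⟩ := exists_emb le_rfl (l4.trans ks_lt).le
      obtain ⟨g, n1, n2, n3⟩ := exists_gm' q (w2 C (oc P ks)) {oc P _} (to_countable _)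
      refine absurd (le_trans' g.isZF (l2 g n1 n2).2 ?_)
        (not_le_ks H g ((mk_Lt_le _).trans_lt l4) (n3 rfl) (n2 1))
      refine fc_cover (Φ := Iio (α := Two (Lt K ks)) (⟨ξ, k10⟩, b) × K) (fun φ => oo P φ.2)
        (fun φ => e φ.1) (fun φ s => Q φ.1.1 φ.2 s) (fun _ _ _ => s1 _ _ _ _) (fun φ _ _ => e2 φ.1)
        (fun φ φ' s k k' l => ?_) (fun x s hs k => ?_) g n1 (mem2 (n2 0) (n3 rfl))
      · rw [s3 _ _ _ _ k (e1 l ▸ k')]; exact Feq.refl _ _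
      · obtain ⟨s', j1, η, -, j2⟩ := fmem_oS_elim (l0 x s hs k)
        obtain ⟨s'', j3, t, j4, _, j5, rfl⟩ := l3 s' (j1.trans hs) η
          ⟨C, l1.mono (j1.trans hs), (k.mono j1).congr_left j2⟩
        exact ⟨s'', j3.trans j1, (⟨t, j4⟩, η), j5, j2.mono j3⟩
  obtain ⟨q1, m1, m2, m3⟩ := g.truthDef_le (Def.rel 0 1 2) (mem3 (k2 0) hC k11) k9 k1
  obtain ⟨q2, m4, m5, m6⟩ := g.truthDef_le ((Def.sub 0 1).and (def_le 1 0)) (mem2 hC (k2 3))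
    (k4.1 _ (k5.1 _ k7)) m1
  rcases k8 with k8 | k8
  · obtain ⟨q3, -, m7, m8⟩ := g.truthDef_le (Def.sub 0 1) (mem2 hC (k3 rfl)) k8 m4
    obtain ⟨r, n1, η, -, n2, n3⟩ := key false q3 ((m7.trans m5).trans m2) (m3.mono (m7.trans m5))
      (m6.mono m7)
    obtain ⟨s, n4, η', ⟨ξ', n5⟩, n6⟩ := fmem_elim (X := X) (fmem_of_gm (a := oo P η) {C}
      (to_countable _) fun g j1 j2 j3 j4 =>
        m8.mono n1 g j1 (mem2 (j4 rfl) j3) _ (val_mem g j2 (j4 rfl) j1 n3))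
    exact Bool.false_ne_true (congrArg Prod.snd (s4 _ _ _ _ _ (s1 _ _ _ _ n2 n4) n5 (feq_ord n6)))
  · obtain ⟨q3, -, m7, m8⟩ := g.truthDef_le (Φ := fun _ E v => ∀ x, E x (v 0) → ¬ E x (v 1))
      (Def.all ((Def.mem _ _).imp (Def.mem _ _).not)) (mem2 hC (k3 rfl)) k8 m4
    obtain ⟨r, n1, η, n0, n2, n3⟩ := key true q3 ((m7.trans m5).trans m2) (m3.mono (m7.trans m5))
      (m6.mono m7)
    obtain ⟨g, j1, j2, j3⟩ := exists_gm' r (w2 C X) {oo P η} (to_countable _)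
    exact m8.mono n1 g j1 j2 _ (val_mem g (j3 rfl) (j2 0) j1 n3) (val_mem g (j3 rfl) (j2 1) j1
      (fmem_mkH (A := fun η : Lt K ks => oo P η.1) (i := ⟨η, n0⟩) ⟨_, n2⟩))

theorem uNum (gm : GN P) (h : oc P ks ∈ gm.S) (h' : oc P (Order.succ ks) ∈ gm.S)
    (hB : BB H ∈ gm.S) : UNum gm.E (gm.val (oc P ks)) (gm.val (oc P (Order.succ ks))) :=
  ⟨u_upper H gm h h' hB, fun _ _ h1 h2 => (le_or_le gm h').resolve_right fun ⟨_, k1, k2⟩ =>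
    u_lower0 H gm h h1 h2 (le_trans' gm.isZF k2 (le_ks gm h h' k1))⟩

end Pool.Agent.Lib.MP_d4b40b_lc.W
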