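import Pool.Agent.Lib.MP_d4b40b_lc.W.Slot

set_option autoImplicit false
set_option linter.unusedSectionVars false

namespace Pool.Agent.Lib.MP_d4b40b_lc.W

open Filter Set Cardinal

variable [S : Sys]

namespace Agr

variable {m : I} {b b' : Set K} {μ ν ξ : Obj m}

lemma refl (b : Set K) (μ : Obj m) : Agr b μ μ := ⟨rfl, fun _ _ => rfl⟩

lemma symm (h : Agr b μ ν) : Agr b ν μ := ⟨h.1.symm, fun β hβ => (h.2 β hβ).symm⟩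

lemma trans (h : Agr b μ ν) (h' : Agr b ν ξ) : Agr b μ ξ :=
  ⟨h.1.trans h'.1, fun β hβ => (h.2 β hβ).trans (h'.2 β hβ)⟩

lemma mono (h : Agr b μ ν) (hs : b' ⊆ b) : Agr b' μ ν := ⟨h.1, fun β hβ => h.2 β (hs hβ)⟩

end Agr

open Classical in
/-- restriction of a map -/
noncomputable def PM.res (b : Set K) (g : PM) : PM :=
  ⟨fun ξ => if ξ ∈ b then g.f ξ else none, fun ξ ξ' η η' k k' l => by
    split_ifs at k k' with a a' a'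
    · exact g.inc _ _ _ _ k k' l
    · cases k'
    · cases k
    · cases k⟩

lemma PM.res_of_mem {b : Set K} (g : PM) {ξ : K} (h : ξ ∈ b) : (g.res b).f ξ = g.f ξ := if_pos h

lemma PM.res_of_notMem {b : Set K} (g : PM) {ξ : K} (h : ξ ∉ b) : (g.res b).f ξ = none := if_neg h

lemma PM.mem_res {b : Set K} {g : PM} {ξ η : K} : η ∈ (g.res b).f ξ ↔ ξ ∈ b ∧ η ∈ g.f ξ := by
  by_cases h : ξ ∈ b
  · rw [g.res_of_mem h]; exact (and_iff_right h).symm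
  · rw [g.res_of_notMem h]; exact iff_of_false (fun k => by cases k) fun k => h k.1

lemma PM.dom_res (b : Set K) (g : PM) : (g.res b).dom = g.dom ∩ b := by
  ext ξ
  simp only [PM.dom, PM.mem_res, mem_ofPred_eq, mem_inter_iff]
  exact ⟨fun ⟨η, k1, k2⟩ => ⟨⟨η, k2⟩, k1⟩, fun ⟨⟨η, k2⟩, k1⟩ => ⟨η, k1, k2⟩⟩

variable {m : I}

/-- restriction of an object -/
noncomputable def Obj.res (b : Set K) (μ : Obj m) : Obj m :=
  ⟨μ.c, μ.g.res b, fun ξ η k => μ.val ξ η (PM.mem_res.1 k).2⟩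

lemma Obj.agr_res (b : Set K) (μ : Obj m) : Agr b μ (μ.res b) :=
  ⟨rfl, fun _ k => (μ.g.res_of_mem k).symm⟩

lemma Obj.dom_res (b : Set K) (μ : Obj m) : (μ.res b).g.dom = μ.g.dom ∩ b := μ.g.dom_res b

lemma Obj.dom_res_sub (b : Set K) (μ : Obj m) : (μ.res b).g.dom ⊆ b :=
  (μ.dom_res b).le.trans inter_subset_right

lemma Agr.res_eq {b : Set K} {μ ν : Obj m} (h : Agr b μ ν) : μ.res b = ν.res b := by
  refine Obj.ext h.1 (PM.ext (funext fun ξ => ?_))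
  by_cases k : ξ ∈ b
  · exact (μ.g.res_of_mem k).trans ((h.2 ξ k).trans (ν.g.res_of_mem k).symm)
  · exact (μ.g.res_of_notMem k).trans (ν.g.res_of_notMem k).symm

/-- the graph of a map -/
def PM.gr (g : PM) : Set (K × K) := {x | x.2 ∈ g.f x.1}

lemma PM.gr_inj {g g' : PM} (h : g.gr = g'.gr) : g = g' :=
  PM.ext (funext fun ξ => Option.ext fun η => Set.ext_iff.1 h (ξ, η))

lemma PM.mk_gr (g : PM) : #g.gr ≤ #g.dom :=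
  mk_le_of_injective (f := fun x => ⟨x.1.1, x.1.2, x.2⟩) fun x y e => by
    have e1 : x.1.1 = y.1.1 := congrArg Subtype.val e
    exact Subtype.ext (Prod.ext e1 (Option.mem_unique x.2 (e1 ▸ y.2)))

lemma mk_dom_le (μ : Obj m) : #μ.g.dom ≤ #(dm μ.c) := by
  choose η hη using fun ξ : μ.g.dom => ξ.2
  exact mk_le_of_injective (f := fun ξ => ⟨η ξ, μ.val _ _ (hη ξ)⟩) fun x y e =>
    Subtype.ext (μ.g.inj (hη x) ((show η x = η y from congrArg Subtype.val e) ▸ hη y))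

lemma mk_dom_lt (hm : m < ⊤) (μ : Obj m) : #μ.g.dom < kp m :=
  (mk_dom_le μ).trans_lt (S.dm_lt m _ hm)

lemma mk_obj_aux (d : D m) {Y : Set K} {σ c : Cardinal.{0}} (hσ : ℵ₀ ≤ σ) (h1 : #Y ≤ σ)
    (h2 : #(dm d) ≤ σ) (h3 : #Y ≤ c ∨ #(dm d) ≤ c) (h4 : σ ^ c ≤ σ) :
    #{μ : Obj m | μ.c = d ∧ μ.g.dom ⊆ Y} ≤ σ := by
  refine le_trans (mk_le_of_injective (β := {t : Set (K × K) // t ⊆ Y ×ˢ dm d ∧ #t ≤ c})
    (f := fun μ => ⟨μ.1.g.gr, fun x k => ⟨μ.2.2 ⟨_, k⟩, μ.2.1 ▸ μ.1.val _ _ k⟩,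
      μ.1.g.mk_gr.trans (h3.elim (mk_le_mk_of_subset μ.2.2).trans fun k =>
        (mk_dom_le μ.1).trans (μ.2.1.symm ▸ k))⟩) fun x y e => ?_) ?_
  · exact Subtype.ext (Obj.ext (x.2.1.trans y.2.1.symm) (PM.gr_inj (congrArg Subtype.val e)))
  · exact (mk_bounded_subset_le _ _).trans
      ((power_le_power_right (max_le (mk_sprod_le' hσ h1 h2) hσ)).trans h4)

lemma mk_obj (hm : m < ⊤) {b : Set K} (hb : #b ≤ kp m) :
    #{μ : Obj m | μ.g.dom ⊆ b} ≤ kp m := by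
  have : {μ : Obj m | μ.g.dom ⊆ b} = ⋃ d : D m, {μ : Obj m | μ.c = d ∧ μ.g.dom ⊆ b} := by
    ext μ
    simp only [mem_ofPred_eq, mem_iUnion, exists_eq_left']
  rw [this]
  exact mk_iUnion_le' (kp_inf m) (S.mk_D m) fun d => mk_obj_aux d (kp_inf m) hb
    (S.dm_lt m d hm).le (Or.inr le_rfl) (inacc_pow_le (inacc_kp m) (S.dm_lt m d hm))

lemma mk_obj_core (hm : m < ⊤) (d : D m) {Y : Set K} (hY : #Y ≤ kap d) :
    #{μ : Obj m | μ.c = d ∧ μ.g.dom ⊆ Y} ≤ #(dm d) :=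
  mk_obj_aux d (dm_inf d hm) (hY.trans (kap_lt_dm d hm).le) le_rfl (Or.inl hY) (S.dm_pow m d hm).2

/-- the projection of a set of objects below `α` -/
def proj (α : K) (b : Set K) (A : Set (Obj m)) : Set (Obj m) :=
  {μ | ∀ z ∈ dm μ.c, ∃ ν ∈ A, Agr (b ∩ Iio α) μ ν ∧ ∀ ξ ∈ b, α ≤ ξ → ∀ η ∈ ν.g.f ξ, z < η}

lemma proj_agr {α : K} {b : Set K} {A : Set (Obj m)} {μ ν : Obj m}
    (h : μ ∈ proj α b A) (e : Agr (b ∩ Iio α) μ ν) : ν ∈ proj α b A := fun z hz => by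
  obtain ⟨ξ, h1, h2, h3⟩ := h z (e.1 ▸ hz)
  exact ⟨ξ, h1, e.symm.trans h2, h3⟩

variable [Ext S]

lemma ae_dom {c γ : I} (d : D c) (h : γ < c) {b : Set K} (hd : b ⊆ dm d) (hb : #b ≤ kp γ) :
    ∃ Y : D γ → Set K, (∀ d', #(Y d') ≤ kap d' ∧ Y d' ⊆ b) ∧
      ∀ᶠ μ in (Ext.E d γ : Filter (Obj γ)), μ.g.dom ∩ b ⊆ Y μ.c := by
  classical
  obtain ⟨e⟩ := (Cardinal.le_def _ _).1 (hb.trans (le_mk_Lt (K := K) (kp_le_K γ)))
  refine ⟨fun d' => {ξ | ∃ k : ξ ∈ b, (e ⟨ξ, k⟩).1 ∈ Lt K (kap d')}, fun d' =>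
    ⟨le_trans (mk_le_of_injective (β := Lt K (kap d'))
      (f := fun ξ => ⟨(e ⟨ξ.1, ξ.2.1⟩).1, ξ.2.2⟩) fun x y l => ?_) (mk_Lt_le _),
      fun ξ k => k.1⟩, ?_⟩
  · exact Subtype.ext (congrArg (fun z : b => z.1)
      (e.injective (Subtype.ext (congrArg (fun z : Lt K (kap d') => z.1) l))))
  · by_contra h0
    have h1 : ∀ᶠ μ in (Ext.E d γ : Filter (Obj γ)), ∃ η, ∃ ξ, η ∈ μ.g.f ξ ∧ ∃ k : ξ ∈ b,
        (e ⟨ξ, k⟩).1 ∉ Lt K (kap μ.c) := by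
      filter_upwards [Ultrafilter.eventually_not.2 h0] with μ k
      obtain ⟨ξ, ⟨⟨η, k1⟩, k2⟩, k3⟩ := not_subset.1 k
      exact ⟨η, ξ, k1, k2, fun l => k3 ⟨k2, l⟩⟩
    obtain ⟨μ0, η0, -⟩ := h1.exists
    obtain ⟨x, h2, h4⟩ : ∃ x : Obj γ → K, (∀ᶠ μ in (Ext.E d γ : Filter (Obj γ)),
        ∃ ξ, x μ ∈ μ.g.f ξ ∧ ∃ k : ξ ∈ b, (e ⟨ξ, k⟩).1 ∉ Lt K (kap μ.c)) ∧
        ∀ μ ν, Agr b μ ν → x μ = x ν :=
      ⟨fun μ => @Classical.epsilon _ ⟨η0⟩ fun η => ∃ ξ, η ∈ μ.g.f ξ ∧ ∃ k : ξ ∈ b,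
        (e ⟨ξ, k⟩).1 ∉ Lt K (kap μ.c), h1.mono fun μ k => Classical.epsilon_spec k,
        fun μ ν l => congrArg _ (funext fun η => propext (exists_congr fun ξ =>
          ⟨fun ⟨k1, k2, k3⟩ => ⟨l.2 ξ k2 ▸ k1, k2, l.1 ▸ k3⟩,
            fun ⟨k1, k2, k3⟩ => ⟨(l.2 ξ k2).symm ▸ k1, k2, l.1.symm ▸ k3⟩⟩))⟩
    obtain ⟨ξ, -, h3⟩ := Ext.nor d γ h b hd hb _ h4 (h2.mono fun μ ⟨ξ, k, _⟩ => μ.val _ _ k)
    obtain ⟨μ, ⟨ξ', k1, k2, -⟩, k3⟩ := (h2.and h3).exists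
    obtain rfl := μ.g.inj k1 k3
    obtain ⟨μ, ⟨⟨ξ', k4, k5, k6⟩, k7⟩, k8⟩ :=
      ((h2.and h3).and (Ext.kap d γ h _ (e ⟨_, k2⟩).2)).exists
    obtain rfl := μ.g.inj k4 k7
    exact k6 k8

/-- closure points -/
def Cl (α : K) : Prop :=
  ∀ γ < (⊤ : I), ∀ (b : Set K) (A : Set (Obj γ)), #b ≤ kp γ → A ∈ Ext.E S.root γ →
    proj α b A ∈ Ext.E S.root γ

lemma ae_cl0 {γ : I} (hγ : γ < ⊤) : ∀ᶠ α in (UU : Filter K), ∀ (b : Set K) (g : Obj γ → K),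
    #b ≤ kp γ → b ⊆ Iio α → (∀ μ ν, Agr b μ ν → g μ = g ν) → (∀ μ, g μ ∈ Lt K (kp γ)) →
    (∀ᶠ μ in (Ext.E S.root γ : Filter (Obj γ)), g μ ∈ dm μ.c) →
    ∃ β < α, ∀ᶠ μ in (Ext.E S.root γ : Filter (Obj γ)), g μ ∈ μ.g.f β := by
  by_contra h
  let Q : K → Set K × (Obj γ → K) → Prop := fun α x => #x.1 ≤ kp γ ∧ x.1 ⊆ Iio α ∧
    (∀ μ ν, Agr x.1 μ ν → x.2 μ = x.2 ν) ∧ (∀ μ, x.2 μ ∈ Lt K (kp γ)) ∧
    (∀ᶠ μ in (Ext.E S.root γ : Filter (Obj γ)), x.2 μ ∈ dm μ.c) ∧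
    ¬ ∃ β < α, ∀ᶠ μ in (Ext.E S.root γ : Filter (Obj γ)), x.2 μ ∈ μ.g.f β
  have h0 : ∀ᶠ α in (UU : Filter K), ∃ x, Q α x := by
    filter_upwards [Ultrafilter.eventually_not.2 h] with α k
    simp only [not_forall] at k
    obtain ⟨b, g, k1, k2, k3, k4, k5, k6⟩ := k
    exact ⟨(b, g), k1, k2, k3, k4, k5, k6⟩
  obtain ⟨α0, x0, -⟩ := h0.exists
  obtain ⟨x, h2⟩ : ∃ x : K → Set K × (Obj γ → K), ∀ᶠ α in (UU : Filter K), Q α (x α) :=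
    ⟨fun α => @Classical.epsilon _ ⟨x0⟩ (Q α), h0.mono fun α k => Classical.epsilon_spec k⟩
  obtain ⟨δ, hδ⟩ := ae_press (Q := fun α δ => (x α).1 ⊆ Iio δ) (by
    filter_upwards [h2, ae_cf] with α k1 k2
    exact k2 _ k1.2.1 (k1.1.trans (kp_lt_ks hγ).le))
  obtain ⟨Z1, z1, z2⟩ := ae_pw UU _ (S.ord δ) (fun α β => β ∈ (x α).1)
  obtain ⟨α1, ⟨a1, -⟩, a2, a3⟩ := (h2.and (hδ.and z1)).exists
  obtain ⟨Z2, z3, z4⟩ := ae_pw UU _ (R := {μ : Obj γ | μ.g.dom ⊆ (x α1).1} ×ˢ Lt K (kp γ))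
    (mk_sprod_lt' K_inf ((mk_obj hγ a1).trans_lt (kp_lt_K hγ))
      ((mk_Lt_le _).trans_lt (kp_lt_K hγ))) (fun α y => (x α).2 y.1 = y.2)
  obtain ⟨α2, ⟨b1, -, b3, b4, b5, -⟩, b6, b7, b8⟩ := (h2.and (hδ.and (Eventually.and z1 z3))).exists
  obtain ⟨β, -, hβ⟩ := Ext.nor S.root γ hγ _ ((subset_univ _).trans S.dm_root.ge) b1 _ b3 b5
  obtain ⟨α, ⟨-, -, c3, -, -, c5⟩, c6, c7, c8, c9⟩ :=
    (h2.and (hδ.and (Eventually.and z1 (Eventually.and z3 (S.tail β))))).exists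
  refine c5 ⟨β, c9, hβ.mono fun μ hμ => ?_⟩
  rw [b3 μ _ ((μ.agr_res (x α1).1).mono fun y hy => z2 α2 b7 α1 a3 y (b6 hy) hy)] at hμ
  rw [c3 μ _ ((μ.agr_res (x α1).1).mono fun y hy => z2 α c7 α1 a3 y (c6 hy) hy),
    z4 α2 b8 α c8 (μ.res (x α1).1, _) ⟨μ.dom_res_sub _, b4 _⟩ rfl]
  exact hμ

lemma ae_cl : ∀ᶠ α in (UU : Filter K), Cl α := by
  classical
  have hI : #(Iio (⊤ : I)) < #K := ((mk_set_le _).trans (I_le_pre ⊤)).trans_lt ks_lt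
  filter_upwards [ae_ball UU _ hI fun γ hγ => ae_cl0 (γ := γ) hγ] with α hα γ hγ b A hb hA
  by_contra h
  have h0 : ∀ᶠ μ in (Ext.E S.root γ : Filter (Obj γ)), μ ∉ proj α b A :=
    Ultrafilter.eventually_not.2 h
  let B : Obj γ → Set K := fun μ => {z | z ∈ dm μ.c ∧
    ¬ ∃ ν ∈ A, Agr (b ∩ Iio α) μ ν ∧ ∀ ξ ∈ b, α ≤ ξ → ∀ η ∈ ν.g.f ξ, z < η}
  have h1 : ∀ᶠ μ in (Ext.E S.root γ : Filter (Obj γ)), (B μ).Nonempty := by
    filter_upwards [h0] with μ hμ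
    simp only [proj, mem_ofPred_eq, not_forall] at hμ
    obtain ⟨z, k1, k2⟩ := hμ
    exact ⟨z, k1, k2⟩
  obtain ⟨μ0, z0, z1, -⟩ := h1.exists
  let g : Obj γ → K := fun μ => if h : (B μ).Nonempty then h.some else z0
  replace h1 : ∀ᶠ μ in (Ext.E S.root γ : Filter (Obj γ)), g μ ∈ B μ := h1.mono fun μ k => by
    simp only [g, dif_pos k]
    exact k.some_mem
  obtain ⟨β, h2, h3⟩ := hα γ hγ (b ∩ Iio α) g ((mk_le_mk_of_subset inter_subset_left).trans hb)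
    inter_subset_right (fun μ ν e => by
      have : B μ = B ν := by
        ext z
        simp only [B, mem_ofPred_eq, e.1]
        exact and_congr_right fun _ => not_congr (exists_congr fun ξ => and_congr_right fun _ =>
          and_congr_left fun _ => ⟨e.symm.trans, e.trans⟩)
      simp only [g, this])
    (fun μ => by
      by_cases k : (B μ).Nonempty
      · simp only [g, dif_pos k]; exact dm_sub _ k.some_mem.1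
      · simp only [g, dif_neg k]; exact dm_sub _ z1)
    (h1.mono fun _ k => k.1)
  obtain ⟨μ, k1, k2, k3⟩ := (h1.and (h3.and hA)).exists
  exact k1.2 ⟨μ, k3, Agr.refl _ _, fun ξ _ l η k => μ.g.inc _ _ _ _ k2 k (h2.trans_le l)⟩

end Pool.Agent.Lib.MP_d4b40b_lc.W
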