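import Pool.Agent.Lib.MP_d4b40b_lc.W.Norm

set_option autoImplicit false
set_option linter.unusedSectionVars false

namespace Pool.Agent.Lib.MP_d4b40b_lc.W

open Filter Set Cardinal

variable [S : Sys]

section raw

variable {β m γ : I} {x w r : Raw} {C : I → Cone} {T : Set K} {t : Prop} {u : Set I}

lemma blk.by_z0 (h : blk u γ m) (z : Z0 u β m) : blk u γ β :=
  fun c k1 k2 => not_lt.1 fun k3 => absurd (h c k1 k2) (not_le.2 (z c k1 k3))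

lemma Z0.trans (h : Z0 u γ β) (z : Z0 u β m) : Z0 u γ m := fun c k1 k2 => z c k1 (h c k1 k2)

lemma LoOK.pu' (hx : LoOK β x) (hu : ∀ m < β, m ∈ x.u ↔ m ∈ w.u) (hf : w.u.Finite)
    (h0 : ∀ m ≤ β, (w.s0 m).OK m) (h1 : ∀ m < β, (w.s1 m).OK)
    (h2 : ∀ m < β, (w.s2 m).OK (x.a m ∪ w.a m) (x.b m ∪ w.b m))
    (h3 : ∀ γ m, γ < m → m ≤ β → blk w.u γ m → w.b γ ⊆ x.a m ∪ w.a m) : LoOK β (x.pu w) :=
  ⟨hf, fun m k => (hx.s0 m k).pu (h0 m k), fun m k => (hx.s1 m k).pu (h1 m k),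
    fun m k => (h2 m k).setA (fun o => (((hx.s2 m k).inv (mt (hu m k).1 o)).mono
      subset_union_left).inter ((h2 m k).inv o)) (h2 m k).ab (h2 m k).dm,
    fun γ m k1 k2 z => union_subset ((hx.nest γ m k1 k2 ((blk_congr fun c _ l =>
      hu c (l.trans_le k2)).2 z)).trans subset_union_left) (h3 γ m k1 k2 z)⟩

lemma LoOK.pu (hx : LoOK β x) (hw : LoOK β w) (hu : ∀ m < β, m ∈ x.u ↔ m ∈ w.u)
    (hd : ∀ m < β, m ∈ w.u → x.a m ⊆ dm (w.cr m)) : LoOK β (x.pu w) :=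
  hx.pu' hu hw.fin hw.s0 hw.s1 (fun m k => ⟨fun o => ((hw.s2 m k).inv o).mono subset_union_right,
    fun o => union_subset_union ((hx.s2 m k).ab (mt (hu m k).1 o)) ((hw.s2 m k).ab o),
    fun o => union_subset (hd m k o) ((hw.s2 m k).dm o), (hw.s2 m k).he⟩)
    fun γ m k1 k2 z => (hw.nest γ m k1 k2 z).trans subset_union_right

lemma at_pu_left (h : At False (w.s2 m) (x.s2 m)) : At t ((x.pu w).s2 m) (x.s2 m) :=
  ⟨h.on, h.cr, h.e, h.H, fun _ _ => inter_subset_left⟩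

lemma at_pu_right : At t ((x.pu w).s2 m) (w.s2 m) :=
  ⟨Iff.rfl, fun _ => rfl, fun _ => Subset.rfl, fun _ => le_rfl, fun _ _ => inter_subset_right⟩

lemma at_le_pu {z : S2 m} (h : At t z (x.s2 m)) (h' : At t z (w.s2 m)) : At t z ((x.pu w).s2 m) :=
  ⟨h'.on, h'.cr, h'.e, h'.H, fun o l =>
    subset_inter (h.A (fun k => o (h'.on.1 (h.on.2 k))) l) (h'.A o l)⟩

lemma LoC.pu_left (h : ∀ m < β, At False (w.s2 m) (x.s2 m)) : LoC C β T t (x.pu w) x :=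
  ⟨fun _ _ => R0.pu_left _ _ _ _, fun _ _ => R1.pu_left _ _ _ _ _, fun m k => at_pu_left (h m k)⟩

lemma R0.pu_of {C : Cone} {x y : S0} (h : R0 C T y x) : R0 C T (x.pu y) y :=
  R0.pu_right fun π k _ l σ n => (h.n π k l σ n).symm

lemma R1.pu_of {C : Cone} {on : Prop} {x y : S1 m} (h : R1 on C T y x) : R1 on C T (x.pu y) y :=
  R1.pu_right (fun o ξ k _ l σ n => (h.g o ξ k l σ n).symm)
    fun o ξ k _ l μ σ n => (h.f o ξ k l μ σ n).symm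

lemma LoC.pu_right {t' : Prop} (h : LoC C β T t' w x) : LoC C β T t (x.pu w) w :=
  ⟨fun m k => (h.F0 T m ▸ h.s0 m k).pu_of,
    fun m k => ((h.F1 T m ▸ h.s1 m k).mono (h.u k) Subset.rfl (fun _ _ _ _ => id)
      fun _ _ => id).pu_of, fun _ _ => at_pu_right⟩

lemma LoC.le_pu' (h : LoC C β T t r x) (hu : ∀ m < β, m ∈ x.u ↔ m ∈ w.u)
    (h0 : ∀ m ≤ β, R0 (C m) (W.F0 w.u β T m) (r.s0 m) ((w.s0 m).diff (x.s0 m)))
    (h1 : ∀ m < β, R1 (m ∈ w.u) (C m) (W.F1 w.u β T m) (r.s1 m) ((w.s1 m).diff (x.s1 m)))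
    (h2 : ∀ m < β, At (W.blk w.u m β → t) (r.s2 m) (w.s2 m)) : LoC C β T t r (x.pu w) := by
  have e0 : ∀ m, W.F0 x.u β T m = W.F0 w.u β T m := fun m =>
    Set.ext fun _ => imp_congr_left (z0_congr fun c _ l => hu c l)
  have e2 : ∀ m, W.blk x.u m β ↔ W.blk w.u m β := fun m => blk_congr fun c _ l => hu c l
  have e1 : ∀ m, W.F1 x.u β T m = W.F1 w.u β T m := fun m => Set.ext fun _ => imp_congr_left (e2 m)
  exact ⟨fun m k => (e0 m ▸ h.s0 m k).le_pu (h0 m k), fun m k => ((e1 m ▸ h.s1 m k).mono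
    (hu m k).symm Subset.rfl (fun _ _ _ _ => id) fun _ _ => id).le_pu (h1 m k),
    fun m k => at_le_pu ((h.s2 m k).mono fun _ l z => l ((e2 m).1 z)) (h2 m k)⟩

lemma LoC.le_pu (h : LoC C β T t r x) (h' : LoC C β T t r w) : LoC C β T t r (x.pu w) :=
  h.le_pu' (fun _ k => (h.u k).symm.trans (h'.u k)) (fun m k => (h'.s0 m k).diff _)
    (fun m k => (h'.s1 m k).diff _) h'.s2

lemma LoOK.trunc (h : LoOK ⊤ x) (hT : IsLowerSet T) : LoOK ⊤ (x.trunc T) := by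
  refine ⟨h.fin, fun m k => (h.s0 m k).res (F0_low hT), fun m k => (h.s1 m k).res (F1_low hT),
    fun m k => (h.s2 m k).setA (fun o μ ν e l z => (h.s2 m k).inv o μ ν
      (e.mono fun ξ n => ⟨n, fun z' => absurd z' z⟩) (l z))
      (fun o ξ l => ⟨(h.s2 m k).ab o l.1, fun z => l.2 (z.z0' o)⟩)
      fun o => inter_subset_left.trans ((h.s2 m k).dm o),
    fun γ m k1 k2 z ξ l => ⟨h.nest γ m k1 k2 z l.1, fun z' => l.2 (blk.by_z0 z z')⟩⟩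

lemma loC_trunc0 (C : I → Cone) (T : Set K) (x : Raw) : LoC C ⊤ T False (x.trunc T) x :=
  ⟨fun _ _ => (R0.refl _ _ _).of_res, fun _ _ => (R1.refl _ _ _ _).of_res,
    fun _ _ => ⟨Iff.rfl, fun _ => rfl, fun _ => Subset.rfl, fun _ => le_rfl, fun _ l _ k => k l⟩⟩

lemma at_trunc {z : S2 m} (h : At (¬ blk x.u m ⊤) z (x.s2 m)) : At t z ((x.trunc T).s2 m) :=
  ⟨h.on, h.cr, h.e, h.H, fun o _ _ k l => h.A o l k⟩

lemma LoC.trunc (hz : Z0 x.u ⊤ β) (h : LoC C β T False r x) : LoC C β univ t r (x.trunc T) :=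
  ⟨fun m k => ((h.s0 m k).mono (fun _ l z => l.1 (hz.trans z)) fun _ _ _ => id).res,
    fun m k => ((h.s1 m k).mono Iff.rfl (fun _ l z => l.1 (z.by_z0 hz)) (fun _ _ _ _ => id)
      fun _ _ => id).res, fun m k => at_trunc ((h.s2 m k).mono fun _ l z => l (z.by_z0 hz))⟩

end raw

variable [X : Ext S]

section ok

variable {β m γ : I} {x w : Raw} {T : Set K} {α : K} {p q r y z : Cond}

lemma OK.pu' (h : LoOK ⊤ (x.pu w)) (h1 : ⊤ ∈ w.u) (h2 : w.cr ⊤ = S.root)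
    (h3 : ∀ γ c, γ ∉ w.u → Host w.u γ c → x.A γ ∈ X.E (w.cr c) γ ∧ w.A γ ∈ X.E (w.cr c) γ) :
    OK (x.pu w) := ⟨h, h1, h2, fun γ c k l => inter_mem (h3 γ c k l).1 (h3 γ c k l).2⟩

lemma OK.pu (hw : OK w) (hu : p.u = w.u) (hc : ∀ m ∈ p.u, w.cr m = p.cr m) : OK (p.1.pu w) :=
  OK.pu' (p.lo.pu hw.lo (fun _ _ => hu ▸ Iff.rfl) fun m _ o => hc m (hu ▸ o) ▸ p.a_dm (hu ▸ o))
    hw.top hw.root fun γ c k l => ⟨hc c (hu ▸ l.mem) ▸ p.ok.big γ c (hu ▸ k : γ ∉ p.u)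
      (hu ▸ l : Host p.u γ c),
      hw.big γ c k l⟩

lemma OK.trunc (h : OK x) (hT : IsLowerSet T) : OK (x.trunc T) :=
  ⟨h.lo.trunc hT, h.top, h.root, fun γ c k l => mem_of_superset (h.big γ c k l) fun _ n _ => n⟩

lemma at_norm_max (h : Lo β univ True q.1 x) (h' : At True (q.1.s2 β) (x.s2 β)) :
    At True (q.1.s2 β) (x.norm.s2 β) := by
  have hu : ∀ γ ≤ β, γ ∈ q.1.u ↔ γ ∈ x.u := fun γ l => l.eq_or_lt.elim (fun e => e ▸ h'.on) h.u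
  refine ⟨h'.on, h'.cr, h'.e, h'.H, fun o _ => ?_⟩
  rw [show (q.1.s2 β).A = q.1.nA β from (q.nrm.nA β).symm]
  refine nA_congr hu (fun γ l _ => h.a_sub l fun _ => subset_univ _) (fun γ l o' => ?_) β le_rfl o
  rcases l.eq_or_lt with rfl | l'
  exacts [h'.A o' trivial, (h.s2 γ l').A o' fun _ => trivial]

lemma dle_cond (h : OK x) (e : Lo ⊤ univ True x p.1) : DLe h.cond p :=
  Lo.trans isLowerSet_univ (lo_norm _ _ _ _) e

lemma lw_cond (h : OK x) (e : Lo β univ True p.1 x) (e' : At True (p.1.s2 β) (x.s2 β)) :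
    Lw β p h.cond := ⟨e.norm_univ p.nrm, at_norm_max e e'⟩

/-- maximality of the normalised sets above a level -/
lemma nA_up (hu : q.u = x.u) (h1 : ∀ γ ≤ β, γ ∉ x.u → q.A γ ⊆ x.nA γ)
    (h2 : ∀ m, β < m → (m ∈ y.u ↔ m ∈ x.u))
    (h3 : ∀ m, β < m → m ∉ x.u → y.A m ⊆ x.A m ∧ y.A m ⊆ q.A m ∧ x.a m ⊆ y.a m) :
    ∀ m, β < m → m ∉ x.u → y.A m ⊆ x.nA m := by
  intro m
  induction m using WellFoundedLT.induction with
  | ind m ih =>
    intro l o μ k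
    have n := y.nrm m (mt (h2 m l).1 o) μ k
    refine Raw.mem_nA.2 ⟨(h3 m l o).1 k, fun _ => ⟨(h3 m l o).2.2.trans n.1, fun γ l1 l2 l3 => ?_⟩⟩
    rcases le_or_gt γ β with l4 | l4
    · exact mem_of_superset ((q.nrm m (hu ▸ o : m ∉ q.u) μ ((h3 m l o).2.1 k)).2 γ l1
        (hu ▸ l2 : γ ∉ q.u) (hu ▸ l3 : blk q.u γ m)) fun ν i => h1 γ l4 l2 i
    · exact mem_of_superset (n.2 γ l1 (mt (h2 γ l4).1 l2)
        (l3.sub fun δ n1 n2 _ => (h2 δ (l4.trans n2)).1 n1)) fun ν i => ih γ l1 l4 l2 i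

lemma Ex.ok_copy (h : Ex α r p) : OK (p.1.pu (r.1.trunc (Iio α))) :=
  OK.pu (r.ok.trunc (isLowerSet_Iio α)) h.u.symm fun _ k => h.cr k

/-- the part of `r` below `α` is copied into `p` -/
noncomputable def Ex.copy (h : Ex α r p) : Cond := h.ok_copy.cond

lemma Ex.copy_dle (h : Ex α r p) : DLe h.copy p :=
  dle_cond _ (Lo.of_eq isLowerSet_univ p.lo.s1 (LoC.pu_left fun m k =>
    ⟨(h.s2 m k).on, (h.s2 m k).cr, (h.s2 m k).e, (h.s2 m k).H, fun _ => False.elim⟩))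

lemma Ex.copy_ex (h : Ex α r p) : Ex α h.copy r := by
  refine Lo.trans (isLowerSet_Iio α) (lo_norm _ _ _ _) (Lo.of_joint (isLowerSet_Iio α) r.lo.s1 ?_)
  refine LoC.trans ?_ (loC_trunc0 _ _ _)
  refine ⟨fun m k => R0.pu_right fun π l1 _ l3 σ n => ((h.s0 m k).n π l1
      (h.toLoC.F0 _ m ▸ l3) σ n.2).symm, fun m k => R1.pu_right
      (fun o ξ l1 _ l3 σ n => ((h.s1 m k).g ((h.toLoC.u k).1 o) ξ l1 (h.toLoC.F1 _ m ▸ l3) σ
        fun ζ => (n ζ).2).symm) fun o ξ l1 _ l3 μ σ n => ((h.s1 m k).f (mt (h.toLoC.u k).2 o) ξ l1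
          (h.toLoC.F1 _ m ▸ l3) μ σ n.2).symm, fun _ _ => at_pu_right⟩

lemma Ex.lo_copy {T : Set K} {t : Prop} (h : Ex α r p) (hT : IsLowerSet T) (hz : Z0 r.u ⊤ β)
    (h1 : Lo β T t z.1 p.1) (h2 : Lo β (Iio α) False z.1 r.1) :
    Lo β T t z.1 (p.1.pu (r.1.trunc (Iio α))) :=
  Lo.of_cone hT (h.ok_copy.lo.mono le_top).s1 (h1.toLoC.le_pu ((h2.toLoC.trunc hz).mono le_rfl
    (fun _ _ z => ⟨z, subset_univ _, id⟩) fun _ => subset_univ _))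

lemma Ex.ex_copy (h : Ex α r p) (h1 : Ex α z p) (h2 : Ex α z r) : Ex α z h.copy :=
  (h.lo_copy (isLowerSet_Iio α) (Z0.self _ _) h1 h2).norm_false z.nrm

lemma Ex.dle_copy (h : Ex α r p) (h1 : DLe z p) (h2 : Ex α z r) : DLe z h.copy :=
  (h.lo_copy isLowerSet_univ (Z0.self _ _) h1 h2).norm_univ z.nrm

lemma Ex.lo_tz (h : Ex α r p) : Lo β (Iio α) False r.1 p.1 :=
  Lo.mono h le_top (fun _ _ z => ⟨z.mono le_rfl le_top, Subset.rfl, id⟩) fun _ => Subset.rfl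

lemma Ex.copy_fix (h : Ex α r p) (hβ : β < ⊤) (hz : Z0 r.u ⊤ β) (h1 : Ex α p q) (h2 : Lw β q r) :
    Fix β h.copy p := by
  refine ⟨h.copy_dle, lw_cond _ (h.lo_copy isLowerSet_univ hz (Lo.refl _ _ _ _)
    (Lo.trans (isLowerSet_Iio α) h1.lo_tz (Lo.weak h2.1 (subset_univ _) fun _ => trivial)))
    (at_le_pu (At.refl _ _) (at_trunc ?_))⟩
  exact ((h1.s2 β hβ).mono fun _ l => absurd hz.blk l).trans (h2.2.mono fun _ _ => trivial)

end ok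

end Pool.Agent.Lib.MP_d4b40b_lc.W
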