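import Pool.Agent.Lib.MP_d4b40b_lc.W.Raw
import Pool.Agent.Lib.MP_d4b40b_lc.W.Iface

set_option autoImplicit false
set_option linter.unusedSectionVars false

namespace Pool.Agent.Lib.MP_d4b40b_lc.W

open Filter Set Cardinal

variable [S : Sys] [X : Ext S]

namespace Cond

abbrev u (p : Cond) : Set I := p.1.u

abbrev a (p : Cond) (m : I) : Set K := p.1.a m

abbrev b (p : Cond) (m : I) : Set K := p.1.b m

abbrev A (p : Cond) (m : I) : Set (Obj m) := p.1.A m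

abbrev cr (p : Cond) (m : I) : D m := p.1.cr m

abbrev H (p : Cond) (m : I) : HH m := p.1.H m

abbrev e (p : Cond) (m : I) : Set (Tr K) := p.1.e m

noncomputable abbrev info (p : Cond) (m : I) : Info := p.1.info m

lemma ok (p : Cond) : OK p.1 := p.2.1

lemma lo (p : Cond) : LoOK ⊤ p.1 := p.2.1.lo

lemma nrm (p : Cond) : Nrm p.1 := p.2.2

lemma top (p : Cond) : ⊤ ∈ p.u := p.ok.top

lemma lt_top {p : Cond} {m : I} (h : m ∉ p.u) : m < ⊤ := lt_top_iff_ne_top.2 fun e => h (e ▸ p.top)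

lemma exists_host (p : Cond) {β : I} (h : β < ⊤) : ∃ c, Host p.u β c :=
  (W.exists_host p.top h).imp fun _ k => ⟨k.1, k.2.1, k.2.2⟩

open Classical in
/-- the condition with the given data, if these are valid -/
noncomputable def mk (x : Raw) (d : Cond) : Cond := if h : OK x ∧ Nrm x then ⟨x, h⟩ else d

lemma mk_val {x : Raw} (d : Cond) (h : OK x ∧ Nrm x) : (mk x d).1 = x := by
  rw [mk, dif_pos h]

end Cond

/-- direct extension -/
def DLe (q p : Cond) : Prop := Lo ⊤ univ True q.1 p.1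

/-- `q` extends the part of `p` living below the coordinate `α` -/
def Ex (α : K) (q p : Cond) : Prop := Lo ⊤ (Iio α) False q.1 p.1

/-- agreement below the coordinate `α` -/
def Agree (α : K) (p q : Cond) : Prop := Ex α p q ∧ Ex α q p

/-- direct extension of the part below the level `β`, third slot of `β` excluded -/
def Lb (β : I) (q p : Cond) : Prop := Lo β univ True q.1 p.1

/-- direct extension of the part below the level `β`, third slot of `β` included -/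
def Lw (β : I) (q p : Cond) : Prop := Lb β q p ∧ At True (q.1.s2 β) (p.1.s2 β)

/-- direct extension which does not change the lower part -/
def Fix (β : I) (q p : Cond) : Prop := DLe q p ∧ Lw β p q

/-- admissible objects -/
def Adm (p : Cond) (β : I) (μ : Obj β) : Prop := β ∉ p.u ∧ μ ∈ p.A β

/-- one step extension -/
noncomputable def act (p : Cond) (β : I) (μ : Obj β) : Cond := Cond.mk (p.1.act β μ) p

/-- lower part of `d`, upper part of `q` -/
noncomputable def mix (β : I) (d q : Cond) : Cond := Cond.mk (Raw.mix β d.1 q.1) q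

/-- generators of the order -/
def Step (r p : Cond) : Prop := DLe r p ∨ ∃ β μ, Adm p β μ ∧ r = act p β μ

instance : Preorder Cond where
  le := Relation.TransGen Step
  le_refl _ := .single (Or.inl (Lo.refl _ _ _ _))
  le_trans _ _ _ := Relation.TransGen.trans

/-- extension without new levels above `β` -/
def UpLe (β : I) (y s : Cond) : Prop := y ≤ s ∧ ∀ c ∈ y.u, β < c → c ∈ s.u

/-- the lower part of `d` extends the lower part of `s` -/
def LL (β : I) (d s : Cond) : Prop := β ∈ d.u ∧ β ∈ s.u ∧ mix β d s ≤ s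

/-- the objects of `p` lift to objects of `p'` -/
def Pr (α : K) (p p' : Cond) : Prop :=
  ∀ m, m ∉ p'.u → blk p'.u m ⊤ → p.A m ⊆ proj α (p'.b m) (p'.A m)

/-- the generic lower collapse -/
def Cc (n : I) (β i v : K) (p : Cond) : Prop :=
  n ∈ p.u ∧ (β, i) ∈ (p.1.s0 n).Bl ∧ v ∈ (p.1.s0 n).N (β, i) (p.info n)

/-- the generic upper collapse -/
def Fc (n : I) (β i v : K) (p : Cond) : Prop := n < ⊤ ∧ n ∈ p.u ∧ (β, i, v) ∈ p.e n

section basic

variable {r q p d s y : Cond} {α α' : K} {β β' m : I}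

lemma le_step (h : r ≤ p) {P : Cond → Cond → Prop} (h1 : ∀ a b, DLe a b → P a b)
    (h2 : ∀ b β μ, Adm b β μ → P (act b β μ) b) (h3 : ∀ a b c, a ≤ b → b ≤ c → P a b → P b c → P a c) :
    P r p := by
  induction h using Relation.TransGen.trans_induction_on with
  | single h => exact h.elim (h1 _ _) fun ⟨β, μ, k1, k2⟩ => k2 ▸ h2 _ β μ k1
  | trans k1 k2 i1 i2 => exact h3 _ _ _ k1 k2 i1 i2

lemma DLe.refl (p : Cond) : DLe p p := Lo.refl _ _ _ _

lemma DLe.trans (h : DLe r q) (h' : DLe q p) : DLe r p := Lo.trans isLowerSet_univ h h'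

lemma DLe.le (h : DLe q p) : q ≤ p := .single (Or.inl h)

lemma act_le {μ : Obj β} (h : Adm p β μ) : act p β μ ≤ p := .single (Or.inr ⟨β, μ, h, rfl⟩)

lemma Adm.lt {μ : Obj β} (h : Adm p β μ) : β < ⊤ := Cond.lt_top h.1

lemma Ex.refl (α : K) (p : Cond) : Ex α p p := Lo.refl _ _ _ _

lemma Ex.trans (h : Ex α r q) (h' : Ex α q p) : Ex α r p := Lo.trans (isLowerSet_Iio α) h h'

lemma Ex.mono (h : Ex α q p) (l : α' ≤ α) : Ex α' q p := Lo.weak h (Iio_subset_Iio l) id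

lemma DLe.ex (h : DLe q p) (α : K) : Ex α q p := Lo.weak h (subset_univ _) fun _ => trivial

lemma Agree.refl (α : K) (p : Cond) : Agree α p p := ⟨Ex.refl _ _, Ex.refl _ _⟩

lemma Agree.symm (h : Agree α p q) : Agree α q p := ⟨h.2, h.1⟩

lemma Agree.trans (h : Agree α p q) (h' : Agree α q r) : Agree α p r :=
  ⟨h.1.trans h'.1, h'.2.trans h.2⟩

lemma Ex.u (h : Ex α q p) : q.u = p.u := Set.ext fun m => by
  rcases (le_top (a := m)).eq_or_lt with rfl | l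
  exacts [iff_of_true q.top p.top, h.toLoC.u l]

lemma DLe.u (h : DLe q p) : q.u = p.u := Set.ext fun m => by
  rcases (le_top (a := m)).eq_or_lt with rfl | l
  exacts [iff_of_true q.top p.top, h.toLoC.u l]

lemma lo_cr {T : Set K} {t : Prop} (h : Lo ⊤ T t q.1 p.1) (k : m ∈ p.u) : q.cr m = p.cr m := by
  rcases (le_top (a := m)).eq_or_lt with rfl | l
  exacts [q.ok.root.trans p.ok.root.symm, (h.s2 m l).cr k]

lemma DLe.cr (h : DLe q p) (k : m ∈ p.u) : q.cr m = p.cr m := lo_cr h k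

lemma Ex.cr (h : Ex α q p) (k : m ∈ p.u) : q.cr m = p.cr m := lo_cr h k

lemma DLe.a (h : DLe q p) (m : I) : p.a m ⊆ q.a m :=
  fun _ k => (h.s0 m le_top).a ⟨k, fun _ => trivial⟩

lemma DLe.b (h : DLe q p) (l : m < ⊤) : p.b m ⊆ q.b m :=
  fun _ k => (h.s1 m l).b ⟨k, fun _ => trivial⟩

lemma DLe.A (h : DLe q p) (l : m ∉ p.u) : q.A m ⊆ p.A m :=
  (h.s2 m (Cond.lt_top l)).A l fun _ => trivial

lemma DLe.H (h : DLe q p) (l : m ∉ p.u) : q.H m ≤ p.H m := (h.s2 m (Cond.lt_top l)).H l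

lemma DLe.e (h : DLe q p) (l : m < ⊤) (k : m ∈ p.u) : p.e m ⊆ q.e m := (h.s2 m l).e k

lemma Ex.a (h : Ex α q p) (m : I) : p.a m ∩ Iio α ⊆ q.a m :=
  fun _ k => (h.s0 m le_top).a ⟨k.1, fun _ => k.2⟩

lemma Ex.b (h : Ex α q p) (l : m < ⊤) : p.b m ∩ Iio α ⊆ q.b m :=
  fun _ k => (h.s1 m l).b ⟨k.1, fun _ => k.2⟩

lemma Ex.H (h : Ex α q p) (l : m ∉ p.u) : q.H m ≤ p.H m := (h.s2 m (Cond.lt_top l)).H l

lemma Adm.dle {μ : Obj β} (h : Adm q β μ) (e : DLe q p) : Adm p β μ :=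
  ⟨e.u ▸ h.1, e.A (e.u ▸ h.1) h.2⟩

lemma Adm.agr {μ ν : Obj β} (h : Adm p β μ) (e : Agr (p.b β) μ ν) : Adm p β ν :=
  ⟨h.1, (p.lo.s2 β h.lt).inv h.1 μ ν e h.2⟩

lemma Adm.dom {μ : Obj β} (h : Adm p β μ) : p.a β ⊆ μ.g.dom := (p.nrm β h.1 μ h.2).1

lemma Cond.ab (p : Cond) (h : m ∉ p.u) : p.a m ⊆ p.b m := (p.lo.s2 m (Cond.lt_top h)).ab h

lemma Cond.inv (p : Cond) (h : m ∉ p.u) : Invt (p.b m) (p.A m) :=
  (p.lo.s2 m (Cond.lt_top h)).inv h

lemma Cond.cb (p : Cond) (h : m < ⊤) : #(p.b m) ≤ kp m := (p.lo.s1 m h).cb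

lemma Cond.ca (p : Cond) (m : I) : #(p.a m) ≤ pre m := (p.lo.s0 m le_top).ca

lemma Cond.a_dm (p : Cond) (h : m ∈ p.u) : p.a m ⊆ dm (p.cr m) := by
  rcases (le_top (a := m)).eq_or_lt with rfl | l
  · rw [show p.cr ⊤ = S.root from p.ok.root, show dm S.root = Set.univ from S.dm_root]
    exact subset_univ _
  · exact (p.lo.s2 m l).dm h

lemma Cond.b_dm (p : Cond) {c : I} (h : Host p.u m c) : p.b m ⊆ dm (p.cr c) :=
  (p.lo.nest m c h.lt le_top h.blk).trans (p.a_dm h.mem)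

lemma Cond.he (p : Cond) (l : m < ⊤) (h : m ∈ p.u) : Val #(dm (p.cr m)) (Lt K (kp m)) (p.e m) :=
  (p.lo.s2 m l).he h

lemma Cond.ae_adm (p : Cond) (h : β ∉ p.u) {c : I} (hc : Host p.u β c) :
    ∀ᶠ μ in (X.E (p.cr c) β : Filter (Obj β)), Adm p β μ :=
  mem_of_superset (p.ok.big β c h hc) fun _ k => ⟨h, k⟩

lemma exists_adm (h : β ∉ p.u) : ∃ μ, Adm p β μ :=
  let ⟨_, hc⟩ := p.exists_host (Cond.lt_top h); (p.ae_adm h hc).exists

lemma exists_tz (p : Cond) {n : I} (h : n < ⊤) : ∃ m, n < m ∧ m < ⊤ ∧ Z0 p.u ⊤ m := by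
  obtain ⟨m, k1, k2⟩ := exists_above (T := insert n (p.u ∩ Iio ⊤))
    ((p.lo.fin.inter_of_left _).insert n).countable (by rintro _ (rfl | k); exacts [h, k.2])
  exact ⟨m, k2 n (mem_insert _ _), k1, fun c l1 l2 => k2 c (Or.inr ⟨l1, l2⟩)⟩

lemma Lb.refl (β : I) (p : Cond) : Lb β p p := Lo.refl _ _ _ _

lemma Lb.trans (h : Lb β r q) (h' : Lb β q p) : Lb β r p := Lo.trans isLowerSet_univ h h'

lemma Lw.refl (β : I) (p : Cond) : Lw β p p := ⟨Lb.refl _ _, At.refl _ _⟩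

lemma Lw.trans (h : Lw β r q) (h' : Lw β q p) : Lw β r p := ⟨h.1.trans h'.1, h.2.trans h'.2⟩

lemma Lb.lw (h : Lb β q p) (l : β' < β) : Lw β' q p :=
  ⟨Lo.low h l.le, (h.s2 β' l).mono fun _ _ _ => trivial⟩

lemma Lw.mono (h : Lw β q p) (l : β' ≤ β) : Lw β' q p :=
  l.eq_or_lt.elim (fun e => e ▸ h) h.1.lw

lemma Lw.on (h : Lw β q p) : β ∈ q.u ↔ β ∈ p.u := h.2.on

lemma DLe.lb (h : DLe q p) (β : I) : Lb β q p := Lo.low h le_top

lemma DLe.lw (h : DLe q p) (l : β < ⊤) : Lw β q p := Lb.lw h l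

lemma Ex.lw (h : Ex α q p) (l : β < ⊤) (k : β ∈ p.u) : Lw β q p :=
  ⟨Lo.down h l k, ⟨(h.s2 β l).on, (h.s2 β l).cr, (h.s2 β l).e, (h.s2 β l).H, fun o => absurd k o⟩⟩

lemma Fix.refl (β : I) (p : Cond) : Fix β p p := ⟨DLe.refl _, Lw.refl _ _⟩

lemma Fix.trans (h : Fix β r q) (h' : Fix β q p) : Fix β r p := ⟨h.1.trans h'.1, h'.2.trans h.2⟩

lemma Fix.mono (h : Fix β q p) (l : β' ≤ β) : Fix β' q p := ⟨h.1, h.2.mono l⟩

lemma Fix.adm {μ : Obj β} (h : Fix β q p) (k : Adm p β μ) : Adm q β μ :=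
  ⟨h.1.u ▸ k.1, h.2.2.A (show β ∉ q.u from h.1.u ▸ k.1) trivial k.2⟩

lemma UpLe.trans_dle (h : UpLe β y s) (e : DLe s p) : UpLe β y p :=
  ⟨h.1.trans e.le, e.u ▸ h.2⟩

lemma DLe.upLe (h : DLe y s) (β : I) : UpLe β y s := ⟨h.le, fun _ k _ => h.u ▸ k⟩

lemma DLe.trans_upLe (e : DLe r y) (h : UpLe β y s) : UpLe β r s := ⟨e.le.trans h.1, e.u ▸ h.2⟩

end basic

end Pool.Agent.Lib.MP_d4b40b_lc.W
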