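import Pool.Agent.Lib.MP_d4b40b_lc.W.Act

set_option autoImplicit false
set_option linter.unusedSectionVars false

namespace Pool.Agent.Lib.MP_d4b40b_lc.W

open Filter Set Cardinal

variable [S : Sys] [X : Ext S]

variable {r q p s : Cond} {α : K} {β m n : I}

lemma u_mono (h : r ≤ p) : p.u ⊆ r.u :=
  le_step h (P := fun a b => b.u ⊆ a.u) (fun _ _ k => k.u.ge)
    (fun _ _ _ k => act_u k ▸ subset_insert _ _) fun _ _ _ _ _ k1 k2 => k2.trans k1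

/-- induction on the last step -/
lemma le_tail {P : Cond → Prop} (h0 : P r) (h1 : ∀ a b, r ≤ a → P a → DLe a b → P b)
    (h2 : ∀ b β μ, Adm b β μ → r ≤ act b β μ → P (act b β μ) → P b) (h : r ≤ p) : P p := by
  have key : ∀ a b, r ≤ a → P a → Step a b → P b := by
    rintro a b k1 k2 (k | ⟨β, μ, k, rfl⟩)
    exacts [h1 a b k1 k2 k, h2 b β μ k k1 k2]
  induction h with
  | single k => exact key _ _ le_rfl h0 k
  | tail k1 k2 ih => exact key _ _ k1 ih k2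

theorem le_split (h : r ≤ p) (h1 : β ∈ r.u) (h2 : β ∉ p.u) :
    ∃ μ, Adm p β μ ∧ r ≤ act p β μ := by
  refine le_tail (P := fun p => β ∉ p.u → ∃ μ, Adm p β μ ∧ r ≤ act p β μ)
    (fun k => absurd h1 k) (fun a b _ ih e k => ?_) (fun b γ ν k l ih n => ?_) h h2
  · obtain ⟨μ, k1, k2⟩ := ih (e.u ▸ k)
    exact ⟨μ, k1.dle e, k2.trans (act_mono e k1).le⟩
  · rcases eq_or_ne β γ with rfl | ne
    · exact ⟨ν, k, l⟩
    obtain ⟨μ, k1, k2⟩ := ih fun i => (act_u k ▸ i : β ∈ insert γ b.u).elim ne n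
    rcases ne.lt_or_gt with i | i
    · obtain ⟨μ', j1, j2, j3⟩ := comm_lo k i k1
      exact ⟨μ', j1, k2.trans (j3.le.trans (act_le j2))⟩
    · obtain ⟨j1, ν', j2, j3⟩ := comm_hi k i k1
      exact ⟨μ, j1, k2.trans (j3.le.trans (act_le j2))⟩

theorem dle_of_le (h : r ≤ p) (h1 : r.u ⊆ p.u) : DLe r p :=
  le_tail (P := fun p => r.u ⊆ p.u → DLe r p) (fun _ => DLe.refl r)
    (fun _ _ _ ih e k => (ih (e.u ▸ k)).trans e)
    (fun _ _ _ k l _ n => absurd (n (u_mono l (act_on k))) k.1) h h1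

lemma exists_on (p : Cond) (β : I) : ∃ q ≤ p, β ∈ q.u := by
  by_cases h : β ∈ p.u
  · exact ⟨p, le_rfl, h⟩
  · obtain ⟨μ, k⟩ := exists_adm h
    exact ⟨_, act_le k, act_on k⟩

/-- induction on the number of new levels -/
theorem le_ind {P : Cond → Prop} {R : Cond → I → Prop}
    (hR : ∀ p : Cond, (r.u \ p.u).Nonempty → ∃ β ∈ r.u \ p.u, R p β) (h0 : ∀ p, DLe r p → P p)
    (h1 : ∀ p β μ, Adm p β μ → r ≤ act p β μ → R p β → P (act p β μ) → P p)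
    (h : r ≤ p) : P p := by
  induction hn : (r.u \ p.u).ncard using Nat.strong_induction_on generalizing p with
  | _ n ih =>
    rcases (r.u \ p.u).eq_empty_or_nonempty with e | e
    · exact h0 p (dle_of_le h (sdiff_eq_empty.1 e))
    · obtain ⟨β, k1, k2⟩ := hR p e
      obtain ⟨μ, k3, k4⟩ := le_split h k1.1 k1.2
      refine h1 p β μ k3 k4 k2 (ih _ (hn ▸ ncard_lt_ncard ⟨?_, fun i => (i k1).2 (act_on k3)⟩
        (r.lo.fin.subset sdiff_subset)) k4 rfl)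
      exact sdiff_subset_sdiff_right (u_mono (act_le k3))

/-- induction on the number of new levels, splitting off the lowest one -/
theorem le_ind_low {P : Cond → Prop} (h0 : ∀ p, DLe r p → P p)
    (h1 : ∀ p β μ, Adm p β μ → r ≤ act p β μ → (∀ c ∈ r.u, c < β → c ∈ p.u) → P (act p β μ) → P p)
    (h : r ≤ p) : P p :=
  le_ind (fun _ e => let ⟨β, k1, k2⟩ := (wellFounded_lt (α := I)).has_min _ e
    ⟨β, k1, fun c l1 l2 => by_contra fun l3 => k2 c ⟨l1, l3⟩ l2⟩) h0 h1 h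

/-- induction on the number of new levels, splitting off the highest one -/
theorem le_ind_high {P : Cond → Prop} (h0 : ∀ p, DLe r p → P p)
    (h1 : ∀ p β μ, Adm p β μ → r ≤ act p β μ → (∀ c ∈ r.u, β < c → c ∈ p.u) → P (act p β μ) → P p)
    (h : r ≤ p) : P p :=
  le_ind (fun _ e => let ⟨β, k1, k2⟩ := exists_max_image _ id (r.lo.fin.subset sdiff_subset) e
    ⟨β, k1, fun c l1 l2 => by_contra fun l3 => l2.not_ge (k2 c ⟨l1, l3⟩)⟩) h0 h1 h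

/-- induction on the number of new levels, any order -/
theorem le_ind_any {P : Cond → Prop} (h0 : ∀ p, DLe r p → P p)
    (h1 : ∀ p β μ, Adm p β μ → β ∈ r.u → P (act p β μ) → P p) (h : r ≤ p) : P p :=
  le_ind_low h0 (fun p β μ k l _ => h1 p β μ k (u_mono l (act_on k))) h

lemma exists_nf (h : r ≤ p) : ∃ s, DLe r s ∧ s ≤ p ∧ s.1.s0 ⊤ = p.1.s0 ⊤ :=
  le_ind_any (P := fun p => ∃ s, DLe r s ∧ s ≤ p ∧ s.1.s0 ⊤ = p.1.s0 ⊤)
    (fun p e => ⟨p, e, le_rfl, rfl⟩) (fun _ _ _ k _ ⟨s, k1, k2, k3⟩ => ⟨s, k1, k2.trans (act_le k),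
      k3.trans (act_s0_out k fun i => k.lt.not_ge i.1)⟩) h

lemma out0_act {μ : Obj β} (k : Adm p β μ) (l : ∀ c ∈ r.u, c ∉ p.u → m ≤ c → ¬ Z0 p.u c m) :
    ∀ c ∈ r.u, c ∉ (act p β μ).u → m ≤ c → ¬ Z0 (act p β μ).u c m := fun c l1 l2 l3 z =>
  l c l1 (fun i => l2 (u_mono (act_le k) i)) l3 fun d i => z d (u_mono (act_le k) i)

lemma out1_act {μ : Obj β} (k : Adm p β μ) (l : ∀ c ∈ r.u, c ∉ p.u → m ≤ c → ¬ blk p.u m c) :
    ∀ c ∈ r.u, c ∉ (act p β μ).u → m ≤ c → ¬ blk (act p β μ).u m c := fun c l1 l2 l3 z =>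
  l c l1 (fun i => l2 (u_mono (act_le k) i)) l3 fun d i => z d (u_mono (act_le k) i)

lemma info_le (h : r ≤ p) (l : ∀ c ∈ r.u, c ∉ p.u → m ≤ c → ¬ Z0 p.u c m) :
    Sub m univ (p.info m) (r.info m) :=
  le_ind_any (P := fun p => (∀ c ∈ r.u, c ∉ p.u → m ≤ c → ¬ Z0 p.u c m) →
    Sub m univ (p.info m) (r.info m)) (fun p e _ => F0_univ p.u ⊤ m ▸ Lo.info e le_top)
    (fun _ β _ k i ih l => (info_act_out k fun z => l β i k.1 z.1 z.2).trans (ih (out0_act k l)))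
    h l

lemma out0_on (l : m ∈ p.u) : ∀ c ∈ r.u, c ∉ p.u → m ≤ c → ¬ Z0 p.u c m :=
  fun _ _ l2 l3 => not_z0 l le_rfl (l3.lt_of_ne fun e => l2 (e ▸ l))

lemma info_le_on (h : r ≤ p) (l : m ∈ p.u) : Sub m univ (p.info m) (r.info m) :=
  info_le h (out0_on l)

lemma s0_le (h : r ≤ p) (l : ∀ c ∈ r.u, c ∉ p.u → m ≤ c → ¬ Z0 p.u c m) :
    R0 (cone r.1 m) univ (r.1.s0 m) (p.1.s0 m) :=
  le_ind_any (P := fun p => (∀ c ∈ r.u, c ∉ p.u → m ≤ c → ¬ Z0 p.u c m) →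
    R0 (cone r.1 m) univ (r.1.s0 m) (p.1.s0 m)) (fun p e _ => F0_univ p.u ⊤ m ▸ e.s0 m le_top)
    (fun _ β _ k i ih l => act_s0_out k (fun z => l β i k.1 z.1 z.2) ▸ ih (out0_act k l)) h l

lemma s1_le (h : r ≤ p) (hm : m < ⊤) (l : ∀ c ∈ r.u, c ∉ p.u → m ≤ c → ¬ blk p.u m c) :
    R1 (m ∈ p.u) (cone r.1 m) univ (r.1.s1 m) (p.1.s1 m) := by
  refine le_ind_any (P := fun p => (∀ c ∈ r.u, c ∉ p.u → m ≤ c → ¬ blk p.u m c) →
    R1 (m ∈ p.u) (cone r.1 m) univ (r.1.s1 m) (p.1.s1 m))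
    (fun p e _ => F1_univ p.u ⊤ m ▸ e.s1 m hm) (fun p β μ k i ih l => ?_) h l
  have z : ¬ (m ≤ β ∧ blk p.u m β) := fun z => l β i k.1 z.1 z.2
  have := ih (out1_act k l)
  rw [act_s1_out k z, act_u k] at this
  exact this.mono ⟨Or.inr, fun j => j.resolve_left (ne_of_out z)⟩ Subset.rfl (fun _ _ _ _ => id)
    fun _ _ => id

lemma s2_le (h : r ≤ p) (hm : m < ⊤) (l : ∀ c ∈ r.u, c ∉ p.u → m ≤ c → ¬ blk p.u m c) :
    At True (r.1.s2 m) (p.1.s2 m) :=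
  le_ind_any (P := fun p => (∀ c ∈ r.u, c ∉ p.u → m ≤ c → ¬ blk p.u m c) →
    At True (r.1.s2 m) (p.1.s2 m)) (fun _ e _ => (e.s2 m hm).mono fun _ _ _ => trivial)
    (fun _ β _ k i ih l => act_s2_out k (fun z => l β i k.1 z.1 z.2) ▸ ih (out1_act k l)) h l

lemma H_le (h : r ≤ p) (l : n ∉ r.u) : r.H n ≤ p.H n :=
  le_ind_any (P := fun p => r.H n ≤ p.H n) (fun _ e => e.H (e.u ▸ l))
    (fun _ _ _ k _ ih => ih.trans_eq (act_H k n)) h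

lemma cr_le (h : r ≤ p) (l : n ∈ p.u) : r.cr n = p.cr n :=
  le_ind_any (P := fun p => n ∈ p.u → r.cr n = p.cr n) (fun _ e => e.cr)
    (fun _ _ _ k _ ih l => (ih (u_mono (act_le k) l)).trans
      (act_cr_ne k fun e => k.1 (e ▸ l))) h l

lemma e_le (h : r ≤ p) (hn : n < ⊤) (l : n ∈ p.u) : p.e n ⊆ r.e n :=
  le_ind_any (P := fun p => n ∈ p.u → p.e n ⊆ r.e n) (fun _ e => e.e hn)
    (fun _ _ _ k _ ih l => (act_e_ne k fun e => k.1 (e ▸ l)).ge.trans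
      (ih (u_mono (act_le k) l))) h l

/-- the root of the guide is part of the upper collapse -/
lemma root_le (h : r ≤ p) (l : n ∉ p.u) (l' : n ∈ r.u) : root (p.H n) (r.cr n) ⊆ r.e n := by
  obtain ⟨μ, k1, k2⟩ := le_split h l' l
  rw [cr_le k2 (act_on k1), act_cr k1, ← act_e k1]
  exact e_le k2 k1.lt (act_on k1)

lemma lw_act {γ : I} {μ : Obj γ} (k : Adm s γ μ) (l : β ∈ s.u) (i : β < γ) :
    Lw β (act s γ μ) s ∧ Lw β s (act s γ μ) := by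
  simp only [Lw, Lb, act_val k]
  exact ⟨⟨(lo_act_below l i μ _ _).1, (at_act_on l i.ne μ _).1⟩,
    (lo_act_below l i μ _ _).2, (at_act_on l i.ne μ _).2⟩

lemma lw_of_le (h : r ≤ s) (hβ : β < ⊤) (l : β ∈ s.u) (l' : ∀ c ∈ r.u, c < β → c ∈ s.u) :
    Lw β r s := by
  refine le_ind_any (P := fun s => β ∈ s.u → (∀ c ∈ r.u, c < β → c ∈ s.u) → Lw β r s)
    (fun _ e _ _ => e.lw hβ) (fun s γ μ k i ih l l' => ?_) h l l'
  have j := u_mono (act_le k)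
  exact (ih (j l) fun c a b => j (l' c a b)).trans (lw_act k l
    ((not_lt.1 fun a => k.1 (l' γ i a)).lt_of_ne fun e => k.1 (e ▸ l))).1

/-- the top zone -/
lemma tz_le (h : r ≤ p) (l : Z0 r.u ⊤ m) : p.a m ⊆ r.a m ∧ (m < ⊤ → p.b m ⊆ r.b m) :=
  ⟨(s0_le h fun c l1 l2 l3 => absurd (l c l1 (Cond.lt_top l2)) l3.not_gt).sub,
    fun k => (s1_le h k fun c l1 l2 l3 => absurd (l c l1 (Cond.lt_top l2)) l3.not_gt).sub⟩

lemma Cc.mono {i v ξ : K} (h : Cc n ξ i v p) (e : r ≤ p) : Cc n ξ i v r := by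
  have k := s0_le e (out0_on h.1)
  refine ⟨u_mono e h.1, k.subB h.2.1, ?_⟩
  rw [k.n _ h.2.1 trivial _ (Sub.refl _ _ _)]
  exact (p.lo.s0 n le_top).dep _ h.2.1 _ _ ((info_le_on e h.1).of_univ _) v h.2.2

lemma Cc.fn {i v v' ξ : K} (h : Cc n ξ i v p) (h' : Cc n ξ i v' p) : v = v' :=
  Option.mem_unique h.2.2 h'.2.2

/-- transfer of the top collapse below `α` -/
lemma Cc.ex {i v ξ : K} (h : Cc ⊤ ξ i v p) (e : Ex α q p) (l : ξ < α) : Cc ⊤ ξ i v q := by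
  have k := e.s0 ⊤ le_rfl
  refine ⟨q.top, k.bl _ h.2.1 fun _ => l, ?_⟩
  rw [k.n _ h.2.1 (fun _ => l) _ (Sub.refl _ _ _)]
  exact (p.lo.s0 ⊤ le_top).dep _ h.2.1 _ _ ((Lo.info e le_rfl).mono
    fun _ j _ => lt_of_le_of_lt j.2 l) v h.2.2

lemma Fc.mono {i v ξ : K} (h : Fc n ξ i v p) (e : r ≤ p) : Fc n ξ i v r :=
  ⟨h.1, u_mono e h.2.1, e_le e h.1 h.2.1 h.2.2⟩

lemma Fc.fn {i v v' ξ : K} (h : Fc n ξ i v p) (h' : Fc n ξ i v' p) : v = v' :=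
  (p.he h.1 h.2.1).1.fn _ _ _ _ h.2.2 h'.2.2

lemma of_one_step {D : Cond → Prop} (hop : ∀ a b, D a → b ≤ a → D b)
    (hreg : ∀ q, (∀ r ≤ q, ∃ r' ≤ r, D r') → D q) (h : β ∉ q.u)
    (H : ∀ μ, Adm q β μ → D (act q β μ)) : D q := by
  refine hreg q fun r k => ?_
  obtain ⟨r', k1, k2⟩ := exists_on r β
  obtain ⟨μ, k3, k4⟩ := le_split (k1.trans k) k2 h
  exact ⟨r', k1, hop _ _ (H μ k3) k4⟩

end Pool.Agent.Lib.MP_d4b40b_lc.W
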