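import Pool.Agent.Lib.MP_d4b40b_lc.W.XP

set_option autoImplicit false
set_option linter.unusedSectionVars false
set_option linter.style.haveILetI false

namespace Pool.Agent.Lib.MP_d4b40b_lc.W

open Filter Set Cardinal

variable [S : Sys] [X : Ext S]

variable {p : Cond} {β : I}

theorem one_step {E : Cond → Prop} (hE : ∀ a b, E a → DLe b a → E b) (l : β ∉ p.u)
    (hd : ∀ q, DLe q p → ∀ μ, Adm q β μ → ∃ r, DLe r (act q β μ) ∧ E r) :
    ∃ q, DLe q p ∧ ∀ μ, Adm q β μ → E (act q β μ) := by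
  classical
  have hβ := Cond.lt_top l
  obtain ⟨p1, f1, d1⟩ := diag l (J := Unit) (by simpa using one_lt_aleph0.le.trans (kp_inf β))
    (fun _ => E) fun _ => hE
  have l1 : β ∉ p1.u := f1.1.u ▸ l
  obtain ⟨c, hc⟩ := p1.exists_host hβ
  obtain ⟨Y, y1, y2⟩ := ae_dom (p1.cr c) hc.lt (p1.b_dm hc) (p1.cb hβ)
  choose e e1 e2 e3 using fun c => ediag hE p1 hβ c (y1 c).1 (root_val hβ (p1.H β) c)
  obtain ⟨h', hh1, hh2⟩ := hh_ext hβ (p1.H β) e fun c => ⟨e1 c, e2 c⟩
  obtain ⟨p2, s1, -, s2, -⟩ := exists_setH l1 hh1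
  have l2 : β ∉ p2.u := s1.u ▸ l1
  obtain ⟨p3, s3, s4⟩ := exists_shrinkQ l2 (s1.host hc).1
    (Q := fun μ => μ.g.dom ∩ p1.b β ⊆ Y μ.c) (fun μ ν _ a k ξ n => a.1 ▸ k
      ⟨show ∃ η, η ∈ μ.g.f ξ from (a.2 ξ (s1.b hβ n.2)).symm ▸ n.1, n.2⟩) ((s1.host hc).2 ▸ y2)
  have s5 := s3.trans s1
  have l3 : β ∉ p3.u := s3.u ▸ l2
  have hr : ∀ q, DLe q p3 → ∀ μ, Adm q β μ → e μ.c ⊆ (act q β μ).e β := fun q k μ a => by
    rw [act_e a]
    exact (hh2 _).trans (root_mono (((k.trans s3).H l2).trans s2.le) _)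
  let Θ : Obj β → Cond → Prop := fun μ d => Adm p3 β μ →
    (β ∈ d.u ∧ d.cr β = μ.c ∧ Lb β d (act p3 β μ)) ∧ Hold E p1 β μ d (e μ.c)
  have t1 : ∀ μ ν, Agr (p3.b β) μ ν → ∀ d, Θ μ d → Θ ν d := fun μ ν a d k n =>
    have n' := n.agr a.symm
    ⟨⟨(k n').1.1, (k n').1.2.1.trans a.1, (k n').1.2.2.trans ((act_agr n a.symm).lb β)⟩,
      a.1 ▸ (k n').2.agr hE (n'.dle s5) (a.mono (s5.b hβ))⟩
  have t2 : ∀ μ, ∃ d, Θ μ d := fun μ => by
    by_cases a : Adm p3 β μ
    · obtain ⟨r, r1, r2⟩ := hd p3 (s5.trans f1.1) μ a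
      have k1 : β ∈ r.u := r1.u ▸ act_on a
      have k2 : r.cr β = μ.c := (r1.cr (act_on a)).trans (act_cr a)
      exact ⟨r, fun _ => ⟨⟨k1, k2, r1.lb β⟩, e3 _ μ r (a.dle s5) rfl (s4 μ a) k1 k2
        ((hr p3 (DLe.refl _) μ a).trans (r1.e hβ (act_on a)))
        (d1 () μ r (a.dle s5) ((r1.trans (act_mono s5 a)).upLe β) r2)⟩⟩
    · exact ⟨p, fun k => absurd k a⟩
  let d : Obj β → Cond := fun μ => @Classical.epsilon _ ⟨p⟩ (Θ μ)
  have t3 : ∀ μ, Θ μ (d μ) := fun μ => Classical.epsilon_spec (t2 μ)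
  obtain ⟨q, q1, q2⟩ := exists_pull l3 d (fun μ ν a => congrArg (@Classical.epsilon _ ⟨p⟩)
    (funext fun x => propext ⟨t1 μ ν a x, t1 ν μ a.symm x⟩)) fun μ a => (t3 μ a).1
  refine ⟨q, (q1.trans s5).trans f1.1, fun μ a => hE _ _
    ((t3 μ (a.dle q1)).2 _ (act_on a) (act_cr a) (q2 μ a) (hr q q1 μ a))
    (((act_mono (q1.trans s5) a).upLe β).dle_mix (act_on (a.dle (q1.trans s5))))⟩

/-- the number of new levels -/
noncomputable def nw (r q : Cond) : ℕ := (r.u \ q.u).ncard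

lemma nw_act {r q : Cond} {μ : Obj β} (a : Adm q β μ) (h : β ∈ r.u) :
    nw r (act q β μ) + 1 = nw r q := by
  rw [nw, nw, act_u a, ← Set.ncard_sdiff_singleton_add_one (s := r.u \ q.u) ⟨h, a.1⟩
    (r.lo.fin.subset sdiff_subset), Set.sdiff_sdiff, union_singleton]

theorem prikry {J : Type} {D : J → Cond → Prop} (hop : ∀ j a b, D j a → b ≤ a → D j b)
    (hreg : ∀ j q, (∀ r ≤ q, ∃ r' ≤ r, D j r') → D j q)
    (hdir : ∀ β < ⊤, ∀ (c : I) (d : W.D c), β < c → ∀ f : Obj β → J, #(range f) ≤ kp β →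
      ∃ j, ∀ᶠ μ in (X.E d β : Filter (Obj β)), ∀ q, D (f μ) q → D j q)
    (p : Cond) (hd : ∀ q ≤ p, ∃ r ≤ q, ∃ j, D j r) : ∃ q, DLe q p ∧ ∃ j, D j q := by
  classical
  let P : ℕ → Cond → Prop := fun k q => ∀ r ≤ q, nw r q = k → ¬ ∃ j, D j r
  have p1 : ∀ k a b, P k a → DLe b a → P k b := fun k a b h e r l n =>
    h r (l.trans e.le) (by rw [nw, ← e.u]; exact n)
  have p2 : ∀ a b, (∃ j, D j a) → DLe b a → ∃ j, D j b :=
    fun a b h e => h.imp fun j k => hop j a b k e.le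
  have key : ∀ k q, ∃ r, DLe r q ∧ ((∃ j, D j r) ∨ P k r) := by
    intro k
    induction k with
    | zero =>
      intro q
      by_cases h : P 0 q
      · exact ⟨q, DLe.refl q, Or.inr h⟩
      · simp only [P, not_forall, not_not] at h
        obtain ⟨r, k1, k2, k3⟩ := h
        exact ⟨r, dle_of_le k1 (Set.sdiff_eq_empty.1
          ((Set.ncard_eq_zero (r.lo.fin.subset sdiff_subset)).1 k2)), Or.inl k3⟩
    | succ k ih =>
      intro q
      obtain ⟨r, r1, r2⟩ := dle_meet I_le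
        (fun β r => (∃ j, D j r) ∨ ∀ μ, Adm r β μ → P k (act r β μ)) q
        (fun β a b h e => h.imp (fun h => p2 a b h e) fun h μ n =>
          p1 k _ _ (h μ (n.dle e)) (act_mono e n))
        (fun β a _ => by
          by_cases l : β ∈ a.u
          · exact ⟨a, DLe.refl a, Or.inr fun μ n => absurd l n.1⟩
          obtain ⟨b, b1, b2⟩ := one_step (E := fun r => (∃ j, D j r) ∨ P k r)
            (fun a b h e => h.imp (fun h => p2 a b h e) fun h => p1 k a b h e) l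
            fun q _ μ _ => ih _
          have hβ := Cond.lt_top l
          have lb : β ∉ b.u := b1.u ▸ l
          obtain ⟨c, hc⟩ := b.exists_host hβ
          by_cases h : ∀ᶠ μ in (X.E (b.cr c) β : Filter (Obj β)), ∃ j, D j (act b β μ)
          · obtain ⟨-, j0, -⟩ := h.exists
            let f : Obj β → J := fun μ =>
              @Classical.epsilon _ ⟨j0⟩ fun j => D j (act b β (μ.res (b.b β)))
            obtain ⟨j, hj⟩ := hdir β hβ c (b.cr c) hc.lt f
              (range_agr hβ (b.cb hβ) f fun μ ν e => by simp only [f, e.res_eq])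
            obtain ⟨z, z1, z2⟩ := exists_shrinkQ lb hc (Q := fun μ => D j (act b β μ))
              (fun μ ν n e k => hop j _ _ k (act_agr n e).le) (by
                filter_upwards [h, hj, b.ae_adm lb hc] with μ k1 k2 k3
                have e := μ.agr_res (b.b β)
                exact hop j _ _ (k2 _ (Classical.epsilon_spec (p2 _ _ k1 (act_agr k3 e))))
                  (act_agr (k3.agr e) e.symm).le)
            exact ⟨z, z1.trans b1, Or.inl ⟨j, of_one_step (hop j) (hreg j) (z1.u ▸ lb)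
              fun μ n => hop j _ _ (z2 μ n) (act_mono z1 n).le⟩⟩
          · obtain ⟨z, z1, z2⟩ := exists_shrinkQ lb hc (Q := fun μ => P k (act b β μ))
              (fun μ ν n e h => p1 k _ _ h (act_agr n e)) (by
                filter_upwards [Ultrafilter.eventually_not.2 h, b.ae_adm lb hc] with μ k1 k2
                exact (b2 μ k2).resolve_left k1)
            exact ⟨z, z1.trans b1, Or.inr fun μ n => p1 k _ _ (z2 μ n) (act_mono z1 n)⟩)
      refine ⟨r, r1, or_iff_not_imp_left.2 fun h s s1 s2 => ?_⟩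
      obtain ⟨β, k1, k2⟩ := Set.nonempty_of_ncard_ne_zero (s2.trans_ne k.succ_ne_zero)
      obtain ⟨μ, k3, k4⟩ := le_split s1 k1 k2
      exact (r2 β).resolve_left h μ k3 s k4 (Nat.succ_injective ((nw_act k3 k1).trans s2))
  by_contra hc
  obtain ⟨q, q1, q2⟩ := dle_meet (T := ℕ) (mk_nat.trans_le aleph0_lt_aleph_one.le) P p p1
    fun k a e => (key k a).imp fun r h => ⟨h.1, h.2.resolve_left fun n => hc ⟨r, h.1.trans e, n⟩⟩
  obtain ⟨r, k1, k2⟩ := hd q q1.le
  exact q2 _ r k1 rfl k2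

end Pool.Agent.Lib.MP_d4b40b_lc.W
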