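import Pool.Agent.Lib.MP_d4b40b_lc.W.Mix
import Pool.Agent.Lib.MP_d4b40b_lc.W.Lim
import Pool.Agent.Lib.MP_d4b40b_lc.W.Ops

set_option autoImplicit false
set_option linter.unusedSectionVars false

namespace Pool.Agent.Lib.MP_d4b40b_lc.W

open Filter Set Cardinal

variable [S : Sys] [X : Ext S]

variable {r q p p' y z : Cond} {α : K} {β m : I} {μ : Obj β}

/-- `y` extends the part of `q` above `β` -/
structure Up (β : I) (y q : Cond) : Prop where
  u : ∀ m, β < m → (m ∈ y.u ↔ m ∈ q.u)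
  cr : ∀ m, β < m → m ∈ q.u → y.cr m = q.cr m
  s0 : ∀ m, β < m → R0 (cone y.1 m) univ (y.1.s0 m) (q.1.s0 m)
  s1 : ∀ m, β < m → m < ⊤ → R1 (m ∈ q.u) (cone y.1 m) univ (y.1.s1 m) (q.1.s1 m)
  s2 : ∀ m, β < m → m < ⊤ → At True (y.1.s2 m) (q.1.s2 m)
  b : β < ⊤ → q.b β ⊆ y.b β

lemma UpLe.s1 (h : UpLe β y q) (l : β ∈ q.u) (hβ : β < ⊤) :
    R1 True (cone y.1 β) univ (y.1.s1 β) (q.1.s1 β) :=
  (s1_le h.1 hβ fun c k k' n => absurd (n.eq_or_lt.elim (fun e => e ▸ l) (h.2 c k)) k').mono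
    (iff_of_true trivial l) Subset.rfl (fun _ _ _ _ => id) fun _ _ => id

lemma UpLe.up (h : UpLe β y q) (l : β ∈ q.u) : Up β y q :=
  ⟨fun m k => ⟨fun n => h.2 m n k, fun n => u_mono h.1 n⟩, fun _ _ => cr_le h.1,
    fun _ k => s0_le h.1 fun c n n' i => absurd (h.2 c n (k.trans_le i)) n',
    fun _ k k' => s1_le h.1 k' fun c n n' i => absurd (h.2 c n (k.trans_le i)) n',
    fun _ k k' => s2_le h.1 k' fun c n n' i => absurd (h.2 c n (k.trans_le i)) n',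
    fun k => (h.s1 l k).sub⟩

lemma Up.of_act (a : Adm q β μ) (h : Up β y (act q β μ)) : Up β y q := by
  have e : ∀ m, β < m → (m ∈ (act q β μ).u ↔ m ∈ q.u) := fun m k => by
    rw [act_u a]; exact or_iff_right k.ne'
  have e2 : ∀ m, β < m → (act q β μ).1.s2 m = q.1.s2 m := fun m k =>
    act_s2_out a fun n => k.not_ge n.1
  refine ⟨fun m k => (h.u m k).trans (e m k), fun m k n => (h.cr m k ((e m k).2 n)).trans
    (congrArg S2.cr (e2 m k)), fun m k => act_s0_out a (fun n => k.not_ge n.1) ▸ h.s0 m k,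
    fun m k k' => act_s1_out a (fun n => k.not_ge n.1) ▸ (h.s1 m k k').mono (e m k).symm
      Subset.rfl (fun _ _ _ _ => id) fun _ _ => id, fun m k k' => e2 m k ▸ h.s2 m k k',
    fun k => act_b a ▸ h.b k⟩

/-- the result of pulling `y` back into `q` -/
structure IsPull (β : I) (q y w : Cond) : Prop where
  fix : Fix β w q
  s0 : ∀ m, β < m → w.1.s0 m = (q.1.s0 m).pu (y.1.s0 m)
  s1 : ∀ m, β < m → w.1.s1 m = (q.1.s1 m).pu (y.1.s1 m)
  s1' : w.1.s1 β = (q.1.s1 β).pu (y.1.s1 β).deact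
  s2 : ∀ m, β < m → At True (w.1.s2 m) (y.1.s2 m) ∧ At False (y.1.s2 m) (w.1.s2 m)

theorem Up.pull (hβ : β < ⊤) (h : Up β y q) : ∃ w, IsPull β q y w := by
  let x := Raw.mix β q.1 (y.1.deact β)
  have hu : ∀ m, m ∈ x.u ↔ m ∈ q.u := fun m => (le_or_gt m β).elim Raw.mix_u_le
    fun k => (Raw.mix_u_gt k).trans (h.u m k)
  have e0 : ∀ m, β < m → x.s0 m = y.1.s0 m := fun _ => Raw.mix_s0_gt
  have e1 : ∀ m, β < m → x.s1 m = y.1.s1 m := fun m k =>
    (Raw.mix_s1_ge k.le).trans (Function.update_of_ne k.ne' _ _)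
  have e1' : x.s1 β = (y.1.s1 β).deact := (Raw.mix_s1_ge le_rfl).trans (Function.update_self _ _ _)
  have e2 : ∀ m, β < m → x.s2 m = y.1.s2 m := fun _ => Raw.mix_s2_gt
  have eb : ∀ m, β ≤ m → x.b m = y.b m := fun m k => k.eq_or_lt.elim
    (fun e => e ▸ (congrArg S1.b e1' : x.b β = (y.1.s1 β).deact.b)) fun l => congrArg S1.b (e1 m l)
  have a2 : ∀ m < ⊤, At False (x.s2 m) (q.1.s2 m) := fun m k => (le_or_gt m β).elim
    (fun l => by rw [show x.s2 m = q.1.s2 m from Raw.mix_s2_le l]; exact At.refl _ _)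
    fun l => e2 m l ▸ (h.s2 m l k).mono fun _ _ => trivial
  have hc : ∀ c ∈ q.u, x.cr c = q.cr c := fun c k => (le_or_gt c β).elim
    (fun l => congrArg S2.cr (Raw.mix_s2_le l)) fun l => (congrArg S2.cr (e2 c l)).trans (h.cr c l k)
  have ok : OK (q.1.pu x) := by
    refine OK.pu' (q.lo.pu' (fun m _ => (hu m).symm) (q.lo.fin.subset fun m => (hu m).1)
      (fun m k => ?_) (fun m k => ?_) (fun m k => ?_) fun γ m k1 k2 n => ?_) ((hu _).2 q.top)
      ((hc _ q.top).trans q.ok.root) fun γ c k l => ?_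
    · rcases le_or_gt m β with l | l
      exacts [(Raw.mix_s0_le l : x.s0 m = _) ▸ q.lo.s0 m k, e0 m l ▸ y.lo.s0 m k]
    · rcases lt_trichotomy m β with l | rfl | l
      exacts [(Raw.mix_s1_lt l : x.s1 m = _) ▸ q.lo.s1 m k, e1' ▸ (y.lo.s1 m k).deact, e1 m l ▸ y.lo.s1 m k]
    · rcases le_or_gt m β with l | l
      · have := q.lo.s2 m k
        rw [show x.s2 m = q.1.s2 m from Raw.mix_s2_le l,
          show x.a m = q.a m from congrArg S0.a (Raw.mix_s0_le l), union_self]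
        exact ⟨fun o => (this.inv o).mono subset_union_left,
          fun o => (this.ab o).trans subset_union_left, this.dm, this.he⟩
      · rw [e2 m l, show x.a m = y.a m from congrArg S0.a (e0 m l), eb m l.le,
          union_eq_right.2 (h.s0 m l).sub, union_eq_right.2 (h.s1 m l k).sub]
        exact y.lo.s2 m k
    · rcases lt_or_ge γ β with l | l
      · rw [show x.b γ = q.b γ from congrArg S1.b (Raw.mix_s1_lt l)]
        exact (q.lo.nest γ m k1 k2 (n.sub fun c i _ _ => (hu c).2 i)).trans subset_union_left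
      · rw [eb γ l, show x.a m = y.a m from congrArg S0.a (e0 m (l.trans_lt k1))]
        exact (y.lo.nest γ m k1 k2 (n.sub fun c i i' _ =>
          (hu c).2 ((h.u c (l.trans_lt i')).1 i))).trans subset_union_right
    · have l' : Host q.u γ c := ⟨(hu c).1 l.mem, l.lt, l.blk.sub fun c i _ _ => (hu c).2 i⟩
      have b1 : q.A γ ∈ X.E (x.cr c) γ := hc c l'.mem ▸ q.ok.big γ c (mt (hu γ).2 k) l'
      refine ⟨b1, (le_or_gt γ β).elim (fun n => ?_) fun n => ?_⟩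
      · rwa [show x.A γ = q.A γ from congrArg S2.A (Raw.mix_s2_le n)]
      · rw [show x.A γ = y.A γ from congrArg S2.A (e2 γ n),
          show x.cr c = y.cr c from congrArg S2.cr (e2 c (n.trans l.lt))]
        exact y.ok.big γ c (fun i => k ((hu γ).2 ((h.u γ n).1 i)))
          ⟨(h.u c (n.trans l.lt)).2 l'.mem, l.lt, l'.blk.sub fun c i i' _ => (h.u c (n.trans i')).1 i⟩
  refine ⟨ok.cond, ⟨dle_cond ok (Lo.of_eq isLowerSet_univ q.lo.s1 (LoC.pu_left a2)),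
    lw_cond ok (Lo.of_cone isLowerSet_univ (ok.lo.mono le_top).s1 ((LoC.refl _ _ _ _ _).le_pu
      (Lo.mix_right le_rfl).toLoC)) (at_le_pu (At.refl _ _) (Raw.mix_s2_le le_rfl ▸ At.refl _ _))⟩,
    fun m k => congrArg (q.1.s0 m).pu (e0 m k), fun m k => congrArg (q.1.s1 m).pu (e1 m k),
    congrArg (q.1.s1 β).pu e1',
    fun m k => ⟨(at_norm _ _ _).trans (e2 m k ▸ at_pu_right), ?_⟩⟩
  rw [← e2 m k]
  exact ⟨Iff.rfl, fun _ => rfl, fun _ => Subset.rfl, fun _ => le_rfl, fun _ => False.elim⟩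

lemma IsPull.dle_mix {w : Cond} (h : IsPull β q y w) (h' : Up β y q) (l : β ∈ y.u)
    (h0 : ∀ m, β < m → z.1.s0 m = w.1.s0 m) (h1 : ∀ m, β < m → z.1.s1 m = w.1.s1 m)
    (h2 : ∀ m, β < m → z.1.s2 m = w.1.s2 m)
    (h3 : β < ⊤ → R1 True (cone y.1 β) univ (z.1.s1 β) (y.1.s1 β)) : DLe (mix β y z) y := by
  refine Lo.of_joint isLowerSet_univ y.lo.s1 (LoC.cone (C := cone y.1) ?_ fun _ _ _ _ _ k => k.2)
  have := LoC.mix' (T := univ) (t := True) (r := z.1) (s := y.1) l (LoC.refl (cone y.1) _ _ _ _)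
    (fun _ => At.refl _ _) (fun m k => by
      rw [h0 m k, h.s0 m k, F0_univ]; exact (h'.s0 m k).pu_of)
    (fun m k k' => by
      rw [h1 m k, h.s1 m k, F1_univ]
      exact ((h'.s1 m k k').mono (h'.u m k) Subset.rfl (fun _ _ _ _ => id) fun _ _ => id).pu_of)
    (fun k => (F1_univ _ _ _).symm ▸ h3 k) fun m k _ => h2 m k ▸ (h.s2 m k).1.mono fun _ _ => trivial
  rwa [Raw.mix_self, ← mix_val l] at this

theorem pull_on (l : β ∈ q.u) (h : UpLe β y q) : ∃ q', Fix β q' q ∧ DLe (mix β y q') y := by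
  rcases (le_top (a := β)).eq_or_lt with rfl | hβ
  · exact ⟨q, Fix.refl _ _, Lo.of_congr (fun _ => mix_s0_le y.top) (fun _ => mix_s1_lt y.top)
      fun _ k => mix_s2_le y.top k.le ▸ At.refl _ _⟩
  obtain ⟨w, hw⟩ := (h.up l).pull hβ
  refine ⟨w, hw.fix, hw.dle_mix (h.up l) (u_mono h.1 l) (fun _ _ => rfl) (fun _ _ => rfl)
    (fun _ _ => rfl) fun _ => ?_⟩
  have k := h.s1 l hβ
  rw [hw.s1']
  exact (R1.pu_of (y := (y.1.s1 β).deact) ⟨k.b, k.g, fun o => absurd trivial o⟩).trans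
    ⟨inter_subset_left, fun _ _ _ _ _ _ => rfl, fun o => absurd trivial o⟩
    (fun _ _ _ _ => id) fun _ _ => id

lemma dom_none {ξ : K} {b : Set K} (hd : μ.g.dom ⊆ b) (k : ξ ∉ b) : μ.g.f ξ = none :=
  Option.eq_none_iff_forall_not_mem.2 fun η e => k (hd ⟨η, e⟩)

lemma IsPull.dle_act {w : Cond} (hw : IsPull β q y w) (a : Adm q β μ) (hd : μ.g.dom ⊆ q.b β)
    (h : UpLe β y (act q β μ)) : DLe (mix β y (act w β μ)) y := by
  have a' := hw.fix.adm a
  refine hw.dle_mix ((h.up (act_on a)).of_act a) (u_mono h.1 (act_on a))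
    (fun m k => act_s0_out a' fun n => k.not_ge n.1) (fun m k => act_s1_out a' fun n => k.not_ge n.1)
    (fun m k => act_s2_out a' fun n => k.not_ge n.1) fun hβ => ?_
  have k := h.s1 (act_on a) hβ
  rw [act_s1_self a] at k
  rw [act_s1_self a', hw.s1', S1.pu_act]
  refine ⟨fun _ l => Or.inr l.1, fun _ ξ l _ σ n => ?_, fun o => absurd trivial o⟩
  by_cases e : ξ ∈ q.b β
  · exact (congrFun (if_pos e) σ).trans (k.g trivial ξ e trivial σ n).symm
  · refine (congrFun (if_neg e) σ).trans ?_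
    simp only [S1.act, S1.deact, dom_none hd e, Option.none_or]

theorem pull_act (a : Adm q β μ) (hd : μ.g.dom ⊆ q.b β) (h : UpLe β y (act q β μ)) :
    ∃ q', Fix β q' q ∧ DLe (mix β y (act q' β μ)) y :=
  let ⟨w, hw⟩ := ((h.up (act_on a)).of_act a).pull a.lt
  ⟨w, hw.fix, hw.dle_act a hd h⟩

lemma IsPull.upLe {w y2 : Cond} {μ' : Obj β} (hw : IsPull β q y w) (hy : Up β y q)
    (o : β ∈ y.u) (hz : Z0 q.u ⊤ β) (e1 : Ex α p q) (e2 : Ex α w p) (a : Adm p β μ')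
    (hd : μ'.g.dom ⊆ p.b β) (h : UpLe β y2 (act p β μ')) (e : Ex α y2 y) :
    UpLe β y2 (act e2.copy β μ') := by
  have hβ := a.lt
  have wu := hw.fix.1.u
  have f := e2.copy_fix hβ (wu ▸ hz) e1 hw.fix.2
  have a' := f.adm a
  have o2 := u_mono h.1 (act_on a)
  have u2 := (h.up (act_on a)).of_act a
  have cu : e2.copy.u = p.u := f.1.u
  have hu : ∀ m, β < m → (m ∈ (act e2.copy β μ').u ↔ m ∈ p.u) := fun m k => by
    rw [act_u a', cu]; exact or_iff_right k.ne'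
  have zy : ∀ m, β < m → Z0 y.u ⊤ m := fun m k c n n' =>
    (le_or_gt c β).elim (fun l => l.trans_lt k) fun l => (hz c ((hy.u c l).1 n) n').trans k
  have zw : ∀ m, β ≤ m → Z0 w.u ⊤ m := fun m k => (wu ▸ hz).mono le_rfl k
  have by' : blk y.u β ⊤ := fun c n n' => not_lt.1 fun l => n'.not_gt (hz c ((hy.u c n').1 n) l)
  have off : ∀ m, β < m → m < ⊤ → m ∉ p.u := fun m k k' n => k.not_gt (hz m (e1.u ▸ n) k')
  have cn : ∀ m, β < m → ∀ ξ < α, ∀ σ, cone y2.1 m ξ σ → cone y.1 m ξ σ := fun m _ ξ l σ =>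
    Lo.cone e (isLowerSet_Iio α) le_top fun _ => l
  have r0 : ∀ m, β < m → R0 (cone y2.1 m) univ (y2.1.s0 m) (e2.copy.1.s0 m) := fun m k => by
    have k1 : R0 (cone y2.1 m) (Iio α) (y2.1.s0 m) (y.1.s0 m) :=
      (e.s0 m le_top).mono (fun _ l _ => l) fun _ _ _ => id
    refine (u2.s0 m k).le_pu (R0.diff (R0.res ?_) _)
    rw [hw.s0 m k]
    exact ((k1.trans ((hy.s0 m k).mono (subset_univ _) fun _ _ _ => id) (cn m k)).le_pu
      (k1.diff _)).mono (fun _ l => l.1 (zw m k.le)) fun _ _ _ => id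
  refine ⟨(DLe.le ?_).trans ((LL.of_le h.1 (act_on a)).lw_right (act_lw f.2 a).2).2.2,
    fun c n l => (hu c l).2 ((u2.u c l).1 n)⟩
  refine Lo.of_cone isLowerSet_univ (mix β y2 _).lo.s1 ?_
  have := LoC.mix' (T := univ) (t := True) (r := y2.1) (s := (act e2.copy β μ').1) o2
    (LoC.refl (cone y2.1) _ _ _ _) (fun _ => At.refl _ _)
    (fun m k => by rw [act_s0_out a' fun n => k.not_ge n.1, F0_univ]; exact r0 m k)
    (fun m k k' => by
      rw [act_s1_out a' fun n => k.not_ge n.1, F1_univ]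
      have k0 := off m k k'
      have k1 : R1 False (cone y2.1 m) (Iio α) (y2.1.s1 m) (y.1.s1 m) :=
        (e.s1 m k').mono (iff_of_false id fun n => k0 (e1.u ▸ (hy.u m k).1 n)) (fun _ l _ => l)
          (fun _ _ _ _ => id) fun _ _ => id
      refine R1.mono (on := False) (((u2.s1 m k k').mono (iff_of_false id k0) Subset.rfl
        (fun _ _ _ _ => id) fun _ _ => id).le_pu (R1.diff (R1.res ?_) _))
        (iff_of_false (mt (hu m k).1 k0) id) Subset.rfl (fun _ _ _ _ => id) fun _ _ => id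
      rw [hw.s1 m k]
      exact ((k1.trans ((hy.s1 m k k').mono (iff_of_false id (e1.u ▸ k0)) (subset_univ _)
        (fun _ _ _ _ => id) fun _ _ => id) (fun _ => cn m k) False.elim).le_pu (k1.diff _)).mono
        Iff.rfl (fun _ l => l.1 (zw m k.le).blk) (fun _ _ _ _ => id) False.elim)
    (fun _ => by
      have k := h.s1 (act_on a) hβ
      have k' := e.s1 β hβ
      rw [act_s1_self a] at k
      rw [act_s1_self a', F1_univ]
      show R1 _ _ _ _ (((p.1.s1 β).pu ((w.1.s1 β).res _)).act μ')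
      rw [hw.s1', S1.pu_act]
      refine k.le_pu ⟨fun ξ l => k'.b ⟨l.1.1.1.elim (fun n => hy.b hβ n) id,
        fun _ => l.1.1.2 (zw β le_rfl).blk⟩, fun _ ξ l _ σ n => ?_, fun o => absurd trivial o⟩
      have l1 : ξ < α := l.1.2 (zw β le_rfl).blk
      have l2 : ξ ∉ q.b β := fun i => l.2 (e1.b hβ ⟨i, l1⟩)
      rw [k'.g o ξ (l.1.1.resolve_left l2) (fun _ => l1) σ n]
      refine Eq.symm ((congrFun (congrFun (if_neg l2) μ') σ).trans ?_)
      simp only [S1.deact, dom_none hd l.2, Option.none_or])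
    fun m k k' => by
      rw [act_s2_out a' fun n => k.not_ge n.1]
      have k1 := (e.s2 m k').mono (t' := False) (fun _ => False.elim) |>.trans (hw.s2 m k).2
      refine ⟨k1.on, k1.cr, k1.e, k1.H, fun o' _ => nA_up (q := p) (y := y2)
        (x := p.1.pu (w.1.trunc (Iio α))) cu.symm
        (fun γ l n => ?_) (fun m l => (u2.u m l).trans (cu ▸ Iff.rfl)) (fun m l n => ?_) m k o'⟩
      · rcases l.eq_or_lt with rfl | l'
        exacts [f.2.2.A n trivial, (f.2.1.s2 γ l').A n fun _ => trivial]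
      · have n' : m ∉ p.u := cu ▸ n
        have i := (u2.s2 m l (Cond.lt_top n')).A n' trivial
        exact ⟨subset_inter i fun _ _ j => absurd (zw m l.le).blk j, i, (r0 m l).sub⟩
  rwa [Raw.mix_self, ← mix_val o2] at this

theorem fam_pull {Z : Type} (q : Z → Cond) (hq : ∀ z w, Ex α (q z) (q w)) (x0 : Z)
    (hβ : Z0 (q x0).u ⊤ β) (a : Adm (q x0) β μ) (hd : μ.g.dom ⊆ (q x0).b β)
    (h : UpLe β y (act (q x0) β μ)) :
    ∃ q' : Z → Cond, (∀ z, Fix β (q' z) (q z)) ∧ (∀ z w, Ex α (q' z) (q' w)) ∧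
      DLe (mix β y (act (q' x0) β μ)) y ∧
      ∀ z, z ≠ x0 → ∀ μ' y2, Adm (q z) β μ' → μ'.g.dom ⊆ (q z).b β →
        UpLe β y2 (act (q z) β μ') → Ex α y2 y → UpLe β y2 (act (q' z) β μ') := by
  classical
  have hy := (h.up (act_on a)).of_act a
  obtain ⟨w, hw⟩ := hy.pull a.lt
  have e : ∀ z, Ex α w (q z) := fun z => (hw.fix.1.ex α).trans (hq x0 z)
  have ag : ∀ z, Agree α (if z = x0 then w else (e z).copy) w := fun z => by
    split_ifs
    exacts [Agree.refl _ _, ⟨(e z).copy_ex, (e z).ex_copy (e z) (Ex.refl _ _)⟩]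
  refine ⟨fun z => if z = x0 then w else (e z).copy, fun z => ?_,
    fun z z' => (ag z).1.trans (ag z').2, ?_, fun z l μ' y2 a' hd' h' e' => ?_⟩
  · dsimp only
    split_ifs with l
    exacts [l ▸ hw.fix, (e z).copy_fix a.lt (hw.fix.1.u ▸ hβ) (hq z x0) hw.fix.2]
  · simpa only [if_true] using hw.dle_act a hd h
  · simpa only [if_neg l] using hw.upLe hy (u_mono h.1 (act_on a)) hβ (hq z x0) (e z) a' hd' h' e'

theorem exists_shrink1 (l : β ∉ p.u) {B : Set (Obj β)} (h1 : Invt (p.b β) B)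
    (h2 : ∀ c, Host p.u β c → B ∈ X.E (p.cr c) β) :
    ∃ q, DLe q p ∧ Lb β p q ∧ q.A β ⊆ B ∧ q.1.s0 = p.1.s0 ∧ q.1.s1 = p.1.s1 ∧
      ∀ m, q.H m = p.H m := by
  classical
  let A : ∀ m, Set (Obj m) := Function.update p.A β (p.A β ∩ B)
  have e1 : A β = p.A β ∩ B := Function.update_self _ _ _
  have e2 : ∀ m ≠ β, A m = p.A m := fun m k => Function.update_of_ne k _ _
  have ok : OK (p.1.setA A) := by
    refine ⟨⟨p.lo.fin, p.lo.s0, p.lo.s1, fun m k => (p.lo.s2 m k).setA (fun o => ?_)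
      (p.lo.s2 m k).ab (p.lo.s2 m k).dm, p.lo.nest⟩, p.top, p.ok.root, fun γ c k n => ?_⟩
    · rcases eq_or_ne m β with rfl | n
      exacts [e1 ▸ (p.inv l).inter h1, e2 m n ▸ p.inv o]
    · show A γ ∈ _
      rcases eq_or_ne γ β with rfl | n'
      exacts [e1 ▸ inter_mem (p.ok.big γ c k n) (h2 c n), e2 γ n' ▸ p.ok.big γ c k n]
  refine ⟨ok.cond, dle_cond ok (Lo.of_congr (fun _ _ => rfl) (fun _ _ => rfl) fun m _ =>
    (At.refl False _).setA fun _ _ => ?_), Lo.norm_univ (Lo.of_congr (fun _ _ => rfl)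
      (fun _ _ => rfl) fun m k => (At.refl False _).setA fun _ _ => (e2 m k.ne).ge) p.nrm,
    (nA_sub _ _).trans (e1.le.trans inter_subset_right), rfl, rfl, fun _ => rfl⟩
  rcases eq_or_ne m β with rfl | n
  exacts [e1.le.trans inter_subset_left, (e2 m n).le]

theorem exists_setH (l : β ∉ p.u) {h : HH β} (e : h ≤ p.H β) :
    ∃ q, DLe q p ∧ Lb β p q ∧ q.H β = h ∧ q.1.s0 = p.1.s0 ∧ q.1.s1 = p.1.s1 ∧
      ∀ m, q.A m = p.A m := by
  obtain ⟨q, h1, h2, h3, h4, h5, h6, h7⟩ := exists_setH' l e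
  refine ⟨q, h1, h7, h2, h4, h5, fun m => ?_⟩
  rcases eq_or_ne m β with rfl | n
  exacts [h3, congrArg S2.A (h6 m n)]

theorem exists_grow (p : Cond) (x : I → S0) (G : I → Set K) (h0 : ∀ m, (x m).OK m)
    (h1 : ∀ m < ⊤, #(G m) ≤ kp m) (h2 : ∀ m < ⊤, m ∉ p.u → (x m).a ⊆ p.b m ∪ G m)
    (h3 : ∀ m ∈ p.u, (x m).a ⊆ dm (p.cr m))
    (h4 : ∀ γ m, γ < m → blk p.u γ m → G γ ⊆ p.a m ∪ (x m).a) :
    ∃ q, DLe q p ∧ (∀ m, q.1.s0 m = (p.1.s0 m).pu (x m)) ∧
      (∀ m, q.1.s1 m = (p.1.s1 m).pu (S1.bl m (G m))) ∧ (∀ m, q.H m = p.H m) ∧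
      (∀ m, q.e m = p.e m) ∧ ∀ β, (∀ m ≤ β, (x m).a ⊆ p.a m ∧ (x m).Bl ⊆ (p.1.s0 m).Bl) →
        (∀ m < β, G m ⊆ p.b m) → Lw β p q := by
  have ok : OK (p.1.pu (p.1.bl x G)) :=
    OK.pu' (p.lo.pu' (fun _ _ => Iff.rfl) p.lo.fin (fun m _ => h0 m) (fun m k => S1.ok_bl (h1 m k))
      (fun m k => ⟨fun o => (p.inv o).mono subset_union_left,
        fun o => union_subset ((p.ab o).trans subset_union_left) (h2 m k o),
        fun o => union_subset (p.a_dm o) (h3 m o), (p.lo.s2 m k).he⟩) fun γ m k _ => h4 γ m k)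
      p.top p.ok.root fun γ c k l => ⟨p.ok.big γ c k l, p.ok.big γ c k l⟩
  refine ⟨ok.cond, dle_cond ok (Lo.of_eq isLowerSet_univ p.lo.s1
    (LoC.pu_left fun _ _ => At.refl _ _)), fun _ => rfl, fun _ => rfl, fun _ => rfl, fun _ => rfl,
    fun β k1 k2 => lw_cond ok (Lo.of_cone isLowerSet_univ (ok.lo.mono le_top).s1
      ((LoC.refl _ _ _ _ _).le_pu' (fun _ _ => Iff.rfl) (fun m l => ⟨fun _ n => (k1 m l).1 n.1,
        fun _ n => absurd ((k1 m l).2 n.1) n.2, fun _ n => absurd ((k1 m l).2 n.1) n.2⟩)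
        (fun m l => ⟨fun _ n => k2 m l n.1.1, fun _ _ n => absurd (k2 m l n.1) n.2,
          fun _ _ n => absurd (k2 m l n.1) n.2⟩) fun _ _ => At.refl _ _))
      (at_le_pu (At.refl _ _) (At.refl _ _))⟩

/-- a set of coordinates without blocks -/
def S0.pt (a : Set K) : S0 := ⟨a, ∅, fun _ _ => none⟩

lemma S0.ok_pt {a : Set K} (h : #a ≤ pre m) : (S0.pt a).OK m :=
  ⟨h, by simp [S0.pt], fun _ k => k.elim, fun _ k => k.elim, fun _ k => k.elim⟩

theorem exists_grow1 (l : β ∉ p.u) {G : Set K} (h1 : #G ≤ kp β)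
    (h2 : ∀ c, Host p.u β c → G ⊆ dm (p.cr c)) : ∃ q, Fix β q p ∧ G ⊆ q.b β := by
  have sz : ∀ (P : Prop) (ρ : Cardinal.{0}), (P → kp β ≤ ρ) → #{ξ ∈ G | P} ≤ ρ := fun P ρ k => by
    by_cases n : P
    · exact (mk_le_mk_of_subset (sep_subset _ _)).trans (h1.trans (k n))
    · simp [n]
  obtain ⟨q, k1, -, k2, -, -, k3⟩ := exists_grow p (fun m => S0.pt {ξ ∈ G | β < m ∧ blk p.u β m})
    (fun m => {ξ ∈ G | β ≤ m ∧ blk p.u β m ∧ m ∉ p.u})
    (fun m => S0.ok_pt (sz _ _ fun n => kp_le_pre n.1)) (fun m _ => sz _ _ fun n => kp_mono n.1)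
    (fun m _ o ξ n => Or.inr ⟨n.1, n.2.1.le, n.2.2, o⟩)
    (fun m o ξ n => h2 m ⟨o, n.2.1, n.2.2⟩ n.1)
    fun γ m k z ξ n => Or.inr ⟨n.1, n.2.1.trans_lt k, n.2.2.1.trans z n.2.2.2⟩
  exact ⟨q, ⟨k1, k3 β (fun m k => ⟨fun _ n => absurd n.2.1 k.not_gt, empty_subset _⟩)
    fun m k _ n => absurd n.2.1 k.not_ge⟩, fun ξ n => (congrArg S1.b (k2 β)).ge
      (Or.inr ⟨n, le_rfl, fun _ _ i => i.le, l⟩)⟩

theorem copy_direct (h : Ex α r p) : ∃ r', DLe r' p ∧ Ex α r' r ∧ Ex α r r' :=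
  ⟨h.copy, h.copy_dle, h.copy_ex, h.ex_copy h (Ex.refl _ _)⟩

lemma Cc.dense (l : m ∈ p.u) {ξ v : K} (h1 : ξ ∈ dm (p.cr m)) (h2 : v ≤ ξ) :
    ∃ q ≤ p, ∃ i ∈ Lt K (Order.succ (pre m)), Cc m ξ i v q := by
  classical
  obtain ⟨i, i1, i2⟩ := exists_Lt_notMem (K := K) (Order.succ_le_of_lt (pre_lt_K m))
    (S := Prod.snd '' (p.1.s0 m).Bl)
    (Order.lt_succ_iff.2 (mk_image_le.trans (p.lo.s0 m le_top).cB))
  let z : S0 := ⟨{ξ, v}, {(ξ, i)}, fun _ _ => some v⟩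
  let x : I → S0 := Function.update (fun _ => S0.pt ∅) m z
  have e1 : x m = z := Function.update_self _ _ _
  have e2 : ∀ n ≠ m, x n = S0.pt ∅ := fun n k => Function.update_of_ne k _ _
  obtain ⟨q, k1, k2, -⟩ := exists_grow p x (fun _ => ∅) (fun n => by
      rcases eq_or_ne n m with rfl | k
      · rw [e1]
        refine ⟨((toFinite _).lt_aleph0.le.trans (pre_inf _)),
          ((toFinite _).lt_aleph0.le.trans (pre_inf _)), ?_, fun _ _ _ _ _ _ => id, ?_⟩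
        · rintro _ rfl
          exact ⟨Or.inl rfl, mem_Lt_succ.1 i1⟩
        · rintro _ rfl _ _ ⟨⟩
          exact ⟨Or.inr rfl, h2⟩
      · rw [e2 n k]
        exact S0.ok_pt (by simp)) (by simp)
    (fun n _ o => by rw [e2 n fun e => o (e ▸ l)]; exact empty_subset _)
    (fun n _ => by
      rcases eq_or_ne n m with rfl | k
      · rw [e1]
        rintro _ (rfl | rfl)
        exacts [h1, S.dm_low _ _ h2 h1]
      · rw [e2 n k]
        exact empty_subset _) fun _ _ _ _ => empty_subset _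
  refine ⟨q, k1.le, i, i1, k1.u ▸ l, ?_, ?_⟩ <;> rw [k2, e1]
  · exact Or.inr rfl
  · rw [S0.pu_neg fun n => i2 ⟨_, n, rfl⟩]
    rfl

end Pool.Agent.Lib.MP_d4b40b_lc.W
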