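import Pool.Agent.Lib.MP_d4b40b_lc.W.ObjL
import Pool.Agent.Lib.MP_d4b40b_lc.W.HH
import Pool.Agent.Lib.MP_d4b40b_lc.W.Meet

set_option autoImplicit false
set_option linter.unusedSectionVars false

namespace Pool.Agent.Lib.MP_d4b40b_lc.W

open Filter Set Cardinal

variable [S : Sys]

/-- activation flag, core, measure one set, guide and upper collapse at one level -/
@[ext] structure S2 (m : I) where
  on : Prop
  cr : D m
  A : Set (Obj m)
  H : HH m
  e : Set (Tr K)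

structure S2.OK {m : I} (a b : Set K) (z : S2 m) : Prop where
  inv : ¬ z.on → Invt b z.A
  ab : ¬ z.on → a ⊆ b
  dm : z.on → a ⊆ dm z.cr
  he : z.on → Val #(W.dm z.cr) (Lt K (kp m)) z.e

structure At {m : I} (t : Prop) (x y : S2 m) : Prop where
  on : x.on ↔ y.on
  cr : y.on → x.cr = y.cr
  e : y.on → y.e ⊆ x.e
  H : ¬ y.on → x.H ≤ y.H
  A : ¬ y.on → t → x.A ⊆ y.A

section At

variable {m : I} {t t' : Prop} {x y z : S2 m}

lemma At.refl (t : Prop) (x : S2 m) : At t x x :=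
  ⟨Iff.rfl, fun _ => rfl, fun _ => Subset.rfl, fun _ => le_rfl, fun _ _ => Subset.rfl⟩

lemma At.trans (h : At t x y) (h' : At t y z) : At t x z :=
  ⟨h.on.trans h'.on, fun o => (h.cr (h'.on.2 o)).trans (h'.cr o),
    fun o => (h'.e o).trans (h.e (h'.on.2 o)), fun o => (h.H (mt h'.on.1 o)).trans (h'.H o),
    fun o l => (h.A (mt h'.on.1 o) l).trans (h'.A o l)⟩

lemma At.mono (h : At t x y) (l : ¬ y.on → t' → t) : At t' x y :=
  ⟨h.on, h.cr, h.e, h.H, fun o k => h.A o (l o k)⟩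

/-- changing the measure one set -/
def S2.setA (z : S2 m) (A : Set (Obj m)) : S2 m := ⟨z.on, z.cr, A, z.H, z.e⟩

/-- reflecting the measure one set -/
def S2.tr (g : PM) (z : S2 m) : S2 m := z.setA {ν | ν.comp g ∈ z.A}

/-- activation -/
def S2.act (μ : Obj m) (z : S2 m) : S2 m := ⟨True, μ.c, z.A, z.H, root z.H μ.c⟩

lemma At.setA (h : At False x y) {A B : Set (Obj m)} (l : ¬ y.on → t → A ⊆ B) :
    At t (x.setA A) (y.setA B) := ⟨h.on, h.cr, h.e, h.H, l⟩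

lemma S2.OK.setA {a b a' b' : Set K} (h : z.OK a b) {A : Set (Obj m)} (h1 : ¬ z.on → Invt b' A)
    (h2 : ¬ z.on → a' ⊆ b') (h3 : z.on → a' ⊆ W.dm z.cr) : (z.setA A).OK a' b' :=
  ⟨h1, h2, h3, h.he⟩

end At

/-- the data of a condition -/
@[ext] structure Raw where
  s0 : I → S0
  s1 : ∀ m, S1 m
  s2 : ∀ m, S2 m

namespace Raw

/-- the activated levels -/
def u (p : Raw) : Set I := {m | (p.s2 m).on}

abbrev a (p : Raw) (m : I) : Set K := (p.s0 m).a

abbrev b (p : Raw) (m : I) : Set K := (p.s1 m).b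

abbrev A (p : Raw) (m : I) : Set (Obj m) := (p.s2 m).A

abbrev cr (p : Raw) (m : I) : D m := (p.s2 m).cr

abbrev H (p : Raw) (m : I) : HH m := (p.s2 m).H

abbrev e (p : Raw) (m : I) : Set (Tr K) := (p.s2 m).e

open Classical in
/-- the values of the records -/
noncomputable def rc (p : Raw) : Rec :=
  (wellFounded_lt (α := I)).fix fun γ r ξ => if γ ∈ p.u ∧ ξ ∈ p.b γ then
    (p.s1 γ).g ξ (inf p.u (fun δ => if h : δ < γ then r δ h else fun _ => none) γ) else none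

/-- the information decided by a condition -/
noncomputable def info (p : Raw) (m : I) : Info := inf p.u p.rc m

lemma mem_rc {p : Raw} {γ : I} {ξ η : K} :
    η ∈ p.rc γ ξ ↔ γ ∈ p.u ∧ ξ ∈ p.b γ ∧ η ∈ (p.s1 γ).g ξ (p.info γ) := by
  classical
  have h : p.rc γ ξ = if γ ∈ p.u ∧ ξ ∈ p.b γ then (p.s1 γ).g ξ
      (inf p.u (fun δ => if _ : δ < γ then p.rc δ else fun _ => none) γ) else none := by
    rw [rc, WellFounded.fix_eq]
  rw [h, inf_congr (u' := p.u) (R' := p.rc) (fun _ _ => Iff.rfl) fun δ l => dif_pos l]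
  split_ifs with k
  · exact ⟨fun l => ⟨k.1, k.2, l⟩, fun l => l.2.2⟩
  · exact ⟨fun l => (by cases l), fun l => absurd ⟨l.1, l.2.1⟩ k⟩

lemma rc_congr {p q : Raw} {m : I} (h1 : ∀ c < m, c ∈ p.u ↔ c ∈ q.u)
    (h2 : ∀ γ < m, p.s1 γ = q.s1 γ) : ∀ γ < m, p.rc γ = q.rc γ := by
  intro γ
  induction γ using WellFoundedLT.induction with
  | ind γ ih =>
    intro l
    have e : p.info γ = q.info γ :=
      inf_congr (fun c k => h1 c (k.trans l)) fun δ k => ih δ k (k.trans l)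
    funext ξ
    refine Option.ext fun η => ?_
    show η ∈ p.rc γ ξ ↔ η ∈ q.rc γ ξ
    rw [mem_rc, mem_rc, h1 γ l, e, b, b, h2 γ l]

lemma info_congr {p q : Raw} {m : I} (h1 : ∀ c < m, c ∈ p.u ↔ c ∈ q.u)
    (h2 : ∀ γ < m, p.s1 γ = q.s1 γ) : p.info m = q.info m := inf_congr h1 (rc_congr h1 h2)

end Raw

/-- structural validity of the part below `β` -/
structure LoOK (β : I) (p : Raw) : Prop where
  fin : p.u.Finite
  s0 : ∀ m ≤ β, (p.s0 m).OK m
  s1 : ∀ m < β, (p.s1 m).OK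
  s2 : ∀ m < β, (p.s2 m).OK (p.a m) (p.b m)
  nest : ∀ γ m, γ < m → m ≤ β → blk p.u γ m → p.b γ ⊆ p.a m

lemma LoOK.mono {β β' : I} {p : Raw} (h : LoOK β p) (l : β' ≤ β) : LoOK β' p :=
  ⟨h.fin, fun m k => h.s0 m (k.trans l), fun m k => h.s1 m (k.trans_le l),
    fun m k => h.s2 m (k.trans_le l), fun γ m k1 k2 => h.nest γ m k1 (k2.trans l)⟩

lemma LoOK.a_sub {β m : I} {p : Raw} (h : LoOK β p) (h1 : m ≤ β) (h2 : Z0 p.u β m) :
    p.a m ⊆ p.a β := by
  rcases h1.eq_or_lt with rfl | l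
  · exact Subset.rfl
  · exact ((h.s2 m l).ab fun k => lt_irrefl _ (h2 m k l)).trans (h.nest m β l le_rfl h2.blk)

/-- the coordinates to be compared -/
def F0 (u : Set I) (β : I) (T : Set K) (m : I) : Set K := {ξ | Z0 u β m → ξ ∈ T}

def F1 (u : Set I) (β : I) (T : Set K) (m : I) : Set K := {ξ | blk u m β → ξ ∈ T}

section F

variable {u : Set I} {β m : I} {T : Set K}

lemma F0_univ (u : Set I) (β m : I) : F0 u β univ m = Set.univ := eq_univ_of_forall fun _ _ => trivial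

lemma F1_univ (u : Set I) (β m : I) : F1 u β univ m = Set.univ := eq_univ_of_forall fun _ _ => trivial

lemma F0_low (h : IsLowerSet T) : IsLowerSet (F0 u β T m) := fun _ _ l k z => h l (k z)

lemma F1_low (h : IsLowerSet T) : IsLowerSet (F1 u β T m) := fun _ _ l k z => h l (k z)

lemma F1_sub : F1 u β T m ⊆ F0 u β T m := fun _ k z => k z.blk

lemma F0_of_on (h : m ∈ u) (l : m < β) (ξ : K) : ξ ∈ F0 u β T m :=
  fun z => absurd (z m h l) (lt_irrefl _)

end F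

/-- comparison of the parts below `β`, names being compared on the cones `C` -/
structure LoC (C : I → Cone) (β : I) (T : Set K) (t : Prop) (q p : Raw) : Prop where
  s0 : ∀ m ≤ β, R0 (C m) (F0 p.u β T m) (q.s0 m) (p.s0 m)
  s1 : ∀ m < β, R1 (m ∈ p.u) (C m) (F1 p.u β T m) (q.s1 m) (p.s1 m)
  s2 : ∀ m < β, At (blk p.u m β → t) (q.s2 m) (p.s2 m)

/-- the cone of a condition -/
def cone (q : Raw) (m : I) : Cone := fun ξ σ => Sub m (Iic ξ) (q.info m) σ

/-- the joint cone of two conditions -/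
def cone2 (q p : Raw) (m : I) : Cone := fun ξ σ => cone q m ξ σ ∧ cone p m ξ σ

/-- `q` extends the part of `p` below `β`; in the last block only the coordinates in `T` count,
and the measure one sets only if `t` -/
structure Lo (β : I) (T : Set K) (t : Prop) (q p : Raw) : Prop extends LoC (cone q) β T t q p where
  rc : ∀ γ < β, ∀ ξ ∈ F1 p.u β T γ, ∀ η ∈ p.rc γ ξ, η ∈ q.rc γ ξ

section Lo

variable {C C' : I → Cone} {β β' : I} {T T' : Set K} {t t' : Prop} {r q p : Raw}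

lemma LoC.u (h : LoC C β T t q p) {m : I} (l : m < β) : m ∈ q.u ↔ m ∈ p.u := (h.s2 m l).on

lemma LoC.blk (h : LoC C β T t q p) {γ c : I} (l : c ≤ β) : blk q.u γ c ↔ blk p.u γ c :=
  blk_congr fun _ _ k => h.u (k.trans_le l)

lemma LoC.z0 (h : LoC C β T t q p) {m c : I} (l : c ≤ β) : Z0 q.u c m ↔ Z0 p.u c m :=
  z0_congr fun _ _ k => h.u (k.trans_le l)

lemma LoC.F0 (h : LoC C β T t q p) (T' : Set K) (m : I) : F0 q.u β T' m = F0 p.u β T' m :=
  Set.ext fun _ => imp_congr_left (h.z0 le_rfl)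

lemma LoC.F1 (h : LoC C β T t q p) (T' : Set K) (m : I) : F1 q.u β T' m = F1 p.u β T' m :=
  Set.ext fun _ => imp_congr_left (h.blk le_rfl)

lemma LoC.refl (C : I → Cone) (β : I) (T : Set K) (t : Prop) (p : Raw) : LoC C β T t p p :=
  ⟨fun _ _ => R0.refl _ _ _, fun _ _ => R1.refl _ _ _ _, fun _ _ => At.refl _ _⟩

lemma LoC.cone (h : LoC C β T t q p)
    (l : ∀ m ≤ β, ∀ ξ ∈ W.F0 p.u β T m, ∀ σ, C' m ξ σ → C m ξ σ) : LoC C' β T t q p :=
  ⟨fun m k => (h.s0 m k).mono Subset.rfl (l m k), fun m k => (h.s1 m k).mono Iff.rfl Subset.rfl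
    (fun _ ξ n => l m k.le ξ (F1_sub n)) fun o σ n ζ => l m k.le ζ (F0_of_on o k ζ) σ (n ζ), h.s2⟩

lemma LoC.trans (h : LoC C β T t r q) (h' : LoC C β T t q p) : LoC C β T t r p :=
  ⟨fun m k => (h'.F0 T m ▸ h.s0 m k).trans (h'.s0 m k) fun _ _ _ => id,
    fun m k => ((h'.F1 T m ▸ h.s1 m k).mono (h'.u k).symm Subset.rfl (fun _ _ _ _ => id)
      fun _ _ => id).trans (h'.s1 m k) (fun _ _ _ _ => id) fun _ _ => id,
    fun m k => ((h.s2 m k).mono fun _ l n => l ((h'.blk le_rfl).1 n)).trans (h'.s2 m k)⟩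

lemma LoC.mono (h : LoC C β T t q p) (h1 : β' ≤ β)
    (h2 : ∀ m < β', W.blk p.u m β → W.blk p.u m β' ∧ T' ⊆ T ∧ (t' → t))
    (h3 : Z0 p.u β β' → T' ⊆ T) : LoC C β' T' t' q p := by
  refine ⟨fun m k => (h.s0 m (k.trans h1)).mono (fun ξ l z => ?_) fun _ _ _ => id,
    fun m k => (h.s1 m (k.trans_le h1)).mono Iff.rfl (fun ξ l z => (h2 m k z).2.1 (l (h2 m k z).1))
      (fun _ _ _ _ => id) fun _ _ => id,
    fun m k => (h.s2 m (k.trans_le h1)).mono fun _ l z => (h2 m k z).2.2 (l (h2 m k z).1)⟩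
  exact h3 (z.mono le_rfl k) (l (z.mono h1 le_rfl))

lemma info_of_rc {m : I} (hm : m ≤ β) (hu : ∀ c < m, c ∈ q.u ↔ c ∈ p.u)
    (h : ∀ γ < m, ∀ ξ ∈ F1 p.u β T γ, ∀ η ∈ p.rc γ ξ, η ∈ q.rc γ ξ) :
    Sub m (F0 p.u β T m) (p.info m) (q.info m) := by
  refine inf_sub (fun c l => (hu c l).2) fun c l γ ξ η k1 k2 => k2.imp (m := m)
    (fun c ξ => ξ ∈ F0 p.u β T c) (fun c l1 δ l2 l3 l4 ζ ζ' l5 l6 => ?_) l ?_
  · have l7 := l2.trans_le l1
    exact ⟨.base l2 ((hu δ l7).2 l3) (l4.sub fun δ' n1 _ n3 => (hu δ' (n3.trans_le l1)).1 n1)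
      (h δ l7 ζ (fun z => l5 (z.z0 l2)) ζ' l6), F0_of_on l3 (l7.trans_le hm) _⟩
  · rcases k1 with ⟨rfl, k⟩ | ⟨k, k'⟩
    exacts [k, F0_of_on k' (k.trans_le hm) _]

lemma Lo.info (h : Lo β T t q p) {m : I} (hm : m ≤ β) :
    Sub m (F0 p.u β T m) (p.info m) (q.info m) :=
  info_of_rc hm (fun _ l => h.u (l.trans_le hm)) fun γ l => h.rc γ (l.trans_le hm)

lemma Lo.cone (h : Lo β T t q p) (hT : IsLowerSet T) {m : I} (hm : m ≤ β) {ξ : K}
    (l : ξ ∈ F0 p.u β T m) {σ : Info} (k : cone q m ξ σ) : cone p m ξ σ :=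
  ((h.info hm).mono fun _ n => F0_low hT n l).trans k

lemma Lo.refl (β : I) (T : Set K) (t : Prop) (p : Raw) : Lo β T t p p :=
  ⟨LoC.refl _ _ _ _ _, fun _ _ _ _ _ h => h⟩

lemma Lo.trans (hT : IsLowerSet T) (h : Lo β T t r q) (h' : Lo β T t q p) : Lo β T t r p :=
  ⟨h.toLoC.trans (h'.toLoC.cone fun _ k _ l _ => h.cone hT k (h'.F0 T _ ▸ l)),
    fun γ k ξ l η n => h.rc γ k ξ (h'.F1 T γ ▸ l) η (h'.rc γ k ξ l η n)⟩

lemma Lo.mono (h : Lo β T t q p) (h1 : β' ≤ β)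
    (h2 : ∀ m < β', W.blk p.u m β → W.blk p.u m β' ∧ T' ⊆ T ∧ (t' → t))
    (h3 : Z0 p.u β β' → T' ⊆ T) : Lo β' T' t' q p :=
  ⟨h.toLoC.mono h1 h2 h3, fun γ k ξ l => h.rc γ (k.trans_le h1) ξ
    fun z => (h2 γ k z).2.1 (l (h2 γ k z).1)⟩

lemma Lo.weak (h : Lo β T t q p) (h1 : T' ⊆ T) (h2 : t' → t) : Lo β T' t' q p :=
  h.mono le_rfl (fun _ _ z => ⟨z, h1, h2⟩) fun _ => h1

lemma Lo.low (h : Lo β univ True q p) (h1 : β' ≤ β) : Lo β' T' t' q p :=
  h.mono h1 (fun _ _ z => ⟨z.mono le_rfl h1, subset_univ _, fun _ => trivial⟩) fun _ => subset_univ _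

lemma Lo.down (h : Lo β T t q p) (h1 : β' < β) (h2 : β' ∈ p.u) : Lo β' T' t' q p :=
  h.mono h1.le (fun _ k z => absurd z (not_blk h2 k h1)) fun z => absurd z (not_z0 h2 le_rfl h1)

/-- it is enough to compare names on joint cones -/
theorem Lo.of_joint (hT : IsLowerSet T) (hp : ∀ γ < β, (p.s1 γ).OK)
    (h : LoC (cone2 q p) β T t q p) : Lo β T t q p := by
  have key : ∀ γ < β, ∀ ξ ∈ F1 p.u β T γ, ∀ η ∈ p.rc γ ξ, η ∈ q.rc γ ξ := by
    intro γ
    induction γ using WellFoundedLT.induction with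
    | ind γ ih =>
      intro l ξ k η n
      obtain ⟨n1, n2, n3⟩ := Raw.mem_rc.1 n
      have i : Sub γ univ (p.info γ) (q.info γ) := (info_of_rc l.le (fun _ l' => h.u (l'.trans l))
        fun δ l' => ih δ l' (l'.trans l)).mono fun ζ _ => F0_of_on n1 l ζ
      refine Raw.mem_rc.2 ⟨(h.u l).2 n1, (h.s1 γ l).b ⟨n2, k⟩, ?_⟩
      rw [(h.s1 γ l).g n1 ξ n2 k _ fun ζ => ⟨Sub.refl _ _ _, i.of_univ _⟩]
      exact (hp γ l).gdep ξ n2 _ _ (i.of_univ _) η n3
  exact ⟨h.cone fun m k ξ l σ n => ⟨n, ((info_of_rc k (fun _ l' => h.u (l'.trans_le k))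
    fun γ l' => key γ (l'.trans_le k)).mono fun _ n => F0_low hT n l).trans n⟩, key⟩

lemma Lo.of_cone (hT : IsLowerSet T) (hp : ∀ γ < β, (p.s1 γ).OK) (h : LoC (W.cone q) β T t q p) :
    Lo β T t q p := Lo.of_joint hT hp (h.cone fun _ _ _ _ _ k => k.1)

lemma Lo.of_eq (hT : IsLowerSet T) (hp : ∀ γ < β, (p.s1 γ).OK)
    (h : LoC (fun _ _ _ => True) β T t q p) : Lo β T t q p :=
  Lo.of_joint hT hp (h.cone fun _ _ _ _ _ _ => trivial)

lemma Lo.of_congr (h0 : ∀ m ≤ β, q.s0 m = p.s0 m) (h1 : ∀ m < β, q.s1 m = p.s1 m)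
    (h2 : ∀ m < β, At (W.blk p.u m β → t) (q.s2 m) (p.s2 m)) : Lo β T t q p :=
  ⟨⟨fun m k => h0 m k ▸ R0.refl _ _ _, fun m k => h1 m k ▸ R1.refl _ _ _ _, h2⟩,
    fun γ k _ _ _ n => Raw.rc_congr (fun m l => (h2 m l).on) h1 γ k ▸ n⟩

end Lo

/-! ### Operations -/

namespace Raw

/-- changing the measure one sets -/
def setA (p : Raw) (A : ∀ m, Set (Obj m)) : Raw := ⟨p.s0, p.s1, fun m => (p.s2 m).setA (A m)⟩

open Classical in
/-- changing the third slot at one level -/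
noncomputable def set2 (p : Raw) (β : I) (z : S2 β) : Raw := ⟨p.s0, p.s1, Function.update p.s2 β z⟩

/-- union; names of `x` have priority, cores, guides and upper collapses come from `w` -/
noncomputable def pu (x w : Raw) : Raw :=
  ⟨fun m => (x.s0 m).pu (w.s0 m), fun m => (x.s1 m).pu (w.s1 m),
    fun m => (w.s2 m).setA (x.A m ∩ w.A m)⟩

/-- union of a family -/
noncomputable def un {J : Type} [Nonempty J] (x : J → Raw) (z : ∀ m, S2 m) : Raw :=
  ⟨fun m => S0.un fun j => (x j).s0 m, fun m => S1.un fun j => (x j).s1 m,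
    fun m => (z m).setA (⋂ j, (x j).A m)⟩

open Classical in
/-- the lower part of `d` with the upper part of `q` -/
noncomputable def mix (β : I) (d q : Raw) : Raw :=
  ⟨fun m => if m ≤ β then d.s0 m else q.s0 m, fun m => if m < β then d.s1 m else q.s1 m,
    fun m => if m ≤ β then d.s2 m else q.s2 m⟩

/-- restriction of the top block to the coordinates in `T` -/
def trunc (T : Set K) (p : Raw) : Raw :=
  ⟨fun m => (p.s0 m).res (F0 p.u ⊤ T m), fun m => (p.s1 m).res (F1 p.u ⊤ T m),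
    fun m => (p.s2 m).setA {μ | ¬ blk p.u m ⊤ → μ ∈ p.A m}⟩

open Classical in
/-- transport of the block below `β` along `g` -/
noncomputable def rf (p : Raw) (β : I) (g : PM) : Raw :=
  ⟨fun m => if m ≤ β ∧ Z0 p.u β m then (p.s0 m).tr m g else p.s0 m,
    fun m => if m < β ∧ blk p.u m β then (p.s1 m).tr g else p.s1 m,
    fun m => if m < β ∧ blk p.u m β then (p.s2 m).tr g else p.s2 m⟩

open Classical in
/-- activation of the level `β` by the object `μ` -/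
noncomputable def act (p : Raw) (β : I) (μ : Obj β) : Raw :=
  ⟨(p.rf β μ.g).s0, Function.update (p.rf β μ.g).s1 β ((p.s1 β).act μ),
    Function.update (p.rf β μ.g).s2 β ((p.s2 β).act μ)⟩

open Classical in
/-- the records at `β` become default values -/
noncomputable def deact (y : Raw) (β : I) : Raw :=
  ⟨y.s0, Function.update y.s1 β (y.s1 β).deact, y.s2⟩

/-- new blocks and new coordinates -/
noncomputable def bl (p : Raw) (x : I → S0) (G : I → Set K) : Raw :=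
  ⟨x, fun m => S1.bl m (G m), p.s2⟩

end Raw

variable [X : Ext S]

/-- `c` is the first activated level above `β` -/
structure Host (u : Set I) (β c : I) : Prop where
  mem : c ∈ u
  lt : β < c
  blk : blk u β c

/-- validity -/
structure OK (p : Raw) : Prop where
  lo : LoOK ⊤ p
  top : ⊤ ∈ p.u
  root : p.cr ⊤ = S.root
  big : ∀ γ c, γ ∉ p.u → Host p.u γ c → p.A γ ∈ X.E (p.cr c) γ

/-- the object reflects the block below `m` -/
def Refl (p : Raw) (A : ∀ m, Set (Obj m)) (m : I) (μ : Obj m) : Prop :=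
  p.a m ⊆ μ.g.dom ∧ ∀ γ < m, γ ∉ p.u → blk p.u γ m → {ν : Obj γ | ν.comp μ.g ∈ A γ} ∈ X.E μ.c γ

/-- all objects in the measure one sets reflect -/
def Nrm (p : Raw) : Prop := ∀ m, m ∉ p.u → ∀ μ ∈ p.A m, Refl p p.A m μ

/-- the normalised measure one sets -/
noncomputable def Raw.nA (p : Raw) : ∀ m, Set (Obj m) :=
  (wellFounded_lt (α := I)).fix fun m r => {μ | μ ∈ p.A m ∧ (m ∉ p.u → p.a m ⊆ μ.g.dom ∧
    ∀ γ (h : γ < m), γ ∉ p.u → blk p.u γ m → {ν : Obj γ | ν.comp μ.g ∈ r γ h} ∈ X.E μ.c γ)}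

lemma Raw.mem_nA {p : Raw} {m : I} {μ : Obj m} :
    μ ∈ p.nA m ↔ μ ∈ p.A m ∧ (m ∉ p.u → Refl p p.nA m μ) := by
  rw [Raw.nA, WellFounded.fix_eq]
  rfl

/-- normalisation -/
noncomputable def Raw.norm (p : Raw) : Raw := p.setA p.nA

/-- forcing conditions -/
def Cond : Type := {p : Raw // OK p ∧ Nrm p}

end Pool.Agent.Lib.MP_d4b40b_lc.W
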