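import Pool.Agent.Lib.MP_d4b40b_lc.W.Act

set_option autoImplicit false
set_option linter.unusedSectionVars false

namespace Pool.Agent.Lib.MP_d4b40b_lc.W

open Filter Set Cardinal

variable [S : Sys]

namespace XP

variable {p q : Raw} {β γ m : I} {g h : PM} {ξ η ζ : K}

lemma s0_pos (h : m ≤ β) (z : Z0 p.u β m) : (p.rf β g).s0 m = (p.s0 m).tr m g := if_pos ⟨h, z⟩

lemma s0_neg (z : ¬ Z0 p.u β m) : (p.rf β g).s0 m = p.s0 m := if_neg fun k => z k.2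

lemma s1_pos (h : m < β) (z : blk p.u m β) : (p.rf β g).s1 m = (p.s1 m).tr g := if_pos ⟨h, z⟩

lemma s1_neg (z : ¬ blk p.u m β) : (p.rf β g).s1 m = p.s1 m := if_neg fun k => z k.2

lemma s2_pos (h : m < β) (z : blk p.u m β) : (p.rf β g).s2 m = (p.s2 m).tr g := if_pos ⟨h, z⟩

lemma s2_neg (z : ¬ blk p.u m β) : (p.rf β g).s2 m = p.s2 m := if_neg fun k => z k.2

lemma s2_set (m : I) : (p.rf β g).s2 m = (p.s2 m).setA ((p.rf β g).A m) := by
  by_cases k : m < β ∧ blk p.u m β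
  · rw [Raw.A, s2_pos k.1 k.2]; rfl
  · rw [Raw.A, show (p.rf β g).s2 m = p.s2 m from if_neg k]; rfl

lemma rf_u : (p.rf β g).u = p.u := Set.ext fun m => by
  show ((p.rf β g).s2 m).on ↔ _
  rw [s2_set]; rfl

lemma rf_cr (m : I) : (p.rf β g).cr m = p.cr m := by rw [Raw.cr, s2_set]; rfl

lemma a_self : (p.rf β g).a β = g.im (p.a β) := by
  rw [Raw.a, s0_pos le_rfl (Z0.self _ _)]; rfl

lemma info_neg (z : ¬ Z0 p.u β m) : (p.rf β g).info m = p.info m :=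
  Raw.info_congr (fun _ _ => by rw [rf_u]) fun _ l => s1_neg fun k => z (k.z0 l)

lemma info_on (h : m < β) (z : m ∈ p.u) : (p.rf β g).info m = p.info m :=
  info_neg (not_z0 z le_rfl h)

lemma rc_pos (h : γ < β) (z : blk p.u γ β) :
    η ∈ (p.rf β g).rc γ ζ ↔ ∃ ξ, ζ ∈ g.f ξ ∧ η ∈ p.rc γ ξ := by
  simp only [Raw.mem_rc]
  rw [rf_u, Raw.b, s1_pos h z]
  constructor
  · rintro ⟨k1, ⟨ξ, k2, k3⟩, k4⟩
    rw [S1.tr_g k3, info_on h k1] at k4
    exact ⟨ξ, k3, k1, k2, k4⟩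
  · rintro ⟨ξ, k3, k1, k2, k4⟩
    rw [S1.tr_g k3, info_on h k1]
    exact ⟨k1, ⟨ξ, k2, k3⟩, k4⟩

lemma info_pos (hp : LoOK β p) (hd : p.a β ⊆ g.dom) (h : m ≤ β) (z : Z0 p.u β m) :
    Sub m univ (p.info m) (pull m g ((p.rf β g).info m)) := by
  intro c γ ξ η _ k2 _ _ _ k
  rcases k2.eq_or_lt with rfl | l
  · obtain ⟨a, k1⟩ := hd (hp.a_sub h z (hp.info_supp h k))
    obtain ⟨δ, n1, n2, n3, ξ', n4, n5⟩ := info_head.1 k
    have l := n1.trans_le h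
    refine mem_pull.2 ⟨a, k1, info_head.2 ⟨δ, n1, rf_u.symm ▸ n2, rf_u.symm ▸ n3, ξ',
      (rc_pos l (n3.of_z0 z)).2 ⟨ξ, k1, n4⟩, ?_⟩⟩
    rwa [info_on l n2]
  · rw [pull_lt l, info_low l, rf_u]
    obtain ⟨n1, n2⟩ := (info_low l).1 k
    exact ⟨n1, by rwa [info_on (l.trans_le h) n1]⟩

lemma cone_pos (hp : LoOK β p) (hd : p.a β ⊆ g.dom) (h : m ≤ β) (z : Z0 p.u β m)
    (l : η ∈ g.f ξ) {σ : Info} (k : cone (p.rf β g) m η σ) : cone p m ξ (pull m g σ) :=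
  cone_pull (info_pos hp hd h z) l k

lemma cone_neg (z : ¬ Z0 p.u β m) {σ : Info} (k : cone (p.rf β g) m ξ σ) : cone p m ξ σ := by
  rwa [cone, info_neg z] at k

lemma s1_ok (hp : LoOK β p) (l : m < β) : ((p.rf β g).s1 m).OK := by
  by_cases k : blk p.u m β
  · rw [s1_pos l k]; exact (hp.s1 m l).tr _
  · rw [s1_neg k]; exact hp.s1 m l

theorem ok_rf (h : LoOK β p) (g : PM) : LoOK β (p.rf β g) := by
  refine ⟨rf_u.symm ▸ h.fin, fun m l => ?_, fun m l => s1_ok h l, fun m l => ?_,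
    fun γ m l1 l2 l3 => ?_⟩
  · by_cases k : Z0 p.u β m
    · rw [s0_pos l k]; exact (h.s0 m l).tr _
    · rw [s0_neg k]; exact h.s0 m l
  · have i := h.s2 m l
    by_cases k : blk p.u m β
    · rw [s2_pos l k, Raw.b, s1_pos l k]
      refine i.setA (fun o => (i.inv o).tr _) (fun o => ?_) fun o => ?_
      · rw [Raw.a, s0_pos l.le (k.z0' o)]; exact g.im_mono (i.ab o)
      · rw [Raw.a, s0_neg (not_z0 o le_rfl l)]; exact i.dm o
    · rw [s2_neg k, Raw.b, s1_neg k, Raw.a, s0_neg (mt Z0.blk k)]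
      exact i
  · rw [rf_u] at l3
    have i := h.nest γ m l1 l2 l3
    by_cases k : blk p.u γ β
    · rw [Raw.b, s1_pos (l1.trans_le l2) k, Raw.a, s0_pos l2 (k.z0 l1)]
      exact g.im_mono i
    · rwa [Raw.b, s1_neg k, Raw.a, s0_neg fun z => k (l3.of_z0 z)]

/-- transport preserves extensions -/
theorem lo_rf (h : Lo β univ True q p) (hq : LoOK β q) (hp : LoOK β p) (hd : q.a β ⊆ g.dom) :
    Lo β univ True (q.rf β g) (p.rf β g) := by
  have z0 : ∀ {m}, Z0 q.u β m ↔ Z0 p.u β m := h.z0 le_rfl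
  have bk : ∀ {m}, blk q.u m β ↔ blk p.u m β := h.blk le_rfl
  refine Lo.of_cone isLowerSet_univ (fun γ k => s1_ok hp k) ⟨fun m k => ?_, fun m k => ?_,
    fun m k => ?_⟩
  · by_cases n : Z0 p.u β m
    · rw [s0_pos k (z0.2 n), s0_pos k n]
      exact (h.s0 m k).tr fun ξ η a _ => ⟨fun _ => trivial, fun σ => cone_pos hq hd k (z0.2 n) a⟩
    · rw [s0_neg (mt z0.1 n), s0_neg n]
      exact (h.s0 m k).mono (fun _ _ _ => trivial) fun ξ _ σ => cone_neg (mt z0.1 n)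
  · rw [rf_u]
    by_cases n : blk p.u m β
    · rw [s1_pos k (bk.2 n), s1_pos k n]
      exact (h.s1 m k).tr (fun _ _ _ _ _ => trivial)
        (fun o ξ η a _ σ => cone_pos hq hd k.le (z0.2 (n.z0' o)) a)
        fun o σ a ζ => cone_neg (not_z0 ((h.u k).2 o) le_rfl k) (a ζ)
    · have n' : ¬ Z0 q.u β m := fun b => n (z0.1 b).blk
      rw [s1_neg (mt bk.1 n), s1_neg n]
      exact (h.s1 m k).mono Iff.rfl Subset.rfl (fun _ ξ _ σ => cone_neg n')
        fun _ σ a ζ => cone_neg n' (a ζ)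
  · by_cases n : blk p.u m β
    · rw [s2_pos k (bk.2 n), s2_pos k n]
      exact ((h.s2 m k).mono fun _ => False.elim).setA fun o _ ν a =>
        (h.s2 m k).A o (fun _ => trivial) a
    · rw [s2_neg (mt bk.1 n), s2_neg n]
      exact (h.s2 m k).mono fun _ _ _ => trivial

/-- transport there and back -/
theorem lo_back (hp : LoOK β p) (hd : p.a β ⊆ g.dom) :
    Lo β univ True ((p.rf β g).rf β g.inv) p := by
  have e : ∀ ξ ∈ p.a β, ξ ∈ (g.inv.comp g).f ξ := fun ξ k =>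
    let ⟨η, l⟩ := hd k; PM.mem_comp.2 ⟨η, l, PM.mem_inv.2 l⟩
  refine Lo.of_eq isLowerSet_univ hp.s1 ⟨fun m k => ?_, fun m k => ?_, fun m k => ?_⟩
  · by_cases n : Z0 p.u β m
    · rw [s0_pos k (rf_u.symm ▸ n), s0_pos k n, S0.tr_tr]
      exact (S0.tr_id (hp.s0 m k) fun ξ l => e ξ (hp.a_sub k n l)).le _ _
    · rw [s0_neg (rf_u.symm ▸ n), s0_neg n]; exact R0.refl _ _ _
  · by_cases n : blk p.u m β
    · rw [s1_pos k (rf_u.symm ▸ n), s1_pos k n, S1.tr_tr]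
      exact (S1.tr_id _ (hp.s1 m k) fun ξ l => e ξ (hp.nest m β k le_rfl n l)).le _ _
    · rw [s1_neg (rf_u.symm ▸ n), s1_neg n]; exact R1.refl _ _ _ _
  · by_cases n : blk p.u m β
    · rw [s2_pos k (rf_u.symm ▸ n), s2_pos k n]
      refine ⟨Iff.rfl, fun _ => rfl, fun _ => Subset.rfl, fun _ => le_rfl, fun o _ ν a => ?_⟩
      have a' : (ν.comp g.inv).comp g ∈ p.A m := a
      rw [Obj.comp_comp] at a'
      exact (hp.s2 m k).inv o _ _ (agr_comp_id ν fun ξ l => e ξ (hp.nest m β k le_rfl n l)) a'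
    · rw [s2_neg (rf_u.symm ▸ n), s2_neg n]; exact At.refl _ _

lemma lo_act (μ : Obj β) : Lo β univ True (p.act β μ) (p.rf β μ.g) ∧
    Lo β univ True (p.rf β μ.g) (p.act β μ) := by
  have h1 : ∀ m < β, (p.act β μ).s1 m = (p.rf β μ.g).s1 m :=
    fun m k => Function.update_of_ne k.ne _ _
  have h2 : ∀ m < β, (p.act β μ).s2 m = (p.rf β μ.g).s2 m :=
    fun m k => Function.update_of_ne k.ne _ _
  exact ⟨Lo.of_congr (fun _ _ => rfl) h1 fun m k => h2 m k ▸ At.refl _ _,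
    Lo.of_congr (fun _ _ => rfl) (fun m k => (h1 m k).symm) fun m k => h2 m k ▸ At.refl _ _⟩

end XP

end Pool.Agent.Lib.MP_d4b40b_lc.W
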