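import Pool.Agent.Lib.MP_d4b40b_lc.Col

set_option autoImplicit false
set_option linter.unusedSectionVars false

namespace Pool.Agent.Lib.MP_d4b40b_lc.W

open Filter Set Cardinal

/-- the supremum of the smaller cardinals of the sequence -/
noncomputable def pre0 {I : Type} [LinearOrder I] (κ : I → Cardinal.{0}) (m : I) : Cardinal.{0} :=
  max ℵ₁ (⨆ γ : Iio m, κ γ)

/-- levels (order type omega one plus one), a measurable cardinal with a normal measure, a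
sequence of smaller measurable cardinals, and the cores -/
class Sys where
  I : Type
  K : Type
  [lI : LinearOrder I]
  [wI : WellFoundedLT I]
  [tI : OrderTop I]
  [lK : LinearOrder K]
  [wK : WellFoundedLT K]
  ctb : ∀ m : I, m < ⊤ → (Iio m).Countable
  unc : ¬ (Iio (⊤ : I)).Countable
  card : #I ≤ ℵ₁
  κ : I → Cardinal.{0}
  mono : StrictMono κ
  big : ∀ m, ℵ₁ < κ m
  top : κ ⊤ = #K
  ord : ∀ β : K, #(Iio β) < #K
  U : Ultrafilter K
  cpl : CardinalInterFilter (U : Filter K) #K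
  tail : ∀ α, ∀ᶠ β in (U : Filter K), α < β
  normal : ∀ f : K → K, (∀ᶠ β in (U : Filter K), f β < β) → ∃ α, ∀ᶠ β in (U : Filter K), f β = α
  V : ∀ m, Ultrafilter (Lt K (κ m))
  Vcpl : ∀ m, CardinalInterFilter (V m : Filter (Lt K (κ m))) (κ m)
  Vne : ∀ m t, ∀ᶠ x in (V m : Filter (Lt K (κ m))), x ≠ t
  D : I → Type
  dm : ∀ m, D m → Set K
  kap : ∀ m, D m → Cardinal.{0}
  root : D ⊤
  dm_root : dm ⊤ root = Set.univ
  dm_low : ∀ m d, IsLowerSet (dm m d)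
  dm_sub : ∀ m d, dm m d ⊆ Lt K (κ m)
  dm_lt : ∀ m d, m < ⊤ → #(dm m d) < κ m
  kap_le : ∀ m d, m < ⊤ → 2 ^ pre0 κ m ≤ kap m d
  dm_pow : ∀ m d, m < ⊤ → 2 ≤ #(dm m d) ∧ #(dm m d) ^ kap m d ≤ #(dm m d)
  dm_cof : ∀ m d, m < ⊤ → ∀ S ⊆ dm m d, #S ≤ pre0 κ m → ∃ γ ∈ dm m d, ∀ β ∈ S, β ≤ γ
  mk_D : ∀ m, #(D m) ≤ κ m

attribute [instance_reducible] Sys.lI Sys.tI Sys.lK

attribute [instance] Sys.lI Sys.wI Sys.tI Sys.lK Sys.wK Sys.cpl Sys.Vcpl

variable [S : Sys]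

abbrev I : Type := S.I

abbrev K : Type := S.K

abbrev kp (m : I) : Cardinal.{0} := S.κ m

noncomputable abbrev pre (m : I) : Cardinal.{0} := pre0 S.κ m

abbrev UU : Ultrafilter K := S.U

abbrev Xi (m : I) : Type := Lt K (kp m)

abbrev VV (m : I) : Ultrafilter (Xi m) := S.V m

abbrev D (m : I) : Type := S.D m

abbrev dm {m : I} (d : D m) : Set K := S.dm m d

abbrev kap {m : I} (d : D m) : Cardinal.{0} := S.kap m d

/-- increasing maps defined on a set of ordinals -/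
@[ext] structure PM where
  f : K → Option K
  inc : ∀ ξ ξ' η η', η ∈ f ξ → η' ∈ f ξ' → ξ < ξ' → η < η'

/-- composition: first `g`, then `h` -/
def PM.comp (h g : PM) : PM :=
  ⟨fun ξ => (g.f ξ).bind h.f, fun ξ ξ' η η' k k' l => by
    obtain ⟨a, k1, k2⟩ := Option.mem_bind_iff.1 k
    obtain ⟨a', k3, k4⟩ := Option.mem_bind_iff.1 k'
    exact h.inc _ _ _ _ k2 k4 (g.inc _ _ _ _ k1 k3 l)⟩

/-- the domain -/
def PM.dom (g : PM) : Set K := {ξ | ∃ η, η ∈ g.f ξ}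

/-- objects -/
@[ext] structure Obj (m : I) where
  c : D m
  g : PM
  val : ∀ ξ η, η ∈ g.f ξ → η ∈ dm c

/-- precomposition of an object with a map -/
def Obj.comp {m : I} (ν : Obj m) (g : PM) : Obj m :=
  ⟨ν.c, ν.g.comp g, fun _ _ k => by
    obtain ⟨a, -, k2⟩ := Option.mem_bind_iff.1 k
    exact ν.val _ _ k2⟩

/-- agreement of objects -/
def Agr {m : I} (b : Set K) (μ ν : Obj m) : Prop := μ.c = ν.c ∧ ∀ ξ ∈ b, μ.g.f ξ = ν.g.f ξ

/-- invariant sets of objects -/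
def Invt {m : I} (b : Set K) (A : Set (Obj m)) : Prop := ∀ μ ν, Agr b μ ν → μ ∈ A → ν ∈ A

variable (S) in
/-- the coherent system of extenders -/
class Ext where
  E : ∀ {c : I}, D c → ∀ γ, Ultrafilter (Obj γ)
  cpl : ∀ {c : I} (d : D c) γ, γ < c → CardinalInterFilter (E d γ : Filter (Obj γ)) (kp γ)
  fine : ∀ {c : I} (d : D c) γ, γ < c → ∀ ξ ∈ dm d, ∀ᶠ μ in (E d γ : Filter (Obj γ)), ξ ∈ μ.g.dom
  nor : ∀ {c : I} (d : D c) γ, γ < c → ∀ b ⊆ dm d, #b ≤ kp γ → ∀ h : Obj γ → K,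
    (∀ μ ν, Agr b μ ν → h μ = h ν) → (∀ᶠ μ in (E d γ : Filter (Obj γ)), h μ ∈ dm μ.c) →
    ∃ ξ ∈ dm d, ∀ᶠ μ in (E d γ : Filter (Obj γ)), h μ ∈ μ.g.f ξ
  kap : ∀ {c : I} (d : D c) γ, γ < c → ∀ ρ < kp γ,
    ∀ᶠ μ in (E d γ : Filter (Obj γ)), ρ < kap μ.c
  coh : ∀ {c : I} (d : D c) γ δ, δ < γ → γ < c → ∀ b ⊆ dm d, #b ≤ kp δ → ∀ B : Set (Obj δ),
    Invt b B → B ∈ E d δ → ∀ᶠ μ in (E d γ : Filter (Obj γ)), {ν | ν.comp μ.g ∈ B} ∈ E μ.c δ

lemma I_le : #I ≤ ℵ₁ := S.card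

lemma inacc_kp (m : I) : IsInaccessible (kp m) :=
  inacc_of_ultra (VV m) _ (S.Vne m) (mk_Lt_le _) (aleph0_lt_aleph_one.trans (S.big m))

lemma kp_inf (m : I) : ℵ₀ ≤ kp m := (inacc_kp m).1.le

lemma one_le_pre (m : I) : ℵ₁ ≤ pre m := le_max_left _ _

lemma pre_inf (m : I) : ℵ₀ ≤ pre m := aleph0_lt_aleph_one.le.trans (one_le_pre m)

lemma I_le_pre (m : I) : #I ≤ pre m := I_le.trans (one_le_pre m)

lemma kp_le_pre {γ m : I} (h : γ < m) : kp γ ≤ pre m :=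
  (le_ciSup (f := fun γ : Iio m => kp γ.1) bddAbove_of_small ⟨γ, h⟩).trans (le_max_right _ _)

lemma pre_lt (m : I) : pre m < kp m :=
  max_lt (S.big m) (iSup_lt_of_lt_cof_ord
    (((mk_set_le _).trans I_le).trans_lt ((S.big m).trans_le (inacc_kp m).le_cof_ord))
    fun γ => S.mono γ.2)

lemma pre_mono {m n : I} (h : m ≤ n) : pre m ≤ pre n :=
  max_le (one_le_pre n) (ciSup_le' fun γ => kp_le_pre (lt_of_lt_of_le γ.2 h))

lemma pre_lt_kp {m n : I} (h : m ≤ n) : pre m < kp n := (pre_mono h).trans_lt (pre_lt n)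

lemma kp_mono {m n : I} (h : m ≤ n) : kp m ≤ kp n := S.mono.monotone h

lemma pre_le_of {m : I} {ρ : Cardinal.{0}} (h1 : ℵ₁ ≤ ρ) (h2 : ∀ γ < m, kp γ ≤ ρ) : pre m ≤ ρ :=
  max_le h1 (ciSup_le' fun γ => h2 γ.1 γ.2)

lemma kp_top : kp ⊤ = #K := S.top

lemma inacc_K : IsInaccessible #K := kp_top ▸ inacc_kp ⊤

lemma K_inf : ℵ₀ ≤ #K := inacc_K.1.le

lemma kp_le_K (m : I) : kp m ≤ #K := kp_top ▸ kp_mono le_top

lemma kp_lt_K {m : I} (h : m < ⊤) : kp m < #K := kp_top ▸ S.mono h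

lemma pre_lt_K (m : I) : pre m < #K := (pre_lt m).trans_le (kp_le_K m)

/-- the supremum of the sequence -/
noncomputable abbrev ks : Cardinal.{0} := pre ⊤

lemma ks_inf : ℵ₀ ≤ ks := pre_inf ⊤

lemma ks_lt : ks < #K := pre_lt_K ⊤

lemma succ_ks_lt : Order.succ ks < #K := inacc_succ_lt inacc_K ks_lt

lemma pre_le_ks (m : I) : pre m ≤ ks := pre_mono le_top

/-- countable sets of levels are bounded -/
lemma exists_above {T : Set I} (h1 : T.Countable) (h2 : ∀ m ∈ T, m < ⊤) :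
    ∃ n < ⊤, ∀ m ∈ T, m < n := by
  by_contra h
  push Not at h
  refine S.unc ((h1.biUnion fun m hm => ((S.ctb m (h2 m hm)).insert m)).mono fun n hn => ?_)
  obtain ⟨m, k1, k2⟩ := h n hn
  exact mem_biUnion k1 (k2.eq_or_lt.imp id id)

lemma exists_gt {m : I} (h : m < ⊤) : ∃ n < ⊤, m < n :=
  (exists_above (countable_singleton m) (by simpa using h)).imp fun _ k => ⟨k.1, k.2 m rfl⟩

lemma lt_ks {ρ : Cardinal.{0}} (h : ρ < ks) : ∃ n < ⊤, ρ < kp n := by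
  by_contra h'
  push Not at h'
  obtain ⟨n, k, -⟩ := exists_above countable_empty fun _ k => k.elim
  exact absurd (pre_le_of ((S.big n).le.trans (h' n k)) h') (not_le.2 h)

lemma kp_lt_ks {m : I} (h : m < ⊤) : kp m < ks := by
  obtain ⟨n, k1, k2⟩ := exists_gt h
  exact (S.mono k2).trans_le (kp_le_pre k1)

section dm

variable {m : I} (d : D m)

lemma dm_sub : dm d ⊆ Lt K (kp m) := S.dm_sub m d

lemma dm_big (h : m < ⊤) : 2 ^ kap d ≤ #(dm d) :=
  (power_le_power_right (S.dm_pow m d h).1).trans (S.dm_pow m d h).2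

lemma pre_lt_kap (h : m < ⊤) : pre m < kap d := (cantor _).trans_le (S.kap_le m d h)

lemma kap_lt_dm (h : m < ⊤) : kap d < #(dm d) := (cantor _).trans_le (dm_big d h)

lemma pre_lt_dm (h : m < ⊤) : pre m < #(dm d) := (pre_lt_kap d h).trans (kap_lt_dm d h)

lemma dm_inf (h : m < ⊤) : ℵ₀ ≤ #(dm d) := (pre_inf m).trans (pre_lt_dm d h).le

end dm

lemma ae_press {Q : K → K → Prop} (h : ∀ᶠ α in (UU : Filter K), ∃ δ < α, Q α δ) :
    ∃ δ, ∀ᶠ α in (UU : Filter K), Q α δ := by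
  classical
  let f : K → K := fun α => if h : ∃ δ < α, Q α δ then h.choose else α
  have h2 : ∀ᶠ α in (UU : Filter K), f α < α ∧ Q α (f α) := by
    filter_upwards [h] with α hα
    simp only [f, dif_pos hα]
    exact hα.choose_spec
  obtain ⟨δ, hδ⟩ := S.normal f (h2.mono fun _ h => h.1)
  exact ⟨δ, (h2.and hδ).mono fun α k => k.2 ▸ k.1.2⟩

lemma ae_above {T : Set K} (h : #T < #K) : ∀ᶠ α in (UU : Filter K), T ⊆ Iio α :=
  ae_ball UU _ h (Q := fun α β => β < α) fun β _ => S.tail β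

/-- the cofinality of `α` is above the supremum -/
def Cf (α : K) : Prop := ∀ T ⊆ Iio α, #T ≤ ks → ∃ δ < α, T ⊆ Iio δ

lemma ae_cf : ∀ᶠ α in (UU : Filter K), Cf α := by
  by_contra h
  have h1 : ∀ α : K, ∃ T : Set K, ¬ Cf α → T ⊆ Iio α ∧ #T ≤ ks ∧ ∀ δ < α, ¬ T ⊆ Iio δ := by
    intro α
    by_cases hα : Cf α
    · exact ⟨∅, fun h => absurd hα h⟩
    · have := hα
      simp only [Cf, not_forall, not_exists, not_and] at this
      obtain ⟨T, k1, k2, k3⟩ := this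
      exact ⟨T, fun _ => ⟨k1, k2, k3⟩⟩
  choose T hT using h1
  have h2 : ∀ α : K, ∃ e : ks.out → Option K, ¬ Cf α →
      (∀ i a, e i = some a → a ∈ T α) ∧ ∀ a ∈ T α, ∃ i, e i = some a := by
    intro α
    by_cases hα : Cf α
    · exact ⟨fun _ => none, fun h => absurd hα h⟩
    · exact (exists_enum (hT α hα).2.1).imp fun _ h _ => h
  choose e he using h2
  have h0 := Ultrafilter.eventually_not.2 h
  have h3 : ∀ i, ∃ δ, ∀ᶠ α in (UU : Filter K), ∀ a, e α i = some a → a = δ := by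
    intro i
    obtain ⟨α0, -⟩ := h0.exists
    refine ae_press ?_
    filter_upwards [h0, S.tail α0] with α k1 k2
    cases l : e α i with
    | none => exact ⟨α0, k2, fun a ha => by cases ha⟩
    | some a => exact ⟨a, (hT α k1).1 ((he α k1).1 i a l), fun a' ha' => by cases ha'; rfl⟩
  choose d hd using h3
  have h4 := ae_all UU _ (J := ks.out) (by simpa using ks_lt) hd
  obtain ⟨δ, hδ⟩ := (ae_above (T := range d) (mk_range_le.trans_lt (by simpa using ks_lt))).exists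
  obtain ⟨α, k1, k2, k3⟩ := (h0.and (h4.and (S.tail δ))).exists
  refine (hT α k1).2.2 δ k3 fun a ha => ?_
  obtain ⟨i, hi⟩ := (he α k1).2 a ha
  exact hδ ⟨i, (k2 i a hi).symm⟩

end Pool.Agent.Lib.MP_d4b40b_lc.W
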