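import Pool.Agent.Lib.MP_d4b40b_lc.W.Info

set_option autoImplicit false
set_option linter.unusedSectionVars false

namespace Pool.Agent.Lib.MP_d4b40b_lc.W

open Filter Set Cardinal

variable [S : Sys]

/-- cones -/
abbrev Cone : Type := K → Info → Prop

/-- the names for the lower collapse at one level -/
@[ext] structure S0 where
  a : Set K
  Bl : Set (K × K)
  N : K × K → Nm

structure S0.OK (m : I) (x : S0) : Prop where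
  ca : #x.a ≤ pre m
  cB : #x.Bl ≤ pre m
  bl : ∀ π ∈ x.Bl, π.1 ∈ x.a ∧ #(Iio π.2) ≤ pre m
  dep : ∀ π ∈ x.Bl, Dep m (x.a ∩ Iic π.1) (x.N π)
  val : ∀ π ∈ x.Bl, ∀ σ, ∀ v ∈ x.N π σ, v ∈ x.a ∧ v ≤ π.1

/-- `x` extends the part of `y` living on `T` -/
structure R0 (C : Cone) (T : Set K) (x y : S0) : Prop where
  a : y.a ∩ T ⊆ x.a
  bl : ∀ π ∈ y.Bl, π.1 ∈ T → π ∈ x.Bl
  n : ∀ π ∈ y.Bl, π.1 ∈ T → ∀ σ, C π.1 σ → x.N π σ = y.N π σ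

structure E0 (x y : S0) : Prop where
  a : x.a = y.a
  bl : x.Bl = y.Bl
  n : ∀ π ∈ x.Bl, x.N π = y.N π

/-- the names for the records at one level -/
@[ext] structure S1 (m : I) where
  b : Set K
  f : K → Obj m → Nm
  g : K → Nm

structure S1.OK {m : I} (x : S1 m) : Prop where
  cb : #x.b ≤ kp m
  ow : ∀ ξ ∈ x.b, ∀ μ σ, ∀ η ∈ μ.g.f ξ, x.f ξ μ σ = some η
  inv : ∀ ξ ∈ x.b, ∀ μ ν, Agr (x.b ∩ Iic ξ) μ ν → x.f ξ μ = x.f ξ ν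
  fdep : ∀ ξ ∈ x.b, ∀ μ, Dep m (Lt K (kp m)) (x.f ξ μ)
  fval : ∀ ξ ∈ x.b, ∀ μ σ, ∀ v ∈ x.f ξ μ σ, v ∈ Lt K (kp m)
  gdep : ∀ ξ ∈ x.b, Dep m (Lt K (kp m)) (x.g ξ)
  gval : ∀ ξ ∈ x.b, ∀ σ, ∀ v ∈ x.g ξ σ, v ∈ Lt K (kp m)

structure R1 {m : I} (on : Prop) (C : Cone) (T : Set K) (x y : S1 m) : Prop where
  b : y.b ∩ T ⊆ x.b
  g : on → ∀ ξ ∈ y.b, ξ ∈ T → ∀ σ, (∀ ζ, C ζ σ) → x.g ξ σ = y.g ξ σ
  f : ¬ on → ∀ ξ ∈ y.b, ξ ∈ T → ∀ μ σ, C ξ (pull m μ.g σ) → x.f ξ μ σ = y.f ξ μ σ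

structure E1 {m : I} (on : Prop) (x y : S1 m) : Prop where
  b : x.b = y.b
  g : on → ∀ ξ ∈ x.b, x.g ξ = y.g ξ
  f : ¬ on → ∀ ξ ∈ x.b, x.f ξ = y.f ξ

lemma agr_mono {m : I} {b b' : Set K} {μ ν : Obj m} (h : Agr b μ ν) (l : b' ⊆ b) : Agr b' μ ν :=
  ⟨h.1, fun ξ k => h.2 ξ (l k)⟩

lemma Invt.mono {m : I} {b b' : Set K} {A : Set (Obj m)} (h : Invt b A) (l : b ⊆ b') :
    Invt b' A := fun μ ν e => h μ ν (agr_mono e l)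

lemma Invt.inter {m : I} {b : Set K} {A B : Set (Obj m)} (h : Invt b A) (h' : Invt b B) :
    Invt b (A ∩ B) := fun μ ν e k => ⟨h μ ν e k.1, h' μ ν e k.2⟩

lemma Invt.univ {m : I} (b : Set K) : Invt b (univ : Set (Obj m)) := fun _ _ _ h => h

lemma Invt.tr {m : I} {b : Set K} {A : Set (Obj m)} (h : Invt b A) (g : PM) :
    Invt (g.im b) {ν | ν.comp g ∈ A} :=
  fun _ _ e => h _ _ (agr_comp e (fun _ _ => rfl) Subset.rfl)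

lemma Invt.tr_congr {m : I} {b : Set K} {A : Set (Obj m)} (h : Invt b A) {g g' : PM}
    (l : ∀ ξ ∈ b, g.f ξ = g'.f ξ) : {ν : Obj m | ν.comp g ∈ A} = {ν | ν.comp g' ∈ A} :=
  Set.ext fun _ => ⟨h _ _ (agr_comp (b' := Set.univ) ⟨rfl, fun _ _ => rfl⟩ l (subset_univ _)),
    h _ _ (agr_comp (b' := Set.univ) ⟨rfl, fun _ _ => rfl⟩ (fun ξ k => (l ξ k).symm) (subset_univ _))⟩

lemma agr_comp_id {m : I} {b : Set K} (ν : Obj m) {g : PM} (l : ∀ ξ ∈ b, ξ ∈ g.f ξ) :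
    Agr b (ν.comp g) ν := ⟨rfl, fun ξ k => PM.comp_eq (l ξ k)⟩

lemma Invt.tr_id {m : I} {b : Set K} {A : Set (Obj m)} (h : Invt b A) {g : PM}
    (l : ∀ ξ ∈ b, ξ ∈ g.f ξ) : {ν : Obj m | ν.comp g ∈ A} = A :=
  Set.ext fun ν => ⟨h _ _ (agr_comp_id ν l), h _ _ ⟨rfl, fun ξ k => ((agr_comp_id ν l).2 ξ k).symm⟩⟩

lemma PM.im_id {g : PM} {a : Set K} (l : ∀ ξ ∈ a, ξ ∈ g.f ξ) : g.im a = a :=
  Set.ext fun ξ => ⟨fun ⟨_, k1, k2⟩ => Option.mem_unique (l _ k1) k2 ▸ k1, fun k => ⟨ξ, k, l ξ k⟩⟩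

lemma sub_pull_id {m : I} {g : PM} {T : Set K} (σ : Info) (l : ∀ ξ ∈ T, ξ ∈ g.f ξ) :
    Sub m T σ (pull m g σ) ∧ Sub m T (pull m g σ) σ := by
  constructor <;> intro c γ ξ η k1 k2 k3 k4 k5 k6 <;> rcases k2.eq_or_lt with rfl | k7
  · exact mem_pull.2 ⟨ξ, l ξ (k3 rfl), k6⟩
  · rwa [pull_lt k7]
  · obtain ⟨a, k8, k9⟩ := mem_pull.1 k6
    rwa [Option.mem_unique (l ξ (k3 rfl)) k8]
  · rwa [pull_lt k7] at k6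

section zero

variable {m : I} {C C' : Cone} {T T' : Set K} {x y z r : S0} {g h : PM}

lemma R0.refl (C : Cone) (T : Set K) (x : S0) : R0 C T x x :=
  ⟨inter_subset_left, fun _ h _ => h, fun _ _ _ _ _ => rfl⟩

lemma R0.trans (h : R0 C T x y) (h' : R0 C' T y z) (l : ∀ ξ ∈ T, ∀ σ, C ξ σ → C' ξ σ) :
    R0 C T x z :=
  ⟨fun _ k => h.a ⟨h'.a k, k.2⟩, fun π k1 k2 => h.bl π (h'.bl π k1 k2) k2, fun π k1 k2 σ k3 =>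
    (h.n π (h'.bl π k1 k2) k2 σ k3).trans (h'.n π k1 k2 σ (l _ k2 σ k3))⟩

lemma R0.mono (h : R0 C T x y) (l' : T' ⊆ T) (l : ∀ ξ ∈ T', ∀ σ, C' ξ σ → C ξ σ) :
    R0 C' T' x y :=
  ⟨fun _ k => h.a ⟨k.1, l' k.2⟩, fun π k1 k2 => h.bl π k1 (l' k2),
    fun π k1 k2 σ k3 => h.n π k1 (l' k2) σ (l _ k2 σ k3)⟩

lemma R0.sub (h : R0 C univ x y) : y.a ⊆ x.a := fun _ k => h.a ⟨k, trivial⟩

lemma R0.subB (h : R0 C univ x y) : y.Bl ⊆ x.Bl := fun π k => h.bl π k trivial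

lemma E0.refl (x : S0) : E0 x x := ⟨rfl, rfl, fun _ _ => rfl⟩

lemma E0.symm (h : E0 x y) : E0 y x := ⟨h.a.symm, h.bl.symm, fun π k => (h.n π (h.bl ▸ k)).symm⟩

lemma E0.trans (h : E0 x y) (h' : E0 y z) : E0 x z :=
  ⟨h.a.trans h'.a, h.bl.trans h'.bl, fun π k => (h.n π k).trans (h'.n π (h.bl ▸ k))⟩

lemma E0.le (h : E0 x y) (C : Cone) (T : Set K) : R0 C T x y :=
  ⟨h.a ▸ inter_subset_left, fun _ k _ => h.bl ▸ k, fun π k _ σ _ => congrFun (h.n π (h.bl ▸ k)) σ⟩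

lemma S0.ok_of (h1 : #z.a ≤ pre m) (h2 : #z.Bl ≤ pre m)
    (h3 : ∀ π ∈ z.Bl, ∃ x : S0, x.OK m ∧ π ∈ x.Bl ∧ x.a ∩ Iic π.1 ⊆ z.a ∧ z.N π = x.N π) :
    z.OK m := by
  refine ⟨h1, h2, fun π k => ?_, fun π k => ?_, fun π k σ v l => ?_⟩ <;>
    obtain ⟨x, k1, k2, k3, k4⟩ := h3 π k
  · exact ⟨k3 ⟨(k1.bl π k2).1, le_rfl⟩, (k1.bl π k2).2⟩
  · exact k4 ▸ (k1.dep π k2).mono fun ξ l => ⟨k3 l, l.2⟩
  · have := k1.val π k2 σ v (k4 ▸ l)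
    exact ⟨k3 this, this.2⟩

/-- transport along a map -/
noncomputable def S0.tr (m : I) (g : PM) (x : S0) : S0 :=
  ⟨g.im x.a, {π | ∃ ξ, (ξ, π.2) ∈ x.Bl ∧ π.1 ∈ g.f ξ},
    fun π σ => (g.inv.f π.1).bind fun ξ => (x.N (ξ, π.2) (pull m g σ)).bind g.f⟩

lemma S0.tr_N {ξ : K} {π : K × K} (l : π.1 ∈ g.f ξ) (σ : Info) :
    (x.tr m g).N π σ = (x.N (ξ, π.2) (pull m g σ)).bind g.f := by
  simp only [S0.tr, PM.inv_eq l, Option.bind_some]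

lemma S0.mem_tr {ξ : K} {π : K × K} (l : π.1 ∈ g.f ξ) : π ∈ (x.tr m g).Bl ↔ (ξ, π.2) ∈ x.Bl :=
  ⟨fun ⟨_, k1, k2⟩ => g.inj k2 l ▸ k1, fun k => ⟨ξ, k, l⟩⟩

lemma S0.OK.tr (h : x.OK m) (g : PM) : (x.tr m g).OK m := by
  refine ⟨(g.mk_im _).trans h.ca, le_trans ?_ h.cB, ?_, ?_, ?_⟩
  · refine mk_le_of_injective
      (f := fun π => (⟨(π.2.choose, π.1.2), π.2.choose_spec.1⟩ : x.Bl)) fun a b e => ?_
    have e' := Prod.mk.inj (congrArg Subtype.val e)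
    have h1 := a.2.choose_spec.2
    rw [show a.2.choose = b.2.choose from e'.1] at h1
    exact Subtype.ext (Prod.ext (Option.mem_unique h1 b.2.choose_spec.2) e'.2)
  · rintro π ⟨ξ, k1, k2⟩
    exact ⟨⟨ξ, (h.bl _ k1).1, k2⟩, (h.bl _ k1).2⟩
  · rintro π ⟨ξ, k1, k2⟩ τ σ l v hv
    rw [S0.tr_N k2] at hv ⊢
    obtain ⟨w, k3, k4⟩ := Option.mem_bind_iff.1 hv
    exact Option.mem_bind_iff.2 ⟨w, h.dep _ k1 _ _ (l.pull (fun _ _ => rfl) fun η ⟨ζ, n1, n2⟩ =>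
      ⟨⟨ζ, n1.1, n2⟩, g.mono n2 k2 n1.2⟩) w k3, k4⟩
  · rintro π ⟨ξ, k1, k2⟩ σ v hv
    rw [S0.tr_N k2] at hv
    obtain ⟨w, k3, k4⟩ := Option.mem_bind_iff.1 hv
    have := h.val _ k1 _ w k3
    exact ⟨⟨w, this.1, k4⟩, g.mono k4 k2 this.2⟩

lemma R0.tr (h : R0 C T x y)
    (l : ∀ ξ η, η ∈ g.f ξ → η ∈ T' → ξ ∈ T ∧ ∀ σ, C' η σ → C ξ (pull m g σ)) :
    R0 C' T' (x.tr m g) (y.tr m g) := by
  refine ⟨?_, ?_, ?_⟩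
  · rintro η ⟨⟨ξ, k1, k2⟩, k3⟩
    exact ⟨ξ, h.a ⟨k1, (l ξ η k2 k3).1⟩, k2⟩
  · rintro π ⟨ξ, k1, k2⟩ k3
    exact ⟨ξ, h.bl _ k1 (l ξ _ k2 k3).1, k2⟩
  · rintro π ⟨ξ, k1, k2⟩ k3 σ k4
    rw [S0.tr_N k2, S0.tr_N k2, h.n _ k1 (l ξ _ k2 k3).1 _ ((l ξ _ k2 k3).2 σ k4)]

lemma S0.tr_tr (m : I) (g h : PM) (x : S0) : (x.tr m g).tr m h = x.tr m (h.comp g) := by
  refine S0.ext (PM.im_comp _ _ _) (Set.ext fun π => ⟨?_, ?_⟩) (funext fun π => funext fun σ => ?_)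
  · rintro ⟨η, ⟨ξ, k1, k2⟩, k3⟩
    exact ⟨ξ, k1, PM.mem_comp.2 ⟨η, k2, k3⟩⟩
  · rintro ⟨ξ, k1, k2⟩
    obtain ⟨η, k3, k4⟩ := PM.mem_comp.1 k2
    exact ⟨η, ⟨ξ, k1, k3⟩, k4⟩
  · simp only [S0.tr, PM.inv_comp, pull_pull]
    simp only [PM.comp, Option.bind_assoc]

lemma S0.tr_congr (k : x.OK m) (l : ∀ ξ ∈ x.a, g.f ξ = h.f ξ) : E0 (x.tr m g) (x.tr m h) := by
  refine ⟨PM.im_congr l, Set.ext fun π => ⟨fun ⟨ξ, k1, k2⟩ => ⟨ξ, k1, l ξ (k.bl _ k1).1 ▸ k2⟩,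
    fun ⟨ξ, k1, k2⟩ => ⟨ξ, k1, l ξ (k.bl _ k1).1 ▸ k2⟩⟩, ?_⟩
  rintro π ⟨ξ, k1, k2⟩
  funext σ
  rw [S0.tr_N k2, S0.tr_N (l ξ (k.bl _ k1).1 ▸ k2 : π.1 ∈ h.f ξ), (k.dep _ k1).eq
    (sub_pull_congr σ fun ζ n => l ζ n.1) (sub_pull_congr σ fun ζ n => (l ζ n.1).symm)]
  cases e : x.N (ξ, π.2) (pull m h σ) with
  | none => rfl
  | some w => exact l w (k.val _ k1 _ w e).1

lemma S0.tr_id (k : x.OK m) (l : ∀ ξ ∈ x.a, ξ ∈ g.f ξ) : E0 (x.tr m g) x := by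
  have key : ∀ π ∈ (x.tr m g).Bl, π ∈ x.Bl := fun π ⟨ξ, k1, k2⟩ => by
    rwa [Option.mem_unique (l ξ (k.bl _ k1).1) k2] at k1
  refine ⟨PM.im_id l, Set.ext fun π => ⟨key π, fun k1 => ⟨π.1, k1, l _ (k.bl _ k1).1⟩⟩,
    fun π k0 => ?_⟩
  have k1 := key π k0
  funext σ
  have k2 := sub_pull_id (m := m) (T := x.a ∩ Iic π.1) σ fun ζ n => l ζ n.1
  rw [S0.tr_N (l _ (k.bl _ k1).1), (k.dep _ k1).eq k2.2 k2.1]
  cases e : x.N π σ with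
  | none => rfl
  | some w => exact l w (k.val _ k1 _ w e).1

/-- restriction to a set of coordinates -/
def S0.res (T : Set K) (x : S0) : S0 := ⟨x.a ∩ T, {π ∈ x.Bl | π.1 ∈ T}, x.N⟩

lemma S0.OK.res (h : x.OK m) (hT : IsLowerSet T) : (x.res T).OK m :=
  S0.ok_of ((mk_le_mk_of_subset inter_subset_left).trans h.ca)
    ((mk_le_mk_of_subset (sep_subset _ _)).trans h.cB)
    fun _ k => ⟨x, h, k.1, fun _ l => ⟨l.1, hT l.2 k.2⟩, rfl⟩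

lemma R0.res (h : R0 C (T ∩ T') r x) : R0 C T' r (x.res T) :=
  ⟨fun _ k => h.a ⟨k.1.1, k.1.2, k.2⟩, fun π k l => h.bl π k.1 ⟨k.2, l⟩,
    fun π k l => h.n π k.1 ⟨k.2, l⟩⟩

lemma R0.of_res (h : R0 C univ r (x.res T)) : R0 C T r x :=
  ⟨fun _ k => h.a ⟨k, trivial⟩, fun π k l => h.bl π ⟨k, l⟩ trivial,
    fun π k l => h.n π ⟨k, l⟩ trivial⟩

open Classical in
/-- union, the first argument has priority -/
noncomputable def S0.pu (x y : S0) : S0 :=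
  ⟨x.a ∪ y.a, x.Bl ∪ y.Bl, fun π => if π ∈ x.Bl then x.N π else y.N π⟩

lemma S0.pu_pos {π : K × K} (h : π ∈ x.Bl) : (x.pu y).N π = x.N π := if_pos h

lemma S0.pu_neg {π : K × K} (h : π ∉ x.Bl) : (x.pu y).N π = y.N π := if_neg h

/-- the blocks of `y` which are not blocks of `x` -/
def S0.diff (y x : S0) : S0 := ⟨y.a, y.Bl \ x.Bl, y.N⟩

lemma S0.OK.pu (h : x.OK m) (h' : y.OK m) : (x.pu y).OK m :=
  S0.ok_of (mk_union_le' (pre_inf m) h.ca h'.ca) (mk_union_le' (pre_inf m) h.cB h'.cB) fun π k => by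
    by_cases l : π ∈ x.Bl
    · exact ⟨x, h, l, fun _ n => Or.inl n.1, if_pos l⟩
    · exact ⟨y, h', k.resolve_left l, fun _ n => Or.inr n.1, if_neg l⟩

lemma R0.pu_left (C : Cone) (T : Set K) (x y : S0) : R0 C T (x.pu y) x :=
  ⟨fun _ k => Or.inl k.1, fun _ k _ => Or.inl k, fun _ k _ σ _ => congrFun (if_pos k) σ⟩

lemma R0.pu_right (h : ∀ π ∈ x.Bl, π ∈ y.Bl → π.1 ∈ T → ∀ σ, C π.1 σ → x.N π σ = y.N π σ) :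
    R0 C T (x.pu y) y := by
  refine ⟨fun _ k => Or.inr k.1, fun _ k _ => Or.inr k, fun π k l σ n => ?_⟩
  by_cases e : π ∈ x.Bl
  · exact (congrFun (if_pos e) σ).trans (h π e k l σ n)
  · exact congrFun (if_neg e) σ

lemma R0.le_pu (h : R0 C T r x) (h' : R0 C T r (y.diff x)) : R0 C T r (x.pu y) := by
  refine ⟨fun _ k => k.1.elim (fun l => h.a ⟨l, k.2⟩) fun l => h'.a ⟨l, k.2⟩, fun π k l => ?_,
    fun π k l σ n => ?_⟩ <;> by_cases e : π ∈ x.Bl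
  · exact h.bl π e l
  · exact h'.bl π ⟨k.resolve_left e, e⟩ l
  · exact (h.n π e l σ n).trans (congrFun (if_pos e) σ).symm
  · exact (h'.n π ⟨k.resolve_left e, e⟩ l σ n).trans (congrFun (if_neg e) σ).symm

lemma R0.diff (h : R0 C T r y) (x : S0) : R0 C T r (y.diff x) :=
  ⟨h.a, fun π k => h.bl π k.1, fun π k => h.n π k.1⟩

lemma S0.pu_tr (m : I) (g : PM) (x y : S0) : (x.pu y).tr m g = (x.tr m g).pu (y.tr m g) := by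
  refine S0.ext (Set.ext fun η => ⟨?_, ?_⟩) (Set.ext fun π => ⟨?_, ?_⟩)
    (funext fun π => funext fun σ => ?_)
  · rintro ⟨ξ, k1 | k1, k2⟩
    exacts [Or.inl ⟨ξ, k1, k2⟩, Or.inr ⟨ξ, k1, k2⟩]
  · rintro (⟨ξ, k1, k2⟩ | ⟨ξ, k1, k2⟩)
    exacts [⟨ξ, Or.inl k1, k2⟩, ⟨ξ, Or.inr k1, k2⟩]
  · rintro ⟨ξ, k1 | k1, k2⟩
    exacts [Or.inl ⟨ξ, k1, k2⟩, Or.inr ⟨ξ, k1, k2⟩]
  · rintro (⟨ξ, k1, k2⟩ | ⟨ξ, k1, k2⟩)
    exacts [⟨ξ, Or.inl k1, k2⟩, ⟨ξ, Or.inr k1, k2⟩]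
  · cases e : g.inv.f π.1 with
    | none =>
      have : ∀ z : S0, (z.tr m g).N π σ = none := fun z => by simp only [S0.tr, e, Option.bind_none]
      rw [this]
      by_cases k : π ∈ (x.tr m g).Bl
      · rw [S0.pu_pos k, this]
      · rw [S0.pu_neg k, this]
    | some ξ =>
      have l := PM.mem_inv.1 e
      rw [S0.tr_N l]
      by_cases k : (ξ, π.2) ∈ x.Bl
      · rw [S0.pu_pos k, S0.pu_pos ((S0.mem_tr l).2 k), S0.tr_N l]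
      · rw [S0.pu_neg k, S0.pu_neg (mt (S0.mem_tr l).1 k), S0.tr_N l]

variable {J : Type} [Nonempty J]

/-- union of a family -/
noncomputable def S0.un (x : J → S0) : S0 :=
  ⟨⋃ j, (x j).a, ⋃ j, (x j).Bl, fun π => (x (Classical.epsilon fun j => π ∈ (x j).Bl)).N π⟩

lemma S0.un_N (x : J → S0) {π : K × K} (h : π ∈ (S0.un x).Bl) :
    ∃ j, π ∈ (x j).Bl ∧ (S0.un x).N π = (x j).N π :=
  ⟨_, Classical.epsilon_spec (mem_iUnion.1 h), rfl⟩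

lemma S0.ok_un {x : J → S0} (h : ∀ j, (x j).OK m) (h1 : #(⋃ j, (x j).a) ≤ pre m)
    (h2 : #(⋃ j, (x j).Bl) ≤ pre m) : (S0.un x).OK m :=
  S0.ok_of h1 h2 fun _ k => let ⟨j, k1, k2⟩ := S0.un_N x k
    ⟨x j, h j, k1, fun _ l => mem_iUnion.2 ⟨j, l.1⟩, k2⟩

lemma R0.un_le {x : J → S0} (i : J) (h : ∀ j, ∀ π ∈ (x j).Bl, π ∈ (x i).Bl → π.1 ∈ T → ∀ σ,
    C π.1 σ → (x j).N π σ = (x i).N π σ) : R0 C T (S0.un x) (x i) := by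
  refine ⟨fun _ k => mem_iUnion.2 ⟨i, k.1⟩, fun _ k _ => mem_iUnion.2 ⟨i, k⟩, fun π k l σ n => ?_⟩
  obtain ⟨j, k1, k2⟩ := S0.un_N x (mem_iUnion.2 ⟨i, k⟩)
  rw [k2, h j π k1 k l σ n]

lemma R0.le_un {x : J → S0} (h : ∀ j, R0 C T r (x j)) : R0 C T r (S0.un x) := by
  refine ⟨fun _ k => ?_, fun π k l => ?_, fun π k l σ n => ?_⟩
  · obtain ⟨j, k1⟩ := mem_iUnion.1 k.1
    exact (h j).a ⟨k1, k.2⟩
  · obtain ⟨j, k1⟩ := mem_iUnion.1 k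
    exact (h j).bl π k1 l
  · obtain ⟨j, k1, k2⟩ := S0.un_N x k
    rw [k2, (h j).n π k1 l σ n]

end zero

section one

variable {m : I} {on on' : Prop} {C C' : Cone} {T T' : Set K} {x y z r : S1 m} {g h : PM}

lemma R1.refl (on : Prop) (C : Cone) (T : Set K) (x : S1 m) : R1 on C T x x :=
  ⟨inter_subset_left, fun _ _ _ _ _ _ => rfl, fun _ _ _ _ _ _ _ => rfl⟩

lemma R1.trans (h : R1 on C T x y) (h' : R1 on C' T y z)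
    (l : ¬ on → ∀ ξ ∈ T, ∀ σ, C ξ σ → C' ξ σ) (l' : on → ∀ σ, (∀ ζ, C ζ σ) → ∀ ζ, C' ζ σ) :
    R1 on C T x z :=
  ⟨fun _ k => h.b ⟨h'.b k, k.2⟩, fun o ξ k1 k2 σ k3 =>
    (h.g o ξ (h'.b ⟨k1, k2⟩) k2 σ k3).trans (h'.g o ξ k1 k2 σ (l' o σ k3)),
    fun o ξ k1 k2 μ σ k3 =>
    (h.f o ξ (h'.b ⟨k1, k2⟩) k2 μ σ k3).trans (h'.f o ξ k1 k2 μ σ (l o ξ k2 _ k3))⟩

lemma R1.mono (h : R1 on C T x y) (l0 : on' ↔ on) (l1 : T' ⊆ T)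
    (l : ¬ on' → ∀ ξ ∈ T', ∀ σ, C' ξ σ → C ξ σ) (l' : on' → ∀ σ, (∀ ζ, C' ζ σ) → ∀ ζ, C ζ σ) :
    R1 on' C' T' x y :=
  ⟨fun _ k => h.b ⟨k.1, l1 k.2⟩, fun o ξ k1 k2 σ k3 => h.g (l0.1 o) ξ k1 (l1 k2) σ (l' o σ k3),
    fun o ξ k1 k2 μ σ k3 => h.f (mt l0.2 o) ξ k1 (l1 k2) μ σ (l o ξ k2 _ k3)⟩

lemma R1.sub (h : R1 on C univ x y) : y.b ⊆ x.b := fun _ k => h.b ⟨k, trivial⟩

lemma E1.refl (on : Prop) (x : S1 m) : E1 on x x := ⟨rfl, fun _ _ _ => rfl, fun _ _ _ => rfl⟩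

lemma E1.symm (h : E1 on x y) : E1 on y x :=
  ⟨h.b.symm, fun o ξ k => (h.g o ξ (h.b ▸ k)).symm, fun o ξ k => (h.f o ξ (h.b ▸ k)).symm⟩

lemma E1.le (h : E1 on x y) (C : Cone) (T : Set K) : R1 on C T x y :=
  ⟨h.b ▸ inter_subset_left, fun o ξ k _ σ _ => congrFun (h.g o ξ (h.b ▸ k)) σ,
    fun o ξ k _ μ σ _ => congrFun (congrFun (h.f o ξ (h.b ▸ k)) μ) σ⟩

lemma S1.ok_of (h1 : #z.b ≤ kp m) (h3 : ∀ ξ ∈ z.b, ∃ x : S1 m, x.OK ∧ ξ ∈ x.b ∧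
    x.b ∩ Iic ξ ⊆ z.b ∧ z.f ξ = x.f ξ ∧ z.g ξ = x.g ξ) : z.OK := by
  refine ⟨h1, fun ξ k => ?_, fun ξ k μ ν e => ?_, fun ξ k => ?_, fun ξ k => ?_, fun ξ k => ?_,
    fun ξ k => ?_⟩ <;> obtain ⟨x, k1, k2, k3, k4, k5⟩ := h3 ξ k
  · exact k4 ▸ k1.ow ξ k2
  · exact k4 ▸ k1.inv ξ k2 μ ν (agr_mono e fun _ l => ⟨k3 l, l.2⟩)
  · exact k4 ▸ k1.fdep ξ k2
  · exact k4 ▸ k1.fval ξ k2
  · exact k5 ▸ k1.gdep ξ k2
  · exact k5 ▸ k1.gval ξ k2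

/-- transport along a map -/
noncomputable def S1.tr (g : PM) (x : S1 m) : S1 m :=
  ⟨g.im x.b, fun η ν σ => (g.inv.f η).bind fun ξ => x.f ξ (ν.comp g) σ,
    fun η σ => (g.inv.f η).bind fun ξ => x.g ξ σ⟩

lemma S1.tr_f {ξ η : K} (l : η ∈ g.f ξ) (ν : Obj m) : (x.tr g).f η ν = x.f ξ (ν.comp g) := by
  simp only [S1.tr, PM.inv_eq l, Option.bind_some]

lemma S1.tr_g {ξ η : K} (l : η ∈ g.f ξ) : (x.tr g).g η = x.g ξ := by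
  simp only [S1.tr, PM.inv_eq l, Option.bind_some]

lemma S1.OK.tr (h : x.OK) (g : PM) : (x.tr g).OK := by
  refine ⟨(g.mk_im _).trans h.cb, ?_, ?_, ?_, ?_, ?_, ?_⟩ <;> rintro η ⟨ξ, k1, k2⟩
  · intro ν σ θ l
    rw [S1.tr_f k2]
    exact h.ow ξ k1 _ σ θ (PM.mem_comp.2 ⟨η, k2, l⟩)
  · intro μ ν e
    rw [S1.tr_f k2, S1.tr_f k2]
    exact h.inv ξ k1 _ _ (agr_comp e (fun _ _ => rfl) fun θ ⟨ζ, n1, n2⟩ =>
      ⟨⟨ζ, n1.1, n2⟩, g.mono n2 k2 n1.2⟩)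
  · intro ν
    rw [S1.tr_f k2]
    exact h.fdep ξ k1 _
  · intro ν
    rw [S1.tr_f k2]
    exact h.fval ξ k1 _
  · rw [S1.tr_g k2]
    exact h.gdep ξ k1
  · rw [S1.tr_g k2]
    exact h.gval ξ k1

lemma R1.tr (h : R1 on C T x y) (l0 : ∀ ξ η, η ∈ g.f ξ → η ∈ T' → ξ ∈ T)
    (l : ¬ on → ∀ ξ η, η ∈ g.f ξ → η ∈ T' → ∀ σ, C' η σ → C ξ (pull m g σ))
    (l' : on → ∀ σ, (∀ ζ, C' ζ σ) → ∀ ζ, C ζ σ) : R1 on C' T' (x.tr g) (y.tr g) := by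
  refine ⟨?_, fun o => ?_, fun o => ?_⟩
  · rintro η ⟨⟨ξ, k1, k2⟩, k3⟩
    exact ⟨ξ, h.b ⟨k1, l0 ξ η k2 k3⟩, k2⟩
  · rintro η ⟨ξ, k1, k2⟩ k3 σ k4
    rw [S1.tr_g k2, S1.tr_g k2, h.g o ξ k1 (l0 ξ η k2 k3) σ (l' o σ k4)]
  · rintro η ⟨ξ, k1, k2⟩ k3 ν σ k4
    rw [S1.tr_f k2, S1.tr_f k2]
    refine h.f o ξ k1 (l0 ξ η k2 k3) _ σ ?_
    have := l o ξ η k2 k3 _ k4
    rwa [pull_pull] at this

lemma S1.tr_tr (g h : PM) (x : S1 m) : (x.tr g).tr h = x.tr (h.comp g) := by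
  refine S1.ext (PM.im_comp _ _ _) (funext fun η => funext fun ν => funext fun σ => ?_)
    (funext fun η => funext fun σ => ?_)
  · simp only [S1.tr, PM.inv_comp, Obj.comp_comp]
    simp only [PM.comp, Option.bind_assoc]
  · simp only [S1.tr, PM.inv_comp]
    simp only [PM.comp, Option.bind_assoc]

lemma S1.tr_congr (on : Prop) (k : x.OK) (l : ∀ ξ ∈ x.b, g.f ξ = h.f ξ) :
    E1 on (x.tr g) (x.tr h) := by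
  refine ⟨PM.im_congr l, fun _ => ?_, fun _ => ?_⟩ <;> rintro η ⟨ξ, k1, k2⟩
  · rw [S1.tr_g k2, S1.tr_g (l ξ k1 ▸ k2 : η ∈ h.f ξ)]
  · funext ν
    rw [S1.tr_f k2, S1.tr_f (l ξ k1 ▸ k2 : η ∈ h.f ξ)]
    exact k.inv ξ k1 _ _ (agr_comp (b' := univ) ⟨rfl, fun _ _ => rfl⟩ (fun ζ n => l ζ n.1)
      (subset_univ _))

lemma S1.tr_id (on : Prop) (k : x.OK) (l : ∀ ξ ∈ x.b, ξ ∈ g.f ξ) : E1 on (x.tr g) x := by
  refine ⟨PM.im_id l, fun _ ξ k0 => ?_, fun _ ξ k0 => ?_⟩ <;>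
    have k1 : ξ ∈ x.b := PM.im_id l ▸ k0
  · rw [S1.tr_g (l ξ k1)]
  · funext ν
    rw [S1.tr_f (l ξ k1)]
    exact k.inv ξ k1 _ _ (agr_comp_id ν fun ζ n => l ζ n.1)

/-- activation -/
def S1.act (μ : Obj m) (x : S1 m) : S1 m := ⟨x.b, x.f, fun ξ => x.f ξ μ⟩

lemma S1.OK.act (h : x.OK) (μ : Obj m) : (x.act μ).OK :=
  ⟨h.cb, h.ow, h.inv, h.fdep, h.fval, fun ξ k => h.fdep ξ k μ, fun ξ k => h.fval ξ k μ⟩

lemma S1.act_tr (g : PM) (ν : Obj m) (x : S1 m) : (x.act (ν.comp g)).tr g = (x.tr g).act ν := rfl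

/-- deactivation -/
def S1.deact (x : S1 m) : S1 m := ⟨x.b, fun ξ μ σ => (μ.g.f ξ).or (x.g ξ σ), x.g⟩

lemma S1.OK.deact (h : x.OK) : x.deact.OK := by
  refine ⟨h.cb, fun ξ _ μ σ η l => ?_, fun ξ k μ ν e => ?_, fun ξ k μ τ σ l v => ?_,
    fun ξ k μ σ v => ?_, h.gdep, h.gval⟩
  · simp only [S1.deact, show μ.g.f ξ = some η from l, Option.some_or]
  · simp only [S1.deact, e.2 ξ ⟨k, le_rfl⟩]
  · cases e : μ.g.f ξ <;> simp only [S1.deact, e, Option.none_or, Option.some_or]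
    exacts [h.gdep ξ k τ σ l v, id]
  · cases e : μ.g.f ξ <;> simp only [S1.deact, e, Option.none_or, Option.some_or]
    · exact h.gval ξ k σ v
    · rintro ⟨⟩
      exact μ.lt e

/-- blank records -/
def S1.bl (m : I) (b : Set K) : S1 m := S1.deact ⟨b, fun _ _ _ => none, fun _ _ => none⟩

lemma S1.ok_bl {b : Set K} (h : #b ≤ kp m) : (S1.bl m b).OK := by
  refine ⟨h, fun ξ _ μ σ η l => ?_, fun ξ k μ ν e => ?_, fun ξ k μ τ σ l v => id,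
    fun ξ k μ σ v => ?_, fun _ _ _ _ _ _ => id, fun _ _ _ _ l => by cases l⟩
  · simp only [S1.bl, S1.deact, show μ.g.f ξ = some η from l, Option.some_or]
  · simp only [S1.bl, S1.deact, e.2 ξ ⟨k, le_rfl⟩]
  · simp only [S1.bl, S1.deact, Option.or_none]
    exact μ.lt

/-- restriction to a set of coordinates -/
def S1.res (T : Set K) (x : S1 m) : S1 m := ⟨x.b ∩ T, x.f, x.g⟩

lemma S1.OK.res (h : x.OK) (hT : IsLowerSet T) : (x.res T).OK :=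
  S1.ok_of ((mk_le_mk_of_subset inter_subset_left).trans h.cb)
    fun _ k => ⟨x, h, k.1, fun _ l => ⟨l.1, hT l.2 k.2⟩, rfl, rfl⟩

lemma R1.res (h : R1 on C (T ∩ T') r x) : R1 on C T' r (x.res T) :=
  ⟨fun _ k => h.b ⟨k.1.1, k.1.2, k.2⟩, fun o ξ k l => h.g o ξ k.1 ⟨k.2, l⟩,
    fun o ξ k l => h.f o ξ k.1 ⟨k.2, l⟩⟩

lemma R1.of_res (h : R1 on C univ r (x.res T)) : R1 on C T r x :=
  ⟨fun _ k => h.b ⟨k, trivial⟩, fun o ξ k l => h.g o ξ ⟨k, l⟩ trivial,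
    fun o ξ k l => h.f o ξ ⟨k, l⟩ trivial⟩

open Classical in
/-- union, the first argument has priority -/
noncomputable def S1.pu (x y : S1 m) : S1 m :=
  ⟨x.b ∪ y.b, fun ξ => if ξ ∈ x.b then x.f ξ else y.f ξ, fun ξ => if ξ ∈ x.b then x.g ξ else y.g ξ⟩

/-- the coordinates of `y` which are not coordinates of `x` -/
def S1.diff (y x : S1 m) : S1 m := ⟨y.b \ x.b, y.f, y.g⟩

lemma S1.OK.pu (h : x.OK) (h' : y.OK) : (x.pu y).OK :=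
  S1.ok_of (mk_union_le' (kp_inf m) h.cb h'.cb) fun ξ k => by
    by_cases l : ξ ∈ x.b
    · exact ⟨x, h, l, fun _ n => Or.inl n.1, if_pos l, if_pos l⟩
    · exact ⟨y, h', k.resolve_left l, fun _ n => Or.inr n.1, if_neg l, if_neg l⟩

lemma R1.pu_left (on : Prop) (C : Cone) (T : Set K) (x y : S1 m) : R1 on C T (x.pu y) x :=
  ⟨fun _ k => Or.inl k.1, fun _ _ k _ σ _ => congrFun (if_pos k) σ,
    fun _ _ k _ μ σ _ => congrFun (congrFun (if_pos k) μ) σ⟩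

lemma R1.pu_right
    (h : on → ∀ ξ ∈ x.b, ξ ∈ y.b → ξ ∈ T → ∀ σ, (∀ ζ, C ζ σ) → x.g ξ σ = y.g ξ σ)
    (h' : ¬ on → ∀ ξ ∈ x.b, ξ ∈ y.b → ξ ∈ T → ∀ μ σ, C ξ (pull m μ.g σ) →
      x.f ξ μ σ = y.f ξ μ σ) : R1 on C T (x.pu y) y := by
  refine ⟨fun _ k => Or.inr k.1, fun o ξ k l σ n => ?_, fun o ξ k l μ σ n => ?_⟩ <;>
    by_cases e : ξ ∈ x.b
  · exact (congrFun (if_pos e) σ).trans (h o ξ e k l σ n)
  · exact congrFun (if_neg e) σ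
  · exact (congrFun (congrFun (if_pos e) μ) σ).trans (h' o ξ e k l μ σ n)
  · exact congrFun (congrFun (if_neg e) μ) σ

lemma R1.le_pu (h : R1 on C T r x) (h' : R1 on C T r (y.diff x)) : R1 on C T r (x.pu y) := by
  refine ⟨fun ξ k => ?_, fun o ξ k l σ n => ?_, fun o ξ k l μ σ n => ?_⟩ <;> by_cases e : ξ ∈ x.b
  · exact h.b ⟨e, k.2⟩
  · exact h'.b ⟨⟨k.1.resolve_left e, e⟩, k.2⟩
  · exact (h.g o ξ e l σ n).trans (congrFun (if_pos e) σ).symm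
  · exact (h'.g o ξ ⟨k.resolve_left e, e⟩ l σ n).trans (congrFun (if_neg e) σ).symm
  · exact (h.f o ξ e l μ σ n).trans (congrFun (congrFun (if_pos e) μ) σ).symm
  · exact (h'.f o ξ ⟨k.resolve_left e, e⟩ l μ σ n).trans (congrFun (congrFun (if_neg e) μ) σ).symm

lemma R1.diff (h : R1 on C T r y) (x : S1 m) : R1 on C T r (y.diff x) :=
  ⟨fun _ k => h.b ⟨k.1.1, k.2⟩, fun o ξ k => h.g o ξ k.1, fun o ξ k => h.f o ξ k.1⟩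

lemma S1.pu_act (μ : Obj m) (x y : S1 m) : (x.pu y).act μ = (x.act μ).pu (y.act μ) :=
  S1.ext rfl rfl (funext fun ξ => by
    simp only [S1.act, S1.pu]
    split_ifs <;> rfl)

lemma S1.pu_tr (g : PM) (x y : S1 m) : (x.pu y).tr g = (x.tr g).pu (y.tr g) := by
  refine S1.ext (Set.ext fun η => ⟨?_, ?_⟩) (funext fun η => ?_) (funext fun η => ?_)
  · rintro ⟨ξ, k1 | k1, k2⟩
    exacts [Or.inl ⟨ξ, k1, k2⟩, Or.inr ⟨ξ, k1, k2⟩]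
  · rintro (⟨ξ, k1, k2⟩ | ⟨ξ, k1, k2⟩)
    exacts [⟨ξ, Or.inl k1, k2⟩, ⟨ξ, Or.inr k1, k2⟩]
  all_goals
    cases e : g.inv.f η with
    | none => simp only [S1.tr, S1.pu, e, Option.bind_none, ite_self]
    | some ξ =>
      have l := PM.mem_inv.1 e
      by_cases k : ξ ∈ x.b
      · simp only [S1.tr, S1.pu, e, Option.bind_some, if_pos k, if_pos ((PM.mem_im l).2 k)]
      · simp only [S1.tr, S1.pu, e, Option.bind_some, if_neg k, if_neg (mt (PM.mem_im l).1 k)]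

variable {J : Type} [Nonempty J]

/-- union of a family -/
noncomputable def S1.un (x : J → S1 m) : S1 m :=
  ⟨⋃ j, (x j).b, fun ξ => (x (Classical.epsilon fun j => ξ ∈ (x j).b)).f ξ,
    fun ξ => (x (Classical.epsilon fun j => ξ ∈ (x j).b)).g ξ⟩

lemma S1.un_f (x : J → S1 m) {ξ : K} (h : ξ ∈ (S1.un x).b) :
    ∃ j, ξ ∈ (x j).b ∧ (S1.un x).f ξ = (x j).f ξ ∧ (S1.un x).g ξ = (x j).g ξ :=
  ⟨_, Classical.epsilon_spec (mem_iUnion.1 h), rfl, rfl⟩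

lemma S1.ok_un {x : J → S1 m} (h : ∀ j, (x j).OK) (h1 : #(⋃ j, (x j).b) ≤ kp m) : (S1.un x).OK :=
  S1.ok_of h1 fun _ k => let ⟨j, k1, k2⟩ := S1.un_f x k
    ⟨x j, h j, k1, fun _ l => mem_iUnion.2 ⟨j, l.1⟩, k2⟩

lemma R1.un_le {x : J → S1 m} (i : J)
    (h : on → ∀ j, ∀ ξ ∈ (x j).b, ξ ∈ (x i).b → ξ ∈ T → ∀ σ, (∀ ζ, C ζ σ) →
      (x j).g ξ σ = (x i).g ξ σ)
    (h' : ¬ on → ∀ j, ∀ ξ ∈ (x j).b, ξ ∈ (x i).b → ξ ∈ T → ∀ μ σ, C ξ (pull m μ.g σ) →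
      (x j).f ξ μ σ = (x i).f ξ μ σ) : R1 on C T (S1.un x) (x i) := by
  refine ⟨fun _ k => mem_iUnion.2 ⟨i, k.1⟩, fun o ξ k l σ n => ?_, fun o ξ k l μ σ n => ?_⟩ <;>
    obtain ⟨j, k1, k2, k3⟩ := S1.un_f x (mem_iUnion.2 ⟨i, k⟩)
  · rw [k3, h o j ξ k1 k l σ n]
  · rw [k2, h' o j ξ k1 k l μ σ n]

lemma R1.le_un {x : J → S1 m} (h : ∀ j, R1 on C T r (x j)) : R1 on C T r (S1.un x) := by
  refine ⟨fun _ k => ?_, fun o ξ k l σ n => ?_, fun o ξ k l μ σ n => ?_⟩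
  · obtain ⟨j, k1⟩ := mem_iUnion.1 k.1
    exact (h j).b ⟨k1, k.2⟩
  · obtain ⟨j, k1, -, k3⟩ := S1.un_f x k
    rw [k3, (h j).g o ξ k1 l σ n]
  · obtain ⟨j, k1, k2, -⟩ := S1.un_f x k
    rw [k2, (h j).f o ξ k1 l μ σ n]

end one

end Pool.Agent.Lib.MP_d4b40b_lc.W
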