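import Pool.Agent.Lib.MP_d4b40b_lc.W.Iface

set_option autoImplicit false
set_option linter.unusedSectionVars false

namespace Pool.Agent.Lib.MP_d4b40b_lc.W

open Filter Set Cardinal

variable [S : Sys] {P : Type} [Preorder P]

variable (P) in
/-- the copying properties of the forcing: `Ex α q p` says that `q` extends the part of `p`
below `α`, `DL` is the direct order, `Pr α p p'` says that the objects of `p` lift to `p'` -/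
structure Kit where
  Ex : K → P → P → Prop
  DL : P → P → Prop
  Pr : K → P → P → Prop
  Cl : K → Prop
  ex_refl : ∀ α p, Ex α p p
  ex_trans : ∀ α a b c, Ex α a b → Ex α b c → Ex α a c
  dl_le : ∀ q p, DL q p → q ≤ p
  dl_ex : ∀ α q p, DL q p → Ex α q p
  ae_cl : ∀ᶠ α in (UU : Filter K), Cl α
  copy0 : ∀ α r p, Ex α r p → ∃ r', DL r' p ∧ Ex α r' r ∧ Ex α r r'
  exists_pr : ∀ α p p', Cl α → Ex α p p' → ∃ p1, DL p1 p ∧ Pr α p1 p'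
  copy_le : ∀ α p p' r, Ex α p p' → Pr α p p' → r ≤ p →
    ∃ r1, DL r1 r ∧ ∃ r' ≤ p', Ex α r1 r' ∧ Ex α r' r1
  ae_supp : ∀ p, ∀ᶠ α in (UU : Filter K), ∀ q, Ex α q p → ∀ β, Ex β q p
  ae_inter : ∀ e, ∀ᶠ α in (UU : Filter K), ∀ q r, r ≤ e → Ex α q r → ∃ q' ≤ q, q' ≤ e
  stab0 : ∀ q : K → P, ∃ Z ∈ UU, ∀ α0 ∈ Z, ∀ α ∈ Z, ∀ x, Ex α0 x (q α0) →
    Ex α x (q α) ∧ (Pr α0 x (q α0) → Pr α x (q α))

lemma ae_pick {A B : Type} {l : Filter A} [l.NeBot] {Q : A → B → Prop}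
    (h : ∀ᶠ a in l, ∃ b, Q a b) : ∃ f : A → B, ∀ᶠ a in l, Q a (f a) := by
  obtain ⟨_, b, -⟩ := h.exists
  exact ⟨fun a => @Classical.epsilon _ ⟨b⟩ (Q a), h.mono fun _ k => Classical.epsilon_spec k⟩

namespace Kit

variable (H : Kit P)

/-- agreement below `α` -/
def Ag (α : K) (p q : P) : Prop := H.Ex α p q ∧ H.Ex α q p

/-- the splitting property at `α` -/
def Many (α : K) : Prop := ∀ (q0 : P) (Q : K → P → P → Prop),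
  (∀ δ a b a' b', Q δ a b → a' ≤ a → b' ≤ b → Q δ a' b') →
  (∀ δ δ' a b, Q δ a b → δ < δ' → δ' < α → Q δ' a b) →
  (∀ a ≤ q0, ∀ b ≤ q0, H.Ag α a b → ∃ a' ≤ a, ∃ b' ≤ b, H.Ag α a' b' ∧ ∃ δ < α, Q δ a' b') →
  ∃ δ < α, ∃ F : K → P, ∀ γ < α, F γ ≤ q0 ∧ ∀ γ' < α, γ < γ' → ∀ r ≤ F γ, ∀ r' ≤ F γ',
    H.Ag α r r' → ∃ a ≤ r, ∃ b ≤ r', H.Ag α a b ∧ Q δ a b

variable {H}

lemma Ag.refl (α : K) (p : P) : H.Ag α p p := ⟨H.ex_refl _ _, H.ex_refl _ _⟩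

lemma Ag.symm {α : K} {p q : P} (h : H.Ag α p q) : H.Ag α q p := ⟨h.2, h.1⟩

lemma Ag.trans {α : K} {p q r : P} (h : H.Ag α p q) (h' : H.Ag α q r) : H.Ag α p r :=
  ⟨H.ex_trans _ _ _ _ h.1 h'.1, H.ex_trans _ _ _ _ h'.2 h.2⟩

lemma dl_trans {α : K} {p q r : P} (h : H.DL p q) (h' : H.Ex α q r) : H.Ex α p r :=
  H.ex_trans _ _ _ _ (H.dl_ex _ _ _ h) h'

lemma cp0 {α : K} {r p : P} (h : H.Ex α r p) : ∃ r', H.DL r' p ∧ H.Ag α r' r := H.copy0 α r p h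

lemma cple {α : K} {p p' r : P} (h : H.Ex α p p') (hp : H.Pr α p p') (hr : r ≤ p) :
    ∃ r1, H.DL r1 r ∧ ∃ r' ≤ p', H.Ag α r1 r' := H.copy_le α p p' r h hp hr

lemma copy {α : K} (hα : H.Cl α) {p p' : P} (h : H.Ex α p p') :
    ∃ p1, H.DL p1 p ∧ ∀ r ≤ p1, ∃ r1 ≤ r, ∃ r' ≤ p', H.Ag α r1 r' := by
  obtain ⟨p1, h1, h2⟩ := H.exists_pr α p p' hα h
  exact ⟨p1, h1, fun r hr => (cple (dl_trans h1 h) h2 hr).imp fun _ k => ⟨H.dl_le _ _ k.1, k.2⟩⟩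

lemma ext_agree {α : K} (hα : H.Cl α) {p p' : P} (h : H.Ex α p p') {G : P → Prop}
    (hG : ∀ a b, G a → b ≤ a → G b) (hd : ∀ x ≤ p, ∃ y ≤ x, G y) :
    ∃ r ≤ p, ∃ r' ≤ p', H.Ag α r r' ∧ G r := by
  obtain ⟨p1, h1, h2⟩ := copy hα h
  obtain ⟨y, h3, h4⟩ := hd p1 (H.dl_le _ _ h1)
  obtain ⟨r, h5, r', h6, h7⟩ := h2 y h3
  exact ⟨r, (h5.trans h3).trans (H.dl_le _ _ h1), r', h6, h7, hG _ _ h4 h5⟩

variable (H)

theorem stab (q : K → P) : ∀ᶠ α0 in (UU : Filter K), ∀ x, H.Ex α0 x (q α0) →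
    ∃ x', H.DL x' x ∧ ∀ᶠ α in (UU : Filter K), H.Ex α x' (q α) ∧ H.Pr α x' (q α) := by
  obtain ⟨Z, z1, z2⟩ := H.stab0 q
  filter_upwards [z1, H.ae_cl] with α0 k1 k2 x e
  obtain ⟨x', h1, h2⟩ := H.exists_pr _ _ _ k2 e
  exact ⟨x', h1, mem_of_superset z1 fun α k =>
    (z2 α0 k1 α k x' (dl_trans h1 e)).imp id fun l => l h2⟩

theorem compat (q : K → P) : ∀ᶠ α0 in (UU : Filter K), ∀ x, H.Ex α0 x (q α0) →
    ∃ x' ≤ x, ∀ y ≤ x', ∀ᶠ α in (UU : Filter K), ∃ r ≤ y, r ≤ q α := by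
  filter_upwards [H.stab q] with α0 k x e
  obtain ⟨x', h1, h2⟩ := k x e
  refine ⟨x', H.dl_le _ _ h1, fun y hy => ?_⟩
  filter_upwards [h2, H.ae_inter y] with α k1 k2
  obtain ⟨r1, k3, r', k4, k5⟩ := cple k1.1 k1.2 hy
  obtain ⟨r, k6, k7⟩ := k2 r' r1 (H.dl_le _ _ k3) k5.2
  exact ⟨r, k7, k6.trans k4⟩

include H in
/-- the field `compat` of the interface -/
theorem compat' (q : K → P) : ∀ᶠ α0 in (UU : Filter K), ∃ x ≤ q α0, ∀ y ≤ x,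
    ∀ᶠ α in (UU : Filter K), ∃ r ≤ y, r ≤ q α :=
  (H.compat q).mono fun _ k => k _ (H.ex_refl _ _)

end Kit

variable {Z : Type} {lv : Z → K} {N : Z → P → Prop} {D : Z → Z → P → Prop}

lemma TS.node0 (T : TS lv N D) {δ : K} {Q : K → Z → Prop}
    (h : ∀ᶠ α in (UU : Filter K), ∃ z, lv z = δ ∧ (∃ p, N z p) ∧ Q α z) :
    ∃ z, lv z = δ ∧ ∀ᶠ α in (UU : Filter K), Q α z := by
  obtain ⟨z, h1, h2⟩ := ae_ex UU _ (T.small δ) (Q := Q)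
    (h.mono fun _ ⟨z, k1, k2, k3⟩ => ⟨z, ⟨k1, k2⟩, k3⟩)
  exact ⟨z, h1.1, h2⟩

lemma TS.node (T : TS lv N D) {Q : K → Z → Prop}
    (h : ∀ᶠ α in (UU : Filter K), ∃ z, lv z < α ∧ (∃ p, N z p) ∧ Q α z) :
    ∃ z, ∀ᶠ α in (UU : Filter K), Q α z := by
  obtain ⟨δ, h1⟩ := ae_press (Q := fun α δ => ∃ z, lv z = δ ∧ (∃ p, N z p) ∧ Q α z)
    (h.mono fun _ ⟨z, k1, k2⟩ => ⟨_, k1, z, rfl, k2⟩)
  exact (T.node0 h1).imp fun _ k => k.2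

namespace Kit

variable (H : Kit P)

variable (lv D) in
/-- the tree below `α` is decided by the part of the forcing below `α` -/
def Cap (α : K) : Prop := ∀ z z', lv z < α → lv z' < α → ∀ r r', D z z' r → H.Ex α r' r →
  ∃ r'' ≤ r', D z z' r''

lemma ae_cap (T : TS lv N D) : ∀ᶠ α in (UU : Filter K), H.Cap lv D α := by
  by_contra h
  have h0 := Ultrafilter.eventually_not.2 h
  obtain ⟨z, h1⟩ := T.node (Q := fun α z => ∃ z', lv z' < α ∧ (∃ p, N z' p) ∧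
      ∃ r : P × P, D z z' r.1 ∧ H.Ex α r.2 r.1 ∧ ∀ r'' ≤ r.2, ¬ D z z' r'') (by
    filter_upwards [h0] with α k
    simp only [Cap, not_forall, not_exists, not_and] at k
    obtain ⟨z, z', k1, k2, r, r', k3, k4, k5⟩ := k
    exact ⟨z, k1, ⟨r, (T.DN _ _ _ k3).1⟩, z', k2, ⟨r, (T.DN _ _ _ k3).2⟩, (r, r'), k3, k4, k5⟩)
  obtain ⟨z', h2⟩ := T.node h1
  obtain ⟨r, h3⟩ := ae_pick h2
  obtain ⟨α0, k1, -, k2, k3⟩ := ((H.compat fun α => (r α).1).and h3).exists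
  obtain ⟨x, k4, k5⟩ := k1 _ k2
  obtain ⟨α, ⟨s, k6, k7⟩, k8, -⟩ := ((k5 x le_rfl).and h3).exists
  exact k3 s (k6.trans k4) (T.Dm _ _ _ _ k8 k7)

variable (lv D) in
/-- the two conditions put different nodes of level `δ` below `w` -/
def Sep (α : K) (w : Z) (δ : K) (q q' : P) : Prop :=
  ∀ r ≤ q, ∀ r' ≤ q', H.Ag α r r' → ∀ z, lv z = δ → D z w r → ¬ D z w r'

variable (lv D) in
/-- the branch below `w` does not split below `q` -/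
def NS (α : K) (w : Z) (q : P) : Prop :=
  ∀ r ≤ q, ∀ r' ≤ q, H.Ag α r r' → ∀ z z', lv z < α → lv z = lv z' → D z w r → D z' w r' → z = z'

variable (lv N D) in
/-- the branch below `w` splits densely below `q` -/
structure Spl (α : K) (w : Z) (q : P) : Prop where
  cl : H.Cl α
  many : H.Many α
  cap : H.Cap lv D α
  lw : lv w = α
  nw : N w q
  sp : ∀ r ≤ q, ¬ H.NS lv D α w r

variable {H}

lemma Sep.mono {α δ : K} {w : Z} {a b a' b' : P} (h : H.Sep lv D α w δ a b) (h1 : a' ≤ a)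
    (h2 : b' ≤ b) : H.Sep lv D α w δ a' b' :=
  fun r k1 r' k2 => h r (k1.trans h1) r' (k2.trans h2)

lemma sep_up (T : TS lv N D) {α δ δ' : K} {w : Z} {a b : P} (h1 : H.Cl α) (h2 : H.Cap lv D α)
    (h3 : lv w = α) (h : H.Sep lv D α w δ a b) (h4 : δ < δ') (h5 : δ' < α) :
    H.Sep lv D α w δ' a b := by
  intro r k1 r' k2 e z' k3 k4 k5
  obtain ⟨r1, l1, r1', l2, l3, z, l4, l5⟩ := ext_agree h1 e.1 (G := fun y => ∃ z, lv z = δ ∧ D z w y)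
    (fun _ _ ⟨z, g1, g2⟩ e => ⟨z, g1, T.Dm _ _ _ _ g2 e⟩)
    fun x hx => T.pred w x δ (T.Nm _ _ _ (T.DN _ _ _ k4).2 hx) (h3 ▸ h4.trans h5)
  have l6 := T.lin _ _ _ _ l5 (T.Dm _ _ _ _ k4 l1) (l4 ▸ k3 ▸ h4)
  obtain ⟨p1, n1, n2⟩ := copy h1 l3.2
  obtain ⟨r2', n3, r2, n4, n5, n6⟩ := ext_agree h1 (dl_trans n1 l3.2) (G := D z z')
    (T.Dm _ _) fun x hx => by
      obtain ⟨x1, j1, x', j2, j3⟩ := n2 x hx
      obtain ⟨y, j4, j5⟩ := h2 z z' (l4 ▸ h4.trans h5) (k3 ▸ h5) x' x1 (T.Dm _ _ _ _ l6 j2) j3.1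
      exact ⟨y, j4.trans j1, j5⟩
  have n7 := (n3.trans (H.dl_le _ _ n1)).trans l2
  exact h r2 ((n4.trans l1).trans k1) r2' (n7.trans k2) n5.symm z l4 (T.Dm _ _ _ _ l5 n4)
    (T.tr _ _ _ _ n6 (T.Dm _ _ _ _ k5 n7))

lemma sep_of_ne (T : TS lv N D) {α : K} {w : Z} {a b : P} {z z' : Z} (h1 : D z w a)
    (h2 : D z' w b) (h3 : lv z = lv z') (h4 : z ≠ z') : H.Sep lv D α w (lv z) a b :=
  fun _ k1 _ k2 _ _ k3 k4 k5 =>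
  h4 ((T.uniq _ _ _ _ (T.Dm _ _ _ _ h1 k1) k4 k3.symm).trans
    (T.uniq _ _ _ _ k5 (T.Dm _ _ _ _ h2 k2) (k3.trans h3)))

lemma sep_dense (T : TS lv N D) {α : K} {w : Z} {q0 : P} (X : H.Spl lv N D α w q0) {a b : P}
    (ha : a ≤ q0) (hb : b ≤ q0) (e : H.Ag α a b) :
    ∃ a' ≤ a, ∃ b' ≤ b, H.Ag α a' b' ∧ ∃ δ < α, H.Sep lv D α w δ a' b' := by
  obtain ⟨a1, h1, h2⟩ := copy X.cl e.1
  have h1' := H.dl_le _ _ h1
  have h3 := X.sp a1 (h1'.trans ha)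
  simp only [NS, not_forall] at h3
  obtain ⟨r, k1, r', k2, k3, z, z', k4, k5, k6, k7, k8⟩ := h3
  obtain ⟨r1, l1, l2⟩ := H.exists_pr _ _ _ X.cl k3.1
  have l1' := H.dl_le _ _ l1
  obtain ⟨r2, l3, b2, l4, l5⟩ := h2 r1 (l1'.trans k1)
  obtain ⟨b5, l6, r5, l7, l8, y, l9, l10⟩ := ext_agree X.cl l5.2
    (G := fun x => ∃ y, lv y = lv z ∧ D y w x)
    (fun _ _ ⟨z, g1, g2⟩ e => ⟨z, g1, T.Dm _ _ _ _ g2 e⟩)
    fun x hx => T.pred w x _ (T.Nm _ _ _ X.nw ((hx.trans l4).trans hb)) (X.lw ▸ k4)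
  have l11 := l7.trans l3
  by_cases hy : z = y
  · obtain ⟨r6, n1, r6', n2, n3⟩ := cple (dl_trans l1 k3.1) l2 l11
    obtain ⟨b6, n4, n5⟩ := cp0 (dl_trans n1 l8.2)
    have n4' := H.dl_le _ _ n4
    exact ⟨r6', (n2.trans k2).trans h1', b6, (n4'.trans l6).trans l4, (n5.trans n3).symm, _,
      k5 ▸ k4, sep_of_ne T (T.Dm _ _ _ _ k7 n2) (T.Dm _ _ _ _ l10 n4')
        (k5.symm.trans l9.symm) (hy ▸ Ne.symm k8)⟩
  · exact ⟨r5, ((l11.trans l1').trans k1).trans h1', b5, l6.trans l4, l8.symm, _, k4,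
      sep_of_ne T (T.Dm _ _ _ _ k6 (l11.trans l1')) l10 l9.symm hy⟩

lemma sep_many (T : TS lv N D) {α : K} {w : Z} {q0 : P} (X : H.Spl lv N D α w q0) :
    ∃ δ < α, ∃ F : K → P, ∀ γ < α, F γ ≤ q0 ∧
      ∀ γ' < α, γ < γ' → H.Sep lv D α w δ (F γ) (F γ') := by
  obtain ⟨δ, h1, F, h2⟩ := X.many q0 (H.Sep lv D α w) (fun _ _ _ _ _ k => k.mono)
    (fun _ _ _ _ k => sep_up T X.cl X.cap X.lw k) fun _ k _ k' => sep_dense T X k k'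
  refine ⟨δ, h1, F, fun γ k => ⟨(h2 γ k).1, fun γ' k' l r k1 r' k2 e z k3 k4 k5 => ?_⟩⟩
  obtain ⟨a, l1, b, l2, l3, l4⟩ := (h2 γ k).2 γ' k' l r k1 r' k2 e
  exact l4 a le_rfl b le_rfl l3 z k3 (T.Dm _ _ _ _ k4 l1) (T.Dm _ _ _ _ k5 l2)

theorem not_spl (T : TS lv N D) (w : K → Z) (q : K → P) :
    ¬ ∀ᶠ α in (UU : Filter K), H.Spl lv N D α (w α) (q α) := by
  intro h
  obtain ⟨δ, h1⟩ := ae_press (h.mono fun α X => sep_many T X)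
  obtain ⟨F, h2⟩ := ae_pick h1
  have h3 : ∀ γ, ∃ z, lv z = δ ∧ (∃ p, N z p) ∧ ∃ r : K → P, ∀ᶠ α in (UU : Filter K),
      r α ≤ F α γ ∧ D z (w α) (r α) := by
    intro γ
    obtain ⟨z, k1, k2⟩ := T.node0 (δ := δ) (Q := fun α z => ∃ r ≤ F α γ, D z (w α) r) (by
      filter_upwards [h, h2, S.tail γ, S.tail δ] with α k1 k2 k3 k4
      obtain ⟨r, k5, z, k6, k7⟩ := T.pred (w α) (F α γ) δ (T.Nm _ _ _ k1.nw (k2 γ k3).1)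
        (k4.trans_eq k1.lw.symm)
      exact ⟨z, k6, ⟨r, (T.DN _ _ _ k7).1⟩, r, k5, k7⟩)
    obtain ⟨α, r, -, k3⟩ := k2.exists
    exact ⟨z, k1, ⟨r, (T.DN _ _ _ k3).1⟩, ae_pick k2⟩
  obtain ⟨z, h4, h5⟩ := T.node0 (Eventually.of_forall h3)
  obtain ⟨r, h6⟩ := ae_pick h5
  choose Y y1 y2 using fun γ => H.stab0 (r γ)
  choose a ha using fun γ => Ultrafilter.nonempty_of_mem (y1 γ)
  obtain ⟨X, x1, x2⟩ := H.stab0 fun γ => r γ (a γ)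
  obtain ⟨γ, k1, k2⟩ := (h6.and x1).exists
  obtain ⟨γ', k3, k4, k5, k6⟩ :=
    (h6.and (Eventually.and x1 ((H.ae_supp (r γ (a γ))).and (S.tail γ)))).exists
  obtain ⟨u, k7, k8⟩ := cp0 (x2 γ k2 γ' k4 _ (H.ex_refl _ _)).1
  obtain ⟨α, l1, l2, l3, l4, l5, l6⟩ := (k1.and (k3.and (Eventually.and (y1 γ)
    (Eventually.and (y1 γ') (h2.and (S.tail γ')))))).exists
  obtain ⟨r1, n1, n2⟩ := cp0 (y2 γ _ (ha γ) α l3 u (k5 u k8.1 _)).1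
  obtain ⟨r1', n3, n4⟩ := cp0 (y2 γ' _ (ha γ') α l4 u (H.dl_ex _ _ _ k7)).1
  have n1' := H.dl_le _ _ n1
  have n3' := H.dl_le _ _ n3
  exact (l5 γ (k6.trans l6)).2 γ' l6 k6 r1 (n1'.trans l1.1) r1' (n3'.trans l2.1)
    (n2.trans n4.symm) z h4 (T.Dm _ _ _ _ l1.2 n1') (T.Dm _ _ _ _ l2.2 n3')

variable (H) in
/-- the tree has a cofinal branch -/
theorem branch (hM : ∀ᶠ α in (UU : Filter K), H.Many α) (Z : Type) (lv : Z → K)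
    (N : Z → P → Prop) (D : Z → Z → P → Prop) (T : TS lv N D) (p : P)
    (hex : ∀ δ, ∃ q ≤ p, ∃ z, lv z = δ ∧ N z q) :
    ∃ r ≤ p, ∃ B : Z → P → Prop, (∀ z a b, B z a → b ≤ a → B z b) ∧ (∀ z e, B z e → N z e) ∧
      (∀ δ, ∀ e ≤ r, ∃ e' ≤ e, ∃ z, lv z = δ ∧ B z e') ∧
      ∀ z z' e, B z e → B z' e → lv z ≤ lv z' → z = z' ∨ ∃ e' ≤ e, D z z' e' := by
  choose q0 h1 w h2 h3 using hex
  have h4 : ∀ᶠ α in (UU : Filter K), ∃ q ≤ q0 α, H.NS lv D α (w α) q := by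
    filter_upwards [Ultrafilter.eventually_not.2 (not_spl (H := H) T w q0), H.ae_cl, hM,
      H.ae_cap T] with α k1 k2 k3 k4
    by_contra k5
    exact k1 ⟨k2, k3, k4, h2 α, h3 α, fun r l1 l2 => k5 ⟨r, l1, l2⟩⟩
  obtain ⟨q, h5⟩ := ae_pick h4
  obtain ⟨α0, k1, k2, -⟩ := ((H.compat q).and h5).exists
  obtain ⟨r, k3, k4⟩ := k1 _ (H.ex_refl _ _)
  refine ⟨r, (k3.trans k2).trans (h1 _), fun z e => N z e ∧ ∀ e' ≤ e, ∀ᶠ α in (UU : Filter K),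
    ∃ s ≤ q α, s ≤ e' ∧ D z (w α) s, fun z a b k l => ⟨T.Nm _ _ _ k.1 l, fun e' l' =>
      k.2 e' (l'.trans l)⟩, fun _ _ k => k.1, fun δ e he => ?_, fun z z' e b b' l => ?_⟩
  · obtain ⟨z, l1, l2⟩ := T.node0 (δ := δ) (Q := fun α z => ∃ s ≤ q α, s ≤ e ∧ D z (w α) s) (by
      filter_upwards [k4 e he, h5, S.tail δ] with α ⟨s, l1, l2⟩ l3 l4
      obtain ⟨s', l5, z, l6, l7⟩ := T.pred (w α) s δ (T.Nm _ _ _ (h3 α) (l2.trans l3.1))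
        ((h2 α).symm ▸ l4)
      exact ⟨z, l6, ⟨s', (T.DN _ _ _ l7).1⟩, s', l5.trans l2, l5.trans l1, l7⟩)
    obtain ⟨s, l3⟩ := ae_pick l2
    obtain ⟨α1, l4, -, l5, l6⟩ := ((H.compat s).and l3).exists
    obtain ⟨x, l7, l8⟩ := l4 _ (H.ex_refl _ _)
    refine ⟨x, l7.trans l5, z, l1, T.Nm _ _ _ (T.DN _ _ _ l6).1 l7, fun e' l9 => ?_⟩
    filter_upwards [l8 e' l9, l3] with α ⟨y, n1, n2⟩ n3
    exact ⟨y, n2.trans n3.1, n1, T.Dm _ _ _ _ n3.2.2 n2⟩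
  · obtain ⟨s, l3⟩ := ae_pick (b.2 e le_rfl)
    obtain ⟨α1, l4, -, l5, -⟩ := ((H.stab s).and l3).exists
    obtain ⟨x, l7, l8⟩ := l4 _ (H.ex_refl _ _)
    have l7' := H.dl_le _ _ l7
    obtain ⟨α, ⟨n1, n2⟩, ⟨s', n3, n4, n5⟩, n6, n7, n8, n9⟩ := (l8.and ((b'.2 x (l7'.trans l5)).and
      (l3.and (h5.and (H.ae_cl.and (S.tail (lv z'))))))).exists
    obtain ⟨r1, j1, r', j2, j3⟩ := cple n1 n2 n4
    have j1' := H.dl_le _ _ j1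
    have j4 := T.Dm _ _ _ _ n5 j1'
    have j5 := T.Dm _ _ _ _ n6.2.2 j2
    rcases l.eq_or_lt with l | l
    · exact Or.inl (n7.2 r1 (j1'.trans n3) r' (j2.trans n6.1) j3 z' z n9 l.symm j4 j5).symm
    · obtain ⟨r2, j6, r2', j7, j8, y, j9, j10⟩ := ext_agree n8 j3.1
        (G := fun x => ∃ y, lv y = lv z ∧ D y (w α) x)
        (fun _ _ ⟨z, g1, g2⟩ e => ⟨z, g1, T.Dm _ _ _ _ g2 e⟩)
        fun x hx => T.pred _ x _ (T.Nm _ _ _ (T.DN _ _ _ j4).2 hx) ((h2 α).symm ▸ l.trans n9)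
      obtain rfl := n7.2 r2 ((j6.trans j1').trans n3) r2' ((j7.trans j2).trans n6.1) j8 y z
        (j9 ▸ l.trans n9) j9 j10 (T.Dm _ _ _ _ j5 j7)
      exact Or.inr ⟨r2, (((j6.trans j1').trans n4).trans l7').trans l5,
        T.lin _ _ _ _ j10 (T.Dm _ _ _ _ j4 j6) l⟩

end Kit

end Pool.Agent.Lib.MP_d4b40b_lc.W
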