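import Pool.Agent.Lib.MP_d4b40b_lc.W.Prik
import Pool.Agent.Lib.MP_d4b40b_lc.W.TreeA

set_option autoImplicit false
set_option linter.unusedSectionVars false

namespace Pool.Agent.Lib.MP_d4b40b_lc.W

open Filter Set Cardinal

variable [S : Sys] [X : Ext S]

variable {β n : I} {α : K}

lemma fam_lim {Z J : Type} [Nonempty J] (hβ : β < ⊤) (hJ : #J ≤ kp β) (f : J → Z → Cond)
    (hf : ∀ i x y, Ex α (f i x) (f i y))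
    (ht : ∀ i j, (∀ x, Fix β (f i x) (f j x)) ∨ ∀ x, Fix β (f j x) (f i x)) :
    ∃ g : Z → Cond, (∀ x y, Ex α (g x) (g y)) ∧ (∀ i x, Fix β (g x) (f i x)) ∧
      ∀ x, IsLim (fun i => f i x) (g x) := by
  choose g g1 g2 using fun x => exists_lim hβ hJ (fun i => f i x)
    fun i j => (ht i j).imp (· x) (· x)
  exact ⟨g, fun x y => (g1 y).le_ex fun i => (((g1 x).dle i).ex α).trans (hf i x y),
    fun i x => g2 x i, g1⟩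

theorem fam_meet {Z : Type} (hβ : β < ⊤) {T : Type} (hT : #T ≤ kp β)
    (G : T → (Z → Cond) → Prop) (p : Z → Cond) (hp : ∀ x y, Ex α (p x) (p y))
    (hop : ∀ τ a b, G τ a → (∀ x, Fix β (b x) (a x)) → G τ b)
    (hd : ∀ τ (q : Z → Cond), (∀ x y, Ex α (q x) (q y)) → (∀ x, Fix β (q x) (p x)) →
      ∃ r : Z → Cond, (∀ x y, Ex α (r x) (r y)) ∧ (∀ x, Fix β (r x) (q x)) ∧ G τ r) :
    ∃ q : Z → Cond, (∀ x y, Ex α (q x) (q y)) ∧ (∀ x, Fix β (q x) (p x)) ∧ ∀ τ, G τ q := by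
  obtain ⟨q, h1, h2⟩ := seq_meet (S := {f : Z → Cond // ∀ x y, Ex α (f x) (f y)})
    (fun a b => ∀ x, Fix β (a.1 x) (b.1 x)) (fun _ _ => Fix.refl _ _)
    (fun _ _ _ k k' x => (k x).trans (k' x)) (ρ := kp β)
    (fun J f _ hJ ht =>
      let ⟨g, g1, g2, _⟩ := fam_lim hβ hJ (fun i => (f i).1) (fun i => (f i).2) ht
      ⟨⟨g, g1⟩, g2⟩) hT (fun τ a => G τ a.1) (fun τ a b => hop τ a.1 b.1) ⟨p, hp⟩
    fun τ a ha => let ⟨r, k1, k2, k3⟩ := hd τ a.1 a.2 ha; ⟨⟨r, k1⟩, k2, k3⟩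
  exact ⟨q.1, q.2, h1, h2⟩

lemma exists_split_res {a p : Cond} (h : a ≤ p) (h1 : β ∈ a.u) (h2 : β ∉ p.u)
    (h3 : ∀ c ∈ a.u, β < c → c = ⊤) :
    ∃ μ, Adm p β μ ∧ μ.g.dom ⊆ p.b β ∧ UpLe β a (act p β μ) := by
  obtain ⟨μ, k1, k2⟩ := le_split h h1 h2
  have k3 := k1.agr (μ.agr_res _)
  exact ⟨_, k3, μ.dom_res_sub _, k2.trans (act_agr k3 (μ.agr_res _).symm).le,
    fun c l1 l2 => h3 c l1 l2 ▸ Cond.top _⟩

theorem fam_diag {Z : Type} (hβ : β < ⊤) (hZ : #Z ≤ kp β) (p : Z → Cond)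
    (hp : ∀ x y, Ex α (p x) (p y)) (hz : ∀ x, Z0 (p x).u ⊤ β) {Q : Cond → Cond → Prop}
    (hQ : ∀ a b a' b', Q a b → a' ≤ a → b' ≤ b → Q a' b') :
    ∃ q : Z → Cond, (∀ x y, Ex α (q x) (q y)) ∧ (∀ x, Fix β (q x) (p x)) ∧
      ∃ W : Set (Cond × Cond), #W ≤ kp β ∧ (∀ u ∈ W, Q u.1 u.2) ∧
        ∀ x y, x ≠ y → ∀ a ≤ q x, ∀ b ≤ q y, β ∈ a.u → (∀ c ∈ a.u, β < c → c = ⊤) → Agree α a b →
          Q a b → ∃ u ∈ W, a ≤ u.1 ∧ b ≤ u.2 := by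
  obtain ⟨L, l1, l2⟩ := low_reps hβ
  let ts : Z × Z × Obj β × Obj β × L → Set (Z × K) := fun τ =>
    {τ.1} ×ˢ τ.2.2.1.g.dom ∪ {τ.2.1} ×ˢ τ.2.2.2.1.g.dom
  have h3 : ∀ B : Set (Z × K), #B ≤ kp β → #{τ | ts τ ⊆ B} ≤ kp β := fun B hB => by
    have o := mk_obj hβ (b := Prod.snd '' B) (mk_image_le.trans hB)
    refine (mk_le_mk_of_subset (s := {τ | ts τ ⊆ B}) (t := Set.univ ×ˢ Set.univ ×ˢ
      {μ : Obj β | μ.g.dom ⊆ Prod.snd '' B} ×ˢ {μ : Obj β | μ.g.dom ⊆ Prod.snd '' B} ×ˢ Set.univ)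
      fun τ k => ⟨trivial, trivial, fun ξ l => ⟨(τ.1, ξ), k (Or.inl ⟨rfl, l⟩), rfl⟩,
        fun ξ l => ⟨(τ.2.1, ξ), k (Or.inr ⟨rfl, l⟩), rfl⟩, trivial⟩).trans ?_
    exact mk_sprod_le' (kp_inf β) (mk_univ.trans_le hZ) (mk_sprod_le' (kp_inf β)
      (mk_univ.trans_le hZ) (mk_sprod_le' (kp_inf β) o (mk_sprod_le' (kp_inf β) o
        (mk_univ.trans_le l1))))
  have h1 : ∀ f : Z → Cond, #{z : Z × K | z.2 ∈ (f z.1).b β} ≤ kp β := fun f =>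
    (mk_le_mk_of_subset (t := ⋃ x, {x} ×ˢ (f x).b β) fun z k =>
      mem_iUnion.2 ⟨z.1, rfl, k⟩).trans (mk_iUnion_le' (kp_inf β) hZ fun x =>
        mk_sprod_le' (kp_inf β) (by simpa using one_lt_aleph0.le.trans (kp_inf β)) ((f x).cb hβ))
  have one : ∀ x : Z, #({x} : Set Z) < kp β := fun x => by
    simpa using one_lt_aleph0.trans_le (kp_inf β)
  have key : ∀ {f g a d : Cond} {μ : Obj β}, DLe g f → Adm g β μ → a ≤ act g β μ → Lw β d a →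
      DLe (mix β d (act g β μ)) (mix β d (act f β μ)) := fun e k1 k2 k3 =>
    ((LL.of_le k2 (act_on k1)).lw_left k3).dle_right (act_mono e k1)
  have lw : ∀ {f a b d : Cond} {μ : Obj β}, Adm f β μ → b ≤ act f β μ → Ex α a b → Lw β d a →
      β ∈ b.u ∧ Lw β d b := fun k1 k2 k3 k4 =>
    ⟨u_mono k2 (act_on k1), k4.trans (k3.lw hβ (u_mono k2 (act_on k1)))⟩
  obtain ⟨q, q1, q2⟩ := clo_meet (S := {f : Z → Cond // ∀ x y, Ex α (f x) (f y)})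
    (fun a b => ∀ x, Fix β (a.1 x) (b.1 x)) (fun _ _ => Fix.refl _ _)
    (fun _ _ _ k k' x => (k x).trans (k' x)) (inacc_kp β).isRegular
    (fun f => {z : Z × K | z.2 ∈ (f.1 z.1).b β}) (fun f => h1 f.1) ts
    (fun τ => mk_union_lt' (kp_inf β) (mk_sprod_lt' (kp_inf β) (one _) (mk_dom_lt hβ _))
      (mk_sprod_lt' (kp_inf β) (one _) (mk_dom_lt hβ _))) h3 (fun a b k z l => (k z.1).1.b hβ l)
    (fun J f _ hJ ht =>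
      let ⟨g, g1, g2, g3⟩ := fam_lim hβ hJ (fun i => (f i).1) (fun i => (f i).2) ht
      ⟨⟨g, g1⟩, g2, fun z k => let ⟨i, l⟩ := mem_iUnion.1 (((g3 z.1).b β).le k)
        mem_iUnion.2 ⟨i, l⟩⟩)
    (fun τ f => τ.1 ≠ τ.2.1 → ∀ a b, Adm (f.1 τ.1) β τ.2.2.1 → Adm (f.1 τ.2.1) β τ.2.2.2.1 →
      UpLe β a (act (f.1 τ.1) β τ.2.2.1) → UpLe β b (act (f.1 τ.2.1) β τ.2.2.2.1) → Agree α a b →
      Lw β τ.2.2.2.2.1 a → Q a b → Q (mix β τ.2.2.2.2.1 (act (f.1 τ.1) β τ.2.2.1))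
        (mix β τ.2.2.2.2.1 (act (f.1 τ.2.1) β τ.2.2.2.1)))
    (fun τ f g k e hne a b a1 a2 e1 e2 e3 e4 e5 => hQ _ _ _ _ (k hne a b (a1.dle (e _).1)
      (a2.dle (e _).1) (e1.trans_dle (act_mono (e _).1 a1)) (e2.trans_dle (act_mono (e _).1 a2))
      e3 e4 e5) (key (e _).1 a1 e1.1 e4).le (key (e _).1 a2 e2.1 (lw a2 e2.1 e3.1 e4).2).le)
    ⟨p, hp⟩ (by
      rintro ⟨x, y, μ, μ', d, d0⟩ ⟨f, hf⟩ k0 k1
      dsimp only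
      by_cases hx : x ≠ y ∧ ∃ a b, Adm (f x) β μ ∧ Adm (f y) β μ' ∧ UpLe β a (act (f x) β μ) ∧
        UpLe β b (act (f y) β μ') ∧ Agree α a b ∧ Lw β d a ∧ Q a b
      · obtain ⟨hne, a, b, a1, a2, e1, e2, e3, e4, e5⟩ := hx
        have d2 : μ'.g.dom ⊆ (f y).b β := fun ξ l => k1 (a := (y, ξ)) (Or.inr ⟨rfl, l⟩)
        obtain ⟨f1, g1, g2, g3, g4⟩ := fam_pull f hf x ((k0 x).1.u ▸ hz x) a1
          (fun ξ l => k1 (a := (x, ξ)) (Or.inl ⟨rfl, l⟩)) e1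
        obtain ⟨f2, g5, g6, g7, -⟩ := fam_pull f1 g2 y (((g1 y).trans (k0 y)).1.u ▸ hz y)
          ((g1 y).adm a2) (d2.trans ((g1 y).1.b hβ)) (g4 y hne.symm μ' b a2 d2 e2 e3.2)
        exact ⟨⟨f2, g6⟩, fun z => (g5 z).trans (g1 z), fun _ a' _ a3 _ e6 _ _ e7 _ =>
          hQ _ _ _ _ e5 ((key (g5 x).1 a3 e6.1 e7).trans
            ((mix_l (u_mono e1.1 (act_on a1)) e4 _).trans g3)).le
            ((mix_l (lw a2 e2.1 e3.1 e4).1 (lw a2 e2.1 e3.1 e4).2 _).trans g7).le⟩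
      · exact ⟨⟨f, hf⟩, fun _ => Fix.refl _ _, fun hne a b a1 a2 e1 e2 e3 e4 e5 =>
          absurd ⟨hne, a, b, a1, a2, e1, e2, e3, e4, e5⟩ hx⟩)
  refine ⟨q.1, q.2, q1, {u | Q u.1 u.2} ∩ (fun τ : Z × Z × Obj β × Obj β × L =>
    (mix β τ.2.2.2.2.1 (act (q.1 τ.1) β τ.2.2.1), mix β τ.2.2.2.2.1 (act (q.1 τ.2.1) β τ.2.2.2.1))) ''
      {τ | ts τ ⊆ {z : Z × K | z.2 ∈ (q.1 z.1).b β}},
    (mk_le_mk_of_subset inter_subset_right).trans (mk_image_le.trans (h3 _ (h1 q.1))),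
    fun _ k => k.1, fun x y hne a k1 b k2 o k3 e k4 => ?_⟩
  have off : ∀ x, β ∉ (q.1 x).u := fun x o => lt_irrefl _ (hz x β ((q1 x).1.u ▸ o) hβ)
  obtain ⟨μ, a1, d1, e1⟩ := exists_split_res k1 o (off x) k3
  obtain ⟨μ', a2, d2, e2⟩ := exists_split_res k2 (e.1.u ▸ o) (off y) (e.1.u ▸ k3)
  obtain ⟨d, k5, k6, k7⟩ := l2 a o
  have k8 : ts (x, y, μ, μ', ⟨d, k5⟩) ⊆ {z : Z × K | z.2 ∈ (q.1 z.1).b β} := by
    rintro ⟨_, ξ⟩ (⟨rfl, l⟩ | ⟨rfl, l⟩)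
    exacts [d1 l, d2 l]
  exact ⟨_, ⟨q2 _ k8 hne a b a1 a2 e1 e2 e k7 k4, _, k8, rfl⟩,
    ((e1.dle_mix (act_on a1)).trans (mix_l (k6.on.1 o) k6 _)).le,
    ((e2.dle_mix (act_on a2)).trans (mix_l (k6.on.1 o) ((e.2.lw hβ o).trans k6) _)).le⟩

lemma Cf.bound (hα : Cf α) {J : Type} (hJ : #J ≤ ks) {R : J → K → Prop}
    (h : ∀ j, ∃ δ < α, R j δ) : ∃ δ < α, ∀ j, ∃ δ' < δ, R j δ' := by
  choose f f1 f2 using h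
  exact (hα (range f) (range_subset_iff.2 f1) (mk_range_le.trans hJ)).imp
    fun δ k => ⟨k.1, fun j => ⟨f j, k.2 (mem_range_self j), f2 j⟩⟩

theorem sep_fam {Z : Type} (hn : n < ⊤) (hZ : #Z ≤ kp n) (hα : Cf α) (p : Z → Cond)
    (hp : ∀ x y, Ex α (p x) (p y)) (hz : ∀ x, Z0 (p x).u ⊤ n) (Q : K → Cond → Cond → Prop)
    (hQ : ∀ δ a b a' b', Q δ a b → a' ≤ a → b' ≤ b → Q δ a' b')
    (hQ' : ∀ δ δ' a b, Q δ a b → δ < δ' → δ' < α → Q δ' a b) :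
    ∃ q : Z → Cond, (∀ x y, Ex α (q x) (q y)) ∧ (∀ x, Fix n (q x) (p x)) ∧
      ∃ δ < α, ∀ x y, x ≠ y → ∀ a ≤ q x, ∀ b ≤ q y, n ∈ a.u → Agree α a b →
        (∃ δ' < α, Q δ' a b) → Q δ a b := by
  obtain ⟨q, h1, h2, h3⟩ := fam_meet hn (T := Ico n ⊤)
    ((mk_set_le _).trans ((I_le_pre n).trans (pre_lt n).le))
    (fun β f => ∃ δ < α, ∀ x y, x ≠ y → ∀ a ≤ f x, ∀ b ≤ f y, β.1 ∈ a.u →
      (∀ c ∈ a.u, β.1 < c → c = ⊤) → Agree α a b → (∃ δ' < α, Q δ' a b) → Q δ a b) p hp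
    (fun β f g ⟨δ, k1, k2⟩ e => ⟨δ, k1, fun x y l a l1 b l2 =>
      k2 x y l a (l1.trans (e x).1.le) b (l2.trans (e y).1.le)⟩)
    (fun β f hf e => by
      obtain ⟨g, k1, k2, W, k3, k4, k5⟩ := fam_diag β.2.2 (hZ.trans (kp_mono β.2.1)) f hf
        (fun x => (e x).1.u ▸ (hz x).mono le_rfl β.2.1) (Q := fun a b => ∃ δ < α, Q δ a b)
        fun _ _ _ _ ⟨δ, l1, l2⟩ l3 l4 => ⟨δ, l1, hQ _ _ _ _ _ l2 l3 l4⟩
      obtain ⟨δ, k6, k7⟩ := hα.bound (J := W) (k3.trans (kp_lt_ks β.2.2).le)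
        (R := fun u δ => Q δ u.1.1 u.1.2) fun u => k4 u.1 u.2
      refine ⟨g, k1, fun x => (k2 x).mono β.2.1, δ, k6, fun x y l a l1 b l2 l3 l4 l5 l6 => ?_⟩
      obtain ⟨u, l7, l8, l9⟩ := k5 x y l a l1 b l2 l3 l4 l5 l6
      obtain ⟨δ', n1, n2⟩ := k7 ⟨u, l7⟩
      exact hQ' _ _ _ _ (hQ _ _ _ _ _ n2 l8 l9) n1 k6)
  obtain ⟨δ, h4, h5⟩ := hα.bound ((mk_set_le _).trans (I_le_pre ⊤)) h3
  refine ⟨q, h1, h2, δ, h4, fun x y l a l1 b l2 l3 l4 l5 => ?_⟩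
  obtain ⟨β, ⟨k1, k2⟩, k3⟩ := exists_max_image (a.u ∩ Iio ⊤) id (a.lo.fin.inter_of_left _)
    ⟨n, l3, hn⟩
  obtain ⟨δ', k4, k5⟩ := h5 ⟨β, k3 n ⟨l3, hn⟩, k2⟩
  exact hQ' _ _ _ _ (k5 x y l a l1 b l2 k1 (fun c n1 n2 => by_contra fun n3 =>
    n2.not_ge (k3 c ⟨n1, lt_top_iff_ne_top.2 n3⟩)) l4 l5) k4 h4

end Pool.Agent.Lib.MP_d4b40b_lc.W
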