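import Pool.Agent.Lib.MP_d4b40b_lc.W.Diag
import Pool.Agent.Lib.MP_d4b40b_lc.W.Rf

set_option autoImplicit false
set_option linter.unusedSectionVars false
set_option linter.style.haveILetI false

namespace Pool.Agent.Lib.MP_d4b40b_lc.W

open Filter Set Cardinal

variable [S : Sys] [X : Ext S]

variable {p : Cond} {β : I}

/-- replacing the part below a level which is not activated -/
theorem exists_low (l : β ∉ p.u) {w : Raw} (h1 : LoOK β w) (h2 : Lo β univ True w p.1)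
    (h3 : w.a β ⊆ p.b β) (h4 : ∀ γ < β, γ ∉ p.u → ∀ c, Host p.u γ c → w.A γ ∈ X.E (p.cr c) γ) :
    ∃ q, DLe q p ∧ Lo β univ True q.1 w := by
  classical
  obtain ⟨r, a0, a1, a2, b0, b1, b2⟩ : ∃ r : Raw, (∀ m ≤ β, r.s0 m = w.s0 m) ∧
      (∀ m < β, r.s1 m = w.s1 m) ∧ (∀ m < β, r.s2 m = w.s2 m) ∧ (∀ m, β < m → r.s0 m = p.1.s0 m) ∧
      (∀ m, β ≤ m → r.s1 m = p.1.s1 m) ∧ ∀ m, β ≤ m → r.s2 m = p.1.s2 m :=
    ⟨⟨fun m => if m ≤ β then w.s0 m else p.1.s0 m, fun m => if m < β then w.s1 m else p.1.s1 m,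
      fun m => if m < β then w.s2 m else p.1.s2 m⟩, fun _ k => if_pos k, fun _ k => if_pos k,
      fun _ k => if_pos k, fun _ k => if_neg k.not_ge, fun _ k => if_neg k.not_gt,
      fun _ k => if_neg k.not_gt⟩
  have at2 : ∀ m, At True (r.s2 m) (p.1.s2 m) := fun m => by
    rcases lt_or_ge m β with k | k
    · rw [a2 m k]; exact (h2.s2 m k).mono fun _ _ _ => trivial
    · rw [b2 m k]; exact At.refl _ _
  have hu : r.u = p.1.u := Set.ext fun m => (at2 m).on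
  have lo : LoOK ⊤ r := by
    refine ⟨hu ▸ p.lo.fin, fun m k => ?_, fun m k => ?_, fun m k => ?_, fun γ m k1 k2 k3 => ?_⟩
    · rcases le_or_gt m β with n | n
      · rw [a0 m n]; exact h1.s0 m n
      · rw [b0 m n]; exact p.lo.s0 m k
    · rcases lt_or_ge m β with n | n
      · rw [a1 m n]; exact h1.s1 m n
      · rw [b1 m n]; exact p.lo.s1 m k
    · rcases lt_trichotomy m β with n | rfl | n
      · rw [Raw.a, Raw.b, a0 m n.le, a1 m n, a2 m n]; exact h1.s2 m n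
      · rw [Raw.a, Raw.b, a0 m le_rfl, b1 m le_rfl, b2 m le_rfl]
        exact ⟨p.inv, fun _ => h3, fun o => absurd o l, fun o => absurd o l⟩
      · rw [Raw.a, Raw.b, b0 m n, b1 m n.le, b2 m n.le]; exact p.lo.s2 m k
    · rw [hu] at k3
      rcases le_or_gt m β with n | n
      · rw [Raw.a, Raw.b, a0 m n, a1 γ (k1.trans_le n)]
        exact h1.nest γ m k1 n ((h2.blk n).2 k3)
      · rw [Raw.a, Raw.b, b0 m n]
        rcases lt_or_ge γ β with n' | n'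
        · rw [a1 γ n']
          exact (h1.nest γ β n' le_rfl ((h2.blk le_rfl).2 (k3.mono le_rfl n.le))).trans
            (h3.trans (p.lo.nest β m n k2 (k3.mono n'.le le_rfl)))
        · rw [b1 γ n']; exact p.lo.nest γ m k1 k2 k3
  have ok : OK r := by
    refine ⟨lo, hu ▸ p.top, ((at2 ⊤).cr p.top).trans p.ok.root, fun γ c k1 k2 => ?_⟩
    rw [hu] at k1 k2
    rw [show r.cr c = p.cr c from (at2 c).cr k2.mem, Raw.A]
    rcases lt_or_ge γ β with n | n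
    · rw [a2 γ n]; exact h4 γ n k1 c k2
    · rw [b2 γ n]; exact p.ok.big γ c k1 k2
  have lw : Lo β univ True r w := Lo.of_congr a0 a1 fun m k => a2 m k ▸ At.refl _ _
  have l2 := lw.trans isLowerSet_univ h2
  refine ⟨ok.cond, (lo_norm r _ _ _).trans isLowerSet_univ (Lo.of_cone isLowerSet_univ p.lo.s1
    ⟨fun m _ => ?_, fun m _ => ?_, fun m _ => (at2 m).mono fun _ _ => trivial⟩),
    (lo_norm r _ _ _).trans isLowerSet_univ lw⟩
  · rcases le_or_gt m β with n | n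
    · exact (l2.s0 m n).mono (fun _ _ _ => trivial) fun _ _ _ => id
    · rw [b0 m n]; exact R0.refl _ _ _
  · rcases lt_or_ge m β with n | n
    · exact (l2.s1 m n).mono Iff.rfl (fun _ _ _ => trivial) (fun _ _ _ _ => id) fun _ _ => id
    · rw [b1 m n]; exact R1.refl _ _ _ _

lemma host_eq {u : Set I} {c c' : I} (h : Host u β c) (h' : Host u β c') : c = c' :=
  host_uniq h.blk h'.blk h.mem h'.mem h.lt h'.lt

/-- shrinking to an invariant property -/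
lemma exists_shrinkQ (l : β ∉ p.u) {c : I} (hc : Host p.u β c) {Q : Obj β → Prop}
    (h1 : ∀ μ ν, Adm p β μ → Agr (p.b β) μ ν → Q μ → Q ν)
    (h2 : ∀ᶠ μ in (X.E (p.cr c) β : Filter (Obj β)), Q μ) :
    ∃ q, DLe q p ∧ ∀ μ, Adm q β μ → Q μ := by
  obtain ⟨q, k1, -, k2, -⟩ := exists_shrink1 l (B := {μ | Adm p β μ ∧ Q μ})
    (fun μ ν e k => ⟨k.1.agr e, h1 μ ν k.1 e k.2⟩) fun c' k => host_eq hc k ▸ (p.ae_adm l hc).and h2
  exact ⟨q, k1, fun μ a => (k2 a.2).2⟩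

lemma DLe.host {q : Cond} (h : DLe q p) {c : I} (hc : Host p.u β c) :
    Host q.u β c ∧ q.cr c = p.cr c := ⟨h.u ▸ hc, h.cr hc.mem⟩

theorem exists_pull (l : β ∉ p.u) (d : Obj β → Cond) (h1 : ∀ μ ν, Agr (p.b β) μ ν → d μ = d ν)
    (h2 : ∀ μ, Adm p β μ → β ∈ (d μ).u ∧ (d μ).cr β = μ.c ∧ Lb β (d μ) (act p β μ)) :
    ∃ q, DLe q p ∧ ∀ μ, Adm q β μ → Lb β (act q β μ) (d μ) := by
  have hβ := Cond.lt_top l
  obtain ⟨c, hc⟩ := p.exists_host hβ
  haveI := X.cpl (p.cr c) β hc.lt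
  obtain ⟨B, b1, b2, b3⟩ := pull_set (p.cr c) hc.lt (p.b_dm hc) (p.cb hβ) (pre_lt β)
    (fun μ => (d μ).a β) (fun μ ν e => by rw [h1 μ ν e]) ((p.ae_adm l hc).mono fun μ a =>
      ⟨(h2 μ a).2.1 ▸ (d μ).a_dm (h2 μ a).1, (d μ).ca β⟩)
  have dl : ∀ μ, LoOK β (d μ).1 := fun μ => (d μ).lo.mono le_top
  have pl : LoOK β p.1 := p.lo.mono le_top
  let T : Obj β → Raw := fun μ => (d μ).1.rf β μ.g.inv
  let Z : Set (Obj β) := {μ | Adm p β μ ∧ B ⊆ μ.g.dom ∧ μ.g.im B = (d μ).a β}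
  have z0 : ∀ᶠ μ in (X.E (p.cr c) β : Filter (Obj β)), μ ∈ Z := (p.ae_adm l hc).and b3
  have z1 : ∀ μ ∈ Z, (T μ).a β ⊆ B := fun μ k ξ n => by
    rw [XP.a_self, ← show μ.g.im B = (d μ).1.a β from k.2.2] at n
    obtain ⟨η, n1, n2⟩ := n
    exact (PM.mem_im (PM.mem_inv.1 n2)).1 n1
  have z2 : ∀ μ ∈ Z, (d μ).1.a β ⊆ μ.g.inv.dom := fun μ k η n =>
    let ⟨ξ, _, n2⟩ := k.2.2.ge n; ⟨ξ, PM.mem_inv.2 n2⟩
  have z3 : ∀ μ ∈ Z, Lo β univ True (d μ).1 (p.1.rf β μ.g) := fun μ k => by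
    have := (h2 μ k.1).2.2
    rw [Lb, act_val k.1] at this
    exact this.trans isLowerSet_univ (XP.lo_act μ).1
  have z4 : ∀ μ ∈ Z, ∀ m < β, m ∈ (d μ).1.u ↔ m ∈ p.1.u := fun μ k m n => by
    rw [(z3 μ k).u n, XP.rf_u]
  have hi := (pre_inf β).trans (cantor _).le
  obtain ⟨L, l1, l2, l3⟩ := cnt_fam (B := 2 ^ (2 ^ pre β : Cardinal.{0})) (ρ := pre β)
    (hi.trans (cantor _).le) (by rw [← power_mul, mul_eq_self hi]) le_rfl
    (b2.trans ((cantor _).le.trans (cantor _).le)) T Z fun μ k => ⟨XP.ok_rf (dl μ) _, z1 μ k⟩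
  obtain ⟨μ0, m1, m2⟩ := ae_ex _ _ (l2.trans_lt ((inacc_kp β).isStrongPrelimit
    ((inacc_kp β).isStrongPrelimit (pre_lt β)))) (z0.mono l3)
  have m0 := l1 m1
  have w1 : LoOK β (T μ0) := XP.ok_rf (dl μ0) _
  have w2 : Lo β univ True (T μ0) p.1 := (XP.lo_rf (z3 μ0 m0) (dl μ0) (XP.ok_rf pl _)
    (z2 μ0 m0)).trans isLowerSet_univ (XP.lo_back pl m0.1.dom)
  obtain ⟨p1, f1, g1⟩ := exists_grow1 l (b2.trans (pre_lt β).le) fun c' k => host_eq hc k ▸ b1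
  obtain ⟨q, q1, q2⟩ := exists_low (p := p1) (f1.1.u ▸ l) w1 (w2.trans isLowerSet_univ f1.2.1)
    ((z1 μ0 m0).trans g1) (fun γ k1 k2 c' k3 => by
      rw [f1.1.u] at k2 k3
      rw [f1.1.cr k3.mem]
      rcases lt_or_ge c' β with n | n
      · have n1 : ∀ m ≤ c', m ∈ (d μ0).1.u ↔ m ∈ p.1.u := fun m j => z4 μ0 m0 m (j.trans_lt n)
        rw [Raw.A, XP.s2_neg (not_blk ((n1 c' le_rfl).2 k3.mem) k3.lt n),
          ← show (d μ0).1.cr c' = p.cr c' from (XP.rf_cr c').symm.trans ((w2.s2 c' n).cr k3.mem)]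
        exact (d μ0).ok.big γ c' (mt (n1 γ k3.lt.le).1 k2)
          ⟨(n1 c' le_rfl).2 k3.mem, k3.lt, k3.blk.sub fun δ j _ j' => (n1 δ j'.le).1 j⟩
      · have n1 : blk p.u γ β := k3.blk.mono le_rfl n
        obtain rfl := host_eq (hc.below l k1 n1) k3
        have n2 : γ ∉ (T μ0).u := mt (w2.u k1).1 k2
        have n3 := w1.nest γ β k1 le_rfl ((w2.blk le_rfl).2 n1)
        by_contra n4
        obtain ⟨μ, ⟨j1, j2⟩, j3⟩ := ((z0.and m2).and (X.coh (p.cr c) β γ k1 hc.lt _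
          (n3.trans ((z1 μ0 m0).trans b1)) (w1.s1 γ k1).cb ((T μ0).A γ)ᶜ
          (fun μ ν e i j => i ((w1.s2 γ k1).inv n2 _ _ e.symm j))
          (Ultrafilter.compl_mem_iff_notMem.2 n4))).exists
        have n5 : blk (d μ).1.u γ β := n1.sub fun δ j _ j' => (z4 μ j1 δ j').1 j
        have n6 : γ ∉ (d μ).u := mt (z4 μ j1 γ k1).1 k2
        have n7 := (d μ).ok.big γ β n6 ⟨(h2 μ j1.1).1, k1, n5⟩
        rw [show (d μ).1.cr β = μ.c from (h2 μ j1.1).2.1] at n7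
        obtain ⟨ν, i1, i2⟩ := Ultrafilter.nonempty_of_mem (inter_mem j3 n7)
        refine i1 ?_
        rw [j2.A γ k1 n2, Raw.A, XP.s2_pos k1 n5]
        show (ν.comp μ.g).comp μ.g.inv ∈ (d μ).A γ
        rw [Obj.comp_comp]
        refine (d μ).inv n6 _ _ (agr_comp_id ν fun ξ i => ?_).symm i2
        obtain ⟨η, i3⟩ := z2 μ j1 ((dl μ).nest γ β k1 le_rfl n5 i)
        exact PM.mem_comp.2 ⟨η, i3, PM.mem_inv.1 i3⟩)
  have q3 := q1.trans f1.1
  have lq : β ∉ q.u := q3.u ▸ l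
  obtain ⟨r, r1, r2⟩ := exists_shrinkQ lq (q3.host hc).1 (Q := fun μ => Lb β (act q β μ) (d μ))
    (fun μ ν a e k => h1 μ ν (e.mono (q3.b hβ)) ▸ ((act_agr a e).lb β).trans k) (by
      have a := q.ae_adm lq (q3.host hc).1
      rw [(q3.host hc).2] at a ⊢
      filter_upwards [a, z0, m2] with μ a k1 k2
      have t := XP.ok_rf (dl μ) μ.g.inv
      have b := XP.lo_back (dl μ) (z2 μ k1)
      rw [PM.inv_inv] at b
      rw [Lb, act_val a]
      exact (XP.lo_act μ).1.trans isLowerSet_univ ((XP.lo_rf (q2.trans isLowerSet_univ (k2.lo t))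
        (q.lo.mono le_top) t a.dom).trans isLowerSet_univ b))
  exact ⟨r, r1.trans q3, fun μ a => ((act_mono r1 a).lb β).trans (r2 μ a)⟩

end Pool.Agent.Lib.MP_d4b40b_lc.W
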